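import Pool.Agent.SRJ.StB

/-!
# Surjectivity of random homomorphisms to `PSL_n(q)` (MP_5b5212_al): statements, part C

Part C: a sharper character bound for all `q`: `|X(A)| ≤ (|C(A)| q^(-n^2/m))^(1/4) X(1)^(1/2 + 1/(2m) + ε)` for all `A` with a scalar
power `A ^ m`, so that `Q1` holds for all `q` if each part of the list of periods has `σ = ∑ (1 - 1/m_j) > 2`
(instead of five periods). `S_X` is the statement of module `X`; the module proves `theorem t_X : M_X` (or `t_X : S_X` if there is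
no `M_X`) in `Pool/Agent/SRJ/X.lean`, namespace `SRJ`, importing this file. `q = Nat.card F`.
-/

namespace SRJ

open RSF FL0 Polynomial Pool.Agent.Lib_helper13

noncomputable section

/-! ## Definitions -/

open Classical in
/-- the weight of a period: `1 - 1/k` if `k (n, q - 1)` divides `q - 1`, and half of this otherwise -/
def wu (n : ℕ) (F : Type) (k : ℕ) : ℝ :=
  if k * Nat.gcd n (Nat.card F - 1) ∣ Nat.card F - 1 then 1 - 1 / (k : ℝ) else (1 - 1 / (k : ℝ)) / 2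

/-- the total weight of a list of periods -/
def Wu (n : ℕ) (F : Type) (m : List ℕ) : ℝ := (m.map (wu n F)).sum

/-- `diag (1_r, M, 1_*)` -/
def mid {F : Type} [Field F] (n r l : ℕ) (M : Matrix (Fin l) (Fin l) F) : Matrix (Fin n) (Fin n) F :=
  fun i j => if h : (r ≤ i.val ∧ i.val < r + l) ∧ (r ≤ j.val ∧ j.val < r + l) then
    M ⟨i.val - r, by omega⟩ ⟨j.val - r, by omega⟩ else if i = j then 1 else 0

/-- the matrix with the entries `1` at the places `(n - r + s, s)`, `s < r` -/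
def T0 (n r : ℕ) (F : Type) [Field F] : Matrix (Fin n) (Fin n) F :=
  fun i j => if j.val < r ∧ i.val + r = n + j.val then 1 else 0

/-- for `n = 2 r + l`: the character of `GL_l` on the space of the vectors on which the `1 + h`, `h ∈ cor n F r`, act by
`ψ (tr (T0 h))` -/
def Ph {F : Type} [Field F] [Fintype F] (ψ : AddChar F ℂ) (n r l : ℕ) (X : GL (Fin n) F → ℂ)
    (g : GL (Fin l) F) : ℂ :=
  (∑ h ∈ cor n F r, FLC.xm X ((1 + h) * mid n r l (g : Matrix (Fin l) (Fin l) F)) *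
    ψ (-(T0 n r F * h).trace)) / ((cor n F r).card : ℂ)

/-! ## The statements -/

/-- **PHC**. Let `V` be the representation of `X`, `Q` the group of the `1 + h`, `h ∈ cor n F r`, `ĝ = mid n r l g` (a homomorphism
`GL_l → GL_n`). `ĝ (1 + h) ĝ⁻¹ = 1 + h ĝ⁻¹` (`ĝ h = h`: only the first `r` rows of `h` are not `0`) and
`tr (T0 h ĝ⁻¹) = tr (ĝ⁻¹ T0 h) = tr (T0 h)` (only the last `r` rows of `T0` are not `0`), so `ĝ` commutes with the projection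
`e = (1/|Q|) ∑_h ψ(-tr (T0 h)) ρ(1 + h)`, and `Ph g = trace (e ρ(ĝ))` is the character of `GL_l` on the range of `e`
(compare `nru_trace` in `FLC/NRU.lean`). Last claim: definition of `mu`. -/
def S_PHC : Prop :=
  ∀ (n r l : ℕ) (F : Type) [Field F] [Fintype F] [DecidableEq F] (ψ : AddChar F ℂ), ψ ≠ 1 →
    n = 2 * r + l → ∀ X : GL (Fin n) F → ℂ, IsChr X →
      IsChr (Ph ψ n r l X) ∧ Ph ψ n r l X 1 = mu ψ r X (T0 n r F)

/-- **FRR**, Frobenius reciprocity. For all irreducible `X`, `Y` the number `c_Y(X) = ip (Ph ψ n r l X) Y` (up to replacing `Y` by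
`Y ∘ inv`; all are natural numbers by `S_PHC`, `IsChr.exists_ip`) satisfies
`∑_X X(1) c_Y(X) = (1/(|Q| |GL_l|)) ∑_(h, g) ψ(-tr (T0 h)) Y(g⁻¹) ∑_X X(1) X((1 + h) ĝ) = |GL_n| Y(1) / (|Q| |GL_l|)`, because
`∑_X X(1) X(x) = 0` for `x ≠ 1` and `|GL_n|` for `x = 1` (expand the class function: indicator of `1`). All terms are `≥ 0`.
`|Q| = q^(r (n - r))`. -/
def S_FRR : Prop :=
  ∀ (n r l : ℕ) (F : Type) [Field F] [Fintype F] [DecidableEq F] (ψ : AddChar F ℂ), ψ ≠ 1 →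
    n = 2 * r + l → ∀ (X : GL (Fin n) F → ℂ) (Y : GL (Fin l) F → ℂ), IsIrr X → IsIrr Y →
      (ip (Ph ψ n r l X) Y).re * (X 1).re * (Nat.card F ^ (r * (n - r)) * Nat.card (GL (Fin l) F)) ≤
        Nat.card (GL (Fin n) F) * (Y 1).re

def M_FRR : Prop := S_PHC → S_FRR

/-- **REX**, exchange of roots. Coordinates `a' = [0, r)`, `A = [r, k)`, `B = [k, n - r)`, `b' = [n - r, n)`. The groups: `U` (for
`mu ψ k`): the `1 + h` with `h` supported in `(a' ∪ A) × (B ∪ b')` (rows × columns); `H₀`: `1 + h` with `h` supported in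
`a' × (B ∪ b')` and `A × B`; `X₁`: support `A × b'`; `Y₁`: support `a' × A`. `U = H₀ X₁`, and the group of the
`(1 + h) mid (1 + c)`, `h ∈ cor n F r`, `c ∈ cor l F (k - r)`, is `H₀ Y₁`; on both the character is `ψ (tr (T0 h))`, trivial on
`X₁`, `Y₁` and `A × B`, `a' × B`. For `x = 1 + x' ∈ X₁` let `f(x) = (1/|H₀|) ∑_{h ∈ H₀} X(h x) ψ(-tr (T0 h))`. For `y = 1 + y' ∈ Y₁`:
`y x y⁻¹ = x (1 + y' x')`, `y h y⁻¹ ∈ H₀` with the same `ψ`-value, so conjugation by `y` gives `f(x) = ψ (tr (T0 y' x')) f(x)`, and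
`f(x) = 0` for `x' ≠ 0` (nondegenerate). So the average over `U` is `f(1) / |X₁|`; in the same way (exchange the roles of `X₁` and
`Y₁`) the average over `H₀ Y₁` is `f(1) / |Y₁|`, and `|X₁| = |Y₁|`. -/
def S_REX : Prop :=
  ∀ (n r l k : ℕ) (F : Type) [Field F] [Fintype F] [DecidableEq F] (ψ : AddChar F ℂ), ψ ≠ 1 →
    n = 2 * r + l → r ≤ k → k + r ≤ n → ∀ X : GL (Fin n) F → ℂ, IsChr X →
      mu ψ k X (T0 n r F) = mu ψ (k - r) (Ph ψ n r l X) 0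

def M_REX : Prop := FLC.S_XMC → S_REX

/-- **MRB**. `D = X 1`, `N = q^(r (n - r))`, `r` the rank of `T`, `r ≤ k`, `r ≤ n - k`, `l = n - 2 r`. `T` is conjugate to `T0 n r F` by a block
diagonal matrix, so `mu T = mu T0` (`S_MUB` (5)) `= mu ψ (k - r) Φ 0`, `Φ = Ph ψ n r l X = ∑ c_Y Y` over the irreducible characters
`Y` of `GL_l`, `c_Y` natural numbers (`S_PHC`), `Φ(1) ≤ 16 D / N` (`S_RKC` for `k = r`, `T0 ∈ cot n F r`). So
`c_Y ≤ 16 D / (N Y(1))`, and `c_Y ≤ |GL_n| Y(1) / (N |GL_l| D) ≤ 4 N³ Y(1) / D` (`S_FRR`, `|GL_l| ≥ q^(l²)/4` (`RSF.S_PI`),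
`n² - r (n - r) - l² = 3 r (n - r)`). The weighted geometric mean (3/4, 1/4): `c_Y ≤ 16 (D / Y(1))^(1/2)`. Now
`mu ψ (k - r) Φ 0 = ∑ c_Y m_Y`, `m_Y = mu ψ (k - r) Y 0`, which is `av ψ d ∅ (xm Y)` for `d i = if i < k - r then 0 else 1`. If
`l ≥ r₁(ε)`: for nonlinear `Y`, `m_Y ≤ q^(c²) Y(1)^(1/2 + ε/8)` (`S_FLB`, `m = 2`, `l - 2 (k - r) = n - 2 k`), so
`c_Y m_Y ≤ 16 q^(c²) D^(1/2) Y(1)^(ε/8) ≤ 16 q^(c²) D^(1/2) (16 D)^(ε/4) Y(1)^(-ε/8)` (`Y(1) ≤ Φ(1) ≤ 16 D` if `c_Y ≠ 0`), and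
`∑ Y(1)^(-ε/8) ≤ q - 1` (`FLC.S_ZET`); the `q - 1` linear ones (`FLC.S_LIN`): `m_Y ≤ 1`, `c_Y ≤ 16 D^(1/2)`. If `l < r₁`:
`mu ≤ Φ(1) ≤ 16 D / N`, `N = q^((n² - l²)/4)`, `D² ≤ |GL_n| ≤ q^(n²)`, so `D / N ≤ D^(1/2) q^(r₁²/4)`. In all cases
`mu ≤ D^(1/2 + ε)` for `n` large because `D ≥ q^(n/2) / 4` (`FLC.S_STR`; `X` is not linear). -/
def S_MRB : Prop :=
  ∀ ε : ℝ, 0 < ε → ∀ c : ℕ, ∃ r₀ : ℕ, ∀ n : ℕ, r₀ ≤ n →
    ∀ (F : Type) [Field F] [Fintype F] [DecidableEq F] (ψ : AddChar F ℂ), ψ ≠ 1 →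
    ∀ (X : GL (Fin n) F → ℂ), IsIrr X → X 1 ≠ 1 → ∀ k : ℕ, k ≤ n → n ≤ 2 * k + c → 2 * k ≤ n + c →
      ∀ T ∈ cot n F k, (mu ψ k X T).re ≤ (X 1).re ^ (1 / 2 + ε)

def M_MRB : Prop :=
  RSF.S_PI → FLC.S_STR → FLC.S_ZET → FLC.S_LIN → S_FLB → S_MUB → S_RKC → S_PHC → S_FRR → S_REX → S_MRB

/-- **NSC** (compare `NSB.lean`). `D = X 1 ≥ q^(n/2) / 4`. `k`, `A' = P A P⁻¹` from `S_CTM`, `X A = X A'`, `S_BIL`:
`|X A| ≤ ∑_T mu T` over the `T ∈ cot` commuting with `A'`. For a `T` of rank `r`, `N = q^(r (n-r))`: `mu T ≤ 16 D / N` (`S_RKC`),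
`mu T ≤ D^(1/2 + ε/2)` (`S_MRB`, `c = 2 m + 1`), so `mu T ≤ (16 D / N)^(1/m) (D^(1/2 + ε/2))^(1 - 1/m)` and
`mu T · N^(1/m) ≤ 16 D^(1/2 + 1/(2m) + ε/2)`. By `S_CTM` the sum over the `T` of rank `r` is at most
`(n+1)^m 4^m E 16 D^(1/2 + 1/(2m) + ε/2)`, `E = (cN A q^(-n^2/m))^(1/4)`; at most `n + 1` values of `r`; and
`16 (n+1)^(m+1) 4^m ≤ D^(ε/2)` for `n ≥ r`. -/
def S_NSC : Prop :=
  ∀ m : ℕ, 1 ≤ m → ∀ ε : ℝ, 0 < ε → ∃ r : ℕ, ∀ n : ℕ, r ≤ n →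
    ∀ (F : Type) [Field F] [Fintype F] [DecidableEq F] (X : GL (Fin n) F → ℂ), IsIrr X → X 1 ≠ 1 →
    ∀ (A : GL (Fin n) F) (ζ : F), (A : Matrix (Fin n) (Fin n) F) ^ m = Matrix.scalar (Fin n) ζ →
      ‖X A‖ ≤ ((cN (A : Matrix (Fin n) (Fin n) F) : ℝ) *
          (Nat.card F : ℝ) ^ (-((n : ℝ) ^ 2 / m))) ^ (1 / 4 : ℝ) *
        (X 1).re ^ (1 / 2 + 1 / (2 * (m : ℝ)) + ε)

def M_NSC : Prop := FLC.S_STR → S_MUB → S_BIL → S_RKC → S_MRB → S_CTM → S_NSC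

/-- **SBD** (copy `SBA.lean`): `S_NSC` with `ε/2` and `S_CLQ`. -/
def S_SBD : Prop :=
  ∀ k : ℕ, 2 ≤ k → ∀ ε : ℝ, 0 < ε → ∃ r : ℕ, ∀ n, r ≤ n → ∀ (F : Type) [Field F] [Finite F],
    SB k (1 / 2 + 1 / (2 * (k : ℝ)) + ε) n F

def M_SBD : Prop := FLC.S_STR → S_NSC → S_CLQ → S_POL → S_SBD

/-- **NUY** (copy `NUX.lean`): the weight of `k` is `1 - 1/k` (`S_SBS`) or `(1 - 1/k)/2 = 1 - (1/2 + 1/(2k))` (`S_SBD`). -/
def S_NUY : Prop :=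
  ∀ m : List ℕ, (∀ k ∈ m, 2 ≤ k) → ∃ (c : ℝ) (r : ℕ), 0 < c ∧ 1 ≤ r ∧ ∀ n, r ≤ n →
    ∀ (F : Type) [Field F] [Finite F], 1 < Wu n F m → V2 (PS n F) m ≤ (Nat.card F : ℝ) ^ (-c * (n : ℝ))

def M_NUY : Prop := S_SBD → S_SBS → S_LTP → S_NUY

/-- Q1 for the family `PSL_n(q)`, `n ≥ r`, and the groups of the four open classes with sufficiently many periods. A period `k` has
the weight `1 - 1/k` if `k (n, q-1) ∣ q - 1` and half of this otherwise; in particular, for all `q`, it is enough that each part of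
the list of periods has `∑ (1 - 1/k) > 2`. -/
def MainU : Prop :=
  ∀ m₁ m₂ m₃ : List ℕ, (∀ k ∈ m₁ ++ m₂ ++ m₃, 2 ≤ k) → ∃ r : ℕ, ∀ ε : ℝ, 0 < ε → ∃ N : ℕ,
    ∀ n, r ≤ n → ∀ (F : Type) [Field F] [Finite F], N ≤ Nat.card (PS n F) → 1 < Wu n F m₁ →
      1 - ε ≤ prob (OGroup 1 m₁) (PS n F) (fun ρ => Function.Surjective ρ) ∧
      1 - ε ≤ prob (NGroup 2 m₁) (PS n F) (fun ρ => Function.Surjective ρ) ∧
      (1 < Wu n F m₂ →
        1 - ε ≤ prob (NGroup 1 (m₁ ++ m₂)) (PS n F) (fun ρ => Function.Surjective ρ) ∧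
        (1 < Wu n F m₃ →
          1 - ε ≤ prob (OGroup 0 (m₁ ++ m₂ ++ m₃)) (PS n F) (fun ρ => Function.Surjective ρ)))

/-- **MAU** (copy `MAIN.lean` with `S_NUY`). -/
def M_MAU : Prop :=
  S_NUY → S_ZEP → S_TVB → S_TVA → S_TVO → S_GEN → MainU

end

end SRJ
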