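import Mathlib
import Pool.Agent.SRJ.StC

/-!
# SRJ, PHC: the character of the middle group on an isotypic space of the corner group
-/

set_option autoImplicit false

namespace SRJ

open RSF FL0 Polynomial Pool.Agent.Lib_helper13 Representation

/-! ## Representations -/

section

variable {G : Type} [Group G] [Fintype G] {N : ℕ} (ρ : Representation ℂ G (Fin N → ℂ))
  {A : Type} [AddCommGroup A] [Fintype A] (u : A → G) (θ : AddChar A ℂ)

/-- the projection -/
noncomputable def phc_e : (Fin N → ℂ) →ₗ[ℂ] (Fin N → ℂ) :=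
  (Fintype.card A : ℂ)⁻¹ • ∑ a : A, θ (-a) • ρ (u a)

omit [Fintype G] in
theorem phc_apply (v : Fin N → ℂ) :
    phc_e ρ u θ v = (Fintype.card A : ℂ)⁻¹ • ∑ a : A, θ (-a) • ρ (u a) v := by
  rw [phc_e, LinearMap.smul_apply, LinearMap.sum_apply]
  rfl

omit [Fintype G] [Fintype A] in
theorem phc_theta (a : A) : θ (-a) * θ a = 1 := by
  rw [← AddChar.map_add_eq_mul, neg_add_cancel, AddChar.map_zero_eq_one]

omit [Fintype G] in
theorem phc_inv (hu : ∀ a b, u (a + b) = u a * u b) (b : A) (v : Fin N → ℂ) :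
    ρ (u b) (phc_e ρ u θ v) = θ b • phc_e ρ u θ v := by
  rw [phc_apply, map_smul, map_sum, smul_comm]
  congr 1
  rw [Finset.smul_sum]
  refine Fintype.sum_equiv (Equiv.addLeft b) _ _ fun a => ?_
  have h1 : θ b * θ (-(b + a)) = θ (-a) := by
    rw [← AddChar.map_add_eq_mul]
    congr 1
    rw [neg_add, add_neg_cancel_left]
  rw [Equiv.coe_addLeft, hu, map_mul, map_smul, smul_smul, h1]
  rfl

omit [Fintype G] in
theorem phc_id (v : Fin N → ℂ) (hv : ∀ b : A, ρ (u b) v = θ b • v) : phc_e ρ u θ v = v := by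
  have hc : (Fintype.card A : ℂ) ≠ 0 := by
    have : Fintype.card A ≠ 0 := Fintype.card_ne_zero
    exact_mod_cast this
  rw [phc_apply, Finset.sum_congr rfl fun a _ => by
    rw [hv a, smul_smul, phc_theta, one_smul], Finset.sum_const, Finset.card_univ,
    ← Nat.cast_smul_eq_nsmul ℂ, smul_smul, inv_mul_cancel₀ hc, one_smul]

omit [Fintype G] in
theorem phc_comm (x : G) (c : A ≃ A) (hc : ∀ a, x * u a = u (c a) * x)
    (hθ : ∀ a, θ (c a) = θ a) (v : Fin N → ℂ) :
    ρ x (phc_e ρ u θ v) = phc_e ρ u θ (ρ x v) := by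
  rw [phc_apply, phc_apply, map_smul, map_sum]
  congr 1
  refine Fintype.sum_equiv c _ _ fun a => ?_
  rw [map_smul]
  have h1 : θ (-(c a)) = θ (-a) := by
    have h2 := phc_theta θ a
    have h3 := phc_theta θ (c a)
    rw [hθ a] at h3
    have h4 : θ a ≠ 0 := fun h => by
      rw [h, mul_zero] at h2
      exact zero_ne_one h2
    exact mul_right_cancel₀ h4 (h3.trans h2.symm)
  rw [h1]
  congr 1
  have h5 := congrArg (fun y => ρ y v) (hc a)
  simp only [map_mul] at h5
  exact h5

omit [Fintype G] in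
theorem phc_trace (x : G) : LinearMap.trace ℂ (Fin N → ℂ) (ρ x ∘ₗ phc_e ρ u θ) =
    (Fintype.card A : ℂ)⁻¹ * ∑ a : A, θ (-a) * ρ.character (u a * x) := by
  have h1 : ρ x ∘ₗ phc_e ρ u θ = (Fintype.card A : ℂ)⁻¹ • ∑ a : A, θ (-a) • ρ (x * u a) := by
    refine LinearMap.ext fun v => ?_
    simp only [LinearMap.comp_apply, phc_apply, map_smul, map_sum, LinearMap.smul_apply,
      LinearMap.sum_apply, map_mul]
    rfl
  rw [h1, map_smul, map_sum, smul_eq_mul]
  congr 1
  refine Finset.sum_congr rfl fun a _ => ?_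
  rw [map_smul, smul_eq_mul, ← Representation.char_mul_comm]
  rfl

/-- the character on the isotypic space -/
theorem phc_main (hu : ∀ a b, u (a + b) = u a * u b) {L : Type} [Group L] (j : L →* G)
    (hj : ∀ g : L, ∃ c : A ≃ A, (∀ a, j g * u a = u (c a) * j g) ∧ ∀ a, θ (c a) = θ a) :
    IsChr (fun g : L => (Fintype.card A : ℂ)⁻¹ * ∑ a : A, θ (-a) * ρ.character (u a * j g)) := by
  let σ : Representation ℂ L (Fin N → ℂ) := ρ.comp j
  have hW : ∀ v : Fin N → ℂ, v ∈ LinearMap.range (phc_e ρ u θ) ↔ phc_e ρ u θ v = v := fun v => by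
    constructor
    · rintro ⟨w, rfl⟩
      exact phc_id ρ u θ _ fun b => phc_inv ρ u θ hu b w
    · intro h
      exact ⟨v, h⟩
  have hcm : ∀ (g : L) (v : Fin N → ℂ), ρ (j g) (phc_e ρ u θ v) = phc_e ρ u θ (ρ (j g) v) := by
    intro g v
    obtain ⟨c, h1, h2⟩ := hj g
    exact phc_comm ρ u θ (j g) c h1 h2 v
  let S : Subrepresentation σ :=
    { toSubmodule := LinearMap.range (phc_e ρ u θ)
      apply_mem_toSubmodule := fun g v hv => by
        rw [hW] at hv ⊢
        have h1 := hcm g v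
        rw [hv] at h1
        exact h1.symm }
  have hchar : S.toRepresentation.character =
      fun g : L => (Fintype.card A : ℂ)⁻¹ * ∑ a : A, θ (-a) * ρ.character (u a * j g) := by
    funext g
    rw [← phc_trace]
    have h1 : ∀ v, (ρ (j g) ∘ₗ phc_e ρ u θ) v ∈ S.toSubmodule := fun v =>
      S.apply_mem_toSubmodule g (v := phc_e ρ u θ v) ⟨v, rfl⟩
    have h2 := LinearMap.trace_restrict_eq_of_forall_mem S.toSubmodule (ρ (j g) ∘ₗ phc_e ρ u θ) h1
    rw [← h2]
    show LinearMap.trace ℂ _ (S.toRepresentation g) = _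
    congr 1
    ext1 v
    apply Subtype.ext
    show ρ (j g) (v : Fin N → ℂ) = ρ (j g) (phc_e ρ u θ v)
    rw [(hW _).mp v.2]
  rw [← hchar]
  exact isChr_of_rep _

end

/-! ## Matrices -/

section

variable {F : Type} [Field F] {n r l : ℕ}

theorem phc_sum (hn : n = 2 * r + l) (f : Fin n → F)
    (hf : ∀ k : Fin n, ¬ (r ≤ k.val ∧ k.val < r + l) → f k = 0) :
    ∑ k, f k = ∑ s : Fin l, f ⟨r + s, by omega⟩ := by
  symm
  refine Finset.sum_of_injOn (fun s : Fin l => (⟨r + s, by omega⟩ : Fin n)) ?_ ?_ ?_ ?_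
  · intro s _ t _ h
    have := congrArg Fin.val h
    exact Fin.ext (by simpa using this)
  · intro s _
    simp
  · intro k _ hk
    refine hf k fun h => hk ⟨⟨k.val - r, by omega⟩, by simp, Fin.ext ?_⟩
    show r + (k.val - r) = k.val
    omega
  · intro s _
    rfl

theorem phc_mid_row (M : Matrix (Fin l) (Fin l) F) (i k : Fin n)
    (hi : ¬ (r ≤ i.val ∧ i.val < r + l)) : mid n r l M i k = if i = k then 1 else 0 := by
  rw [mid, dif_neg (fun h => hi h.1)]

theorem phc_mid_col (M : Matrix (Fin l) (Fin l) F) (i k : Fin n)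
    (hk : ¬ (r ≤ k.val ∧ k.val < r + l)) : mid n r l M i k = if i = k then 1 else 0 := by
  rw [mid, dif_neg (fun h => hk h.2)]

theorem phc_mid_mid (M : Matrix (Fin l) (Fin l) F) (i k : Fin n)
    (hi : r ≤ i.val ∧ i.val < r + l) (hk : r ≤ k.val ∧ k.val < r + l) :
    mid n r l M i k = M ⟨i.val - r, by omega⟩ ⟨k.val - r, by omega⟩ := by
  rw [mid, dif_pos ⟨hi, hk⟩]

theorem phc_mid_one : mid n r l (1 : Matrix (Fin l) (Fin l) F) = 1 := by
  ext i j
  by_cases hi : r ≤ i.val ∧ i.val < r + l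
  · by_cases hj : r ≤ j.val ∧ j.val < r + l
    · rw [phc_mid_mid _ _ _ hi hj, Matrix.one_apply, Matrix.one_apply]
      have : ((⟨i.val - r, by omega⟩ : Fin l) = ⟨j.val - r, by omega⟩) ↔ i = j := by
        rw [Fin.mk.injEq, Fin.ext_iff]
        omega
      simp only [this]
    · rw [phc_mid_col _ _ _ hj, Matrix.one_apply]
  · rw [phc_mid_row _ _ _ hi, Matrix.one_apply]

theorem phc_mid_mul (hn : n = 2 * r + l) (M M' : Matrix (Fin l) (Fin l) F) :
    mid n r l (M * M') = mid n r l M * mid n r l M' := by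
  ext i j
  rw [Matrix.mul_apply]
  by_cases hi : r ≤ i.val ∧ i.val < r + l
  · by_cases hj : r ≤ j.val ∧ j.val < r + l
    · rw [phc_sum hn _ (fun k hk => by
        rw [phc_mid_col _ _ _ hk, if_neg (fun h : i = k => hk (h ▸ hi)), zero_mul]),
        phc_mid_mid _ _ _ hi hj, Matrix.mul_apply]
      refine Finset.sum_congr rfl fun s _ => ?_
      rw [phc_mid_mid _ _ _ hi ⟨by simp, by simp⟩, phc_mid_mid _ _ _ ⟨by simp, by simp⟩ hj]
      simp
    · rw [phc_mid_col _ _ _ hj]
      simp only [phc_mid_col _ _ _ hj]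
      rw [Finset.sum_eq_single j]
      · rw [phc_mid_col _ _ _ hj, if_pos rfl, mul_one]
      · intro k _ hk
        rw [if_neg hk, mul_zero]
      · intro h
        exact absurd (Finset.mem_univ _) h
  · rw [phc_mid_row _ _ _ hi, Finset.sum_eq_single i]
    · rw [phc_mid_row _ _ _ hi, if_pos rfl, one_mul, phc_mid_row _ _ _ hi]
    · intro k _ hk
      rw [phc_mid_row _ _ _ hi, if_neg (fun h => hk h.symm), zero_mul]
    · intro h
      exact absurd (Finset.mem_univ _) h

/-- the embedding of the middle group -/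
def phc_j (hn : n = 2 * r + l) : GL (Fin l) F →* GL (Fin n) F where
  toFun g :=
    { val := mid n r l (g : Matrix (Fin l) (Fin l) F)
      inv := mid n r l ((g⁻¹ : GL (Fin l) F) : Matrix (Fin l) (Fin l) F)
      val_inv := by
        rw [← phc_mid_mul hn, ← Units.val_mul, mul_inv_cancel, Units.val_one, phc_mid_one]
      inv_val := by
        rw [← phc_mid_mul hn, ← Units.val_mul, inv_mul_cancel, Units.val_one, phc_mid_one] }
  map_one' := Units.ext phc_mid_one
  map_mul' g g' := Units.ext (phc_mid_mul hn _ _)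

/-- the corner group -/
def phc_A (n : ℕ) (F : Type) [Field F] (r : ℕ) : AddSubgroup (Matrix (Fin n) (Fin n) F) where
  carrier := {h | ∀ i j : Fin n, ¬ (i.val < r ∧ r ≤ j.val) → h i j = 0}
  zero_mem' := fun _ _ _ => rfl
  add_mem' := fun {a b} ha hb i j hij => by
    rw [Matrix.add_apply, ha i j hij, hb i j hij, add_zero]
  neg_mem' := fun {a} ha i j hij => by
    rw [Matrix.neg_apply, ha i j hij, neg_zero]

theorem phc_AA (a b : Matrix (Fin n) (Fin n) F) (ha : a ∈ phc_A n F r) (hb : b ∈ phc_A n F r) :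
    a * b = 0 := by
  ext i j
  rw [Matrix.mul_apply, Matrix.zero_apply]
  refine Finset.sum_eq_zero fun k _ => ?_
  by_cases hk : k.val < r
  · rw [ha i k (by omega), zero_mul]
  · rw [hb k j (by omega), mul_zero]

/-- the elements of the corner group -/
def phc_u (a : phc_A n F r) : GL (Fin n) F where
  val := 1 + a.1
  inv := 1 - a.1
  val_inv := by
    have := phc_AA a.1 a.1 a.2 a.2
    rw [add_mul, mul_sub, mul_sub, this]
    simp
  inv_val := by
    have := phc_AA a.1 a.1 a.2 a.2
    rw [sub_mul, mul_add, mul_add, this]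
    simp

theorem phc_u_add (a b : phc_A n F r) : phc_u (a + b) = phc_u a * phc_u b := by
  apply Units.ext
  show 1 + (a.1 + b.1) = (1 + a.1) * (1 + b.1)
  rw [add_mul, mul_add, mul_add, phc_AA a.1 b.1 a.2 b.2, one_mul, one_mul, mul_one, add_zero]
  abel

theorem phc_mid_cor (M : Matrix (Fin l) (Fin l) F) (a : Matrix (Fin n) (Fin n) F)
    (ha : a ∈ phc_A n F r) : mid n r l M * a = a := by
  ext i j
  rw [Matrix.mul_apply, Finset.sum_eq_single i]
  · by_cases hi : i.val < r
    · rw [phc_mid_row _ _ _ (by omega), if_pos rfl, one_mul]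
    · rw [ha i j (by omega), mul_zero]
  · intro k _ hk
    by_cases hkr : k.val < r
    · rw [phc_mid_col _ _ _ (by omega), if_neg (fun h => hk h.symm), zero_mul]
    · rw [ha k j (by omega), mul_zero]
  · intro h
    exact absurd (Finset.mem_univ _) h

theorem phc_cor_mid (M : Matrix (Fin l) (Fin l) F) (a : Matrix (Fin n) (Fin n) F)
    (ha : a ∈ phc_A n F r) : a * mid n r l M ∈ phc_A n F r := by
  intro i j hij
  rw [Matrix.mul_apply]
  refine Finset.sum_eq_zero fun k _ => ?_
  by_cases hk : i.val < r ∧ r ≤ k.val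
  · have hj : j.val < r := by omega
    rw [phc_mid_col _ _ _ (by omega), if_neg (fun h => by rw [h] at hk; omega), mul_zero]
  · rw [ha i k hk, zero_mul]

theorem phc_mid_T0 (hn : n = 2 * r + l) (M : Matrix (Fin l) (Fin l) F) :
    mid n r l M * T0 n r F = T0 n r F := by
  ext i j
  rw [Matrix.mul_apply, Finset.sum_eq_single i]
  · by_cases hi : r + l ≤ i.val
    · rw [phc_mid_row _ _ _ (by omega), if_pos rfl, one_mul]
    · rw [T0, if_neg (by omega), mul_zero]
  · intro k _ hk
    by_cases hkr : r + l ≤ k.val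
    · rw [phc_mid_col _ _ _ (by omega), if_neg (fun h => hk h.symm), zero_mul]
    · rw [T0, if_neg (by omega), mul_zero]
  · intro h
    exact absurd (Finset.mem_univ _) h

/-- the conjugation -/
def phc_c (hn : n = 2 * r + l) (g : GL (Fin l) F) : phc_A n F r ≃ phc_A n F r where
  toFun a := ⟨a.1 * mid n r l ((g⁻¹ : GL (Fin l) F) : Matrix (Fin l) (Fin l) F),
    phc_cor_mid _ _ a.2⟩
  invFun a := ⟨a.1 * mid n r l (g : Matrix (Fin l) (Fin l) F), phc_cor_mid _ _ a.2⟩
  left_inv a := Subtype.ext (by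
    show a.1 * mid n r l ((g⁻¹ : GL (Fin l) F) : Matrix (Fin l) (Fin l) F) *
      mid n r l (g : Matrix (Fin l) (Fin l) F) = a.1
    rw [mul_assoc, ← phc_mid_mul hn, ← Units.val_mul, inv_mul_cancel, Units.val_one, phc_mid_one,
      mul_one])
  right_inv a := Subtype.ext (by
    show a.1 * mid n r l (g : Matrix (Fin l) (Fin l) F) *
      mid n r l ((g⁻¹ : GL (Fin l) F) : Matrix (Fin l) (Fin l) F) = a.1
    rw [mul_assoc, ← phc_mid_mul hn, ← Units.val_mul, mul_inv_cancel, Units.val_one, phc_mid_one,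
      mul_one])

theorem phc_c_mul (hn : n = 2 * r + l) (g : GL (Fin l) F) (a : phc_A n F r) :
    phc_j hn g * phc_u a = phc_u (phc_c hn g a) * phc_j hn g := by
  apply Units.ext
  show mid n r l (g : Matrix (Fin l) (Fin l) F) * (1 + a.1) =
    (1 + a.1 * mid n r l ((g⁻¹ : GL (Fin l) F) : Matrix (Fin l) (Fin l) F)) *
      mid n r l (g : Matrix (Fin l) (Fin l) F)
  rw [mul_add, mul_one, add_mul, one_mul, mul_assoc, ← phc_mid_mul hn, ← Units.val_mul,
    inv_mul_cancel, Units.val_one, phc_mid_one, mul_one, phc_mid_cor _ _ a.2]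

/-- the additive character -/
noncomputable def phc_theta0 (ψ : AddChar F ℂ) (n r : ℕ) : AddChar (phc_A n F r) ℂ where
  toFun a := ψ ((T0 n r F * a.1).trace)
  map_zero_eq_one' := by
    show ψ ((T0 n r F * 0).trace) = 1
    rw [mul_zero, Matrix.trace_zero, AddChar.map_zero_eq_one]
  map_add_eq_mul' a b := by
    show ψ ((T0 n r F * (a.1 + b.1)).trace) = _
    rw [mul_add, Matrix.trace_add, AddChar.map_add_eq_mul]

theorem phc_xm (X : GL (Fin n) F → ℂ) (x : GL (Fin n) F) :
    FLC.xm X (x : Matrix (Fin n) (Fin n) F) = X x := by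
  rw [FLC.xm, dif_pos x.isUnit]
  congr 1
  apply Units.ext
  rfl

end

theorem t_PHC : S_PHC := by
  classical
  intro n r l F _ _ _ ψ hψ hn X hX
  constructor
  · obtain ⟨N, ρ, rfl⟩ := hX
    have : Fintype (phc_A n F r) := Fintype.ofFinite _
    have h1 := phc_main ρ (phc_u (n := n) (F := F) (r := r)) (phc_theta0 ψ n r) phc_u_add
      (phc_j (F := F) hn) (fun g => ⟨phc_c hn g, phc_c_mul hn g, fun a => by
        show ψ ((T0 n r F * (a.1 * mid n r l
          ((g⁻¹ : GL (Fin l) F) : Matrix (Fin l) (Fin l) F))).trace) =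
          ψ ((T0 n r F * a.1).trace)
        rw [← mul_assoc, Matrix.trace_mul_comm, ← mul_assoc, phc_mid_T0 hn]⟩)
    have h2 : Ph ψ n r l ρ.character = fun g : GL (Fin l) F =>
        (Fintype.card (phc_A n F r) : ℂ)⁻¹ * ∑ a : phc_A n F r,
          phc_theta0 ψ n r (-a) * ρ.character (phc_u a * phc_j hn g) := by
      funext g
      have hmem : ∀ h : Matrix (Fin n) (Fin n) F, h ∈ cor n F r ↔ h ∈ phc_A n F r := by
        intro h
        simp only [cor, Finset.mem_filter, Finset.mem_univ, true_and]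
        rfl
      rw [Ph, Finset.sum_subtype (cor n F r) hmem, div_eq_inv_mul]
      have hcard : (cor n F r).card = Fintype.card (phc_A n F r) := by
        rw [Fintype.card_of_subtype (cor n F r) hmem]
      rw [hcard]
      congr 1
      refine Finset.sum_congr rfl fun a _ => ?_
      rw [mul_comm]
      congr 1
      · show ψ (-(T0 n r F * a.1).trace) = ψ ((T0 n r F * (-a.1)).trace)
        rw [mul_neg, Matrix.trace_neg]
      · exact phc_xm ρ.character (phc_u a * phc_j hn g)
    rw [h2]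
    exact h1
  · rw [Ph, mu]
    congr 1
    refine Finset.sum_congr rfl fun h _ => ?_
    rw [Units.val_one, phc_mid_one, mul_one]

end SRJ
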