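import Pool.Agent.FLW.StW

/-!
# Surjectivity of random homomorphisms to `PSL_n(q)` (MP_5b5212_al): statements, part A

Part A: equidistribution of products of elliptic elements. For all `q`: a character bound for all elements `A` of
`GL_n(q)` with a scalar power `A ^ m`, `|X(A)| ≤ (|C(A)| q^(-n^2/m))^(1/4) X(1)^(3/4 + ε)`, and (also with the sharper
bound of `FLC.S_FL` for split elements) the number of tuples `t_j ^ m_j = 1` with product `g` is nearly constant in `L²`.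
`S_X` is the statement of module `X`; the module proves `theorem t_X : M_X` (or `t_X : S_X` if there is
no `M_X`) in `Pool/Agent/SRJ/X.lean`, namespace `SRJ`, importing this file. The proved files of
`Pool/Agent/FLC`, `FL0`, `FLN`, `FLW`, `RSF` and `Pool/Agent/Lib_helper13` may be imported. `d = m.length`,
`q = Nat.card F`.
-/

namespace SRJ

open RSF FL0 Polynomial Pool.Agent.Lib_helper13

noncomputable section

/-! ## Definitions -/

/-- the number of the matrices that commute with `A` -/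
def cN {n : ℕ} {F : Type} [Field F] (A : Matrix (Fin n) (Fin n) F) : ℕ :=
  Nat.card {B : Matrix (Fin n) (Fin n) F // B * A = A * B}

/-- the relative variance of the number of the tuples with a given product -/
def V2 (G : Type) [Group G] (m : List ℕ) : ℝ :=
  (∑ᶠ g : G, ((fL G m g : ℝ) - JJ G m / Nat.card G) ^ 2) * Nat.card G / (JJ G m : ℝ) ^ 2

/-- the proportion of the pairs that do not generate the group -/
def ngp (G : Type) [Group G] : ℝ :=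
  (Nat.card {p : G × G // Subgroup.closure {p.1, p.2} ≠ ⊤} : ℝ) / (Nat.card G : ℝ) ^ 2

/-- the sums of the nonlinear irreducible characters of `GL_n` over the elements of `SL_n` with central `k`-th power -/
def SB (k : ℕ) (e : ℝ) (n : ℕ) (F : Type) [Field F] [Finite F] : Prop :=
  ∀ X : GL (Fin n) F → ℂ, IsIrr X → X 1 ≠ 1 →
    ‖∑ᶠ A : CA n F k, X (Matrix.SpecialLinearGroup.toGL A.1)‖ ≤
      Nat.card (CA n F k) * (X 1).re ^ e

open Classical in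
/-- the weight of a period: `1 - 1/k` if `k (n, q - 1)` divides `q - 1`, and `1/4` otherwise -/
def wt (n : ℕ) (F : Type) (k : ℕ) : ℝ :=
  if k * Nat.gcd n (Nat.card F - 1) ∣ Nat.card F - 1 then 1 - 1 / (k : ℝ) else 1 / 4

/-- the total weight of a list of periods -/
def Wt (n : ℕ) (F : Type) (m : List ℕ) : ℝ := (m.map (wt n F)).sum

open Classical in
/-- the matrices `h` with `h i j = 0` unless `i < k ≤ j` -/
def cor (n : ℕ) (F : Type) [Field F] [Fintype F] (k : ℕ) : Finset (Matrix (Fin n) (Fin n) F) :=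
  Finset.univ.filter fun h => ∀ i j : Fin n, ¬ (i.val < k ∧ k ≤ j.val) → h i j = 0

open Classical in
/-- the matrices `T` with `T i j = 0` unless `j < k ≤ i` -/
def cot (n : ℕ) (F : Type) [Field F] [Fintype F] (k : ℕ) : Finset (Matrix (Fin n) (Fin n) F) :=
  Finset.univ.filter fun T => ∀ i j : Fin n, ¬ (j.val < k ∧ k ≤ i.val) → T i j = 0

/-- the multiplicity of the character `h ↦ ψ (tr (T h))` in the restriction of `X` to the group of the `1 + h`,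
`h ∈ cor n F k` -/
def mu {n : ℕ} {F : Type} [Field F] [Fintype F] (ψ : AddChar F ℂ) (k : ℕ)
    (X : GL (Fin n) F → ℂ) (T : Matrix (Fin n) (Fin n) F) : ℂ :=
  (∑ h ∈ cor n F k, FLC.xm X (1 + h) * ψ (-(T * h).trace)) / ((cor n F k).card : ℂ)

/-- block diagonal for the first `k` and the last `n - k` coordinates -/
def BD {n : ℕ} {F : Type} [Field F] (k : ℕ) (A : Matrix (Fin n) (Fin n) F) : Prop :=
  ∀ i j : Fin n, ¬ (i.val < k ↔ j.val < k) → A i j = 0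

/-! ## 1. Multiplicities for the corner group -/

/-- **MUB**. `h ↦ 1 + h` is a homomorphism from the additive group `cor n F k` to `GL_n` (`h h' = 0`; `det (1 + h) = 1`), so
`h ↦ X (1 + h)` is a character of an abelian group; its characters are the `h ↦ ψ (tr (T h))`, `T ∈ cot n F k`, different for
different `T` (`ψ ≠ 1`, the trace form is a perfect pairing of `cot` and `cor`, which have the same number of elements): Fourier
inversion. (1) `mu` is a natural number (`FLC.S_MN`, `FLC.mlt`, the group of the `1 + h`; or `FLC.S_BRG` for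
`d i = if i < k then 0 else 1` conjugated). (2) inversion. (3) at `h = 0`. (4) Parseval: `X (1 - h)` is the conjugate of
`X (1 + h)`. (5) substitute `h = g⁻¹ h' g` (`g` block diagonal, so is `g⁻¹`); `xm X` is invariant under conjugation
(`FLC.S_XMC`). -/
def S_MUB : Prop :=
  ∀ (n : ℕ) (F : Type) [Field F] [Fintype F] [DecidableEq F] (ψ : AddChar F ℂ), ψ ≠ 1 →
    ∀ (k : ℕ) (X : GL (Fin n) F → ℂ), IsChr X →
    (∀ T, ∃ j : ℕ, mu ψ k X T = j) ∧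
    (∀ h ∈ cor n F k, FLC.xm X (1 + h) = ∑ T ∈ cot n F k, mu ψ k X T * ψ (T * h).trace) ∧
    (∑ T ∈ cot n F k, (mu ψ k X T).re = (X 1).re) ∧
    (∑ T ∈ cot n F k, (mu ψ k X T).re ^ 2 =
      (∑ h ∈ cor n F k, ‖FLC.xm X (1 + h)‖ ^ 2) / ((cor n F k).card : ℝ)) ∧
    ∀ (g : GL (Fin n) F) (T : Matrix (Fin n) (Fin n) F), BD k (g : Matrix (Fin n) (Fin n) F) →
      mu ψ k X ((g : Matrix (Fin n) (Fin n) F) * T * ((g⁻¹ : GL (Fin n) F) : Matrix (Fin n) (Fin n) F)) =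
        mu ψ k X T

def M_MUB : Prop := FLC.S_MN → FLC.S_XMC → S_MUB

/-- **RKC**. Two elements of `cot n F k` of the same rank are conjugate by a block diagonal `g = diag(g₁, g₂)`
(`T ↦ g₂ T g₁⁻¹` on the block, an `(n - k) × k` matrix, `k ≤ n`), so `mu` depends only on the rank `r`, and the number of the
`T ∈ cot n F k` of rank `r` (if there is one, `r ≤ k`, `r ≤ n - k`) is at least
`∏_{i<r} (q^k - q^i) · (number of r-dimensional subspaces of F^(n-k)) ≥ (1/4) q^(k r) q^(r (n-k-r))` (`RSF.S_PI`,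
`RSF.S_SUB`; the matrices with a given `r`-dimensional column space are the surjections `F^k → F^r`). Third and fourth sum in
`S_MUB`. -/
def S_RKC : Prop :=
  ∀ (n : ℕ) (F : Type) [Field F] [Fintype F] [DecidableEq F] (ψ : AddChar F ℂ), ψ ≠ 1 →
    ∀ (k : ℕ) (X : GL (Fin n) F → ℂ), k ≤ n → IsChr X → ∀ T ∈ cot n F k,
      (Nat.card F : ℝ) ^ (T.rank * (n - T.rank)) * (mu ψ k X T).re ≤ 16 * (X 1).re ∧
      (Nat.card F : ℝ) ^ (T.rank * (n - T.rank)) * (mu ψ k X T).re ^ 2 ≤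
        16 * ∑ T' ∈ cot n F k, (mu ψ k X T').re ^ 2

def M_RKC : Prop := RSF.S_PI → RSF.S_SUB → S_MUB → S_RKC

/-- **BIL**. Let `R` be the set of the `A⁻¹ x A - x`, `x ∈ cor n F k` (an `F`-subspace of `cor`; `A`, `A⁻¹` are block diagonal, so
`A⁻¹ x A ∈ cor`, and `x A x = 0`). `(1 + x) A (1 + x)⁻¹ = A + x A - A x = A (1 + (A⁻¹ x A - x))`, so `X (A u) = X A` for all
`u ∈ U = 1 + R`, and `A U A⁻¹ ⊆ U` (`A (A⁻¹ x A - x) A⁻¹ = A⁻¹ y A - y` for `y = A x A⁻¹`). `FLC.S_NRU`: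
`|X A|` is at most the multiplicity of the trivial character in `U`, the average of the `X (1 + h)`, `h ∈ R`, which is
(`S_MUB` (2)) the sum of the `mu T` over the `T ∈ cot` with `ψ (tr (T h)) = 1` for all `h ∈ R`, i.e. `tr (T h) = 0` for all
`h ∈ R` (`R` is a subspace, `ψ ≠ 1`), i.e. `tr ((A T A⁻¹ - T) x) = 0` for all `x ∈ cor`, i.e. `A T A⁻¹ = T`. -/
def S_BIL : Prop :=
  ∀ (n : ℕ) (F : Type) [Field F] [Fintype F] [DecidableEq F] (ψ : AddChar F ℂ), ψ ≠ 1 →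
    ∀ (k : ℕ) (X : GL (Fin n) F → ℂ), IsChr X → ∀ A : GL (Fin n) F,
    BD k (A : Matrix (Fin n) (Fin n) F) →
      ‖X A‖ ≤ ∑ T ∈ (cot n F k).filter (fun T => (A : Matrix (Fin n) (Fin n) F) * T = T * A),
        (mu ψ k X T).re

def M_BIL : Prop := FLC.S_NRU → S_MUB → S_BIL

/-- **FLB**: the second half of the proof of `FLC.S_FL` (`Pool/Agent/FLC/FL.lean`, from the expansion `S_DIM` on) for any
monotone `d` with at most `m` values; `av ψ d ∅` does not depend on `ψ` (`sd ∅ u = 0`), so take the `ψ` of `S_STR`. -/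
def S_FLB : Prop :=
  ∀ ε : ℝ, 0 < ε → ∃ r : ℕ, ∀ n : ℕ, r ≤ n → ∀ (F : Type) [Field F] [Fintype F] [DecidableEq F]
    (X : GL (Fin n) F → ℂ), IsIrr X → X 1 ≠ 1 → ∀ (ψ : AddChar F ℂ) (m : ℕ) (d : ℕ → ℕ), 1 ≤ m →
    Monotone d → ((Finset.range n).image d).card ≤ m →
    (FLC.av ψ d ∅ (FLC.xm X)).re ≤
      (Nat.card F : ℝ) ^ (((FLC.bb d n : ℝ) - (n : ℝ) ^ 2 / m) / 2) * (X 1).re ^ (1 / (m : ℝ) + ε)

def M_FLB : Prop :=
  FLC.S_DIM → FLC.S_INJ → FLC.S_LOW → FLC.S_XMC → FLC.S_STR → FLC.S_FLN → S_FLB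

/-- **TSQ**. Let `D = X 1`. By `S_MUB` (4) the sum is the average of `|X (1 + h)|²`, `h ∈ cor`. `|X|² = ∑ c_Y Y` over the irreducible
`Y`, `c_Y` natural numbers (`IsChr.mul`, `class_fn_expand`; `|X|² = X · (X ∘ inv)`), `∑ c_Y Y(1) = D²` and
`c_Y ≤ Y(1)` (`c_Y = (1/|G|) ∑ |X g|² Y(g⁻¹)`, `|Y| ≤ Y(1)`, `∑ |X g|² = |G|`). So the sum is `∑ c_Y m_Y`, `m_Y` the average of the
`Y (1 + h)`, `0 ≤ m_Y`, which is `av ψ d ∅ (xm Y)` for `d i = if i < k then 0 else 1`; `bb d n = k^2 + (n-k)^2 = n^2/2 + (2k-n)^2/2`, so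
by `S_FLB` (`m = 2`, `ε/8`) `m_Y ≤ q^(c²) Y(1)^(1/2 + ε/8)` if `Y(1) ≠ 1`. The linear `Y`: `c_Y ≤ 1`, `m_Y ≤ 1`, there are
`q - 1` (`FLC.S_LIN` with `f = 1`). The `Y ≠` linear with `Y(1) ≤ D`: `c_Y m_Y ≤ q^(c²) D^(3/2 + ε/4) Y(1)^(-ε/8)`, and the
sum of the `Y(1)^(-ε/8)` is at most `q - 1` (`FLC.S_ZET`). The `Y` with `Y(1) > D`: `c_Y m_Y ≤ c_Y Y(1) q^(c²) D^(-1/2 + ε/8)`, sum at
most `q^(c²) D^(3/2 + ε/8)`. In total at most `3 q^(c² + 1) D^(3/2 + ε/4)`, and `D ≥ q^(n/2) / 4` (`FLC.S_STR`, level `≥ 1` because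
`X 1 ≠ 1`), so `3 q^(c²+1) ≤ D^(ε/2)` for `n ≥ r`. -/
def S_TSQ : Prop :=
  ∀ ε : ℝ, 0 < ε → ∀ c : ℕ, ∃ r : ℕ, ∀ n : ℕ, r ≤ n →
    ∀ (F : Type) [Field F] [Fintype F] [DecidableEq F] (ψ : AddChar F ℂ), ψ ≠ 1 →
    ∀ (X : GL (Fin n) F → ℂ), IsIrr X → X 1 ≠ 1 → ∀ k : ℕ, k ≤ n → n ≤ 2 * k + c → 2 * k ≤ n + c →
      ∑ T ∈ cot n F k, (mu ψ k X T).re ^ 2 ≤ (X 1).re ^ (3 / 2 + ε)

def M_TSQ : Prop :=
  FLC.S_MN → FLC.S_STR → FLC.S_ZET → FLC.S_LIN → S_FLB → S_MUB → S_TSQ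

/-! ## 2. Matrices killed by a polynomial of degree `m` -/

/-- **HMF**, the Hom form. `F^n` with the action of `A` is a direct sum of cyclic modules `F[X]/(p^e)`, `p` monic irreducible,
`e ≥ 1`, `p^e ∣ g` (`Module.equiv_directSum_of_isTorsion`, compare `RSF.S_KA`, `Pool/Agent/RSF`). Index set: the pairs `(p, j)`, `p ∣ g`
monic irreducible, `1 ≤ j ≤` multiplicity of `p` in `g`, with weight `deg p`; the sum of the weights is `deg g`, so there are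
at most `deg g` pairs, and they can be indexed by a part of `Fin (deg g)` (weight `0`, `ν = 0` for the others).
`ν (p, j)` is the number of the summands `F[X]/(p^e)` with `e ≥ j`. Then `n = ∑ deg p · e = ∑ w ν`, and
`|Hom (F[X]/(p^a), F[X]/(p'^b))| = q^(deg p min(a,b))` if `p = p'` (the elements of `F[X]/(p^b)` killed by `p^a`) and `1` otherwise,
`∑ min(e, e') = ∑_j ν_j ν'_j`. The `ν (p, j)` determine the multiset of the `(p, e)`, so the isomorphism class. -/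
def S_HMF : Prop :=
  ∀ (F : Type) [Field F] [Finite F] (g : F[X]), g.Monic →
    ∃ (w : Fin g.natDegree → ℕ)
      (ν : (n : ℕ) → Matrix (Fin n) (Fin n) F → Fin g.natDegree → ℕ),
      ∑ j, w j = g.natDegree ∧
      ∀ (a b : ℕ) (A : Matrix (Fin a) (Fin a) F) (B : Matrix (Fin b) (Fin b) F),
        aeval A g = 0 → aeval B g = 0 →
        (∑ j, w j * ν a A j = a) ∧ (∀ j, w j = 0 → ν a A j = 0) ∧
        Nat.card {f : Matrix (Fin b) (Fin a) F // f * A = B * f} =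
          Nat.card F ^ (∑ j, w j * (ν a A j * ν b B j)) ∧
        (a = b → ν a A = ν b B → ∃ (P : Matrix (Fin b) (Fin a) F) (Q : Matrix (Fin a) (Fin b) F),
          P * Q = 1 ∧ Q * P = 1 ∧ P * A = B * P)

/-- **AUL**, many units in the commutant. `F^n` with the action of `A` is the direct sum of the `C_τ^(a_τ)`, `τ = (p, e)` different
pairs, `C_τ = F[X]/(p^e)`, `p^e ∣ g`; there are at most `deg g` different `τ`. An endomorphism is a matrix of blocks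
`f_(τ τ') ∈ Hom (C_τ'^(a_τ'), C_τ^(a_τ))`. Order the `τ`; the map `(L, D, U) ↦ L D U`, `L` block lower unitriangular, `D` block diagonal
invertible, `U` block upper unitriangular, is injective, with values in the invertible endomorphisms, so their number is at least
`∏_{τ ≠ τ'} |Hom| ∏_τ |Aut (C_τ^(a_τ))|`. And `Aut (C_τ^a) = GL_a (R)`, `R = F[X]/(p^e)` (commutative local ring): a matrix
over `R` is invertible iff its reduction mod `p` is, so `|GL_a (R)| / |M_a (R)| = ∏_{i=1}^{a} (1 - q^(-i deg p)) ≥ 1/4`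
(`RSF.S_PI`). -/
def S_AUL : Prop :=
  ∀ (F : Type) [Field F] [Finite F] (g : F[X]), g.Monic → ∀ (n : ℕ) (A : Matrix (Fin n) (Fin n) F),
    aeval A g = 0 →
    cN A ≤ 4 ^ g.natDegree *
      Nat.card {B : GL (Fin n) F // (B : Matrix (Fin n) (Fin n) F) * A = A * (B : Matrix (Fin n) (Fin n) F)}

def M_AUL : Prop := RSF.S_PI → S_AUL

/-- **DSM**. `F^n` is a direct sum of cyclic modules of dimension at most `deg g` (every cyclic module `F[X]/(f)` has `f ∣ g`). Add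
them one after the other until the dimension is at least `t`; a basis of this sum followed by a basis of the sum of the
others. -/
def S_DSM : Prop :=
  ∀ (F : Type) [Field F] [Finite F] (g : F[X]), g.Monic → 1 ≤ g.natDegree →
    ∀ (n : ℕ) (A : Matrix (Fin n) (Fin n) F), aeval A g = 0 → ∀ t ≤ n,
    ∃ k, t ≤ k ∧ k ≤ t + g.natDegree ∧ k ≤ n ∧ ∃ P : GL (Fin n) F,
      BD k ((P : Matrix (Fin n) (Fin n) F) * A * ((P⁻¹ : GL (Fin n) F) : Matrix (Fin n) (Fin n) F))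

/-- **CTM**. `g = X^m - ζ`, `⟨x, y⟩ = ∑ w_j x_j y_j` (`S_HMF`; `∑ w_j = m`). `S_DSM` with `t = ⌈n/2⌉` gives `k` and
`A' = P A P⁻¹ = diag(a, b)`; let `ν`, `ω`, `μ` be the types of `A'` (or `A`), `a`, `b`: for all `B` of type `ι`
`|Hom (B, A')| = |Hom (B, a)| |Hom (B, b)|`, `⟨ι, ν⟩ = ⟨ι, ω⟩ + ⟨ι, μ⟩`. A `T ∈ cot n F k` with `A' T = T A'` is an `F[X]`-homomorphism
from `(F^k, a)` to `(F^(n-k), b)`; let `r` be its rank; its image is isomorphic to `(F^r, B)` for some matrix `B` with `B^m = ζ`, and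
`T = j s`, `s : F^k → F^r` surjective, `j : F^r → F^(n-k)` injective, both `F[X]`-linear. For given `B` there are at least
`|Aut B|` such pairs `(s, j)` for each such `T` (`(u s, j u⁻¹)`). So the number of the `T` with image isomorphic to `B` is at most
`|Hom (a, B)| |Hom (B, b)| / |Aut B| ≤ 4^m q^(⟨ω, ι⟩ + ⟨ι, μ⟩ - ⟨ι, ι⟩) = 4^m q^(⟨ι, ν⟩ - ⟨ι, ι⟩)` (`S_AUL`). By Cauchy-Schwarz
`⟨x, x⟩ ≥ (∑ w_j x_j)^2 / m` for `x = ν/2 - ι`: `⟨ν, ν⟩/4 - ⟨ι, ν⟩ + ⟨ι, ι⟩ ≥ (n/2 - r)^2 / m`, so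
`⟨ι, ν⟩ - ⟨ι, ι⟩ ≤ (⟨ν, ν⟩ - n^2/m) / 4 + r (n - r) / m`, `q^⟨ν, ν⟩ = cN A`. At most `(n+1)^m` types `ι` (`S_HMF`, last claim; `ι_j ≤ r ≤ n`
as `w_j ι_j ≤ r`, and `ι_j = 0` if `w_j = 0`). -/
def S_CTM : Prop :=
  ∀ (m : ℕ), 1 ≤ m → ∀ (n : ℕ) (F : Type) [Field F] [Fintype F] [DecidableEq F] (A : GL (Fin n) F) (ζ : F),
    (A : Matrix (Fin n) (Fin n) F) ^ m = Matrix.scalar (Fin n) ζ →
    ∃ (k : ℕ) (P : GL (Fin n) F), k ≤ n ∧ n ≤ 2 * k ∧ 2 * k ≤ n + (2 * m + 1) ∧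
      BD k ((P * A * P⁻¹ : GL (Fin n) F) : Matrix (Fin n) (Fin n) F) ∧
      ∀ r : ℕ, (((cot n F k).filter (fun T =>
          ((P * A * P⁻¹ : GL (Fin n) F) : Matrix (Fin n) (Fin n) F) * T =
            T * ((P * A * P⁻¹ : GL (Fin n) F) : Matrix (Fin n) (Fin n) F) ∧ T.rank = r)).card : ℝ) ≤
        ((n : ℝ) + 1) ^ m * 4 ^ m * (Nat.card F : ℝ) ^ ((r : ℝ) * ((n : ℝ) - r) / m) *
          ((cN (A : Matrix (Fin n) (Fin n) F) : ℝ) * (Nat.card F : ℝ) ^ (-((n : ℝ) ^ 2 / m))) ^ (1 / 4 : ℝ)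

def M_CTM : Prop := S_HMF → S_AUL → S_DSM → S_CTM

/-! ## 3. The character bound -/

/-- **NSB**, the character bound for all `q`. `D = X 1 ≥ q^(n/2) / 4`. `k`, `A' = P A P⁻¹` from `S_CTM`, `X A = X A'`, `S_BIL`:
`|X A| ≤ ∑_T mu T` over the `T ∈ cot` commuting with `A'` and with `mu T ≠ 0`. Such a `T`, of rank `r`, has
`mu T ≤ (16 B q^(-r (n-r)))^(1/2)`, `B = ∑_T' (mu T')² ≤ D^(3/2 + ε/2)` (`S_RKC`, `S_TSQ` with `c = 2 m + 1`). By
`S_CTM` and because `1/m ≤ 1/2` the sum over the `T` of rank `r` is at most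
`(n+1)^m 4^m E · 4 B^(1/2)`, `E = (cN A q^(-n^2/m))^(1/4)`. There are at most `n + 1` values of `r`, and
`4 (n+1)^(m+1) 4^m ≤ D^(ε/2)` for `n ≥ r`. -/
def S_NSB : Prop :=
  ∀ m : ℕ, 2 ≤ m → ∀ ε : ℝ, 0 < ε → ∃ r : ℕ, ∀ n : ℕ, r ≤ n →
    ∀ (F : Type) [Field F] [Fintype F] [DecidableEq F] (X : GL (Fin n) F → ℂ), IsIrr X → X 1 ≠ 1 →
    ∀ (A : GL (Fin n) F) (ζ : F), (A : Matrix (Fin n) (Fin n) F) ^ m = Matrix.scalar (Fin n) ζ →
      ‖X A‖ ≤ ((cN (A : Matrix (Fin n) (Fin n) F) : ℝ) *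
          (Nat.card F : ℝ) ^ (-((n : ℝ) ^ 2 / m))) ^ (1 / 4 : ℝ) * (X 1).re ^ (3 / 4 + ε)

def M_NSB : Prop := FLC.S_STR → S_MUB → S_BIL → S_RKC → S_TSQ → S_CTM → S_NSB

/-- **CLQ**. For each of the at most `q` scalars `ζ` (`A^k = ζ`; the centre of `SL_n` consists of scalar matrices) the `A` with
`A^k = ζ` in `GL_n` are in at most `(n+1)^k` classes of `GL_n` (`S_HMF` for `X^k - ζ`), the class of `A` has
`|GL_n| / |C_GL (A)| ≤ 4^k |GL_n| / cN A` elements (`S_AUL`), and `cN A = q^⟨ν, ν⟩ ≥ q^(n^2/k)` (Cauchy-Schwarz). So the sum over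
the class of `(cN A q^(-n^2/k))^(1/4)` is at most `4^k |GL_n| q^(-n^2/k)`, and
`|CA n F k| ≥ |{A ∈ SL_n : A^k = 1}| ≥ |GL_n| q^(-n^2/k - 4 k^2)` (`RSF.S_JL`). `C = 4 k^2 + 2 k + 1`. -/
def S_CLQ : Prop :=
  ∀ k : ℕ, 1 ≤ k → ∃ C : ℝ, 0 ≤ C ∧ ∀ n, 1 ≤ n → ∀ (F : Type) [Field F] [Finite F],
    ∑ᶠ A : CA n F k, ((cN A.1.1 : ℝ) * (Nat.card F : ℝ) ^ (-((n : ℝ) ^ 2 / k))) ^ (1 / 4 : ℝ) ≤
      ((n : ℝ) + 1) ^ k * (Nat.card F : ℝ) ^ C * Nat.card (CA n F k)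

def M_CLQ : Prop := S_HMF → S_AUL → RSF.S_JL → S_CLQ

/-- **SBA**: `S_NSB` with `ε/2` and `S_CLQ`; `(n+1)^k q^C ≤ (q^(n/2) / 4)^(ε/2) ≤ D^(ε/2)` for `n ≥ r` (`FLC.S_STR`: `D = X 1` is
at least `q^(n/2) / 4`; `S_POL`). -/
def S_SBA : Prop :=
  ∀ k : ℕ, 2 ≤ k → ∀ ε : ℝ, 0 < ε → ∃ r : ℕ, ∀ n, r ≤ n → ∀ (F : Type) [Field F] [Finite F],
    SB k (3 / 4 + ε) n F

def M_SBA : Prop := FLC.S_STR → S_NSB → S_CLQ → S_POL → S_SBA

/-- **SBS**, split elements. `A ∈ CA`: `A^k = λ` (a scalar, `λ^n = 1`), `c^k = λ` (`S_ROT`), `A = c y` with `y ∈ GL_n`, `y^k = 1`;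
`|X A| = |X y|` (`c` acts by a scalar of absolute value `1`), `FLC.S_FL` with `ε/2`:
`|X y| ≤ q^(dl k y / 2) D^(1/k + ε/2)`, `dl k y = del k y = del k A` (compare `FL0` or `FLN/FRO.lean`; the fifth claim of
`S_EVS`). `S_ABS` and as in `SBA`. (`k ∣ q - 1` follows from `Ord n F k`.) -/
def S_SBS : Prop :=
  ∀ k : ℕ, 2 ≤ k → ∀ ε : ℝ, 0 < ε → ∃ r : ℕ, ∀ n, r ≤ n → ∀ (F : Type) [Field F] [Finite F],
    Ord n F k → SB k (1 / (k : ℝ) + ε) n F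

def M_SBS : Prop := FLC.S_STR → FLC.S_FL → S_ROT → S_EVS → S_ABS → S_POL → S_SBS

/-! ## 4. Equidistribution -/

/-- **PVL**. (1) Parseval for a class function: `f = ∑ c_X X`, `c_X = ip f X` (`class_fn_expand`), `X(g⁻¹)` is the conjugate of
`X(g)`; the set of the irreducible characters is closed under `X ↦ X ∘ inv`. (2) For an irreducible representation `ρ` and a
conjugation invariant set `C` the element `∑_{t ∈ C} ρ t` is the scalar `(∑_{t ∈ C} X t) / X 1` (compare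
`FLC/FRB.lean`); induction on `d`. -/
def S_PVL : Prop :=
  ∀ (G : Type) [Group G] [Fintype G],
    (∀ f : G → ℂ, (∀ g x, f (g * x * g⁻¹) = f x) →
      (∑ g, ‖f g‖ ^ 2) * Nat.card G = ∑ X ∈ irrF G, ‖∑ g, f g * X g‖ ^ 2) ∧
    ∀ (d : ℕ) (C : Fin d → Finset G), (∀ j, ∀ t ∈ C j, ∀ g, g * t * g⁻¹ ∈ C j) →
      ∀ X : G → ℂ, IsIrr X →
        (∑ t ∈ Fintype.piFinset C, X (List.ofFn t).prod) * X 1 ^ d = X 1 * ∏ j, ∑ t ∈ C j, X t

/-- **LTS**, the variance in `SL_n`. Let `C_j ⊆ GL_n` be the image of `CA n F (m_j)` (invariant under conjugation by `GL_n`), `f g` the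
number of the tuples in `∏ C_j` with product `g ∈ GL_n`, `N = ∏ |C_j|`. By `S_PVL`
`|GL| ∑_g f(g)² = ∑_X |X(1)^(1-d) ∏_j ∑_{C_j} X|²`; each of the `q - 1` linear characters gives `N²` (`det = 1` on `C_j`;
`FLC.S_LIN`, `n ≥ 5`), and `(q - 1) / |GL| = 1 / |SL|`, so `∑_{g ∈ SL} (f g - N/|SL|)² = ∑_g f(g)² - N²/|SL|` is
`(1/|GL|)` times the sum over the nonlinear `X`, each term at most `N² X(1)^(2 - 2 ∑ (1 - e_j)) ≤ N² X(1)^(-2s)`
(`SB`, `X(1) ≥ 1`), `FLC.S_ZET`: at most `N² (q-1) q^(-c n) / |GL|`. -/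
def S_LTS : Prop :=
  ∀ (m : List ℕ) (s : ℝ), 0 < s → ∃ (c : ℝ) (r : ℕ), 0 < c ∧ 1 ≤ r ∧ ∀ n, r ≤ n →
    ∀ (F : Type) [Field F] [Finite F] (e : ℕ → ℝ), (∀ k ∈ m, SB k (e k) n F) →
      1 + s ≤ (m.map fun k => 1 - e k).sum →
      ∑ᶠ g : SL n F, ((Nat.card {A : Fin m.length → SL n F //
          (∀ j, A j ^ m.get j ∈ Subgroup.center (SL n F)) ∧ (List.ofFn A).prod = g} : ℝ) -
          (∏ j, (Nat.card (CA n F (m.get j)) : ℝ)) / Nat.card (SL n F)) ^ 2 ≤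
        (Nat.card F : ℝ) ^ (-c * (n : ℝ)) * (∏ j, (Nat.card (CA n F (m.get j)) : ℝ)) ^ 2 /
          Nat.card (SL n F)

def M_LTS : Prop := FLC.S_LIN → FLC.S_ZET → S_PVL → S_LTS

/-- **LTP**, the variance in `PSL_n`. Let `Z` be the centre of `SL_n`, `z = |Z|`, `f(g)` the number in `S_LTS`, `M = ∏ |CA| / |SL|`. For
`h ∈ PSL_n`: `z^d fL(h) = ∑_{g ↦ h} f(g)` (`FL0.S_LFT` for `E t = (∀ j, t_j^(m_j) = 1) ∧ ∏ t = h`), a sum over `z` elements, so by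
Cauchy-Schwarz `(z^d fL(h) - z M)² ≤ z ∑_{g ↦ h} (f(g) - M)²`; `z M = z^d JJ / |PSL|` (`|CA n F k| = z jn k` (`FL0.S_LFH`),
`|SL| = z |PSL|`). Sum over `h`. (`JJ > 0`.) -/
def S_LTP : Prop :=
  ∀ (m : List ℕ) (s : ℝ), 0 < s → ∃ (c : ℝ) (r : ℕ), 0 < c ∧ 1 ≤ r ∧ ∀ n, r ≤ n →
    ∀ (F : Type) [Field F] [Finite F] (e : ℕ → ℝ), (∀ k ∈ m, SB k (e k) n F) →
      1 + s ≤ (m.map fun k => 1 - e k).sum → V2 (PS n F) m ≤ (Nat.card F : ℝ) ^ (-c * (n : ℝ))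

def M_LTP : Prop := FL0.S_LFT → FL0.S_LFH → S_LTS → S_LTP

/-- **NUX**, near uniformity. `Wt n F m` has finitely many values for given `m` (at most `2^d`: for each position `1 - 1/k` or `1/4`); let
`s₀ > 0` be such that every value larger than `1` is at least `1 + s₀`. `ε = s₀ / (2 (d + 1))`, `s = s₀ / 2`,
`e k = 1/k + ε` if `Ord n F k` (`S_SBS`) and `3/4 + ε` otherwise (`S_SBA`): `∑ (1 - e k) = Wt n F m - d ε`. -/
def S_NUX : Prop :=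
  ∀ m : List ℕ, (∀ k ∈ m, 2 ≤ k) → ∃ (c : ℝ) (r : ℕ), 0 < c ∧ 1 ≤ r ∧ ∀ n, r ≤ n →
    ∀ (F : Type) [Field F] [Finite F], 1 < Wt n F m → V2 (PS n F) m ≤ (Nat.card F : ℝ) ^ (-c * (n : ℝ))

def M_NUX : Prop := S_SBA → S_SBS → S_LTP → S_NUX

/-- **RLT**. The function `R` is a class function (conjugate `a` and `b`), `∑_g R g X g = ∑_{a,b} X (wd o a b)`, of absolute value
at most `|G|² / |X 1|` (`FLW.S_COM`, `FLW.S_CON` for `H = ⊤`); Parseval (`S_PVL` (1)). -/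
def S_RLT : Prop :=
  ∀ (G : Type) [Group G] [Fintype G] (o : Bool),
    ∑ g : G, (Nat.card {p : G × G // FLW.wd o p.1 p.2 = g} : ℝ) ^ 2 ≤
      (Nat.card G : ℝ) ^ 3 * ∑ X ∈ irrF G, (‖X 1‖ ^ 2)⁻¹

def M_RLT : Prop := FLW.S_COM → FLW.S_CON → S_PVL → S_RLT

/-- **MIN**, the smallest degree. Let `V` be the representation, `U` the subgroup of the `u = [1 v; 0 1]`, `v ∈ F^(n-1)`. If `U` acts
trivially on `V` then so do all transvections (each is conjugate in `SL_n` to an element of `U`, `n ≥ 3` or `n ≥ 2`), so `SL_n`, and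
`X = 1`. Otherwise some character `v ↦ ψ (y · v)`, `y ≠ 0`, occurs in `V|U`; conjugation with `diag(g, 1)`, `g ∈ SL_(n-1)`,
permutes the `y ≠ 0` transitively (`n - 1 ≥ 2`), so all `q^(n-1) - 1` nontrivial characters of `U` occur. (Generation by
transvections: `FLC/HV.lean`, or Mathlib.) -/
def S_MIN : Prop :=
  ∀ (n : ℕ), 3 ≤ n → ∀ (F : Type) [Field F] [Finite F] (X : SL n F → ℂ), IsIrr X →
    X ≠ (fun _ => 1) → (Nat.card F : ℝ) ^ (n - 1) - 1 ≤ ‖X 1‖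

/-- **ZEP**. For an irreducible character `X ≠ 1` of `PSL_n` the function `X ∘ mk` is an irreducible character `≠ 1` of `SL_n`:
`‖X 1‖ ≥ q^(n-1) - 1`. There are at most `4 q^(n+1)` irreducible characters (`FLC.S_IRC`, `RSF.S_KP`). So the sum is at
most `1 + 4 q^(n+1) / (q^(n-1) - 1)^2 ≤ 2` for `n ≥ 8`. -/
def S_ZEP : Prop :=
  ∃ r : ℕ, ∀ n, r ≤ n → ∀ (F : Type) [Field F] [Finite F] [Fintype (PS n F)],
    ∑ X ∈ irrF (PS n F), (‖X 1‖ ^ 2)⁻¹ ≤ 2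

def M_ZEP : Prop := S_MIN → FLC.S_IRC → RSF.S_KP → S_ZEP

/-- **TVB**, genus with two free generators. `FLW.S_HO` (`oa`, `ob`, `na`): the number `N(B)` of the homomorphisms with
`(ρ a, ρ b) ∈ B` is `∑_{(a,b) ∈ B} fL (wd o a b)⁻¹`. `R g` the number of the `(a, b)` with `wd o a b = g`.
`|N(B) - |B| JJ/|G|| ≤ ∑_g R(g) |fL(g⁻¹) - JJ/|G|| ≤ (∑ R²)^(1/2) (V2 JJ²/|G|)^(1/2) ≤ √2 δ |G| JJ` (`S_RLT`, Cauchy-Schwarz).
`B` = all pairs: the number of all homomorphisms is at least `(1 - √2 δ) |G| JJ`; `B` = the pairs that do not generate `G`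
(if `ρ` is not surjective then `(ρ a, ρ b) ∈ B`): at most `(ngp + √2 δ) |G| JJ`. The quotient is at most
`(ngp + 1.42 δ) / 0.82 ≤ 2 ngp + 4 δ`. -/
def S_TVB : Prop :=
  ∀ (G : Type) [Group G] [Fintype G] (m : List ℕ) (δ : ℝ), 0 ≤ δ → δ ≤ 1 / 8 →
    ∑ X ∈ irrF G, (‖X 1‖ ^ 2)⁻¹ ≤ 2 → V2 G m ≤ δ ^ 2 →
      1 - 2 * ngp G - 4 * δ ≤ prob (OGroup 1 m) G (fun ρ => Function.Surjective ρ) ∧
      1 - 2 * ngp G - 4 * δ ≤ prob (NGroup 2 m) G (fun ρ => Function.Surjective ρ)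

def M_TVB : Prop := S_RLT → FLW.S_HO → S_TVB

/-- **TVA**, non-oriented genus 1. Write a tuple for `m₁ ++ m₂` as a pair of tuples (`RSF.S_CNT`, `fL` of `L ++ L'`; `List.ofFn` of
the two parts). With `u` = product of the first `m₁.length` elliptic generators and `a` the free generator (`FLN.S_HO`, `n1`) the
number of the homomorphisms with given `(ρ u, ρ a) = (u, a)` is `fL m₁ u * fL m₂ (u⁻¹ a⁻²)`. Let
`f_i = fL m_i |G| / JJ_i`, average `1`, `E (f_i - 1)² = V2 G m_i ≤ δ²`. For uniform `(u, a)` also `w = u⁻¹ a⁻²` is uniform, so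
`E |f₁(u) f₂(w) - 1| ≤ E |f₁ - 1| + E |f₂ - 1| + E |f₁(u) - 1| |f₂(w) - 1| ≤ 2 δ + δ²` (Cauchy-Schwarz). So the number `N(B)` of the
homomorphisms with `(ρ u, ρ a) ∈ B` satisfies `|N(B) - JJ₁ JJ₂ |B| / |G|²| ≤ (2 δ + δ²) JJ₁ JJ₂`, and as in `TVB`
`(ngp + 2.125 δ) / (1 - 2.125/8) ≤ 2 ngp + 8 δ`. -/
def S_TVA : Prop :=
  ∀ (G : Type) [Group G] [Finite G] (m₁ m₂ : List ℕ) (δ : ℝ), 0 ≤ δ → δ ≤ 1 / 8 →
    V2 G m₁ ≤ δ ^ 2 → V2 G m₂ ≤ δ ^ 2 →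
      1 - 2 * ngp G - 8 * δ ≤ prob (NGroup 1 (m₁ ++ m₂)) G (fun ρ => Function.Surjective ρ)

def M_TVA : Prop := RSF.S_CNT → FLN.S_HO → S_TVA

/-- **TVO**, oriented genus 0. As `TVA` with `u`, `v` = the products of the first `m₁.length` and of the next `m₂.length` elliptic
generators (`FL0.S_HO0`): the number of the homomorphisms with given `(ρ u, ρ v) = (u, v)` is
`fL m₁ u * fL m₂ v * fL m₃ (u v)⁻¹`. For uniform `(u, v)`, `w = (u v)⁻¹`, any two of `u`, `v`, `w` are independent and uniform;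
`g_i = f_i - 1`: `f₁ f₂ f₃ - 1` is the sum of the products of the `g_i` over the nonempty subsets, `E |g_i| ≤ δ`,
`E |g_i g_j| ≤ δ²`, `E |g₁(u) g₂(v) g₃(w)| ≤ (E g₁(u)² g₂(v)²)^(1/2) (E g₃(w)²)^(1/2) ≤ δ³`. In total
`η = (1 + δ)³ - 1 ≤ 3.4 δ`; `|N(B) - JJ₁ JJ₂ JJ₃ |B| / |G|³| ≤ η JJ₁ JJ₂ JJ₃ / |G|`,
`(ngp + η) / (1 - η) ≤ 2 ngp + 8 δ` (`η ≤ 0.4239`, `(1 - η)⁻¹ ≤ 1.74`). -/
def S_TVO : Prop :=
  ∀ (G : Type) [Group G] [Finite G] (m₁ m₂ m₃ : List ℕ) (δ : ℝ), 0 ≤ δ → δ ≤ 1 / 8 →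
    V2 G m₁ ≤ δ ^ 2 → V2 G m₂ ≤ δ ^ 2 → V2 G m₃ ≤ δ ^ 2 →
      1 - 2 * ngp G - 8 * δ ≤ prob (OGroup 0 (m₁ ++ m₂ ++ m₃)) G (fun ρ => Function.Surjective ρ)

def M_TVO : Prop := RSF.S_CNT → FL0.S_HO0 → S_TVO

end

end SRJ
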