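import Mathlib
import Pool.Agent.SRJ.StA

/-!
# SRJ, module CLQ: a weighted sum over the elements of `SL_n` with central `k`-th power
-/

set_option autoImplicit false

namespace SRJ

open RSF FL0 Polynomial Pool.Agent.Lib_helper13

noncomputable section

variable {F : Type} [Field F] {n k : ℕ}

/-- the size of a conjugacy class -/
lemma clq_orbit [Finite F] (B0 : GL (Fin n) F) :
    (MulAction.orbit (ConjAct (GL (Fin n) F)) B0).ncard *
      Nat.card {B : GL (Fin n) F // (B : Matrix (Fin n) (Fin n) F) * (B0 : Matrix (Fin n) (Fin n) F) =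
        (B0 : Matrix (Fin n) (Fin n) F) * (B : Matrix (Fin n) (Fin n) F)} =
      Nat.card (GL (Fin n) F) := by
  have h1 : Nat.card {B : GL (Fin n) F // (B : Matrix (Fin n) (Fin n) F) *
        (B0 : Matrix (Fin n) (Fin n) F) =
        (B0 : Matrix (Fin n) (Fin n) F) * (B : Matrix (Fin n) (Fin n) F)} =
      Nat.card (Subgroup.centralizer {B0}) := by
    refine Nat.card_congr (Equiv.subtypeEquivRight fun B => ?_)
    rw [Subgroup.mem_centralizer_singleton_iff]
    constructor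
    · intro h
      exact Units.ext h
    · intro h
      exact congrArg Units.val h
  rw [h1, Subgroup.nat_card_centralizer_nat_card_stabilizer, ← MulAction.index_stabilizer,
    Subgroup.index_mul_card]
  rfl

/-- Cauchy-Schwarz for the multiplicities -/
lemma clq_cs {d : ℕ} (w ν : Fin d → ℕ) (hw : ∑ j, w j = d) (hn : ∑ j, w j * ν j = n)
    (hd : 1 ≤ d) : (n : ℝ) ^ 2 / d ≤ ((∑ j, w j * (ν j * ν j) : ℕ) : ℝ) := by
  have hd0 : (0 : ℝ) < d := by exact_mod_cast hd
  rw [div_le_iff₀ hd0]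
  have h1 := Finset.sum_sq_le_sum_mul_sum_of_sq_le_mul (Finset.univ : Finset (Fin d))
    (r := fun j => (w j : ℝ) * ν j) (f := fun j => (w j : ℝ)) (g := fun j => (w j : ℝ) * (ν j * ν j))
    (fun j _ => by positivity) (fun j _ => by positivity) (fun j _ => le_of_eq (by ring))
  have e1 : ∑ j, (w j : ℝ) * ν j = n := by exact_mod_cast hn
  have e2 : ∑ j, (w j : ℝ) = d := by exact_mod_cast hw
  rw [e1, e2] at h1
  push_cast
  linarith

/-- the weight -/
def clq_W (n : ℕ) (F : Type) [Field F] (k : ℕ) (A : Matrix (Fin n) (Fin n) F) : ℝ :=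
  ((cN A : ℝ) * (Nat.card F : ℝ) ^ (-((n : ℝ) ^ 2 / k))) ^ (1 / 4 : ℝ)

lemma clq_W_nonneg (A : Matrix (Fin n) (Fin n) F) : 0 ≤ clq_W n F k A :=
  Real.rpow_nonneg (by positivity) _

/-- the sum over the elements with a given `k`-th power -/
lemma clq_sum (hHMF : S_HMF) (hAUL : S_AUL) [Finite F] (hk : 1 ≤ k) (ζ : F)
    (S : Finset (CA n F k)) (hS : ∀ A ∈ S, A.1.1 ^ k = Matrix.scalar (Fin n) ζ) :
    ∑ A ∈ S, clq_W n F k A.1.1 ≤
      ((n : ℝ) + 1) ^ k * (4 ^ k * (Nat.card (GL (Fin n) F) : ℝ) *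
        (Nat.card F : ℝ) ^ (-((n : ℝ) ^ 2 / k))) := by
  classical
  have hq1 : (1 : ℝ) < (Nat.card F : ℝ) := by
    exact_mod_cast Finite.one_lt_card (α := F)
  have hq0 : (0 : ℝ) < (Nat.card F : ℝ) := by linarith
  have hfG : Finite (GL (Fin n) F) := inferInstance
  set g : F[X] := X ^ k - C ζ with hg
  have hgm : g.Monic := monic_X_pow_sub_C ζ (by omega)
  have hgd : g.natDegree = k := natDegree_X_pow_sub_C
  obtain ⟨w, ν, hw, hν⟩ := hHMF F g hgm
  have hS' : ∀ A ∈ S, aeval A.1.1 g = 0 := by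
    intro A hA
    rw [hg, map_sub, map_pow, aeval_X, aeval_C, hS A hA, sub_eq_zero]
    rfl
  set β : CA n F k → (Fin g.natDegree → ℕ) := fun A => ν n A.1.1 with hβ
  set T : Finset (Fin g.natDegree → ℕ) := S.image β with hT
  have hTcard : (T.card : ℝ) ≤ ((n : ℝ) + 1) ^ k := by
    have h1 : T ⊆ Fintype.piFinset fun _ : Fin g.natDegree => Finset.range (n + 1) := by
      intro b hb
      rw [hT, Finset.mem_image] at hb
      obtain ⟨A, hA, rfl⟩ := hb
      rw [Fintype.mem_piFinset]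
      intro j
      rw [Finset.mem_range]
      obtain ⟨h1, h2, -, -⟩ := hν n n A.1.1 A.1.1 (hS' A hA) (hS' A hA)
      by_cases hj : w j = 0
      · have h3 : β A j = 0 := h2 j hj
        rw [h3]
        omega
      · have h3 : w j * β A j ≤ n := by
          conv_rhs => rw [← h1]
          exact Finset.single_le_sum (f := fun j => w j * ν n A.1.1 j)
            (fun _ _ => Nat.zero_le _) (Finset.mem_univ j)
        have h4 : 1 * β A j ≤ w j * β A j := Nat.mul_le_mul_right _ (by omega)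
        omega
    have h2 := Finset.card_le_card h1
    rw [Fintype.card_piFinset_const, Finset.card_range] at h2
    have h3 : (n + 1) ^ g.natDegree = (n + 1) ^ k := by rw [hgd]
    have h4 : T.card ≤ (n + 1) ^ k := h2.trans h3.le
    exact_mod_cast h4
  rw [← Finset.sum_fiberwise_of_maps_to (s := S) (t := T) (g := β)
    (fun A hA => Finset.mem_image_of_mem β hA)]
  have hone : ∀ b ∈ T, ∑ A ∈ S.filter (fun A => β A = b), clq_W n F k A.1.1 ≤
      4 ^ k * (Nat.card (GL (Fin n) F) : ℝ) * (Nat.card F : ℝ) ^ (-((n : ℝ) ^ 2 / k)) := by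
    intro b hb
    rw [hT, Finset.mem_image] at hb
    obtain ⟨A0, hA0, rfl⟩ := hb
    obtain ⟨h1, -, h3, -⟩ := hν n n A0.1.1 A0.1.1 (hS' A0 hA0) (hS' A0 hA0)
    have hcN0 : cN A0.1.1 = Nat.card F ^ (∑ j, w j * (ν n A0.1.1 j * ν n A0.1.1 j)) := h3
    have hcN : ∀ A ∈ S.filter (fun A => β A = β A0), clq_W n F k A.1.1 = clq_W n F k A0.1.1 := by
      intro A hA
      rw [Finset.mem_filter] at hA
      obtain ⟨-, -, h4, -⟩ := hν n n A.1.1 A.1.1 (hS' A hA.1) (hS' A hA.1)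
      have h5 : ν n A.1.1 = ν n A0.1.1 := hA.2
      have h6 : cN A.1.1 = cN A0.1.1 := by
        rw [hcN0, ← h5]
        exact h4
      unfold clq_W
      rw [h6]
    rw [Finset.sum_congr rfl hcN, Finset.sum_const, nsmul_eq_mul]
    -- the number of elements of the class
    set B0 : GL (Fin n) F := Matrix.SpecialLinearGroup.toGL A0.1 with hB0
    have hcard : (S.filter (fun A => β A = β A0)).card ≤
        (MulAction.orbit (ConjAct (GL (Fin n) F)) B0).ncard := by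
      rw [← Set.ncard_coe_finset]
      refine Set.ncard_le_ncard_of_injOn (fun A : CA n F k =>
        (Matrix.SpecialLinearGroup.toGL A.1 : GL (Fin n) F)) ?_ ?_ (Set.toFinite _)
      · intro A hA
        rw [Finset.mem_coe, Finset.mem_filter] at hA
        obtain ⟨-, -, -, h4⟩ := hν n n A0.1.1 A.1.1 (hS' A0 hA0) (hS' A hA.1)
        obtain ⟨P, Q, hPQ, hQP, hP⟩ := h4 rfl hA.2.symm
        refine ⟨ConjAct.toConjAct (⟨P, Q, hPQ, hQP⟩ : GL (Fin n) F), ?_⟩
        show ConjAct.toConjAct (⟨P, Q, hPQ, hQP⟩ : GL (Fin n) F) • B0 =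
          Matrix.SpecialLinearGroup.toGL A.1
        rw [ConjAct.toConjAct_smul]
        refine mul_inv_eq_iff_eq_mul.2 (Units.ext ?_)
        exact hP
      · intro A _ A' _ hAA
        apply Subtype.ext
        apply Subtype.ext
        exact congrArg Units.val hAA
    have horb := clq_orbit (F := F) B0
    have haul := hAUL F g hgm n A0.1.1 (hS' A0 hA0)
    rw [hgd] at haul
    have hB : (B0 : Matrix (Fin n) (Fin n) F) = A0.1.1 := rfl
    rw [hB] at horb
    set cg := Nat.card {B : GL (Fin n) F // (B : Matrix (Fin n) (Fin n) F) * A0.1.1 =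
      A0.1.1 * (B : Matrix (Fin n) (Fin n) F)} with hcg
    have hNc : ((S.filter (fun A => β A = β A0)).card : ℝ) * (cN A0.1.1 : ℝ) ≤
        4 ^ k * (Nat.card (GL (Fin n) F) : ℝ) := by
      have h4 : (S.filter (fun A => β A = β A0)).card * cN A0.1.1 ≤
          4 ^ k * Nat.card (GL (Fin n) F) := by
        calc (S.filter (fun A => β A = β A0)).card * cN A0.1.1
            ≤ (MulAction.orbit (ConjAct (GL (Fin n) F)) B0).ncard * (4 ^ k * cg) :=
              Nat.mul_le_mul hcard haul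
          _ = 4 ^ k * ((MulAction.orbit (ConjAct (GL (Fin n) F)) B0).ncard * cg) := by ring
          _ = 4 ^ k * Nat.card (GL (Fin n) F) := by rw [horb]
      exact_mod_cast h4
    have hcs := clq_cs w (ν n A0.1.1) hw h1 (by omega)
    have hgdR : ((g.natDegree : ℕ) : ℝ) = k := by rw [hgd]
    rw [hgdR] at hcs
    have hx : 1 ≤ (cN A0.1.1 : ℝ) * (Nat.card F : ℝ) ^ (-((n : ℝ) ^ 2 / k)) := by
      have h4 : (cN A0.1.1 : ℝ) = (Nat.card F : ℝ) ^
          (((∑ j, w j * (ν n A0.1.1 j * ν n A0.1.1 j) : ℕ)) : ℝ) := by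
        rw [Real.rpow_natCast, hcN0]
        push_cast
        rfl
      rw [h4, ← Real.rpow_add hq0]
      exact Real.one_le_rpow hq1.le (by linarith)
    have hW : clq_W n F k A0.1.1 ≤ (cN A0.1.1 : ℝ) * (Nat.card F : ℝ) ^ (-((n : ℝ) ^ 2 / k)) := by
      unfold clq_W
      calc ((cN A0.1.1 : ℝ) * (Nat.card F : ℝ) ^ (-((n : ℝ) ^ 2 / k))) ^ (1 / 4 : ℝ)
          ≤ ((cN A0.1.1 : ℝ) * (Nat.card F : ℝ) ^ (-((n : ℝ) ^ 2 / k))) ^ (1 : ℝ) :=
            Real.rpow_le_rpow_of_exponent_le hx (by norm_num)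
        _ = _ := Real.rpow_one _
    calc ((S.filter (fun A => β A = β A0)).card : ℝ) * clq_W n F k A0.1.1
        ≤ ((S.filter (fun A => β A = β A0)).card : ℝ) *
          ((cN A0.1.1 : ℝ) * (Nat.card F : ℝ) ^ (-((n : ℝ) ^ 2 / k))) :=
          mul_le_mul_of_nonneg_left hW (Nat.cast_nonneg _)
      _ = (((S.filter (fun A => β A = β A0)).card : ℝ) * (cN A0.1.1 : ℝ)) *
          (Nat.card F : ℝ) ^ (-((n : ℝ) ^ 2 / k)) := by ring
      _ ≤ 4 ^ k * (Nat.card (GL (Fin n) F) : ℝ) * (Nat.card F : ℝ) ^ (-((n : ℝ) ^ 2 / k)) :=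
          mul_le_mul_of_nonneg_right hNc (Real.rpow_nonneg hq0.le _)
  calc ∑ b ∈ T, ∑ A ∈ S.filter (fun A => β A = b), clq_W n F k A.1.1
      ≤ ∑ b ∈ T, 4 ^ k * (Nat.card (GL (Fin n) F) : ℝ) *
        (Nat.card F : ℝ) ^ (-((n : ℝ) ^ 2 / k)) := Finset.sum_le_sum hone
    _ = T.card * (4 ^ k * (Nat.card (GL (Fin n) F) : ℝ) *
        (Nat.card F : ℝ) ^ (-((n : ℝ) ^ 2 / k))) := by
        rw [Finset.sum_const, nsmul_eq_mul]
    _ ≤ ((n : ℝ) + 1) ^ k * (4 ^ k * (Nat.card (GL (Fin n) F) : ℝ) *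
        (Nat.card F : ℝ) ^ (-((n : ℝ) ^ 2 / k))) :=
        mul_le_mul_of_nonneg_right hTcard (by positivity)

theorem t_CLQ : M_CLQ := by
  classical
  intro hHMF hAUL hJL k hk
  refine ⟨4 * (k : ℝ) ^ 2 + 2 * k + 1, by positivity, ?_⟩
  intro n hn F _ _
  have hq2 : (2 : ℝ) ≤ (Nat.card F : ℝ) := by
    exact_mod_cast Finite.one_lt_card (α := F)
  have hq0 : (0 : ℝ) < (Nat.card F : ℝ) := by linarith
  have : Finite (SL n F) := inferInstance
  have hfA : Finite (CA n F k) := by unfold CA; infer_instance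
  have : Fintype (CA n F k) := Fintype.ofFinite _
  have : Fintype F := Fintype.ofFinite _
  have hex : ∀ A : CA n F k, ∃ r : F, A.1.1 ^ k = Matrix.scalar (Fin n) r := by
    intro A
    obtain ⟨r, -, hr'⟩ := Matrix.SpecialLinearGroup.mem_center_iff.mp A.2
    exact ⟨r, by rw [hr', Matrix.SpecialLinearGroup.coe_pow]⟩
  choose lam hlam using hex
  have hJ : (Nat.card (GL (Fin n) F) : ℝ) * (Nat.card F : ℝ) ^ (-((n : ℝ) ^ 2 / k)) ≤
      (Nat.card F : ℝ) ^ (4 * (k : ℝ) ^ 2) * Nat.card (CA n F k) := by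
    have h1 := hJL F n k hk
    have h3 : (Nat.card {A : Matrix.SpecialLinearGroup (Fin n) F // A ^ k = 1} : ℝ) ≤
        Nat.card (CA n F k) := by
      have h4 : Nat.card {A : Matrix.SpecialLinearGroup (Fin n) F // A ^ k = 1} ≤
          Nat.card (CA n F k) := by
        refine Nat.card_le_card_of_injective (fun A => (⟨A.1, by rw [A.2]; exact one_mem _⟩ :
          CA n F k)) ?_
        intro A B hAB
        exact Subtype.ext (congrArg (fun x : CA n F k => x.1) hAB)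
      exact_mod_cast h4
    calc (Nat.card (GL (Fin n) F) : ℝ) * (Nat.card F : ℝ) ^ (-((n : ℝ) ^ 2 / k))
        = (Nat.card F : ℝ) ^ (4 * (k : ℝ) ^ 2) * ((Nat.card (GL (Fin n) F) : ℝ) *
          (Nat.card F : ℝ) ^ (-((n : ℝ) ^ 2 / k) - 4 * (k : ℝ) ^ 2)) := by
          have e1 : (-((n : ℝ) ^ 2 / k)) = 4 * (k : ℝ) ^ 2 +
            (-((n : ℝ) ^ 2 / k) - 4 * (k : ℝ) ^ 2) := by ring
          rw [e1, Real.rpow_add hq0, ← e1]
          ring
      _ ≤ (Nat.card F : ℝ) ^ (4 * (k : ℝ) ^ 2) * Nat.card (CA n F k) :=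
          mul_le_mul_of_nonneg_left (h1.trans h3) (Real.rpow_nonneg hq0.le _)
  have h4 : (4 : ℝ) ^ k ≤ (Nat.card F : ℝ) ^ (2 * (k : ℝ)) := by
    have h5 : (4 : ℝ) ≤ (Nat.card F : ℝ) ^ 2 := by nlinarith
    calc (4 : ℝ) ^ k ≤ ((Nat.card F : ℝ) ^ 2) ^ k := pow_le_pow_left₀ (by norm_num) h5 _
      _ = (Nat.card F : ℝ) ^ (2 * (k : ℝ)) := by
        rw [← pow_mul, ← Real.rpow_natCast]
        push_cast
        rfl
  rw [finsum_eq_sum_of_fintype]
  calc ∑ A : CA n F k, ((cN A.1.1 : ℝ) * (Nat.card F : ℝ) ^ (-((n : ℝ) ^ 2 / k))) ^ (1 / 4 : ℝ)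
      = ∑ ζ : F, ∑ A ∈ Finset.univ.filter (fun A => lam A = ζ), clq_W n F k A.1.1 :=
        (Finset.sum_fiberwise Finset.univ lam fun A => clq_W n F k A.1.1).symm
    _ ≤ ∑ ζ : F, ((n : ℝ) + 1) ^ k * (4 ^ k * (Nat.card (GL (Fin n) F) : ℝ) *
        (Nat.card F : ℝ) ^ (-((n : ℝ) ^ 2 / k))) := by
        refine Finset.sum_le_sum fun ζ _ => clq_sum hHMF hAUL hk ζ _ ?_
        intro A hA
        rw [Finset.mem_filter] at hA
        rw [hlam A, hA.2]
    _ = (Nat.card F : ℝ) * (((n : ℝ) + 1) ^ k * (4 ^ k * ((Nat.card (GL (Fin n) F) : ℝ) *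
        (Nat.card F : ℝ) ^ (-((n : ℝ) ^ 2 / k))))) := by
        rw [Finset.sum_const, nsmul_eq_mul, Finset.card_univ, Nat.card_eq_fintype_card (α := F)]
        ring
    _ ≤ (Nat.card F : ℝ) * (((n : ℝ) + 1) ^ k * ((Nat.card F : ℝ) ^ (2 * (k : ℝ)) *
        ((Nat.card F : ℝ) ^ (4 * (k : ℝ) ^ 2) * Nat.card (CA n F k)))) := by
        gcongr
    _ = ((n : ℝ) + 1) ^ k * (Nat.card F : ℝ) ^ (4 * (k : ℝ) ^ 2 + 2 * k + 1) *
        Nat.card (CA n F k) := by
        rw [Real.rpow_add hq0, Real.rpow_add hq0, Real.rpow_one]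
        ring

end

end SRJ
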