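import Mathlib
import Pool.Agent.SRJ.StA

/-!
# SRJ_SBA: the character bound summed over the elements with central power, all `q`
-/

set_option autoImplicit false

namespace SRJ

open RSF FL0 Polynomial Pool.Agent.Lib_helper13

noncomputable section

instance sba_finite (n : ℕ) (F : Type) [Field F] [Finite F] (k : ℕ) : Finite (CA n F k) := by
  unfold CA
  infer_instance

/-- the degree of a nonlinear irreducible character -/
theorem sba_deg (hSTR : FLC.S_STR) (n : ℕ) (F : Type) [Field F] [Finite F]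
    (X : GL (Fin n) F → ℂ) (hX : IsIrr X) (h1 : X 1 ≠ 1) :
    (Nat.card F : ℝ) ^ ((n : ℝ) / 2) ≤ 4 * (X 1).re := by
  classical
  haveI := Fintype.ofFinite F
  obtain ⟨ψ, j, _, h⟩ := hSTR n F
  obtain ⟨h2, _, _, _, h5⟩ := h X hX
  have hj : 1 ≤ j X := by
    by_contra hj
    obtain ⟨l, hl⟩ := h5 (by omega)
    apply h1
    rw [hl]
    simp [FLC.ld]
  refine le_trans ?_ h2
  have hq : (1 : ℝ) ≤ Nat.card F := by
    exact_mod_cast Nat.card_pos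
  apply Real.rpow_le_rpow_of_exponent_le hq
  have hn : (0 : ℝ) ≤ n := Nat.cast_nonneg n
  have hj' : (1 : ℝ) ≤ j X := by exact_mod_cast hj
  nlinarith

/-- the numerical part -/
theorem sba_num (hPOL : S_POL) (k : ℕ) (C ε : ℝ) (hC : 0 ≤ C) (hε : 0 < ε) :
    ∃ r : ℕ, ∀ n : ℕ, r ≤ n → ∀ q D : ℝ, 2 ≤ q → q ^ ((n : ℝ) / 2) ≤ 4 * D →
      ((n : ℝ) + 1) ^ k * q ^ C ≤ D ^ (ε / 2) := by
  obtain ⟨r, hr⟩ := hPOL (ε / 4) (C + k + ε) (by positivity) (by positivity)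
  refine ⟨r, fun n hn q D hq hD => ?_⟩
  have h1 := hr n hn q hq
  have hq0 : (0 : ℝ) < q := by linarith
  have hq1 : (1 : ℝ) ≤ q := by linarith
  have hn0 : (0 : ℝ) ≤ n := Nat.cast_nonneg n
  have hn1 : (1 : ℝ) ≤ (n : ℝ) + 1 := by linarith
  have h2 : q ^ (-(ε / 4 / 2) * (n : ℝ)) ≤ 1 := by
    apply Real.rpow_le_one_of_one_le_of_nonpos hq1
    have : 0 ≤ (ε / 4 / 2) * (n : ℝ) := by positivity
    linarith
  have h3 : ((n : ℝ) + 1) ^ (C + k + ε) * q ^ (C + k + ε) ≤ q ^ (ε / 4 * (n : ℝ)) := by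
    have e1 : q ^ (C + k + ε - ε / 4 * (n : ℝ)) = q ^ (C + k + ε) / q ^ (ε / 4 * (n : ℝ)) :=
      Real.rpow_sub hq0 _ _
    have h4 := h1.trans h2
    rw [e1, ← mul_div_assoc, div_le_one (by positivity)] at h4
    exact h4
  -- `4 ^ (ε / 2) = 2 ^ ε ≤ q ^ ε`
  have h5 : (4 : ℝ) ^ (ε / 2) ≤ q ^ ε := by
    have e1 : (4 : ℝ) ^ (ε / 2) = 2 ^ ε := by
      rw [show (4 : ℝ) = 2 ^ (2 : ℝ) by norm_num, ← Real.rpow_mul (by norm_num)]
      congr 1
      ring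
    rw [e1]
    exact Real.rpow_le_rpow (by norm_num) hq hε.le
  have h6 : ((n : ℝ) + 1) ^ k ≤ ((n : ℝ) + 1) ^ (C + k + ε) := by
    rw [← Real.rpow_natCast]
    apply Real.rpow_le_rpow_of_exponent_le hn1
    linarith
  have h7 : q ^ C * q ^ ε ≤ q ^ (C + k + ε) := by
    rw [← Real.rpow_add hq0]
    apply Real.rpow_le_rpow_of_exponent_le hq1
    have : (0 : ℝ) ≤ k := Nat.cast_nonneg k
    linarith
  have h8 : ((n : ℝ) + 1) ^ k * q ^ C * (4 : ℝ) ^ (ε / 2) ≤ q ^ (ε / 4 * (n : ℝ)) := by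
    calc ((n : ℝ) + 1) ^ k * q ^ C * (4 : ℝ) ^ (ε / 2)
        ≤ ((n : ℝ) + 1) ^ k * q ^ C * q ^ ε := by gcongr
      _ = ((n : ℝ) + 1) ^ k * (q ^ C * q ^ ε) := by ring
      _ ≤ ((n : ℝ) + 1) ^ (C + k + ε) * q ^ (C + k + ε) := by gcongr
      _ ≤ _ := h3
  have h9 : q ^ (ε / 4 * (n : ℝ)) ≤ (4 * D) ^ (ε / 2) := by
    have e1 : q ^ (ε / 4 * (n : ℝ)) = (q ^ ((n : ℝ) / 2)) ^ (ε / 2) := by
      rw [← Real.rpow_mul hq0.le]
      congr 1
      ring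
    rw [e1]
    exact Real.rpow_le_rpow (by positivity) hD (by positivity)
  have hD0 : 0 < D := by
    have : 0 < q ^ ((n : ℝ) / 2) := by positivity
    linarith
  rw [Real.mul_rpow (by norm_num) hD0.le] at h9
  have h10 := h8.trans h9
  rw [mul_comm ((4 : ℝ) ^ (ε / 2))] at h10
  exact le_of_mul_le_mul_right h10 (by positivity)

theorem t_SBA : M_SBA := by
  intro hSTR hNSB hCLQ hPOL k hk ε hε
  obtain ⟨r1, h1⟩ := hNSB k hk (ε / 2) (by positivity)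
  obtain ⟨C, hC, h2⟩ := hCLQ k (by omega)
  obtain ⟨r3, h3⟩ := sba_num hPOL k C ε hC hε
  refine ⟨max (max r1 r3) 1, fun n hn F _ _ X hX hX1 => ?_⟩
  classical
  haveI := Fintype.ofFinite F
  have hn1 : r1 ≤ n := le_trans (le_trans (le_max_left _ _) (le_max_left _ _)) hn
  have hn3 : r3 ≤ n := le_trans (le_trans (le_max_right _ _) (le_max_left _ _)) hn
  have hn0 : 1 ≤ n := le_trans (le_max_right _ _) hn
  have hdeg := sba_deg hSTR n F X hX hX1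
  have hq : (2 : ℝ) ≤ Nat.card F := by
    have : 1 < Nat.card F := Finite.one_lt_card
    exact_mod_cast this
  have hD0 : 0 < (X 1).re := by
    have : 0 < (Nat.card F : ℝ) ^ ((n : ℝ) / 2) := by positivity
    linarith
  have key := h3 n hn3 (Nat.card F) (X 1).re hq hdeg
  have hcl := h2 n hn0 F
  haveI := Fintype.ofFinite (CA n F k)
  rw [finsum_eq_sum_of_fintype] at hcl ⊢
  have hA : ∀ A : CA n F k, ‖X (Matrix.SpecialLinearGroup.toGL A.1)‖ ≤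
      ((cN A.1.1 : ℝ) * (Nat.card F : ℝ) ^ (-((n : ℝ) ^ 2 / k))) ^ (1 / 4 : ℝ) *
        (X 1).re ^ (3 / 4 + ε / 2) := by
    intro A
    obtain ⟨ζ, _, hζ⟩ := Matrix.SpecialLinearGroup.mem_center_iff.mp A.2
    have h4 : ((Matrix.SpecialLinearGroup.toGL A.1 : GL (Fin n) F) : Matrix (Fin n) (Fin n) F) =
        A.1.1 := rfl
    have h5 := h1 n hn1 F X hX hX1 (Matrix.SpecialLinearGroup.toGL A.1) ζ (by
      rw [h4, hζ]
      simp)
    rw [h4] at h5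
    exact h5
  calc ‖∑ A : CA n F k, X (Matrix.SpecialLinearGroup.toGL A.1)‖
      ≤ ∑ A : CA n F k, ‖X (Matrix.SpecialLinearGroup.toGL A.1)‖ := norm_sum_le _ _
    _ ≤ ∑ A : CA n F k, ((cN A.1.1 : ℝ) * (Nat.card F : ℝ) ^ (-((n : ℝ) ^ 2 / k))) ^ (1 / 4 : ℝ) *
        (X 1).re ^ (3 / 4 + ε / 2) := Finset.sum_le_sum fun A _ => hA A
    _ = (∑ A : CA n F k, ((cN A.1.1 : ℝ) * (Nat.card F : ℝ) ^ (-((n : ℝ) ^ 2 / k))) ^ (1 / 4 : ℝ)) *
        (X 1).re ^ (3 / 4 + ε / 2) := by rw [Finset.sum_mul]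
    _ ≤ (((n : ℝ) + 1) ^ k * (Nat.card F : ℝ) ^ C * Nat.card (CA n F k)) *
        (X 1).re ^ (3 / 4 + ε / 2) := by gcongr
    _ ≤ ((X 1).re ^ (ε / 2) * Nat.card (CA n F k)) * (X 1).re ^ (3 / 4 + ε / 2) := by gcongr
    _ = Nat.card (CA n F k) * ((X 1).re ^ (3 / 4 + ε / 2) * (X 1).re ^ (ε / 2)) := by ring
    _ = Nat.card (CA n F k) * (X 1).re ^ (3 / 4 + ε) := by
        rw [← Real.rpow_add hD0]
        congr 2
        ring

end

end SRJ
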