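import Pool.Agent.SRJ.StA
import Pool.Agent.RSF.KA

/-!
# SRJ, module HMF: matrices killed by a polynomial, the numbers of intertwining matrices

The type of a matrix `A` with `g(A) = 0` is the family of the numbers `ν (p, j)` of the cyclic
summands `F[X] / (p ^ e)` with `j ≤ e`. The size, the number of intertwining matrices and the
isomorphism class are read off from the types.
-/

set_option autoImplicit false

namespace SRJ

open Polynomial Module RSF.KA

noncomputable section

/-! ## 1. Homomorphisms of cyclic modules -/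

theorem hmf_lift {R M : Type} [CommRing R] [AddCommGroup M] [Module R M] (a : R) :
    Nat.card ((R ⧸ (Submodule.span R {a} : Submodule R R)) →ₗ[R] M) =
      Nat.card {m : M // a • m = 0} := by
  refine Nat.card_congr (Equiv.ofBijective
    (fun f => ⟨f (Submodule.Quotient.mk 1), ?_⟩) ⟨?_, ?_⟩)
  · rw [← map_smul, ← Submodule.Quotient.mk_smul]
    have : (Submodule.Quotient.mk (a • (1 : R)) :
        R ⧸ (Submodule.span R {a} : Submodule R R)) = 0 := by
      rw [Submodule.Quotient.mk_eq_zero, smul_eq_mul, mul_one]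
      exact Submodule.mem_span_singleton_self a
    rw [this, map_zero]
  · intro f f' h
    have h1 : f (Submodule.Quotient.mk 1) = f' (Submodule.Quotient.mk 1) :=
      congrArg Subtype.val h
    apply LinearMap.ext
    intro x
    obtain ⟨r, rfl⟩ := Submodule.Quotient.mk_surjective _ x
    have h2 : (Submodule.Quotient.mk r : R ⧸ (Submodule.span R {a} : Submodule R R)) =
        r • Submodule.Quotient.mk 1 := by
      rw [← Submodule.Quotient.mk_smul, smul_eq_mul, mul_one]
    rw [h2, map_smul, map_smul, h1]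
  · rintro ⟨m, hm⟩
    have hle : (Submodule.span R {a} : Submodule R R) ≤
        LinearMap.ker (LinearMap.toSpanSingleton R M m) := by
      rw [Submodule.span_singleton_le_iff_mem, LinearMap.mem_ker,
        LinearMap.toSpanSingleton_apply]
      exact hm
    refine ⟨Submodule.liftQ _ (LinearMap.toSpanSingleton R M m) hle, ?_⟩
    apply Subtype.ext
    show Submodule.liftQ _ (LinearMap.toSpanSingleton R M m) hle (Submodule.Quotient.mk 1) = m
    rw [Submodule.liftQ_apply, LinearMap.toSpanSingleton_apply, one_smul]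

theorem hmf_cyc {F : Type} [Field F] [Finite F] (a b d : F[X]) (hb : b ≠ 0)
    (hd : (Submodule.span F[X] {a} : Submodule F[X] F[X]) ⊔ Submodule.span F[X] {b} =
      Submodule.span F[X] {d}) :
    Nat.card ((F[X] ⧸ (Submodule.span F[X] {a} : Submodule F[X] F[X])) →ₗ[F[X]]
      (F[X] ⧸ (Submodule.span F[X] {b} : Submodule F[X] F[X]))) = Nat.card F ^ d.natDegree := by
  rw [hmf_lift]
  let M := F[X] ⧸ (Submodule.span F[X] {b} : Submodule F[X] F[X])
  have hfd : Module.Finite F M := by
    by_cases hu : IsUnit b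
    · have hs : Subsingleton M := by
        rw [Submodule.Quotient.subsingleton_iff]
        exact Ideal.span_singleton_eq_top.2 hu
      exact Module.Finite.of_surjective (0 : F →ₗ[F] M) fun x => ⟨0, Subsingleton.elim _ _⟩
    · have h0 : 0 < Module.finrank F M := by
        have h1 : Module.finrank F M = b.natDegree := finrank_quotient_span_eq_natDegree
        rw [h1]
        rw [Nat.pos_iff_ne_zero]
        intro h2
        apply hu
        rw [Polynomial.isUnit_iff_degree_eq_zero, Polynomial.degree_eq_natDegree hb, h2]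
        rfl
      exact Module.finite_of_finrank_pos h0
  let T : M →ₗ[F[X]] M := LinearMap.lsmul F[X] M a
  let T' : M →ₗ[F] M := T.restrictScalars F
  have hc : Nat.card {m : M // a • m = 0} = Nat.card F ^ Module.finrank F (LinearMap.ker T') := by
    rw [← Module.natCard_eq_pow_finrank]
    exact Nat.card_congr (Equiv.refl _)
  have hr : Module.finrank F (LinearMap.ker T') = Module.finrank F (M ⧸ LinearMap.range T') := by
    have h1 := LinearMap.finrank_range_add_finrank_ker T'
    have h2 := Submodule.finrank_quotient_add_finrank (LinearMap.range T')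
    omega
  let S : F[X] →ₗ[F[X]] (M ⧸ LinearMap.range T) :=
    (Submodule.mkQ (LinearMap.range T)) ∘ₗ (Submodule.mkQ (Submodule.span F[X] {b}))
  have hS : Function.Surjective S := by
    intro x
    obtain ⟨y, rfl⟩ := Submodule.Quotient.mk_surjective _ x
    obtain ⟨z, rfl⟩ := Submodule.Quotient.mk_surjective _ y
    exact ⟨z, rfl⟩
  have hk : LinearMap.ker S = Submodule.span F[X] {d} := by
    rw [← hd]
    ext x
    rw [LinearMap.mem_ker]
    have e1 : S x = 0 ↔ (Submodule.Quotient.mk x : M) ∈ LinearMap.range T := by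
      show (Submodule.Quotient.mk (Submodule.Quotient.mk x : M) : M ⧸ LinearMap.range T) = 0 ↔ _
      rw [Submodule.Quotient.mk_eq_zero]
    rw [e1, LinearMap.mem_range]
    constructor
    · rintro ⟨y, hy⟩
      obtain ⟨z, rfl⟩ := Submodule.Quotient.mk_surjective _ y
      have h3 : (Submodule.Quotient.mk (a * z) : M) = Submodule.Quotient.mk x := hy
      have h4 := (Submodule.Quotient.eq _).1 h3
      have h5 : x = a * z - (a * z - x) := by ring
      rw [h5]
      apply Submodule.sub_mem
      · apply Submodule.mem_sup_left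
        rw [mul_comm]
        exact Submodule.smul_mem _ z (Submodule.mem_span_singleton_self a)
      · exact Submodule.mem_sup_right h4
    · intro hx
      obtain ⟨y, hy, z, hz, rfl⟩ := Submodule.mem_sup.1 hx
      obtain ⟨r, rfl⟩ := Submodule.mem_span_singleton.1 hy
      refine ⟨Submodule.Quotient.mk r, ?_⟩
      show (Submodule.Quotient.mk (a * r) : M) = _
      rw [Submodule.Quotient.eq]
      have h5 : a * r - (r • a + z) = -z := by
        rw [smul_eq_mul]
        ring
      rw [h5]
      exact Submodule.neg_mem _ hz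
  have E := LinearMap.quotKerEquivOfSurjective S hS
  have h6 : Module.finrank F (M ⧸ LinearMap.range T') = d.natDegree := by
    have h7 : Module.finrank F (F[X] ⧸ LinearMap.ker S) = Module.finrank F (M ⧸ LinearMap.range T) :=
      (E.restrictScalars F).finrank_eq
    have h8 : Module.finrank F (M ⧸ LinearMap.range T') =
        Module.finrank F (M ⧸ LinearMap.range T) := rfl
    rw [h8, ← h7, hk]
    exact finrank_quotient_span_eq_natDegree
  rw [hc, hr, h6]

/-- the exponent for two pairs -/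
def hmf_d {F : Type} [Field F] (x y : F[X] × ℕ) : ℕ := by
  classical exact if x.1 = y.1 then x.1.natDegree * min x.2 y.2 else 0

theorem hmf_pair {F : Type} [Field F] [Finite F] (x y : F[X] × ℕ)
    (hx : x.1.Monic ∧ Irreducible x.1 ∧ 1 ≤ x.2) (hy : y.1.Monic ∧ Irreducible y.1 ∧ 1 ≤ y.2) :
    Nat.card (Q x →ₗ[F[X]] Q y) = Nat.card F ^ hmf_d x y := by
  classical
  have hy0 : y.1 ^ y.2 ≠ 0 := pow_ne_zero _ hy.2.1.ne_zero
  unfold hmf_d
  by_cases h : x.1 = y.1
  · rw [if_pos h]
    have h1 : (x.1 ^ (min x.2 y.2)).natDegree = x.1.natDegree * min x.2 y.2 := by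
      rw [Polynomial.natDegree_pow, mul_comm]
    rw [← h1]
    refine hmf_cyc _ _ _ hy0 ?_
    rw [← h]
    apply le_antisymm
    · apply sup_le
      · exact Ideal.span_singleton_le_span_singleton.2 (pow_dvd_pow _ (min_le_left _ _))
      · exact Ideal.span_singleton_le_span_singleton.2 (pow_dvd_pow _ (min_le_right _ _))
    · rcases le_total x.2 y.2 with h2 | h2
      · rw [min_eq_left h2]
        exact le_sup_left
      · rw [min_eq_right h2]
        exact le_sup_right
  · rw [if_neg h]
    have h1 : (1 : F[X]).natDegree = 0 := natDegree_one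
    rw [← h1]
    refine hmf_cyc _ _ _ hy0 ?_
    have hcop : IsCoprime x.1 y.1 := by
      rw [hx.2.1.coprime_iff_not_dvd]
      intro hdvd
      have hass := (hx.2.1.associated_of_dvd hy.2.1 hdvd)
      exact h (Polynomial.eq_of_monic_of_associated hx.1 hy.1 hass)
    have hcop2 : IsCoprime (x.1 ^ x.2) (y.1 ^ y.2) := hcop.pow
    have h3 := (Ideal.isCoprime_span_singleton_iff _ _).2 hcop2
    have h4 := Ideal.isCoprime_iff_sup_eq.1 h3
    have h5 : (Submodule.span F[X] {(1 : F[X])} : Submodule F[X] F[X]) = ⊤ :=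
      Ideal.span_singleton_one
    rw [h5]
    exact h4

/-! ## 2. Homomorphisms of products -/

theorem hmf_prod {R : Type} [CommRing R] {ι κ : Type} [Fintype ι] [Fintype κ]
    (V : ι → Type) (W : κ → Type) [∀ i, AddCommGroup (V i)] [∀ i, Module R (V i)]
    [∀ i, AddCommGroup (W i)] [∀ i, Module R (W i)] :
    Nat.card ((∀ i, V i) →ₗ[R] (∀ j, W j)) = ∏ j, ∏ i, Nat.card (V i →ₗ[R] W j) := by
  classical
  have h1 : Nat.card ((∀ i, V i) →ₗ[R] (∀ j, W j)) =
      Nat.card (∀ j, ((∀ i, V i) →ₗ[R] W j)) := by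
    refine Nat.card_congr
      { toFun := fun f j => LinearMap.proj j ∘ₗ f
        invFun := fun f => LinearMap.pi f
        left_inv := fun f => rfl
        right_inv := fun f => rfl }
  rw [h1, Nat.card_pi]
  refine Finset.prod_congr rfl fun j _ => ?_
  rw [← Nat.card_pi]
  exact Nat.card_congr (LinearMap.lsum R V R (M := W j)).toEquiv.symm

theorem hmf_dec {F : Type} [Field F] [Finite F] (V W : Type) [AddCommGroup V] [Module F[X] V]
    [AddCommGroup W] [Module F[X] W] {ι κ : Type} [Fintype ι] [Fintype κ] (f : ι → F[X] × ℕ)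
    (g : κ → F[X] × ℕ) (hf : ∀ i, (f i).1.Monic ∧ Irreducible (f i).1 ∧ 1 ≤ (f i).2)
    (hg : ∀ i, (g i).1.Monic ∧ Irreducible (g i).1 ∧ 1 ≤ (g i).2)
    (E : V ≃ₗ[F[X]] ∀ i, Q (f i)) (E' : W ≃ₗ[F[X]] ∀ i, Q (g i)) :
    Nat.card (V →ₗ[F[X]] W) = Nat.card F ^ (∑ j, ∑ i, hmf_d (f i) (g j)) := by
  have h1 : Nat.card (V →ₗ[F[X]] W) =
      Nat.card ((∀ i, Q (f i)) →ₗ[F[X]] (∀ i, Q (g i))) :=
    Nat.card_congr (LinearEquiv.arrowCongr E E').toEquiv
  rw [h1, hmf_prod, ← Finset.prod_pow_eq_pow_sum]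
  refine Finset.prod_congr rfl fun j _ => ?_
  rw [← Finset.prod_pow_eq_pow_sum]
  refine Finset.prod_congr rfl fun i _ => ?_
  exact hmf_pair _ _ (hf i) (hg j)

/-! ## 3. Matrices and modules -/

theorem hmf_mat {F : Type} [Field F] {a b : ℕ} (A : Matrix (Fin a) (Fin a) F)
    (B : Matrix (Fin b) (Fin b) F) :
    Nat.card {f : Matrix (Fin b) (Fin a) F // f * A = B * f} =
      Nat.card (AEval' (Matrix.toLin' A) →ₗ[F[X]] AEval' (Matrix.toLin' B)) := by
  symm
  refine Nat.card_congr (Equiv.ofBijective (fun φ => ⟨LinearMap.toMatrix'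
    (((AEval'.of (Matrix.toLin' B)).symm : _ →ₗ[F] _) ∘ₗ (φ.restrictScalars F) ∘ₗ
      ((AEval'.of (Matrix.toLin' A) : _ →ₗ[F] _))), ?_⟩) ⟨?_, ?_⟩)
  · have hc : (((AEval'.of (Matrix.toLin' B)).symm : _ →ₗ[F] _) ∘ₗ (φ.restrictScalars F) ∘ₗ
        ((AEval'.of (Matrix.toLin' A) : _ →ₗ[F] _))) ∘ₗ Matrix.toLin' A =
        Matrix.toLin' B ∘ₗ (((AEval'.of (Matrix.toLin' B)).symm : _ →ₗ[F] _) ∘ₗ
          (φ.restrictScalars F) ∘ₗ ((AEval'.of (Matrix.toLin' A) : _ →ₗ[F] _))) := by
      apply LinearMap.ext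
      intro m
      show (AEval'.of (Matrix.toLin' B)).symm
          (φ (AEval'.of (Matrix.toLin' A) (Matrix.toLin' A m))) =
        Matrix.toLin' B ((AEval'.of (Matrix.toLin' B)).symm (φ (AEval'.of (Matrix.toLin' A) m)))
      rw [← AEval'.X_smul_of, map_smul, AEval'.of_symm_X_smul]
    have h2 := congrArg LinearMap.toMatrix' hc
    rw [LinearMap.toMatrix'_comp, LinearMap.toMatrix'_comp, LinearMap.toMatrix'_toLin',
      LinearMap.toMatrix'_toLin'] at h2
    exact h2
  · intro φ ψ h
    have h1 := LinearMap.toMatrix'.injective (congrArg Subtype.val h)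
    apply LinearMap.ext
    intro x
    have h2 := congrArg (fun L : (Fin a → F) →ₗ[F] (Fin b → F) =>
      AEval'.of (Matrix.toLin' B) (L ((AEval'.of (Matrix.toLin' A)).symm x))) h1
    simpa using h2
  · rintro ⟨f, hf⟩
    have hX : ∀ m : Fin a → F, (((AEval'.of (Matrix.toLin' B)).toLinearMap) ∘ₗ Matrix.toLin' f)
        (Matrix.toLin' A m) = (X : F[X]) •
          ((((AEval'.of (Matrix.toLin' B)).toLinearMap) ∘ₗ Matrix.toLin' f) m) := by
      intro m
      show AEval'.of (Matrix.toLin' B) (Matrix.toLin' f (Matrix.toLin' A m)) =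
        (X : F[X]) • AEval'.of (Matrix.toLin' B) (Matrix.toLin' f m)
      rw [AEval'.X_smul_of]
      congr 1
      have h3 : Matrix.toLin' f ∘ₗ Matrix.toLin' A = Matrix.toLin' B ∘ₗ Matrix.toLin' f := by
        rw [← Matrix.toLin'_mul, ← Matrix.toLin'_mul, hf]
      exact congrArg (fun L : (Fin a → F) →ₗ[F] (Fin b → F) => L m) h3
    refine ⟨LinearMap.ofAEval (Matrix.toLin' A)
      (((AEval'.of (Matrix.toLin' B)).toLinearMap) ∘ₗ Matrix.toLin' f) hX, ?_⟩
    apply Subtype.ext
    refine Eq.trans (congrArg LinearMap.toMatrix' ?_) (LinearMap.toMatrix'_toLin' f)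
    apply LinearMap.ext
    intro m
    rfl

theorem hmf_iso {F : Type} [Field F] {a b : ℕ} (A : Matrix (Fin a) (Fin a) F)
    (B : Matrix (Fin b) (Fin b) F)
    (h : Nonempty (AEval' (Matrix.toLin' A) ≃ₗ[F[X]] AEval' (Matrix.toLin' B))) :
    ∃ (P : Matrix (Fin b) (Fin a) F) (Q : Matrix (Fin a) (Fin b) F),
      P * Q = 1 ∧ Q * P = 1 ∧ P * A = B * P := by
  obtain ⟨E⟩ := h
  let L : (Fin a → F) ≃ₗ[F] (Fin b → F) :=
    (Module.AEval'.of (Matrix.toLin' A)).trans
      ((E.restrictScalars F).trans (Module.AEval'.of (Matrix.toLin' B)).symm)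
  have hL : ∀ m, L (Matrix.toLin' A m) = Matrix.toLin' B (L m) := by
    intro m
    show (Module.AEval'.of (Matrix.toLin' B)).symm
        (E (Module.AEval'.of (Matrix.toLin' A) (Matrix.toLin' A m))) = _
    rw [← Module.AEval'.X_smul_of, map_smul, Module.AEval'.of_symm_X_smul]
    rfl
  have hc : (L : (Fin a → F) →ₗ[F] (Fin b → F)) ∘ₗ Matrix.toLin' A =
      Matrix.toLin' B ∘ₗ (L : (Fin a → F) →ₗ[F] (Fin b → F)) := LinearMap.ext hL
  refine ⟨LinearMap.toMatrix' (L : (Fin a → F) →ₗ[F] (Fin b → F)),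
    LinearMap.toMatrix' (L.symm : (Fin b → F) →ₗ[F] (Fin a → F)), ?_, ?_, ?_⟩
  · rw [← LinearMap.toMatrix'_comp, LinearEquiv.comp_coe, LinearEquiv.symm_trans_self]
    exact LinearMap.toMatrix'_id
  · rw [← LinearMap.toMatrix'_comp, LinearEquiv.comp_coe, LinearEquiv.self_trans_symm]
    exact LinearMap.toMatrix'_id
  · have h2 := congrArg LinearMap.toMatrix' hc
    rw [LinearMap.toMatrix'_comp, LinearMap.toMatrix'_comp, LinearMap.toMatrix'_toLin',
      LinearMap.toMatrix'_toLin'] at h2
    exact h2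

theorem hmf_kill {F : Type} [Field F] {a : ℕ} (A : Matrix (Fin a) (Fin a) F) (g : F[X])
    (h : aeval A g = 0) (x : AEval' (Matrix.toLin' A)) : g • x = 0 := by
  have h1 : aeval (Matrix.toLin' A) g = Matrix.toLin' (aeval A g) :=
    Polynomial.aeval_algHom_apply
      (Matrix.toLinAlgEquiv' : Matrix (Fin a) (Fin a) F ≃ₐ[F] _).toAlgHom A g
  have h2 : x = Module.AEval.of F (Fin a → F) (Matrix.toLin' A)
      ((Module.AEval.of F (Fin a → F) (Matrix.toLin' A)).symm x) := by
    rw [LinearEquiv.apply_symm_apply]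
  rw [h2, ← Module.AEval.of_aeval_smul, h1, h]
  simp

theorem hmf_dvd {F : Type} [Field F] (V : Type) [AddCommGroup V] [Module F[X] V] (g : F[X])
    (hV : ∀ x : V, g • x = 0) {ι : Type} (f : ι → F[X] × ℕ) (E : V ≃ₗ[F[X]] ∀ i, Q (f i))
    (i : ι) : (f i).1 ^ (f i).2 ∣ g := by
  have h1 : ∀ y : (∀ i, Q (f i)), g • y = 0 := by
    intro y
    have h2 := hV (E.symm y)
    have h3 := congrArg E h2
    rwa [map_smul, LinearEquiv.apply_symm_apply, map_zero] at h3
  have h2 := congrFun (h1 fun i => Submodule.Quotient.mk 1) i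
  have h3 : (Submodule.Quotient.mk (g • (1 : F[X])) : Q (f i)) = 0 := h2
  rw [Submodule.Quotient.mk_eq_zero, smul_eq_mul, mul_one] at h3
  exact Ideal.mem_span_singleton.1 h3

/-! ## 4. Counting -/

theorem hmf_cnt (e : ℕ) : ∀ m : ℕ, ∑ j : Fin m, (if j.1 + 1 ≤ e then 1 else 0) = min e m := by
  intro m
  induction m with
  | zero => simp
  | succ m ih =>
    rw [Fin.sum_univ_castSucc]
    have : (∑ j : Fin m, (if (j.castSucc).1 + 1 ≤ e then 1 else 0)) = min e m := ih
    rw [this]
    by_cases h : m + 1 ≤ e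
    · have h1 : (if (Fin.last m).1 + 1 ≤ e then 1 else 0) = 1 := if_pos (by simpa using h)
      rw [h1]
      omega
    · have h1 : (if (Fin.last m).1 + 1 ≤ e then 1 else 0) = 0 := if_neg (by simpa using h)
      rw [h1]
      omega

open Classical in
/-- the indicator of a proposition -/
def hmf_c (P : Prop) : ℕ := if P then 1 else 0

theorem hmf_c_pos {P : Prop} (h : P) : hmf_c P = 1 := by
  unfold hmf_c
  rw [if_pos h]

theorem hmf_c_neg {P : Prop} (h : ¬ P) : hmf_c P = 0 := by
  unfold hmf_c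
  rw [if_neg h]

/-- the index set -/
abbrev hmf_J {F : Type} (S : Finset F) (μ : F → ℕ) : Type := Σ p : {p // p ∈ S}, Fin (μ p.1)

/-- the number of the elements of the multiset with the given first entry and large second entry -/
def hmf_N {F : Type} (s : Multiset (F × ℕ)) (p : F) (j : ℕ) : ℕ :=
  (s.map fun x => hmf_c (x.1 = p ∧ j + 1 ≤ x.2)).sum

theorem hmf_sumJ {F : Type} (S : Finset F) (μ : F → ℕ) (d : F → ℕ) (p : F) (hp : p ∈ S) (e : ℕ)
    (he : e ≤ μ p) :
    ∑ z : hmf_J S μ, d z.1.1 * hmf_c (p = z.1.1 ∧ z.2.1 + 1 ≤ e) = d p * e := by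
  rw [Fintype.sum_sigma]
  rw [Finset.sum_eq_single (⟨p, hp⟩ : {p // p ∈ S})]
  · have h1 := hmf_cnt e (μ p)
    rw [min_eq_left he] at h1
    have h2 : ∀ j : Fin (μ p), d p * hmf_c (p = p ∧ j.1 + 1 ≤ e) =
        d p * (if j.1 + 1 ≤ e then 1 else 0) := by
      intro j
      congr 1
      by_cases h : j.1 + 1 ≤ e
      · rw [hmf_c_pos ⟨rfl, h⟩, if_pos h]
      · rw [hmf_c_neg fun h' => h h'.2, if_neg h]
    show ∑ j : Fin (μ p), d p * hmf_c (p = p ∧ j.1 + 1 ≤ e) = _
    rw [Finset.sum_congr rfl fun j _ => h2 j, ← Finset.mul_sum, h1]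
  · intro q _ hq
    apply Finset.sum_eq_zero
    intro j _
    have : ¬ (p = q.1 ∧ j.1 + 1 ≤ e) := by
      rintro ⟨h, _⟩
      exact hq (Subtype.ext h.symm)
    rw [hmf_c_neg this, mul_zero]
  · intro h
    exact absurd (Finset.mem_univ _) h

open Classical in
theorem hmf_ext {F : Type} (s t : Multiset (F × ℕ)) (hs : ∀ x ∈ s, 1 ≤ x.2)
    (ht : ∀ x ∈ t, 1 ≤ x.2) (h : ∀ p j, hmf_N s p j = hmf_N t p j) : s = t := by
  have key : ∀ (s : Multiset (F × ℕ)) (p : F) (e : ℕ),
      s.count (p, e + 1) + hmf_N s p (e + 1) = hmf_N s p e := by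
    intro s p e
    induction s using Multiset.induction_on with
    | empty => simp [hmf_N]
    | cons x s ih =>
      have h1 : hmf_N (x ::ₘ s) p (e + 1) =
          hmf_c (x.1 = p ∧ e + 1 + 1 ≤ x.2) + hmf_N s p (e + 1) := by
        simp [hmf_N]
      have h2 : hmf_N (x ::ₘ s) p e =
          hmf_c (x.1 = p ∧ e + 1 ≤ x.2) + hmf_N s p e := by
        simp [hmf_N]
      rw [h1, h2, Multiset.count_cons]
      by_cases hx : x.1 = p
      · rcases Nat.lt_trichotomy x.2 (e + 1) with h3 | h3 | h3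
        · have e1 : ¬ ((p, e + 1) = x) := by
            intro h; rw [← h] at h3; simp at h3
          rw [if_neg e1, hmf_c_neg (by omega), hmf_c_neg (by omega)]
          omega
        · have e1 : (p, e + 1) = x := Prod.ext hx.symm h3.symm
          rw [if_pos e1, hmf_c_neg (by omega), hmf_c_pos ⟨hx, by omega⟩]
          omega
        · have e1 : ¬ ((p, e + 1) = x) := by
            intro h; rw [← h] at h3; simp at h3
          rw [if_neg e1, hmf_c_pos ⟨hx, by omega⟩, hmf_c_pos ⟨hx, by omega⟩]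
          omega
      · have e1 : ¬ ((p, e + 1) = x) := by
          intro h; exact hx (by rw [← h])
        rw [if_neg e1, hmf_c_neg (fun h => hx h.1), hmf_c_neg (fun h => hx h.1)]
        omega
  apply Multiset.ext.2
  rintro ⟨p, e⟩
  cases e with
  | zero =>
    rw [Multiset.count_eq_zero_of_notMem, Multiset.count_eq_zero_of_notMem]
    · intro h; have := ht _ h; simp at this
    · intro h; have := hs _ h; simp at this
  | succ e =>
    have h1 := key s p e
    have h2 := key t p e
    have h3 := h p e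
    have h4 := h p (e + 1)
    omega

theorem t_HMF : S_HMF := by
  classical
  intro F _ _ g hg
  have hg0 : g ≠ 0 := hg.ne_zero
  obtain ⟨nf, hnf⟩ : ∃ nf, nf = UniqueFactorizationMonoid.normalizedFactors g := ⟨_, rfl⟩
  have hirr : ∀ p ∈ nf, Irreducible p := by
    intro p hp
    rw [hnf] at hp
    exact UniqueFactorizationMonoid.irreducible_of_normalized_factor p hp
  have hdeg : ∀ p ∈ nf, 1 ≤ p.natDegree := fun p hp => (hirr p hp).natDegree_pos
  have hsum : ∑ p : {p // p ∈ nf.toFinset}, nf.count p.1 * p.1.natDegree = g.natDegree := by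
    have h1 : Associated nf.prod g := by
      rw [hnf]
      exact UniqueFactorizationMonoid.prod_normalizedFactors hg0
    have h2 : nf.prod.natDegree = g.natDegree := by
      have := Polynomial.degree_eq_degree_of_associated h1
      exact Polynomial.natDegree_eq_natDegree this
    have h3 : nf.prod.natDegree = (nf.map natDegree).sum :=
      Polynomial.natDegree_multiset_prod _ fun h => (hirr 0 h).ne_zero rfl
    rw [← h2, h3, Finset.sum_multiset_map_count]
    exact Finset.sum_coe_sort nf.toFinset (fun p => nf.count p * p.natDegree)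
  have hmult : ∀ (p : F[X]) (e : ℕ), p.Monic → Irreducible p → 1 ≤ e → p ^ e ∣ g →
      p ∈ nf.toFinset ∧ e ≤ nf.count p := by
    intro p e hp1 hp2 he hdvd
    have h1 : e ≤ nf.count p := by
      have h2 := UniqueFactorizationMonoid.emultiplicity_eq_count_normalizedFactors hp2 hg0
      rw [hp1.normalize_eq_self, ← hnf] at h2
      have h3 := pow_dvd_iff_le_emultiplicity.1 hdvd
      rw [h2] at h3
      exact_mod_cast h3
    refine ⟨?_, h1⟩
    rw [Multiset.mem_toFinset]
    exact Multiset.count_pos.1 (by omega)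
  let J := hmf_J nf.toFinset (fun p => nf.count p)
  have hcard : Fintype.card J ≤ Fintype.card (Fin g.natDegree) := by
    rw [Fintype.card_fin, Fintype.card_sigma, ← hsum]
    refine Finset.sum_le_sum fun p _ => ?_
    rw [Fintype.card_fin]
    exact Nat.le_mul_of_pos_right _ (hdeg p.1 (Multiset.mem_toFinset.1 p.2))
  obtain ⟨φ⟩ := Function.Embedding.nonempty_of_card_le hcard
  have hφ := φ.injective
  have key : ∀ (n : ℕ) (A : Matrix (Fin n) (Fin n) F), ∃ s : Multiset (F[X] × ℕ),
      (∀ p ∈ s, p.1.Monic ∧ Irreducible p.1 ∧ 1 ≤ p.2) ∧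
        Dec (AEval' (Matrix.toLin' A)) s := fun n A => exists_dec _ (torsion _)
  choose Φ h1 h2 using key
  have hin : ∀ (n : ℕ) (A : Matrix (Fin n) (Fin n) F), aeval A g = 0 → ∀ x ∈ Φ n A,
      x.1 ∈ nf.toFinset ∧ x.2 ≤ nf.count x.1 := by
    intro n A hA x hx
    obtain ⟨ι, _, f, hf, ⟨E⟩⟩ := h2 n A
    have hx2 := h1 n A x hx
    rw [hf] at hx
    obtain ⟨i, _, rfl⟩ := Multiset.mem_map.1 hx
    exact hmult _ _ hx2.1 hx2.2.1 hx2.2.2 (hmf_dvd _ g (hmf_kill A g hA) f E i)
  let w0 : J → ℕ := fun z => z.1.1.natDegree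
  let ν0 : (n : ℕ) → Matrix (Fin n) (Fin n) F → J → ℕ := fun n A z =>
    hmf_N (Φ n A) z.1.1 z.2.1
  let w : Fin g.natDegree → ℕ := Function.extend φ w0 0
  let ν : (n : ℕ) → Matrix (Fin n) (Fin n) F → Fin g.natDegree → ℕ := fun n A =>
    Function.extend φ (ν0 n A) 0
  have hw : ∀ z, w (φ z) = w0 z := fun z => hφ.extend_apply _ _ _
  have hw' : ∀ k, k ∉ Set.range φ → w k = 0 := fun k hk => Function.extend_apply' _ _ _ hk
  have hν : ∀ n A z, ν n A (φ z) = ν0 n A z := fun n A z => hφ.extend_apply _ _ _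
  have hν' : ∀ n A k, k ∉ Set.range φ → ν n A k = 0 := fun n A k hk =>
    Function.extend_apply' _ _ _ hk
  refine ⟨w, ν, ?_, ?_⟩
  · rw [← Fintype.sum_of_injective φ hφ w0 w hw' fun z => (hw z).symm]
    rw [← hsum, Fintype.sum_sigma]
    refine Finset.sum_congr rfl fun p _ => ?_
    show ∑ _j : Fin (nf.count p.1), p.1.natDegree = _
    rw [Finset.sum_const, Finset.card_univ, Fintype.card_fin, smul_eq_mul]
  · intro a b A B hA hB
    obtain ⟨ι, _, f, hf, ⟨E⟩⟩ := h2 a A
    obtain ⟨κ, _, f', hf', ⟨E'⟩⟩ := h2 b B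
    have hfm : ∀ i, f i ∈ Φ a A := by
      intro i
      rw [hf]
      exact Multiset.mem_map.2 ⟨i, Finset.mem_univ _, rfl⟩
    have hfm' : ∀ i, f' i ∈ Φ b B := by
      intro i
      rw [hf']
      exact Multiset.mem_map.2 ⟨i, Finset.mem_univ _, rfl⟩
    have hNA : ∀ p j, hmf_N (Φ a A) p j =
        ∑ i, hmf_c ((f i).1 = p ∧ j + 1 ≤ (f i).2) := by
      intro p j
      rw [hf, hmf_N, Multiset.map_map]
      rfl
    have hNB : ∀ p j, hmf_N (Φ b B) p j =
        ∑ i, hmf_c ((f' i).1 = p ∧ j + 1 ≤ (f' i).2) := by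
      intro p j
      rw [hf', hmf_N, Multiset.map_map]
      rfl
    refine ⟨?_, ?_, ?_, ?_⟩
    · rw [← Fintype.sum_of_injective φ hφ (fun z => w0 z * ν0 a A z) (fun k => w k * ν a A k)
        (fun k hk => by rw [hw' k hk, zero_mul]) (fun z => by rw [hw, hν])]
      have e1 : ∑ z : J, w0 z * ν0 a A z =
          ∑ z : J, ∑ i, w0 z * hmf_c ((f i).1 = z.1.1 ∧ z.2.1 + 1 ≤ (f i).2) := by
        refine Finset.sum_congr rfl fun z _ => ?_
        show w0 z * hmf_N (Φ a A) z.1.1 z.2.1 = _
        rw [hNA, Finset.mul_sum]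
      rw [e1, Finset.sum_comm]
      have e2 : ∀ i, ∑ z : J, w0 z * hmf_c ((f i).1 = z.1.1 ∧ z.2.1 + 1 ≤ (f i).2) =
          (f i).1.natDegree * (f i).2 := fun i =>
        hmf_sumJ nf.toFinset (fun p => nf.count p) natDegree (f i).1 (hin a A hA _ (hfm i)).1
          (f i).2 (hin a A hA _ (hfm i)).2
      rw [Finset.sum_congr rfl fun i _ => e2 i]
      have h3 := sum_eq (F := F) (AEval' (Matrix.toLin' A)) (h1 a A) (h2 a A)
      have h4 : Module.finrank F (AEval' (Matrix.toLin' A)) = a := by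
        rw [← (AEval'.of (Matrix.toLin' A)).finrank_eq, Module.finrank_fin_fun]
      rw [h4, hf, Multiset.map_map] at h3
      rw [← h3]
      show _ = ∑ i, (f i).2 * (f i).1.natDegree
      exact Finset.sum_congr rfl fun i _ => mul_comm _ _
    · intro k hk
      by_cases hr : k ∈ Set.range φ
      · obtain ⟨z, rfl⟩ := hr
        rw [hw] at hk
        have h3 := hdeg z.1.1 (Multiset.mem_toFinset.1 z.1.2)
        have h4 : z.1.1.natDegree = 0 := hk
        omega
      · exact hν' a A k hr
    · rw [hmf_mat, hmf_dec _ _ f f' (fun i => h1 a A _ (hfm i)) (fun i => h1 b B _ (hfm' i)) E E']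
      congr 1
      rw [← Fintype.sum_of_injective φ hφ (fun z => w0 z * (ν0 a A z * ν0 b B z))
        (fun k => w k * (ν a A k * ν b B k))
        (fun k hk => by rw [hw' k hk, zero_mul]) (fun z => by rw [hw, hν, hν])]
      have e1 : ∑ z : J, w0 z * (ν0 a A z * ν0 b B z) =
          ∑ z : J, ∑ j, ∑ i, w0 z *
            hmf_c ((f i).1 = (f' j).1 ∧ (f i).1 = z.1.1 ∧ z.2.1 + 1 ≤ min (f i).2 (f' j).2) := by
        refine Finset.sum_congr rfl fun z _ => ?_
        show w0 z * (hmf_N (Φ a A) z.1.1 z.2.1 * hmf_N (Φ b B) z.1.1 z.2.1) = _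
        rw [hNA, hNB, Finset.sum_mul_sum, Finset.sum_comm, Finset.mul_sum]
        refine Finset.sum_congr rfl fun j _ => ?_
        rw [Finset.mul_sum]
        refine Finset.sum_congr rfl fun i _ => ?_
        congr 1
        by_cases c1 : (f i).1 = z.1.1 ∧ z.2.1 + 1 ≤ (f i).2
        · by_cases c2 : (f' j).1 = z.1.1 ∧ z.2.1 + 1 ≤ (f' j).2
          · rw [hmf_c_pos c1, hmf_c_pos c2,
              hmf_c_pos ⟨c1.1.trans c2.1.symm, c1.1, le_min c1.2 c2.2⟩, mul_one]
          · have c3 : ¬ ((f i).1 = (f' j).1 ∧ (f i).1 = z.1.1 ∧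
                z.2.1 + 1 ≤ min (f i).2 (f' j).2) := by
              rintro ⟨d1, d2, d3⟩
              exact c2 ⟨d1.symm.trans d2, le_trans d3 (min_le_right _ _)⟩
            rw [hmf_c_pos c1, hmf_c_neg c2, hmf_c_neg c3, mul_zero]
        · have c3 : ¬ ((f i).1 = (f' j).1 ∧ (f i).1 = z.1.1 ∧
              z.2.1 + 1 ≤ min (f i).2 (f' j).2) := by
            rintro ⟨d1, d2, d3⟩
            exact c1 ⟨d2, le_trans d3 (min_le_left _ _)⟩
          rw [hmf_c_neg c1, zero_mul, hmf_c_neg c3]
      symm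
      rw [e1, Finset.sum_comm]
      refine Finset.sum_congr rfl fun j _ => ?_
      rw [Finset.sum_comm]
      refine Finset.sum_congr rfl fun i _ => ?_
      symm
      unfold hmf_d
      by_cases hij : (f i).1 = (f' j).1
      · rw [if_pos hij]
        rw [← hmf_sumJ nf.toFinset (fun p => nf.count p) natDegree (f i).1
          (hin a A hA _ (hfm i)).1 (min (f i).2 (f' j).2)
          (le_trans (min_le_left _ _) (hin a A hA _ (hfm i)).2)]
        refine Finset.sum_congr rfl fun z _ => ?_
        congr 1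
        by_cases c1 : (f i).1 = z.1.1 ∧ z.2.1 + 1 ≤ min (f i).2 (f' j).2
        · rw [hmf_c_pos c1, hmf_c_pos ⟨hij, c1.1, c1.2⟩]
        · rw [hmf_c_neg c1, hmf_c_neg fun h => c1 h.2]
      · rw [if_neg hij]
        symm
        apply Finset.sum_eq_zero
        intro z _
        rw [hmf_c_neg fun h => hij h.1, mul_zero]
    · intro _ hνν
      have hs : Φ a A = Φ b B := by
        apply hmf_ext
        · exact fun x hx => (h1 a A x hx).2.2
        · exact fun x hx => (h1 b B x hx).2.2
        · intro p j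
          by_cases hp : p ∈ nf.toFinset ∧ j < nf.count p
          · have h3 := congrFun hνν (φ ⟨⟨p, hp.1⟩, ⟨j, hp.2⟩⟩)
            rw [hν, hν] at h3
            exact h3
          · have hz : ∀ (n : ℕ) (A : Matrix (Fin n) (Fin n) F), aeval A g = 0 →
                hmf_N (Φ n A) p j = 0 := by
              intro n A hA
              unfold hmf_N
              apply Multiset.sum_eq_zero
              intro y hy
              obtain ⟨x, hx, rfl⟩ := Multiset.mem_map.1 hy
              apply hmf_c_neg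
              rintro ⟨rfl, c⟩
              have h5 := hin n A hA x hx
              exact hp ⟨h5.1, by omega⟩
            rw [hz a A hA, hz b B hB]
      have h3 := h2 a A
      rw [hs] at h3
      exact hmf_iso A B (h3.equiv (h2 b B))

end

end SRJ
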