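import Mathlib
import Pool.Agent.SRJ.StA
import Pool.Agent.FLC.FRO

set_option autoImplicit false

/-!
# SRJ, LTS: the variance of the number of tuples in `SL_n` with a given product
-/

namespace SRJ

open RSF FL0 Polynomial Pool.Agent.Lib_helper13

noncomputable section

instance lts_finite_CA (n : ℕ) (F : Type) [Field F] [Finite F] (k : ℕ) : Finite (CA n F k) := by
  unfold CA
  infer_instance

instance lts_nonempty_CA (n : ℕ) (F : Type) [Field F] (k : ℕ) : Nonempty (CA n F k) :=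
  ⟨⟨1, by rw [one_pow]; exact Subgroup.one_mem _⟩⟩

/-- the embedding in `GL_n` -/
def ltsI {n : ℕ} {F : Type} [Field F] (k : ℕ) (A : CA n F k) : GL (Fin n) F :=
  Matrix.SpecialLinearGroup.toGL A.1

theorem ltsI_inj {n : ℕ} {F : Type} [Field F] (k : ℕ) :
    Function.Injective (ltsI k : CA n F k → GL (Fin n) F) := by
  intro A B h
  exact Subtype.ext (Matrix.SpecialLinearGroup.toGL_injective h)

/-- conjugation with an element of `GL_n` -/
theorem lts_conj {n : ℕ} {F : Type} [Field F] (k : ℕ) (x : GL (Fin n) F) (A : CA n F k) :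
    ∃ B : CA n F k, ltsI k B = x * ltsI k A * x⁻¹ := by
  have hdet : (x * ltsI k A * x⁻¹ : GL (Fin n) F).val.det = 1 := by
    have h1 : (ltsI k A).val.det = 1 := A.1.2
    have h2 : Matrix.GeneralLinearGroup.det (x * ltsI k A * x⁻¹) =
        Matrix.GeneralLinearGroup.det (ltsI k A) := by
      rw [map_mul, map_mul, map_inv, mul_comm, inv_mul_cancel_left]
    have h3 := congrArg (fun u : Fˣ => (u : F)) h2
    simp only [Matrix.GeneralLinearGroup.val_det_apply] at h3
    rw [h3, h1]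
  obtain ⟨B, hB⟩ : ∃ B : SL n F, Matrix.SpecialLinearGroup.toGL B = x * ltsI k A * x⁻¹ :=
    ⟨⟨(x * ltsI k A * x⁻¹ : GL (Fin n) F).val, hdet⟩, Units.ext rfl⟩
  refine ⟨⟨B, ?_⟩, hB⟩
  rw [← Matrix.SpecialLinearGroup.toGL_mem_center_iff, map_pow, hB, conj_pow]
  refine (Subgroup.normal_of_characteristic (Subgroup.center (GL (Fin n) F))).conj_mem _ ?_ x
  have := A.2
  rw [← Matrix.SpecialLinearGroup.toGL_mem_center_iff, map_pow] at this
  exact this

section

variable {n : ℕ} {F : Type} [Field F] [Fintype F] [DecidableEq F]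

/-- the product -/
def ltsP (m : List ℕ) (A : ∀ j : Fin m.length, CA n F (m.get j)) : GL (Fin n) F :=
  (List.ofFn fun j => ltsI (m.get j) (A j)).prod

theorem ltsP_eq (m : List ℕ) (A : ∀ j : Fin m.length, CA n F (m.get j)) :
    ltsP m A = Matrix.SpecialLinearGroup.toGL (List.ofFn fun j => (A j).1).prod := by
  rw [ltsP, map_list_prod, List.map_ofFn]
  rfl

/-- the images -/
def ltsC (m : List ℕ) (j : Fin m.length) : Finset (GL (Fin n) F) := by
  classical
  exact (Set.range (ltsI (F := F) (n := n) (m.get j))).toFinset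

theorem lts_mem (m : List ℕ) (j : Fin m.length) (t : GL (Fin n) F) :
    t ∈ ltsC (n := n) (F := F) m j ↔ ∃ A, ltsI (m.get j) A = t := by
  classical
  simp [ltsC]

theorem lts_conjC (m : List ℕ) (j : Fin m.length) (t : GL (Fin n) F) (ht : t ∈ ltsC m j)
    (g : GL (Fin n) F) : g * t * g⁻¹ ∈ ltsC m j := by
  rw [lts_mem] at ht ⊢
  obtain ⟨A, rfl⟩ := ht
  exact lts_conj _ g A

/-- sums over the image -/
theorem lts_sumC (m : List ℕ) (j : Fin m.length) (X : GL (Fin n) F → ℂ) :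
    ∑ t ∈ ltsC m j, X t = ∑ᶠ A : CA n F (m.get j), X (Matrix.SpecialLinearGroup.toGL A.1) := by
  classical
  have : Fintype (CA n F (m.get j)) := Fintype.ofFinite _
  rw [finsum_eq_sum_of_fintype]
  have h : ltsC (n := n) (F := F) m j = Finset.univ.image (ltsI (m.get j)) := by
    ext t
    rw [lts_mem]
    simp
  rw [h, Finset.sum_image (fun A _ B _ hAB => ltsI_inj _ hAB)]
  rfl

/-- sums over the tuples -/
theorem lts_sumT (m : List ℕ) [Fintype (∀ j : Fin m.length, CA n F (m.get j))]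
    (Y : GL (Fin n) F → ℂ) :
    ∑ t ∈ Fintype.piFinset (ltsC (n := n) (F := F) m), Y (List.ofFn t).prod =
      ∑ A : ∀ j : Fin m.length, CA n F (m.get j), Y (ltsP m A) := by
  classical
  symm
  refine Finset.sum_bij (fun A _ j => ltsI (m.get j) (A j)) ?_ ?_ ?_ ?_
  · intro A _
    rw [Fintype.mem_piFinset]
    intro j
    rw [lts_mem]
    exact ⟨A j, rfl⟩
  · intro A _ B _ h
    funext j
    exact ltsI_inj _ (congrFun h j)
  · intro t ht
    rw [Fintype.mem_piFinset] at ht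
    have h1 : ∀ j, ∃ A, ltsI (m.get j) A = t j := fun j => (lts_mem m j (t j)).1 (ht j)
    choose A hA using h1
    exact ⟨A, Finset.mem_univ _, funext hA⟩
  · intro A _
    rfl

/-- the number of the tuples with given product -/
def ltsf (m : List ℕ) (g : GL (Fin n) F) : ℕ :=
  Nat.card {A : ∀ j : Fin m.length, CA n F (m.get j) // ltsP m A = g}

theorem ltsf_class (m : List ℕ) (g x : GL (Fin n) F) :
    ltsf (n := n) (F := F) m (g * x * g⁻¹) = ltsf m x := by
  have key : ∀ (g x : GL (Fin n) F),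
      ltsf (n := n) (F := F) m x ≤ ltsf m (g * x * g⁻¹) := by
    intro g x
    choose B hB using fun j => lts_conj (n := n) (F := F) (m.get j) g
    have hP : ∀ A : ∀ j : Fin m.length, CA n F (m.get j),
        ltsP m (fun j => B j (A j)) = g * ltsP m A * g⁻¹ := by
      intro A
      rw [ltsP, ltsP]
      have h1 : (fun j => ltsI (m.get j) (B j (A j))) =
          fun j => MulAut.conj g (ltsI (m.get j) (A j)) := by
        funext j
        rw [hB, MulAut.conj_apply]
      rw [h1]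
      have h2 := map_list_prod (MulAut.conj g) (List.ofFn fun j => ltsI (m.get j) (A j))
      rw [List.map_ofFn, MulAut.conj_apply] at h2
      exact h2.symm
    refine Nat.card_le_card_of_injective
      (fun A : {A : ∀ j : Fin m.length, CA n F (m.get j) // ltsP m A = x} =>
        (⟨fun j => B j (A.1 j), by rw [hP, A.2]⟩ :
          {A : ∀ j : Fin m.length, CA n F (m.get j) // ltsP m A = g * x * g⁻¹})) ?_
    intro A A' h
    apply Subtype.ext
    funext j
    have h1 : B j (A.1 j) = B j (A'.1 j) := congrFun (congrArg Subtype.val h) j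
    have h2 := congrArg (ltsI (m.get j)) h1
    rw [hB, hB] at h2
    exact ltsI_inj _ (mul_left_cancel (mul_right_cancel h2))
  refine le_antisymm ?_ (key g x)
  have h := key g⁻¹ (g * x * g⁻¹)
  have h3 : g⁻¹ * (g * x * g⁻¹) * g⁻¹⁻¹ = x := by group
  rwa [h3] at h

/-- the weighted sum -/
theorem lts_sumf (m : List ℕ) [Fintype (∀ j : Fin m.length, CA n F (m.get j))]
    (Y : GL (Fin n) F → ℂ) :
    ∑ g, (ltsf (n := n) (F := F) m g : ℂ) * Y g =
      ∑ A : ∀ j : Fin m.length, CA n F (m.get j), Y (ltsP m A) := by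
  classical
  rw [← Finset.sum_fiberwise (s := Finset.univ)
    (g := fun A : ∀ j : Fin m.length, CA n F (m.get j) => ltsP m A)]
  refine Finset.sum_congr rfl fun g _ => ?_
  rw [Finset.sum_congr rfl (g := fun _ => Y g) fun A hA => by
    rw [(Finset.mem_filter.1 hA).2], Finset.sum_const, nsmul_eq_mul]
  congr 2
  rw [ltsf, Nat.card_eq_fintype_card, Fintype.card_subtype]

/-- the total number -/
theorem lts_total (m : List ℕ) [Fintype (SL n F)] :
    ∑ g : SL n F, ltsf m (Matrix.SpecialLinearGroup.toGL g) =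
      Nat.card (∀ j : Fin m.length, CA n F (m.get j)) := by
  classical
  have : Fintype (∀ j : Fin m.length, CA n F (m.get j)) := Fintype.ofFinite _
  rw [Nat.card_eq_fintype_card, ← Finset.card_univ,
    Finset.card_eq_sum_card_fiberwise (t := (Finset.univ : Finset (SL n F)))
      (f := fun A : ∀ j : Fin m.length, CA n F (m.get j) => (List.ofFn fun j => (A j).1).prod)
      (fun _ _ => Finset.mem_coe.2 (Finset.mem_univ _))]
  refine Finset.sum_congr rfl fun g _ => ?_
  rw [ltsf, Nat.card_eq_fintype_card, Fintype.card_subtype]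
  congr 1
  ext A
  simp only [Finset.mem_filter, Finset.mem_univ, true_and]
  rw [ltsP_eq]
  exact Matrix.SpecialLinearGroup.toGL_injective.eq_iff

/-- the number in the statement -/
theorem lts_cnt (m : List ℕ) (g : SL n F) :
    Nat.card {A : Fin m.length → SL n F //
      (∀ j, A j ^ m.get j ∈ Subgroup.center (SL n F)) ∧ (List.ofFn A).prod = g} =
      ltsf m (Matrix.SpecialLinearGroup.toGL g) := by
  refine Nat.card_congr ⟨fun A => ⟨fun j => ⟨A.1 j, A.2.1 j⟩, ?_⟩,
    fun A => ⟨fun j => (A.1 j).1, fun j => (A.1 j).2, ?_⟩, fun A => rfl, fun A => rfl⟩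
  · exact (ltsP_eq m _).trans (congrArg _ A.2.2)
  · have h := A.2
    rw [ltsP_eq] at h
    exact Matrix.SpecialLinearGroup.toGL_injective h

/-- linear characters -/
theorem lts_lin (m : List ℕ) (l : Fˣ →* ℂˣ) (A : ∀ j : Fin m.length, CA n F (m.get j)) :
    FLC.ld l (ltsP m A) = 1 := by
  have h : Matrix.GeneralLinearGroup.det (ltsP m A) = 1 := by
    rw [ltsP_eq]
    apply Units.ext
    rw [Matrix.GeneralLinearGroup.val_det_apply]
    exact ((List.ofFn fun j => (A j).1).prod).2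
  rw [FLC.ld, h, map_one, Units.val_one]

/-- one term of the sum -/
theorem lts_term (hPVL : S_PVL) (m : List ℕ) (s : ℝ)
    [Fintype (∀ j : Fin m.length, CA n F (m.get j))] (e : ℕ → ℝ)
    (hSB : ∀ k ∈ m, SB k (e k) n F) (hsum : 1 + s ≤ (m.map fun k => 1 - e k).sum)
    (X : GL (Fin n) F → ℂ) (hX : IsIrr X) (hX1 : X 1 ≠ 1) :
    ‖∑ A : ∀ j : Fin m.length, CA n F (m.get j), X (ltsP m A)‖ ^ 2 ≤
      (∏ j, (Nat.card (CA n F (m.get j)) : ℝ)) ^ 2 * (X 1).re ^ (-(2 * s)) := by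
  obtain ⟨k, hk0, hk⟩ := hX.exists_degree
  have hre : (X 1).re = k := by rw [hk, Complex.natCast_re]
  have hD1 : (1 : ℝ) ≤ k := by exact_mod_cast hk0
  have hD0 : (0 : ℝ) < k := by linarith
  have h1 := (hPVL (GL (Fin n) F)).2 m.length (ltsC m) (fun j t ht g => lts_conjC m j t ht g) X hX
  rw [lts_sumT m X] at h1
  obtain ⟨U, hU⟩ : ∃ U : ℂ, U = ∑ A : ∀ j : Fin m.length, CA n F (m.get j), X (ltsP m A) :=
    ⟨_, rfl⟩
  rw [← hU] at h1 ⊢
  have h2 := congrArg norm h1
  rw [norm_mul, norm_pow, norm_mul, norm_prod, hk, Complex.norm_natCast] at h2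
  have h3 : ∏ j, ‖∑ t ∈ ltsC m j, X t‖ ≤
      ∏ j : Fin m.length, ((Nat.card (CA n F (m.get j)) : ℝ) * (k : ℝ) ^ (e (m.get j))) := by
    refine Finset.prod_le_prod (fun j _ => norm_nonneg _) fun j _ => ?_
    rw [lts_sumC]
    have h4 := hSB (m.get j) (m.get_mem j) X hX hX1
    rwa [hre] at h4
  rw [Finset.prod_mul_distrib, ← Real.rpow_sum_of_pos hD0] at h3
  obtain ⟨N, hN⟩ : ∃ N : ℝ, N = ∏ j, (Nat.card (CA n F (m.get j)) : ℝ) := ⟨_, rfl⟩
  rw [← hN] at h3 ⊢
  have hN0 : 0 ≤ N := by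
    rw [hN]
    exact Finset.prod_nonneg fun j _ => Nat.cast_nonneg _
  have h5 : ∑ j : Fin m.length, e (m.get j) ≤ m.length - (1 + s) := by
    have h6 : (m.map fun k => 1 - e k).sum = ∑ j : Fin m.length, (1 - e (m.get j)) :=
      (Fin.sum_univ_fun_getElem m (fun k : ℕ => 1 - e k)).symm
    rw [h6, Finset.sum_sub_distrib, Finset.sum_const, Finset.card_univ, Fintype.card_fin,
      nsmul_eq_mul, mul_one] at hsum
    linarith
  have h7 : ‖U‖ * (k : ℝ) ^ m.length ≤ (N * (k : ℝ) ^ (-s)) * (k : ℝ) ^ m.length := by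
    rw [h2]
    calc (k : ℝ) * ∏ j, ‖∑ t ∈ ltsC m j, X t‖
        ≤ k * (N * (k : ℝ) ^ (∑ j : Fin m.length, e (m.get j))) :=
          mul_le_mul_of_nonneg_left h3 hD0.le
      _ ≤ k * (N * (k : ℝ) ^ (m.length - (1 + s))) := by
          refine mul_le_mul_of_nonneg_left (mul_le_mul_of_nonneg_left ?_ hN0) hD0.le
          exact Real.rpow_le_rpow_of_exponent_le hD1 h5
      _ = (N * (k : ℝ) ^ (-s)) * (k : ℝ) ^ m.length := by
          rw [← Real.rpow_natCast (k : ℝ) m.length]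
          have h8 : (k : ℝ) ^ (-s) * (k : ℝ) ^ (m.length : ℝ) =
              (k : ℝ) * (k : ℝ) ^ ((m.length : ℝ) - (1 + s)) := by
            rw [← Real.rpow_add hD0, mul_comm, ← Real.rpow_add_one hD0.ne']
            congr 1
            ring
          rw [mul_assoc, h8]
          ring
  have h9 : ‖U‖ ≤ N * (k : ℝ) ^ (-s) := le_of_mul_le_mul_right h7 (pow_pos hD0 _)
  calc ‖U‖ ^ 2 ≤ (N * (k : ℝ) ^ (-s)) ^ 2 := pow_le_pow_left₀ (norm_nonneg _) h9 2
    _ = N ^ 2 * (X 1).re ^ (-(2 * s)) := by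
        rw [hre, mul_pow, ← Real.rpow_natCast ((k : ℝ) ^ (-s)) 2, ← Real.rpow_mul hD0.le]
        congr 2
        push_cast
        ring

end

theorem t_LTS : M_LTS := by
  classical
  intro hLIN hZET hPVL m s hs
  obtain ⟨c, r, hc, hr⟩ := hZET (2 * s) (by linarith)
  refine ⟨c, r + 5, hc, by omega, ?_⟩
  intro n hn F _ _ e hSB hsum
  have : Fintype F := Fintype.ofFinite F
  have : Fintype (∀ j : Fin m.length, CA n F (m.get j)) := Fintype.ofFinite _
  have : Fintype (SL n F) := Fintype.ofFinite _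
  rw [finsum_eq_sum_of_fintype]
  simp only [lts_cnt]
  obtain ⟨N, hN⟩ : ∃ N : ℝ, N = ∏ j, (Nat.card (CA n F (m.get j)) : ℝ) := ⟨_, rfl⟩
  have hNT : (Nat.card (∀ j : Fin m.length, CA n F (m.get j)) : ℝ) = N := by
    rw [Nat.card_pi, hN]
    push_cast
    rfl
  rw [← hN]
  obtain ⟨L, hL⟩ : ∃ L : ℝ, L = (Nat.card (SL n F) : ℝ) := ⟨_, rfl⟩
  have hL0 : 0 < L := by
    rw [hL]
    exact_mod_cast Nat.card_pos
  have hcL : (Fintype.card (SL n F) : ℝ) = L := by rw [hL, Nat.card_eq_fintype_card]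
  rw [← hL]
  have hq1 : 1 < Nat.card F := Finite.one_lt_card
  have hqR : (0 : ℝ) < (Nat.card F : ℝ) - 1 := by
    have : (1 : ℝ) < Nat.card F := by exact_mod_cast hq1
    linarith
  have hG : (Nat.card (GL (Fin n) F) : ℝ) = ((Nat.card F : ℝ) - 1) * L := by
    rw [FLC.fro_card n (by omega), hL]
    push_cast [Nat.cast_sub hq1.le]
    rfl
  -- Parseval
  have hP := (hPVL (GL (Fin n) F)).1 (fun g => (ltsf m g : ℂ))
    (fun g x => by rw [ltsf_class m g x])
  simp only [lts_sumf m, Complex.norm_natCast] at hP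
  obtain ⟨V, hV⟩ : ∃ V : (GL (Fin n) F → ℂ) → ℝ,
      V = fun X => ‖∑ A : ∀ j : Fin m.length, CA n F (m.get j), X (ltsP m A)‖ ^ 2 := ⟨_, rfl⟩
  have hA : ∑ X ∈ (irrF (GL (Fin n) F)).filter (fun X => X 1 = 1), V X =
      ((Nat.card F : ℝ) - 1) * N ^ 2 := by
    have h1 := hLIN n (by omega) F (fun X => ((V X : ℝ) : ℂ)) ((N ^ 2 : ℝ) : ℂ) fun l => by
      have h2 : V (FLC.ld l) = N ^ 2 := by
        rw [hV]
        simp only [lts_lin, Finset.sum_const, Finset.card_univ, nsmul_eq_mul, mul_one,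
          Complex.norm_natCast]
        rw [← hNT, Nat.card_eq_fintype_card]
      rw [h2]
    apply Complex.ofReal_injective
    push_cast
    push_cast at h1
    exact h1
  have hB : ∑ X ∈ (irrF (GL (Fin n) F)).filter (fun X => ¬ X 1 = 1), V X ≤
      N ^ 2 * (((Nat.card F : ℝ) - 1) * (Nat.card F : ℝ) ^ (-(c * n))) := by
    calc ∑ X ∈ (irrF (GL (Fin n) F)).filter (fun X => ¬ X 1 = 1), V X
        ≤ ∑ X ∈ (irrF (GL (Fin n) F)).filter (fun X => ¬ X 1 = 1),
            N ^ 2 * (X 1).re ^ (-(2 * s)) := by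
          refine Finset.sum_le_sum fun X hX => ?_
          rw [Finset.mem_filter] at hX
          rw [hV, hN]
          exact lts_term hPVL m s e hSB hsum X (mem_irrF.1 hX.1) hX.2
      _ ≤ _ := by
          rw [← Finset.mul_sum]
          exact mul_le_mul_of_nonneg_left (hr n (by omega) F) (sq_nonneg _)
  have hAB := Finset.sum_filter_add_sum_filter_not (irrF (GL (Fin n) F)) (fun X => X 1 = 1) V
  have hP' : (∑ g : GL (Fin n) F, (ltsf m g : ℝ) ^ 2) * (((Nat.card F : ℝ) - 1) * L) ≤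
      ((Nat.card F : ℝ) - 1) * N ^ 2 +
        N ^ 2 * (((Nat.card F : ℝ) - 1) * (Nat.card F : ℝ) ^ (-(c * n))) := by
    rw [← hG, hP]
    have h1 : ∑ X ∈ irrF (GL (Fin n) F),
        ‖∑ A : ∀ j : Fin m.length, CA n F (m.get j), X (ltsP m A)‖ ^ 2 =
        ∑ X ∈ irrF (GL (Fin n) F), V X := by rw [hV]
    rw [h1, ← hAB, hA]
    exact add_le_add le_rfl hB
  have hP2 : (∑ g : GL (Fin n) F, (ltsf m g : ℝ) ^ 2) * L ≤
      N ^ 2 * (1 + (Nat.card F : ℝ) ^ (-(c * n))) := by
    have h1 : ((Nat.card F : ℝ) - 1) * ((∑ g : GL (Fin n) F, (ltsf m g : ℝ) ^ 2) * L) ≤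
        ((Nat.card F : ℝ) - 1) * (N ^ 2 * (1 + (Nat.card F : ℝ) ^ (-(c * n)))) := by
      calc _ = (∑ g : GL (Fin n) F, (ltsf m g : ℝ) ^ 2) * (((Nat.card F : ℝ) - 1) * L) := by ring
        _ ≤ _ := hP'
        _ = _ := by ring
    exact le_of_mul_le_mul_left h1 hqR
  -- restriction to the special linear group
  have hS : ∑ g : SL n F, (ltsf m (Matrix.SpecialLinearGroup.toGL g) : ℝ) ^ 2 ≤
      ∑ g : GL (Fin n) F, (ltsf m g : ℝ) ^ 2 := by
    have h1 : ∑ g : SL n F, (ltsf m (Matrix.SpecialLinearGroup.toGL g) : ℝ) ^ 2 =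
        ∑ x ∈ (Finset.univ : Finset (SL n F)).map
          ⟨Matrix.SpecialLinearGroup.toGL, Matrix.SpecialLinearGroup.toGL_injective⟩,
          (ltsf m x : ℝ) ^ 2 := by
      rw [Finset.sum_map]
      rfl
    rw [h1]
    exact Finset.sum_le_univ_sum_of_nonneg fun x => sq_nonneg _
  have hT : ∑ g : SL n F, (ltsf m (Matrix.SpecialLinearGroup.toGL g) : ℝ) = N := by
    rw [← hNT, ← lts_total m]
    push_cast
    rfl
  have hexp : ∑ g : SL n F, ((ltsf m (Matrix.SpecialLinearGroup.toGL g) : ℝ) - N / L) ^ 2 =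
      ∑ g : SL n F, (ltsf m (Matrix.SpecialLinearGroup.toGL g) : ℝ) ^ 2 - N ^ 2 / L := by
    have h1 : ∀ g : SL n F, ((ltsf m (Matrix.SpecialLinearGroup.toGL g) : ℝ) - N / L) ^ 2 =
        (ltsf m (Matrix.SpecialLinearGroup.toGL g) : ℝ) ^ 2 -
          (ltsf m (Matrix.SpecialLinearGroup.toGL g) : ℝ) * (2 * (N / L)) + (N / L) ^ 2 :=
      fun g => by ring
    rw [Finset.sum_congr rfl fun g _ => h1 g, Finset.sum_add_distrib, Finset.sum_sub_distrib,
      ← Finset.sum_mul, hT, Finset.sum_const, Finset.card_univ, nsmul_eq_mul, hcL]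
    field_simp
    ring
  rw [hexp, neg_mul]
  have h3 : ∑ g : SL n F, (ltsf m (Matrix.SpecialLinearGroup.toGL g) : ℝ) ^ 2 ≤
      N ^ 2 * (1 + (Nat.card F : ℝ) ^ (-(c * n))) / L := by
    rw [le_div_iff₀ hL0]
    exact (mul_le_mul_of_nonneg_right hS hL0.le).trans hP2
  calc _ ≤ N ^ 2 * (1 + (Nat.card F : ℝ) ^ (-(c * n))) / L - N ^ 2 / L := by linarith
    _ = _ := by ring

end

end SRJ
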