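import Mathlib
import Pool.Agent.SRJ.StA
import Pool.Agent.FLN.FSI

/-!
# PVL: Parseval for class functions, and sums of an irreducible character over products of
conjugation invariant sets
-/

set_option autoImplicit false

namespace SRJ

open Pool.Agent.Lib_helper13 Representation

noncomputable section

/-- Parseval with the values at the inverse elements. -/
theorem pvl_par {G : Type} [Group G] [Fintype G] (f : G → ℂ)
    (hf : ∀ g x, f (g * x * g⁻¹) = f x) :
    (∑ g, ‖f g‖ ^ 2) * Nat.card G = ∑ X ∈ irrF G, ‖∑ g, f g * X g⁻¹‖ ^ 2 := by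
  have h0 : (Nat.card G : ℂ) ≠ 0 := natCard_ne_zero
  have h0r : (Nat.card G : ℝ) ≠ 0 := by exact_mod_cast h0
  have h1 := ip_expand f (fun x => starRingEnd ℂ (f x⁻¹)) hf
  have h2 : ip f (fun x => starRingEnd ℂ (f x⁻¹)) =
      (((∑ g, ‖f g‖ ^ 2) / (Nat.card G : ℝ) : ℝ) : ℂ) := by
    rw [ip]
    push_cast
    congr 1
    refine Finset.sum_congr rfl fun g _ => ?_
    rw [inv_inv, Complex.mul_conj, Complex.normSq_eq_norm_sq]
    push_cast
    rfl
  have h3 : ∀ X ∈ irrF G, ip f X * ip X (fun x => starRingEnd ℂ (f x⁻¹)) =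
      ((‖∑ g, f g * X g⁻¹‖ ^ 2 / (Nat.card G : ℝ) ^ 2 : ℝ) : ℂ) := by
    intro X hX
    have hX' := (mem_irrF.1 hX).isChr
    have h4 : ip X (fun x => starRingEnd ℂ (f x⁻¹)) = starRingEnd ℂ (ip f X) := by
      rw [ip, ip, map_div₀, map_sum, Complex.conj_natCast]
      congr 1
      refine Finset.sum_congr rfl fun g _ => ?_
      rw [inv_inv, map_mul, FLN.fsi_inv hX', Complex.conj_conj, mul_comm]
    rw [h4, Complex.mul_conj, Complex.normSq_eq_norm_sq, ip, norm_div, Complex.norm_natCast,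
      div_pow]
  rw [h2, Finset.sum_congr rfl h3, ← Complex.ofReal_sum] at h1
  have h5 := Complex.ofReal_injective h1
  rw [← Finset.sum_div] at h5
  field_simp at h5
  linarith

theorem pvl_parseval {G : Type} [Group G] [Fintype G] (f : G → ℂ)
    (hf : ∀ g x, f (g * x * g⁻¹) = f x) :
    (∑ g, ‖f g‖ ^ 2) * Nat.card G = ∑ X ∈ irrF G, ‖∑ g, f g * X g‖ ^ 2 := by
  have h := pvl_par (fun x => starRingEnd ℂ (f x)) (fun g x => by rw [hf])
  have h1 : ∑ g, ‖starRingEnd ℂ (f g)‖ ^ 2 = ∑ g, ‖f g‖ ^ 2 :=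
    Finset.sum_congr rfl fun g _ => by rw [RCLike.norm_conj]
  rw [h1] at h
  rw [h]
  refine Finset.sum_congr rfl fun X hX => ?_
  have hX' := (mem_irrF.1 hX).isChr
  have h2 : ∑ g, starRingEnd ℂ (f g) * X g⁻¹ = starRingEnd ℂ (∑ g, f g * X g) := by
    rw [map_sum]
    refine Finset.sum_congr rfl fun g _ => ?_
    rw [map_mul, FLN.fsi_inv hX']
  rw [h2, RCLike.norm_conj]

open Classical in
/-- The sum of an irreducible character over a translate of a conjugation invariant set. -/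
theorem pvl_scalar {G : Type} [Group G] [Fintype G] {X : G → ℂ} (hX : IsIrr X) (C : Finset G)
    (hC : ∀ t ∈ C, ∀ g, g * t * g⁻¹ ∈ C) (g : G) :
    (∑ x ∈ C, X (x * g)) * X 1 = (∑ x ∈ C, X x) * X g := by
  obtain ⟨n, ρ, hρ, rfl⟩ := hX
  have hC' : ∀ g x : G, g * x * g⁻¹ ∈ C ↔ x ∈ C := by
    intro g x
    refine ⟨fun h => ?_, fun h => hC x h g⟩
    have h1 := hC _ h g⁻¹
    have h2 : g⁻¹ * (g * x * g⁻¹) * g⁻¹⁻¹ = x := by group
    rwa [h2] at h1
  have hinv : ∀ a b : G, (if (a * b * a⁻¹)⁻¹ ∈ C then (1 : ℂ) else 0) =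
      if b⁻¹ ∈ C then (1 : ℂ) else 0 := by
    intro a b
    have h1 : (a * b * a⁻¹)⁻¹ = a * b⁻¹ * a⁻¹ := by group
    rw [h1]
    by_cases h : b⁻¹ ∈ C
    · rw [if_pos h, if_pos ((hC' a b⁻¹).2 h)]
    · rw [if_neg h, if_neg fun h' => h ((hC' a b⁻¹).1 h')]
  obtain ⟨c, hc⟩ := exists_scalar ρ hρ
    (opSum (fun x => if x⁻¹ ∈ C then (1 : ℂ) else 0) ρ)
    (fun g x => opSum_comm _ (fun a b => hinv a b) ρ g x)
  have key : ∀ g, ∑ x ∈ C, ρ.character (x * g) = c * ρ.character g := by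
    intro g
    have h1 := congrArg (fun T => LinearMap.trace ℂ (Fin n → ℂ) (T ∘ₗ ρ g)) hc
    have h2 : (c • (LinearMap.id : (Fin n → ℂ) →ₗ[ℂ] (Fin n → ℂ))) ∘ₗ ρ g = c • ρ g := by
      rw [LinearMap.smul_comp, LinearMap.id_comp]
    rw [h2, map_smul] at h1
    have h3 : LinearMap.trace ℂ (Fin n → ℂ) (ρ g) = ρ.character g := rfl
    rw [h3, smul_eq_mul] at h1
    rw [← h1]
    have h4 : (opSum (fun x => if x⁻¹ ∈ C then (1 : ℂ) else 0) ρ) ∘ₗ ρ g =
        ∑ x, (if x⁻¹ ∈ C then (1 : ℂ) else 0) • (ρ (x⁻¹ * g)) := by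
      apply LinearMap.ext
      intro v
      rw [LinearMap.comp_apply, opSum_apply, LinearMap.sum_apply]
      refine Finset.sum_congr rfl fun x _ => ?_
      rw [LinearMap.smul_apply, map_mul, Module.End.mul_apply]
    rw [h4, map_sum]
    have h5 : ∑ x ∈ C, ρ.character (x * g) =
        ∑ x, (if x ∈ C then (1 : ℂ) else 0) * ρ.character (x * g) := by
      simp only [ite_mul, one_mul, zero_mul]
      rw [← Finset.sum_filter]
      congr 1
      ext x
      simp
    rw [h5]
    refine Fintype.sum_equiv (Equiv.inv G) _ _ fun x => ?_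
    simp only [Equiv.inv_apply, inv_inv, map_smul, smul_eq_mul]
    rfl
  have h1 := key 1
  simp only [mul_one] at h1
  rw [key g, h1]
  ring

theorem pvl_prod {G : Type} [Group G] [Fintype G] {X : G → ℂ} (hX : IsIrr X) :
    ∀ (d : ℕ) (C : Fin d → Finset G), (∀ j, ∀ t ∈ C j, ∀ g, g * t * g⁻¹ ∈ C j) → ∀ g : G,
      (∑ t ∈ Fintype.piFinset C, X ((List.ofFn t).prod * g)) * X 1 ^ d =
        (∏ j, ∑ t ∈ C j, X t) * X g := by
  classical
  intro d
  induction d with
  | zero =>
    intro C _ g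
    simp
  | succ d ih =>
    intro C hC g
    have h1 : ∑ t ∈ Fintype.piFinset C, X ((List.ofFn t).prod * g) =
        ∑ p ∈ (C 0) ×ˢ (Fintype.piFinset fun j : Fin d => C j.succ),
          X (p.1 * ((List.ofFn p.2).prod * g)) := by
      refine Finset.sum_nbij' (fun t => (t 0, fun j => t j.succ)) (fun p => Fin.cons p.1 p.2)
        ?_ ?_ ?_ ?_ ?_
      · intro t ht
        rw [Fintype.mem_piFinset] at ht
        rw [Finset.mem_product, Fintype.mem_piFinset]
        exact ⟨ht 0, fun j => ht j.succ⟩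
      · intro p hp
        rw [Finset.mem_product, Fintype.mem_piFinset] at hp
        rw [Fintype.mem_piFinset, Fin.forall_fin_succ]
        simp only [Fin.cons_zero, Fin.cons_succ]
        exact hp
      · intro t _
        exact Fin.cons_self_tail t
      · intro p _
        simp only [Fin.cons_zero, Fin.cons_succ]
      · intro t _
        simp only [List.ofFn_succ, List.prod_cons, mul_assoc]
    rw [h1, Finset.sum_product_right, pow_succ, mul_comm (X 1 ^ d), ← mul_assoc, Finset.sum_mul,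
      Finset.sum_congr rfl fun t _ => pvl_scalar hX (C 0) (hC 0) ((List.ofFn t).prod * g),
      ← Finset.mul_sum, mul_assoc, ih (fun j => C j.succ) (fun j => hC j.succ) g,
      Fin.prod_univ_succ, mul_assoc]

theorem t_PVL : S_PVL := by
  intro G _ _
  refine ⟨fun f hf => pvl_parseval f hf, fun d C hC X hX => ?_⟩
  have h := pvl_prod hX d C hC 1
  simp only [mul_one] at h
  rw [h, mul_comm]

end

end SRJ
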