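import Mathlib
import Pool.Agent.SRJ.StA
import Pool.Agent.RSF.KA

/-!
# Module AUL: many units in the commutant

For a finite module `V` over `F[X]` that is killed by the monic polynomial `g` the number of the
endomorphisms is at most `4 ^ deg g` times the number of the automorphisms. Induction on `deg g`: for an
irreducible factor `p` of multiplicity `e` of `g` the module is the product of a power of
`F[X] / (p ^ e)` and of a module that is killed by `g / p`.
-/

set_option autoImplicit false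

namespace SRJ

open Polynomial

noncomputable section

/-! ### two blocks -/

theorem aul_fin (R V W : Type) [CommRing R] [AddCommGroup V] [Module R V] [AddCommGroup W]
    [Module R W] [Finite V] [Finite W] : Finite (V →ₗ[R] W) :=
  Finite.of_injective (fun f : V →ₗ[R] W => (f : V → W)) DFunLike.coe_injective

theorem aul_fin' (R V : Type) [CommRing R] [AddCommGroup V] [Module R V] [Finite V] :
    Finite (V ≃ₗ[R] V) :=
  Finite.of_injective (fun f : V ≃ₗ[R] V => (f : V → V)) DFunLike.coe_injective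

theorem aul_end_prod (R V W : Type) [CommRing R] [AddCommGroup V] [Module R V] [AddCommGroup W]
    [Module R W] :
    Nat.card ((V × W) →ₗ[R] (V × W)) =
      (Nat.card (V →ₗ[R] V) * Nat.card (V →ₗ[R] W)) *
        (Nat.card (W →ₗ[R] V) * Nat.card (W →ₗ[R] W)) := by
  have e1 : ((V →ₗ[R] (V × W)) × (W →ₗ[R] (V × W))) ≃ ((V × W) →ₗ[R] (V × W)) :=
    (LinearMap.coprodEquiv R (M := V) (M₂ := W) (M₃ := V × W)).toEquiv
  have e2 : ((V →ₗ[R] V) × (V →ₗ[R] W)) ≃ (V →ₗ[R] (V × W)) :=
    (LinearMap.prodEquiv R (M := V) (M₂ := V) (M₃ := W)).toEquiv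
  have e3 : ((W →ₗ[R] V) × (W →ₗ[R] W)) ≃ (W →ₗ[R] (V × W)) :=
    (LinearMap.prodEquiv R (M := W) (M₂ := V) (M₃ := W)).toEquiv
  rw [← Nat.card_congr e1, Nat.card_prod, ← Nat.card_congr e2, ← Nat.card_congr e3, Nat.card_prod,
    Nat.card_prod]

/-- the map `(a, b, x, y) ↦ L D U` -/
def aul_ldu (R V W : Type) [CommRing R] [AddCommGroup V] [Module R V] [AddCommGroup W] [Module R W]
    (t : ((V ≃ₗ[R] V) × (W ≃ₗ[R] W)) × ((V →ₗ[R] W) × (W →ₗ[R] V))) : (V × W) ≃ₗ[R] (V × W) :=
  (((LinearEquiv.prodComm R V W).trans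
    ((LinearEquiv.refl R W).skewProd (LinearEquiv.refl R V) t.2.2)).trans
      (LinearEquiv.prodComm R W V)).trans (t.1.1.skewProd t.1.2 (t.2.1.comp t.1.1.toLinearMap))

theorem aul_ldu_apply {R V W : Type} [CommRing R] [AddCommGroup V] [Module R V] [AddCommGroup W]
    [Module R W] (t : ((V ≃ₗ[R] V) × (W ≃ₗ[R] W)) × ((V →ₗ[R] W) × (W →ₗ[R] V))) (v : V) (w : W) :
    aul_ldu R V W t (v, w) =
      (t.1.1 (v + t.2.2 w), t.1.2 w + t.2.1 (t.1.1 (v + t.2.2 w))) := by
  simp [aul_ldu]

theorem aul_ldu_inj (R V W : Type) [CommRing R] [AddCommGroup V] [Module R V] [AddCommGroup W]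
    [Module R W] : Function.Injective (aul_ldu R V W) := by
  rintro ⟨⟨a, b⟩, x, y⟩ ⟨⟨a', b'⟩, x', y'⟩ h
  have h0 : ∀ (v : V) (w : W), (a (v + y w), b w + x (a (v + y w))) =
      (a' (v + y' w), b' w + x' (a' (v + y' w))) := by
    intro v w
    have h1 := DFunLike.congr_fun h (v, w)
    rw [aul_ldu_apply, aul_ldu_apply] at h1
    exact h1
  have ha : a = a' := by
    ext v
    have h1 := congrArg Prod.fst (h0 v 0)
    simpa using h1
  subst ha
  have hy : y = y' := by
    ext w
    have h1 := congrArg Prod.fst (h0 0 w)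
    simpa using h1
  subst hy
  have hx : x = x' := by
    ext v
    have h1 := congrArg Prod.snd (h0 (a.symm v) 0)
    simpa using h1
  subst hx
  have hb : b = b' := by
    ext w
    have h1 := congrArg Prod.snd (h0 0 w)
    simpa using h1
  subst hb
  rfl

theorem aul_prod (R V W : Type) [CommRing R] [AddCommGroup V] [Module R V] [AddCommGroup W]
    [Module R W] [Finite V] [Finite W] (c d : ℕ)
    (hV : Nat.card (V →ₗ[R] V) ≤ 4 ^ c * Nat.card (V ≃ₗ[R] V))
    (hW : Nat.card (W →ₗ[R] W) ≤ 4 ^ d * Nat.card (W ≃ₗ[R] W)) :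
    Nat.card ((V × W) →ₗ[R] (V × W)) ≤ 4 ^ (c + d) * Nat.card ((V × W) ≃ₗ[R] (V × W)) := by
  have := aul_fin' R (V × W)
  have h1 := Nat.card_le_card_of_injective _ (aul_ldu_inj R V W)
  rw [Nat.card_prod, Nat.card_prod, Nat.card_prod] at h1
  rw [aul_end_prod]
  calc (Nat.card (V →ₗ[R] V) * Nat.card (V →ₗ[R] W)) *
        (Nat.card (W →ₗ[R] V) * Nat.card (W →ₗ[R] W)) =
      (Nat.card (V →ₗ[R] V) * Nat.card (W →ₗ[R] W)) *
        (Nat.card (V →ₗ[R] W) * Nat.card (W →ₗ[R] V)) := by ring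
    _ ≤ ((4 ^ c * Nat.card (V ≃ₗ[R] V)) * (4 ^ d * Nat.card (W ≃ₗ[R] W))) *
        (Nat.card (V →ₗ[R] W) * Nat.card (W →ₗ[R] V)) :=
      Nat.mul_le_mul_right _ (Nat.mul_le_mul hV hW)
    _ = 4 ^ (c + d) * ((Nat.card (V ≃ₗ[R] V) * Nat.card (W ≃ₗ[R] W)) *
        (Nat.card (V →ₗ[R] W) * Nat.card (W →ₗ[R] V))) := by rw [pow_add]; ring
    _ ≤ _ := Nat.mul_le_mul_left _ h1

/-- transport along an isomorphism -/
theorem aul_congr {R V W : Type} [CommRing R] [AddCommGroup V] [Module R V] [AddCommGroup W]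
    [Module R W] (E : V ≃ₗ[R] W) (c : ℕ)
    (hW : Nat.card (W →ₗ[R] W) ≤ 4 ^ c * Nat.card (W ≃ₗ[R] W)) :
    Nat.card (V →ₗ[R] V) ≤ 4 ^ c * Nat.card (V ≃ₗ[R] V) := by
  have e1 : Nat.card (V →ₗ[R] V) = Nat.card (W →ₗ[R] W) :=
    Nat.card_congr (LinearEquiv.arrowCongr E E).toEquiv
  have e2 : Nat.card (V ≃ₗ[R] V) = Nat.card (W ≃ₗ[R] W) :=
    Nat.card_congr
      { toFun := fun f => (E.symm.trans f).trans E
        invFun := fun f => (E.trans f).trans E.symm
        left_inv := fun f => by ext x; simp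
        right_inv := fun f => by ext x; simp }
  rw [e1, e2]
  exact hW

/-! ### one block -/

theorem aul_card_units (E : Type) [Ring E] : Nat.card Eˣ = Nat.card {x : E // IsUnit x} :=
  Nat.card_congr (Equiv.ofBijective (fun u : Eˣ => (⟨u, u.isUnit⟩ : {x : E // IsUnit x}))
    ⟨fun _ _ h => Units.ext (congrArg Subtype.val h), fun x => ⟨x.2.unit, Subtype.ext rfl⟩⟩)

theorem aul_units {E K : Type} [Ring E] [Ring K] (f : E →+* K) (hf : Function.Surjective f)
    (hu : ∀ x, IsUnit (f x) → IsUnit x) :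
    Nat.card E = Nat.card K * Nat.card (RingHom.ker f) ∧
      Nat.card Eˣ = Nat.card Kˣ * Nat.card (RingHom.ker f) := by
  have hs : ∀ y, f (Function.surjInv hf y) = y := Function.surjInv_eq hf
  constructor
  · rw [← Nat.card_prod]
    exact Nat.card_congr
      { toFun := fun x => (f x, ⟨x - Function.surjInv hf (f x), by
          rw [RingHom.mem_ker, map_sub, hs, sub_self]⟩)
        invFun := fun y => Function.surjInv hf y.1 + y.2
        left_inv := fun x => by simp
        right_inv := fun y => by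
          obtain ⟨y, k, hk⟩ := y
          have hk' : f k = 0 := hk
          have h1 : f (Function.surjInv hf y + k) = y := by rw [map_add, hs, hk', add_zero]
          refine Prod.ext h1 (Subtype.ext ?_)
          show Function.surjInv hf y + k - Function.surjInv hf (f (Function.surjInv hf y + k)) = k
          rw [h1]
          abel }
  · rw [aul_card_units, aul_card_units, ← Nat.card_prod]
    exact Nat.card_congr
      { toFun := fun x => (⟨f x.1, x.2.map f⟩, ⟨x.1 - Function.surjInv hf (f x.1), by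
          rw [RingHom.mem_ker, map_sub, hs, sub_self]⟩)
        invFun := fun y => ⟨Function.surjInv hf y.1.1 + y.2, hu _ (by
          have hk' : f (y.2 : E) = 0 := y.2.2
          rw [map_add, hs, hk', add_zero]
          exact y.1.2)⟩
        left_inv := fun x => Subtype.ext (by simp)
        right_inv := fun y => by
          obtain ⟨⟨y, hy⟩, k, hk⟩ := y
          have hk' : f k = 0 := hk
          have h1 : f (Function.surjInv hf y + k) = y := by rw [map_add, hs, hk', add_zero]
          refine Prod.ext (Subtype.ext h1) (Subtype.ext ?_)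
          show Function.surjInv hf y + k - Function.surjInv hf (f (Function.surjInv hf y + k)) = k
          rw [h1]
          abel }

/-- the order of `GL_n` of a field -/
theorem aul_GL (hPI : RSF.S_PI) (n : ℕ) (K : Type) [Field K] [Finite K] :
    Nat.card (Matrix (Fin n) (Fin n) K) ≤ 4 * Nat.card (Matrix (Fin n) (Fin n) K)ˣ := by
  have : Fintype K := Fintype.ofFinite K
  have hq : (2 : ℝ) ≤ (Nat.card K : ℝ) := by
    exact_mod_cast Finite.one_lt_card (α := K)
  have h0 : (0 : ℝ) < (Nat.card K : ℝ) := by linarith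
  have h1 : (Nat.card (GL (Fin n) K) : ℝ) =
      ∏ i ∈ Finset.range n, ((Nat.card K : ℝ) ^ n - (Nat.card K : ℝ) ^ i) := by
    rw [Matrix.card_GL_field, Nat.card_eq_fintype_card, Nat.cast_prod,
      Finset.prod_range fun i => ((Fintype.card K : ℝ) ^ n - (Fintype.card K : ℝ) ^ i)]
    refine Finset.prod_congr rfl fun i _ => ?_
    rw [Nat.cast_sub]
    · push_cast
      rfl
    · exact Nat.pow_le_pow_right Fintype.card_pos i.2.le
  rw [← Finset.prod_range_reflect] at h1
  have h2 : ∏ j ∈ Finset.range n, ((Nat.card K : ℝ) ^ n - (Nat.card K : ℝ) ^ (n - 1 - j)) =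
      (Nat.card K : ℝ) ^ (n ^ 2) * ∏ j ∈ Finset.range n, (1 - ((Nat.card K : ℝ)⁻¹) ^ (j + 1)) := by
    have h3 : (Nat.card K : ℝ) ^ (n ^ 2) = ∏ _j ∈ Finset.range n, (Nat.card K : ℝ) ^ n := by
      rw [Finset.prod_const, Finset.card_range, ← pow_mul, sq]
    rw [h3, ← Finset.prod_mul_distrib]
    refine Finset.prod_congr rfl fun j hj => ?_
    have hj' : j < n := Finset.mem_range.mp hj
    have h4 : (Nat.card K : ℝ) ^ n = (Nat.card K : ℝ) ^ (n - 1 - j) * (Nat.card K : ℝ) ^ (j + 1) := by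
      rw [← pow_add]
      congr 1
      omega
    rw [mul_sub, mul_one, inv_pow]
    congr 1
    rw [h4, mul_assoc, mul_inv_cancel₀ (pow_ne_zero _ h0.ne'), mul_one]
  have h5 := hPI (Nat.card K : ℝ) hq n
  have h6 : (0 : ℝ) ≤ (Nat.card K : ℝ) ^ (n ^ 2) := by positivity
  have h7 : (Nat.card (Matrix (Fin n) (Fin n) K) : ℝ) = (Nat.card K : ℝ) ^ (n ^ 2) := by
    have h8 : Nat.card (Matrix (Fin n) (Fin n) K) = Nat.card K ^ (n ^ 2) := by
      have h9 : Nat.card (Matrix (Fin n) (Fin n) K) = Nat.card (Fin n → Fin n → K) := rfl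
      rw [h9, Nat.card_fun, Nat.card_fun, Nat.card_fin, ← pow_mul, sq]
    rw [h8]
    push_cast
    rfl
  have h10 : (Nat.card (Matrix (Fin n) (Fin n) K) : ℝ) ≤
      4 * (Nat.card (GL (Fin n) K) : ℝ) := by
    rw [h1, h2, h7]
    nlinarith [mul_le_mul_of_nonneg_left h5 h6]
  exact_mod_cast h10

/-- matrices over a ring with a local homomorphism onto a field -/
theorem aul_local (hPI : RSF.S_PI) (n : ℕ) (S K : Type) [CommRing S] [Field K] [Finite K]
    (f : S →+* K) (hf : Function.Surjective f) (hu : ∀ x, IsUnit (f x) → IsUnit x) :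
    Nat.card (Matrix (Fin n) (Fin n) S) ≤ 4 * Nat.card (Matrix (Fin n) (Fin n) S)ˣ := by
  have h1 := aul_units (f.mapMatrix (m := Fin n)) (fun M => by
    refine ⟨Matrix.of fun i j => Function.surjInv hf (M i j), ?_⟩
    ext i j
    exact Function.surjInv_eq hf (M i j)) (fun M hM => by
    rw [Matrix.isUnit_iff_isUnit_det] at hM ⊢
    apply hu
    rw [RingHom.map_det]
    exact hM)
  rw [h1.1, h1.2, ← mul_assoc]
  exact Nat.mul_le_mul_right _ (aul_GL hPI n K)

/-- linear maps over `R` of a free module over the quotient `S` are matrices -/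
def aul_mat (R S : Type) [CommRing R] [CommRing S] [Algebra R S]
    (hs : Function.Surjective (algebraMap R S)) (a : ℕ) :
    Module.End R (Fin a → S) ≃* Matrix (Fin a) (Fin a) S where
  toFun f := LinearMap.toMatrix' (LinearMap.extendScalarsOfSurjective hs f)
  invFun M := (Matrix.toLin' M).restrictScalars R
  left_inv f := by
    refine LinearMap.ext fun x => ?_
    show Matrix.toLin' (LinearMap.toMatrix' (LinearMap.extendScalarsOfSurjective hs f)) x = f x
    rw [Matrix.toLin'_toMatrix']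
    rfl
  right_inv M := by
    have h1 : LinearMap.extendScalarsOfSurjective hs ((Matrix.toLin' M).restrictScalars R) =
        Matrix.toLin' M := LinearMap.ext fun x => rfl
    show LinearMap.toMatrix' (LinearMap.extendScalarsOfSurjective hs
      ((Matrix.toLin' M).restrictScalars R)) = M
    rw [h1, LinearMap.toMatrix'_toLin']
  map_mul' f g := by
    rw [← LinearMap.toMatrix'_comp]
    rfl

theorem aul_block (R S : Type) [CommRing R] [CommRing S] [Algebra R S]
    (hs : Function.Surjective (algebraMap R S)) (a : ℕ)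
    (hM : Nat.card (Matrix (Fin a) (Fin a) S) ≤ 4 * Nat.card (Matrix (Fin a) (Fin a) S)ˣ) :
    Nat.card ((Fin a → S) →ₗ[R] (Fin a → S)) ≤
      4 ^ 1 * Nat.card ((Fin a → S) ≃ₗ[R] (Fin a → S)) := by
  have e1 : Nat.card (Module.End R (Fin a → S)) = Nat.card (Matrix (Fin a) (Fin a) S) :=
    Nat.card_congr (aul_mat R S hs a).toEquiv
  have e2 : Nat.card (Module.End R (Fin a → S))ˣ = Nat.card (Matrix (Fin a) (Fin a) S)ˣ :=
    Nat.card_congr (Units.mapEquiv (aul_mat R S hs a)).toEquiv
  have e3 : Nat.card (Module.End R (Fin a → S))ˣ = Nat.card ((Fin a → S) ≃ₗ[R] (Fin a → S)) :=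
    Nat.card_congr (LinearMap.GeneralLinearGroup.generalLinearEquiv R (Fin a → S)).toEquiv
  rw [pow_one, ← e3, e2]
  exact e1.le.trans hM

/-- the quotient by a power of an irreducible polynomial -/
theorem aul_quot {F : Type} [Field F] [Finite F] (p : F[X]) (hp : Irreducible p) (e : ℕ)
    (he : 1 ≤ e) :
    ∃ (K : Type) (_ : Field K) (_ : Finite K) (f : (F[X] ⧸ Ideal.span {p ^ e}) →+* K),
      Function.Surjective f ∧ ∀ x, IsUnit (f x) → IsUnit x := by
  have hf : Fact (Irreducible p) := ⟨hp⟩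
  have hfin : Module.Finite F (AdjoinRoot p) := (AdjoinRoot.powerBasis hp.ne_zero).finite
  have hfin' : Finite (AdjoinRoot p) := Module.finite_of_finite F
  refine ⟨AdjoinRoot p, inferInstance, hfin', Ideal.Quotient.lift _ (AdjoinRoot.mk p) ?_, ?_, ?_⟩
  · intro a ha
    rw [AdjoinRoot.mk_eq_zero]
    exact (dvd_pow_self p (by omega)).trans (Ideal.mem_span_singleton.1 ha)
  · exact Ideal.Quotient.lift_surjective_of_surjective _ _ AdjoinRoot.mk_surjective
  · intro x hx
    obtain ⟨y, rfl⟩ := Ideal.Quotient.mk_surjective x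
    rw [Ideal.Quotient.lift_mk] at hx
    have h1 : ¬ p ∣ y := by
      intro h2
      rw [AdjoinRoot.mk_eq_zero.2 h2] at hx
      exact not_isUnit_zero hx
    have h2 : IsCoprime (p ^ e) y := ((hp.coprime_iff_not_dvd).2 h1).pow_left
    obtain ⟨a, b, hab⟩ := h2
    refine IsUnit.of_mul_eq_one (Ideal.Quotient.mk _ b) ?_
    rw [← map_mul, ← map_one (Ideal.Quotient.mk (Ideal.span {p ^ e})), Ideal.Quotient.eq,
      Ideal.mem_span_singleton]
    exact ⟨-a, by rw [← hab]; ring⟩

/-- a power of `F[X] / (p ^ e)` -/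
theorem aul_cyc (hPI : RSF.S_PI) {F : Type} [Field F] [Finite F] (p : F[X]) (hp : Irreducible p)
    (e : ℕ) (he : 1 ≤ e) (a : ℕ) :
    Nat.card ((Fin a → RSF.KA.Q (p, e)) →ₗ[F[X]] (Fin a → RSF.KA.Q (p, e))) ≤
      4 ^ 1 * Nat.card ((Fin a → RSF.KA.Q (p, e)) ≃ₗ[F[X]] (Fin a → RSF.KA.Q (p, e))) := by
  obtain ⟨K, _, _, f, hf, hu⟩ := aul_quot p hp e he
  exact aul_block F[X] (F[X] ⧸ Ideal.span {p ^ e}) Ideal.Quotient.mk_surjective a
    (aul_local hPI a _ K f hf hu)

/-! ### the induction -/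

/-- the splitting of a product along a condition on the index -/
theorem aul_split (R ι : Type) [CommRing R] [Fintype ι] (P : ι → Prop) [DecidablePred P] (M : ι → Type)
    [∀ i, AddCommGroup (M i)] [∀ i, Module R (M i)] :
    Nonempty ((∀ i, M i) ≃ₗ[R] ((∀ i : {i // P i}, M i) × (∀ i : {i // ¬ P i}, M i))) := by
  let L : (∀ i, M i) →ₗ[R] ((∀ i : {i // P i}, M i) × (∀ i : {i // ¬ P i}, M i)) :=
    (LinearMap.pi fun i => LinearMap.proj i.1).prod (LinearMap.pi fun i => LinearMap.proj i.1)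
  exact ⟨LinearEquiv.ofBijective L (Equiv.piEquivPiSubtypeProd P M).bijective⟩

theorem aul_main (hPI : RSF.S_PI) {F : Type} [Field F] [Finite F] : ∀ (d : ℕ) (g : F[X]), g.Monic →
    g.natDegree ≤ d → ∀ (V : Type) [AddCommGroup V] [Module F[X] V] [Finite V],
      (∀ v : V, g • v = 0) → Nat.card (V →ₗ[F[X]] V) ≤ 4 ^ d * Nat.card (V ≃ₗ[F[X]] V) := by
  classical
  intro d
  induction d with
  | zero =>
    intro g hg hd V _ _ _ hV
    have h1 : g = 1 := (Polynomial.Monic.natDegree_eq_zero hg).1 (by omega)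
    have h2 : Subsingleton V := ⟨fun x y => by
      have hx := hV x
      have hy := hV y
      rw [h1, one_smul] at hx hy
      rw [hx, hy]⟩
    have := aul_fin' F[X] V
    have h3 : 0 < Nat.card (V ≃ₗ[F[X]] V) := Nat.card_pos
    have h4 : Nat.card (V →ₗ[F[X]] V) ≤ 1 := by
      have h5 : Subsingleton (V →ₗ[F[X]] V) := inferInstance
      exact Finite.card_le_one_iff_subsingleton.2 h5
    omega
  | succ d ih =>
    intro g hg hd V _ _ _ hV
    by_cases hd' : g.natDegree ≤ d
    · refine (ih g hg hd' V hV).trans (Nat.mul_le_mul_right _ ?_)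
      exact Nat.pow_le_pow_right (by norm_num) (by omega)
    have hgd : g.natDegree = d + 1 := by omega
    have hgu : ¬ IsUnit g := by
      intro hu
      have := Polynomial.natDegree_eq_zero_of_isUnit hu
      omega
    obtain ⟨p, hpm, hpi, h, rfl⟩ := Polynomial.exists_monic_irreducible_factor g hgu
    have hhm : h.Monic := Polynomial.Monic.of_mul_monic_left hpm hg
    have hpd : 1 ≤ p.natDegree := hpi.natDegree_pos
    have hhd : h.natDegree ≤ d := by
      rw [Polynomial.Monic.natDegree_mul hpm hhm] at hgd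
      omega
    obtain ⟨k, h', hph', hk⟩ := WfDvdMonoid.max_power_factor hhm.ne_zero hpi
    have hfV : Module.Finite F[X] V := Module.Finite.of_finite
    have htor : Module.IsTorsion F[X] V := fun {x} =>
      ⟨⟨p * h, mem_nonZeroDivisors_of_ne_zero hg.ne_zero⟩, hV x⟩
    obtain ⟨s, hs, ι, _, f, rfl, ⟨E⟩⟩ := RSF.KA.exists_dec V htor
    have hs' : ∀ i, (f i).1.Monic ∧ Irreducible (f i).1 ∧ 1 ≤ (f i).2 := fun i =>
      hs (f i) (Multiset.mem_map_of_mem f (Finset.mem_univ i))
    have hw : ∀ w : (∀ i, RSF.KA.Q (f i)), (p * h) • w = 0 := by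
      intro w
      rw [← E.apply_symm_apply w, ← map_smul, hV, map_zero]
    have hdvd : ∀ i, (f i).1 ^ (f i).2 ∣ p * h := by
      intro i
      have h1 := congrFun (hw fun j => Submodule.Quotient.mk (1 : F[X])) i
      have h2 : (Submodule.Quotient.mk ((p * h) • (1 : F[X])) : RSF.KA.Q (f i)) = 0 := h1
      rw [Submodule.Quotient.mk_eq_zero, smul_eq_mul, mul_one] at h2
      exact Ideal.mem_span_singleton.1 h2
    have hdvd' : ∀ i, f i ≠ (p, k + 1) → (f i).1 ^ (f i).2 ∣ h := by
      intro i hi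
      obtain ⟨m1, m2, m3⟩ := hs' i
      by_cases hp1 : (f i).1 = p
      · have hne : (f i).2 ≠ k + 1 := fun h3 => hi (Prod.ext hp1 h3)
        have h3 := hdvd i
        rw [hp1] at h3 ⊢
        have h4 : (f i).2 ≤ k + 1 := by
          by_contra h5
          have h6 : p ^ (k + 2) ∣ p * h := (pow_dvd_pow p (by omega)).trans h3
          rw [hk, ← mul_assoc, ← pow_succ', pow_succ p (k + 1)] at h6
          exact hph' ((mul_dvd_mul_iff_left (pow_ne_zero _ hpm.ne_zero)).1 h6)
        rw [hk]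
        exact Dvd.dvd.mul_right (pow_dvd_pow p (by omega)) h'
      · have h3 : ¬ (f i).1 ∣ p := by
          intro h4
          exact hp1 (Polynomial.eq_of_monic_of_associated m1 hpm
            (m2.associated_of_dvd hpi h4))
        have h4 : IsCoprime ((f i).1 ^ (f i).2) p := ((m2.coprime_iff_not_dvd).2 h3).pow_left
        exact h4.dvd_of_dvd_mul_left (hdvd i)
    obtain ⟨E2⟩ := aul_split F[X] ι (fun i => f i = (p, k + 1)) (fun i => RSF.KA.Q (f i))
    have E3 : (∀ i : {i // f i = (p, k + 1)}, RSF.KA.Q (f i)) ≃ₗ[F[X]]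
        ({i // f i = (p, k + 1)} → RSF.KA.Q (p, k + 1)) :=
      LinearEquiv.piCongrRight fun i => Submodule.quotEquivOfEq _ _ (by rw [i.2])
    have E4 : ({i // f i = (p, k + 1)} → RSF.KA.Q (p, k + 1)) ≃ₗ[F[X]]
        (Fin (Fintype.card {i // f i = (p, k + 1)}) → RSF.KA.Q (p, k + 1)) :=
      LinearEquiv.funCongrLeft F[X] (RSF.KA.Q (p, k + 1)) (Fintype.equivFin _).symm
    have hfP : Finite (∀ i, RSF.KA.Q (f i)) := Finite.of_equiv V E.toEquiv
    have hfP2 : Finite ((∀ i : {i // f i = (p, k + 1)}, RSF.KA.Q (f i)) ×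
        (∀ i : {i // ¬ f i = (p, k + 1)}, RSF.KA.Q (f i))) := Finite.of_equiv _ E2.toEquiv
    have hf1 : Finite (∀ i : {i // f i = (p, k + 1)}, RSF.KA.Q (f i)) :=
      Finite.of_surjective (fun x : (∀ i : {i // f i = (p, k + 1)}, RSF.KA.Q (f i)) ×
        (∀ i : {i // ¬ f i = (p, k + 1)}, RSF.KA.Q (f i)) => x.1) (fun a => ⟨(a, 0), rfl⟩)
    have hf2 : Finite (∀ i : {i // ¬ f i = (p, k + 1)}, RSF.KA.Q (f i)) :=
      Finite.of_surjective (fun x : (∀ i : {i // f i = (p, k + 1)}, RSF.KA.Q (f i)) ×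
        (∀ i : {i // ¬ f i = (p, k + 1)}, RSF.KA.Q (f i)) => x.2) (fun a => ⟨(0, a), rfl⟩)
    have b1 : Nat.card ((∀ i : {i // f i = (p, k + 1)}, RSF.KA.Q (f i)) →ₗ[F[X]]
        (∀ i : {i // f i = (p, k + 1)}, RSF.KA.Q (f i))) ≤
        4 ^ 1 * Nat.card ((∀ i : {i // f i = (p, k + 1)}, RSF.KA.Q (f i)) ≃ₗ[F[X]]
        (∀ i : {i // f i = (p, k + 1)}, RSF.KA.Q (f i))) :=
      aul_congr (E3.trans E4) 1 (aul_cyc hPI p hpi (k + 1) (by omega) _)
    have b2 := ih h hhm hhd (∀ i : {i // ¬ f i = (p, k + 1)}, RSF.KA.Q (f i)) (by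
      intro v
      funext i
      obtain ⟨y, hy⟩ := Submodule.Quotient.mk_surjective _ (v i)
      show h • v i = 0
      rw [← hy, ← Submodule.Quotient.mk_smul, Submodule.Quotient.mk_eq_zero, smul_eq_mul]
      exact Ideal.mem_span_singleton.2 (Dvd.dvd.mul_right (hdvd' i.1 i.2) y))
    have b3 := aul_prod F[X] _ _ 1 d b1 b2
    have b4 := aul_congr (E.trans E2) (1 + d) b3
    rw [Nat.add_comm 1 d] at b4
    exact b4

/-! ### matrices -/

theorem aul_kill {F : Type} [Field F] (g : F[X]) {n : ℕ} (A : Matrix (Fin n) (Fin n) F)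
    (hA : aeval A g = 0) (x : Module.AEval' (Matrix.toLin' A)) : g • x = 0 := by
  have h1 : x = Module.AEval.of F (Fin n → F) (Matrix.toLin' A)
      ((Module.AEval.of F (Fin n → F) (Matrix.toLin' A)).symm x) := by
    rw [LinearEquiv.apply_symm_apply]
  have h2 : aeval (Matrix.toLin' A) g = 0 := by
    have h3 : aeval (Matrix.toLinAlgEquiv' A) g = Matrix.toLinAlgEquiv' (aeval A g) :=
      aeval_algHom_apply (Matrix.toLinAlgEquiv' : Matrix (Fin n) (Fin n) F ≃ₐ[F] _) A g
    have h4 : (Matrix.toLin' A : Module.End F (Fin n → F)) = Matrix.toLinAlgEquiv' A := rfl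
    rw [h4, h3, hA, map_zero]
  rw [h1, ← Module.AEval.of_aeval_smul, h2]
  simp

/-- a matrix that commutes with `A` as an endomorphism -/
def aul_toEnd {F : Type} [Field F] {n : ℕ} (A : Matrix (Fin n) (Fin n) F)
    (B : {B : Matrix (Fin n) (Fin n) F // B * A = A * B}) :
    Module.AEval' (Matrix.toLin' A) →ₗ[F[X]] Module.AEval' (Matrix.toLin' A) :=
  LinearMap.ofAEval (Matrix.toLin' A)
    ((Module.AEval'.of (Matrix.toLin' A)).toLinearMap ∘ₗ Matrix.toLin' B.1) (by
      intro m
      show Module.AEval'.of (Matrix.toLin' A) (Matrix.toLin' B.1 (Matrix.toLin' A m)) =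
        X • Module.AEval'.of (Matrix.toLin' A) (Matrix.toLin' B.1 m)
      rw [Module.AEval'.X_smul_of]
      congr 1
      rw [← Matrix.toLin'_mul_apply, ← Matrix.toLin'_mul_apply, B.2])

theorem aul_toEnd_apply {F : Type} [Field F] {n : ℕ} (A : Matrix (Fin n) (Fin n) F)
    (B : {B : Matrix (Fin n) (Fin n) F // B * A = A * B}) (m : Fin n → F) :
    aul_toEnd A B (Module.AEval'.of (Matrix.toLin' A) m) =
      Module.AEval'.of (Matrix.toLin' A) (Matrix.toLin' B.1 m) := by
  rfl

theorem aul_toEnd_inj {F : Type} [Field F] {n : ℕ} (A : Matrix (Fin n) (Fin n) F) :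
    Function.Injective (aul_toEnd A) := by
  intro B C h
  apply Subtype.ext
  apply Matrix.toLin'.injective
  refine LinearMap.ext fun m => ?_
  have h1 := DFunLike.congr_fun h (Module.AEval'.of (Matrix.toLin' A) m)
  rw [aul_toEnd_apply, aul_toEnd_apply] at h1
  exact (Module.AEval'.of (Matrix.toLin' A)).injective h1

/-- an automorphism as an invertible matrix that commutes with `A` -/
def aul_toGL {F : Type} [Field F] {n : ℕ} (A : Matrix (Fin n) (Fin n) F)
    (E : Module.AEval' (Matrix.toLin' A) ≃ₗ[F[X]] Module.AEval' (Matrix.toLin' A)) :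
    {B : GL (Fin n) F // (B : Matrix (Fin n) (Fin n) F) * A = A * (B : Matrix (Fin n) (Fin n) F)} :=
  let L : (Fin n → F) ≃ₗ[F] (Fin n → F) :=
    (Module.AEval'.of (Matrix.toLin' A)).trans
      ((E.restrictScalars F).trans (Module.AEval'.of (Matrix.toLin' A)).symm)
  ⟨⟨LinearMap.toMatrix' (L : (Fin n → F) →ₗ[F] (Fin n → F)),
      LinearMap.toMatrix' (L.symm : (Fin n → F) →ₗ[F] (Fin n → F)), by
        rw [← LinearMap.toMatrix'_comp, LinearEquiv.comp_coe, LinearEquiv.symm_trans_self]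
        exact LinearMap.toMatrix'_id, by
        rw [← LinearMap.toMatrix'_comp, LinearEquiv.comp_coe, LinearEquiv.self_trans_symm]
        exact LinearMap.toMatrix'_id⟩, by
    have hL : ∀ m, L (Matrix.toLin' A m) = Matrix.toLin' A (L m) := by
      intro m
      show (Module.AEval'.of (Matrix.toLin' A)).symm
          (E (Module.AEval'.of (Matrix.toLin' A) (Matrix.toLin' A m))) = _
      rw [← Module.AEval'.X_smul_of, map_smul, Module.AEval'.of_symm_X_smul]
      rfl
    have hc : (L : (Fin n → F) →ₗ[F] (Fin n → F)) ∘ₗ Matrix.toLin' A =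
        Matrix.toLin' A ∘ₗ (L : (Fin n → F) →ₗ[F] (Fin n → F)) := LinearMap.ext hL
    show LinearMap.toMatrix' (L : (Fin n → F) →ₗ[F] (Fin n → F)) * A =
      A * LinearMap.toMatrix' (L : (Fin n → F) →ₗ[F] (Fin n → F))
    have h2 := congrArg LinearMap.toMatrix' hc
    rw [LinearMap.toMatrix'_comp, LinearMap.toMatrix'_comp, LinearMap.toMatrix'_toLin'] at h2
    exact h2⟩

theorem aul_toGL_inj {F : Type} [Field F] {n : ℕ} (A : Matrix (Fin n) (Fin n) F) :
    Function.Injective (aul_toGL A) := by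
  intro E E' h
  have h1 : LinearMap.toMatrix' (((Module.AEval'.of (Matrix.toLin' A)).trans
      ((E.restrictScalars F).trans (Module.AEval'.of (Matrix.toLin' A)).symm) :
        (Fin n → F) ≃ₗ[F] (Fin n → F)) : (Fin n → F) →ₗ[F] (Fin n → F)) =
      LinearMap.toMatrix' (((Module.AEval'.of (Matrix.toLin' A)).trans
      ((E'.restrictScalars F).trans (Module.AEval'.of (Matrix.toLin' A)).symm) :
        (Fin n → F) ≃ₗ[F] (Fin n → F)) : (Fin n → F) →ₗ[F] (Fin n → F)) :=
    congrArg (fun x => (x.1 : Matrix (Fin n) (Fin n) F)) h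
  have h2 := LinearMap.toMatrix'.injective h1
  refine LinearEquiv.ext fun x => ?_
  have h3 := DFunLike.congr_fun h2 ((Module.AEval'.of (Matrix.toLin' A)).symm x)
  have h4 : (Module.AEval'.of (Matrix.toLin' A)).symm
      (E (Module.AEval'.of (Matrix.toLin' A) ((Module.AEval'.of (Matrix.toLin' A)).symm x))) =
    (Module.AEval'.of (Matrix.toLin' A)).symm
      (E' (Module.AEval'.of (Matrix.toLin' A) ((Module.AEval'.of (Matrix.toLin' A)).symm x))) := h3
  have h5 := (Module.AEval'.of (Matrix.toLin' A)).symm.injective h4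
  rw [LinearEquiv.apply_symm_apply] at h5
  exact h5

end

theorem t_AUL : M_AUL := by
  intro hPI F _ _ g hg n A hA
  have hV : Finite (Module.AEval' (Matrix.toLin' A)) :=
    Finite.of_equiv (Fin n → F) (Module.AEval'.of (Matrix.toLin' A)).toEquiv
  have h1 := aul_main hPI g.natDegree g hg le_rfl (Module.AEval' (Matrix.toLin' A))
    (aul_kill g A hA)
  have h2 := aul_fin F[X] (Module.AEval' (Matrix.toLin' A)) (Module.AEval' (Matrix.toLin' A))
  have h3 := Nat.card_le_card_of_injective _ (aul_toEnd_inj A)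
  have h4 : Finite {B : GL (Fin n) F //
      (B : Matrix (Fin n) (Fin n) F) * A = A * (B : Matrix (Fin n) (Fin n) F)} := inferInstance
  have h5 := Nat.card_le_card_of_injective _ (aul_toGL_inj A)
  exact h3.trans (h1.trans (Nat.mul_le_mul_left _ h5))

end SRJ
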