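import Mathlib
import Pool.Agent.SRJ.StA

/-!
# SRJ, module MUB: multiplicities for the corner group

MP_5b5212_al.
-/

set_option autoImplicit false

namespace SRJ

open RSF FL0 Polynomial Pool.Agent.Lib_helper13

noncomputable section

section MUB

variable {n : ℕ} {F : Type} [Field F] [Fintype F]

theorem mub_mem_cor {k : ℕ} {h : Matrix (Fin n) (Fin n) F} :
    h ∈ cor n F k ↔ ∀ i j : Fin n, ¬ (i.val < k ∧ k ≤ j.val) → h i j = 0 := by
  classical
  unfold cor
  rw [Finset.mem_filter]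
  exact ⟨fun hh => hh.2, fun hh => ⟨Finset.mem_univ _, hh⟩⟩

theorem mub_mem_cot {k : ℕ} {h : Matrix (Fin n) (Fin n) F} :
    h ∈ cot n F k ↔ ∀ i j : Fin n, ¬ (j.val < k ∧ k ≤ i.val) → h i j = 0 := by
  classical
  unfold cot
  rw [Finset.mem_filter]
  exact ⟨fun hh => hh.2, fun hh => ⟨Finset.mem_univ _, hh⟩⟩

theorem mub_zero (k : ℕ) : (0 : Matrix (Fin n) (Fin n) F) ∈ cor n F k := by
  rw [mub_mem_cor]
  intro i j _
  rfl

theorem mub_add {k : ℕ} {h h' : Matrix (Fin n) (Fin n) F} (hh : h ∈ cor n F k)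
    (hh' : h' ∈ cor n F k) : h + h' ∈ cor n F k := by
  rw [mub_mem_cor] at hh hh' ⊢
  intro i j hij
  rw [Matrix.add_apply, hh i j hij, hh' i j hij, add_zero]

theorem mub_neg {k : ℕ} {h : Matrix (Fin n) (Fin n) F} (hh : h ∈ cor n F k) :
    -h ∈ cor n F k := by
  rw [mub_mem_cor] at hh ⊢
  intro i j hij
  rw [Matrix.neg_apply, hh i j hij, neg_zero]

theorem mub_sub {k : ℕ} {h h' : Matrix (Fin n) (Fin n) F} (hh : h ∈ cor n F k)
    (hh' : h' ∈ cor n F k) : h - h' ∈ cor n F k := by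
  rw [sub_eq_add_neg]
  exact mub_add hh (mub_neg hh')

theorem mub_mul {k : ℕ} {h h' : Matrix (Fin n) (Fin n) F} (hh : h ∈ cor n F k)
    (hh' : h' ∈ cor n F k) : h * h' = 0 := by
  rw [mub_mem_cor] at hh hh'
  ext i j
  rw [Matrix.mul_apply]
  refine Finset.sum_eq_zero fun l _ => ?_
  by_cases h1 : i.val < k ∧ k ≤ l.val
  · rw [hh' l j (fun h2 => absurd h2.1 (not_lt.mpr h1.2)), mul_zero]
  · rw [hh i l h1, zero_mul]

variable (n F) in
/-- the group of the matrices `1 + h`, `h ∈ cor n F k` -/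
def mub_H (k : ℕ) : Subgroup (GL (Fin n) F) where
  carrier := {g | (g : Matrix (Fin n) (Fin n) F) - 1 ∈ cor n F k}
  one_mem' := by
    change (1 : Matrix (Fin n) (Fin n) F) - 1 ∈ cor n F k
    rw [sub_self]
    exact mub_zero k
  mul_mem' := by
    intro a b ha hb
    change (a : Matrix (Fin n) (Fin n) F) - 1 ∈ cor n F k at ha
    change (b : Matrix (Fin n) (Fin n) F) - 1 ∈ cor n F k at hb
    change (a : Matrix (Fin n) (Fin n) F) * (b : Matrix (Fin n) (Fin n) F) - 1 ∈ cor n F k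
    have h1 : (a : Matrix (Fin n) (Fin n) F) * (b : Matrix (Fin n) (Fin n) F) - 1 =
        ((a : Matrix (Fin n) (Fin n) F) - 1) + ((b : Matrix (Fin n) (Fin n) F) - 1) +
          ((a : Matrix (Fin n) (Fin n) F) - 1) * ((b : Matrix (Fin n) (Fin n) F) - 1) := by
      noncomm_ring
    rw [h1, mub_mul ha hb, add_zero]
    exact mub_add ha hb
  inv_mem' := by
    intro a ha
    change (a : Matrix (Fin n) (Fin n) F) - 1 ∈ cor n F k at ha
    change ((a⁻¹ : GL (Fin n) F) : Matrix (Fin n) (Fin n) F) - 1 ∈ cor n F k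
    have h1 : (a : Matrix (Fin n) (Fin n) F) * (1 - ((a : Matrix (Fin n) (Fin n) F) - 1)) = 1 := by
      have h2 : (a : Matrix (Fin n) (Fin n) F) * (1 - ((a : Matrix (Fin n) (Fin n) F) - 1)) =
          1 - ((a : Matrix (Fin n) (Fin n) F) - 1) * ((a : Matrix (Fin n) (Fin n) F) - 1) := by
        noncomm_ring
      rw [h2, mub_mul ha ha, sub_zero]
    have h3 : ((a⁻¹ : GL (Fin n) F) : Matrix (Fin n) (Fin n) F) =
        1 - ((a : Matrix (Fin n) (Fin n) F) - 1) := Units.inv_eq_of_mul_eq_one_right h1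
    rw [h3]
    have h4 : (1 : Matrix (Fin n) (Fin n) F) - ((a : Matrix (Fin n) (Fin n) F) - 1) - 1 =
        -((a : Matrix (Fin n) (Fin n) F) - 1) := by
      abel
    rw [h4]
    exact mub_neg ha

theorem mub_mem_H {k : ℕ} (g : GL (Fin n) F) :
    g ∈ mub_H n F k ↔ (g : Matrix (Fin n) (Fin n) F) - 1 ∈ cor n F k := Iff.rfl

/-- the element `1 + h` -/
def mub_g {k : ℕ} (h : Matrix (Fin n) (Fin n) F) (hh : h ∈ cor n F k) : GL (Fin n) F where
  val := 1 + h
  inv := 1 - h
  val_inv := by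
    have h2 : (1 + h) * (1 - h) = 1 - h * h := by noncomm_ring
    rw [h2, mub_mul hh hh, sub_zero]
  inv_val := by
    have h2 : (1 - h) * (1 + h) = 1 - h * h := by noncomm_ring
    rw [h2, mub_mul hh hh, sub_zero]

theorem mub_xm {k : ℕ} (X : GL (Fin n) F → ℂ) {h : Matrix (Fin n) (Fin n) F}
    (hh : h ∈ cor n F k) : FLC.xm X (1 + h) = X (mub_g h hh) := by
  have h1 : IsUnit (1 + h) := ⟨mub_g h hh, rfl⟩
  unfold FLC.xm
  rw [dif_pos h1]
  congr 1
  exact Units.ext h1.unit_spec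

theorem mub_theta (ψ : AddChar F ℂ) (k : ℕ) (T : Matrix (Fin n) (Fin n) F) :
    FLC.LC (mub_H n F k)
      (fun g => ψ (T * ((g : Matrix (Fin n) (Fin n) F) - 1)).trace) := by
  constructor
  · change ψ (T * ((1 : Matrix (Fin n) (Fin n) F) - 1)).trace = 1
    rw [sub_self, Matrix.mul_zero, Matrix.trace_zero, AddChar.map_zero_eq_one]
  · intro g hg h hh
    rw [mub_mem_H] at hg hh
    change ψ (T * ((g : Matrix (Fin n) (Fin n) F) * (h : Matrix (Fin n) (Fin n) F) - 1)).trace =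
      ψ (T * ((g : Matrix (Fin n) (Fin n) F) - 1)).trace *
        ψ (T * ((h : Matrix (Fin n) (Fin n) F) - 1)).trace
    have h1 : (g : Matrix (Fin n) (Fin n) F) * (h : Matrix (Fin n) (Fin n) F) - 1 =
        ((g : Matrix (Fin n) (Fin n) F) - 1) + ((h : Matrix (Fin n) (Fin n) F) - 1) +
          ((g : Matrix (Fin n) (Fin n) F) - 1) * ((h : Matrix (Fin n) (Fin n) F) - 1) := by
      noncomm_ring
    rw [h1, mub_mul hg hh, add_zero, Matrix.mul_add, Matrix.trace_add, AddChar.map_add_eq_mul]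

open Classical in
theorem mub_mlt [Fintype (GL (Fin n) F)] (ψ : AddChar F ℂ) (k : ℕ) (X : GL (Fin n) F → ℂ)
    (T : Matrix (Fin n) (Fin n) F) :
    mu ψ k X T = FLC.mlt (mub_H n F k)
      (fun g => ψ (T * ((g : Matrix (Fin n) (Fin n) F) - 1)).trace) X := by
  unfold mu FLC.mlt
  have hcard : (cor n F k).card = Nat.card (mub_H n F k) := by
    rw [Nat.card_eq_fintype_card, ← Finset.card_univ]
    symm
    refine Finset.card_bij
      (fun (g : mub_H n F k) _ => ((g : GL (Fin n) F) : Matrix (Fin n) (Fin n) F) - 1)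
      ?_ ?_ ?_
    · intro g _
      exact g.2
    · intro g _ h _ hgh
      exact Subtype.ext (Units.ext (sub_left_injective hgh))
    · intro u hu
      refine ⟨⟨mub_g u hu, ?_⟩, Finset.mem_univ _, ?_⟩
      · change (1 + u) - 1 ∈ cor n F k
        rw [add_sub_cancel_left]
        exact hu
      · change (1 + u) - 1 = u
        rw [add_sub_cancel_left]
  rw [hcard]
  congr 1
  rw [← Finset.sum_filter]
  symm
  refine Finset.sum_bij (fun g _ => (g : Matrix (Fin n) (Fin n) F) - 1) ?_ ?_ ?_ ?_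
  · intro g hg
    exact (Finset.mem_filter.1 hg).2
  · intro g _ h _ hgh
    exact Units.ext (sub_left_injective hgh)
  · intro u hu
    refine ⟨mub_g u hu, Finset.mem_filter.2 ⟨Finset.mem_univ _, ?_⟩, ?_⟩
    · change (1 + u) - 1 ∈ cor n F k
      rw [add_sub_cancel_left]
      exact hu
    · change (1 + u) - 1 = u
      rw [add_sub_cancel_left]
  · intro g hg
    have hg' : (g : Matrix (Fin n) (Fin n) F) - 1 ∈ cor n F k := (Finset.mem_filter.1 hg).2
    rw [mub_xm X hg', AddChar.map_neg_eq_inv]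
    congr 2
    refine Units.ext ?_
    change (g : Matrix (Fin n) (Fin n) F) = 1 + ((g : Matrix (Fin n) (Fin n) F) - 1)
    rw [add_sub_cancel]

/-! ### the trace pairing -/

theorem mub_card (k : ℕ) : (cot n F k).card = (cor n F k).card := by
  refine Finset.card_bij (fun T _ => T.transpose) ?_ ?_ ?_
  · intro T hT
    rw [mub_mem_cot] at hT
    rw [mub_mem_cor]
    intro i j hij
    rw [Matrix.transpose_apply]
    exact hT j i hij
  · intro T _ T' _ h
    exact Matrix.transpose_injective h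
  · intro h hh
    refine ⟨h.transpose, ?_, Matrix.transpose_transpose h⟩
    rw [mub_mem_cor] at hh
    rw [mub_mem_cot]
    intro i j hij
    rw [Matrix.transpose_apply]
    exact hh j i hij

theorem mub_card_pos (k : ℕ) : 0 < (cor n F k).card :=
  Finset.card_pos.mpr ⟨0, mub_zero k⟩

theorem mub_cot_add {k : ℕ} {h h' : Matrix (Fin n) (Fin n) F} (hh : h ∈ cot n F k)
    (hh' : h' ∈ cot n F k) : h + h' ∈ cot n F k := by
  rw [mub_mem_cot] at hh hh' ⊢
  intro i j hij
  rw [Matrix.add_apply, hh i j hij, hh' i j hij, add_zero]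

theorem mub_cot_neg {k : ℕ} {h : Matrix (Fin n) (Fin n) F} (hh : h ∈ cot n F k) :
    -h ∈ cot n F k := by
  rw [mub_mem_cot] at hh ⊢
  intro i j hij
  rw [Matrix.neg_apply, hh i j hij, neg_zero]

theorem mub_orth {ψ : AddChar F ℂ} (hψ : ψ ≠ 1) {k : ℕ} {x : Matrix (Fin n) (Fin n) F}
    (hx : x ∈ cor n F k) (hx0 : x ≠ 0) : ∑ T ∈ cot n F k, ψ (T * x).trace = 0 := by
  classical
  obtain ⟨i, j, hij⟩ : ∃ i j, x i j ≠ 0 := by
    by_contra hcon
    push Not at hcon
    exact hx0 (Matrix.ext fun i j => by rw [hcon i j]; rfl)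
  have hP : i.val < k ∧ k ≤ j.val := by
    by_contra hcon
    exact hij ((mub_mem_cor.mp hx) i j hcon)
  obtain ⟨a, ha⟩ : ∃ a, ψ a ≠ 1 := by
    by_contra hcon
    push Not at hcon
    exact hψ (DFunLike.ext _ _ fun a => by rw [hcon a]; rfl)
  set T0 : Matrix (Fin n) (Fin n) F := Matrix.single j i (a / x i j) with hT0
  have hT0m : T0 ∈ cot n F k := by
    rw [mub_mem_cot]
    intro p q hpq
    rw [hT0]
    refine Matrix.single_apply_of_ne _ _ _ _ _ ?_
    rintro ⟨rfl, rfl⟩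
    exact hpq hP
  have htr : (T0 * x).trace = a := by
    rw [hT0, Matrix.trace_single_mul, smul_eq_mul, div_mul_cancel₀ _ hij]
  have h1 : ∑ T ∈ cot n F k, ψ (T * x).trace = ∑ T ∈ cot n F k, ψ ((T0 + T) * x).trace := by
    symm
    refine Finset.sum_bij (fun T _ => T0 + T) (fun T hT => mub_cot_add hT0m hT)
      (fun T _ T' _ h => add_left_cancel h) (fun T hT => ⟨-T0 + T, ?_, ?_⟩) (fun T _ => rfl)
    · exact mub_cot_add (mub_cot_neg hT0m) hT
    · abel
  have h2 : ∑ T ∈ cot n F k, ψ ((T0 + T) * x).trace =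
      ψ a * ∑ T ∈ cot n F k, ψ (T * x).trace := by
    rw [Finset.mul_sum]
    refine Finset.sum_congr rfl fun T _ => ?_
    rw [Matrix.add_mul, Matrix.trace_add, htr, AddChar.map_add_eq_mul]
  rw [h2] at h1
  have h3 : (1 - ψ a) * ∑ T ∈ cot n F k, ψ (T * x).trace = 0 := by
    rw [sub_mul, one_mul, ← h1, sub_self]
  rcases mul_eq_zero.mp h3 with h4 | h4
  · exact absurd (sub_eq_zero.mp h4).symm ha
  · exact h4

theorem mub_orth2 [DecidableEq (Matrix (Fin n) (Fin n) F)] {ψ : AddChar F ℂ} (hψ : ψ ≠ 1) {k : ℕ} {h h' : Matrix (Fin n) (Fin n) F}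
    (hh : h ∈ cor n F k) (hh' : h' ∈ cor n F k) :
    ∑ T ∈ cot n F k, ψ (-(T * h').trace) * ψ (T * h).trace =
      if h = h' then ((cor n F k).card : ℂ) else 0 := by
  have h1 : ∀ T, ψ (-(T * h').trace) * ψ (T * h).trace = ψ (T * (h - h')).trace := by
    intro T
    rw [← AddChar.map_add_eq_mul, Matrix.mul_sub, Matrix.trace_sub]
    congr 1
    ring
  simp only [h1]
  split_ifs with h2
  · subst h2
    simp only [sub_self, Matrix.mul_zero, Matrix.trace_zero, AddChar.map_zero_eq_one]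
    rw [Finset.sum_const, nsmul_eq_mul, mul_one, mub_card]
  · exact mub_orth hψ (mub_sub hh hh') (sub_ne_zero.mpr h2)

theorem mub_inv {ψ : AddChar F ℂ} (hψ : ψ ≠ 1) {k : ℕ} (X : GL (Fin n) F → ℂ)
    {h : Matrix (Fin n) (Fin n) F} (hh : h ∈ cor n F k) :
    FLC.xm X (1 + h) = ∑ T ∈ cot n F k, mu ψ k X T * ψ (T * h).trace := by
  classical
  have hc : ((cor n F k).card : ℂ) ≠ 0 := Nat.cast_ne_zero.mpr (mub_card_pos k).ne'
  have h1 : ∀ T, mu ψ k X T * ψ (T * h).trace =
      (∑ h' ∈ cor n F k, FLC.xm X (1 + h') * (ψ (-(T * h').trace) * ψ (T * h).trace)) /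
        ((cor n F k).card : ℂ) := by
    intro T
    unfold mu
    rw [div_mul_eq_mul_div, Finset.sum_mul]
    congr 1
    refine Finset.sum_congr rfl fun h' _ => ?_
    ring
  rw [Finset.sum_congr rfl fun T _ => h1 T, ← Finset.sum_div, Finset.sum_comm]
  have h2 : ∀ h' ∈ cor n F k, ∑ T ∈ cot n F k,
      FLC.xm X (1 + h') * (ψ (-(T * h').trace) * ψ (T * h).trace) =
        if h = h' then FLC.xm X (1 + h') * ((cor n F k).card : ℂ) else 0 := by
    intro h' hh'
    rw [← Finset.mul_sum, mub_orth2 hψ hh hh']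
    split_ifs
    · rfl
    · rw [mul_zero]
  rw [Finset.sum_congr rfl h2, Finset.sum_ite_eq, if_pos hh, mul_div_cancel_right₀ _ hc]

theorem mub_conj (ψ : AddChar F ℂ) (a : F) : (starRingEnd ℂ) (ψ a) = ψ (-a) := by
  rw [AddChar.map_neg_eq_conj]

theorem mub_pars {ψ : AddChar F ℂ} (hψ : ψ ≠ 1) {k : ℕ} (X : GL (Fin n) F → ℂ) :
    ∑ T ∈ cot n F k, mu ψ k X T * (starRingEnd ℂ) (mu ψ k X T) =
      (∑ h ∈ cor n F k, FLC.xm X (1 + h) * (starRingEnd ℂ) (FLC.xm X (1 + h))) /
        ((cor n F k).card : ℂ) := by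
  classical
  have h1 : ∀ T, mu ψ k X T * (starRingEnd ℂ) (mu ψ k X T) =
      ∑ h ∈ cor n F k, (mu ψ k X T * ψ (T * h).trace) *
        (starRingEnd ℂ) (FLC.xm X (1 + h)) / ((cor n F k).card : ℂ) := by
    intro T
    have h2 : (starRingEnd ℂ) (mu ψ k X T) =
        (∑ h ∈ cor n F k, ψ (T * h).trace * (starRingEnd ℂ) (FLC.xm X (1 + h))) /
          ((cor n F k).card : ℂ) := by
      unfold mu
      rw [map_div₀, map_sum, map_natCast]
      congr 1
      refine Finset.sum_congr rfl fun h _ => ?_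
      rw [map_mul, mub_conj, neg_neg, mul_comm]
    rw [h2, ← Finset.sum_div, mul_div_assoc', Finset.mul_sum]
    congr 1
    refine Finset.sum_congr rfl fun h _ => ?_
    ring
  rw [Finset.sum_congr rfl fun T _ => h1 T, Finset.sum_comm, Finset.sum_div]
  refine Finset.sum_congr rfl fun h hh => ?_
  rw [← Finset.sum_div, ← Finset.sum_mul, ← mub_inv hψ X hh]

/-! ### block diagonal matrices -/

omit [Fintype F] in
theorem mub_BD_mul {k : ℕ} {A B : Matrix (Fin n) (Fin n) F} (hA : BD k A) (hB : BD k B) :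
    BD k (A * B) := by
  intro i j hij
  rw [Matrix.mul_apply]
  refine Finset.sum_eq_zero fun l _ => ?_
  by_cases h1 : i.val < k ↔ l.val < k
  · rw [hB l j (fun h2 => hij (h1.trans h2)), mul_zero]
  · rw [hA i l h1, zero_mul]

omit [Fintype F] in
theorem mub_BD_one (k : ℕ) : BD k (1 : Matrix (Fin n) (Fin n) F) := by
  intro i j hij
  refine Matrix.one_apply_ne ?_
  rintro rfl
  exact hij Iff.rfl

omit [Fintype F] in
theorem mub_BD_inv {k : ℕ} [Fintype (GL (Fin n) F)] {g : GL (Fin n) F}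
    (hg : BD k (g : Matrix (Fin n) (Fin n) F)) :
    BD k ((g⁻¹ : GL (Fin n) F) : Matrix (Fin n) (Fin n) F) := by
  have h1 : ∀ m : ℕ, BD k ((g ^ m : GL (Fin n) F) : Matrix (Fin n) (Fin n) F) := by
    intro m
    induction m with
    | zero => exact mub_BD_one k
    | succ m ih =>
      rw [pow_succ]
      exact mub_BD_mul ih hg
  have h2 : g⁻¹ = g ^ (Fintype.card (GL (Fin n) F) - 1) := by
    refine inv_eq_of_mul_eq_one_right ?_
    rw [← pow_succ', Nat.sub_add_cancel Fintype.card_pos, pow_card_eq_one]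
  rw [h2]
  exact h1 _

theorem mub_cor_conj {k : ℕ} {A B h : Matrix (Fin n) (Fin n) F} (hA : BD k A) (hB : BD k B)
    (hh : h ∈ cor n F k) : A * h * B ∈ cor n F k := by
  rw [mub_mem_cor] at hh ⊢
  intro i j hij
  rw [Matrix.mul_apply]
  refine Finset.sum_eq_zero fun b _ => ?_
  by_cases hb : b.val < k ↔ j.val < k
  · rw [Matrix.mul_apply, Finset.sum_eq_zero, zero_mul]
    intro a _
    by_cases ha : i.val < k ↔ a.val < k
    · rw [hh a b, mul_zero]
      rintro ⟨h1, h2⟩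
      refine hij ⟨ha.mpr h1, ?_⟩
      by_contra h3
      exact absurd (hb.mpr (not_le.mp h3)) (not_lt.mpr h2)
    · rw [hA i a ha, zero_mul]
  · rw [hB b j hb, mul_zero]

end MUB

theorem t_MUB : M_MUB := by
  intro hMN hXMC n F _ _ _ ψ hψ k X hX
  have h1 : ∀ T, ∃ j : ℕ, mu ψ k X T = j := by
    intro T
    obtain ⟨j, hj⟩ := (hMN (GL (Fin n) F) X hX).1 (mub_H n F k) _ (mub_theta ψ k T)
    exact ⟨j, by rw [mub_mlt, hj]⟩
  have h2 : ∀ h ∈ cor n F k, FLC.xm X (1 + h) = ∑ T ∈ cot n F k, mu ψ k X T * ψ (T * h).trace :=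
    fun h hh => mub_inv hψ X hh
  obtain ⟨hcls, -, hone, hcoe, -⟩ := hXMC n F X hX
  refine ⟨h1, h2, ?_, ?_, ?_⟩
  · have h3 := h2 0 (mub_zero k)
    rw [add_zero, hone] at h3
    rw [h3, Complex.re_sum]
    refine Finset.sum_congr rfl fun T _ => ?_
    rw [Matrix.mul_zero, Matrix.trace_zero, AddChar.map_zero_eq_one, mul_one]
  · have h3 := mub_pars (n := n) hψ (k := k) X
    have h4 : ∀ T, mu ψ k X T * (starRingEnd ℂ) (mu ψ k X T) =
        (((mu ψ k X T).re ^ 2 : ℝ) : ℂ) := by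
      intro T
      obtain ⟨j, hj⟩ := h1 T
      rw [hj]
      simp
      ring
    have h5 : ∀ h, FLC.xm X (1 + h) * (starRingEnd ℂ) (FLC.xm X (1 + h)) =
        ((‖FLC.xm X (1 + h)‖ ^ 2 : ℝ) : ℂ) := by
      intro h
      rw [Complex.mul_conj, Complex.normSq_eq_norm_sq]
    simp only [h4, h5] at h3
    have h6 := congrArg Complex.re h3
    have h7 : (∑ T ∈ cot n F k, (((mu ψ k X T).re ^ 2 : ℝ) : ℂ)) =
        ((∑ T ∈ cot n F k, (mu ψ k X T).re ^ 2 : ℝ) : ℂ) := by
      push_cast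
      rfl
    have h8 : (∑ h ∈ cor n F k, ((‖FLC.xm X (1 + h)‖ ^ 2 : ℝ) : ℂ)) / ((cor n F k).card : ℂ) =
        (((∑ h ∈ cor n F k, ‖FLC.xm X (1 + h)‖ ^ 2) / ((cor n F k).card : ℝ) : ℝ) : ℂ) := by
      push_cast
      rfl
    rw [h7, h8, Complex.ofReal_re, Complex.ofReal_re] at h6
    exact h6
  · intro g T hg
    have hgi := mub_BD_inv hg
    unfold mu
    congr 1
    symm
    refine Finset.sum_bij (fun h _ => (g : Matrix (Fin n) (Fin n) F) * h *
      ((g⁻¹ : GL (Fin n) F) : Matrix (Fin n) (Fin n) F)) ?_ ?_ ?_ ?_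
    · intro h hh
      exact mub_cor_conj hg hgi hh
    · intro h _ h' _ heq
      have e1 : ((g⁻¹ : GL (Fin n) F) : Matrix (Fin n) (Fin n) F) *
          (g : Matrix (Fin n) (Fin n) F) = 1 := Units.inv_mul g
      have e2 : ∀ y : Matrix (Fin n) (Fin n) F,
          ((g⁻¹ : GL (Fin n) F) : Matrix (Fin n) (Fin n) F) *
            ((g : Matrix (Fin n) (Fin n) F) * y *
              ((g⁻¹ : GL (Fin n) F) : Matrix (Fin n) (Fin n) F)) *
            (g : Matrix (Fin n) (Fin n) F) = y := by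
        intro y
        calc ((g⁻¹ : GL (Fin n) F) : Matrix (Fin n) (Fin n) F) *
            ((g : Matrix (Fin n) (Fin n) F) * y *
              ((g⁻¹ : GL (Fin n) F) : Matrix (Fin n) (Fin n) F)) *
            (g : Matrix (Fin n) (Fin n) F)
            = (((g⁻¹ : GL (Fin n) F) : Matrix (Fin n) (Fin n) F) *
              (g : Matrix (Fin n) (Fin n) F)) * y *
              (((g⁻¹ : GL (Fin n) F) : Matrix (Fin n) (Fin n) F) *
              (g : Matrix (Fin n) (Fin n) F)) := by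
              simp only [Matrix.mul_assoc]
          _ = y := by rw [e1, Matrix.one_mul, Matrix.mul_one]
      rw [← e2 h, ← e2 h']
      rw [heq]
    · intro h hh
      refine ⟨((g⁻¹ : GL (Fin n) F) : Matrix (Fin n) (Fin n) F) * h *
        (g : Matrix (Fin n) (Fin n) F), mub_cor_conj hgi hg hh, ?_⟩
      have e1 : (g : Matrix (Fin n) (Fin n) F) *
          ((g⁻¹ : GL (Fin n) F) : Matrix (Fin n) (Fin n) F) = 1 := Units.mul_inv g
      calc (g : Matrix (Fin n) (Fin n) F) *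
          (((g⁻¹ : GL (Fin n) F) : Matrix (Fin n) (Fin n) F) * h *
            (g : Matrix (Fin n) (Fin n) F)) *
          ((g⁻¹ : GL (Fin n) F) : Matrix (Fin n) (Fin n) F)
          = ((g : Matrix (Fin n) (Fin n) F) *
            ((g⁻¹ : GL (Fin n) F) : Matrix (Fin n) (Fin n) F)) * h *
            ((g : Matrix (Fin n) (Fin n) F) *
            ((g⁻¹ : GL (Fin n) F) : Matrix (Fin n) (Fin n) F)) := by
            simp only [Matrix.mul_assoc]
        _ = h := by rw [e1, Matrix.one_mul, Matrix.mul_one]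
    · intro h _
      have e1 : (g : Matrix (Fin n) (Fin n) F) *
          ((g⁻¹ : GL (Fin n) F) : Matrix (Fin n) (Fin n) F) = 1 := Units.mul_inv g
      have e1' : ((g⁻¹ : GL (Fin n) F) : Matrix (Fin n) (Fin n) F) *
          (g : Matrix (Fin n) (Fin n) F) = 1 := Units.inv_mul g
      have e2 : (1 : Matrix (Fin n) (Fin n) F) + (g : Matrix (Fin n) (Fin n) F) * h *
          ((g⁻¹ : GL (Fin n) F) : Matrix (Fin n) (Fin n) F) =
          (g : Matrix (Fin n) (Fin n) F) * (1 + h) *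
          ((g⁻¹ : GL (Fin n) F) : Matrix (Fin n) (Fin n) F) := by
        rw [Matrix.mul_add, Matrix.mul_one, Matrix.add_mul, e1]
      have e3 : ((g : Matrix (Fin n) (Fin n) F) * T *
          ((g⁻¹ : GL (Fin n) F) : Matrix (Fin n) (Fin n) F) *
          ((g : Matrix (Fin n) (Fin n) F) * h *
            ((g⁻¹ : GL (Fin n) F) : Matrix (Fin n) (Fin n) F))).trace = (T * h).trace := by
        have e4 : (g : Matrix (Fin n) (Fin n) F) * T *
            ((g⁻¹ : GL (Fin n) F) : Matrix (Fin n) (Fin n) F) *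
            ((g : Matrix (Fin n) (Fin n) F) * h *
              ((g⁻¹ : GL (Fin n) F) : Matrix (Fin n) (Fin n) F)) =
            (g : Matrix (Fin n) (Fin n) F) * (T *
              ((((g⁻¹ : GL (Fin n) F) : Matrix (Fin n) (Fin n) F) *
                (g : Matrix (Fin n) (Fin n) F)) * h)) *
              ((g⁻¹ : GL (Fin n) F) : Matrix (Fin n) (Fin n) F) := by
          simp only [Matrix.mul_assoc]
        rw [e4, e1', Matrix.one_mul, Matrix.trace_mul_comm, ← Matrix.mul_assoc, e1',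
          Matrix.one_mul]
      rw [e2, hcls g (1 + h), e3]

end

end SRJ
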