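import Mathlib
import Pool.Agent.SRJ.StA
import Pool.Agent.SRJ.MUB

/-!
# SRJ, module BIL: a bound for a character value at a block diagonal element

MP_5b5212_al.
-/

set_option autoImplicit false

namespace SRJ

open RSF FL0 Polynomial Pool.Agent.Lib_helper13

noncomputable section

section BIL

variable {n : ℕ} {F : Type} [Field F] [Fintype F]

theorem bil_cot_conj {k : ℕ} {A B T : Matrix (Fin n) (Fin n) F} (hA : BD k A) (hB : BD k B)
    (hT : T ∈ cot n F k) : A * T * B ∈ cot n F k := by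
  rw [mub_mem_cot] at hT ⊢
  intro i j hij
  rw [Matrix.mul_apply]
  refine Finset.sum_eq_zero fun b _ => ?_
  by_cases hb : b.val < k ↔ j.val < k
  · rw [Matrix.mul_apply, Finset.sum_eq_zero, zero_mul]
    intro a _
    by_cases ha : i.val < k ↔ a.val < k
    · rw [hT a b, mul_zero]
      rintro ⟨h1, h2⟩
      refine hij ⟨hb.mp h1, ?_⟩
      by_contra h3
      exact absurd (ha.mp (not_le.mp h3)) (not_lt.mpr h2)
    · rw [hA i a ha, zero_mul]
  · rw [hB b j hb, mul_zero]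

open Classical in
/-- the matrices `A⁻¹ x A - x`, `x ∈ cor n F k` -/
def bil_R (k : ℕ) (A : GL (Fin n) F) : Finset (Matrix (Fin n) (Fin n) F) :=
  (cor n F k).image fun x =>
    ((A⁻¹ : GL (Fin n) F) : Matrix (Fin n) (Fin n) F) * x * (A : Matrix (Fin n) (Fin n) F) - x

theorem bil_mem_R {k : ℕ} {A : GL (Fin n) F} {h : Matrix (Fin n) (Fin n) F} :
    h ∈ bil_R k A ↔ ∃ x ∈ cor n F k,
      ((A⁻¹ : GL (Fin n) F) : Matrix (Fin n) (Fin n) F) * x *
        (A : Matrix (Fin n) (Fin n) F) - x = h := by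
  classical
  unfold bil_R
  rw [Finset.mem_image]

theorem bil_R_cor [Fintype (GL (Fin n) F)] {k : ℕ} {A : GL (Fin n) F}
    (hA : BD k (A : Matrix (Fin n) (Fin n) F)) {h : Matrix (Fin n) (Fin n) F}
    (hh : h ∈ bil_R k A) : h ∈ cor n F k := by
  obtain ⟨x, hx, rfl⟩ := bil_mem_R.1 hh
  exact mub_sub (mub_cor_conj (mub_BD_inv hA) hA hx) hx

theorem bil_R_zero (k : ℕ) (A : GL (Fin n) F) : (0 : Matrix (Fin n) (Fin n) F) ∈ bil_R k A :=
  bil_mem_R.2 ⟨0, mub_zero k, by rw [Matrix.mul_zero, Matrix.zero_mul, sub_zero]⟩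

theorem bil_R_add {k : ℕ} {A : GL (Fin n) F} {h h' : Matrix (Fin n) (Fin n) F}
    (hh : h ∈ bil_R k A) (hh' : h' ∈ bil_R k A) : h + h' ∈ bil_R k A := by
  obtain ⟨x, hx, rfl⟩ := bil_mem_R.1 hh
  obtain ⟨x', hx', rfl⟩ := bil_mem_R.1 hh'
  refine bil_mem_R.2 ⟨x + x', mub_add hx hx', ?_⟩
  noncomm_ring

theorem bil_R_neg {k : ℕ} {A : GL (Fin n) F} {h : Matrix (Fin n) (Fin n) F}
    (hh : h ∈ bil_R k A) : -h ∈ bil_R k A := by
  obtain ⟨x, hx, rfl⟩ := bil_mem_R.1 hh
  refine bil_mem_R.2 ⟨-x, mub_neg hx, ?_⟩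
  noncomm_ring

/-- the group of the matrices `1 + h`, `h ∈ bil_R k A` -/
def bil_U [Fintype (GL (Fin n) F)] (k : ℕ) (A : GL (Fin n) F)
    (hA : BD k (A : Matrix (Fin n) (Fin n) F)) : Subgroup (GL (Fin n) F) where
  carrier := {g | (g : Matrix (Fin n) (Fin n) F) - 1 ∈ bil_R k A}
  one_mem' := by
    change (1 : Matrix (Fin n) (Fin n) F) - 1 ∈ bil_R k A
    rw [sub_self]
    exact bil_R_zero k A
  mul_mem' := by
    intro a b ha hb
    change (a : Matrix (Fin n) (Fin n) F) - 1 ∈ bil_R k A at ha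
    change (b : Matrix (Fin n) (Fin n) F) - 1 ∈ bil_R k A at hb
    change (a : Matrix (Fin n) (Fin n) F) * (b : Matrix (Fin n) (Fin n) F) - 1 ∈ bil_R k A
    have h1 : (a : Matrix (Fin n) (Fin n) F) * (b : Matrix (Fin n) (Fin n) F) - 1 =
        ((a : Matrix (Fin n) (Fin n) F) - 1) + ((b : Matrix (Fin n) (Fin n) F) - 1) +
          ((a : Matrix (Fin n) (Fin n) F) - 1) * ((b : Matrix (Fin n) (Fin n) F) - 1) := by
      noncomm_ring
    rw [h1, mub_mul (bil_R_cor hA ha) (bil_R_cor hA hb), add_zero]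
    exact bil_R_add ha hb
  inv_mem' := by
    intro a ha
    change (a : Matrix (Fin n) (Fin n) F) - 1 ∈ bil_R k A at ha
    change ((a⁻¹ : GL (Fin n) F) : Matrix (Fin n) (Fin n) F) - 1 ∈ bil_R k A
    have h1 : (a : Matrix (Fin n) (Fin n) F) * (1 - ((a : Matrix (Fin n) (Fin n) F) - 1)) = 1 := by
      have h2 : (a : Matrix (Fin n) (Fin n) F) * (1 - ((a : Matrix (Fin n) (Fin n) F) - 1)) =
          1 - ((a : Matrix (Fin n) (Fin n) F) - 1) * ((a : Matrix (Fin n) (Fin n) F) - 1) := by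
        noncomm_ring
      rw [h2, mub_mul (bil_R_cor hA ha) (bil_R_cor hA ha), sub_zero]
    have h3 : ((a⁻¹ : GL (Fin n) F) : Matrix (Fin n) (Fin n) F) =
        1 - ((a : Matrix (Fin n) (Fin n) F) - 1) := Units.inv_eq_of_mul_eq_one_right h1
    rw [h3]
    have h4 : (1 : Matrix (Fin n) (Fin n) F) - ((a : Matrix (Fin n) (Fin n) F) - 1) - 1 =
        -((a : Matrix (Fin n) (Fin n) F) - 1) := by
      abel
    rw [h4]
    exact bil_R_neg ha

theorem bil_mem_U [Fintype (GL (Fin n) F)] {k : ℕ} {A : GL (Fin n) F}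
    (hA : BD k (A : Matrix (Fin n) (Fin n) F)) (g : GL (Fin n) F) :
    g ∈ bil_U k A hA ↔ (g : Matrix (Fin n) (Fin n) F) - 1 ∈ bil_R k A := Iff.rfl

open Classical in
theorem bil_mlt [Fintype (GL (Fin n) F)] {k : ℕ} {A : GL (Fin n) F}
    (hA : BD k (A : Matrix (Fin n) (Fin n) F)) (X : GL (Fin n) F → ℂ) :
    FLC.mlt (bil_U k A hA) (fun _ => 1) X =
      (∑ h ∈ bil_R k A, FLC.xm X (1 + h)) / ((bil_R k A).card : ℂ) := by
  unfold FLC.mlt
  have hcard : (bil_R k A).card = Nat.card (bil_U k A hA) := by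
    rw [Nat.card_eq_fintype_card, ← Finset.card_univ]
    symm
    refine Finset.card_bij
      (fun (g : bil_U k A hA) _ => ((g : GL (Fin n) F) : Matrix (Fin n) (Fin n) F) - 1)
      ?_ ?_ ?_
    · intro g _
      exact g.2
    · intro g _ h _ hgh
      exact Subtype.ext (Units.ext (sub_left_injective hgh))
    · intro u hu
      refine ⟨⟨mub_g u (bil_R_cor hA hu), ?_⟩, Finset.mem_univ _, ?_⟩
      · change (1 + u) - 1 ∈ bil_R k A
        rw [add_sub_cancel_left]
        exact hu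
      · change (1 + u) - 1 = u
        rw [add_sub_cancel_left]
  rw [hcard]
  congr 1
  rw [← Finset.sum_filter]
  refine Finset.sum_bij (fun g _ => (g : Matrix (Fin n) (Fin n) F) - 1) ?_ ?_ ?_ ?_
  · intro g hg
    exact (Finset.mem_filter.1 hg).2
  · intro g _ h _ hgh
    exact Units.ext (sub_left_injective hgh)
  · intro u hu
    refine ⟨mub_g u (bil_R_cor hA hu), Finset.mem_filter.2 ⟨Finset.mem_univ _, ?_⟩, ?_⟩
    · change (1 + u) - 1 ∈ bil_R k A
      rw [add_sub_cancel_left]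
      exact hu
    · change (1 + u) - 1 = u
      rw [add_sub_cancel_left]
  · intro g hg
    have hg' : (g : Matrix (Fin n) (Fin n) F) - 1 ∈ bil_R k A := (Finset.mem_filter.1 hg).2
    rw [mub_xm X (bil_R_cor hA hg'), inv_one, mul_one]
    congr 1
    refine Units.ext ?_
    change (g : Matrix (Fin n) (Fin n) F) = 1 + ((g : Matrix (Fin n) (Fin n) F) - 1)
    rw [add_sub_cancel]

/-- the trace of `T (A⁻¹ x A - x)` -/
theorem bil_tr (A : GL (Fin n) F) (T x : Matrix (Fin n) (Fin n) F) :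
    (T * (((A⁻¹ : GL (Fin n) F) : Matrix (Fin n) (Fin n) F) * x *
        (A : Matrix (Fin n) (Fin n) F) - x)).trace =
      (((A : Matrix (Fin n) (Fin n) F) * T *
        ((A⁻¹ : GL (Fin n) F) : Matrix (Fin n) (Fin n) F) - T) * x).trace := by
  rw [Matrix.mul_sub, Matrix.sub_mul, Matrix.trace_sub, Matrix.trace_sub]
  congr 1
  rw [← Matrix.mul_assoc, Matrix.trace_mul_comm, ← Matrix.mul_assoc, ← Matrix.mul_assoc]

theorem bil_sum [Fintype (GL (Fin n) F)] {ψ : AddChar F ℂ} (hψ : ψ ≠ 1) {k : ℕ} {A : GL (Fin n) F}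
    (hA : BD k (A : Matrix (Fin n) (Fin n) F)) {T : Matrix (Fin n) (Fin n) F}
    (hT : T ∈ cot n F k) (hne : (A : Matrix (Fin n) (Fin n) F) * T ≠ T * A) :
    ∑ h ∈ bil_R k A, ψ (T * h).trace = 0 := by
  classical
  set Ai : Matrix (Fin n) (Fin n) F := ((A⁻¹ : GL (Fin n) F) : Matrix (Fin n) (Fin n) F) with hAi
  have hAA : Ai * (A : Matrix (Fin n) (Fin n) F) = 1 := by
    rw [hAi, ← Matrix.GeneralLinearGroup.coe_mul, inv_mul_cancel]
    rfl
  set D : Matrix (Fin n) (Fin n) F := (A : Matrix (Fin n) (Fin n) F) * T * Ai - T with hD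
  have hD0 : D ≠ 0 := by
    intro h0
    apply hne
    have h1 : (A : Matrix (Fin n) (Fin n) F) * T * Ai = T := sub_eq_zero.1 h0
    calc (A : Matrix (Fin n) (Fin n) F) * T
        = (A : Matrix (Fin n) (Fin n) F) * T * (Ai * (A : Matrix (Fin n) (Fin n) F)) := by
          rw [hAA, Matrix.mul_one]
      _ = ((A : Matrix (Fin n) (Fin n) F) * T * Ai) * (A : Matrix (Fin n) (Fin n) F) := by
          simp only [Matrix.mul_assoc]
      _ = T * A := by rw [h1]
  have hDm : D ∈ cot n F k := by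
    rw [hD, sub_eq_add_neg]
    exact mub_cot_add (bil_cot_conj hA (mub_BD_inv hA) hT) (mub_cot_neg hT)
  obtain ⟨i, j, hij⟩ : ∃ i j, D i j ≠ 0 := by
    by_contra hcon
    push Not at hcon
    exact hD0 (Matrix.ext fun i j => by rw [hcon i j]; rfl)
  have hP : j.val < k ∧ k ≤ i.val := by
    by_contra hcon
    exact hij ((mub_mem_cot.mp hDm) i j hcon)
  obtain ⟨a, ha⟩ : ∃ a, ψ a ≠ 1 := by
    by_contra hcon
    push Not at hcon
    exact hψ (DFunLike.ext _ _ fun a => by rw [hcon a]; rfl)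
  set x0 : Matrix (Fin n) (Fin n) F := Matrix.single j i (a / D i j) with hx0
  have hx0m : x0 ∈ cor n F k := by
    rw [mub_mem_cor]
    intro p q hpq
    rw [hx0]
    refine Matrix.single_apply_of_ne _ _ _ _ _ ?_
    rintro ⟨rfl, rfl⟩
    exact hpq hP
  have htr : (D * x0).trace = a := by
    rw [Matrix.trace_mul_comm, hx0, Matrix.trace_single_mul, smul_eq_mul, div_mul_cancel₀ _ hij]
  set h0 : Matrix (Fin n) (Fin n) F := Ai * x0 * (A : Matrix (Fin n) (Fin n) F) - x0 with hh0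
  have h0m : h0 ∈ bil_R k A := bil_mem_R.2 ⟨x0, hx0m, rfl⟩
  have htr0 : (T * h0).trace = a := by
    rw [hh0, hAi, bil_tr]
    exact htr
  have h1 : ∑ h ∈ bil_R k A, ψ (T * h).trace = ∑ h ∈ bil_R k A, ψ (T * (h0 + h)).trace := by
    symm
    refine Finset.sum_bij (fun h _ => h0 + h) (fun h hh => bil_R_add h0m hh)
      (fun h _ h' _ e => add_left_cancel e) (fun h hh => ⟨-h0 + h, ?_, ?_⟩) (fun h _ => rfl)
    · exact bil_R_add (bil_R_neg h0m) hh
    · abel
  have h2 : ∑ h ∈ bil_R k A, ψ (T * (h0 + h)).trace =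
      ψ a * ∑ h ∈ bil_R k A, ψ (T * h).trace := by
    rw [Finset.mul_sum]
    refine Finset.sum_congr rfl fun h _ => ?_
    rw [Matrix.mul_add, Matrix.trace_add, htr0, AddChar.map_add_eq_mul]
  rw [h2] at h1
  have h3 : (1 - ψ a) * ∑ h ∈ bil_R k A, ψ (T * h).trace = 0 := by
    rw [sub_mul, one_mul, ← h1, sub_self]
  rcases mul_eq_zero.mp h3 with h4 | h4
  · exact absurd (sub_eq_zero.mp h4).symm ha
  · exact h4

theorem bil_sum_comm {ψ : AddChar F ℂ} {k : ℕ} {A : GL (Fin n) F} {T : Matrix (Fin n) (Fin n) F}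
    (he : (A : Matrix (Fin n) (Fin n) F) * T = T * A) :
    ∑ h ∈ bil_R k A, ψ (T * h).trace = ((bil_R k A).card : ℂ) := by
  have h1 : ∀ h ∈ bil_R k A, ψ (T * h).trace = 1 := by
    intro h hh
    obtain ⟨x, hx, rfl⟩ := bil_mem_R.1 hh
    rw [bil_tr, he]
    have h2 : (T * (A : Matrix (Fin n) (Fin n) F)) *
        ((A⁻¹ : GL (Fin n) F) : Matrix (Fin n) (Fin n) F) = T := by
      rw [Matrix.mul_assoc, ← Matrix.GeneralLinearGroup.coe_mul, mul_inv_cancel]
      exact Matrix.mul_one T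
    rw [h2, sub_self, Matrix.zero_mul, Matrix.trace_zero, AddChar.map_zero_eq_one]
  rw [Finset.sum_congr rfl h1, Finset.sum_const, nsmul_eq_mul, mul_one]

end BIL

theorem t_BIL : M_BIL := by
  intro hNRU hMUB n F _ _ _ ψ hψ k X hX A hA
  obtain ⟨-, hinv, -, -, -⟩ := hMUB n F ψ hψ k X hX
  set Ai : Matrix (Fin n) (Fin n) F := ((A⁻¹ : GL (Fin n) F) : Matrix (Fin n) (Fin n) F) with hAi
  have hAA : Ai * (A : Matrix (Fin n) (Fin n) F) = 1 := by
    rw [hAi, ← Matrix.GeneralLinearGroup.coe_mul, inv_mul_cancel]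
    rfl
  have hAA' : (A : Matrix (Fin n) (Fin n) F) * Ai = 1 := by
    rw [hAi, ← Matrix.GeneralLinearGroup.coe_mul, mul_inv_cancel]
    rfl
  have hBi : BD k Ai := mub_BD_inv hA
  have h1 : ∀ u ∈ bil_U k A hA, A * u * A⁻¹ ∈ bil_U k A hA := by
    intro u hu
    rw [bil_mem_U] at hu ⊢
    obtain ⟨x, hx, hxu⟩ := bil_mem_R.1 hu
    refine bil_mem_R.2 ⟨(A : Matrix (Fin n) (Fin n) F) * x * Ai, mub_cor_conj hA hBi hx, ?_⟩
    have h2 : ((A * u * A⁻¹ : GL (Fin n) F) : Matrix (Fin n) (Fin n) F) - 1 =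
        (A : Matrix (Fin n) (Fin n) F) * ((u : Matrix (Fin n) (Fin n) F) - 1) * Ai := by
      rw [Matrix.GeneralLinearGroup.coe_mul, Matrix.GeneralLinearGroup.coe_mul, ← hAi,
        Matrix.mul_sub, Matrix.sub_mul, Matrix.mul_one, hAA']
    rw [h2, ← hxu, ← hAi]
    have h3 : Ai * ((A : Matrix (Fin n) (Fin n) F) * x * Ai) * (A : Matrix (Fin n) (Fin n) F) =
        x := by
      have h4 : Ai * ((A : Matrix (Fin n) (Fin n) F) * x * Ai) * (A : Matrix (Fin n) (Fin n) F) =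
          (Ai * (A : Matrix (Fin n) (Fin n) F)) * x * (Ai * (A : Matrix (Fin n) (Fin n) F)) := by
        simp only [Matrix.mul_assoc]
      rw [h4, hAA, Matrix.one_mul, Matrix.mul_one]
    have h5 : (A : Matrix (Fin n) (Fin n) F) *
        (Ai * x * (A : Matrix (Fin n) (Fin n) F) - x) * Ai =
        ((A : Matrix (Fin n) (Fin n) F) * Ai) * x * ((A : Matrix (Fin n) (Fin n) F) * Ai) -
          (A : Matrix (Fin n) (Fin n) F) * x * Ai := by
      simp only [Matrix.mul_sub, Matrix.sub_mul, Matrix.mul_assoc]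
    rw [h3, h5, hAA', Matrix.one_mul, Matrix.mul_one]
  have h2 : ∀ u ∈ bil_U k A hA, X (A * u) = X A := by
    intro u hu
    rw [bil_mem_U] at hu
    obtain ⟨x, hx, hxu⟩ := bil_mem_R.1 hu
    have h3 : mub_g x hx * A * (mub_g x hx)⁻¹ = A * u := by
      rw [mul_inv_eq_iff_eq_mul]
      apply Units.ext
      change (1 + x) * (A : Matrix (Fin n) (Fin n) F) =
        (A : Matrix (Fin n) (Fin n) F) * (u : Matrix (Fin n) (Fin n) F) * (1 + x)
      have hu' : (u : Matrix (Fin n) (Fin n) F) =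
          1 + (Ai * x * (A : Matrix (Fin n) (Fin n) F) - x) := by
        rw [hxu, add_sub_cancel]
      have h4 : (A : Matrix (Fin n) (Fin n) F) * (u : Matrix (Fin n) (Fin n) F) =
          (A : Matrix (Fin n) (Fin n) F) + x * (A : Matrix (Fin n) (Fin n) F) -
            (A : Matrix (Fin n) (Fin n) F) * x := by
        rw [hu', Matrix.mul_add, Matrix.mul_one, Matrix.mul_sub, ← Matrix.mul_assoc,
          ← Matrix.mul_assoc, hAA', Matrix.one_mul]
        abel
      have h5 : x * (A : Matrix (Fin n) (Fin n) F) * x = 0 := by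
        have h6 : x * (A : Matrix (Fin n) (Fin n) F) ∈ cor n F k := by
          have h7 := mub_cor_conj (mub_BD_one (F := F) k) hA hx
          rwa [Matrix.one_mul] at h7
        exact mub_mul h6 hx
      have h8 : x * x = 0 := mub_mul hx hx
      have h9 : ((A : Matrix (Fin n) (Fin n) F) + x * (A : Matrix (Fin n) (Fin n) F) -
            (A : Matrix (Fin n) (Fin n) F) * x) * x = (A : Matrix (Fin n) (Fin n) F) * x := by
        rw [Matrix.sub_mul, Matrix.add_mul, h5, Matrix.mul_assoc _ x x, h8, Matrix.mul_zero,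
          add_zero, sub_zero]
      have h10 : (1 + x) * (A : Matrix (Fin n) (Fin n) F) =
          (A : Matrix (Fin n) (Fin n) F) + x * (A : Matrix (Fin n) (Fin n) F) := by
        rw [Matrix.add_mul, Matrix.one_mul]
      rw [h4, Matrix.mul_add, Matrix.mul_one, h9, h10]
      abel
    rw [← h3, hX.conj_eq]
  have key := hNRU (GL (Fin n) F) X (bil_U k A hA) A hX h1 h2
  refine key.trans (le_of_eq ?_)
  have hc : ((bil_R k A).card : ℂ) ≠ 0 :=
    Nat.cast_ne_zero.mpr (Finset.card_pos.mpr ⟨0, bil_R_zero k A⟩).ne'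
  have h3 : ∑ h ∈ bil_R k A, FLC.xm X (1 + h) =
      ∑ T ∈ cot n F k, mu ψ k X T * ∑ h ∈ bil_R k A, ψ (T * h).trace := by
    rw [Finset.sum_congr rfl fun h hh => hinv h (bil_R_cor hA hh), Finset.sum_comm]
    refine Finset.sum_congr rfl fun T _ => ?_
    rw [Finset.mul_sum]
  have h4 : ∀ T ∈ cot n F k, mu ψ k X T * ∑ h ∈ bil_R k A, ψ (T * h).trace =
      if (A : Matrix (Fin n) (Fin n) F) * T = T * A then
        mu ψ k X T * ((bil_R k A).card : ℂ) else 0 := by
    intro T hT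
    split_ifs with he
    · rw [bil_sum_comm he]
    · rw [bil_sum hψ hA hT he, mul_zero]
  rw [bil_mlt hA X, h3, Finset.sum_congr rfl h4, ← Finset.sum_filter, ← Finset.sum_mul,
    mul_div_cancel_right₀ _ hc, Complex.re_sum]

end

end SRJ
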