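import Pool.Agent.SRJ.StA

/-!
# Surjectivity of random homomorphisms to `PSL_n(q)` (MP_5b5212_al): statements, part B

Part B: two random elements of `SL_n(q)` generate `SL_n(q)`, without the classification (after Eberhard and Virchow).
For most `y` the powers `y ^ k`, `0 < k < m`, have small centralizers (`PWC`), so by a second moment argument (`SEC`) for most `x` some
`x y ^ i` is a Singer type element (`TS`), some is of type `TZ`, some has a power that is a transvection (`TT`); these generate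
(`TRN`, `GTV`; for large `q` the transvection comes from `HOM`).
`S_X` is the statement of module `X`; the module proves `theorem t_X : M_X` (or `t_X : S_X` if there is
no `M_X`) in `Pool/Agent/SRJ/X.lean`, namespace `SRJ`, importing this file. `q = Nat.card F`.
-/

namespace SRJ

open RSF FL0 Polynomial Pool.Agent.Lib_helper13

noncomputable section

/-! ## Definitions -/

/-- `1 + q + ⋯ + q ^ (n - 1)` -/
def nu (q n : ℕ) : ℕ := ∑ i ∈ Finset.range n, q ^ i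

/-- `⌊log₂ (q ^ n)⌋ + 1` -/
def lg (q n : ℕ) : ℕ := Nat.log 2 (q ^ n) + 1

section

variable {n : ℕ} {F : Type} [Field F]

/-- a transvection `≠ 1` -/
def Tv (t : SL n F) : Prop :=
  t ≠ 1 ∧ ∃ v w : Fin n → F, w ⬝ᵥ v = 0 ∧ t.1 = 1 + Matrix.vecMulVec v w

/-- irreducible, of the order `(q ^ n - 1) / (q - 1)` -/
def TS (y : SL n F) : Prop := Irreducible y.1.charpoly ∧ orderOf y = nu (Nat.card F) n

/-- irreducible on a subspace of dimension `n - 1`, of the order `q ^ (n - 1) - 1` -/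
def TZ (y : SL n F) : Prop :=
  ∃ (c : F) (p : F[X]), p.Monic ∧ Irreducible p ∧ p.natDegree + 1 = n ∧
    y.1.charpoly = (X - C c) * p ∧ orderOf y = Nat.card F ^ (n - 1) - 1

/-- some power is a transvection `≠ 1` -/
def TT (y : SL n F) : Prop := ∃ k : ℕ, Tv (y ^ k)

/-- transitive on the points of the projective space -/
def Trp (H : Subgroup (SL n F)) : Prop :=
  ∀ v w : Fin n → F, v ≠ 0 → w ≠ 0 → ∃ h ∈ H, ∃ c : F, c ≠ 0 ∧ h.1.mulVec v = c • w

open Classical in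
/-- the sum of the degrees of the irreducible factors of degree at most `D`, with multiplicity -/
def smd (D : ℕ) (f : F[X]) : ℕ :=
  (((UniqueFactorizationMonoid.factors f).filter fun p => p.natDegree ≤ D).map natDegree).sum

/-- `p` is a monic irreducible divisor of `f` of degree larger than `D` -/
def Big (D : ℕ) (f p : F[X]) : Prop := p.Monic ∧ Irreducible p ∧ p ∣ f ∧ D < p.natDegree

/-- The irreducible factors of `f` of degree larger than `D` are simple, and different roots of these have different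
`k`-th powers for `0 < k < m`. -/
def Gd (D m : ℕ) (f : F[X]) : Prop :=
  (∀ p, Big D f p → ¬ p ^ 2 ∣ f) ∧
  ∀ p p', Big D f p → Big D f p' → ∀ α β : AlgebraicClosure F, aeval α p = 0 → aeval β p' = 0 →
    α ≠ β → ∀ k, 1 ≤ k → k < m → α ^ k ≠ β ^ k

end

/-- the proportion of the `y` that are not used -/
def bet (n : ℕ) (F : Type) [Field F] (D m s : ℕ) : ℝ :=
  ((Nat.card {y : SL n F // s < smd D y.1.charpoly} : ℝ) +
    Nat.card {y : SL n F // ¬ Gd D m y.1.charpoly}) / Nat.card (SL n F)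

/-- the bound for the character ratios of the powers -/
def Mc (q n s : ℕ) : ℝ := (q : ℝ) ^ (((s : ℝ) ^ 2 + s + n) / 2) / ((q : ℝ) ^ (n - 1) - 1)

/-! ## 1. Finite groups -/

/-- **SEC**, second moment. `Z(x)` the number of the `i < m` with `x y^i ∈ P`, `δ = |P| / |G|`. `E Z = m δ`. For `g = y^k` the number of
the `x ∈ P` with `x g ∈ P` is `(1/|G|) ∑_X |∑_{p ∈ P} X p|² X(g) / X(1)` up to complex conjugation (expand the class function
`g ↦` number of the pairs `(p, p')`, `p⁻¹ p' = g`; compare `FLC/FRB.lean`), so it differs from `|P|²/|G|` by at most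
`(M/|G|) ∑_X |∑_P X|² = M |P|` (`S_PVL` (1)). So `E Z² ≤ m δ + m² (δ² + M δ)`, and by Chebyshev
`P (Z = 0) ≤ (m δ + m² M δ) / (m δ)²`. -/
def S_SEC : Prop :=
  ∀ (G : Type) [Group G] [Fintype G] (P : Set G), (∀ t ∈ P, ∀ g, g * t * g⁻¹ ∈ P) →
    ∀ (y : G) (M : ℝ) (m : ℕ), 0 ≤ M →
    (∀ X : G → ℂ, IsIrr X → X ≠ (fun _ => 1) → ∀ k, 1 ≤ k → k < m → ‖X (y ^ k)‖ ≤ M * ‖X 1‖) →
      (Nat.card {x : G // ∀ i < m, x * y ^ i ∉ P} : ℝ) * (m * Nat.card P) ≤
        (Nat.card G : ℝ) ^ 2 * (1 + M * m)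

def M_SEC : Prop := S_PVL → S_SEC

/-- **COR**. Second orthogonality: `∑_X |X g|² = |C(g)|` (expand the indicator of the class of `g` by
`class_fn_expand`, or `FLC.S_FRB` with `k = 1`). -/
def S_COR : Prop :=
  ∀ (G : Type) [Group G] [Fintype G] (X : G → ℂ) (g : G), IsIrr X →
    ‖X g‖ ^ 2 ≤ Nat.card {z : G // z * g = g * z}

/-! ## 2. Centralizers -/

/-- **CYC**. An endomorphism `z` that commutes with `w` is given by four maps `z_ij : V_j → V_i` commuting with `w`. `z_11`: at most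
`q^(s²)`. `z_12`, `z_22`: determined by the image of the cyclic vector of `V₂`: together at most `q^n`. `z_21 : V₁ → V₂`: the
number of the `F[X]`-homomorphisms `V₁ → V₂` is equal to the number of those `V₂ → V₁` (every matrix is conjugate to its
transpose, `Pool.Agent.GTD`, `thm_TRSP` in `TRSP.lean`, and transposition; or structure theorem), at most `q^s`. -/
def S_CYC : Prop :=
  ∀ (F V : Type) [Field F] [Finite F] [AddCommGroup V] [Module F V] [FiniteDimensional F V]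
    (w : V →ₗ[F] V) (V₁ V₂ : Submodule F V), IsCompl V₁ V₂ → (∀ x ∈ V₁, w x ∈ V₁) →
    (∀ x ∈ V₂, w x ∈ V₂) → (∃ v ∈ V₂, ∀ x ∈ V₂, ∃ f : F[X], x = aeval w f v) →
      Nat.card {z : V →ₗ[F] V // z ∘ₗ w = w ∘ₗ z} ≤
        Nat.card F ^ (Module.finrank F V₁ ^ 2 + Module.finrank F V₁ + Module.finrank F V)

/-- **CKV**. `f = charpoly y = f₁ f₂`, `f₁` the product of the irreducible factors of degree at most `D`, `f₂` of the others
(coprime); `V_i = ker f_i(y)`, `dim V₁ = deg f₁ = smd D f`, the characteristic polynomial of `y` on `V₂` is `f₂` (up to a unit), which is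
a product of different irreducible polynomials, and its roots in the algebraic closure (all simple: `F` is perfect) have
different `k`-th powers. If `h (y^k) = 0` on `V₂` then `f₂ ∣ h (X^k)`, so `h` has the `dim V₂` different roots
`α^k`: the minimal polynomial of `y^k` on `V₂` has degree `dim V₂`, so there is a cyclic vector (structure theorem;
`Module.exists_ker_toSpanSingleton_eq_annihilator` or the like). -/
def S_CKV : Prop :=
  ∀ (n : ℕ) (F : Type) [Field F] [Finite F] (D m : ℕ) (y : SL n F), Gd D m y.1.charpoly →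
    ∀ k, 1 ≤ k → k < m → ∃ V₁ V₂ : Submodule F (Fin n → F), IsCompl V₁ V₂ ∧
      Module.finrank F V₁ = smd D y.1.charpoly ∧
      (∀ x ∈ V₁, Matrix.toLin' (y.1 ^ k) x ∈ V₁) ∧ (∀ x ∈ V₂, Matrix.toLin' (y.1 ^ k) x ∈ V₂) ∧
      ∃ v ∈ V₂, ∀ x ∈ V₂, ∃ f : F[X], x = aeval (Matrix.toLin' (y.1 ^ k)) f v

/-- **PWC**: `S_CKV`, `S_CYC`. -/
def S_PWC : Prop :=
  ∀ (n : ℕ) (F : Type) [Field F] [Finite F] (D m : ℕ) (y : SL n F), Gd D m y.1.charpoly →
    ∀ k, 1 ≤ k → k < m → Nat.card {z : SL n F // z * y ^ k = y ^ k * z} ≤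
      Nat.card F ^ (smd D y.1.charpoly ^ 2 + smd D y.1.charpoly + n)

def M_PWC : Prop := S_CKV → S_CYC → S_PWC

/-! ## 3. Characteristic polynomials of random elements -/

/-- **FLG**. Induction on the length of `L = p :: L'`, `d = deg p`, `e = d + e'`. If `charpoly y = p f'` then there is a `y`-invariant
subspace `W` of dimension `d` with `charpoly (y|W) = p` (a simple submodule of `F^e` killed by `p`: `ker p(y) ≠ 0`), and then
`charpoly (y on V/W) = f'`. For given `W` and given `y₁` on `W`, `y₂` on `V/W` there are `q^(d e')` such `y`, and the number of the `W` of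
dimension `d` is `|GL_e| / (|GL_d| |GL_e'| q^(d e'))` (orbit and stabilizer). So
`c_e(p f') / |GL_e| ≤ (c_d(p) / |GL_d|) (c_e'(f') / |GL_e'|)`, `c_e(f)` the number of the `y ∈ GL_e` with characteristic polynomial
`f`. And `c_d(p) = |GL_d| / (q^d - 1)`: one class, the commutant of such a `y` is the field `F[X]/(p)`. -/
def S_FLG : Prop :=
  ∀ (F : Type) [Field F] [Finite F] (L : List F[X]), (∀ p ∈ L, p.Monic ∧ Irreducible p ∧ p ≠ X) →
    ∀ e : ℕ, L.prod.natDegree = e →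
      Nat.card {y : GL (Fin e) F // (y : Matrix (Fin e) (Fin e) F).charpoly = L.prod} *
          (L.map fun p => Nat.card F ^ p.natDegree - 1).prod ≤
        Nat.card (GL (Fin e) F)

/-- **DIV**. If `f = L.prod ∣ charpoly y`, `deg f = e`, there is a `y`-invariant subspace `W` of dimension `e` with
`charpoly (y|W) = f` (as in `S_FLG`, one factor after the other). For given `W` the number of the `y ∈ SL_n` with given `y₁` on
`W` is `q^(e (n-e))` times the number of the `y₂ ∈ GL (V/W)` with `det y₂ = (det y₁)⁻¹`, which is `|GL_(n-e)| / (q - 1)` if `e < n`.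
The number of the `W` is `|GL_n| / (|GL_e| |GL_(n-e)| q^(e (n-e)))`, `|GL_n| = (q-1) |SL_n|`, `S_FLG`. If `e = n` then the number is at
most the number in `S_FLG`. -/
def S_DIV : Prop :=
  ∀ (F : Type) [Field F] [Finite F] (L : List F[X]), (∀ p ∈ L, p.Monic ∧ Irreducible p ∧ p ≠ X) →
    ∀ n : ℕ, L.prod.natDegree ≤ n →
      Nat.card {y : SL n F // L.prod ∣ y.1.charpoly} *
          (L.map fun p => Nat.card F ^ p.natDegree - 1).prod ≤
        (if L.prod.natDegree < n then 1 else Nat.card F - 1) * Nat.card (SL n F)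

def M_DIV : Prop := S_FLG → S_DIV

/-- **DVT** (`q = 2`, `SL_n = GL_n`). Fitting: for every endomorphism `A` of `V = F^n`, `V = V₀ ⊕ V₁`, `A` nilpotent on `V₀` and invertible
on `V₁`, uniquely. The number of the pairs `(V₀, V₁)` with `dim V₀ = j` is `|GL_n| / (|GL_j| |GL_(n-j)|)`. So with `N_j` the number of
nilpotent `j × j` matrices `q^(n²) / |GL_n| = ∑_{j ≤ n} N_j / |GL_j|`. So `N_j / |GL_j| = b_j - b_(j-1) = q^(-j) b_j`,
`b_j = q^(j²) / |GL_j| = ∏_{i ≤ j} (1 - q^(-i))⁻¹ ≤ 4` (`RSF.S_PI`). Now the `y ∈ GL_n` with `dim V₀ = j` for `A = y - 1` are at most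
`|GL_n| / (|GL_j| |GL_(n-j)|) · N_j · |GL_(n-j)| ≤ 4 · 2^(-j) |GL_n|`; `(X - 1)^l ∣ charpoly y` iff `j ≥ l`. -/
def S_DVT : Prop :=
  ∀ (F : Type) [Field F] [Finite F], Nat.card F = 2 → ∀ n l : ℕ,
    Nat.card {y : SL n F // (X - 1) ^ l ∣ y.1.charpoly} * 2 ^ l ≤ 8 * Nat.card (SL n F)

def M_DVT : Prop := RSF.S_PI → S_DVT

/-- **SML**. `smd D (charpoly y) = ∑_p deg p ∑_{l ≥ 1} [p^l ∣ charpoly y]` over the monic irreducible `p ≠ X` of degree `d ≤ D`
(`charpoly y` is monic of degree `n`, its constant term is not `0`; `l d ≤ n`). Number of the `y` with `p^l ∣ charpoly y`, divided by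
`|SL_n|` (`S_DIV`, `L = replicate l p`): at most `(q^d - 1)^(-l)` if `l d < n`, sum over `l` at most `1/(q^d - 2) ≤ 3/q^d` if `q^d ≥ 3`;
and at most `(q - 1) (q^d - 1)^(-l)` if `l d = n`, where `l ≥ 3` (`2 D < n`): at most `(q^d - 1)^(-2) ≤ 4/q^d`. At most `q^d` polynomials
`p` of degree `d`: the sum over these `p` of `d · ∑_l` is at most `7 d`. If `q^d = 2` then `p = X - 1`, `S_DVT`: sum over `l` at most
`3 + ∑_{l > 3} 8 · 2^(-l) = 4`. In total at most `(7 D² + 4)`. -/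
def S_SML : Prop :=
  ∃ C : ℝ, 0 < C ∧ ∀ (n D : ℕ) (F : Type) [Field F] [Finite F], 2 * D < n →
    ∑ᶠ y : SL n F, (smd D y.1.charpoly : ℝ) ≤ C * ((D : ℝ) + 1) ^ 2 * Nat.card (SL n F)

def M_SML : Prop := S_DIV → S_DVT → S_SML

/-- **CNA**. The roots of `p` are the `α^(q^j)`, `j < d`. `α ≠ β = α^(q^j)`, `0 < j < d`, `α^k = β^k`: `α^(k (q^j - 1)) = 1` (`α ≠ 0`). In the
cyclic group of the `q^d - 1` elements `α ≠ 0` with `α^(q^d) = α` the number of the solutions is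
`gcd (k (q^j - 1), q^d - 1) ≤ k gcd (q^j - 1, q^d - 1) = k (q^(gcd (j, d)) - 1) ≤ k q^(d/2)`. Sum over `j`; `p` is the minimal
polynomial of `α`. -/
def S_CNA : Prop :=
  ∀ (F : Type) [Field F] [Finite F] (d k : ℕ), 1 ≤ k → 2 ≤ d →
    (Nat.card {p : F[X] // p.Monic ∧ Irreducible p ∧ p.natDegree = d ∧
      ∃ α β : AlgebraicClosure F, aeval α p = 0 ∧ aeval β p = 0 ∧ α ≠ β ∧ α ^ k = β ^ k} : ℝ) ≤
      (d : ℝ) * k * (Nat.card F : ℝ) ^ ((d : ℝ) / 2)

/-- **CNB**. There are `q^(d')` monic `p'` of degree `d'`. For a given `p'` fix a root `β₀`. Every root `β` of `p'` is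
`σ β₀` for an automorphism `σ` over `F`, so `(σ⁻¹ α)^k = β₀^k` and `σ⁻¹ α` is a root of `p`: `p` is the minimal polynomial of
one of the at most `k` solutions of `x^k = β₀^k`. -/
def S_CNB : Prop :=
  ∀ (F : Type) [Field F] [Finite F] (d d' k : ℕ), 1 ≤ k → 1 ≤ d' →
    Nat.card {p : F[X] × F[X] // p.1.Monic ∧ Irreducible p.1 ∧ p.1.natDegree = d ∧
      p.2.Monic ∧ Irreducible p.2 ∧ p.2.natDegree = d' ∧
      ∃ α β : AlgebraicClosure F, aeval α p.1 = 0 ∧ aeval β p.2 = 0 ∧ α ^ k = β ^ k} ≤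
      k * Nat.card F ^ d'

/-- **LRG**. `a = q^(-max(D+1,2)/2)`. If `Gd` fails for `f = charpoly y` (degree `n`, `X ∤ f`) then one of the following holds.
(i) `p² ∣ f`, `deg p = d > D`: at most `q^d` such `p`, `S_DIV` with `L = [p, p]`: proportion at most `(q^d - 1)^(-2) ≤ 4 q^(-2d)`, sum
over `d > D` at most `8 q^(-(D+1)) ≤ 8 a`; if `2 d = n` then a factor `q - 1` more, still `≤ a`-size because `n ≥ 2 D + 8`.
(ii) `p ∣ f` with two different roots with the same `k`-th power, `1 ≤ k < m`, `d = deg p > D`, `d ≥ 2`: at most `d k q^(d/2)` such `p`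
(`S_CNA`), proportion `≤ 2 q^(-d)` each (`2 q^(1-n)` if `d = n`): sum over `k`, `d` at most
`m² (2 ∑_{d ≥ max(D+1,2)} d q^(-d/2) + 2 n q^(1 - n/2)) ≤ 10 m² n a`.
(iii) `p p' ∣ f`, `p ≠ p'` of degrees `d ≥ d' > D`, a root of `p` and one of `p'` with the same `k`-th power: at most `k q^(d')` pairs
(`S_CNB`), proportion at most `4 q^(-d-d')` (`L = [p, p']`), and `q - 1` times this if `d + d' = n` (then `d ≥ n/2`): sum at most
`m² ∑_{d > D} 4 d q^(-d) + m² n 4 q^(1 - n/2) ≤ 20 m² n a` (`(D + 1) ≥ max(D+1,2)/2`). -/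
def S_LRG : Prop :=
  ∃ C : ℝ, 0 < C ∧ ∀ (n D m : ℕ) (F : Type) [Field F] [Finite F], 2 * D + 8 ≤ n → 1 ≤ m →
    (Nat.card {y : SL n F // ¬ Gd D m y.1.charpoly} : ℝ) ≤
      C * (m : ℝ) ^ 2 * n * (Nat.card F : ℝ) ^ (-((max (D + 1) 2 : ℕ) : ℝ) / 2) * Nat.card (SL n F)

def M_LRG : Prop := S_DIV → S_CNA → S_CNB → S_LRG

/-! ## 4. Special elements -/

/-- **PHI**. `φ(N)/N = ∏_{p ∣ N} (1 - 1/p) ≥ ∏_{i=1}^{ω} (1 - 1/(i+1)) = 1/(ω+1)`, `ω` the number of the prime divisors, and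
`2^ω ≤ N`. -/
def S_PHI : Prop := ∀ N : ℕ, 1 ≤ N → N ≤ Nat.totient N * (Nat.log 2 N + 1)

/-- **FXT**, finite extensions of all degrees (`FiniteField.Extension`, or adjoin a root of an irreducible polynomial, or the
fixed field of a power of Frobenius in the algebraic closure). -/
def S_FXT : Prop :=
  ∀ (F : Type) [Field F] [Finite F] (k : ℕ), 1 ≤ k →
    ∃ (K : Type) (_ : Field K) (_ : Algebra F K) (_ : Finite K), Module.finrank F K = k

/-- **GNE**. The subring generated by `ξ` is a finite domain, so a subfield with `N` elements, `|K| = N^i`. If `i ≥ 2` then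
`ξ^(N-1) = 1` (`ξ ≠ 0`), so `orderOf ξ + 1 ≤ N`, `(orderOf ξ + 1)² ≤ |K|`. -/
def S_GNE : Prop :=
  ∀ (K : Type) [Field K] [Finite K] (ξ : K), Nat.card K < (orderOf ξ + 1) ^ 2 →
    Subring.closure {ξ} = ⊤

/-- **DSG**. The matrix of `T i` in a basis is in `SL_n`. Its commutant in the matrices has exactly `q^n` elements (it is
determined by the image of the cyclic vector), so its class in `GL_n` has at least `|GL_n| / q^n` elements, all in `SL_n`. `T i` and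
`T j` in the same class have the same characteristic polynomial, so every class comes from at most `n` indices: the union of
the classes has at least `(|I| / n) |GL_n| / q^n` elements. -/
def S_DSG : Prop :=
  ∀ (F V : Type) [Field F] [Finite F] [AddCommGroup V] [Module F V] [FiniteDimensional F V]
    (n : ℕ), Module.finrank F V = n → ∀ (I : Type) [Finite I] (T : I → (V →ₗ[F] V)),
    (∀ i, LinearMap.det (T i) = 1) → (∀ i, ∃ v, ∀ w, ∃ f : F[X], w = aeval (T i) f v) →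
    (∀ i, Nat.card {j // (T j).charpoly = (T i).charpoly} ≤ n) →
      Nat.card I * Nat.card (GL (Fin n) F) ≤ n * Nat.card F ^ n *
        Nat.card {y : SL n F // ∃ i, ∃ e : V ≃ₗ[F] (Fin n → F), ∀ x, y.1.mulVec (e x) = e (T i x)}

/-- **DS**. `V = K`, `[K : F] = n`, `I` the set of the `θ ∈ K` of order `N = nu q n` (`φ(N)` elements: `K^*` is cyclic of order
`(q - 1) N`), `T` the multiplication by `θ`. The determinant is the norm `θ^N = 1`. `F[θ] = K` (`S_GNE`: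
`N ≥ q^(n-1) + 1`), so `1` is a cyclic vector and the characteristic polynomial is the minimal polynomial of `θ`, irreducible,
with at most `n` roots. `S_DSG`: `φ(N) |GL_n| ≤ n q^n #TS`, `|GL_n| = (q - 1) |SL_n|`, `(q - 1) N = q^n - 1 ≥ q^n / 2`,
`N ≤ φ(N) lg q n` (`S_PHI`). -/
def S_DS : Prop :=
  ∀ (n : ℕ) (F : Type) [Field F] [Finite F], 3 ≤ n →
    Nat.card (SL n F) ≤ 4 * n * lg (Nat.card F) n * Nat.card {y : SL n F // TS y}

def M_DS : Prop := S_PHI → S_FXT → S_GNE → S_DSG → S_DS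

/-- **DZ**. `V = F × K`, `[K : F] = n - 1`, `I` the set of the `θ ∈ K` of order `N = q^(n-1) - 1`, `T (a, x) = (N_{K/F}(θ)⁻¹ a, θ x)`.
Determinant `1`, order `N` (the norm is a power of `θ`), characteristic polynomial `(X - c) p`, `p` the minimal polynomial of `θ`, of degree
`n - 1 ≥ 2`, prime to `X - c`: `(1, 1)` is a cyclic vector (Chinese remainder theorem); `p` determines `θ` up to at most `n - 1`
possibilities. `φ(N) (q - 1) |SL_n| ≤ n q^n #TZ`, `N (q - 1) ≥ (3/8) q^n`. -/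
def S_DZ : Prop :=
  ∀ (n : ℕ) (F : Type) [Field F] [Finite F], 3 ≤ n →
    Nat.card (SL n F) ≤ 4 * n * lg (Nat.card F) n * Nat.card {y : SL n F // TZ y}

def M_DZ : Prop := S_PHI → S_FXT → S_GNE → S_DSG → S_DZ

/-- **DT**. `V = F × F × K`, `[K : F] = n - 2`, `I` the set of the `θ ∈ K` of order `N = nu q (n - 2)`,
`T (a, b, x) = (a + b, b, θ x)`. Determinant `1` (the norm of `θ` is `θ^N = 1`), characteristic polynomial `(X - 1)² p`, `p` the minimal
polynomial of `θ` of degree `n - 2 ≥ 3`; `(0, 1, 1)` is a cyclic vector. `T^N (a, b, x) = (a + N b, b, x)`, `N = 1` in `F`: a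
transvection. `φ(N) (q - 1) |SL_n| ≤ n q^n #TT`, `N (q - 1) = q^(n-2) - 1 ≥ q^(n-2) / 2`. -/
def S_DT : Prop :=
  ∀ (n : ℕ) (F : Type) [Field F] [Finite F], 5 ≤ n →
    Nat.card (SL n F) ≤ 4 * Nat.card F ^ 2 * n * lg (Nat.card F) n * Nat.card {y : SL n F // TT y}

def M_DT : Prop := S_PHI → S_FXT → S_GNE → S_DSG → S_DT

/-- **STS**. `K = F[X]/(charpoly y)` (a field; `AdjoinRoot`), `F^n` is a vector space over `K` of dimension `1`. -/
def S_STS : Prop :=
  ∀ (n : ℕ) (F : Type) [Field F] [Finite F] (y : SL n F), 1 ≤ n → TS y →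
    ∃ (K : Type) (_ : Field K) (_ : Algebra F K) (_ : Finite K) (θ : K)
      (e : (Fin n → F) ≃ₗ[F] K), Module.finrank F K = n ∧ orderOf θ = nu (Nat.card F) n ∧
      ∀ v, e (y.1.mulVec v) = θ * e v

/-- **STZ**. `F^n = ker (y - c) ⊕ ker p(y)` (`p` is prime to `X - c`, its degree is `n - 1 ≥ 2`), `K = F[X]/(p)`, `θ` the class of `X`.
`det y = c N(θ) = 1`, so `c` is the inverse of a power of `θ` and the order of `y` is the order of `θ`. -/
def S_STZ : Prop :=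
  ∀ (n : ℕ) (F : Type) [Field F] [Finite F] (y : SL n F), 3 ≤ n → TZ y →
    ∃ (K : Type) (_ : Field K) (_ : Algebra F K) (_ : Finite K) (θ : K)
      (e : (Fin n → F) ≃ₗ[F] (F × K)), Module.finrank F K = n - 1 ∧
      orderOf θ = Nat.card F ^ (n - 1) - 1 ∧
      ∀ v, e (y.1.mulVec v) = ((Algebra.norm F θ)⁻¹ * (e v).1, θ * (e v).2)

/-! ## 5. Subgroups with special elements -/

/-- **TRN**. `N = nu q n`, `M₁ = nu q (n-1)`, `M = q^(n-1) - 1 = (q - 1) M₁`, `N = M₁ + M + 1`, `g = gcd (N, q - 1) = gcd (M₁ + 1, M)` (both are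
`gcd (n, q - 1)`: `N ≡ n`, `M₁ + 1 ≡ n` mod `q - 1`, `gcd (M₁, M₁ + 1) = 1`). Let `Ω` be the set of the `w ≠ 0` in `c H v`, `c ∈ F^*`.
By `S_STS` `Ω` is a subset of `K^*` closed under multiplication by `F^*` and by `θ` of order `N`, i.e. by a group of order
`N (q - 1) / g`: `|Ω| = a N (q - 1) / g`. By `S_STZ` `Ω ⊆ F × K`: the part with second coordinate `0` is empty or has
`q - 1` elements; the part with first coordinate `0` is empty or has all `M` elements; the rest is closed under `F^*` and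
`(x, y) ↦ (N(θ)⁻¹ x, θ y)`; for `x = 1` the `y` are closed under multiplication by `N(θ) θ = θ^(M₁ + 1)` of order `M / g`. So
`|Ω| = (q - 1) c + M e + (q - 1) b M / g`, `c, e ∈ {0, 1}`. Multiply by `g / (q - 1)`: `a N = g (c + e M₁) + b M`, so
`a (M₁ + 1) ≡ g (c + e M₁)` mod `M`, `1 ≤ a ≤ g ≤ q - 1`. If `a < g`: `0 < a (M₁ + 1) < M` (`q - 2 < M₁`).
`(c, e) = (0, 0)`: no. `(1, 0)`: `a (M₁ + 1) = g`, no (`g ≤ q - 1 < M₁ + 1`). `(0, 1)`: if `g M₁ = M` as `(0, 0)`, otherwise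
`a (M₁ + 1) = g M₁`, `M₁ + 1 ∣ g`, no. `(1, 1)`: `(g - a) (M₁ + 1) ≡ 0`, no. So `a = g`: `|Ω| = N (q - 1) = q^n - 1`. -/
def S_TRN : Prop :=
  ∀ (n : ℕ) (F : Type) [Field F] [Finite F] (H : Subgroup (SL n F)) (y z : SL n F), 3 ≤ n →
    y ∈ H → TS y → z ∈ H → TZ z → Trp H

def M_TRN : Prop := S_STS → S_STZ → S_TRN

/-- **GTV**. `e`, `K`, `θ` for `z` (`S_STZ`), `v₁ = e⁻¹ (1, 0)`, `z v₁ = λ v₁`, `λ = N(θ)⁻¹`. Conjugate `t` into `t' = 1 + v₁ ⊗ φ ∈ H`,
`φ ≠ 0`, `φ(v₁) = 0` (`h (1 + v ⊗ φ) h⁻¹ = 1 + h v ⊗ φ h⁻¹`). `A = {φ : φ(v₁) = 0, 1 + v₁ ⊗ φ ∈ H}` is an additive group. The functionals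
with `φ(v₁) = 0` are the `φ_κ (e⁻¹ (a, x)) = tr_{K/F}(κ x)`, `κ ∈ K`; `z (1 + v₁ ⊗ φ_κ) z⁻¹ = 1 + v₁ ⊗ φ_(λ θ⁻¹ κ)`. So
`{κ : φ_κ ∈ A}` is closed under addition and multiplication by `ξ = λ θ⁻¹ = θ^(-(M₁ + 1))`, `M₁ = nu q (n - 1)`, hence by the ring generated by
`ξ`. The order of `ξ` is at least `M / (q - 1) = M₁ ≥ q^(n-2) + 1` (`gcd (M, M₁ + 1) = gcd (q - 1, M₁ + 1)`, `M = (q - 1) M₁`), and
`(M₁ + 1)² > q^(n-1)`: `S_GNE`, the ring is `K`, so `A` consists of all `φ` with `φ(v₁) = 0`. By transitivity `H` contains all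
transvections, which generate `SL_n` (`FLC/HV.lean`, or Mathlib). -/
def S_GTV : Prop :=
  ∀ (n : ℕ) (F : Type) [Field F] [Finite F] (H : Subgroup (SL n F)) (z t : SL n F), 3 ≤ n →
    Trp H → z ∈ H → TZ z → t ∈ H → Tv t → H = ⊤

def M_GTV : Prop := S_STZ → S_GNE → S_GTV

/-- **INC**. Over the field with `p = char F` elements let `B` be the matrix with rows and columns the nonzero vectors,
`B v w = 1` if `a v ⬝ᵥ w = 0`, otherwise `0`. It is symmetric, with trace `0`. `(B²) v w` is the number of the `x ≠ 0` with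
`a v ⬝ᵥ x = 0 = a w ⬝ᵥ x` (`a v ≠ 0`): `q^(n-1) - 1` or `q^(n-2) - 1`, so `-1` in the field: `B² = - J`, `J` the all one matrix. The row sums
are `q^(n-1) - 1 = -1`: `B J = - J`, so `B^k = (-1)^(k-1) J` for `k ≥ 2`, `tr (B^p) = (-1)^(p-1) (q^n - 1) = (-1)^p = -1 ≠ 0`
(also for `p = 2`), but `tr (B^p) = (tr B)^p = 0` (`Matrix.trace_pow_card` or the like, `ZMod p`). -/
def S_INC : Prop :=
  ∀ (n : ℕ) (F : Type) [Field F] [Finite F], 3 ≤ n → ∀ a : (Fin n → F) → (Fin n → F),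
    (∀ v, v ≠ 0 → a v ⬝ᵥ v ≠ 0) → (∀ v w, v ≠ 0 → w ≠ 0 → a v ⬝ᵥ w = 0 → a w ⬝ᵥ v = 0) → False

/-- **HOM**. Suppose that `H` contains no transvection `≠ 1`. `e`, `K`, `θ` for `z`; `ν = N(θ)` has the order `q - 1` (the norm is
`θ^(M₁)`, `M₁ = nu q (n-1)`). `z^(M₁)` acts as `ν` on `K` and as `ν^(-M₁) = ν^(-(n-1))` on `F × 0` (`M₁ ≡ n - 1` mod `q - 1`), so
`z^(M₁) = ν (1 + v₁ ⊗ φ₁)`, `φ₁(v₁) = τ = ν^(-n) - 1 ≠ 0` (`q - 1 ∤ n`). For `v ≠ 0`, conjugating with `h ∈ H`, `h v₁ = c v`, there is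
a functional `a v` with `(a v)(v) = τ` and `g_v = ν (1 + v ⊗ a v) ∈ H`. It is unique: for two, `g g'⁻¹ = 1 + v ⊗ ψ`, and its
determinant is `1`, so `ψ(v) = 0` and it is a transvection or `1`. Let `(a v)(w) = 0`, `v, w ≠ 0`. `g_v w = ν w`, so
`g_v g_w g_v⁻¹ = ν (1 + w ⊗ ν (a w) g_v⁻¹) ∈ H`, with `ν (a w)(g_v⁻¹ w) = τ`: by uniqueness `ν (a w) = (a w) g_v`, i.e.
`ν (a w)(x) = ν (a w)(x) + ν (a v)(x) (a w)(v)` for all `x`, so `(a w)(v) = 0`. `S_INC`. -/
def S_HOM : Prop :=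
  ∀ (n : ℕ) (F : Type) [Field F] [Finite F] (H : Subgroup (SL n F)) (z : SL n F), 3 ≤ n →
    Trp H → z ∈ H → TZ z → ¬ (Nat.card F - 1) ∣ n → ∃ t ∈ H, Tv t

def M_HOM : Prop := S_STZ → S_INC → S_HOM

/-! ## 6. Generation -/

/-- **GNR**. For `y` with `Gd D m (charpoly y)` and `smd D (charpoly y) ≤ s`, `1 ≤ k < m` and an irreducible `X ≠ 1` of `SL_n`:
`‖X (y^k)‖² ≤ q^(s² + s + n)` (`S_COR`, `S_PWC`), `‖X 1‖ ≥ q^(n-1) - 1` (`S_MIN`): `‖X (y^k)‖ ≤ M ‖X 1‖`, `M = Mc q n s`. `S_SEC` for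
`P` = the sets of the `TS`, `TZ`, `TT` elements (invariant under conjugation): the number of the `x` such that no `x y^i`, `i < m`, is in `P`
is at most `|G| (1/m + M) |G| / |P|`, with `|G| / |P| ≤ 4 n lg`, `4 n lg`, `4 q² n lg` (`S_DS`, `S_DZ`, `S_DT`). For the other `x`
the group generated by `x` and `y` contains elements of all three types (`TT` is not needed if `q - 1 ∤ n`, `S_HOM`), so it is
`SL_n` (`S_TRN`, `S_GTV`). -/
def S_GNR : Prop :=
  ∀ (n : ℕ) (F : Type) [Field F] [Finite F] (D m s : ℕ), 5 ≤ n → 1 ≤ m →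
    ngp (SL n F) ≤ bet n F D m s +
      (1 / (m : ℝ) + Mc (Nat.card F) n s) * (12 * (Nat.card F : ℝ) ^ 2 * n * lg (Nat.card F) n) ∧
    (¬ (Nat.card F - 1) ∣ n → ngp (SL n F) ≤ bet n F D m s +
      (1 / (m : ℝ) + Mc (Nat.card F) n s) * (8 * (n : ℝ) * lg (Nat.card F) n))

def M_GNR : Prop :=
  S_SEC → S_COR → S_MIN → S_PWC → S_DS → S_DZ → S_DT → S_TRN → S_GTV → S_HOM → S_GNR

/-- **GNA**, `q ≤ n^12`. `L = Nat.log 2 n + 1`, `D = 8 + 20 L`, `m = q² n⁴`, `s = ⌊√n⌋ / 4` (`Nat.sqrt n / 4`), first claim of `S_GNR`.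
`lg ≤ n log₂ q + 1 ≤ 13 n²`: `(1/m) 12 q² n · 13 n² ≤ 156 / n`. `Mc ≤ 2 q^(1 - n/2 + n/32 + √n/8)`, times `156 q² n³` tends to `0`
(`q ≥ 2`, `n → ∞`, e.g. `≤ 312 n³ q^(3 - n/4)`). `bet`: Markov with `S_SML`: at most `C (D+1)² / (s+1)`, and by `S_LRG` at most
`C m² n q^(-(D+1)/2) ≤ C q⁴ n⁹ q^(-4.5) 2^(-10 L) ≤ C / n`. All tend to `0` as `n → ∞`; and `N ≤ |PS n F| ≤ q^(n²) ≤ n^(12 n²)` makes `n`
large. (`2 D + 8 ≤ n` for large `n`.) -/
def S_GNA : Prop :=
  ∃ r : ℕ, ∀ ε : ℝ, 0 < ε → ∃ N : ℕ, ∀ n, r ≤ n → ∀ (F : Type) [Field F] [Finite F],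
    Nat.card F ≤ n ^ 12 → N ≤ Nat.card (PS n F) → ngp (SL n F) ≤ ε

def M_GNA : Prop := S_GNR → S_SML → S_LRG → S_GNA

/-- **GNB**, `q > n^12`, `r = 8`. `q - 1 > n`, so `q - 1 ∤ n`: second claim of `S_GNR` with `D = 0`, `s = 0`,
`m = n⁴ (Nat.log 2 q + 1)²`. `smd 0 f = 0` (irreducible polynomials have positive degree). `S_LRG`:
`C m² n / q ≤ C n⁹ (log₂ q + 1)⁴ / q ≤ C (log₂ q + 1)⁴ q^(-1/4)`. `lg ≤ 2 n (log₂ q + 1)`: `(1/m) 16 n² (log₂ q + 1) ≤ 16 / (log₂ q + 1)` (with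
`Nat.log 2 q + 1 ≥ log₂ q` and `n² ≥ 1`), `Mc ≤ 2 q^(1 - n/2) ≤ 2 q^(-3)`, times `16 n² (log₂ q + 1) ≤ 16 q (log₂ q + 1)`. All tend to `0` as
`q → ∞`; and `N ≤ |PS n F| ≤ q^(n²) ≤ q^(q)` makes `q` large. -/
def S_GNB : Prop :=
  ∃ r : ℕ, ∀ ε : ℝ, 0 < ε → ∃ N : ℕ, ∀ n, r ≤ n → ∀ (F : Type) [Field F] [Finite F],
    n ^ 12 < Nat.card F → N ≤ Nat.card (PS n F) → ngp (SL n F) ≤ ε

def M_GNB : Prop := S_GNR → S_LRG → S_GNB

/-- **GEN**: two random elements of `PSL_n(q)` generate it. Images of generating pairs generate, and all fibres of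
`SL_n × SL_n → PSL_n × PSL_n` have the same size: `ngp (PS n F) ≤ ngp (SL n F)`. -/
def S_GEN : Prop :=
  ∃ r : ℕ, ∀ ε : ℝ, 0 < ε → ∃ N : ℕ, ∀ n, r ≤ n → ∀ (F : Type) [Field F] [Finite F],
    N ≤ Nat.card (PS n F) → ngp (PS n F) ≤ ε

def M_GEN : Prop := S_GNA → S_GNB → S_GEN

/-! ## The theorem -/

/-- Q1 for the family `PSL_n(q)`, `n ≥ r`, all `q`, and the groups of the four open classes with sufficiently many periods. A period
`k` has the weight `1 - 1/k` if `k (n, q-1) ∣ q - 1` and `1/4` otherwise, so five periods are always enough for a list of weight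
larger than `1`. -/
def Main : Prop :=
  ∀ m₁ m₂ m₃ : List ℕ, (∀ k ∈ m₁ ++ m₂ ++ m₃, 2 ≤ k) → ∃ r : ℕ, ∀ ε : ℝ, 0 < ε → ∃ N : ℕ,
    ∀ n, r ≤ n → ∀ (F : Type) [Field F] [Finite F], N ≤ Nat.card (PS n F) → 1 < Wt n F m₁ →
      1 - ε ≤ prob (OGroup 1 m₁) (PS n F) (fun ρ => Function.Surjective ρ) ∧
      1 - ε ≤ prob (NGroup 2 m₁) (PS n F) (fun ρ => Function.Surjective ρ) ∧
      (1 < Wt n F m₂ →
        1 - ε ≤ prob (NGroup 1 (m₁ ++ m₂)) (PS n F) (fun ρ => Function.Surjective ρ) ∧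
        (1 < Wt n F m₃ →
          1 - ε ≤ prob (OGroup 0 (m₁ ++ m₂ ++ m₃)) (PS n F) (fun ρ => Function.Surjective ρ)))

/-- **MAIN**. `S_NUX` for the three lists (`c`, `r` the minimum, maximum), `δ = q^(-c n / 2)`, `S_ZEP`, `S_GEN` with `ε/4`, `S_TVB`,
`S_TVA`, `S_TVO`: `2 ngp + 8 δ ≤ ε/2 + 8 q^(-c n/2) ≤ ε`, because `q^(n²) ≥ |PS n F| ≥ N` makes `q^(n)` large: `q^n → ∞` when
`q^(n²) → ∞` (`q^n ≥ 2^n` and `q^n ≥ q`). -/
def M_MAIN : Prop :=
  S_NUX → S_ZEP → S_TVB → S_TVA → S_TVO → S_GEN → Main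

end

end SRJ
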