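import Mathlib
import Pool.Agent.SRJ.StB

/-!
# CKV: the powers of an element with a good characteristic polynomial have a cyclic summand
-/

set_option autoImplicit false

namespace SRJ

open Polynomial

section

variable {F V : Type} [Field F] [AddCommGroup V] [Module F V] [FiniteDimensional F V]

omit [FiniteDimensional F V] in
theorem ckv_restrict (w : V →ₗ[F] V) (W : Submodule F V) (hW : ∀ x ∈ W, w x ∈ W) (f : F[X])
    (x : W) : ((aeval (w.restrict hW) f x : W) : V) = aeval w f x := by
  induction f using Polynomial.induction_on' with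
  | add p q hp hq => simp [hp, hq]
  | monomial n a =>
    simp only [aeval_monomial, Module.End.mul_apply, Module.algebraMap_end_apply,
      Submodule.coe_smul]
    congr 1
    induction n generalizing x with
    | zero => simp
    | succ n ih =>
      rw [pow_succ, pow_succ, Module.End.mul_apply, Module.End.mul_apply, ih]
      rfl

/-- the roots of the characteristic polynomial are roots of every annihilating polynomial -/
theorem ckv_root (u : V →ₗ[F] V) (h : F[X]) (hh : aeval u h = 0) (α : AlgebraicClosure F)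
    (hα : aeval α u.charpoly = 0) : aeval α h = 0 := by
  have h1 : (u.baseChange (AlgebraicClosure F)).charpoly.IsRoot α := by
    rw [LinearMap.charpoly_baseChange, IsRoot, eval_map_algebraMap]
    exact hα
  have h2 := (Module.End.hasEigenvalue_iff_isRoot_charpoly _ _).2 h1
  have h3 := (Module.End.hasEigenvalue_iff_isRoot).1 h2
  have h4 : minpoly (AlgebraicClosure F) (u.baseChange (AlgebraicClosure F)) ∣
      h.map (algebraMap F (AlgebraicClosure F)) := by
    refine minpoly.dvd _ _ ?_
    rw [aeval_map_algebraMap]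
    have h5 := aeval_algHom_apply (Module.End.baseChangeHom F (AlgebraicClosure F) V) u h
    rw [hh, map_zero] at h5
    exact h5
  have h5 := h3.dvd h4
  rwa [IsRoot, eval_map_algebraMap] at h5

/-- the primary decomposition with two coprime factors -/
theorem ckv_dim (w : V →ₗ[F] V) (f₁ f₂ : F[X]) (hc : IsCoprime f₁ f₂)
    (ha : Associated (f₁ * f₂) w.charpoly)
    (h₁ : ∀ x ∈ LinearMap.ker (aeval w f₁), w x ∈ LinearMap.ker (aeval w f₁))
    (h₂ : ∀ x ∈ LinearMap.ker (aeval w f₂), w x ∈ LinearMap.ker (aeval w f₂)) :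
    IsCompl (LinearMap.ker (aeval w f₁)) (LinearMap.ker (aeval w f₂)) ∧
      Module.finrank F (LinearMap.ker (aeval w f₁)) = f₁.natDegree ∧
      Module.finrank F (LinearMap.ker (aeval w f₂)) = f₂.natDegree ∧
      f₂ ∣ (w.restrict h₂).charpoly := by
  have h0 : aeval w (f₁ * f₂) = 0 := by
    obtain ⟨c, hc'⟩ := ha.symm
    rw [← hc', map_mul, LinearMap.aeval_self_charpoly, zero_mul]
  have hcompl : IsCompl (LinearMap.ker (aeval w f₁)) (LinearMap.ker (aeval w f₂)) := by
    refine ⟨disjoint_ker_aeval_of_isCoprime w hc, ?_⟩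
    rw [codisjoint_iff, sup_ker_aeval_eq_ker_aeval_mul_of_coprime w hc, h0, LinearMap.ker_zero]
  obtain ⟨u₁, hu₁⟩ : ∃ u, u = w.restrict h₁ := ⟨_, rfl⟩
  obtain ⟨u₂, hu₂⟩ : ∃ u, u = w.restrict h₂ := ⟨_, rfl⟩
  have hprod : w.charpoly = u₁.charpoly * u₂.charpoly := by
    rw [← LinearMap.charpoly_prodMap,
      ← LinearEquiv.charpoly_conj (Submodule.prodEquivOfIsCompl _ _ hcompl) (u₁.prodMap u₂)]
    congr 1
    ext x
    obtain ⟨⟨a, b⟩, rfl⟩ := (Submodule.prodEquivOfIsCompl _ _ hcompl).surjective x
    simp [LinearEquiv.conj_apply, hu₁, hu₂, LinearMap.restrict_apply]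
  have hz₁ : aeval u₁ f₁ = 0 := by
    ext x
    rw [hu₁, ckv_restrict]
    exact x.2
  have hz₂ : aeval u₂ f₂ = 0 := by
    ext x
    rw [hu₂, ckv_restrict]
    exact x.2
  have hco := (isCoprime_iff_aeval_ne_zero_of_isAlgClosed F (AlgebraicClosure F) f₁ f₂).1 hc
  have hc₁ : IsCoprime u₁.charpoly f₂ := by
    rw [isCoprime_iff_aeval_ne_zero_of_isAlgClosed F (AlgebraicClosure F)]
    intro α
    by_cases h : aeval α u₁.charpoly = 0
    · right
      rcases hco α with h' | h'
      · exact absurd (ckv_root u₁ f₁ hz₁ α h) h'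
      · exact h'
    · exact Or.inl h
  have hc₂ : IsCoprime u₂.charpoly f₁ := by
    rw [isCoprime_iff_aeval_ne_zero_of_isAlgClosed F (AlgebraicClosure F)]
    intro α
    by_cases h : aeval α u₂.charpoly = 0
    · right
      rcases hco α with h' | h'
      · exact h'
      · exact absurd (ckv_root u₂ f₂ hz₂ α h) h'
    · exact Or.inl h
  rw [hprod] at ha
  have d1 : u₁.charpoly ∣ f₁ := hc₁.dvd_of_dvd_mul_right ((dvd_mul_right _ _).trans ha.symm.dvd)
  have d2 : u₂.charpoly ∣ f₂ := hc₂.dvd_of_dvd_mul_left ((dvd_mul_left _ _).trans ha.symm.dvd)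
  have d3 : f₁ ∣ u₁.charpoly :=
    hc₂.symm.dvd_of_dvd_mul_right ((dvd_mul_right _ _).trans ha.dvd)
  have d4 : f₂ ∣ u₂.charpoly :=
    hc₁.symm.dvd_of_dvd_mul_left ((dvd_mul_left _ _).trans ha.dvd)
  refine ⟨hcompl, ?_, ?_, hu₂ ▸ d4⟩
  · rw [← LinearMap.charpoly_natDegree u₁]
    exact natDegree_eq_of_degree_eq (degree_eq_degree_of_associated (associated_of_dvd_dvd d1 d3))
  · rw [← LinearMap.charpoly_natDegree u₂]
    exact natDegree_eq_of_degree_eq (degree_eq_degree_of_associated (associated_of_dvd_dvd d2 d4))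

/-- a cyclic vector -/
theorem ckv_cyc (u : V →ₗ[F] V)
    (h : ∀ g : F[X], g ≠ 0 → aeval u g = 0 → Module.finrank F V ≤ g.natDegree) :
    ∃ v : V, ∀ x : V, ∃ f : F[X], x = aeval u f v := by
  classical
  obtain ⟨x, hx⟩ := Module.exists_ker_toSpanSingleton_eq_annihilator F[X] (Module.AEval' u)
  obtain ⟨v, rfl⟩ := (Module.AEval'.of _).surjective x
  have key : ∀ f : F[X], aeval u f v = 0 → aeval u f = 0 := by
    intro f hf
    have h1 : f ∈ LinearMap.ker (LinearMap.toSpanSingleton F[X] (Module.AEval' u)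
        (Module.AEval'.of u v)) := by
      rw [LinearMap.mem_ker, LinearMap.toSpanSingleton_apply]
      rw [← Module.AEval.of_aeval_smul]
      simp [hf]
    rw [hx, Module.mem_annihilator] at h1
    ext y
    have h2 := h1 (Module.AEval'.of u y)
    rw [← Module.AEval.of_aeval_smul] at h2
    simpa using h2
  let Φ : degreeLT F (Module.finrank F V) →ₗ[F] V :=
    { toFun := fun f => aeval u (f : F[X]) v
      map_add' := fun a b => by simp
      map_smul' := fun c a => by simp }
  have hΦ : Function.Injective Φ := by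
    rw [← LinearMap.ker_eq_bot, LinearMap.ker_eq_bot']
    intro f hf
    apply Subtype.ext
    by_contra hne
    have h1 := h f hne (key f hf)
    have h2 := mem_degreeLT.1 f.2
    rw [degree_eq_natDegree hne] at h2
    have h3 : (f : F[X]).natDegree < Module.finrank F V := by exact_mod_cast h2
    omega
  have hdim : Module.finrank F (degreeLT F (Module.finrank F V)) = Module.finrank F V := by
    rw [LinearEquiv.finrank_eq (degreeLTEquiv F (Module.finrank F V))]
    simp
  have hs : Function.Surjective Φ := by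
    have : FiniteDimensional F (degreeLT F (Module.finrank F V)) :=
      (degreeLTEquiv F (Module.finrank F V)).symm.finiteDimensional
    exact (LinearMap.injective_iff_surjective_of_finrank_eq_finrank hdim).1 hΦ
  exact ⟨v, fun x => by
    obtain ⟨f, hf⟩ := hs x
    exact ⟨f, hf.symm⟩⟩

end

theorem t_CKV : S_CKV := by
  classical
  intro n F _ _ D m y hG k hk1 hkm
  obtain ⟨w, hw⟩ : ∃ w, w = Matrix.toLin' y.1 := ⟨_, rfl⟩
  have hchar : w.charpoly = y.1.charpoly := by rw [hw, Matrix.charpoly_toLin']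
  obtain ⟨f, hf⟩ : ∃ f, f = y.1.charpoly := ⟨_, rfl⟩
  have hf0 : f ≠ 0 := hf ▸ (Matrix.charpoly_monic _).ne_zero
  rw [← hf] at hG
  obtain ⟨S, hS⟩ : ∃ S, S = UniqueFactorizationMonoid.factors f := ⟨_, rfl⟩
  have hirr : ∀ p ∈ S, Irreducible p := fun p hp =>
    UniqueFactorizationMonoid.irreducible_of_factor p (hS ▸ hp)
  have hSprod : Associated S.prod f := hS ▸ UniqueFactorizationMonoid.factors_prod hf0
  obtain ⟨S₁, hS₁⟩ : ∃ S₁, S₁ = S.filter fun p => p.natDegree ≤ D := ⟨_, rfl⟩
  obtain ⟨S₂, hS₂⟩ : ∃ S₂, S₂ = S.filter fun p => ¬ p.natDegree ≤ D := ⟨_, rfl⟩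
  have hadd : S₁ + S₂ = S := by rw [hS₁, hS₂]; exact Multiset.filter_add_not _ _
  have m1 : ∀ p ∈ S₁, Irreducible p ∧ p.natDegree ≤ D := by
    intro p hp
    rw [hS₁, Multiset.mem_filter] at hp
    exact ⟨hirr p hp.1, hp.2⟩
  have m2 : ∀ p ∈ S₂, Irreducible p ∧ D < p.natDegree := by
    intro p hp
    rw [hS₂, Multiset.mem_filter] at hp
    exact ⟨hirr p hp.1, not_le.1 hp.2⟩
  have hass : Associated (S₁.prod * S₂.prod) w.charpoly := by
    rw [← Multiset.prod_add, hadd, hchar, ← hf]
    exact hSprod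
  have hd2 : S₂.prod ∣ f := by
    refine Dvd.dvd.trans ?_ hSprod.dvd
    rw [← hadd, Multiset.prod_add]
    exact dvd_mul_left _ _
  have h20 : S₂.prod ≠ 0 := fun h => hf0 (zero_dvd_iff.1 (h ▸ hd2))
  -- an irreducible divisor of `S₂.prod` is large
  have big : ∀ p : F[X], p.Monic → Irreducible p → p ∣ S₂.prod → Big D f p := by
    intro p hpm hp hpd
    obtain ⟨p', hp', hdvd⟩ := hp.prime.exists_mem_multiset_dvd hpd
    have ha := hp.associated_of_dvd (m2 p' hp').1 hdvd
    refine ⟨hpm, hp, hpd.trans hd2, ?_⟩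
    rw [natDegree_eq_of_degree_eq (degree_eq_degree_of_associated ha)]
    exact (m2 p' hp').2
  have hcop : IsCoprime S₁.prod S₂.prod := by
    refine isCoprime_of_irreducible_dvd (fun h => h20 h.2) fun z hz h1 h2 => ?_
    obtain ⟨p, hp, hd⟩ := hz.prime.exists_mem_multiset_dvd h1
    obtain ⟨p', hp', hd'⟩ := hz.prime.exists_mem_multiset_dvd h2
    have e1 := natDegree_eq_of_degree_eq
      (degree_eq_degree_of_associated (hz.associated_of_dvd (m1 p hp).1 hd))
    have e2 := natDegree_eq_of_degree_eq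
      (degree_eq_degree_of_associated (hz.associated_of_dvd (m2 p' hp').1 hd'))
    have e3 := (m1 p hp).2
    have e4 := (m2 p' hp').2
    omega
  have inv : ∀ g : F[X], ∀ x ∈ LinearMap.ker (aeval w g), w x ∈ LinearMap.ker (aeval w g) := by
    intro g x hx
    rw [LinearMap.mem_ker] at hx ⊢
    have e : aeval w g * w = w * aeval w g := by
      calc aeval w g * w = aeval w (g * X) := by rw [map_mul, aeval_X]
        _ = aeval w (X * g) := by rw [mul_comm]
        _ = w * aeval w g := by rw [map_mul, aeval_X]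
    have := LinearMap.congr_fun e x
    rw [Module.End.mul_apply, Module.End.mul_apply, hx, map_zero] at this
    exact this
  obtain ⟨c1, c2, c3, c4⟩ := ckv_dim w S₁.prod S₂.prod hcop hass (inv _) (inv _)
  have powinv : ∀ (W : Submodule F (Fin n → F)), (∀ x ∈ W, w x ∈ W) → ∀ j : ℕ, ∀ x ∈ W,
      (w ^ j) x ∈ W := by
    intro W hW j
    induction j with
    | zero => intro x hx; simpa using hx
    | succ j ih =>
      intro x hx
      rw [pow_succ, Module.End.mul_apply]
      exact ih _ (hW x hx)
  have hwk : Matrix.toLin' (y.1 ^ k) = w ^ k := by rw [hw, Matrix.toLin'_pow]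
  obtain ⟨V₂, hV₂⟩ : ∃ V₂, V₂ = LinearMap.ker (aeval w S₂.prod) := ⟨_, rfl⟩
  refine ⟨LinearMap.ker (aeval w S₁.prod), LinearMap.ker (aeval w S₂.prod), c1, ?_, ?_, ?_, ?_⟩
  · rw [c2, smd, ← hf, ← hS, natDegree_multiset_prod]
    · rw [hS₁]
    · intro h
      exact not_irreducible_zero (m1 0 h).1
  · rw [hwk]
    exact powinv _ (inv _) k
  · rw [hwk]
    exact powinv _ (inv _) k
  · -- the restriction
    obtain ⟨u, hu⟩ : ∃ u, u = w.restrict (inv S₂.prod) := ⟨_, rfl⟩
    rw [← hu] at c4
    have hsq : Squarefree S₂.prod := by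
      rw [squarefree_iff_irreducible_sq_not_dvd_of_ne_zero h20]
      intro x hx hxx
      have hmon := monic_normalize hx.ne_zero
      have hassoc : Associated x (normalize x) := (normalize_associated x).symm
      have hirr' : Irreducible (normalize x) := hassoc.irreducible hx
      have hb := big _ hmon hirr' (hassoc.symm.dvd.trans ((dvd_mul_right x x).trans hxx))
      refine hG.1 _ hb ?_
      rw [pow_two]
      exact ((hassoc.mul_mul hassoc).symm.dvd.trans hxx).trans hd2
    have hsep : S₂.prod.Separable := PerfectField.separable_iff_squarefree.2 hsq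
    have hcyc : ∀ g : F[X], g ≠ 0 → aeval (u ^ k) g = 0 →
        Module.finrank F (LinearMap.ker (aeval w S₂.prod)) ≤ g.natDegree := by
      intro g hg hgu
      rw [c3]
      have hr : ∀ α : AlgebraicClosure F, aeval α S₂.prod = 0 → aeval (α ^ k) g = 0 := by
        intro α hα
        have h1 : aeval u (g.comp (X ^ k)) = 0 := by
          rw [aeval_comp, map_pow, aeval_X]
          exact hgu
        have h2 := ckv_root u _ h1 α (by
          obtain ⟨c, hc⟩ := c4
          rw [hc, map_mul, hα, zero_mul])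
        rw [aeval_comp, map_pow, aeval_X] at h2
        exact h2
      have fac : ∀ α : AlgebraicClosure F, aeval α S₂.prod = 0 → ∃ p, Big D f p ∧
          aeval α p = 0 := by
        intro α hα
        refine ⟨minpoly F α, ?_, minpoly.aeval _ _⟩
        exact big _ (minpoly.monic (Algebra.IsIntegral.isIntegral α))
          (minpoly.irreducible (Algebra.IsIntegral.isIntegral α)) (minpoly.dvd _ _ hα)
      have hcard := card_rootSet_eq_natDegree (K := AlgebraicClosure F) hsep
        (IsAlgClosed.splits _)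
      have hmap : Function.Injective
          (fun α : S₂.prod.rootSet (AlgebraicClosure F) =>
            (⟨α.1 ^ k, by
              rw [mem_rootSet]
              exact ⟨hg, hr _ (mem_rootSet.1 α.2).2⟩⟩ : g.rootSet (AlgebraicClosure F))) := by
        rintro ⟨α, hα⟩ ⟨β, hβ⟩ h
        have h1 : α ^ k = β ^ k := congrArg Subtype.val h
        obtain ⟨p, hp, hpα⟩ := fac α (mem_rootSet.1 hα).2
        obtain ⟨p', hp', hpβ⟩ := fac β (mem_rootSet.1 hβ).2
        apply Subtype.ext
        by_contra hne
        exact hG.2 p p' hp hp' α β hpα hpβ hne k hk1 hkm h1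
      have h1 := Fintype.card_le_of_injective _ hmap
      rw [hcard] at h1
      refine h1.trans ?_
      rw [← Nat.card_eq_fintype_card]
      exact ncard_rootSet_le g _
    obtain ⟨v, hv⟩ := ckv_cyc (u ^ k) hcyc
    refine ⟨v, v.2, fun x hx => ?_⟩
    obtain ⟨g, hg⟩ := hv ⟨x, hx⟩
    refine ⟨g, ?_⟩
    rw [hwk]
    have h1 : x = ((aeval (u ^ k) g v : LinearMap.ker (aeval w S₂.prod)) : Fin n → F) :=
      congrArg Subtype.val hg
    have h2 : aeval (u ^ k) g = aeval u (g.comp (X ^ k)) := by
      rw [aeval_comp, map_pow, aeval_X]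
    rw [h2, hu, ckv_restrict, aeval_comp, map_pow, aeval_X] at h1
    exact h1

end SRJ
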