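import Mathlib
import Pool.Agent.SRJ.StB

/-!
# Module CNA: irreducible polynomials with two roots with the same `k`-th power
-/

set_option autoImplicit false

namespace SRJ

open Polynomial

noncomputable section

/-- The roots of an irreducible polynomial of degree `d` over the finite field with `q` elements are `α ^ (q ^ j)`. -/
theorem cna_root {F : Type} [Field F] [Finite F] {p : F[X]} (hm : p.Monic) (hi : Irreducible p)
    {α β : AlgebraicClosure F} (hα : aeval α p = 0) (hβ : aeval β p = 0) :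
    (∃ j, j < p.natDegree ∧ β = α ^ (Nat.card F ^ j)) ∧
      α ^ (Nat.card F ^ p.natDegree) = α := by
  classical
  have := Fintype.ofFinite F
  have hint : IsIntegral F α := ⟨p, hm, hα⟩
  have hpa : minpoly F α = p := (minpoly.eq_of_irreducible_of_monic hi hα hm).symm
  have hpb : minpoly F β = p := (minpoly.eq_of_irreducible_of_monic hi hβ hm).symm
  have : FiniteDimensional F (IntermediateField.adjoin F {α}) :=
    IntermediateField.adjoin.finiteDimensional hint
  have : Finite (IntermediateField.adjoin F {α}) := Module.finite_of_finite F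
  have := Fintype.ofFinite (IntermediateField.adjoin F {α})
  have hd : Module.finrank F (IntermediateField.adjoin F {α}) = p.natDegree := by
    rw [IntermediateField.adjoin.finrank hint, hpa]
  have hq : Nat.card F = Fintype.card F := Nat.card_eq_fintype_card
  refine ⟨?_, ?_⟩
  · have hc : IsConjRoot F β α := by rw [isConjRoot_def, hpa, hpb]
    obtain ⟨σ, hσ⟩ := hc.exists_algEquiv
    obtain ⟨n, hn⟩ := (FiniteField.bijective_frobeniusAlgEquivOfAlgebraic_pow F
      (IntermediateField.adjoin F {α})).2 (AlgEquiv.restrictNormal σ (IntermediateField.adjoin F {α}))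
    refine ⟨n.1, ?_, ?_⟩
    · rw [← hd]
      exact n.2
    · have h1 := AlgEquiv.restrictNormal_commutes σ (IntermediateField.adjoin F {α})
        (IntermediateField.AdjoinSimple.gen F α)
      rw [← hn] at h1
      have h2 : (algebraMap (IntermediateField.adjoin F {α}) (AlgebraicClosure F))
          (IntermediateField.AdjoinSimple.gen F α) = α := IntermediateField.AdjoinSimple.algebraMap_gen F α
      rw [h2, hσ] at h1
      rw [← h1, hq]
      simp only [AlgEquiv.coe_pow, FiniteField.coe_frobeniusAlgEquivOfAlgebraic_iterate, map_pow, h2]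
  · have h3 := FiniteField.pow_card (IntermediateField.AdjoinSimple.gen F α)
    rw [Module.card_eq_pow_finrank (K := F), hd] at h3
    have h2 : (algebraMap (IntermediateField.adjoin F {α}) (AlgebraicClosure F))
        (IntermediateField.AdjoinSimple.gen F α) = α := IntermediateField.AdjoinSimple.algebraMap_gen F α
    have h4 := congrArg (algebraMap (IntermediateField.adjoin F {α}) (AlgebraicClosure F)) h3
    rw [map_pow, h2] at h4
    rw [hq]
    exact h4

theorem cna_gcd (q d k j : ℕ) (hq : 1 ≤ q) (hk : 1 ≤ k) (hj : 1 ≤ j) (hjd : j < d) :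
    2 * Nat.gcd j d ≤ d ∧ Nat.gcd (k * (q ^ j - 1)) (q ^ d - 1) ≤ k * q ^ Nat.gcd j d := by
  refine ⟨?_, ?_⟩
  · obtain ⟨m, hm⟩ := Nat.gcd_dvd_right j d
    have h1 : Nat.gcd j d ≤ j := Nat.gcd_le_left d hj
    have h0 : 0 < Nat.gcd j d := Nat.gcd_pos_of_pos_left d hj
    have h2 : 2 ≤ m := by
      by_contra hlt
      have h3 : m ≤ 1 := by omega
      have h4 : Nat.gcd j d * m ≤ Nat.gcd j d * 1 := Nat.mul_le_mul_left _ h3
      omega
    calc 2 * Nat.gcd j d = Nat.gcd j d * 2 := Nat.mul_comm _ _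
      _ ≤ Nat.gcd j d * m := Nat.mul_le_mul_left _ h2
      _ = d := hm.symm
  · by_cases h0 : q ^ Nat.gcd j d - 1 = 0
    · have h1 : q ^ Nat.gcd j d ≤ 1 := by omega
      have hq1 : q = 1 := by
        by_contra hne
        have h2 : 2 ≤ q := by omega
        have h3 : 2 ^ Nat.gcd j d ≤ q ^ Nat.gcd j d := Nat.pow_le_pow_left h2 _
        have h4 : 2 ^ 1 ≤ 2 ^ Nat.gcd j d :=
          Nat.pow_le_pow_right (by norm_num) (Nat.gcd_pos_of_pos_left d hj)
        omega
      subst hq1
      simp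
    · have hdvd : Nat.gcd (k * (q ^ j - 1)) (q ^ d - 1) ∣ k * Nat.gcd (q ^ j - 1) (q ^ d - 1) := by
        rw [Nat.gcd_comm]
        refine (Nat.gcd_mul_right_dvd_mul_gcd _ _ _).trans ?_
        rw [Nat.gcd_comm (q ^ d - 1) (q ^ j - 1)]
        exact Nat.mul_dvd_mul_right (Nat.gcd_dvd_right _ _) _
      rw [Nat.pow_sub_one_gcd_pow_sub_one] at hdvd
      have hle := Nat.le_of_dvd (Nat.mul_pos hk (Nat.pos_of_ne_zero h0)) hdvd
      exact hle.trans (Nat.mul_le_mul_left _ (Nat.sub_le _ _))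

theorem t_CNA : S_CNA := by
  intro F _ _ d k hk hd
  classical
  have := Fintype.ofFinite F
  set q := Nat.card F with hqdef
  have hq2 : 2 ≤ q := by
    rw [hqdef, Nat.card_eq_fintype_card]
    exact Fintype.one_lt_card
  let g : ℕ → ℕ := fun j => Nat.gcd (k * (q ^ j - 1)) (q ^ d - 1)
  have hqd : 0 < q ^ d - 1 := by
    have : 1 < q ^ d := Nat.one_lt_pow (by omega) (by omega)
    omega
  have hg : ∀ j, 0 < g j := fun j => Nat.gcd_pos_of_pos_right _ hqd
  let T : Finset (AlgebraicClosure F) :=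
    (Finset.Ico 1 d).biUnion fun j => nthRootsFinset (g j) (1 : AlgebraicClosure F)
  have key : ∀ p : {p : F[X] // p.Monic ∧ Irreducible p ∧ p.natDegree = d ∧
      ∃ α β : AlgebraicClosure F, aeval α p = 0 ∧ aeval β p = 0 ∧ α ≠ β ∧ α ^ k = β ^ k},
      ∃ α : AlgebraicClosure F, α ∈ T ∧ minpoly F α = p.1 := by
    rintro ⟨p, hm, hi, hdeg, α, β, hα, hβ, hne, hpow⟩
    obtain ⟨⟨j, hj, hb⟩, hfix⟩ := cna_root hm hi hα hβ
    rw [hdeg] at hj hfix
    have hpa : minpoly F α = p := (minpoly.eq_of_irreducible_of_monic hi hα hm).symm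
    have hα0 : α ≠ 0 := by
      intro h0
      rw [h0, minpoly.zero] at hpa
      rw [← hpa, natDegree_X] at hdeg
      omega
    have hj1 : 1 ≤ j := by
      rcases Nat.eq_zero_or_pos j with h0 | h1
      · exfalso
        subst h0
        apply hne
        rw [hb, pow_zero, pow_one]
      · exact h1
    have e1 : α ^ (q ^ d - 1) = 1 := by
      have h1 : α ^ (q ^ d - 1) * α = 1 * α := by
        rw [← pow_succ, one_mul, Nat.sub_add_cancel (by omega)]
        exact hfix
      exact mul_right_cancel₀ hα0 h1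
    have hqj : 1 ≤ q ^ j := Nat.one_le_pow _ _ (by omega)
    have e2 : α ^ (k * (q ^ j - 1)) = 1 := by
      have h1 : α ^ (k * (q ^ j - 1)) * α ^ k = 1 * α ^ k := by
        rw [← pow_add, one_mul]
        conv_rhs => rw [hpow, hb, ← pow_mul]
        congr 1
        obtain ⟨a, ha⟩ : ∃ a, q ^ j = a + 1 := ⟨q ^ j - 1, by omega⟩
        rw [← hqdef, ha, Nat.add_sub_cancel]
        ring
      exact mul_right_cancel₀ (pow_ne_zero k hα0) h1
    refine ⟨α, ?_, hpa⟩
    refine Finset.mem_biUnion.2 ⟨j, Finset.mem_Ico.2 ⟨hj1, hj⟩, ?_⟩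
    rw [mem_nthRootsFinset (hg j)]
    exact pow_gcd_eq_one.2 ⟨e2, e1⟩
  choose c hc1 hc2 using key
  have hinj : Function.Injective fun p => (⟨c p, hc1 p⟩ : T) := by
    intro p p' h
    have h1 : c p = c p' := congrArg Subtype.val h
    apply Subtype.ext
    rw [← hc2 p, ← hc2 p', h1]
  have h1 : Nat.card {p : F[X] // p.Monic ∧ Irreducible p ∧ p.natDegree = d ∧
      ∃ α β : AlgebraicClosure F, aeval α p = 0 ∧ aeval β p = 0 ∧ α ≠ β ∧ α ^ k = β ^ k} ≤ T.card := by
    have := Nat.card_le_card_of_injective _ hinj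
    simpa using this
  have h2 : (T.card : ℝ) ≤ ∑ j ∈ Finset.Ico 1 d, (g j : ℝ) := by
    have h3 : T.card ≤ ∑ j ∈ Finset.Ico 1 d, g j := by
      refine Finset.card_biUnion_le.trans (Finset.sum_le_sum fun j _ => ?_)
      exact (Multiset.toFinset_card_le _).trans (card_nthRoots _ _)
    exact_mod_cast h3
  have hqr : (1 : ℝ) ≤ q := by exact_mod_cast (by omega : 1 ≤ q)
  have h3 : ∀ j ∈ Finset.Ico 1 d, (g j : ℝ) ≤ k * (q : ℝ) ^ ((d : ℝ) / 2) := by
    intro j hj
    rw [Finset.mem_Ico] at hj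
    obtain ⟨ha, hb⟩ := cna_gcd q d k j (by omega) hk hj.1 hj.2
    calc (g j : ℝ) ≤ ((k * q ^ Nat.gcd j d : ℕ) : ℝ) := by exact_mod_cast hb
      _ = k * (q : ℝ) ^ ((Nat.gcd j d : ℕ) : ℝ) := by
        rw [Real.rpow_natCast]
        push_cast
        ring
      _ ≤ k * (q : ℝ) ^ ((d : ℝ) / 2) := by
        refine mul_le_mul_of_nonneg_left (Real.rpow_le_rpow_of_exponent_le hqr ?_) (Nat.cast_nonneg k)
        have : (2 : ℝ) * (Nat.gcd j d : ℕ) ≤ d := by exact_mod_cast ha
        linarith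
  calc (Nat.card {p : F[X] // p.Monic ∧ Irreducible p ∧ p.natDegree = d ∧
      ∃ α β : AlgebraicClosure F, aeval α p = 0 ∧ aeval β p = 0 ∧ α ≠ β ∧ α ^ k = β ^ k} : ℝ)
      ≤ T.card := by exact_mod_cast h1
    _ ≤ ∑ j ∈ Finset.Ico 1 d, (g j : ℝ) := h2
    _ ≤ ∑ _j ∈ Finset.Ico 1 d, (k : ℝ) * (q : ℝ) ^ ((d : ℝ) / 2) := Finset.sum_le_sum h3
    _ = ((d - 1 : ℕ) : ℝ) * (k * (q : ℝ) ^ ((d : ℝ) / 2)) := by
      rw [Finset.sum_const, Nat.card_Ico, nsmul_eq_mul]
    _ ≤ (d : ℝ) * (k * (q : ℝ) ^ ((d : ℝ) / 2)) := by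
      refine mul_le_mul_of_nonneg_right ?_ (by positivity)
      exact_mod_cast Nat.sub_le d 1
    _ = (d : ℝ) * k * (q : ℝ) ^ ((d : ℝ) / 2) := by ring

end

end SRJ
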