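import Mathlib
import Pool.Agent.SRJ.StB

/-!
# CNB: pairs of polynomials with related roots
-/

set_option autoImplicit false

namespace SRJ

open Polynomial

/-- The monic polynomials of degree `d`. -/
noncomputable def cnb_mon (F : Type) [Field F] [Fintype F] [DecidableEq F[X]] (d : ℕ) : Finset F[X] :=
  Finset.univ.image fun c : Fin d → F => X ^ d + ∑ i : Fin d, C (c i) * X ^ (i : ℕ)

theorem cnb_mem_mon {F : Type} [Field F] [Fintype F] [DecidableEq F[X]] {d : ℕ} {p : F[X]}
    (hp : p.Monic) (hd : p.natDegree = d) : p ∈ cnb_mon F d := by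
  subst hd
  rw [cnb_mon, Finset.mem_image]
  refine ⟨fun i => p.coeff i, Finset.mem_univ _, ?_⟩
  conv_rhs => rw [hp.as_sum]
  rw [Finset.sum_range]

theorem cnb_card_mon (F : Type) [Field F] [Fintype F] [DecidableEq F[X]] (d : ℕ) :
    (cnb_mon F d).card ≤ Nat.card F ^ d := by
  refine Finset.card_image_le.trans ?_
  rw [Finset.card_univ, Fintype.card_fun, Fintype.card_fin, Nat.card_eq_fintype_card]

open Classical in
/-- The minimal polynomials of the `x` with `x ^ k = β ^ k`, `β` a root of `p`. -/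
noncomputable def cnb_A {F : Type} [Field F] (k : ℕ) (β : F[X] → AlgebraicClosure F) (p : F[X]) :
    Finset F[X] :=
  (nthRoots k ((β p) ^ k)).toFinset.image (minpoly F)

theorem t_CNB : S_CNB := by
  classical
  intro F _ _ d d' k hk hd'
  have := Fintype.ofFinite F
  -- a root of every polynomial of degree `d'`
  have hroot : ∀ p : F[X], ∃ β : AlgebraicClosure F, p.natDegree = d' → aeval β p = 0 := by
    intro p
    by_cases h : p.natDegree = d'
    · obtain ⟨β, hβ⟩ := IsAlgClosed.exists_aeval_eq_zero (AlgebraicClosure F) p (by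
        intro h0
        have := natDegree_eq_of_degree_eq_some (n := 0) h0
        omega)
      exact ⟨β, fun _ => hβ⟩
    · exact ⟨0, fun h' => absurd h' h⟩
  choose β hβ using hroot
  have hsub : {p : F[X] × F[X] | p.1.Monic ∧ Irreducible p.1 ∧ p.1.natDegree = d ∧
      p.2.Monic ∧ Irreducible p.2 ∧ p.2.natDegree = d' ∧
      ∃ α β : AlgebraicClosure F, aeval α p.1 = 0 ∧ aeval β p.2 = 0 ∧ α ^ k = β ^ k} ⊆
      (((cnb_mon F d').biUnion fun p' => (cnb_A k β p') ×ˢ {p'} : Finset (F[X] × F[X])) :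
        Set (F[X] × F[X])) := by
    rintro ⟨p, p'⟩ ⟨h1, h2, -, h4, h5, h6, α, b, hα, hb, hab⟩
    simp only at h1 h2 h4 h5 h6 hα hb
    rw [Finset.mem_coe, Finset.mem_biUnion]
    refine ⟨p', cnb_mem_mon h4 h6, ?_⟩
    rw [Finset.mem_product, Finset.mem_singleton]
    refine ⟨?_, rfl⟩
    have hm := minpoly.eq_of_irreducible_of_monic h5 (hβ p' h6) h4
    obtain ⟨σ, hσ⟩ := minpoly.exists_algEquiv_of_root (K := F)
      (Algebra.IsAlgebraic.isAlgebraic (β p')) (x := b) (by rw [← hm]; exact hb)
    rw [cnb_A, Finset.mem_image]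
    refine ⟨σ α, ?_, ?_⟩
    · rw [Multiset.mem_toFinset, mem_nthRoots (by omega), ← map_pow, hab, map_pow, hσ]
    · exact (minpoly.eq_of_irreducible_of_monic h2 (by rw [aeval_algHom_apply, hα, map_zero]) h1).symm
  have hA : ∀ p' ∈ cnb_mon F d', ((cnb_A k β p') ×ˢ {p'} : Finset (F[X] × F[X])).card ≤ k := by
    intro p' _
    rw [Finset.card_product, Finset.card_singleton, mul_one, cnb_A]
    refine Finset.card_image_le.trans ((Multiset.toFinset_card_le _).trans ?_)
    exact card_nthRoots k _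
  have h1 := Set.ncard_le_ncard hsub (Finset.finite_toSet _)
  rw [Set.ncard_coe_finset] at h1
  refine (h1.trans (Finset.card_biUnion_le_card_mul _ _ k hA)).trans ?_
  rw [mul_comm]
  exact Nat.mul_le_mul_left _ (cnb_card_mon F d')

end SRJ
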