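import Mathlib
import Pool.Agent.SRJ.StB
import Pool.Agent.FLC.DC

/-!
# COR: second orthogonality
-/

set_option autoImplicit false

namespace SRJ

open RSF FL0 Polynomial Pool.Agent.Lib_helper13

noncomputable section

open scoped Matrix ComplexOrder in
/-- the value of a character at the inverse is the conjugate -/
theorem cor_inv {H : Type} [Group H] [Fintype H] {χ : H → ℂ} (hχ : IsIrr χ) (g : H) :
    χ g⁻¹ = starRingEnd ℂ (χ g) := by
  classical
  obtain ⟨n, ρ, -, rfl⟩ := hχ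
  let M : H → Matrix (Fin n) (Fin n) ℂ := fun h => LinearMap.toMatrix' (ρ h)
  have hM1 : M 1 = 1 := by
    simp only [M, map_one]
    exact LinearMap.toMatrix'_one
  have hMm : ∀ a b, M (a * b) = M a * M b := by
    intro a b
    simp only [M, map_mul]
    exact LinearMap.toMatrix'_mul _ _
  have htr : ∀ h, ρ.character h = (M h).trace := by
    intro h
    change LinearMap.trace ℂ _ (ρ h) = _
    rw [LinearMap.trace_eq_matrix_trace ℂ (Pi.basisFun ℂ (Fin n)),
      LinearMap.toMatrix_eq_toMatrix']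
  obtain ⟨A, hAd⟩ : ∃ A : Matrix (Fin n) (Fin n) ℂ, A = ∑ h, (M h)ᴴ * M h := ⟨_, rfl⟩
  have hA : ∀ a, (M a)ᴴ * A * M a = A := by
    intro a
    rw [hAd, Finset.mul_sum, Finset.sum_mul]
    rw [← Equiv.sum_comp (Equiv.mulRight a) (fun h => (M h)ᴴ * M h)]
    refine Finset.sum_congr rfl fun h _ => ?_
    simp only [Equiv.coe_mulRight]
    rw [hMm, Matrix.conjTranspose_mul]
    simp only [Matrix.mul_assoc]
  have hpd : A.PosDef := by
    rw [hAd, ← Finset.add_sum_erase _ _ (Finset.mem_univ (1 : H)), hM1,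
      Matrix.conjTranspose_one, Matrix.one_mul]
    apply Matrix.PosDef.add_posSemidef Matrix.PosDef.one
    exact Matrix.posSemidef_sum _ fun h _ => Matrix.posSemidef_conjTranspose_mul_self _
  have hdet : IsUnit A.det := (Matrix.isUnit_iff_isUnit_det A).mp hpd.isUnit
  have h1 : (M g)ᴴ * A = A * M g⁻¹ := by
    have h2 : M g * M g⁻¹ = 1 := by rw [← hMm, mul_inv_cancel, hM1]
    calc (M g)ᴴ * A = (M g)ᴴ * A * (M g * M g⁻¹) := by rw [h2, Matrix.mul_one]
      _ = (M g)ᴴ * A * M g * M g⁻¹ := by rw [Matrix.mul_assoc _ (M g)]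
      _ = A * M g⁻¹ := by rw [hA]
  rw [htr, htr, starRingEnd_apply, ← Matrix.trace_conjTranspose]
  calc (M g⁻¹).trace = (M g⁻¹ * (A⁻¹ * A)).trace := by
        rw [Matrix.nonsing_inv_mul A hdet, Matrix.mul_one]
    _ = (A * (M g⁻¹ * A⁻¹)).trace := by
        rw [← Matrix.mul_assoc, Matrix.trace_mul_comm]
    _ = ((M g)ᴴ * A * A⁻¹).trace := by rw [← Matrix.mul_assoc, ← h1]
    _ = ((M g)ᴴ).trace := by
        rw [Matrix.mul_assoc, Matrix.mul_nonsing_inv A hdet, Matrix.mul_one]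

theorem t_COR : S_COR := by
  classical
  intro G _ _ X g hX
  have h1 := FLC.dc_orth g g
  have h2 : ∑ g' : G, (if g' * g * g'⁻¹ = g then (1 : ℂ) else 0) =
      ((Nat.card {z : G // z * g = g * z} : ℝ) : ℂ) := by
    rw [Finset.sum_boole, Nat.card_eq_fintype_card, Fintype.card_subtype]
    push_cast
    congr 2
    ext z
    simp only [Finset.mem_filter, Finset.mem_univ, true_and]
    exact mul_inv_eq_iff_eq_mul
  have h3 : ∑ Y ∈ irrF G, Y g⁻¹ * Y g = ((∑ Y ∈ irrF G, ‖Y g‖ ^ 2 : ℝ) : ℂ) := by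
    rw [Complex.ofReal_sum]
    refine Finset.sum_congr rfl fun Y hY => ?_
    rw [cor_inv (mem_irrF.mp hY), ← Complex.normSq_eq_conj_mul_self, Complex.normSq_eq_norm_sq]
  rw [h3, h2] at h1
  have h4 : (∑ Y ∈ irrF G, ‖Y g‖ ^ 2 : ℝ) = Nat.card {z : G // z * g = g * z} := by
    exact_mod_cast h1
  rw [← h4]
  exact Finset.single_le_sum (f := fun Y : G → ℂ => ‖Y g‖ ^ 2) (fun Y _ => by positivity)
    (mem_irrF.mpr hX)

end

end SRJ
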