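import Mathlib
import Pool.Agent.SRJ.StA

/-!
# Module CTM: homomorphisms of given rank in the corner
-/

set_option autoImplicit false

namespace SRJ

open RSF FL0 Polynomial Pool.Agent.Lib_helper13

noncomputable section

/-- rank factorization -/
theorem ctm_fact {F : Type} [Field F] {a b r : ℕ} (t : Matrix (Fin b) (Fin a) F)
    (ht : t.rank = r) :
    ∃ (j : Matrix (Fin b) (Fin r) F) (j' : Matrix (Fin r) (Fin b) F)
      (s : Matrix (Fin r) (Fin a) F) (s' : Matrix (Fin a) (Fin r) F),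
      t = j * s ∧ j' * j = 1 ∧ s * s' = 1 := by
  classical
  set f : (Fin a → F) →ₗ[F] (Fin b → F) := Matrix.toLin' t with hf
  have hfin : Module.finrank F (LinearMap.range f) = Module.finrank F (Fin r → F) := by
    rw [Module.finrank_fin_fun, ← ht]
    rfl
  let e : (LinearMap.range f) ≃ₗ[F] (Fin r → F) := LinearEquiv.ofFinrankEq _ _ hfin
  let sl : (Fin a → F) →ₗ[F] (Fin r → F) := e.toLinearMap ∘ₗ f.rangeRestrict
  let jl : (Fin r → F) →ₗ[F] (Fin b → F) := (LinearMap.range f).subtype ∘ₗ e.symm.toLinearMap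
  have hsl : Function.Surjective sl := by
    have h1 : Function.Surjective f.rangeRestrict := LinearMap.surjective_rangeRestrict f
    intro y
    obtain ⟨x, hx⟩ := h1 (e.symm y)
    refine ⟨x, ?_⟩
    show e (f.rangeRestrict x) = y
    rw [hx]
    simp
  have hjl : Function.Injective jl := by
    intro x y hxy
    have h1 : ((LinearMap.range f).subtype (e.symm x)) = (LinearMap.range f).subtype (e.symm y) := hxy
    have h2 := Subtype.ext h1
    exact e.symm.injective h2
  obtain ⟨sr, hsr⟩ := LinearMap.exists_rightInverse_of_surjective sl (LinearMap.range_eq_top.mpr hsl)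
  obtain ⟨jr, hjr⟩ := LinearMap.exists_leftInverse_of_injective jl (LinearMap.ker_eq_bot.mpr hjl)
  refine ⟨LinearMap.toMatrix' jl, LinearMap.toMatrix' jr, LinearMap.toMatrix' sl,
    LinearMap.toMatrix' sr, ?_, ?_, ?_⟩
  · rw [← LinearMap.toMatrix'_comp]
    have : jl ∘ₗ sl = f := by
      ext x : 1
      apply LinearMap.ext
      intro y
      simp only [LinearMap.comp_apply]
      show (((LinearMap.range f).subtype (e.symm (e (f.rangeRestrict _)))) : Fin b → F) = _
      simp
    rw [this, hf, LinearMap.toMatrix'_toLin']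
  · rw [← LinearMap.toMatrix'_comp, hjr, LinearMap.toMatrix'_id]
  · rw [← LinearMap.toMatrix'_comp, hsr, LinearMap.toMatrix'_id]

/-- the counting of the factorizations through `B` -/
theorem ctm_count {F : Type} [Field F] [Finite F] {k l r : ℕ} (a : Matrix (Fin k) (Fin k) F)
    (b : Matrix (Fin l) (Fin l) F) (B : Matrix (Fin r) (Fin r) F)
    (S : Finset (Matrix (Fin l) (Fin k) F))
    (hS : ∀ t ∈ S, ∃ (j : Matrix (Fin l) (Fin r) F) (s : Matrix (Fin r) (Fin k) F)
      (s' : Matrix (Fin k) (Fin r) F), t = j * s ∧ s * a = B * s ∧ j * B = b * j ∧ s * s' = 1) :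
    S.card * Nat.card {u : GL (Fin r) F // (u : Matrix (Fin r) (Fin r) F) * B =
        B * (u : Matrix (Fin r) (Fin r) F)} ≤
      Nat.card {f : Matrix (Fin r) (Fin k) F // f * a = B * f} *
        Nat.card {f : Matrix (Fin l) (Fin r) F // f * B = b * f} := by
  classical
  choose! j s s' h1 h2 h3 h4 using hS
  have hc : S.card = Nat.card S := by simp
  rw [hc, ← Nat.card_prod, ← Nat.card_prod]
  let φ : S × {u : GL (Fin r) F // (u : Matrix (Fin r) (Fin r) F) * B =
        B * (u : Matrix (Fin r) (Fin r) F)} →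
      {f : Matrix (Fin r) (Fin k) F // f * a = B * f} ×
        {f : Matrix (Fin l) (Fin r) F // f * B = b * f} := fun p =>
    (⟨(p.2.1 : Matrix (Fin r) (Fin r) F) * s p.1.1, by
        rw [Matrix.mul_assoc, h2 _ p.1.2, ← Matrix.mul_assoc, p.2.2, Matrix.mul_assoc]⟩,
      ⟨j p.1.1 * ((p.2.1⁻¹ : GL (Fin r) F) : Matrix (Fin r) (Fin r) F), by
        have hu : ((p.2.1⁻¹ : GL (Fin r) F) : Matrix (Fin r) (Fin r) F) * B =
            B * ((p.2.1⁻¹ : GL (Fin r) F) : Matrix (Fin r) (Fin r) F) := by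
          have e1 : ((p.2.1⁻¹ : GL (Fin r) F) : Matrix (Fin r) (Fin r) F) *
              (p.2.1 : Matrix (Fin r) (Fin r) F) = 1 := by
            rw [← Units.val_mul, inv_mul_cancel]; rfl
          have e2 : (p.2.1 : Matrix (Fin r) (Fin r) F) *
              ((p.2.1⁻¹ : GL (Fin r) F) : Matrix (Fin r) (Fin r) F) = 1 := by
            rw [← Units.val_mul, mul_inv_cancel]; rfl
          calc ((p.2.1⁻¹ : GL (Fin r) F) : Matrix (Fin r) (Fin r) F) * B
              = ((p.2.1⁻¹ : GL (Fin r) F) : Matrix (Fin r) (Fin r) F) * B *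
                ((p.2.1 : Matrix (Fin r) (Fin r) F) *
                  ((p.2.1⁻¹ : GL (Fin r) F) : Matrix (Fin r) (Fin r) F)) := by
                rw [e2, Matrix.mul_one]
            _ = ((p.2.1⁻¹ : GL (Fin r) F) : Matrix (Fin r) (Fin r) F) *
                (B * (p.2.1 : Matrix (Fin r) (Fin r) F)) *
                  ((p.2.1⁻¹ : GL (Fin r) F) : Matrix (Fin r) (Fin r) F) := by
                simp only [Matrix.mul_assoc]
            _ = (((p.2.1⁻¹ : GL (Fin r) F) : Matrix (Fin r) (Fin r) F) *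
                (p.2.1 : Matrix (Fin r) (Fin r) F)) * B *
                  ((p.2.1⁻¹ : GL (Fin r) F) : Matrix (Fin r) (Fin r) F) := by
                rw [← p.2.2]; simp only [Matrix.mul_assoc]
            _ = B * ((p.2.1⁻¹ : GL (Fin r) F) : Matrix (Fin r) (Fin r) F) := by
                rw [e1, Matrix.one_mul]
        rw [Matrix.mul_assoc, hu, ← Matrix.mul_assoc, h3 _ p.1.2, Matrix.mul_assoc]⟩)
  have hφ : Function.Injective φ := by
    rintro ⟨⟨t, ht⟩, ⟨u, hu⟩⟩ ⟨⟨t', ht'⟩, ⟨u', hu'⟩⟩ h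
    have ha : (u : Matrix (Fin r) (Fin r) F) * s t = (u' : Matrix (Fin r) (Fin r) F) * s t' := by
      have := congrArg (fun x => x.1.1) h
      simpa [φ] using this
    have hb : j t * ((u⁻¹ : GL (Fin r) F) : Matrix (Fin r) (Fin r) F) =
        j t' * ((u'⁻¹ : GL (Fin r) F) : Matrix (Fin r) (Fin r) F) := by
      have := congrArg (fun x => x.2.1) h
      simpa [φ] using this
    have e1 : ∀ v : GL (Fin r) F, ((v⁻¹ : GL (Fin r) F) : Matrix (Fin r) (Fin r) F) *
              (v : Matrix (Fin r) (Fin r) F) = 1 := by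
      intro v
      rw [← Units.val_mul, inv_mul_cancel]; rfl
    have htt : t = t' := by
      calc t = j t * s t := h1 t ht
        _ = (j t * ((u⁻¹ : GL (Fin r) F) : Matrix (Fin r) (Fin r) F)) *
            ((u : Matrix (Fin r) (Fin r) F) * s t) := by
            rw [Matrix.mul_assoc, ← Matrix.mul_assoc _ (u : Matrix (Fin r) (Fin r) F), e1,
              Matrix.one_mul]
        _ = (j t' * ((u'⁻¹ : GL (Fin r) F) : Matrix (Fin r) (Fin r) F)) *
            ((u' : Matrix (Fin r) (Fin r) F) * s t') := by rw [ha, hb]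
        _ = j t' * s t' := by
            rw [Matrix.mul_assoc, ← Matrix.mul_assoc _ (u' : Matrix (Fin r) (Fin r) F), e1,
              Matrix.one_mul]
        _ = t' := (h1 t' ht').symm
    subst htt
    have huu : (u : Matrix (Fin r) (Fin r) F) = (u' : Matrix (Fin r) (Fin r) F) := by
      have := congrArg (fun M => M * s' t) ha
      simp only [Matrix.mul_assoc, h4 t ht, Matrix.mul_one] at this
      exact this
    have huu' : u = u' := Units.ext huu
    subst huu'
    rfl
  exact Nat.card_le_card_of_injective φ hφ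

/-- the factorization of an intertwiner of rank `r` -/
theorem ctm_inter {F : Type} [Field F] {k l r m : ℕ} (ζ : F) (a : Matrix (Fin k) (Fin k) F)
    (b : Matrix (Fin l) (Fin l) F) (t : Matrix (Fin l) (Fin k) F) (hr : t.rank = r)
    (ht : b * t = t * a) (ha : a ^ m = Matrix.scalar (Fin k) ζ) :
    ∃ (B : Matrix (Fin r) (Fin r) F) (j : Matrix (Fin l) (Fin r) F) (s : Matrix (Fin r) (Fin k) F)
      (s' : Matrix (Fin k) (Fin r) F), B ^ m = Matrix.scalar (Fin r) ζ ∧ t = j * s ∧
        s * a = B * s ∧ j * B = b * j ∧ s * s' = 1 := by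
  obtain ⟨j, j', s, s', h1, h2, h3⟩ := ctm_fact t hr
  have e0 : j' * t = s := by rw [h1, ← Matrix.mul_assoc, h2, Matrix.one_mul]
  have e1 : s * a = (j' * b * j) * s := by
    calc s * a = j' * t * a := by rw [e0]
      _ = j' * (t * a) := by rw [Matrix.mul_assoc]
      _ = j' * (b * t) := by rw [ht]
      _ = (j' * b * j) * s := by
        rw [h1]; simp only [Matrix.mul_assoc]
  have e2 : j * (j' * b * j) = b * j := by
    have h5 : j * (j' * b * j) * s = b * j * s := by
      calc j * (j' * b * j) * s = j * ((j' * b * j) * s) := by rw [Matrix.mul_assoc]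
        _ = j * (s * a) := by rw [e1]
        _ = t * a := by rw [← Matrix.mul_assoc, ← h1]
        _ = b * t := ht.symm
        _ = b * j * s := by rw [h1, Matrix.mul_assoc]
    have h6 := congrArg (fun M => M * s') h5
    simp only [Matrix.mul_assoc, h3, Matrix.mul_one] at h6
    simpa only [Matrix.mul_assoc] using h6
  have e3 : ∀ i : ℕ, s * a ^ i = (j' * b * j) ^ i * s := by
    intro i
    induction i with
    | zero => simp
    | succ i ih => rw [pow_succ, ← Matrix.mul_assoc, ih, Matrix.mul_assoc, e1, ← Matrix.mul_assoc,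
        ← pow_succ]
  refine ⟨j' * b * j, j, s, s', ?_, h1, e1, e2, h3⟩
  have h7 := e3 m
  rw [ha] at h7
  have h8 : s * (Matrix.scalar (Fin k)) ζ * s' = (j' * b * j) ^ m * s * s' := by rw [h7]
  have h9 : s * (Matrix.scalar (Fin k)) ζ * s' = Matrix.scalar (Fin r) ζ := by
    have : s * (Matrix.scalar (Fin k)) ζ = ζ • s := by
      rw [Matrix.scalar_apply]
      ext i x
      simp [Matrix.mul_diagonal, mul_comm]
    rw [this, Matrix.smul_mul, h3, Matrix.scalar_apply, Matrix.smul_one_eq_diagonal]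
  rw [h9, Matrix.mul_assoc, h3, Matrix.mul_one] at h8
  exact h8.symm

/-- the two block diagonal parts: products, upper rows -/
theorem ctm_mul_up {F : Type} [Field F] {k l : ℕ} {ι : Type} [Fintype ι]
    (M : Matrix (Fin (k + l)) (Fin (k + l)) F) (hM : BD k M) (N : Matrix (Fin (k + l)) ι F) :
    (M * N).submatrix (Fin.castAdd l) id =
      M.submatrix (Fin.castAdd l) (Fin.castAdd l) * N.submatrix (Fin.castAdd l) id := by
  ext i x
  simp only [Matrix.submatrix_apply, Matrix.mul_apply, id]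
  rw [Fin.sum_univ_add]
  have : ∀ y : Fin l, M (Fin.castAdd l i) (Fin.natAdd k y) = 0 := by
    intro y
    apply hM
    simp
  simp [this]

theorem ctm_mul_lo {F : Type} [Field F] {k l : ℕ} {ι : Type} [Fintype ι]
    (M : Matrix (Fin (k + l)) (Fin (k + l)) F) (hM : BD k M) (N : Matrix (Fin (k + l)) ι F) :
    (M * N).submatrix (Fin.natAdd k) id =
      M.submatrix (Fin.natAdd k) (Fin.natAdd k) * N.submatrix (Fin.natAdd k) id := by
  ext i x
  simp only [Matrix.submatrix_apply, Matrix.mul_apply, id]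
  rw [Fin.sum_univ_add]
  have : ∀ y : Fin k, M (Fin.natAdd k i) (Fin.castAdd l y) = 0 := by
    intro y
    apply hM
    simp
  simp [this]

theorem ctm_pow_up {F : Type} [Field F] {k l : ℕ}
    (M : Matrix (Fin (k + l)) (Fin (k + l)) F) (hM : BD k M) (m : ℕ) (ζ : F)
    (h : M ^ m = Matrix.scalar _ ζ) :
    (M.submatrix (Fin.castAdd l) (Fin.castAdd l)) ^ m = Matrix.scalar (Fin k) ζ := by
  have key : ∀ i : ℕ, (M ^ i).submatrix (Fin.castAdd l) (Fin.castAdd l) =
      (M.submatrix (Fin.castAdd l) (Fin.castAdd l)) ^ i := by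
    intro i
    induction i with
    | zero =>
      ext x y
      simp [Matrix.one_apply]
    | succ i ih =>
      rw [pow_succ', pow_succ', ← ih]
      have h1 := ctm_mul_up M hM (M ^ i)
      ext x y
      have h2 := congrFun (congrFun h1 x) (Fin.castAdd l y)
      simp only [Matrix.submatrix_apply, Matrix.mul_apply, id] at h2 ⊢
      exact h2
  rw [← key, h]
  ext x y
  simp [Matrix.scalar_apply, Matrix.diagonal_apply]

theorem ctm_pow_lo {F : Type} [Field F] {k l : ℕ}
    (M : Matrix (Fin (k + l)) (Fin (k + l)) F) (hM : BD k M) (m : ℕ) (ζ : F)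
    (h : M ^ m = Matrix.scalar _ ζ) :
    (M.submatrix (Fin.natAdd k) (Fin.natAdd k)) ^ m = Matrix.scalar (Fin l) ζ := by
  have key : ∀ i : ℕ, (M ^ i).submatrix (Fin.natAdd k) (Fin.natAdd k) =
      (M.submatrix (Fin.natAdd k) (Fin.natAdd k)) ^ i := by
    intro i
    induction i with
    | zero =>
      ext x y
      simp [Matrix.one_apply]
    | succ i ih =>
      rw [pow_succ', pow_succ', ← ih]
      have h1 := ctm_mul_lo M hM (M ^ i)
      ext x y
      have h2 := congrFun (congrFun h1 x) (Fin.natAdd k y)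
      simp only [Matrix.submatrix_apply, Matrix.mul_apply, id] at h2 ⊢
      exact h2
  rw [← key, h]
  ext x y
  simp [Matrix.scalar_apply, Matrix.diagonal_apply]

/-- homomorphisms to a block diagonal matrix -/
theorem ctm_hom_split {F : Type} [Field F] [Finite F] {k l r : ℕ}
    (M : Matrix (Fin (k + l)) (Fin (k + l)) F) (hM : BD k M) (B : Matrix (Fin r) (Fin r) F) :
    Nat.card {f : Matrix (Fin k) (Fin r) F //
        f * B = M.submatrix (Fin.castAdd l) (Fin.castAdd l) * f} *
      Nat.card {f : Matrix (Fin l) (Fin r) F //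
        f * B = M.submatrix (Fin.natAdd k) (Fin.natAdd k) * f} =
    Nat.card {f : Matrix (Fin (k + l)) (Fin r) F // f * B = M * f} := by
  rw [← Nat.card_prod]
  symm
  refine Nat.card_congr (Equiv.ofBijective (fun f =>
    (⟨f.1.submatrix (Fin.castAdd l) id, ?_⟩, ⟨f.1.submatrix (Fin.natAdd k) id, ?_⟩)) ⟨?_, ?_⟩)
  · rw [← ctm_mul_up M hM, ← f.2]
    ext x y
    simp [Matrix.mul_apply]
  · rw [← ctm_mul_lo M hM, ← f.2]
    ext x y
    simp [Matrix.mul_apply]
  · intro f g h
    have h1 := congrArg (fun p => p.1.1) h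
    have h2 := congrArg (fun p => p.2.1) h
    simp only at h1 h2
    apply Subtype.ext
    ext x y
    refine Fin.addCases (fun i => ?_) (fun i => ?_) x
    · exact congrFun (congrFun h1 i) y
    · exact congrFun (congrFun h2 i) y
  · rintro ⟨⟨f, hf⟩, ⟨g, hg⟩⟩
    let e : Matrix (Fin (k + l)) (Fin r) F := fun x y =>
      Fin.addCases (motive := fun _ => F) (fun i => f i y) (fun i => g i y) x
    have eu : e.submatrix (Fin.castAdd l) id = f := by
      ext x y
      show Fin.addCases (motive := fun _ => F) (fun i => f i y) (fun i => g i y)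
        (Fin.castAdd l x) = f x y
      rw [Fin.addCases_left]
    have el : e.submatrix (Fin.natAdd k) id = g := by
      ext x y
      show Fin.addCases (motive := fun _ => F) (fun i => f i y) (fun i => g i y)
        (Fin.natAdd k x) = g x y
      rw [Fin.addCases_right]
    refine ⟨⟨e, ?_⟩, ?_⟩
    · ext x y
      refine Fin.addCases (fun i => ?_) (fun i => ?_) x
      · have h1 := congrFun (congrFun (ctm_mul_up M hM e) i) y
        simp only [Matrix.submatrix_apply, id] at h1
        rw [h1, eu, ← hf]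
        have h2 : (e * B) (Fin.castAdd l i) y = (e.submatrix (Fin.castAdd l) id * B) i y := by
          simp [Matrix.mul_apply]
        rw [h2, eu]
      · have h1 := congrFun (congrFun (ctm_mul_lo M hM e) i) y
        simp only [Matrix.submatrix_apply, id] at h1
        rw [h1, el, ← hg]
        have h2 : (e * B) (Fin.natAdd k i) y = (e.submatrix (Fin.natAdd k) id * B) i y := by
          simp [Matrix.mul_apply]
        rw [h2, el]
    · simp only [eu, el]

/-- membership in `cot` -/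
theorem ctm_mem_cot {F : Type} [Field F] [Fintype F] {n k : ℕ}
    (T : Matrix (Fin n) (Fin n) F) (hT : T ∈ cot n F k) :
    ∀ i j : Fin n, ¬ (j.val < k ∧ k ≤ i.val) → T i j = 0 := by
  unfold cot at hT
  exact (@Finset.mem_filter _ _ (_) _ _).mp hT |>.2

/-- the elements of `cot` that commute with `M` -/
theorem ctm_cot {F : Type} [Field F] [Fintype F] [DecidableEq F] {k l : ℕ}
    (M : Matrix (Fin (k + l)) (Fin (k + l)) F)
    (T : Matrix (Fin (k + l)) (Fin (k + l)) F) (hT : T ∈ cot (k + l) F k)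
    (hc : M * T = T * M) :
    M.submatrix (Fin.natAdd k) (Fin.natAdd k) * T.submatrix (Fin.natAdd k) (Fin.castAdd l) =
      T.submatrix (Fin.natAdd k) (Fin.castAdd l) * M.submatrix (Fin.castAdd l) (Fin.castAdd l) := by
  classical
  have h0 : ∀ i j : Fin (k + l), ¬ (j.val < k ∧ k ≤ i.val) → T i j = 0 := ctm_mem_cot T hT
  ext x y
  have h1 := congrFun (congrFun hc (Fin.natAdd k x)) (Fin.castAdd l y)
  simp only [Matrix.mul_apply, Fin.sum_univ_add, Matrix.submatrix_apply] at h1 ⊢
  have z1 : ∀ z : Fin k, T (Fin.castAdd l z) (Fin.castAdd l y) = 0 := by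
    intro z; apply h0; simp
  have z2 : ∀ z : Fin l, T (Fin.natAdd k x) (Fin.natAdd k z) = 0 := by
    intro z; apply h0; simp
  simpa [z1, z2] using h1

theorem ctm_cot_ext {F : Type} [Field F] [Fintype F] [DecidableEq F] {k l : ℕ}
    (T T' : Matrix (Fin (k + l)) (Fin (k + l)) F) (hT : T ∈ cot (k + l) F k)
    (hT' : T' ∈ cot (k + l) F k)
    (h : T.submatrix (Fin.natAdd k) (Fin.castAdd l) = T'.submatrix (Fin.natAdd k) (Fin.castAdd l)) :
    T = T' := by
  classical
  have h0 : ∀ i j : Fin (k + l), ¬ (j.val < k ∧ k ≤ i.val) → T i j = 0 :=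
    ctm_mem_cot T hT
  have h0' : ∀ i j : Fin (k + l), ¬ (j.val < k ∧ k ≤ i.val) → T' i j = 0 :=
    ctm_mem_cot T' hT'
  ext x y
  by_cases hxy : y.val < k ∧ k ≤ x.val
  · obtain ⟨x', rfl⟩ : ∃ x' : Fin l, x = Fin.natAdd k x' :=
      ⟨⟨x.val - k, by omega⟩, by ext; simp; omega⟩
    obtain ⟨y', rfl⟩ : ∃ y' : Fin k, y = Fin.castAdd l y' := ⟨⟨y.val, hxy.1⟩, by ext; simp⟩
    exact congrFun (congrFun h _) _
  · rw [h0 x y hxy, h0' x y hxy]

/-- the rank of an element of `cot` -/
theorem ctm_cot_rank {F : Type} [Field F] [Fintype F] [DecidableEq F] {k l : ℕ}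
    (T : Matrix (Fin (k + l)) (Fin (k + l)) F) (hT : T ∈ cot (k + l) F k) :
    (T.submatrix (Fin.natAdd k) (Fin.castAdd l)).rank = T.rank := by
  classical
  have h0 : ∀ i j : Fin (k + l), ¬ (j.val < k ∧ k ≤ i.val) → T i j = 0 :=
    ctm_mem_cot T hT
  set t := T.submatrix (Fin.natAdd k) (Fin.castAdd l) with ht
  -- `T = E t E'`
  let E : Matrix (Fin (k + l)) (Fin l) F := fun x y => if x = Fin.natAdd k y then 1 else 0
  let E' : Matrix (Fin k) (Fin (k + l)) F := fun x y => if y = Fin.castAdd l x then 1 else 0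
  let G : Matrix (Fin l) (Fin (k + l)) F := fun x y => if y = Fin.natAdd k x then 1 else 0
  let G' : Matrix (Fin (k + l)) (Fin k) F := fun x y => if x = Fin.castAdd l y then 1 else 0
  have hE : ∀ x y, E x y = if x = Fin.natAdd k y then 1 else 0 := fun _ _ => rfl
  have hE' : ∀ x y, E' x y = if y = Fin.castAdd l x then 1 else 0 := fun _ _ => rfl
  have hG : ∀ x y, G x y = if y = Fin.natAdd k x then 1 else 0 := fun _ _ => rfl
  have hG' : ∀ x y, G' x y = if x = Fin.castAdd l y then 1 else 0 := fun _ _ => rfl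
  have h1 : T = E * t * E' := by
    ext x y
    simp only [Matrix.mul_apply, hE, hE']
    by_cases hxy : y.val < k ∧ k ≤ x.val
    · obtain ⟨x', rfl⟩ : ∃ x' : Fin l, x = Fin.natAdd k x' :=
        ⟨⟨x.val - k, by omega⟩, by ext; simp; omega⟩
      obtain ⟨y', rfl⟩ : ∃ y' : Fin k, y = Fin.castAdd l y' := ⟨⟨y.val, hxy.1⟩, by ext; simp⟩
      rw [Finset.sum_eq_single y']
      · rw [if_pos rfl, mul_one, Finset.sum_eq_single x']
        · rw [if_pos rfl, one_mul, ht]
          rfl
        · intro z _ hz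
          rw [if_neg, zero_mul]
          intro hx
          apply hz
          exact (Fin.natAdd_injective l k hx).symm
        · simp
      · intro z _ hz
        rw [if_neg, mul_zero]
        intro hx
        apply hz
        exact (Fin.castAdd_injective k l hx).symm
      · simp
    · rw [h0 x y hxy]
      symm
      apply Finset.sum_eq_zero
      intro z _
      by_cases h2 : y = Fin.castAdd l z
      · rw [if_pos h2, mul_one]
        apply Finset.sum_eq_zero
        intro w _
        rw [if_neg, zero_mul]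
        intro h3
        apply hxy
        rw [h2, h3]
        simp
      · rw [if_neg h2, mul_zero]
  have h2 : t = G * T * G' := by
    ext x y
    simp only [Matrix.mul_apply, hG, hG']
    rw [Finset.sum_eq_single (Fin.castAdd l y)]
    · rw [if_pos rfl, mul_one, Finset.sum_eq_single (Fin.natAdd k x)]
      · simp [ht]
      · intro z _ hz
        rw [if_neg hz, zero_mul]
      · simp
    · intro z _ hz
      rw [if_neg hz, mul_zero]
    · simp
  apply le_antisymm
  · calc t.rank = (G * T * G').rank := by rw [← h2]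
      _ ≤ (G * T).rank := Matrix.rank_mul_le_left _ _
      _ ≤ T.rank := Matrix.rank_mul_le_right _ _
  · calc T.rank = (E * t * E').rank := by rw [← h1]
      _ ≤ (E * t).rank := Matrix.rank_mul_le_left _ _
      _ ≤ t.rank := Matrix.rank_mul_le_right _ _

/-- the Cauchy-Schwarz step -/
theorem ctm_cs {d : ℕ} (w x y : Fin d → ℕ) (m n r : ℕ) (hm : 1 ≤ m) (hw : ∑ j, w j = m)
    (hn : ∑ j, w j * y j = n) (hr : ∑ j, w j * x j = r) :
    ((∑ j, w j * (x j * y j) : ℕ) : ℝ) - ((∑ j, w j * (x j * x j) : ℕ) : ℝ) ≤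
      (r : ℝ) * ((n : ℝ) - r) / m + (((∑ j, w j * (y j * y j) : ℕ) : ℝ) - (n : ℝ) ^ 2 / m) / 4 := by
  have hm0 : (0 : ℝ) < m := by exact_mod_cast hm
  have hw' : ∑ j, (w j : ℝ) = m := by exact_mod_cast hw
  have hn' : ∑ j, (w j : ℝ) * y j = n := by exact_mod_cast hn
  have hr' : ∑ j, (w j : ℝ) * x j = r := by exact_mod_cast hr
  set c : ℝ := ((n : ℝ) / 2 - r) / m with hc
  have h0 : 0 ≤ ∑ j, (w j : ℝ) * ((y j : ℝ) / 2 - x j - c) ^ 2 :=
    Finset.sum_nonneg fun j _ => by positivity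
  have e : ∑ j, (w j : ℝ) * ((y j : ℝ) / 2 - x j - c) ^ 2 =
      (1 / 4) * ∑ j, (w j : ℝ) * ((y j : ℝ) * y j) - ∑ j, (w j : ℝ) * ((x j : ℝ) * y j) +
        ∑ j, (w j : ℝ) * ((x j : ℝ) * x j) - c * ∑ j, (w j : ℝ) * y j +
        2 * c * ∑ j, (w j : ℝ) * x j + c ^ 2 * ∑ j, (w j : ℝ) := by
    simp only [Finset.mul_sum, ← Finset.sum_sub_distrib, ← Finset.sum_add_distrib]
    refine Finset.sum_congr rfl fun j _ => ?_
    ring
  rw [e, hw', hn', hr'] at h0
  push_cast
  have h1 : c * m = (n : ℝ) / 2 - r := by rw [hc]; field_simp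
  have h2 : -(c * n) + 2 * c * r + c ^ 2 * m = -(((n : ℝ) / 2 - r) ^ 2 / m) := by
    rw [hc]; field_simp; ring
  have h3 : ((n : ℝ) / 2 - r) ^ 2 / m = (n : ℝ) ^ 2 / m / 4 - (r : ℝ) * ((n : ℝ) - r) / m := by
    field_simp; ring
  rw [h3] at h2
  linarith

theorem ctm_hom_of_type {F : Type} [Field F] {k l r : ℕ} {a : Matrix (Fin k) (Fin k) F}
    {b : Matrix (Fin l) (Fin l) F} {B B0 P Q : Matrix (Fin r) (Fin r) F}
    {t : Matrix (Fin l) (Fin k) F} {j : Matrix (Fin l) (Fin r) F} {s : Matrix (Fin r) (Fin k) F}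
    {s' : Matrix (Fin k) (Fin r) F} (hPQ : P * Q = 1) (hQP : Q * P = 1) (hP : P * B = B0 * P)
    (h1 : t = j * s) (h2 : s * a = B * s) (h3 : j * B = b * j) (h4 : s * s' = 1) :
    ∃ (j : Matrix (Fin l) (Fin r) F) (s : Matrix (Fin r) (Fin k) F)
      (s' : Matrix (Fin k) (Fin r) F), t = j * s ∧ s * a = B0 * s ∧ j * B0 = b * j ∧ s * s' = 1 := by
  have hQ : Q * B0 = B * Q := by
    calc Q * B0 = Q * B0 * (P * Q) := by rw [hPQ, Matrix.mul_one]
      _ = Q * (B0 * P) * Q := by simp only [Matrix.mul_assoc]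
      _ = (Q * P) * B * Q := by rw [← hP]; simp only [Matrix.mul_assoc]
      _ = B * Q := by rw [hQP, Matrix.one_mul]
  refine ⟨j * Q, P * s, s' * Q, ?_, ?_, ?_, ?_⟩
  · rw [Matrix.mul_assoc, ← Matrix.mul_assoc Q, hQP, Matrix.one_mul, h1]
  · rw [Matrix.mul_assoc, h2, ← Matrix.mul_assoc, hP, Matrix.mul_assoc]
  · rw [Matrix.mul_assoc, hQ, ← Matrix.mul_assoc, h3, Matrix.mul_assoc]
  · calc P * s * (s' * Q) = P * (s * s') * Q := by simp only [Matrix.mul_assoc]
      _ = 1 := by rw [h4, Matrix.mul_one, hPQ]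

theorem t_CTM : M_CTM := by
  classical
  intro hHMF hAUL hDSM m hm n F _ _ _ A ζ hA
  set g : F[X] := X ^ m - C ζ with hgdef
  have hg : g.Monic := monic_X_pow_sub_C ζ (by omega)
  have hN : g.natDegree = m := natDegree_X_pow_sub_C
  have haev : ∀ (r : ℕ) (B : Matrix (Fin r) (Fin r) F), B ^ m = Matrix.scalar (Fin r) ζ →
      aeval B g = 0 := by
    intro r B hB
    rw [hgdef, map_sub, map_pow, aeval_X, aeval_C, hB]
    exact sub_self _
  obtain ⟨w, ν, hw, H⟩ := hHMF F g hg
  obtain ⟨k, hk1, hk2, hk3, P, hP⟩ :=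
    hDSM F g hg (by rw [hN]; exact hm) n A.1 (haev n A.1 hA) ((n + 1) / 2) (by omega)
  rw [hN] at hk2
  obtain ⟨l, rfl⟩ := Nat.exists_eq_add_of_le hk3
  set M : Matrix (Fin (k + l)) (Fin (k + l)) F := ((P * A * P⁻¹ : GL (Fin (k + l)) F) :
    Matrix (Fin (k + l)) (Fin (k + l)) F) with hMdef
  have hMv : M = (P : Matrix (Fin (k + l)) (Fin (k + l)) F) * A.1 *
      ((P⁻¹ : GL (Fin (k + l)) F) : Matrix (Fin (k + l)) (Fin (k + l)) F) := by
    rw [hMdef]; rfl
  have hBD : BD k M := by rw [hMv]; exact hP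
  have hPP : (P : Matrix (Fin (k + l)) (Fin (k + l)) F) *
      ((P⁻¹ : GL (Fin (k + l)) F) : Matrix (Fin (k + l)) (Fin (k + l)) F) = 1 := by
    rw [← Units.val_mul, mul_inv_cancel]; rfl
  have hPP' : ((P⁻¹ : GL (Fin (k + l)) F) : Matrix (Fin (k + l)) (Fin (k + l)) F) *
      (P : Matrix (Fin (k + l)) (Fin (k + l)) F) = 1 := by
    rw [← Units.val_mul, inv_mul_cancel]; rfl
  have hMm : M ^ m = Matrix.scalar (Fin (k + l)) ζ := by
    have h1 : (P * A * P⁻¹) ^ m = P * A ^ m * P⁻¹ := conj_pow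
    have h2 : M ^ m = ((P * A ^ m * P⁻¹ : GL (Fin (k + l)) F) :
        Matrix (Fin (k + l)) (Fin (k + l)) F) := by
      rw [← h1, hMdef, Units.val_pow_eq_pow_val]
    rw [h2, Units.val_mul, Units.val_mul, Units.val_pow_eq_pow_val, hA]
    have h3 : (P : Matrix (Fin (k + l)) (Fin (k + l)) F) * Matrix.scalar (Fin (k + l)) ζ =
        Matrix.scalar (Fin (k + l)) ζ * (P : Matrix (Fin (k + l)) (Fin (k + l)) F) := by
      rw [Matrix.scalar_apply, ← Matrix.smul_one_eq_diagonal]
      simp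
    rw [h3, Matrix.mul_assoc, hPP, Matrix.mul_one]
  have hcN : cN A.1 = cN M := by
    refine Nat.card_congr ⟨fun B => ⟨(P : Matrix (Fin (k + l)) (Fin (k + l)) F) * B.1 *
      ((P⁻¹ : GL (Fin (k + l)) F) : Matrix (Fin (k + l)) (Fin (k + l)) F), ?_⟩,
      fun B => ⟨((P⁻¹ : GL (Fin (k + l)) F) : Matrix (Fin (k + l)) (Fin (k + l)) F) * B.1 *
        (P : Matrix (Fin (k + l)) (Fin (k + l)) F), ?_⟩, ?_, ?_⟩
    · rw [hMv]
      calc _ = (P : Matrix (Fin (k + l)) (Fin (k + l)) F) * B.1 *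
            (((P⁻¹ : GL (Fin (k + l)) F) : Matrix (Fin (k + l)) (Fin (k + l)) F) *
            (P : Matrix (Fin (k + l)) (Fin (k + l)) F)) * A.1 *
            ((P⁻¹ : GL (Fin (k + l)) F) : Matrix (Fin (k + l)) (Fin (k + l)) F) := by
            simp only [Matrix.mul_assoc]
        _ = (P : Matrix (Fin (k + l)) (Fin (k + l)) F) * (B.1 * A.1) *
            ((P⁻¹ : GL (Fin (k + l)) F) : Matrix (Fin (k + l)) (Fin (k + l)) F) := by
            rw [hPP', Matrix.mul_one]; simp only [Matrix.mul_assoc]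
        _ = (P : Matrix (Fin (k + l)) (Fin (k + l)) F) * A.1 *
            (((P⁻¹ : GL (Fin (k + l)) F) : Matrix (Fin (k + l)) (Fin (k + l)) F) *
            (P : Matrix (Fin (k + l)) (Fin (k + l)) F)) * B.1 *
            ((P⁻¹ : GL (Fin (k + l)) F) : Matrix (Fin (k + l)) (Fin (k + l)) F) := by
            rw [B.2, hPP', Matrix.mul_one]; simp only [Matrix.mul_assoc]
        _ = _ := by simp only [Matrix.mul_assoc]
    · obtain ⟨B, hB⟩ := B
      rw [hMv] at hB
      show ((P⁻¹ : GL (Fin (k + l)) F) : Matrix (Fin (k + l)) (Fin (k + l)) F) * B *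
        (P : Matrix (Fin (k + l)) (Fin (k + l)) F) * A.1 = A.1 *
        (((P⁻¹ : GL (Fin (k + l)) F) : Matrix (Fin (k + l)) (Fin (k + l)) F) * B *
        (P : Matrix (Fin (k + l)) (Fin (k + l)) F))
      calc _ = ((P⁻¹ : GL (Fin (k + l)) F) : Matrix (Fin (k + l)) (Fin (k + l)) F) * (B *
            ((P : Matrix (Fin (k + l)) (Fin (k + l)) F) * A.1 *
            ((P⁻¹ : GL (Fin (k + l)) F) : Matrix (Fin (k + l)) (Fin (k + l)) F))) *
            (P : Matrix (Fin (k + l)) (Fin (k + l)) F) := by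
            simp only [Matrix.mul_assoc, hPP', Matrix.mul_one]
        _ = ((P⁻¹ : GL (Fin (k + l)) F) : Matrix (Fin (k + l)) (Fin (k + l)) F) * (
            ((P : Matrix (Fin (k + l)) (Fin (k + l)) F) * A.1 *
            ((P⁻¹ : GL (Fin (k + l)) F) : Matrix (Fin (k + l)) (Fin (k + l)) F)) * B) *
            (P : Matrix (Fin (k + l)) (Fin (k + l)) F) := by rw [hB]
        _ = (((P⁻¹ : GL (Fin (k + l)) F) : Matrix (Fin (k + l)) (Fin (k + l)) F) *
            (P : Matrix (Fin (k + l)) (Fin (k + l)) F)) * A.1 *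
            (((P⁻¹ : GL (Fin (k + l)) F) : Matrix (Fin (k + l)) (Fin (k + l)) F) * B *
            (P : Matrix (Fin (k + l)) (Fin (k + l)) F)) := by
            simp only [Matrix.mul_assoc]
        _ = _ := by rw [hPP', Matrix.one_mul]
    · intro B
      apply Subtype.ext
      show ((P⁻¹ : GL (Fin (k + l)) F) : Matrix (Fin (k + l)) (Fin (k + l)) F) *
        ((P : Matrix (Fin (k + l)) (Fin (k + l)) F) * B.1 *
        ((P⁻¹ : GL (Fin (k + l)) F) : Matrix (Fin (k + l)) (Fin (k + l)) F)) *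
        (P : Matrix (Fin (k + l)) (Fin (k + l)) F) = B.1
      calc _ = (((P⁻¹ : GL (Fin (k + l)) F) : Matrix (Fin (k + l)) (Fin (k + l)) F) *
            (P : Matrix (Fin (k + l)) (Fin (k + l)) F)) * B.1 *
            (((P⁻¹ : GL (Fin (k + l)) F) : Matrix (Fin (k + l)) (Fin (k + l)) F) *
            (P : Matrix (Fin (k + l)) (Fin (k + l)) F)) := by simp only [Matrix.mul_assoc]
        _ = B.1 := by rw [hPP', Matrix.one_mul, Matrix.mul_one]
    · intro B
      apply Subtype.ext
      show (P : Matrix (Fin (k + l)) (Fin (k + l)) F) *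
        (((P⁻¹ : GL (Fin (k + l)) F) : Matrix (Fin (k + l)) (Fin (k + l)) F) * B.1 *
        (P : Matrix (Fin (k + l)) (Fin (k + l)) F)) *
        ((P⁻¹ : GL (Fin (k + l)) F) : Matrix (Fin (k + l)) (Fin (k + l)) F) = B.1
      calc _ = ((P : Matrix (Fin (k + l)) (Fin (k + l)) F) *
            ((P⁻¹ : GL (Fin (k + l)) F) : Matrix (Fin (k + l)) (Fin (k + l)) F)) * B.1 *
            ((P : Matrix (Fin (k + l)) (Fin (k + l)) F) *
            ((P⁻¹ : GL (Fin (k + l)) F) : Matrix (Fin (k + l)) (Fin (k + l)) F)) := by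
            simp only [Matrix.mul_assoc]
        _ = B.1 := by rw [hPP, Matrix.one_mul, Matrix.mul_one]
  set a := M.submatrix (Fin.castAdd l) (Fin.castAdd l) with ha
  set b := M.submatrix (Fin.natAdd k) (Fin.natAdd k) with hb
  have ham : a ^ m = Matrix.scalar (Fin k) ζ := ctm_pow_up M hBD m ζ hMm
  have hbm : b ^ m = Matrix.scalar (Fin l) ζ := ctm_pow_lo M hBD m ζ hMm
  refine ⟨k, P, hk3, by omega, by omega, hBD, ?_⟩
  intro r
  generalize hS : (cot (k + l) F k).filter (fun T => M * T = T * M ∧ T.rank = r) = S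
  have hmem : ∀ T, T ∈ S ↔ T ∈ cot (k + l) F k ∧ (M * T = T * M ∧ T.rank = r) := by
    intro T
    rw [← hS]
    exact Finset.mem_filter
  have hq1 : 1 < Nat.card F := by
    rw [Nat.card_eq_fintype_card]; exact Fintype.one_lt_card
  have hq0 : (0 : ℝ) < (Nat.card F : ℝ) := by exact_mod_cast (by omega : 0 < Nat.card F)
  have hq1' : (1 : ℝ) ≤ (Nat.card F : ℝ) := by exact_mod_cast hq1.le
  rw [hcN]
  have HM := H (k + l) (k + l) M M (haev _ M hMm) (haev _ M hMm)
  have hcM : (cN M : ℝ) = (Nat.card F : ℝ) ^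
      ((∑ j, w j * (ν (k + l) M j * ν (k + l) M j) : ℕ) : ℝ) := by
    rw [Real.rpow_natCast]
    exact_mod_cast HM.2.2.1
  set bnd : ℝ := 4 ^ m * (Nat.card F : ℝ) ^ ((r : ℝ) * (((k + l : ℕ) : ℝ) - r) / m) *
          ((cN M : ℝ) * (Nat.card F : ℝ) ^ (-(((k + l : ℕ) : ℝ) ^ 2 / m))) ^ (1 / 4 : ℝ) with hbnd
  have hbnd0 : 0 ≤ bnd := by positivity
  let Sι : (Fin g.natDegree → Fin (k + l + 1)) → Finset (Matrix (Fin (k + l)) (Fin (k + l)) F) :=
    fun ι => S.filter (fun T => ∃ B : Matrix (Fin r) (Fin r) F, B ^ m = Matrix.scalar (Fin r) ζ ∧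
      (∀ j, ν r B j = (ι j : ℕ)) ∧ ∃ (j : Matrix (Fin l) (Fin r) F) (s : Matrix (Fin r) (Fin k) F)
      (s' : Matrix (Fin k) (Fin r) F), T.submatrix (Fin.natAdd k) (Fin.castAdd l) = j * s ∧
        s * a = B * s ∧ j * B = b * j ∧ s * s' = 1)
  have hcover : S ⊆ Finset.univ.biUnion Sι := by
    intro T hT
    obtain ⟨hT1, hT2, hT3⟩ := (hmem T).mp hT
    have hrk : (T.submatrix (Fin.natAdd k) (Fin.castAdd l)).rank = r := by
      rw [ctm_cot_rank T hT1, hT3]
    obtain ⟨B, j, s, s', hB, h1, h2, h3, h4⟩ := ctm_inter (m := m) ζ a b _ hrk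
      (ctm_cot M T hT1 hT2) ham
    have HB := H r r B B (haev r B hB) (haev r B hB)
    have hrn : r ≤ k + l := by
      rw [← hT3]
      simpa using T.rank_le_card_width
    have hν : ∀ j, ν r B j < k + l + 1 := by
      intro i
      by_cases hwi : w i = 0
      · rw [HB.2.1 i hwi]; omega
      · have h5 : w i * ν r B i ≤ r := by
          calc w i * ν r B i ≤ ∑ j, w j * ν r B j :=
                Finset.single_le_sum (f := fun j => w j * ν r B j) (fun _ _ => Nat.zero_le _)
                  (Finset.mem_univ i)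
            _ = r := HB.1
        have h6 : 1 * ν r B i ≤ w i * ν r B i := Nat.mul_le_mul_right _ (by omega)
        omega
    refine Finset.mem_biUnion.mpr ⟨fun i => ⟨ν r B i, hν i⟩, Finset.mem_univ _, ?_⟩
    exact Finset.mem_filter.mpr ⟨hT, B, hB, fun i => rfl, j, s, s', h1, h2, h3, h4⟩
  have hone : ∀ ι, ((Sι ι).card : ℝ) ≤ bnd := by
    intro ι
    by_cases hemp : (Sι ι) = ∅
    · rw [hemp]; simpa using hbnd0
    obtain ⟨T0, hT0⟩ := Finset.nonempty_iff_ne_empty.mpr hemp
    obtain ⟨_, B0, hB0, hν0, _⟩ := Finset.mem_filter.mp hT0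
    set Im := (Sι ι).image (fun T => T.submatrix (Fin.natAdd k) (Fin.castAdd l)) with hIm
    have hcard : Im.card = (Sι ι).card := by
      apply Finset.card_image_of_injOn
      intro T hT T' hT' h
      have e1 := (hmem T).mp (Finset.mem_filter.mp hT).1
      have e2 := (hmem T').mp (Finset.mem_filter.mp hT').1
      exact ctm_cot_ext T T' e1.1 e2.1 h
    have hcount := ctm_count a b B0 Im (by
      intro t ht
      obtain ⟨T, hT, rfl⟩ := Finset.mem_image.mp ht
      obtain ⟨_, B, hB, hν, j, s, s', h1, h2, h3, h4⟩ := Finset.mem_filter.mp hT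
      have HBB := H r r B B0 (haev r B hB) (haev r B0 hB0)
      obtain ⟨P', Q', hPQ, hQP, hPB⟩ := HBB.2.2.2 rfl (by
        funext i; rw [hν i, hν0 i])
      exact ctm_hom_of_type hPQ hQP hPB h1 h2 h3 h4)
    rw [hcard] at hcount
    have Hka := (H k r a B0 (haev k a ham) (haev r B0 hB0)).2.2.1
    have Hak := (H r k B0 a (haev r B0 hB0) (haev k a ham)).2.2.1
    have Hbl := (H r l B0 b (haev r B0 hB0) (haev l b hbm)).2.2.1
    have HBM := (H r (k + l) B0 M (haev r B0 hB0) (haev _ M hMm)).2.2.1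
    have HBB := H r r B0 B0 (haev r B0 hB0) (haev r B0 hB0)
    have hsp := ctm_hom_split M hBD B0
    have hsym : Nat.card {f : Matrix (Fin r) (Fin k) F // f * a = B0 * f} =
        Nat.card {f : Matrix (Fin k) (Fin r) F // f * B0 = a * f} := by
      rw [Hka, Hak]
      congr 1
      exact Finset.sum_congr rfl fun i _ => by ring
    rw [hsym, hsp, HBM] at hcount
    have haul := hAUL F g hg r B0 (haev r B0 hB0)
    rw [hN] at haul
    have hcB : cN B0 = Nat.card F ^ (∑ j, w j * (ν r B0 j * ν r B0 j)) := HBB.2.2.1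
    rw [hcB] at haul
    have hfin : (Sι ι).card * Nat.card F ^ (∑ j, w j * (ν r B0 j * ν r B0 j)) ≤
        4 ^ m * Nat.card F ^ (∑ j, w j * (ν r B0 j * ν (k + l) M j)) := by
      calc _ ≤ (Sι ι).card * (4 ^ m * Nat.card {B : GL (Fin r) F //
              (B : Matrix (Fin r) (Fin r) F) * B0 = B0 * (B : Matrix (Fin r) (Fin r) F)}) :=
            Nat.mul_le_mul_left _ haul
        _ = 4 ^ m * ((Sι ι).card * Nat.card {B : GL (Fin r) F //
              (B : Matrix (Fin r) (Fin r) F) * B0 = B0 * (B : Matrix (Fin r) (Fin r) F)}) := by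
            ring
        _ ≤ _ := Nat.mul_le_mul_left _ hcount
    have hcs := ctm_cs w (ν r B0) (ν (k + l) M) m (k + l) r hm (by rw [hw, hN]) HM.1 HBB.1
    set X := ∑ j, w j * (ν r B0 j * ν (k + l) M j) with hX
    set Y := ∑ j, w j * (ν r B0 j * ν r B0 j) with hY
    set Z := ∑ j, w j * (ν (k + l) M j * ν (k + l) M j) with hZ
    have hfin' : ((Sι ι).card : ℝ) * (Nat.card F : ℝ) ^ (Y : ℝ) ≤
        4 ^ m * (Nat.card F : ℝ) ^ (X : ℝ) := by
      rw [Real.rpow_natCast, Real.rpow_natCast]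
      exact_mod_cast hfin
    have hYpos : 0 < (Nat.card F : ℝ) ^ (Y : ℝ) := Real.rpow_pos_of_pos hq0 _
    have h1 : ((Sι ι).card : ℝ) ≤ 4 ^ m * (Nat.card F : ℝ) ^ ((X : ℝ) - Y) := by
      rw [Real.rpow_sub hq0, ← mul_div_assoc, le_div_iff₀ hYpos]
      exact hfin'
    refine h1.trans ?_
    rw [hbnd, hcM, ← Real.rpow_add hq0, ← Real.rpow_mul hq0.le, mul_assoc, ← Real.rpow_add hq0]
    refine mul_le_mul_of_nonneg_left ?_ (by positivity)
    apply Real.rpow_le_rpow_of_exponent_le hq1'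
    have e5 : ((Z : ℝ) + -(((k + l : ℕ) : ℝ) ^ 2 / m)) * (1 / 4) =
        ((Z : ℝ) - ((k + l : ℕ) : ℝ) ^ 2 / m) / 4 := by ring
    rw [e5]
    exact hcs
  calc ((S.card : ℕ) : ℝ) ≤ ((Finset.univ.biUnion Sι).card : ℝ) := by
        exact_mod_cast Finset.card_le_card hcover
    _ ≤ ((∑ ι, (Sι ι).card : ℕ) : ℝ) := by exact_mod_cast Finset.card_biUnion_le
    _ = ∑ ι, ((Sι ι).card : ℝ) := by push_cast; rfl
    _ ≤ ∑ _ι : (Fin g.natDegree → Fin (k + l + 1)), bnd := Finset.sum_le_sum fun ι _ => hone ι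
    _ = (((k + l : ℕ) : ℝ) + 1) ^ m * bnd := by
        rw [Finset.sum_const, Finset.card_univ, nsmul_eq_mul]
        congr 1
        simp [hN]
    _ = _ := by rw [hbnd]; ring

end

end SRJ
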