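import Mathlib
import Pool.Agent.SRJ.StB

/-!
# CYC: the commutant of an endomorphism with a cyclic direct summand
-/

set_option autoImplicit false

namespace SRJ

open Polynomial

section

variable {F V : Type} [Field F] [AddCommGroup V] [Module F V]

/-- the minimal polynomial of a vector: a monic annihilating polynomial of least degree -/
theorem cyc_minpoly [FiniteDimensional F V] (w : V →ₗ[F] V) (v : V) :
    ∃ g : F[X], g.Monic ∧ aeval w g v = 0 ∧
      ∀ f : F[X], f.degree < g.degree → aeval w f v = 0 → f = 0 := by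
  classical
  have hex : ∃ k : ℕ, ∃ g : F[X], g.Monic ∧ aeval w g v = 0 ∧ g.natDegree = k :=
    ⟨_, w.charpoly, w.charpoly_monic, by rw [LinearMap.aeval_self_charpoly]; rfl, rfl⟩
  obtain ⟨g, hg, hgv, hgk⟩ := Nat.find_spec hex
  refine ⟨g, hg, hgv, fun f hfd hfv => ?_⟩
  by_contra hf
  have hlt : f.natDegree < Nat.find hex := by
    rw [← hgk]
    exact natDegree_lt_natDegree hf hfd
  apply Nat.find_min hex hlt
  refine ⟨f * C (leadingCoeff f)⁻¹, monic_mul_leadingCoeff_inv hf, ?_, ?_⟩
  · rw [mul_comm, map_mul, Module.End.mul_apply, hfv, map_zero]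
  · rw [natDegree_mul_C (inv_ne_zero (leadingCoeff_ne_zero.2 hf))]

/-- a linear functional whose kernel contains no nonzero invariant subspace of the cyclic
subspace -/
theorem cyc_functional [FiniteDimensional F V] (w : V →ₗ[F] V) (V₂ : Submodule F V) (v : V)
    (hcyc : ∀ x ∈ V₂, ∃ f : F[X], x = aeval w f v) :
    ∃ φ : V →ₗ[F] F, ∀ u ∈ V₂, (∀ i : ℕ, φ ((w ^ i) u) = 0) → u = 0 := by
  classical
  obtain ⟨g, hg, hgv, hmin⟩ := cyc_minpoly w v
  let r := g.natDegree
  let Φ : degreeLT F r →ₗ[F] V :=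
    { toFun := fun f => aeval w (f : F[X]) v
      map_add' := fun a b => by simp
      map_smul' := fun c a => by simp }
  have hΦ : LinearMap.ker Φ = ⊥ := by
    rw [LinearMap.ker_eq_bot']
    intro f hf
    apply Subtype.ext
    refine hmin f ?_ hf
    rw [degree_eq_natDegree hg.ne_zero]
    exact mem_degreeLT.1 f.2
  obtain ⟨ψ, hψ⟩ := LinearMap.exists_leftInverse_of_injective Φ hΦ
  have hψ' : ∀ (f : F[X]) (hf : f.degree < (r : WithBot ℕ)), ψ (aeval w f v) = ⟨f, mem_degreeLT.2 hf⟩ := by
    intro f hf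
    exact LinearMap.congr_fun hψ ⟨f, mem_degreeLT.2 hf⟩
  refine ⟨(lcoeff F (r - 1)) ∘ₗ (degreeLT F r).subtype ∘ₗ ψ, fun u hu h0 => ?_⟩
  obtain ⟨f₀, hf₀⟩ := hcyc u hu
  let f := f₀ %ₘ g
  have hfd : f.degree < g.degree := degree_modByMonic_lt f₀ hg
  have hfu : u = aeval w f v := by
    rw [hf₀]
    conv_lhs => rw [← modByMonic_add_div f₀ g, mul_comm g]
    rw [map_add, map_mul, LinearMap.add_apply, Module.End.mul_apply, hgv, map_zero, add_zero]
  by_contra hu0
  have hf0 : f ≠ 0 := by
    intro h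
    apply hu0
    rw [hfu, h, map_zero]
    rfl
  have hnd : f.natDegree < r := natDegree_lt_natDegree hf0 hfd
  have h1 := h0 (r - 1 - f.natDegree)
  have h2 : (w ^ (r - 1 - f.natDegree)) u = aeval w (X ^ (r - 1 - f.natDegree) * f) v := by
    rw [map_mul, Module.End.mul_apply, ← hfu, map_pow, aeval_X]
  have h3 : (X ^ (r - 1 - f.natDegree) * f).degree < (r : WithBot ℕ) := by
    rw [degree_mul, degree_X_pow, degree_eq_natDegree hf0]
    norm_cast
    omega
  rw [h2] at h1
  have h4 : (X ^ (r - 1 - f.natDegree) * f).coeff (r - 1) = 0 := by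
    have h5 := h1
    simp only [LinearMap.comp_apply] at h5
    rw [hψ' _ h3] at h5
    exact h5
  have h6 : r - 1 = f.natDegree + (r - 1 - f.natDegree) := by omega
  rw [h6] at h4
  rw [show f.natDegree + (r - 1 - f.natDegree) - f.natDegree = r - 1 - f.natDegree by omega]
    at h4
  rw [coeff_X_pow_mul] at h4
  exact hf0 (leadingCoeff_eq_zero.1 h4)

end

/-- CYC -/
theorem t_CYC : S_CYC := by
  classical
  intro F V _ _ _ _ _ w V₁ V₂ hc h1 h2 hex
  obtain ⟨v, hv, hcyc⟩ := hex
  obtain ⟨φ, hφ⟩ := cyc_functional w V₂ v hcyc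
  let p₁ : V →ₗ[F] V₁ := Submodule.projectionOnto V₁ V₂ hc
  have : Finite V := Module.finite_of_finite F
  have : Finite (V₁ →ₗ[F] V₁) := Module.finite_of_finite F
  have : Finite (V₁ →ₗ[F] F) := Module.finite_of_finite F
  let Ψ : {z : V →ₗ[F] V // z ∘ₗ w = w ∘ₗ z} → (V₁ →ₗ[F] V₁) × (V₁ →ₗ[F] F) × V :=
    fun z => (p₁ ∘ₗ z.1 ∘ₗ V₁.subtype, φ ∘ₗ z.1 ∘ₗ V₁.subtype, z.1 v)
  have hinj : Function.Injective Ψ := by
    intro z z' hzz
    obtain ⟨e1, e23⟩ := Prod.ext_iff.1 hzz
    obtain ⟨e2, e3⟩ := Prod.ext_iff.1 e23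
    apply Subtype.ext
    rw [← sub_eq_zero]
    set d : V →ₗ[F] V := z.1 - z'.1 with hd
    have hdw : ∀ x, d (w x) = w (d x) := by
      intro x
      have a1 := LinearMap.congr_fun z.2 x
      have a2 := LinearMap.congr_fun z'.2 x
      simp only [LinearMap.comp_apply] at a1 a2
      rw [hd, LinearMap.sub_apply, LinearMap.sub_apply, a1, a2, map_sub]
    have hdwi : ∀ (i : ℕ) x, d ((w ^ i) x) = (w ^ i) (d x) := by
      intro i
      induction i with
      | zero => intro x; rfl
      | succ i ih =>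
        intro x
        rw [pow_succ, Module.End.mul_apply, Module.End.mul_apply, ih, hdw]
    have hcomm : Commute d w := by
      refine LinearMap.ext fun x => ?_
      rw [Module.End.mul_apply, Module.End.mul_apply]
      exact hdw x
    have hdf : ∀ (f : F[X]) x, d (aeval w f x) = aeval w f (d x) := by
      intro f x
      induction f using Polynomial.induction_on' with
      | add p q hp hq =>
        rw [map_add, LinearMap.add_apply, LinearMap.add_apply, map_add, hp, hq]
      | monomial k a =>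
        rw [aeval_monomial, Module.End.mul_apply, Module.End.mul_apply]
        rw [Module.algebraMap_end_apply, Module.algebraMap_end_apply, map_smul, hdwi]
    have hdv : d v = 0 := by
      rw [hd, LinearMap.sub_apply, sub_eq_zero]
      exact e3
    have hd2 : ∀ x ∈ V₂, d x = 0 := by
      intro x hx
      obtain ⟨f, hf⟩ := hcyc x hx
      rw [hf, hdf, hdv, map_zero]
    have hd1 : ∀ x ∈ V₁, d x ∈ V₂ := by
      intro x hx
      have a1 := LinearMap.congr_fun e1 ⟨x, hx⟩
      have a2 : p₁ (d x) = 0 := by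
        rw [hd, LinearMap.sub_apply, map_sub, sub_eq_zero]
        exact a1
      exact (Submodule.projectionOnto_apply_eq_zero_iff hc).1 a2
    have hw1 : ∀ (i : ℕ), ∀ x ∈ V₁, (w ^ i) x ∈ V₁ := by
      intro i
      induction i with
      | zero => intro x hx; exact hx
      | succ i ih =>
        intro x hx
        rw [pow_succ, Module.End.mul_apply]
        exact ih _ (h1 x hx)
    have hφ1 : ∀ x ∈ V₁, φ (d x) = 0 := by
      intro x hx
      have a1 := LinearMap.congr_fun e2 ⟨x, hx⟩
      rw [hd, LinearMap.sub_apply, map_sub, sub_eq_zero]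
      exact a1
    have hd1' : ∀ x ∈ V₁, d x = 0 := by
      intro x hx
      refine hφ (d x) (hd1 x hx) fun i => ?_
      rw [← hdwi]
      exact hφ1 _ (hw1 i x hx)
    refine LinearMap.ext fun x => ?_
    have hx : x ∈ V₁ ⊔ V₂ := by
      rw [hc.sup_eq_top]
      exact Submodule.mem_top
    obtain ⟨a, ha, b, hb, rfl⟩ := Submodule.mem_sup.1 hx
    rw [map_add, hd1' a ha, hd2 b hb, add_zero]
    rfl
  refine (Nat.card_le_card_of_injective Ψ hinj).trans (le_of_eq ?_)
  rw [Nat.card_prod, Nat.card_prod, Module.natCard_eq_pow_finrank (K := F) (V := V₁ →ₗ[F] V₁),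
    Module.natCard_eq_pow_finrank (K := F) (V := V₁ →ₗ[F] F),
    Module.natCard_eq_pow_finrank (K := F) (V := V), Module.finrank_linearMap,
    Module.finrank_linearMap, Module.finrank_self, mul_one, ← pow_add, ← pow_add]
  congr 1
  ring

end SRJ
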