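import Mathlib
import Pool.Agent.SRJ.StB

/-!
# Module `DIV`: divisors of the characteristic polynomial of elements of `SL_n`
-/

set_option autoImplicit false

namespace SRJ

open RSF FL0 Polynomial Pool.Agent.Lib_helper13

noncomputable section

/-- `|GL| = (q - 1) |SL|` -/
theorem div_card {F : Type} [Field F] [Finite F] (n : ℕ) (hn : 1 ≤ n) :
    Nat.card (GL (Fin n) F) = (Nat.card F - 1) * Nat.card (SL n F) := by
  classical
  have : Nonempty (Fin n) := ⟨⟨0, hn⟩⟩
  let d : GL (Fin n) F →* Fˣ := Matrix.GeneralLinearGroup.det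
  have h1 : Nat.card d.ker * d.ker.index = Nat.card (GL (Fin n) F) := Subgroup.card_mul_index _
  have h2 : d.ker.index = Nat.card d.range := Subgroup.index_ker d
  have h3 : d.range = ⊤ :=
    MonoidHom.range_eq_top.2 (Matrix.GeneralLinearGroup.det_surjective (n := Fin n) (R := F))
  have h4 : Nat.card Fˣ = Nat.card F - 1 := by
    have : Fintype F := Fintype.ofFinite F
    rw [Nat.card_eq_fintype_card, Nat.card_eq_fintype_card, Fintype.card_units]
  have h5 : Nat.card d.ker = Nat.card (SL n F) := by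
    have hdet : ∀ x : d.ker, (x.1 : Matrix (Fin n) (Fin n) F).det = 1 := by
      intro x
      have h := x.2
      rw [MonoidHom.mem_ker] at h
      have h' := congrArg (fun u : Fˣ => (u : F)) h
      simpa [d] using h'
    refine Nat.card_congr (Equiv.ofBijective
      (fun x : d.ker => (⟨(x.1 : Matrix (Fin n) (Fin n) F), hdet x⟩ : SL n F)) ⟨?_, ?_⟩)
    · intro x y hxy
      have h : (x.1 : Matrix (Fin n) (Fin n) F) = (y.1 : Matrix (Fin n) (Fin n) F) :=
        congrArg Subtype.val hxy
      exact Subtype.ext (Units.ext h)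
    · intro A
      refine ⟨⟨(A : GL (Fin n) F), ?_⟩, ?_⟩
      · rw [MonoidHom.mem_ker]
        ext
        simp [d]
      · apply Subtype.ext
        rfl
  rw [← h1, h2, h3, h5, ← h4, mul_comm]
  congr 1
  exact Nat.card_congr Subgroup.topEquiv.toEquiv

/-- linearly independent vectors are part of a basis -/
theorem div_ext {F : Type} [Field F] {d m : ℕ} (w : Fin d → (Fin d ⊕ Fin m → F))
    (hw : LinearIndependent F w) :
    ∃ b : Module.Basis (Fin d ⊕ Fin m) F (Fin d ⊕ Fin m → F), ∀ k, b (Sum.inl k) = w k := by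
  let U := Submodule.span F (Set.range w)
  let bU : Module.Basis (Fin d) F U := Module.Basis.span hw
  have hfin : Module.finrank F ((Fin d ⊕ Fin m → F) ⧸ U) = m := by
    have h1 := U.finrank_quotient_add_finrank
    rw [Module.finrank_eq_card_basis bU, Module.finrank_fintype_fun_eq_card, Fintype.card_sum,
      Fintype.card_fin, Fintype.card_fin] at h1
    omega
  let bQ := Module.finBasisOfFinrankEq F _ hfin
  refine ⟨Module.Basis.sumQuot bU bQ, fun k => ?_⟩
  rw [Module.Basis.sumQuot_inl]
  exact congrArg Subtype.val (Module.Basis.span_apply hw k)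

/-- an eigenvector over the field generated by a root -/
theorem div_eig {F ι : Type} [Field F] [Fintype ι] [DecidableEq ι] (p : F[X])
    [Fact (Irreducible p)] (Y : Matrix ι ι F) (hp : p ∣ Y.charpoly) :
    ∃ w : ι → AdjoinRoot p, w ≠ 0 ∧
      ∀ i, ∑ j, algebraMap F (AdjoinRoot p) (Y i j) * w j = AdjoinRoot.root p * w i := by
  let Y' : Matrix ι ι (AdjoinRoot p) := Y.map (algebraMap F (AdjoinRoot p))
  have h1 : (Matrix.toLin' Y').charpoly.IsRoot (AdjoinRoot.root p) := by
    rw [Matrix.charpoly_toLin', Matrix.charpoly_map, IsRoot.def, eval_map_algebraMap]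
    obtain ⟨h, hh⟩ := hp
    rw [hh, map_mul]
    have : aeval (AdjoinRoot.root p) p = 0 := by
      rw [AdjoinRoot.aeval_eq, AdjoinRoot.mk_self]
    rw [this, zero_mul]
  obtain ⟨w, hw⟩ := ((Module.End.hasEigenvalue_iff_isRoot_charpoly _ _).2 h1).exists_hasEigenvector
  refine ⟨w, hw.2, fun i => ?_⟩
  have h2 := congrFun (hw.apply_eq_smul) i
  rw [Matrix.toLin'_apply] at h2
  exact h2

/-- The block form. -/
theorem div_block {F : Type} [Field F] {d m : ℕ} (p : F[X]) (hm : p.Monic) (hi : Irreducible p)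
    (hd : p.natDegree = d) (Y : Matrix (Fin d ⊕ Fin m) (Fin d ⊕ Fin m) F)
    (hp : p ∣ Y.charpoly) :
    ∃ (g : GL (Fin d ⊕ Fin m) F) (A : Matrix (Fin d) (Fin d) F) (B : Matrix (Fin d) (Fin m) F)
      (D : Matrix (Fin m) (Fin m) F),
      (g⁻¹ : GL (Fin d ⊕ Fin m) F).1 * Y * g.1 = Matrix.fromBlocks A B 0 D ∧ A.charpoly = p := by
  subst hd
  have := Fact.mk hi
  obtain ⟨w, hw0, hw⟩ := div_eig p Y hp
  let pb := AdjoinRoot.powerBasis' hm
  have hdim : pb.dim = p.natDegree := rfl
  let e : Module.Basis (Fin p.natDegree) F (AdjoinRoot p) := pb.basis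
  let M : Matrix (Fin p.natDegree) (Fin p.natDegree) F := Algebra.leftMulMatrix e (AdjoinRoot.root p)
  have hM : M.charpoly = p := by
    have h1 := charpoly_leftMulMatrix pb
    have h2 : pb.gen = AdjoinRoot.root p := rfl
    rw [h2] at h1
    refine h1.trans ?_
    exact AdjoinRoot.minpoly_root hi.ne_zero |>.trans (by rw [hm.leadingCoeff]; simp)
  let W : Fin p.natDegree → (Fin p.natDegree ⊕ Fin m → F) := fun k i => e.repr (w i) k
  have hYW : ∀ l, Y.mulVec (W l) = ∑ k, M l k • W k := by
    intro l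
    funext i
    rw [Matrix.mulVec, dotProduct, Finset.sum_apply]
    have h1 : e.repr (∑ j, algebraMap F (AdjoinRoot p) (Y i j) * w j) l = ∑ j, Y i j * W l j := by
      rw [map_sum, Finsupp.finsetSum_apply]
      refine Finset.sum_congr rfl fun j _ => ?_
      rw [← Algebra.smul_def, map_smul, Finsupp.smul_apply, smul_eq_mul]
    have h2 : e.repr (AdjoinRoot.root p * w i) l = ∑ k, M l k * W k i := by
      have h3 := Algebra.leftMulMatrix_mulVec_repr e (AdjoinRoot.root p) (w i)
      have h4 := congrFun h3 l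
      rw [← h4]
      rfl
    rw [← h1, hw i, h2]
    rfl
  have hli : LinearIndependent F W := by
    rw [Fintype.linearIndependent_iff]
    intro c hc
    let ℓ : AdjoinRoot p →ₗ[F] F := e.constr F c
    have hℓ : ∀ z, ℓ z = ∑ k, c k * e.repr z k := by
      intro z
      rw [Module.Basis.constr_apply_fintype]
      refine Finset.sum_congr rfl fun k _ => ?_
      rw [smul_eq_mul, mul_comm]
      rfl
    have h1 : ∀ i, ℓ (w i) = 0 := by
      intro i
      rw [hℓ]
      have := congrFun hc i
      rw [Finset.sum_apply] at this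
      exact this
    have h2 : ∀ (f : F[X]) i, ℓ (AdjoinRoot.mk p f * w i) = 0 := by
      intro f
      induction f using Polynomial.induction_on' with
      | add f g hf hg =>
        intro i
        rw [map_add, add_mul, map_add, hf, hg, add_zero]
      | monomial k a =>
        induction k with
        | zero =>
          intro i
          rw [monomial_zero_left, AdjoinRoot.mk_C, ← AdjoinRoot.algebraMap_eq, ← Algebra.smul_def,
            map_smul, h1, smul_zero]
        | succ k ih =>
          intro i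
          have h3 : AdjoinRoot.mk p (monomial (k + 1) a) * w i =
              ∑ j, Y i j • (AdjoinRoot.mk p (monomial k a) * w j) := by
            have h4 : (monomial (k + 1) a : F[X]) = monomial k a * X := by
              rw [monomial_mul_X]
            rw [h4, map_mul, AdjoinRoot.mk_X, mul_assoc, ← hw i, Finset.mul_sum]
            refine Finset.sum_congr rfl fun j _ => ?_
            rw [Algebra.smul_def]
            ring
          rw [h3, map_sum]
          refine Finset.sum_eq_zero fun j _ => ?_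
          rw [map_smul, ih, smul_zero]
    obtain ⟨i, hi0⟩ : ∃ i, w i ≠ 0 := by
      by_contra hcon
      push Not at hcon
      exact hw0 (funext hcon)
    intro k
    obtain ⟨f, hf⟩ := AdjoinRoot.mk_surjective (g := p) (e k * (w i)⁻¹)
    have h5 := h2 f i
    rw [hf, mul_assoc, inv_mul_cancel₀ hi0, mul_one] at h5
    have h6 : ℓ (e k) = c k := e.constr_basis F c k
    rw [← h6, h5]
  obtain ⟨b, hb⟩ := div_ext W hli
  let P : Matrix (Fin p.natDegree ⊕ Fin m) (Fin p.natDegree ⊕ Fin m) F :=
    (Pi.basisFun F (Fin p.natDegree ⊕ Fin m)).toMatrix b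
  let Q : Matrix (Fin p.natDegree ⊕ Fin m) (Fin p.natDegree ⊕ Fin m) F :=
    b.toMatrix (Pi.basisFun F (Fin p.natDegree ⊕ Fin m))
  have hPQ : P * Q = 1 := Module.Basis.toMatrix_mul_toMatrix_flip _ _
  have hQP : Q * P = 1 := Module.Basis.toMatrix_mul_toMatrix_flip _ _
  let g : GL (Fin p.natDegree ⊕ Fin m) F := ⟨P, Q, hPQ, hQP⟩
  have hPi : ∀ i j, P i j = b j i := fun i j => rfl
  -- the first columns
  have hcol : ∀ i l, (Q * Y * P) i (Sum.inl l) = ∑ k, M l k *
      (1 : Matrix (Fin p.natDegree ⊕ Fin m) (Fin p.natDegree ⊕ Fin m) F) i (Sum.inl k) := by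
    intro i l
    have h1 : ∀ j, (Y * P) j (Sum.inl l) = ∑ k, M l k * P j (Sum.inl k) := by
      intro j
      have h2 := congrFun (hYW l) j
      rw [Finset.sum_apply] at h2
      have h3 : (Y * P) j (Sum.inl l) = Y.mulVec (W l) j := by
        rw [Matrix.mul_apply, Matrix.mulVec, dotProduct]
        refine Finset.sum_congr rfl fun x _ => ?_
        rw [hPi, hb]
      rw [h3, h2]
      refine Finset.sum_congr rfl fun k _ => ?_
      rw [hPi, hb]
      rfl
    rw [mul_assoc, Matrix.mul_apply]
    have h4 : ∀ j, Q i j * (Y * P) j (Sum.inl l) = ∑ k, M l k * (Q i j * P j (Sum.inl k)) := by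
      intro j
      rw [h1, Finset.mul_sum]
      refine Finset.sum_congr rfl fun k _ => ?_
      ring
    rw [Finset.sum_congr rfl fun j _ => h4 j, Finset.sum_comm]
    refine Finset.sum_congr rfl fun k _ => ?_
    rw [← Finset.mul_sum, ← hQP, Matrix.mul_apply]
  refine ⟨g, M.transpose, (Q * Y * P).toBlocks₁₂, (Q * Y * P).toBlocks₂₂, ?_, ?_⟩
  · show Q * Y * P = _
    conv_lhs => rw [← Matrix.fromBlocks_toBlocks (Q * Y * P)]
    congr 1
    · ext i l
      show (Q * Y * P) (Sum.inl i) (Sum.inl l) = M l i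
      rw [hcol, Finset.sum_eq_single i]
      · rw [Matrix.one_apply_eq, mul_one]
      · intro k _ hk
        rw [Matrix.one_apply_ne (fun h => hk (Sum.inl_injective h).symm), mul_zero]
      · intro h; exact absurd (Finset.mem_univ i) h
    · ext i l
      show (Q * Y * P) (Sum.inr i) (Sum.inl l) = 0
      rw [hcol]
      refine Finset.sum_eq_zero fun k _ => ?_
      rw [Matrix.one_apply_ne Sum.inr_ne_inl, mul_zero]
  · rw [Matrix.charpoly_transpose, hM]

/-- the elements of the parabolic subgroup -/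
def div_h {F : Type} [Field F] {d m : ℕ} (a : GL (Fin d) F) (e : GL (Fin m) F)
    (B : Matrix (Fin d) (Fin m) F) : GL (Fin d ⊕ Fin m) F where
  val := Matrix.fromBlocks a.1 B 0 e.1
  inv := Matrix.fromBlocks a.2 (-(a.2 * B * e.2)) 0 e.2
  val_inv := by
    have h1 : a.1 * a.2 = 1 := a.3
    have h2 : e.1 * e.2 = 1 := e.3
    rw [Matrix.fromBlocks_multiply, ← Matrix.fromBlocks_one]
    congr 1
    · rw [Matrix.mul_zero, add_zero, h1]
    · rw [Matrix.mul_neg, ← Matrix.mul_assoc, ← Matrix.mul_assoc, h1, Matrix.one_mul,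
        neg_add_cancel]
    · rw [Matrix.zero_mul, Matrix.mul_zero, add_zero]
    · rw [Matrix.zero_mul, zero_add, h2]
  inv_val := by
    have h1 : a.2 * a.1 = 1 := a.4
    have h2 : e.2 * e.1 = 1 := e.4
    rw [Matrix.fromBlocks_multiply, ← Matrix.fromBlocks_one]
    congr 1
    · rw [Matrix.mul_zero, add_zero, h1]
    · rw [Matrix.neg_mul, Matrix.mul_assoc, h2, Matrix.mul_one, add_neg_cancel]
    · rw [Matrix.zero_mul, Matrix.mul_zero, add_zero]
    · rw [Matrix.zero_mul, zero_add, h2]

theorem div_conj {F ι : Type} [Field F] [Fintype ι] [DecidableEq ι] (a : GL ι F)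
    (N : Matrix ι ι F) : ((a⁻¹ : GL ι F).1 * N * a.1).charpoly = N.charpoly := by
  rw [Matrix.charpoly_mul_comm, ← mul_assoc, show a.1 * (a⁻¹ : GL ι F).1 = 1 from a.3, one_mul]

theorem div_main {F : Type} [Field F] [Finite F] {d m : ℕ} (p : F[X]) (hm : p.Monic)
    (hi : Irreducible p) (hd : p.natDegree = d) (c : F) (hc : c ≠ 0) (f : F[X]) :
    Nat.card {y : Matrix (Fin d ⊕ Fin m) (Fin d ⊕ Fin m) F // y.det = c ∧ p * f ∣ y.charpoly} *
        (Nat.card (GL (Fin d) F) * Nat.card (GL (Fin m) F)) ≤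
      Nat.card (GL (Fin d ⊕ Fin m) F) *
        Nat.card (Σ A : {A : Matrix (Fin d) (Fin d) F // A.charpoly = p},
          {D : Matrix (Fin m) (Fin m) F // D.det = c / A.1.det ∧ f ∣ D.charpoly}) := by
  classical
  let S := {y : Matrix (Fin d ⊕ Fin m) (Fin d ⊕ Fin m) F // y.det = c ∧ p * f ∣ y.charpoly}
  let T := Σ A : {A : Matrix (Fin d) (Fin d) F // A.charpoly = p},
          {D : Matrix (Fin m) (Fin m) F // D.det = c / A.1.det ∧ f ∣ D.charpoly}
  have hfin1 : Finite (GL (Fin d ⊕ Fin m) F) := inferInstance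
  have hfin2 : Finite T := inferInstance
  have hex : ∀ y : S, ∃ (g : GL (Fin d ⊕ Fin m) F) (A : Matrix (Fin d) (Fin d) F)
      (B : Matrix (Fin d) (Fin m) F) (D : Matrix (Fin m) (Fin m) F),
      (g⁻¹ : GL (Fin d ⊕ Fin m) F).1 * y.1 * g.1 = Matrix.fromBlocks A B 0 D ∧ A.charpoly = p :=
    fun y => div_block p hm hi hd y.1 (dvd_trans (dvd_mul_right p f) y.2.2)
  choose g A B D hg hA using hex
  -- the conjugate
  let u : S × GL (Fin d) F × GL (Fin m) F × Matrix (Fin d) (Fin m) F → GL (Fin d ⊕ Fin m) F :=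
    fun x => g x.1 * div_h x.2.1 x.2.2.1 x.2.2.2
  let M : S × GL (Fin d) F × GL (Fin m) F × Matrix (Fin d) (Fin m) F →
      Matrix (Fin d ⊕ Fin m) (Fin d ⊕ Fin m) F :=
    fun x => (u x)⁻¹.1 * x.1.1 * (u x).1
  have hM : ∀ x, (M x).toBlocks₂₁ = 0 ∧ (M x).toBlocks₁₁.charpoly = p := by
    rintro ⟨y, a, e, B'⟩
    have h1 : M (y, a, e, B') = (div_h a e B')⁻¹.1 *
        Matrix.fromBlocks (A y) (B y) 0 (D y) * (div_h a e B').1 := by
      rw [← hg y]
      show (g y * div_h a e B')⁻¹.1 * y.1 * (g y * div_h a e B').1 = _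
      rw [mul_inv_rev, Units.val_mul, Units.val_mul]
      simp only [mul_assoc]
    have h2 : M (y, a, e, B') = Matrix.fromBlocks (a.2 * A y * a.1)
        (a.2 * A y * B' + (a.2 * B y + -(a.2 * B' * e.2) * D y) * e.1) 0 (e.2 * D y * e.1) := by
      rw [h1]
      show Matrix.fromBlocks a.2 (-(a.2 * B' * e.2)) 0 e.2 * Matrix.fromBlocks (A y) (B y) 0 (D y) *
        Matrix.fromBlocks a.1 B' 0 e.1 = _
      rw [Matrix.fromBlocks_multiply, Matrix.fromBlocks_multiply]
      congr 1
      · simp
      · simp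
      · rw [Matrix.zero_mul, Matrix.mul_zero, add_zero, Matrix.zero_mul, Matrix.zero_mul,
          zero_add, Matrix.mul_zero]
      · rw [Matrix.zero_mul, Matrix.mul_zero, add_zero, Matrix.zero_mul, Matrix.zero_mul,
          zero_add, zero_add]
    rw [h2, Matrix.toBlocks_fromBlocks₂₁, Matrix.toBlocks_fromBlocks₁₁]
    refine ⟨rfl, ?_⟩
    have h3 : (a.2 * A y * a.1).charpoly = (A y).charpoly := div_conj a (A y)
    rw [h3, hA]
  have hMf : ∀ x, M x = Matrix.fromBlocks (M x).toBlocks₁₁ (M x).toBlocks₁₂ 0 (M x).toBlocks₂₂ := by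
    intro x
    conv_lhs => rw [← Matrix.fromBlocks_toBlocks (M x)]
    rw [(hM x).1]
  have hdet : ∀ x, (M x).det = c := by
    intro x
    have h1 : (M x).det = x.1.1.det := by
      show ((u x)⁻¹.1 * x.1.1 * (u x).1).det = _
      exact Matrix.det_units_conj' (u x) x.1.1
    rw [h1, x.1.2.1]
  have hchar : ∀ x, (M x).charpoly = x.1.1.charpoly := fun x => div_conj (u x) x.1.1
  let φ : S × GL (Fin d) F × GL (Fin m) F × Matrix (Fin d) (Fin m) F →
      GL (Fin d ⊕ Fin m) F × T × Matrix (Fin d) (Fin m) F := fun x =>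
    (u x, ⟨⟨(M x).toBlocks₁₁, (hM x).2⟩, ⟨(M x).toBlocks₂₂, by
      have h1 := hdet x
      rw [hMf x, Matrix.det_fromBlocks_zero₂₁] at h1
      have h0 : (M x).toBlocks₁₁.det ≠ 0 := by
        intro h0
        rw [h0, zero_mul] at h1
        exact hc h1.symm
      have h2 := hchar x
      rw [hMf x, Matrix.charpoly_fromBlocks_zero₂₁, (hM x).2] at h2
      refine ⟨?_, ?_⟩
      · show (M x).toBlocks₂₂.det = c / (M x).toBlocks₁₁.det
        rw [eq_div_iff h0, mul_comm]
        exact h1
      · have h3 := x.1.2.2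
        rw [← h2] at h3
        exact (mul_dvd_mul_iff_left hm.ne_zero).1 h3⟩⟩, (M x).toBlocks₁₂)
  have hφ : Function.Injective φ := by
    intro x x' h
    have e1 : u x = u x' := congrArg Prod.fst h
    have e2 : (M x).toBlocks₁₁ = (M x').toBlocks₁₁ :=
      congrArg (fun z : GL (Fin d ⊕ Fin m) F × T × Matrix (Fin d) (Fin m) F => z.2.1.1.1) h
    have e3 : (M x).toBlocks₂₂ = (M x').toBlocks₂₂ :=
      congrArg (fun z : GL (Fin d ⊕ Fin m) F × T × Matrix (Fin d) (Fin m) F => z.2.1.2.1) h
    have e4 : (M x).toBlocks₁₂ = (M x').toBlocks₁₂ :=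
      congrArg (fun z : GL (Fin d ⊕ Fin m) F × T × Matrix (Fin d) (Fin m) F => z.2.2) h
    have e5 : M x = M x' := by rw [hMf x, hMf x', e2, e3, e4]
    have e6 : x.1 = x'.1 := by
      apply Subtype.ext
      have hy : ∀ z, z.1.1 = (u z).1 * M z * (u z)⁻¹.1 := by
        intro z
        show z.1.1 = (u z).1 * ((u z)⁻¹.1 * z.1.1 * (u z).1) * (u z)⁻¹.1
        have h1 : (u z).1 * (u z)⁻¹.1 = 1 := (u z).3
        calc z.1.1 = 1 * z.1.1 * 1 := by rw [one_mul, mul_one]
          _ = ((u z).1 * (u z)⁻¹.1) * z.1.1 * ((u z).1 * (u z)⁻¹.1) := by rw [h1]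
          _ = _ := by simp only [mul_assoc]
      rw [hy x, hy x', e5, e1]
    have e7 : div_h x.2.1 x.2.2.1 x.2.2.2 = div_h x'.2.1 x'.2.2.1 x'.2.2.2 := by
      have h1 : g x.1 * div_h x.2.1 x.2.2.1 x.2.2.2 = g x'.1 * div_h x'.2.1 x'.2.2.1 x'.2.2.2 := e1
      rw [e6] at h1
      exact mul_left_cancel h1
    have e8 := congrArg (fun z : GL (Fin d ⊕ Fin m) F => z.1) e7
    have e9 : Matrix.fromBlocks x.2.1.1 x.2.2.2 0 x.2.2.1.1 =
        Matrix.fromBlocks x'.2.1.1 x'.2.2.2 0 x'.2.2.1.1 := e8
    rw [Matrix.fromBlocks_inj] at e9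
    obtain ⟨y, a, e, B1⟩ := x
    obtain ⟨y', a', e', B1'⟩ := x'
    obtain ⟨f1, f2, -, f4⟩ := e9
    simp only [Prod.mk.injEq]
    exact ⟨e6, Units.ext f1, Units.ext f4, f2⟩
  have h1 := Nat.card_le_card_of_injective φ hφ
  rw [Nat.card_prod, Nat.card_prod, Nat.card_prod, Nat.card_prod, Nat.card_prod] at h1
  have hB : 0 < Nat.card (Matrix (Fin d) (Fin m) F) := Nat.card_pos
  refine Nat.le_of_mul_le_mul_right (c := Nat.card (Matrix (Fin d) (Fin m) F)) ?_ hB
  calc _ = Nat.card S * (Nat.card (GL (Fin d) F) * (Nat.card (GL (Fin m) F) *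
        Nat.card (Matrix (Fin d) (Fin m) F))) := by ring
    _ ≤ _ := h1
    _ = _ := by ring

/-- the number of the matrices with a given determinant -/
theorem div_det {F : Type} [Field F] [Finite F] (n : ℕ) (hn : 1 ≤ n) (c : F) (hc : c ≠ 0) :
    Nat.card {y : Matrix (Fin n) (Fin n) F // y.det = c} ≤ Nat.card (SL n F) := by
  classical
  have : Nonempty (Fin n) := ⟨⟨0, hn⟩⟩
  obtain ⟨s, hs⟩ := Matrix.GeneralLinearGroup.det_surjective (n := Fin n) (R := F)
    (Units.mk0 c hc)⁻¹
  have hs' : s.1.det = c⁻¹ := by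
    have := congrArg (fun u : Fˣ => (u : F)) hs
    simpa using this
  refine Nat.card_le_card_of_injective
    (fun y : {y : Matrix (Fin n) (Fin n) F // y.det = c} => (⟨s.1 * y.1, by
      rw [Matrix.det_mul, hs', y.2, inv_mul_cancel₀ hc]⟩ : SL n F)) ?_
  intro y y' h
  have h1 : s.1 * y.1 = s.1 * y'.1 := congrArg Subtype.val h
  apply Subtype.ext
  have h2 : s.2 * (s.1 * y.1) = s.2 * (s.1 * y'.1) := by rw [h1]
  rwa [← mul_assoc, ← mul_assoc, show s.2 * s.1 = 1 from s.4, one_mul, one_mul] at h2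

theorem div_reindex {F ι κ : Type} [Field F] [Fintype ι] [DecidableEq ι] [Fintype κ]
    [DecidableEq κ] (e : ι ≃ κ) (c : F) (f : F[X]) :
    Nat.card {y : Matrix ι ι F // y.det = c ∧ f ∣ y.charpoly} =
      Nat.card {y : Matrix κ κ F // y.det = c ∧ f ∣ y.charpoly} := by
  refine Nat.card_congr ((Matrix.reindex e e).subtypeEquiv fun y => ?_)
  rw [Matrix.det_reindex_self, Matrix.charpoly_reindex]

theorem div_ind (hF : S_FLG) {F : Type} [Field F] [Finite F] (L : List F[X])
    (hL : ∀ p ∈ L, p.Monic ∧ Irreducible p ∧ p ≠ X) : ∀ (n : ℕ) (c : F), c ≠ 0 →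
      L.prod.natDegree < n →
      Nat.card {y : Matrix (Fin n) (Fin n) F // y.det = c ∧ L.prod ∣ y.charpoly} *
          (L.map fun p => Nat.card F ^ p.natDegree - 1).prod ≤ Nat.card (SL n F) := by
  classical
  induction L with
  | nil =>
    intro n c hc hn
    rw [List.map_nil, List.prod_nil, List.prod_nil, mul_one]
    refine le_trans (Nat.card_le_card_of_injective
      (fun y : {y : Matrix (Fin n) (Fin n) F // y.det = c ∧ (1 : F[X]) ∣ y.charpoly} =>
        (⟨y.1, y.2.1⟩ : {y : Matrix (Fin n) (Fin n) F // y.det = c})) ?_)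
      (div_det n (by omega) c hc)
    intro y y' h
    exact Subtype.ext (congrArg (fun z : {y : Matrix (Fin n) (Fin n) F // y.det = c} => z.1) h)
  | cons p L ih =>
    intro n c hc hn
    obtain ⟨hm, hi, hX⟩ := hL p (List.mem_cons_self ..)
    have hL' : ∀ p ∈ L, p.Monic ∧ Irreducible p ∧ p ≠ X := fun q hq => hL q (List.mem_cons_of_mem _ hq)
    have hLm : L.prod.Monic := by
      have := monic_multiset_prod_of_monic (L : Multiset F[X]) id fun q hq => (hL' q hq).1
      simpa using this
    obtain ⟨d, hd⟩ : ∃ d, p.natDegree = d := ⟨_, rfl⟩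
    rw [List.prod_cons, hm.natDegree_mul hLm, hd] at hn
    obtain ⟨m, rfl⟩ : ∃ m, n = d + m := ⟨n - d, by omega⟩
    have hm1 : 1 ≤ m := by omega
    have hd1 : 1 ≤ d := by rw [← hd]; exact hi.natDegree_pos
    -- the sum
    have h1 := div_main (m := m) p hm hi hd c hc L.prod
    rw [← div_reindex (finSumFinEquiv (m := d) (n := m)).symm] at h1
    have hfin : Finite {A : Matrix (Fin d) (Fin d) F // A.charpoly = p} := inferInstance
    have : Fintype {A : Matrix (Fin d) (Fin d) F // A.charpoly = p} := Fintype.ofFinite _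
    have hdet0 : ∀ A : Matrix (Fin d) (Fin d) F, A.charpoly = p → A.det ≠ 0 := by
      intro A hA h0
      have h2 := Matrix.det_eq_sign_charpoly_coeff A
      rw [h0, hA] at h2
      have h3 : p.coeff 0 = 0 := by
        rcases mul_eq_zero.1 h2.symm with h | h
        · exact absurd h (pow_ne_zero _ (by norm_num))
        · exact h
      have h4 : X ∣ p := X_dvd_iff.2 h3
      exact hX (eq_of_monic_of_associated hm monic_X
        ((Irreducible.associated_of_dvd irreducible_X hi h4).symm))
    have h2 : Nat.card (Σ A : {A : Matrix (Fin d) (Fin d) F // A.charpoly = p},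
        {D : Matrix (Fin m) (Fin m) F // D.det = c / A.1.det ∧ L.prod ∣ D.charpoly}) *
        (L.map fun p => Nat.card F ^ p.natDegree - 1).prod ≤
        Nat.card {A : Matrix (Fin d) (Fin d) F // A.charpoly = p} * Nat.card (SL m F) := by
      rw [Nat.card_sigma, Finset.sum_mul]
      refine (Finset.sum_le_sum fun A _ => ih hL' m (c / A.1.det)
        (div_ne_zero hc (hdet0 A.1 A.2)) (by omega)).trans ?_
      rw [Finset.sum_const, smul_eq_mul, Finset.card_univ, ← Nat.card_eq_fintype_card]
    have h3 : Nat.card {A : Matrix (Fin d) (Fin d) F // A.charpoly = p} *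
        (Nat.card F ^ d - 1) ≤ Nat.card (GL (Fin d) F) := by
      have h4 := hF F [p] (fun q hq => by
        rw [List.mem_singleton] at hq; subst hq; exact ⟨hm, hi, hX⟩) d (by
          rw [List.prod_singleton, hd])
      rw [List.map_singleton, List.prod_singleton, List.prod_singleton, hd] at h4
      refine le_trans (Nat.mul_le_mul_right _ ?_) h4
      refine Nat.card_le_card_of_injective
        (fun A : {A : Matrix (Fin d) (Fin d) F // A.charpoly = p} =>
          (⟨Matrix.GeneralLinearGroup.mkOfDetNeZero A.1 (hdet0 A.1 A.2), A.2⟩ :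
            {y : GL (Fin d) F // (y : Matrix (Fin d) (Fin d) F).charpoly = p})) ?_
      intro A A' h
      have h5 := congrArg (fun z : {y : GL (Fin d) F //
        (y : Matrix (Fin d) (Fin d) F).charpoly = p} => (z.1 : Matrix (Fin d) (Fin d) F)) h
      exact Subtype.ext h5
    have h4 : Nat.card (GL (Fin d ⊕ Fin m) F) = Nat.card (GL (Fin (d + m)) F) :=
      Nat.card_congr (Units.mapEquiv
        (Matrix.reindexRingEquiv F finSumFinEquiv).toMulEquiv).toEquiv
    have h5 := div_card (F := F) (d + m) (by omega)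
    have h6 := div_card (F := F) m hm1
    have hpos1 : 0 < Nat.card (GL (Fin d) F) := Nat.card_pos
    have hpos2 : 0 < Nat.card (GL (Fin m) F) := Nat.card_pos
    rw [List.map_cons, List.prod_cons, List.prod_cons, hd]
    rw [h4, h5] at h1
    generalize Nat.card {y : Matrix (Fin (d + m)) (Fin (d + m)) F //
      y.det = c ∧ p * L.prod ∣ y.charpoly} = S at *
    generalize Nat.card (Σ A : {A : Matrix (Fin d) (Fin d) F // A.charpoly = p},
        {D : Matrix (Fin m) (Fin m) F // D.det = c / A.1.det ∧ L.prod ∣ D.charpoly}) = T at *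
    generalize (L.map fun p => Nat.card F ^ p.natDegree - 1).prod = P at *
    generalize Nat.card {A : Matrix (Fin d) (Fin d) F // A.charpoly = p} = C at *
    generalize Nat.card F ^ d - 1 = t at *
    generalize Nat.card F - 1 = u at *
    generalize Nat.card (SL (d + m) F) = sn at *
    generalize Nat.card (SL m F) = sm at *
    generalize Nat.card (GL (Fin d) F) = Gd' at *
    refine Nat.le_of_mul_le_mul_right (c := Gd' * Nat.card (GL (Fin m) F)) ?_
      (Nat.mul_pos hpos1 hpos2)
    calc S * (t * P) * (Gd' * Nat.card (GL (Fin m) F))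
        = (t * P) * (S * (Gd' * Nat.card (GL (Fin m) F))) := by ring
      _ ≤ (t * P) * (u * sn * T) := Nat.mul_le_mul_left _ h1
      _ = t * (u * sn) * (T * P) := by ring
      _ ≤ t * (u * sn) * (C * sm) := Nat.mul_le_mul_left _ h2
      _ = (u * sn) * sm * (C * t) := by ring
      _ ≤ (u * sn) * sm * Gd' := Nat.mul_le_mul_left _ h3
      _ = sn * (Gd' * (u * sm)) := by ring
      _ = sn * (Gd' * Nat.card (GL (Fin m) F)) := by rw [h6]

theorem t_DIV : M_DIV := by
  intro hF F _ _ L hL n hn
  classical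
  by_cases hlt : L.prod.natDegree < n
  · rw [if_pos hlt, one_mul]
    refine le_trans (Nat.mul_le_mul_right _ ?_) (div_ind hF L hL n 1 one_ne_zero hlt)
    refine Nat.card_le_card_of_injective
      (fun y : {y : SL n F // L.prod ∣ y.1.charpoly} => (⟨y.1.1, y.1.2, y.2⟩ :
        {y : Matrix (Fin n) (Fin n) F // y.det = 1 ∧ L.prod ∣ y.charpoly})) ?_
    intro y y' h
    have h1 := congrArg (fun z : {y : Matrix (Fin n) (Fin n) F //
      y.det = 1 ∧ L.prod ∣ y.charpoly} => z.1) h
    exact Subtype.ext (Subtype.ext h1)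
  · rw [if_neg hlt]
    have he : L.prod.natDegree = n := by omega
    have hLm : L.prod.Monic := by
      have := monic_multiset_prod_of_monic (L : Multiset F[X]) id fun q hq => (hL q hq).1
      simpa using this
    rcases Nat.eq_zero_or_pos n with rfl | hn1
    · -- n = 0
      have hL0 : L = [] := by
        rcases L with _ | ⟨p, L⟩
        · rfl
        · exfalso
          have h1 := (hL p (List.mem_cons_self ..)).2.1.natDegree_pos
          have h2 : p ∣ (p :: L).prod := by rw [List.prod_cons]; exact dvd_mul_right _ _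
          have h3 := natDegree_le_of_dvd h2 hLm.ne_zero
          omega
      subst hL0
      have h1 : Nat.card {y : SL 0 F // ([] : List F[X]).prod ∣ y.1.charpoly} ≤
          Nat.card (SL 0 F) := Nat.card_le_card_of_injective _ Subtype.val_injective
      have h2 : 1 < Nat.card F := Finite.one_lt_card
      rw [List.map_nil, List.prod_nil (α := ℕ), mul_one]
      calc _ ≤ Nat.card (SL 0 F) := h1
        _ = 1 * Nat.card (SL 0 F) := (one_mul _).symm
        _ ≤ _ := Nat.mul_le_mul_right _ (by omega)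
    · have h1 := hF F L hL n he
      rw [div_card n hn1] at h1
      refine le_trans (Nat.mul_le_mul_right _ ?_) h1
      refine Nat.card_le_card_of_injective
        (fun y : {y : SL n F // L.prod ∣ y.1.charpoly} =>
          (⟨(y.1 : GL (Fin n) F), by
            refine (eq_of_monic_of_dvd_of_natDegree_le hLm (Matrix.charpoly_monic _) y.2 ?_)
            rw [Matrix.charpoly_natDegree_eq_dim, Fintype.card_fin, he]⟩ :
            {y : GL (Fin n) F // (y : Matrix (Fin n) (Fin n) F).charpoly = L.prod})) ?_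
      intro y y' h
      have h2 := congrArg (fun z : {y : GL (Fin n) F //
        (y : Matrix (Fin n) (Fin n) F).charpoly = L.prod} => (z.1 : Matrix (Fin n) (Fin n) F)) h
      exact Subtype.ext (Subtype.ext h2)

end

end SRJ
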