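import Mathlib
import Pool.Agent.SRJ.StB
import Pool.Agent.FLC.FRO

set_option autoImplicit false

/-!
# SRJ, DS: Singer elements
-/

namespace SRJ

open RSF FL0 Polynomial

noncomputable section

/-- `F[θ] = K` from the closure -/
theorem ds_adj {F K : Type} [Field F] [Field K] [Algebra F K] (θ : K)
    (h : Subring.closure {θ} = ⊤) : Algebra.adjoin F {θ} = ⊤ := by
  rw [eq_top_iff]
  intro x _
  have hx : x ∈ Subring.closure {θ} := by rw [h]; trivial
  have hle : Subring.closure {θ} ≤ (Algebra.adjoin F {θ}).toSubring := by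
    rw [Subring.closure_le]
    intro y hy
    exact Algebra.subset_adjoin hy
  exact hle hx

/-- every element is a polynomial in `θ` -/
theorem ds_pol {F K : Type} [Field F] [Field K] [Algebra F K] (θ : K)
    (h : Algebra.adjoin F {θ} = ⊤) (x : K) : ∃ f : F[X], aeval θ f = x := by
  have hx : x ∈ Algebra.adjoin F {θ} := by rw [h]; trivial
  rw [Algebra.adjoin_singleton_eq_range_aeval] at hx
  exact hx

/-- the characteristic polynomial of the multiplication by a generator -/
theorem ds_cp {F K : Type} [Field F] [Field K] [Algebra F K] [FiniteDimensional F K] (θ : K)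
    (h : Algebra.adjoin F {θ} = ⊤) : (LinearMap.mulLeft F θ).charpoly = minpoly F θ := by
  have hi : IsIntegral F θ := IsIntegral.of_finite F θ
  let pb : PowerBasis F K := PowerBasis.ofAdjoinEqTop hi h
  have hg : pb.gen = θ := PowerBasis.ofAdjoinEqTop_gen hi h
  have h1 := charpoly_leftMulMatrix pb
  rw [hg, Algebra.leftMulMatrix_apply, LinearMap.charpoly_toMatrix] at h1
  exact h1

/-- the degree of the minimal polynomial -/
theorem ds_deg {F K : Type} [Field F] [Field K] [Algebra F K] [FiniteDimensional F K] (θ : K)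
    (h : Algebra.adjoin F {θ} = ⊤) : (minpoly F θ).natDegree = Module.finrank F K := by
  rw [← ds_cp θ h, LinearMap.charpoly_natDegree]

/-- the number `nu` -/
theorem ds_nu (q n : ℕ) (hq : 1 ≤ q) : (q - 1) * nu q n + 1 = q ^ n := by
  induction n with
  | zero => simp [nu]
  | succ n ih =>
    have h : nu q (n + 1) = nu q n + q ^ n := by
      unfold nu
      rw [Finset.sum_range_succ]
    rw [h, mul_add, add_right_comm, ih]
    obtain ⟨a, ha⟩ : ∃ a, q = a + 1 := ⟨q - 1, by omega⟩
    rw [ha, Nat.add_sub_cancel]
    ring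

/-- the determinant -/
theorem ds_det {F K : Type} [Field F] [Finite F] [Field K] [Algebra F K] [FiniteDimensional F K]
    [Finite K] (θ : K) (h : orderOf θ = nu (Nat.card F) (Module.finrank F K)) :
    LinearMap.det (LinearMap.mulLeft F θ) = 1 := by
  have h1 : LinearMap.det (LinearMap.mulLeft F θ) = Algebra.norm F θ := rfl
  rw [h1]
  apply (algebraMap F K).injective
  have h2 := FiniteField.algebraMap_norm_eq_pow_sum F K θ
  rw [h2, map_one]
  have h3 : (∑ i ∈ Finset.range (Module.finrank F K), Nat.card F ^ i) = orderOf θ := by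
    rw [h]
    rfl
  rw [h3, pow_orderOf_eq_one]

/-- powers -/
theorem ds_pow {F K : Type} [Field F] [Field K] [Algebra F K] (θ : K) (k : ℕ) (x : K) :
    (LinearMap.mulLeft F θ ^ k) x = θ ^ k * x := by
  induction k generalizing x with
  | zero => simp
  | succ k ih =>
    rw [pow_succ, Module.End.mul_apply, ih, LinearMap.mulLeft_apply, pow_succ]
    ring

theorem ds_aev {F K : Type} [Field F] [Field K] [Algebra F K] (θ : K) (f : F[X]) :
    aeval (LinearMap.mulLeft F θ) f (1 : K) = aeval θ f := by
  induction f using Polynomial.induction_on' with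
  | add p q hp hq => simp only [map_add, LinearMap.add_apply, hp, hq]
  | monomial k a =>
    rw [aeval_monomial, Module.End.mul_apply, ds_pow, Module.algebraMap_end_apply]
    simp [aeval_monomial, Algebra.smul_def]

/-- the number of the indices with a given characteristic polynomial -/
theorem ds_cnt {F K : Type} [Field F] [Field K] [Algebra F K] [FiniteDimensional F K] [Finite K]
    (N : ℕ) (hN : ∀ θ : K, orderOf θ = N → Algebra.adjoin F {θ} = ⊤)
    (i : {θ : K // orderOf θ = N}) :
    Nat.card {j : {θ : K // orderOf θ = N} //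
      (LinearMap.mulLeft F j.1).charpoly = (LinearMap.mulLeft F i.1).charpoly} ≤
        Module.finrank F K := by
  classical
  have hint : ∀ θ : K, IsIntegral F θ := fun θ => IsIntegral.of_finite F θ
  have key : ∀ j : {θ : K // orderOf θ = N},
      (LinearMap.mulLeft F j.1).charpoly = (LinearMap.mulLeft F i.1).charpoly →
        j.1 ∈ (minpoly F i.1).rootSet K := by
    intro j hj
    rw [ds_cp j.1 (hN _ j.2), ds_cp i.1 (hN _ i.2)] at hj
    rw [mem_rootSet]
    refine ⟨minpoly.ne_zero (hint _), ?_⟩
    rw [← hj, minpoly.aeval]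
  have hle : Nat.card {j : {θ : K // orderOf θ = N} //
      (LinearMap.mulLeft F j.1).charpoly = (LinearMap.mulLeft F i.1).charpoly} ≤
        Nat.card ((minpoly F i.1).rootSet K) := by
    refine Nat.card_le_card_of_injective
      (fun j => (⟨j.1.1, key j.1 j.2⟩ : (minpoly F i.1).rootSet K)) ?_
    intro a b hab
    have := congrArg Subtype.val hab
    exact Subtype.ext (Subtype.ext this)
  refine hle.trans ?_
  have h3 : Nat.card ((minpoly F i.1).rootSet K) ≤ (minpoly F i.1).natDegree := by
    rw [Nat.card_coe_set_eq, rootSet_def, Set.ncard_coe_finset]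
    refine (Multiset.toFinset_card_le _).trans ?_
    refine (Polynomial.card_roots' _).trans ?_
    exact natDegree_map_le
  rw [ds_deg i.1 (hN _ i.2)] at h3
  exact h3

/-- the number of the elements of a given order -/
theorem ds_ord {K : Type} [Field K] [Finite K] (N : ℕ) (hN : N ∣ Nat.card K - 1) :
    Nat.totient N ≤ Nat.card {θ : K // orderOf θ = N} := by
  classical
  have : Fintype K := Fintype.ofFinite K
  have h1 : N ∣ Fintype.card Kˣ := by
    rw [Fintype.card_units, ← Nat.card_eq_fintype_card]
    exact hN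
  have h2 := IsCyclic.card_orderOf_eq_totient (α := Kˣ) h1
  rw [← h2]
  have h3 : (Finset.univ.filter fun a : Kˣ => orderOf a = N).card =
      Nat.card {a : Kˣ // orderOf a = N} := by
    rw [Nat.card_eq_fintype_card, Fintype.card_subtype]
  rw [h3]
  refine Nat.card_le_card_of_injective
    (fun a => (⟨(a.1 : K), by rw [orderOf_units]; exact a.2⟩ : {θ : K // orderOf θ = N})) ?_
  intro a b hab
  have := congrArg Subtype.val hab
  exact Subtype.ext (Units.ext this)

/-- the matrices are of type `TS` -/
theorem ds_TS {n : ℕ} {F K : Type} [Field F] [Finite F] [Field K] [Algebra F K]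
    [FiniteDimensional F K] (θ : K) (h : Algebra.adjoin F {θ} = ⊤)
    (ho : orderOf θ = nu (Nat.card F) n)
    (y : SL n F) (e : K ≃ₗ[F] (Fin n → F))
    (he : ∀ x, y.1.mulVec (e x) = e (LinearMap.mulLeft F θ x)) : TS y := by
  have hi : IsIntegral F θ := IsIntegral.of_finite F θ
  refine ⟨?_, ?_⟩
  · have h1 : Matrix.toLin' y.1 = e.conj (LinearMap.mulLeft F θ) := by
      apply LinearMap.ext
      intro v
      rw [Matrix.toLin'_apply, LinearEquiv.conj_apply_apply, ← he, LinearEquiv.apply_symm_apply]
    have h2 : y.1.charpoly = (Matrix.toLin' y.1).charpoly := by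
      rw [← LinearMap.charpoly_toMatrix (Matrix.toLin' y.1) (Pi.basisFun F (Fin n)),
        LinearMap.toMatrix_eq_toMatrix', LinearMap.toMatrix'_toLin']
    rw [h2, h1, LinearEquiv.charpoly_conj, ds_cp θ h]
    exact minpoly.irreducible hi
  · rw [← ho, orderOf_eq_orderOf_iff]
    intro k
    have hk : ∀ x, (y.1 ^ k).mulVec (e x) = e ((LinearMap.mulLeft F θ ^ k) x) := by
      intro x
      induction k generalizing x with
      | zero => simp
      | succ k ih =>
        rw [pow_succ, ← Matrix.mulVec_mulVec, he, ih, pow_succ, Module.End.mul_apply]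
    constructor
    · intro hy
      have h1 := hk 1
      have h2 : y.1 ^ k = 1 := by
        have := congrArg Subtype.val hy
        simpa using this
      rw [h2, Matrix.one_mulVec, ds_pow] at h1
      have h3 := e.injective h1
      simpa using h3.symm
    · intro ht
      apply Subtype.ext
      have h2 : y.1 ^ k = 1 := by
        have h3 : Matrix.toLin' (y.1 ^ k) = Matrix.toLin' (1 : Matrix (Fin n) (Fin n) F) := by
          apply LinearMap.ext
          intro v
          have h4 := hk (e.symm v)
          rw [LinearEquiv.apply_symm_apply, ds_pow, ht, one_mul, LinearEquiv.apply_symm_apply] at h4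
          rw [Matrix.toLin'_apply, Matrix.toLin'_apply, h4, Matrix.one_mulVec]
        exact Matrix.toLin'.injective h3
      simpa using h2

/-- **DS** -/
theorem t_DS : M_DS := by
  intro hphi hfxt hgne hdsg n F _ _ hn
  obtain ⟨K, _, _, _, hfr⟩ := hfxt F n (by omega)
  have : FiniteDimensional F K := Module.Finite.of_finite
  set q := Nat.card F with hq
  have hq2 : 2 ≤ q := Finite.one_lt_card
  have hcK : Nat.card K = q ^ n := by
    rw [Module.natCard_eq_pow_finrank (K := F) (V := K), hfr]
  set N := nu q n with hN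
  have hqN : (q - 1) * N + 1 = q ^ n := ds_nu q n (by omega)
  have hNge : q ^ (n - 1) + 1 ≤ N := by
    have e1 : n = (n - 2) + 1 + 1 := by omega
    have e2 : N = ∑ i ∈ Finset.range (n - 2), q ^ i + q ^ (n - 2) + q ^ (n - 2 + 1) := by
      rw [hN, nu, e1, Finset.sum_range_succ, Finset.sum_range_succ]
      simp
    have e3 : 1 ≤ q ^ (n - 2) := Nat.one_le_pow _ _ (by omega)
    have e4 : n - 1 = n - 2 + 1 := by omega
    rw [e2, e4]
    omega
  have hadj : ∀ θ : K, orderOf θ = N → Algebra.adjoin F {θ} = ⊤ := by
    intro θ hθ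
    apply ds_adj
    apply hgne
    rw [hθ, hcK]
    have h1 : q ^ n ≤ (q ^ (n - 1)) ^ 2 := by
      rw [← pow_mul]
      exact Nat.pow_le_pow_right (by omega) (by omega)
    have h2 : (q ^ (n - 1)) ^ 2 < (N + 1) ^ 2 := Nat.pow_lt_pow_left (by omega) (by norm_num)
    omega
  have h1 := hdsg F K n hfr
    {θ : K // orderOf θ = N} (fun i => LinearMap.mulLeft F i.1)
    (fun i => ds_det i.1 (by rw [i.2, hfr]))
    (fun i => ⟨1, fun w => by
      obtain ⟨f, hf⟩ := ds_pol i.1 (hadj _ i.2) w
      exact ⟨f, by rw [ds_aev, hf]⟩⟩)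
    (fun i => (ds_cnt N hadj i).trans (by rw [hfr]))
  have h2 : Nat.card {y : SL n F // ∃ i : {θ : K // orderOf θ = N},
      ∃ e : K ≃ₗ[F] (Fin n → F), ∀ x, y.1.mulVec (e x) = e (LinearMap.mulLeft F i.1 x)} ≤
        Nat.card {y : SL n F // TS y} := by
    refine Nat.card_le_card_of_injective (fun y => (⟨y.1, ?_⟩ : {y : SL n F // TS y})) ?_
    · obtain ⟨i, e, he⟩ := y.2
      exact ds_TS i.1 (hadj _ i.2) (by rw [i.2]) y.1 e he
    · intro a b hab
      have := congrArg Subtype.val hab
      exact Subtype.ext this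
  have h3 : Nat.totient N ≤ Nat.card {θ : K // orderOf θ = N} :=
    ds_ord N (by rw [hcK, ← hqN, Nat.add_sub_cancel]; exact dvd_mul_left _ _)
  have h4 := hphi N (by omega)
  have h5 : Nat.log 2 N + 1 ≤ lg q n := by
    unfold lg
    have h51 : N ≤ q ^ n := by
      have : 1 * N ≤ (q - 1) * N := Nat.mul_le_mul_right _ (by omega)
      omega
    have := Nat.log_mono_right (b := 2) h51
    omega
  have h6 := FLC.fro_card (F := F) n (by omega)
  set S := Nat.card (SL n F) with hS
  set Z := Nat.card {y : SL n F // TS y} with hZ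
  set L := lg q n with hL
  have h7 : q ^ n ≤ 4 * N * (q - 1) := by
    have e1 : 1 ≤ (q - 1) * N := by
      have : 1 * 1 ≤ (q - 1) * N := Nat.mul_le_mul (by omega) (by omega)
      omega
    have e2 : 4 * N * (q - 1) = 4 * ((q - 1) * N) := by ring
    omega
  have h8 : q ^ n * S ≤ q ^ n * (4 * n * L * Z) := by
    calc q ^ n * S ≤ 4 * N * (q - 1) * S := Nat.mul_le_mul_right _ h7
      _ ≤ 4 * (Nat.totient N * L) * (q - 1) * S := by
        apply Nat.mul_le_mul_right
        apply Nat.mul_le_mul_right
        apply Nat.mul_le_mul_left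
        exact h4.trans (Nat.mul_le_mul_left _ h5)
      _ = 4 * L * (Nat.totient N * ((q - 1) * S)) := by ring
      _ = 4 * L * (Nat.totient N * Nat.card (GL (Fin n) F)) := by rw [h6]
      _ ≤ 4 * L * (Nat.card {θ : K // orderOf θ = N} * Nat.card (GL (Fin n) F)) := by
        apply Nat.mul_le_mul_left
        exact Nat.mul_le_mul_right _ h3
      _ ≤ 4 * L * (n * q ^ n * Z) := by
        apply Nat.mul_le_mul_left
        exact h1.trans (Nat.mul_le_mul_left _ h2)
      _ = q ^ n * (4 * n * L * Z) := by ring
  exact Nat.le_of_mul_le_mul_left h8 (by positivity)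

end

end SRJ
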