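import Mathlib
import Pool.Agent.SRJ.StB

/-!
# Module DSG of project SRJ (MP_5b5212_al)

Orbit counting: the number of the elements of `SL_n(q)` that are conjugate to one of the given cyclic endomorphisms.
-/

set_option autoImplicit false

namespace SRJ

open RSF FL0 Polynomial Pool.Agent.Lib_helper13

noncomputable section

/-- the matrix of `T` in the coordinates `e` -/
def dsg_mat {F V : Type} [Field F] [AddCommGroup V] [Module F V] {n : ℕ}
    (e : V ≃ₗ[F] (Fin n → F)) (T : V →ₗ[F] V) : Matrix (Fin n) (Fin n) F :=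
  LinearMap.toMatrix' (e.conj T)

theorem dsg_mat_mulVec {F V : Type} [Field F] [AddCommGroup V] [Module F V] {n : ℕ}
    (e : V ≃ₗ[F] (Fin n → F)) (T : V →ₗ[F] V) (x : V) :
    (dsg_mat e T).mulVec (e x) = e (T x) := by
  unfold dsg_mat
  rw [← Matrix.toLin'_apply, Matrix.toLin'_toMatrix', LinearEquiv.conj_apply_apply,
    LinearEquiv.symm_apply_apply]

theorem dsg_mat_det {F V : Type} [Field F] [AddCommGroup V] [Module F V] {n : ℕ}
    (e : V ≃ₗ[F] (Fin n → F)) (T : V →ₗ[F] V) :
    (dsg_mat e T).det = LinearMap.det T := by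
  unfold dsg_mat
  rw [LinearMap.det_toMatrix', LinearEquiv.conj_apply, LinearMap.comp_assoc,
    LinearMap.det_conj]

theorem dsg_mat_charpoly {F V : Type} [Field F] [AddCommGroup V] [Module F V]
    [FiniteDimensional F V] {n : ℕ}
    (e : V ≃ₗ[F] (Fin n → F)) (T : V →ₗ[F] V) :
    (dsg_mat e T).charpoly = T.charpoly := by
  unfold dsg_mat
  rw [← LinearMap.toMatrix_eq_toMatrix', LinearMap.charpoly_toMatrix, LinearEquiv.charpoly_conj]

theorem dsg_card_equiv {F V : Type} [Field F] [Finite F] [AddCommGroup V] [Module F V]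
    [FiniteDimensional F V] {n : ℕ} (hn : Module.finrank F V = n) :
    Nat.card (V ≃ₗ[F] (Fin n → F)) = Nat.card (GL (Fin n) F) := by
  have h0 : Module.finrank F V = Module.finrank F (Fin n → F) := by
    rw [hn, Module.finrank_fin_fun]
  obtain ⟨e0⟩ := FiniteDimensional.nonempty_linearEquiv_of_finrank_eq h0
  refine Nat.card_congr ?_
  refine Equiv.trans ?_ ((Matrix.GeneralLinearGroup.toLin (n := Fin n) (R := F)).trans
    (LinearMap.GeneralLinearGroup.generalLinearEquiv F (Fin n → F))).symm.toEquiv
  exact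
    { toFun := fun e => e0.symm.trans e
      invFun := fun g => e0.trans g
      left_inv := fun e => by ext x; simp
      right_inv := fun g => by
        apply LinearEquiv.ext
        intro x
        simp }

theorem dsg_aeval {F V : Type} [Field F] [AddCommGroup V] [Module F V] {n : ℕ}
    (e : V ≃ₗ[F] (Fin n → F)) (T : V →ₗ[F] V) (f : F[X]) (x : V) :
    e (aeval T f x) = aeval (Matrix.toLin' (dsg_mat e T)) f (e x) := by
  induction f using Polynomial.induction_on generalizing x with
  | C a => simp
  | add p q hp hq => simp only [map_add, LinearMap.add_apply, hp, hq]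
  | monomial k a ih =>
    have h1 : ∀ (W : Type) [AddCommGroup W] [Module F W] (S : W →ₗ[F] W) (w : W),
        aeval S (C a * X ^ (k + 1)) w = aeval S (C a * X ^ k) (S w) := by
      intro W _ _ S w
      rw [pow_succ, ← mul_assoc, map_mul (aeval S) (C a * X ^ k) X, aeval_X]
      rfl
    rw [h1, h1, ih, Matrix.toLin'_apply, dsg_mat_mulVec]

/-- **DSG** -/
theorem t_DSG : S_DSG := by
  classical
  intro F V _ _ _ _ _ n hn I _ T hdet hcyc hcp
  have : Finite V := Module.finite_of_finite F
  letI : Fintype I := Fintype.ofFinite I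
  have : Finite (V ≃ₗ[F] (Fin n → F)) :=
    Finite.of_injective (fun e => (e : V → (Fin n → F))) DFunLike.coe_injective
  letI : Fintype (V ≃ₗ[F] (Fin n → F)) := Fintype.ofFinite _
  have : Finite (SL n F) := inferInstance
  letI : Fintype {y : SL n F // ∃ i, ∃ e : V ≃ₗ[F] (Fin n → F),
    ∀ x, y.1.mulVec (e x) = e (T i x)} := Fintype.ofFinite _
  choose v hv using hcyc
  let Φ : I × (V ≃ₗ[F] (Fin n → F)) → {y : SL n F // ∃ i, ∃ e : V ≃ₗ[F] (Fin n → F),
      ∀ x, y.1.mulVec (e x) = e (T i x)} := fun p =>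
    ⟨⟨dsg_mat p.2 (T p.1), by rw [dsg_mat_det]; exact hdet p.1⟩,
      p.1, p.2, fun x => dsg_mat_mulVec p.2 (T p.1) x⟩
  have key : (Finset.univ : Finset (I × (V ≃ₗ[F] (Fin n → F)))).card ≤
      (n * Nat.card F ^ n) * (Finset.univ.image Φ).card := by
    refine Finset.card_le_mul_card_image _ _ ?_
    intro y hy
    obtain ⟨⟨i₀, e₀⟩, -, h0⟩ := Finset.mem_image.1 hy
    -- the fibre
    have hfib : ∀ p : {p : I × (V ≃ₗ[F] (Fin n → F)) // Φ p = y},
        (T p.1.1).charpoly = (T i₀).charpoly := by
      intro p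
      have h1 : (dsg_mat p.1.2 (T p.1.1)) = dsg_mat e₀ (T i₀) := by
        have h2 := p.2.trans h0.symm
        exact congrArg (fun z => z.1.1) h2
      rw [← dsg_mat_charpoly p.1.2, h1, dsg_mat_charpoly]
    let g : {p : I × (V ≃ₗ[F] (Fin n → F)) // Φ p = y} →
        {j // (T j).charpoly = (T i₀).charpoly} × (Fin n → F) := fun p =>
      (⟨p.1.1, hfib p⟩, p.1.2 (v p.1.1))
    have hg : Function.Injective g := by
      rintro ⟨⟨i, e⟩, hp⟩ ⟨⟨i', e'⟩, hp'⟩ h
      have h1 : i = i' := by
        have := congrArg (fun z => z.1.1) h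
        exact this
      subst h1
      have h2 : e (v i) = e' (v i) := congrArg (fun z => z.2) h
      have h3 : dsg_mat e (T i) = dsg_mat e' (T i) := by
        have h4 := hp.trans hp'.symm
        exact congrArg (fun z => z.1.1) h4
      have h5 : e = e' := by
        apply LinearEquiv.ext
        intro w
        obtain ⟨f, hf⟩ := hv i w
        rw [hf, dsg_aeval, dsg_aeval, h2, h3]
      subst h5
      rfl
    have hcard : (Finset.univ.filter fun p => Φ p = y).card ≤ n * Nat.card F ^ n := by
      rw [← Fintype.card_subtype, ← Nat.card_eq_fintype_card]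
      refine (Nat.card_le_card_of_injective g hg).trans ?_
      rw [Nat.card_prod, Nat.card_fun, Nat.card_eq_fintype_card (α := Fin n), Fintype.card_fin]
      exact Nat.mul_le_mul_right _ (hcp i₀)
    exact hcard
  have h1 : Nat.card I * Nat.card (GL (Fin n) F) =
      (Finset.univ : Finset (I × (V ≃ₗ[F] (Fin n → F)))).card := by
    rw [Finset.card_univ, ← Nat.card_eq_fintype_card, Nat.card_prod, dsg_card_equiv hn]
  rw [h1]
  refine key.trans (Nat.mul_le_mul_left _ ?_)
  rw [Nat.card_eq_fintype_card]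
  exact Finset.card_le_univ _

end

end SRJ
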