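import Mathlib
import Pool.Agent.SRJ.StA
import Pool.Agent.RSF.KA

/-!
# Module DSM: a decomposition of `F^n` into two invariant subspaces of prescribed size
-/

set_option autoImplicit false

namespace SRJ

open Polynomial

noncomputable section

theorem dsm_subset {ι : Type} (d : ι → ℕ) (D t : ℕ) (hd : ∀ i, d i ≤ D) :
    ∀ s : Finset ι, t ≤ ∑ i ∈ s, d i →
      ∃ J : Finset ι, J ⊆ s ∧ t ≤ ∑ i ∈ J, d i ∧ ∑ i ∈ J, d i ≤ t + D := by
  classical
  intro s
  induction s using Finset.induction_on with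
  | empty =>
    intro h
    exact ⟨∅, subset_rfl, h, by simp⟩
  | insert a s ha ih =>
    intro h
    by_cases hs : t ≤ ∑ i ∈ s, d i
    · obtain ⟨J, h1, h2, h3⟩ := ih hs
      exact ⟨J, h1.trans (Finset.subset_insert _ _), h2, h3⟩
    · refine ⟨insert a s, subset_rfl, h, ?_⟩
      rw [Finset.sum_insert ha]
      have := hd a
      omega

theorem dsm_equiv {α β : Type} [Fintype α] [Fintype β] (p : α → Prop) (q : β → Prop)
    [DecidablePred p] [DecidablePred q] (h1 : Fintype.card α = Fintype.card β)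
    (h2 : Fintype.card {x // p x} = Fintype.card {y // q y}) :
    ∃ e : α ≃ β, ∀ x, p x ↔ q (e x) := by
  let e1 : {x // p x} ≃ {y // q y} := Fintype.equivOfCardEq h2
  let e2 : {x // ¬ p x} ≃ {y // ¬ q y} := Fintype.equivOfCardEq (by
    rw [Fintype.card_subtype_compl, Fintype.card_subtype_compl, h1, h2])
  refine ⟨(Equiv.sumCompl p).symm.trans ((e1.sumCongr e2).trans (Equiv.sumCompl q)), fun x => ?_⟩
  by_cases hx : p x
  · have h3 : (Equiv.sumCompl p).symm x = Sum.inl ⟨x, hx⟩ := Equiv.sumCompl_symm_apply_of_pos hx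
    have h4 : ((Equiv.sumCompl p).symm.trans ((e1.sumCongr e2).trans (Equiv.sumCompl q))) x =
        (e1 ⟨x, hx⟩ : β) := by
      show (Equiv.sumCompl q) ((e1.sumCongr e2) ((Equiv.sumCompl p).symm x)) = _
      rw [h3]
      rfl
    rw [h4]
    exact iff_of_true hx (e1 ⟨x, hx⟩).2
  · have h3 : (Equiv.sumCompl p).symm x = Sum.inr ⟨x, hx⟩ := Equiv.sumCompl_symm_apply_of_neg hx
    have h4 : ((Equiv.sumCompl p).symm.trans ((e1.sumCongr e2).trans (Equiv.sumCompl q))) x =
        (e2 ⟨x, hx⟩ : β) := by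
      show (Equiv.sumCompl q) ((e1.sumCongr e2) ((Equiv.sumCompl p).symm x)) = _
      rw [h3]
      rfl
    rw [h4]
    exact iff_of_false hx (e2 ⟨x, hx⟩).2

/-- An adapted basis gives the block form. -/
theorem dsm_matrix {F : Type} [Field F] {n : ℕ} (A : Matrix (Fin n) (Fin n) F) (k : ℕ)
    (b : Module.Basis (Fin n) F (Fin n → F))
    (h : ∀ i j : Fin n, ¬ (i.val < k ↔ j.val < k) → b.repr (Matrix.toLin' A (b j)) i = 0) :
    ∃ P : GL (Fin n) F, BD k ((P : Matrix (Fin n) (Fin n) F) * A *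
      ((P⁻¹ : GL (Fin n) F) : Matrix (Fin n) (Fin n) F)) := by
  let c := Pi.basisFun F (Fin n)
  let P : GL (Fin n) F :=
    ⟨b.toMatrix c, c.toMatrix b, b.toMatrix_mul_toMatrix_flip c, c.toMatrix_mul_toMatrix_flip b⟩
  refine ⟨P, fun i j hij => ?_⟩
  have h1 : (P : Matrix (Fin n) (Fin n) F) * A *
      ((P⁻¹ : GL (Fin n) F) : Matrix (Fin n) (Fin n) F) =
      LinearMap.toMatrix b b (Matrix.toLin' A) := by
    have h2 := basis_toMatrix_mul_linearMap_toMatrix_mul_basis_toMatrix b c b c (Matrix.toLin' A)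
    have h3 : LinearMap.toMatrix c c (Matrix.toLin' A) = A := by
      show LinearMap.toMatrix (Pi.basisFun F (Fin n)) (Pi.basisFun F (Fin n)) _ = _
      rw [LinearMap.toMatrix_eq_toMatrix', LinearMap.toMatrix'_toLin']
    rw [h3] at h2
    exact h2
  rw [h1, LinearMap.toMatrix_apply]
  exact h i j hij

theorem t_DSM : S_DSM := by
  classical
  intro F _ _ g hg _ n A hA t ht
  set φ := Matrix.toLin' A with hφ
  obtain ⟨s, hs, ι, hι, f, hsf, ⟨E⟩⟩ := RSF.KA.exists_dec (Module.AEval' φ) (RSF.KA.torsion φ)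
  have hsum := RSF.KA.sum_eq (F := F) (Module.AEval' φ) hs ⟨ι, hι, f, hsf, ⟨E⟩⟩
  have hrank : Module.finrank F (Module.AEval' φ) = n := by
    rw [← (Module.AEval'.of φ).finrank_eq, Module.finrank_fin_fun]
  have E1 : Module.AEval' φ ≃ₗ[F] ∀ i, RSF.KA.Q (f i) := E.restrictScalars F
  have hfin : Module.Finite F (∀ i, RSF.KA.Q (f i)) := Module.Finite.equiv E1
  have hfi : ∀ i, Module.Finite F (RSF.KA.Q (f i)) := fun i =>
    Module.Finite.of_surjective
      (LinearMap.proj i : (∀ i, RSF.KA.Q (f i)) →ₗ[F] RSF.KA.Q (f i))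
      (Function.surjective_eval i)
  let d : ι → ℕ := fun i => Module.finrank F (RSF.KA.Q (f i))
  have hdsum : ∑ i, d i = n := by
    rw [← hrank, E1.finrank_eq, Module.finrank_pi_fintype]
  -- the summands have dimension at most `deg g`
  have hg0 : ∀ x : Module.AEval' φ, g • x = 0 := by
    intro x
    have h1 : x = Module.AEval.of F (Fin n → F) φ ((Module.AEval.of F (Fin n → F) φ).symm x) := by
      rw [LinearEquiv.apply_symm_apply]
    have h2 : aeval φ g = 0 := by
      have h3 : aeval (Matrix.toLinAlgEquiv' A) g = Matrix.toLinAlgEquiv' (aeval A g) :=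
        Polynomial.aeval_algHom_apply (Matrix.toLinAlgEquiv' : Matrix (Fin n) (Fin n) F ≃ₐ[F] _)
          A g
      rw [hA, map_zero] at h3
      exact h3
    rw [h1, ← Module.AEval.of_aeval_smul, h2]
    simp
  have hd : ∀ i, d i ≤ g.natDegree := by
    intro i
    have h1 : d i = ((f i).1 ^ (f i).2).natDegree := finrank_quotient_span_eq_natDegree
    rw [h1]
    refine Polynomial.natDegree_le_of_dvd ?_ hg.ne_zero
    have h2 : g • (Submodule.Quotient.mk 1 : RSF.KA.Q (f i)) = 0 := by
      have h3 : E (g • E.symm (Pi.single i (Submodule.Quotient.mk 1))) = 0 := by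
        rw [hg0, map_zero]
      rw [map_smul, E.apply_symm_apply] at h3
      have h4 := congrFun h3 i
      rw [Pi.smul_apply, Pi.single_eq_same] at h4
      exact h4
    rw [← Submodule.Quotient.mk_smul, Submodule.Quotient.mk_eq_zero, smul_eq_mul, mul_one] at h2
    exact Ideal.mem_span_singleton.1 h2
  obtain ⟨J, -, hJ1, hJ2⟩ := dsm_subset d g.natDegree t hd Finset.univ (by rw [hdsum]; exact ht)
  refine ⟨∑ i ∈ J, d i, hJ1, hJ2, ?_, ?_⟩
  · rw [← hdsum]
    exact Finset.sum_le_sum_of_subset (Finset.subset_univ _)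
  -- the adapted basis
  let bi : ∀ i, Module.Basis (Fin (d i)) F (RSF.KA.Q (f i)) := fun i =>
    Module.finBasis F (RSF.KA.Q (f i))
  have hcard : Fintype.card ((i : ι) × Fin (d i)) = Fintype.card (Fin n) := by
    rw [Fintype.card_sigma, Fintype.card_fin]
    simp only [Fintype.card_fin]
    exact hdsum
  have hkn : ∑ i ∈ J, d i ≤ n := by
    rw [← hdsum]
    exact Finset.sum_le_sum_of_subset (Finset.subset_univ _)
  have hcard2 : Fintype.card {x : (i : ι) × Fin (d i) // x.1 ∈ J} =
      Fintype.card {y : Fin n // y.val < ∑ i ∈ J, d i} := by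
    have h1 : Fintype.card {y : Fin n // y.val < ∑ i ∈ J, d i} = ∑ i ∈ J, d i := by
      rw [Fintype.card_subtype, Fin.card_filter_val_lt, min_eq_right hkn]
    rw [h1, Fintype.card_subtype]
    have h2 : (Finset.univ.filter fun x : (i : ι) × Fin (d i) => x.1 ∈ J) =
        J.sigma fun _ => Finset.univ := by
      ext x
      simp
    rw [h2, Finset.card_sigma]
    simp
  obtain ⟨e, he⟩ := dsm_equiv (fun x : (i : ι) × Fin (d i) => x.1 ∈ J)
    (fun y : Fin n => y.val < ∑ i ∈ J, d i) hcard hcard2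
  let L : (∀ i, RSF.KA.Q (f i)) ≃ₗ[F] (Fin n → F) :=
    (E.restrictScalars F).symm.trans (Module.AEval'.of φ).symm
  have hL : ∀ v, φ (L v) = L ((X : F[X]) • v) := by
    intro v
    show φ ((Module.AEval'.of φ).symm (E.symm v)) = (Module.AEval'.of φ).symm (E.symm ((X : F[X]) • v))
    rw [map_smul, Module.AEval'.of_symm_X_smul]
  let b0 : Module.Basis ((i : ι) × Fin (d i)) F (∀ i, RSF.KA.Q (f i)) := Pi.basis bi
  let b : Module.Basis (Fin n) F (Fin n → F) := (b0.map L).reindex e
  refine dsm_matrix A _ b fun i j hij => ?_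
  have hbj : b j = L (b0 (e.symm j)) := by
    show ((b0.map L).reindex e) j = _
    rw [Module.Basis.reindex_apply, Module.Basis.map_apply]
  have hrep : ∀ w i, b.repr w i = b0.repr (L.symm w) (e.symm i) := by
    intro w i
    show ((b0.map L).reindex e).repr w i = _
    rw [Module.Basis.repr_reindex_apply, Module.Basis.map_repr]
    rfl
  rw [← hφ, hbj, hL, hrep, L.symm_apply_apply]
  have hne : (e.symm i).1 ≠ (e.symm j).1 := by
    intro h
    apply hij
    have h1 := he (e.symm i)
    have h2 := he (e.symm j)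
    rw [e.apply_symm_apply] at h1 h2
    rw [← h1, ← h2, h]
  show (Pi.basis bi).repr _ _ = 0
  rw [Pi.basis_repr]
  have h3 : ((X : F[X]) • (Pi.basis bi (e.symm j))) (e.symm i).1 = 0 := by
    rw [Pi.smul_apply, Pi.basis_apply, Pi.single_eq_of_ne hne, smul_zero]
  have h4 : ((X : F[X]) • b0 (e.symm j)) (e.symm i).1 = 0 := h3
  rw [h4, map_zero]
  rfl

end

end SRJ
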