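import Mathlib
import Pool.Agent.SRJ.StB

/-!
# Module DT of project SRJ (MP_5b5212_al)

Many elements of `SL_n(q)` have a power that is a transvection.
-/

set_option autoImplicit false

namespace SRJ

open RSF FL0 Polynomial Pool.Agent.Lib_helper13

noncomputable section

/-- the order of `GL_n` -/
theorem dt_card {F : Type} [Field F] [Finite F] (n : ℕ) (hn : 1 ≤ n) :
    Nat.card (GL (Fin n) F) = (Nat.card F - 1) * Nat.card (SL n F) := by
  classical
  have : Nonempty (Fin n) := ⟨⟨0, hn⟩⟩
  let d : GL (Fin n) F →* Fˣ := Matrix.GeneralLinearGroup.det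
  have h1 : Nat.card d.ker * d.ker.index = Nat.card (GL (Fin n) F) := Subgroup.card_mul_index _
  have h2 : d.ker.index = Nat.card d.range := Subgroup.index_ker d
  have h3 : d.range = ⊤ :=
    MonoidHom.range_eq_top.2 (Matrix.GeneralLinearGroup.det_surjective (n := Fin n) (R := F))
  have h4 : Nat.card Fˣ = Nat.card F - 1 := by
    have : Fintype F := Fintype.ofFinite F
    rw [Nat.card_eq_fintype_card, Nat.card_eq_fintype_card, Fintype.card_units]
  have h5 : Nat.card d.ker = Nat.card (Matrix.SpecialLinearGroup (Fin n) F) := by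
    refine Nat.card_congr
      { toFun := fun A => ⟨A.1.1, by
          have := A.2
          rw [MonoidHom.mem_ker] at this
          exact congrArg Units.val this⟩
        invFun := fun A => ⟨Matrix.GeneralLinearGroup.mkOfDetNeZero A.1 (by
          rw [A.2]; exact one_ne_zero), by
          rw [MonoidHom.mem_ker]
          exact Units.ext A.2⟩
        left_inv := fun A => Subtype.ext (Units.ext rfl)
        right_inv := fun A => Subtype.ext rfl }
  rw [← h1, h2, h3, Subgroup.card_top, h4, h5, mul_comm]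

/-- `(a, b) ↦ (a + b, b)` -/
def dt_J (F : Type) [Field F] : (F × F) →ₗ[F] (F × F) :=
  Matrix.toLin (Module.Basis.finTwoProd F) (Module.Basis.finTwoProd F) !![1, 1; 0, 1]

theorem dt_J_apply {F : Type} [Field F] (a b : F) : dt_J F (a, b) = (a + b, b) := by
  unfold dt_J
  rw [Matrix.toLin_finTwoProd_apply]
  simp

theorem dt_J_det {F : Type} [Field F] : LinearMap.det (dt_J F) = 1 := by
  unfold dt_J
  rw [LinearMap.det_toLin, Matrix.det_fin_two]
  simp

theorem dt_J_sq {F : Type} [Field F] : aeval (dt_J F) ((X - 1 : F[X]) ^ 2) = 0 := by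
  apply LinearMap.ext
  rintro ⟨a, b⟩
  rw [map_pow, map_sub, aeval_X, map_one, pow_two, Module.End.mul_apply]
  simp only [LinearMap.sub_apply, Module.End.one_apply, dt_J_apply, LinearMap.zero_apply,
    Prod.mk_sub_mk, add_sub_cancel_left, sub_self, add_zero]

/-- the endomorphism of `F × F × K` -/
def dt_T {F K : Type} [Field F] [Field K] [Algebra F K] (θ : K) :
    ((F × F) × K) →ₗ[F] ((F × F) × K) :=
  LinearMap.prodMap (dt_J F) (Algebra.lmul F K θ)

theorem dt_T_pow {F K : Type} [Field F] [Field K] [Algebra F K] (θ : K) (k : ℕ) (a b : F)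
    (x : K) : ((dt_T (F := F) θ) ^ k) ((a, b), x) = ((a + k * b, b), θ ^ k * x) := by
  induction k generalizing a b x with
  | zero => simp
  | succ k ih =>
    rw [pow_succ, Module.End.mul_apply]
    have h : dt_T (F := F) θ ((a, b), x) = ((a + b, b), θ * x) := by
      unfold dt_T
      rw [LinearMap.prodMap_apply, dt_J_apply]
      rfl
    rw [h, ih]
    push_cast
    refine Prod.ext (Prod.ext ?_ rfl) ?_
    · show a + b + k * b = a + (k + 1) * b
      ring
    · show θ ^ k * (θ * x) = θ ^ (k + 1) * x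
      ring

theorem dt_aeval {F V W : Type} [Field F] [AddCommGroup V] [Module F V] [AddCommGroup W]
    [Module F W] (A : V →ₗ[F] V) (B : W →ₗ[F] W) (f : F[X]) (v : V) (w : W) :
    aeval (LinearMap.prodMap A B) f (v, w) = (aeval A f v, aeval B f w) := by
  induction f using Polynomial.induction_on generalizing v w with
  | C a => simp
  | add p q hp hq => simp only [map_add, LinearMap.add_apply, hp, hq, Prod.mk_add_mk]
  | monomial k a ih =>
    have h1 : ∀ (W : Type) [AddCommGroup W] [Module F W] (S : W →ₗ[F] W) (w : W),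
        aeval S (C a * X ^ (k + 1)) w = aeval S (C a * X ^ k) (S w) := by
      intro W _ _ S w
      rw [pow_succ, ← mul_assoc, map_mul (aeval S) (C a * X ^ k) X, aeval_X]
      rfl
    rw [h1, h1, h1, LinearMap.prodMap_apply, ih]

theorem dt_lmul {F K : Type} [Field F] [Field K] [Algebra F K] (θ x : K) (f : F[X]) :
    aeval (Algebra.lmul F K θ) f x = aeval θ f * x := by
  rw [aeval_algHom_apply]
  rfl

/-- the cyclic vector -/
theorem dt_cyc {F K : Type} [Field F] [Field K] [Algebra F K] [Finite K] (θ : K) (hθ : θ ≠ 1)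
    (hcl : Subring.closure {θ} = ⊤) (w : (F × F) × K) :
    ∃ f : F[X], w = aeval (dt_T (F := F) θ) f ((0, 1), 1) := by
  obtain ⟨⟨a, b⟩, x⟩ := w
  have hfin : Finite F := Finite.of_injective _ (algebraMap F K).injective
  have hFD : Module.Finite F K := Module.Finite.of_finite
  have hint : IsIntegral F θ := Algebra.IsIntegral.isIntegral θ
  have hcop : IsCoprime (minpoly F θ) ((X - 1 : F[X]) ^ 2) := by
    rw [(minpoly.irreducible hint).coprime_iff_not_dvd]
    intro h
    obtain ⟨c, hc⟩ := h
    have h1 : aeval θ ((X - 1 : F[X]) ^ 2) = 0 := by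
      rw [hc, map_mul, minpoly.aeval, zero_mul]
    simp only [map_pow, map_sub, aeval_X, map_one] at h1
    exact hθ (sub_eq_zero.1 (pow_eq_zero_iff (two_ne_zero) |>.1 h1))
  obtain ⟨v, u, huv⟩ := hcop
  obtain ⟨f2, hf2⟩ : ∃ f2 : F[X], aeval θ f2 = x := by
    have h1 : Subring.closure {θ} ≤ (aeval θ : F[X] →ₐ[F] K).toRingHom.range := by
      rw [Subring.closure_le]
      intro z hz
      rw [Set.mem_singleton_iff] at hz
      subst hz
      exact ⟨X, by simp⟩
    have h2 : x ∈ Subring.closure {θ} := by rw [hcl]; trivial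
    obtain ⟨f2, hf2⟩ := h1 h2
    exact ⟨f2, hf2⟩
  set f1 : F[X] := C a * X + C (b - a) with hf1
  refine ⟨f1 * (v * minpoly F θ) + f2 * (u * (X - 1) ^ 2), ?_⟩
  unfold dt_T
  rw [dt_aeval, dt_lmul]
  have hJ0 : aeval (dt_J F) (u * (X - 1 : F[X]) ^ 2) = 0 := by
    rw [map_mul, dt_J_sq, mul_zero]
  have hJ1 : aeval (dt_J F) (v * minpoly F θ) = 1 := by
    have h1 := congrArg (aeval (dt_J F)) huv
    rw [map_add, hJ0, add_zero, map_one] at h1
    exact h1
  have hK0 : aeval θ (v * minpoly F θ) = 0 := by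
    rw [map_mul, minpoly.aeval, mul_zero]
  have hK1 : aeval θ (u * (X - 1 : F[X]) ^ 2) = 1 := by
    have h1 := congrArg (aeval θ) huv
    rw [map_add, hK0, zero_add, map_one] at h1
    exact h1
  refine Prod.ext ?_ ?_
  · show (a, b) = aeval (dt_J F) (f1 * (v * minpoly F θ) + f2 * (u * (X - 1) ^ 2)) (0, 1)
    rw [map_add, map_mul (aeval (dt_J F)) f1, map_mul (aeval (dt_J F)) f2, hJ0, hJ1, mul_one,
      mul_zero, add_zero, hf1]
    simp only [map_add, map_mul, aeval_C, aeval_X, LinearMap.add_apply, Module.End.mul_apply,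
      dt_J_apply, Module.algebraMap_end_apply]
    refine Prod.ext ?_ ?_
    · simp
    · simp
  · show x = aeval θ (f1 * (v * minpoly F θ) + f2 * (u * (X - 1) ^ 2)) * 1
    rw [map_add, map_mul (aeval θ) f1, map_mul (aeval θ) f2, hK0, hK1, hf2]
    ring

theorem dt_geom (q m : ℕ) (hq : 1 ≤ q) : nu q m * (q - 1) = q ^ m - 1 := by
  unfold nu
  have h := geom_sum_mul (q : ℤ) m
  zify [hq, Nat.one_le_pow m q hq]
  exact h

theorem dt_gen {F K : Type} [Field F] [Field K] [Algebra F K] [Finite K] (θ : K)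
    (hGNE : S_GNE) {m : ℕ} (hm : 2 ≤ m) (hcK : Nat.card K = Nat.card F ^ m)
    (hq : 1 ≤ Nat.card F) (ho : orderOf θ = nu (Nat.card F) m) :
    Subring.closure {θ} = ⊤ := by
  apply hGNE K θ
  rw [ho, hcK]
  have h1 : Nat.card F ^ (m - 1) ≤ nu (Nat.card F) m := by
    unfold nu
    exact Finset.single_le_sum (f := fun i => Nat.card F ^ i) (fun i _ => Nat.zero_le _)
      (Finset.mem_range.2 (by omega))
  calc Nat.card F ^ m ≤ Nat.card F ^ (2 * (m - 1)) := Nat.pow_le_pow_right hq (by omega)
    _ = (Nat.card F ^ (m - 1)) ^ 2 := by rw [← pow_mul, mul_comm]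
    _ < (nu (Nat.card F) m + 1) ^ 2 := Nat.pow_lt_pow_left (by omega) (by norm_num)

theorem dt_nucast {F : Type} [Field F] [Finite F] {m : ℕ} (hm : 1 ≤ m) :
    ((nu (Nat.card F) m : ℕ) : F) = 1 := by
  have : Fintype F := Fintype.ofFinite F
  have h0 : ((Nat.card F : ℕ) : F) = 0 := by
    rw [Nat.card_eq_fintype_card]
    exact FiniteField.cast_card_eq_zero F
  obtain ⟨k, rfl⟩ : ∃ k, m = k + 1 := ⟨m - 1, by omega⟩
  unfold nu
  push_cast
  rw [Finset.sum_range_succ', h0]
  simp

/-- at most `m` of the elements have the same characteristic polynomial -/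
theorem dt_roots {F K : Type} [Field F] [Field K] [Algebra F K] [Finite K] {m : ℕ}
    (hK : Module.finrank F K = m) (P : K → Prop) (θ : K) :
    Nat.card {j : {θ' : K // P θ'} //
      (dt_T (F := F) j.1).charpoly = (dt_T (F := F) θ).charpoly} ≤ m := by
  classical
  have hFD : Module.Finite F K := Module.Finite.of_finite
  have hfin : Finite F := Finite.of_injective _ (algebraMap F K).injective
  set p : F[X] := (Algebra.lmul F K θ).charpoly with hp
  have hpm : p.Monic := LinearMap.charpoly_monic _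
  have hpd : p.natDegree = m := by rw [hp, LinearMap.charpoly_natDegree, hK]
  have hr : ∀ j : K, (dt_T (F := F) j).charpoly = (dt_T (F := F) θ).charpoly → aeval j p = 0 := by
    intro j hj
    unfold dt_T at hj
    rw [LinearMap.charpoly_prodMap, LinearMap.charpoly_prodMap] at hj
    have h1 : (Algebra.lmul F K j).charpoly = p :=
      mul_left_cancel₀ (LinearMap.charpoly_monic (dt_J F)).ne_zero hj
    have h2 := LinearMap.aeval_self_charpoly (Algebra.lmul F K j)
    rw [h1] at h2
    have h3 := congrArg (fun g : K →ₗ[F] K => g 1) h2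
    simp only [LinearMap.zero_apply] at h3
    rw [dt_lmul, mul_one] at h3
    exact h3
  have h1 : Nat.card {j : {θ' : K // P θ'} //
      (dt_T (F := F) j.1).charpoly = (dt_T (F := F) θ).charpoly} ≤
      Nat.card ((p.aroots K).toFinset : Finset K) := by
    refine Nat.card_le_card_of_injective (fun j => ⟨j.1.1, ?_⟩) ?_
    · rw [Multiset.mem_toFinset, Polynomial.mem_aroots]
      exact ⟨hpm.ne_zero, hr _ j.2⟩
    · intro j j' h
      have := congrArg Subtype.val h
      exact Subtype.ext (Subtype.ext this)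
  refine h1.trans ?_
  rw [Nat.card_eq_fintype_card, Fintype.card_coe]
  refine (Multiset.toFinset_card_le _).trans ?_
  rw [← hpd]
  refine (Polynomial.card_roots' _).trans ?_
  rw [Polynomial.natDegree_map]

theorem dt_func {F K : Type} [Field F] [Field K] [Algebra F K] {n : ℕ} (e : ((F × F) × K) ≃ₗ[F] (Fin n → F)) (z : Fin n → F) :
    (fun i => (e.symm (Pi.single i 1)).1.2) ⬝ᵥ z = (e.symm z).1.2 := by
  classical
  let f : (Fin n → F) →ₗ[F] F :=
    (LinearMap.snd F F F) ∘ₗ (LinearMap.fst F (F × F) K) ∘ₗ (e.symm : (Fin n → F) →ₗ[F] _)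
  have h : ∀ z, f z = (e.symm z).1.2 := fun z => rfl
  rw [← h z]
  conv_rhs => rw [← Finset.univ_sum_single z, map_sum]
  rw [dotProduct]
  refine Finset.sum_congr rfl fun i _ => ?_
  have h2 : (Pi.single i (z i) : Fin n → F) = z i • Pi.single i 1 := by
    rw [← Pi.single_smul, smul_eq_mul, mul_one]
  rw [h2, map_smul, smul_eq_mul, mul_comm, h]

/-- the power is a transvection -/
theorem dt_tv {F K : Type} [Field F] [Finite F] [Field K] [Algebra F K] {n m : ℕ} (hm : 1 ≤ m)
    (θ : K) (hθ : θ ^ nu (Nat.card F) m = 1) (y : SL n F)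
    (e : ((F × F) × K) ≃ₗ[F] (Fin n → F))
    (he : ∀ x, y.1.mulVec (e x) = e (dt_T (F := F) θ x)) : TT y := by
  classical
  refine ⟨nu (Nat.card F) m, ?_⟩
  have hpow : ∀ (k : ℕ) (x : (F × F) × K), (y ^ k).1.mulVec (e x) =
      e (((dt_T (F := F) θ) ^ k) x) := by
    intro k
    induction k with
    | zero =>
      intro x
      simp
    | succ k ih =>
      intro x
      rw [pow_succ, pow_succ, Module.End.mul_apply, ← ih, ← he, Matrix.mulVec_mulVec]
      rfl
  have hN : ∀ (a b : F) (x : K), (y ^ nu (Nat.card F) m).1.mulVec (e ((a, b), x)) =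
      e ((a + b, b), x) := by
    intro a b x
    rw [hpow, dt_T_pow, dt_nucast hm, one_mul, hθ, one_mul]
  refine ⟨?_, e ((1, 0), 0), fun i => (e.symm (Pi.single i 1)).1.2, ?_, ?_⟩
  · intro h1
    have h2 := hN 0 1 0
    rw [h1] at h2
    have h3 : (1 : SL n F).1.mulVec (e ((0, 1), (0 : K))) = e ((0, 1), 0) := by
      show (1 : Matrix (Fin n) (Fin n) F).mulVec _ = _
      rw [Matrix.one_mulVec]
    rw [h3] at h2
    have h4 := congrArg (fun z : (F × F) × K => z.1.1) (e.injective h2)
    simp at h4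
  · rw [dt_func]
    simp
  · apply Matrix.toLin'.injective
    apply LinearMap.ext
    intro z
    obtain ⟨⟨⟨a, b⟩, x⟩, rfl⟩ := e.surjective z
    rw [Matrix.toLin'_apply, Matrix.toLin'_apply, hN, Matrix.add_mulVec, Matrix.one_mulVec,
      Matrix.vecMulVec_mulVec, dt_func, LinearEquiv.symm_apply_apply]
    have h1 : (((a + b, b), x) : (F × F) × K) = ((a, b), x) + b • ((1, 0), 0) := by
      refine Prod.ext (Prod.ext ?_ ?_) ?_
      · simp
      · simp
      · simp
    rw [h1, map_add, map_smul, op_smul_eq_smul]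

theorem dt_order {K : Type} [Field K] [Finite K] {N : ℕ} (hN : N ∣ Nat.card K - 1) :
    Nat.card {θ : K // orderOf θ = N} = Nat.totient N := by
  classical
  have : Fintype K := Fintype.ofFinite K
  have hc : Nat.card Kˣ = Nat.card K - 1 := Nat.card_units K
  have h1 := IsCyclic.card_orderOf_eq_totient (α := Kˣ) (d := N) (by
    rw [← Nat.card_eq_fintype_card, hc]
    exact hN)
  have hN0 : 0 < N := by
    rcases Nat.eq_zero_or_pos N with h | h
    · rw [h, zero_dvd_iff] at hN
      have := Finite.one_lt_card (α := K)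
      omega
    · exact h
  rw [← h1, ← Fintype.card_subtype, ← Nat.card_eq_fintype_card]
  refine Nat.card_congr
    { toFun := fun θ => ⟨Units.mk0 θ.1 ?_, ?_⟩
      invFun := fun u => ⟨u.1.1, ?_⟩
      left_inv := fun θ => Subtype.ext rfl
      right_inv := fun u => Subtype.ext (Units.ext rfl) }
  · intro h0
    have h2 := pow_orderOf_eq_one θ.1
    rw [θ.2, h0, zero_pow hN0.ne'] at h2
    exact zero_ne_one h2
  · rw [← orderOf_units]
    exact θ.2
  · rw [orderOf_units]
    exact u.2

/-- **DT** -/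
theorem t_DT : M_DT := by
  intro hPHI hFXT hGNE hDSG n F _ _ hn
  classical
  obtain ⟨m, rfl⟩ : ∃ m, n = m + 2 := ⟨n - 2, by omega⟩
  have hm : 3 ≤ m := by omega
  obtain ⟨K, _, _, _, hK⟩ := hFXT F m (by omega)
  have hFD : Module.Finite F K := Module.Finite.of_finite
  have hcK : Nat.card K = Nat.card F ^ m := by
    rw [Module.natCard_eq_pow_finrank (K := F) (V := K), hK]
  have hq2 : 2 ≤ Nat.card F := Finite.one_lt_card
  have hgeom := dt_geom (Nat.card F) m (by omega)
  set q := Nat.card F with hq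
  set N := nu q m with hN
  have hNdvd : N ∣ Nat.card K - 1 := by
    rw [hcK, ← hgeom]
    exact dvd_mul_right _ _
  have hNpos : 0 < N := by
    rcases Nat.eq_zero_or_pos N with h | h
    · rw [h, zero_mul] at hgeom
      have : 2 ^ m ≤ q ^ m := Nat.pow_le_pow_left hq2 m
      have : 2 ^ 1 ≤ 2 ^ m := Nat.pow_le_pow_right (by norm_num) (by omega)
      omega
    · exact h
  have hN2 : 2 ≤ N := by
    have h1 : ∑ i ∈ Finset.range 2, q ^ i ≤ N := by
      rw [hN]
      unfold nu
      exact Finset.sum_le_sum_of_subset (Finset.range_subset_range.2 (by omega))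
    rw [Finset.sum_range_succ, Finset.sum_range_one] at h1
    simp at h1
    omega
  have hdsg := hDSG F ((F × F) × K) (m + 2) (by
      rw [Module.finrank_prod, Module.finrank_prod, Module.finrank_self, hK]
      omega) {θ : K // orderOf θ = N} (fun θ => dt_T (F := F) θ.1)
    (by
      intro θ
      unfold dt_T
      rw [LinearMap.det_prodMap, dt_J_det, one_mul]
      have h1 : LinearMap.det (Algebra.lmul F K θ.1) = Algebra.norm F θ.1 := rfl
      rw [h1]
      apply (algebraMap F K).injective
      rw [FiniteField.algebraMap_norm_eq_pow_sum, hK, map_one]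
      have h2 := pow_orderOf_eq_one θ.1
      rw [θ.2] at h2
      exact h2)
    (by
      intro θ
      refine ⟨((0, 1), 1), fun w => dt_cyc θ.1 ?_ (dt_gen θ.1 hGNE (by omega) hcK (by omega)
        θ.2) w⟩
      intro h
      have h2 := θ.2
      rw [h, orderOf_one] at h2
      omega)
    (by
      intro θ
      exact (dt_roots hK (fun θ' => orderOf θ' = N) θ.1).trans (by omega))
  rw [dt_order hNdvd, dt_card _ (by omega)] at hdsg
  have hTT : Nat.card {y : SL (m + 2) F // ∃ (i : {θ : K // orderOf θ = N})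
      (e : ((F × F) × K) ≃ₗ[F] (Fin (m + 2) → F)),
        ∀ x, y.1.mulVec (e x) = e (dt_T (F := F) i.1 x)} ≤
      Nat.card {y : SL (m + 2) F // TT y} := by
    refine Nat.card_le_card_of_injective (fun y => ⟨y.1, ?_⟩) ?_
    · obtain ⟨θ, e, he⟩ := y.2
      have h2 := pow_orderOf_eq_one θ.1
      rw [θ.2] at h2
      exact dt_tv (m := m) (by omega) θ.1 h2 y.1 e he
    · intro y y' h
      have := congrArg Subtype.val h
      exact Subtype.ext this
  set t := Nat.card {y : SL (m + 2) F // TT y} with ht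
  set S := Nat.card (SL (m + 2) F) with hS
  have hphi : N ≤ Nat.totient N * lg q (m + 2) := by
    refine (hPHI N hNpos).trans (Nat.mul_le_mul_left _ ?_)
    unfold lg
    refine Nat.succ_le_succ (Nat.log_mono_right ?_)
    have h1 : N * 1 ≤ N * (q - 1) := Nat.mul_le_mul_left _ (by omega)
    have h2 : q ^ m ≤ q ^ (m + 2) := Nat.pow_le_pow_right (by omega) (by omega)
    omega
  have hqm : q ^ m ≤ 2 * (N * (q - 1)) := by
    rw [hgeom]
    have : 2 ^ m ≤ q ^ m := Nat.pow_le_pow_left hq2 m
    have : 2 ^ 1 ≤ 2 ^ m := Nat.pow_le_pow_right (by norm_num) (by omega)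
    omega
  have hfin : q ^ m * S ≤ q ^ m * (4 * q ^ 2 * (m + 2) * lg q (m + 2) * t) := by
    calc q ^ m * S ≤ 2 * (N * (q - 1)) * S := Nat.mul_le_mul_right _ hqm
      _ = 2 * (N * ((q - 1) * S)) := by ring
      _ ≤ 2 * ((Nat.totient N * lg q (m + 2)) * ((q - 1) * S)) := by gcongr
      _ = 2 * lg q (m + 2) * (Nat.totient N * ((q - 1) * S)) := by ring
      _ ≤ 2 * lg q (m + 2) * ((m + 2) * q ^ (m + 2) * t) := by
        refine Nat.mul_le_mul_left _ (hdsg.trans ?_)
        exact Nat.mul_le_mul_left _ hTT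
      _ = 2 * (q ^ m * (q ^ 2 * (m + 2) * lg q (m + 2) * t)) := by ring
      _ ≤ 4 * (q ^ m * (q ^ 2 * (m + 2) * lg q (m + 2) * t)) := by
        apply Nat.mul_le_mul_right
        norm_num
      _ = q ^ m * (4 * q ^ 2 * (m + 2) * lg q (m + 2) * t) := by ring
  exact Nat.le_of_mul_le_mul_left hfin (pow_pos (by omega) _)

end

end SRJ
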