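import Mathlib
import Pool.Agent.SRJ.StB

/-!
# Module DVT (helper12)

`q = 2`: the number of the `y ∈ GL(V)` whose generalised eigenspace for `1` has dimension at least `l`
is at most `4 · 2^(-l) |GL(V)|`.  Proof: put `T = y - 1`. If the dimension is at least `l` then
`ker T^l` has at least `2^l` elements. A vector `v ≠ 0` of `ker T^l` has a height `m + 1 ≤ l`, and
`v, T v, ..., T^m v` are independent; `y` is determined by these vectors, by the induced map of `V/U`,
`U` their span, and by a linear map `V/U → U`. Induction on `l`.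
-/

set_option autoImplicit false

namespace SRJ

open Polynomial Module
open FL0 (SL)

noncomputable section

section dvt_sec

variable {F V : Type} [Field F] [AddCommGroup V] [Module F V]

/-- `y - 1` -/
def dvt_T (y : V ≃ₗ[F] V) : Module.End F V := (y : V →ₗ[F] V) - 1

lemma dvt_T_apply (y : V ≃ₗ[F] V) (v : V) : dvt_T y v = y v - v := rfl

/-- the generalised eigenspace for `1` has dimension at least `l` -/
def dvt_Z (l : ℕ) (y : V ≃ₗ[F] V) : Prop :=
  ∃ k : ℕ, l ≤ finrank F (LinearMap.ker (dvt_T y ^ k))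

lemma dvt_ker_le (T : Module.End F V) (a b : ℕ) :
    LinearMap.ker (T ^ a) ≤ LinearMap.ker (T ^ (b + a)) := by
  intro x hx
  rw [LinearMap.mem_ker] at hx ⊢
  rw [pow_add, Module.End.mul_apply, hx, map_zero]

lemma dvt_ker [FiniteDimensional F V] {l : ℕ} {y : V ≃ₗ[F] V} (h : dvt_Z l y) :
    l ≤ finrank F (LinearMap.ker (dvt_T y ^ l)) := by
  obtain ⟨k, hk⟩ := h
  induction l with
  | zero => exact Nat.zero_le _
  | succ l ih =>
    have ih' := ih (Nat.le_of_succ_le hk)
    by_contra hlt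
    push Not at hlt
    have hle : LinearMap.ker (dvt_T y ^ l) ≤ LinearMap.ker (dvt_T y ^ (l + 1)) := by
      have := dvt_ker_le (dvt_T y) l 1
      rwa [add_comm 1 l] at this
    have heq : LinearMap.ker (dvt_T y ^ l) = LinearMap.ker (dvt_T y ^ (l + 1)) :=
      Submodule.eq_of_le_of_finrank_le hle (by omega)
    have hc := Module.End.ker_pow_constant heq k
    have h1 := Submodule.finrank_mono (dvt_ker_le (dvt_T y) k l)
    rw [← hc, heq] at h1
    omega

lemma dvt_cardker [Finite F] [FiniteDimensional F V] (S : Submodule F V) (l : ℕ)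
    (h : l ≤ finrank F S) : Nat.card F ^ l ≤ Nat.card {v : V // v ≠ 0 ∧ v ∈ S} + 1 := by
  haveI : Finite V := Module.finite_of_finite F
  have h1 : Nat.card S = Nat.card F ^ finrank F S := Module.natCard_eq_pow_finrank
  have h2 : Nat.card {v : V // v ≠ 0 ∧ v ∈ S} + 1 = Nat.card S := by
    have e1 : Nat.card {v : V // v ≠ 0 ∧ v ∈ S} = ((S : Set V) \ {0}).ncard := by
      rw [← Nat.card_coe_set_eq]
      refine Nat.card_congr (Equiv.subtypeEquivRight fun v => ?_)
      simp only [Set.mem_diff, SetLike.mem_coe, Set.mem_singleton_iff]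
      exact and_comm
    have e2 : Nat.card S = (S : Set V).ncard := by
      rw [← Nat.card_coe_set_eq]
      rfl
    rw [e1, e2, Set.ncard_diff_singleton_add_one S.zero_mem (Set.toFinite _)]
  rw [h2, h1]
  exact Nat.pow_le_pow_right (Nat.card_pos) h

/-- the pairs with a vector of height `m + 1` -/
def dvt_P (F V : Type) [Field F] [AddCommGroup V] [Module F V] (l m : ℕ) : Type :=
  {p : (V ≃ₗ[F] V) × V // dvt_Z l p.1 ∧ (dvt_T p.1 ^ m) p.2 ≠ 0 ∧ (dvt_T p.1 ^ (m + 1)) p.2 = 0}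

lemma dvt_height {y : V ≃ₗ[F] V} {v : V} {l : ℕ} (hv : v ≠ 0) (h : (dvt_T y ^ l) v = 0) :
    ∃ m : Fin l, (dvt_T y ^ m.1) v ≠ 0 ∧ (dvt_T y ^ (m.1 + 1)) v = 0 := by
  classical
  have hex : ∃ j, (dvt_T y ^ j) v = 0 := ⟨l, h⟩
  have h0 : Nat.find hex ≠ 0 := by
    intro h0
    have := Nat.find_spec hex
    rw [h0, pow_zero] at this
    exact hv this
  obtain ⟨m, hm⟩ := Nat.exists_eq_succ_of_ne_zero h0
  have h1 : m < l := by
    have := Nat.find_min' hex h
    omega
  have h5 : (dvt_T y ^ m) v ≠ 0 := Nat.find_min hex (by omega : m < Nat.find hex)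
  refine ⟨⟨m, h1⟩, h5, ?_⟩
  have := Nat.find_spec hex
  rwa [hm] at this

instance dvt_finEquiv [Finite F] [FiniteDimensional F V] : Finite (V ≃ₗ[F] V) := by
  haveI : Finite V := Module.finite_of_finite F
  exact Finite.of_injective (fun y : V ≃ₗ[F] V => (y : V → V)) DFunLike.coe_injective

instance dvt_finP [Finite F] [FiniteDimensional F V] (l m : ℕ) : Finite (dvt_P F V l m) := by
  haveI : Finite V := Module.finite_of_finite F
  unfold dvt_P
  infer_instance

lemma dvt_count [Finite F] [FiniteDimensional F V] (l : ℕ) :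
    Nat.card {y : V ≃ₗ[F] V // dvt_Z l y} * (Nat.card F ^ l - 1) ≤
      ∑ m : Fin l, Nat.card (dvt_P F V l m.1) := by
  classical
  haveI : Finite V := Module.finite_of_finite F
  haveI : Fintype {y : V ≃ₗ[F] V // dvt_Z l y} := Fintype.ofFinite _
  have h1 : Nat.card {y : V ≃ₗ[F] V // dvt_Z l y} * (Nat.card F ^ l - 1) ≤
      Nat.card (Σ y : {y : V ≃ₗ[F] V // dvt_Z l y},
        {v : V // v ≠ 0 ∧ v ∈ LinearMap.ker (dvt_T y.1 ^ l)}) := by
    rw [Nat.card_sigma, Nat.card_eq_fintype_card (α := {y : V ≃ₗ[F] V // dvt_Z l y}),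
      ← Finset.card_univ, ← smul_eq_mul]
    refine Finset.card_nsmul_le_sum _ _ _ fun y _ => ?_
    have := dvt_cardker _ l (dvt_ker y.2)
    omega
  refine h1.trans ?_
  rw [← Nat.card_sigma]
  have hch : ∀ x : (Σ y : {y : V ≃ₗ[F] V // dvt_Z l y},
      {v : V // v ≠ 0 ∧ v ∈ LinearMap.ker (dvt_T y.1 ^ l)}), ∃ m : Fin l,
      (dvt_T x.1.1 ^ m.1) x.2.1 ≠ 0 ∧ (dvt_T x.1.1 ^ (m.1 + 1)) x.2.1 = 0 :=
    fun x => dvt_height x.2.2.1 x.2.2.2
  choose mm h2 h3 using hch
  refine Nat.card_le_card_of_injective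
    (fun x => (⟨mm x, ⟨(x.1.1, x.2.1), x.1.2, h2 x, h3 x⟩⟩ : Σ m : Fin l, dvt_P F V l m.1)) ?_
  intro x x' hxx
  have e : ∀ z : (Σ m : Fin l, dvt_P F V l m.1), ∀ z' : (Σ m : Fin l, dvt_P F V l m.1), z = z' →
      z.2.1 = z'.2.1 := by
    rintro z z' rfl
    rfl
  have h4 := e _ _ hxx
  obtain ⟨⟨y, hy⟩, v, hv⟩ := x
  obtain ⟨⟨y', hy'⟩, v', hv'⟩ := x'
  simp only [Prod.mk.injEq] at h4
  obtain ⟨rfl, rfl⟩ := h4
  rfl

/-- the vectors `T^i v` -/
lemma dvt_indep {T : Module.End F V} {v : V} {m : ℕ} (h1 : (T ^ m) v ≠ 0)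
    (h2 : (T ^ (m + 1)) v = 0) : LinearIndependent F (fun i : Fin (m + 1) => (T ^ i.1) v) := by
  rw [Fintype.linearIndependent_iff]
  intro g hg
  have hz : ∀ j, m + 1 ≤ j → (T ^ j) v = 0 := by
    intro j hj
    obtain ⟨d, rfl⟩ := Nat.exists_eq_add_of_le hj
    rw [add_comm, pow_add, Module.End.mul_apply, h2, map_zero]
  have key : ∀ k : ℕ, ∀ i : Fin (m + 1), i.1 = k → g i = 0 := by
    intro k
    induction k using Nat.strong_induction_on with
    | _ k ih =>
      intro i hi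
      have h3 := congrArg (T ^ (m - k)) hg
      rw [map_zero, map_sum] at h3
      have h4 : ∀ j : Fin (m + 1), j ≠ i → (T ^ (m - k)) (g j • (T ^ j.1) v) = 0 := by
        intro j hj
        rcases lt_trichotomy j.1 k with hlt | heq | hgt
        · rw [ih j.1 hlt j rfl, zero_smul, map_zero]
        · exact absurd (Fin.ext (heq.trans hi.symm)) hj
        · rw [map_smul, ← Module.End.mul_apply, ← pow_add, hz _ (by omega), smul_zero]
      rw [Finset.sum_eq_single i (fun j _ hj => h4 j hj)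
        (fun h => absurd (Finset.mem_univ i) h)] at h3
      rw [map_smul, ← Module.End.mul_apply, ← pow_add] at h3
      have h5 : m - k + i.1 = m := by omega
      rw [h5] at h3
      exact (smul_eq_zero.1 h3).resolve_right h1
  exact fun i => key i.1 i rfl

/-- the `y` with a given chain -/
def dvt_R (l m : ℕ) (e : Fin (m + 1) → V) : Type :=
  {y : V ≃ₗ[F] V // dvt_Z l y ∧ (∀ i : Fin (m + 1), e i = (dvt_T y ^ i.1) (e 0)) ∧
    (dvt_T y ^ (m + 1)) (e 0) = 0}

instance dvt_finR [Finite F] [FiniteDimensional F V] (l m : ℕ) (e : Fin (m + 1) → V) :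
    Finite (dvt_R (F := F) l m e) := by
  unfold dvt_R
  infer_instance

lemma dvt_Pbound [Finite F] [FiniteDimensional F V] (l m : ℕ) (D : ℝ)
    (hD : ∀ e : Fin (m + 1) → V, LinearIndependent F e →
      (Nat.card (dvt_R (F := F) l m e) : ℝ) ≤ D) :
    (Nat.card (dvt_P F V l m) : ℝ) ≤
      Nat.card {e : Fin (m + 1) → V // LinearIndependent F e} * D := by
  classical
  haveI : Finite V := Module.finite_of_finite F
  haveI : Fintype {e : Fin (m + 1) → V // LinearIndependent F e} := Fintype.ofFinite _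
  have h1 : Nat.card (dvt_P F V l m) ≤
      Nat.card (Σ e : {e : Fin (m + 1) → V // LinearIndependent F e}, dvt_R (F := F) l m e.1) := by
    refine Nat.card_le_card_of_injective (fun p => ⟨⟨fun i => (dvt_T p.1.1 ^ i.1) p.1.2,
      dvt_indep p.2.2.1 p.2.2.2⟩, ⟨p.1.1, p.2.1, ?_, ?_⟩⟩) ?_
    · intro i
      simp only [Fin.val_zero, pow_zero, Module.End.one_apply]
    · simp only [Fin.val_zero, pow_zero, Module.End.one_apply]
      exact p.2.2.2
    · intro p p' hpp
      have e1 : ∀ z z' : (Σ e : {e : Fin (m + 1) → V // LinearIndependent F e},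
          dvt_R (F := F) l m e.1), z = z' → z.1.1 0 = z'.1.1 0 ∧ z.2.1 = z'.2.1 := by
        rintro z z' rfl
        exact ⟨rfl, rfl⟩
      obtain ⟨h2, h3⟩ := e1 _ _ hpp
      simp only [Fin.val_zero, pow_zero, Module.End.one_apply] at h2
      exact Subtype.ext (Prod.ext h3 h2)
  have h2 : (Nat.card (dvt_P F V l m) : ℝ) ≤
      (Nat.card (Σ e : {e : Fin (m + 1) → V // LinearIndependent F e},
        dvt_R (F := F) l m e.1) : ℝ) := by exact_mod_cast h1
  refine h2.trans ?_
  rw [Nat.card_sigma, Nat.cast_sum]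
  refine (Finset.sum_le_card_nsmul _ _ D fun e _ => hD e.1 e.2).trans (le_of_eq ?_)
  rw [nsmul_eq_mul, Finset.card_univ, Nat.card_eq_fintype_card]

/-- `y` maps the span of a chain into itself, in a way that depends on the chain only -/
lemma dvt_Rstep {l m : ℕ} {e : Fin (m + 1) → V} (y : dvt_R (F := F) l m e) (i : Fin (m + 1)) :
    dvt_T y.1 (e i) = if h : i.1 + 1 < m + 1 then e ⟨i.1 + 1, h⟩ else 0 := by
  obtain ⟨y, hy, h1, h2⟩ := y
  have h3 : dvt_T y (e i) = (dvt_T y ^ (i.1 + 1)) (e 0) := by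
    rw [h1 i, pow_succ', Module.End.mul_apply]
  split_ifs with h
  · rw [h3, h1 ⟨i.1 + 1, h⟩]
  · have h4 : i.1 = m := by have := i.2; omega
    rw [h3, h4, h2]

lemma dvt_Rsame {l m : ℕ} {e : Fin (m + 1) → V} (y y' : dvt_R (F := F) l m e) (u : V)
    (hu : u ∈ Submodule.span F (Set.range e)) : y.1 u = y'.1 u := by
  have h : Set.EqOn (y.1 : V →ₗ[F] V) (y'.1 : V →ₗ[F] V) (Submodule.span F (Set.range e)) := by
    refine LinearMap.eqOn_span ?_
    rintro _ ⟨i, rfl⟩
    have h1 := dvt_Rstep y i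
    rw [← dvt_Rstep y' i, dvt_T_apply, dvt_T_apply] at h1
    exact sub_left_injective h1
  exact h hu

lemma dvt_Rmap [FiniteDimensional F V] {l m : ℕ} {e : Fin (m + 1) → V}
    (y : dvt_R (F := F) l m e) :
    (Submodule.span F (Set.range e)).map (y.1 : V →ₗ[F] V) = Submodule.span F (Set.range e) := by
  have hle : (Submodule.span F (Set.range e)).map (y.1 : V →ₗ[F] V) ≤
      Submodule.span F (Set.range e) := by
    rw [Submodule.map_span, Submodule.span_le]
    rintro _ ⟨_, ⟨i, rfl⟩, rfl⟩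
    have h1 := dvt_Rstep y i
    rw [dvt_T_apply, sub_eq_iff_eq_add] at h1
    have h2 : (y.1 : V →ₗ[F] V) (e i) = (if h : i.1 + 1 < m + 1 then e ⟨i.1 + 1, h⟩ else 0) + e i := h1
    rw [SetLike.mem_coe, h2]
    refine Submodule.add_mem _ ?_ (Submodule.subset_span ⟨i, rfl⟩)
    split_ifs
    · exact Submodule.subset_span ⟨_, rfl⟩
    · exact Submodule.zero_mem _
  refine Submodule.eq_of_le_of_finrank_le hle (le_of_eq ?_)
  exact (LinearEquiv.finrank_map_eq y.1 _).symm

/-- the map induced on `V/U` -/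
def dvt_q [FiniteDimensional F V] {l m : ℕ} {e : Fin (m + 1) → V} (y : dvt_R (F := F) l m e) :
    (V ⧸ Submodule.span F (Set.range e)) ≃ₗ[F] (V ⧸ Submodule.span F (Set.range e)) :=
  Submodule.Quotient.equiv _ _ y.1 (dvt_Rmap y)

lemma dvt_q_mk [FiniteDimensional F V] {l m : ℕ} {e : Fin (m + 1) → V}
    (y : dvt_R (F := F) l m e) (v : V) :
    dvt_q y ((Submodule.span F (Set.range e)).mkQ v) =
      (Submodule.span F (Set.range e)).mkQ (y.1 v) := rfl

lemma dvt_q_T [FiniteDimensional F V] {l m : ℕ} {e : Fin (m + 1) → V}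
    (y : dvt_R (F := F) l m e) (k : ℕ) (v : V) :
    (dvt_T (dvt_q y) ^ k) ((Submodule.span F (Set.range e)).mkQ v) =
      (Submodule.span F (Set.range e)).mkQ ((dvt_T y.1 ^ k) v) := by
  induction k generalizing v with
  | zero => simp only [pow_zero, Module.End.one_apply]
  | succ k ih =>
    rw [pow_succ, Module.End.mul_apply, dvt_T_apply, dvt_q_mk, ← map_sub, ih, pow_succ,
      Module.End.mul_apply, dvt_T_apply]

lemma dvt_q_Z [FiniteDimensional F V] {l m : ℕ} {e : Fin (m + 1) → V}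
    (he : LinearIndependent F e) (y : dvt_R (F := F) l m e) :
    dvt_Z (l - (m + 1)) (dvt_q y) := by
  obtain ⟨k, hk⟩ := y.2.1
  refine ⟨k, ?_⟩
  set U := Submodule.span F (Set.range e) with hU
  have hUf : finrank F U = m + 1 := by
    rw [hU, finrank_span_eq_card he, Fintype.card_fin]
  set K := LinearMap.ker (dvt_T y.1 ^ k) with hK
  have h1 := LinearMap.finrank_range_add_finrank_ker (U.mkQ.domRestrict K)
  have h2 : finrank F (LinearMap.range (U.mkQ.domRestrict K)) ≤
      finrank F (LinearMap.ker (dvt_T (dvt_q y) ^ k)) := by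
    refine Submodule.finrank_mono ?_
    rintro _ ⟨x, rfl⟩
    rw [LinearMap.mem_ker, LinearMap.domRestrict_apply, dvt_q_T]
    have hx : (dvt_T y.1 ^ k) (x : V) = 0 := x.2
    rw [hx, map_zero]
  have h3 : finrank F (LinearMap.ker (U.mkQ.domRestrict K)) ≤ finrank F U := by
    refine LinearMap.finrank_le_finrank_of_injective
      (f := (K.subtype.domRestrict (LinearMap.ker (U.mkQ.domRestrict K))).codRestrict U ?_) ?_
    · rintro ⟨x, hx⟩
      rw [LinearMap.mem_ker, LinearMap.domRestrict_apply, Submodule.mkQ_apply,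
        Submodule.Quotient.mk_eq_zero] at hx
      exact hx
    · intro x x' hxx
      have := congrArg (fun u : U => (u : V)) hxx
      exact Subtype.ext (Subtype.ext this)
  omega

lemma dvt_Rbound [Finite F] [FiniteDimensional F V] {l m : ℕ} {e : Fin (m + 1) → V}
    (he : LinearIndependent F e) :
    Nat.card (dvt_R (F := F) l m e) ≤
      Nat.card {z : (V ⧸ Submodule.span F (Set.range e)) ≃ₗ[F]
        (V ⧸ Submodule.span F (Set.range e)) // dvt_Z (l - (m + 1)) z} *
      Nat.card F ^ ((finrank F V - (m + 1)) * (m + 1)) := by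
  haveI : Finite V := Module.finite_of_finite F
  set U := Submodule.span F (Set.range e) with hU
  have hUf : finrank F U = m + 1 := by
    rw [hU, finrank_span_eq_card he, Fintype.card_fin]
  have hQf : finrank F (V ⧸ U) = finrank F V - (m + 1) := by
    have := Submodule.finrank_quotient_add_finrank U
    omega
  have hcard : Nat.card ((V ⧸ U) →ₗ[F] U) = Nat.card F ^ ((finrank F V - (m + 1)) * (m + 1)) := by
    rw [Module.natCard_eq_pow_finrank (K := F), finrank_linearMap, hUf, hQf]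
  rw [← hcard, ← Nat.card_prod]
  obtain ⟨s, hs⟩ := U.mkQ.exists_rightInverse_of_surjective (Submodule.range_mkQ U)
  have hs' : ∀ x, U.mkQ (s x) = x := fun x => LinearMap.congr_fun hs x
  haveI : Finite (V ⧸ U) := Finite.of_surjective _ U.mkQ_surjective
  haveI : Finite U := Finite.of_injective (fun u : U => (u : V)) Subtype.val_injective
  haveI : Finite ((V ⧸ U) →ₗ[F] U) :=
    Finite.of_injective (fun f : (V ⧸ U) →ₗ[F] U => (f : (V ⧸ U) → U)) DFunLike.coe_injective
  have hmem : ∀ (y : dvt_R (F := F) l m e) (x : V ⧸ U), ((y.1 : V →ₗ[F] V) ∘ₗ s -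
      s ∘ₗ ((dvt_q y : (V ⧸ U) →ₗ[F] (V ⧸ U)))) x ∈ U := by
    intro y x
    rw [← Submodule.Quotient.mk_eq_zero, ← Submodule.mkQ_apply, LinearMap.sub_apply, map_sub]
    have h1 : U.mkQ (((y.1 : V →ₗ[F] V) ∘ₗ s) x) = dvt_q y x := by
      have := dvt_q_mk y (s x)
      rw [hs'] at this
      exact this.symm
    have h2 : U.mkQ ((s ∘ₗ ((dvt_q y : (V ⧸ U) →ₗ[F] (V ⧸ U)))) x) = dvt_q y x := hs' _
    rw [h1, h2, sub_self]
  refine Nat.card_le_card_of_injective (fun y : dvt_R (F := F) l m e =>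
    ((⟨dvt_q y, dvt_q_Z he y⟩, ((y.1 : V →ₗ[F] V) ∘ₗ s -
      s ∘ₗ ((dvt_q y : (V ⧸ U) →ₗ[F] (V ⧸ U)))).codRestrict U (hmem y)) :
      {z : (V ⧸ U) ≃ₗ[F] (V ⧸ U) // dvt_Z (l - (m + 1)) z} × ((V ⧸ U) →ₗ[F] U))) ?_
  intro y y' hyy
  rw [Prod.mk.injEq] at hyy
  obtain ⟨h1, h2⟩ := hyy
  have h3 : dvt_q y = dvt_q y' := congrArg Subtype.val h1
  refine Subtype.ext (LinearEquiv.ext fun v => ?_)
  have h4 : ∀ x : V ⧸ U, y.1 (s x) = y'.1 (s x) := by
    intro x
    have h5 := congrArg (fun u : U => (u : V)) (LinearMap.congr_fun h2 x)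
    have h6 : y.1 (s x) - s (dvt_q y x) = y'.1 (s x) - s (dvt_q y' x) := h5
    rw [h3] at h6
    exact sub_left_injective h6
  have h7 : v - s (U.mkQ v) ∈ U := by
    rw [← Submodule.Quotient.mk_eq_zero, ← Submodule.mkQ_apply, map_sub, hs', sub_self]
  have h8 := dvt_Rsame y y' _ h7
  rw [map_sub, map_sub, h4] at h8
  exact sub_left_injective h8

/-- the order of `GL_n(2)` -/
def dvt_gl (n : ℕ) : ℝ := ∏ i ∈ Finset.range n, ((2 : ℝ) ^ n - 2 ^ i)

lemma dvt_gl_pos (n : ℕ) : 0 < dvt_gl n := by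
  refine Finset.prod_pos fun i hi => sub_pos.2 ?_
  exact pow_lt_pow_right₀ (by norm_num) (Finset.mem_range.1 hi)

lemma dvt_cast_prod (n k : ℕ) (hk : k ≤ n) :
    ((∏ i : Fin k, (2 ^ n - 2 ^ i.1) : ℕ) : ℝ) = ∏ i ∈ Finset.range k, ((2 : ℝ) ^ n - 2 ^ i) := by
  rw [Finset.prod_range (fun i => (2 : ℝ) ^ n - 2 ^ i)]
  rw [Nat.cast_prod]
  refine Finset.prod_congr rfl fun i _ => ?_
  have h : 2 ^ i.1 ≤ 2 ^ n := Nat.pow_le_pow_right (by norm_num) (by have := i.2; omega)
  rw [Nat.cast_sub h]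
  push_cast
  ring

lemma dvt_gl_split (n k : ℕ) (hk : k ≤ n) :
    (∏ i ∈ Finset.range k, ((2 : ℝ) ^ n - 2 ^ i)) * (dvt_gl (n - k) * 2 ^ ((n - k) * k)) =
      dvt_gl n := by
  obtain ⟨d, rfl⟩ := Nat.exists_eq_add_of_le hk
  have h1 : k + d - k = d := by omega
  rw [h1]
  unfold dvt_gl
  rw [Finset.prod_range_add]
  congr 1
  have h2 : ∀ i ∈ Finset.range d, (2 : ℝ) ^ (k + d) - 2 ^ (k + i) = 2 ^ k * (2 ^ d - 2 ^ i) := by
    intro i _
    rw [pow_add, pow_add]
    ring
  rw [Finset.prod_congr rfl h2, Finset.prod_mul_distrib, Finset.prod_const, Finset.card_range,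
    ← pow_mul, mul_comm k d]
  ring

lemma dvt_cardequiv [Finite F] [FiniteDimensional F V] (hF : Nat.card F = 2) :
    (Nat.card (V ≃ₗ[F] V) : ℝ) = dvt_gl (finrank F V) := by
  classical
  haveI : Fintype F := Fintype.ofFinite _
  have hF' : Fintype.card F = 2 := by rw [← Nat.card_eq_fintype_card, hF]
  have h1 : Nat.card (V ≃ₗ[F] V) = Nat.card (Matrix.GeneralLinearGroup (Fin (finrank F V)) F) :=
    Nat.card_congr ((Matrix.GeneralLinearGroup.toLin' (finBasis F V)).trans
      (LinearMap.GeneralLinearGroup.generalLinearEquiv F V)).symm.toEquiv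
  rw [h1, Matrix.card_GL_field, hF', dvt_cast_prod _ _ le_rfl]
  rfl

lemma dvt_cardLI [Finite F] [FiniteDimensional F V] (hF : Nat.card F = 2) (m : ℕ) :
    (Nat.card {e : Fin (m + 1) → V // LinearIndependent F e} : ℝ) *
      (dvt_gl (finrank F V - (m + 1)) * 2 ^ ((finrank F V - (m + 1)) * (m + 1))) ≤
      dvt_gl (finrank F V) := by
  classical
  haveI : Finite V := Module.finite_of_finite F
  haveI : Fintype F := Fintype.ofFinite _
  have hF' : Fintype.card F = 2 := by rw [← Nat.card_eq_fintype_card, hF]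
  by_cases hm : m + 1 ≤ finrank F V
  · rw [card_linearIndependent hm, hF', dvt_cast_prod _ _ hm, dvt_gl_split _ _ hm]
  · haveI : IsEmpty {e : Fin (m + 1) → V // LinearIndependent F e} := by
      refine ⟨fun e => hm ?_⟩
      have := e.2.fintype_card_le_finrank
      rwa [Fintype.card_fin] at this
    rw [Nat.card_of_isEmpty, Nat.cast_zero, zero_mul]
    exact (dvt_gl_pos _).le

/-- `∏_{i ≤ l} 2^i / (2^i - 1)` -/
def dvt_s : ℕ → ℝ
  | 0 => 1
  | l + 1 => dvt_s l * (2 ^ (l + 1) / (2 ^ (l + 1) - 1))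

lemma dvt_pow_gt (l : ℕ) : (1 : ℝ) < 2 ^ (l + 1) := one_lt_pow₀ (by norm_num) (by omega)

lemma dvt_s_pos (l : ℕ) : 0 < dvt_s l := by
  induction l with
  | zero => exact one_pos
  | succ l ih =>
    have := dvt_pow_gt l
    exact mul_pos ih (div_pos (by positivity) (by linarith))

lemma dvt_s_sum (l : ℕ) : ∑ i ∈ Finset.range (l + 1), dvt_s i / 2 ^ i = dvt_s l := by
  induction l with
  | zero => simp [dvt_s]
  | succ l ih =>
    rw [Finset.sum_range_succ, ih]
    have h := dvt_pow_gt l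
    have h0 : (2 : ℝ) ^ (l + 1) - 1 ≠ 0 := by linarith
    have h1 : (2 : ℝ) ^ (l + 1) ≠ 0 := by positivity
    simp only [dvt_s]
    field_simp
    ring

lemma dvt_s_le (l : ℕ) : dvt_s (l + 1) ≤ 4 * (1 - 1 / 2 ^ (l + 1)) := by
  induction l with
  | zero => norm_num [dvt_s]
  | succ l ih =>
    have h := dvt_pow_gt (l + 1)
    have h' := dvt_pow_gt l
    have h0 : (0 : ℝ) < 2 ^ (l + 1 + 1) - 1 := by linarith
    have e : (2 : ℝ) ^ (l + 1 + 1) = 2 * 2 ^ (l + 1) := by rw [pow_succ]; ring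
    have h1 : dvt_s (l + 1 + 1) = dvt_s (l + 1) * (2 ^ (l + 1 + 1) / (2 ^ (l + 1 + 1) - 1)) := rfl
    rw [h1]
    refine (mul_le_mul_of_nonneg_right ih (by positivity)).trans ?_
    rw [e] at h0 ⊢
    set x : ℝ := 2 ^ (l + 1) with hx
    have hx0 : 0 < x := by linarith
    have hx2 : 2 ≤ x := by
      rw [hx, pow_succ]
      have : (1 : ℝ) ≤ 2 ^ l := one_le_pow₀ (by norm_num)
      linarith
    rw [mul_div_assoc', div_le_iff₀ h0]
    have e1 : 4 * (1 - 1 / x) * (2 * x) = 8 * x - 8 := by field_simp; ring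
    have e2 : 4 * (1 - 1 / (2 * x)) * (2 * x - 1) = 8 * x - 8 + 2 / x := by field_simp; ring
    rw [e1, e2]
    have : 0 ≤ 2 / x := by positivity
    linarith

lemma dvt_s_le4 (l : ℕ) : dvt_s l ≤ 4 := by
  cases l with
  | zero => norm_num [dvt_s]
  | succ l =>
    have := dvt_s_le l
    have h : (0 : ℝ) ≤ 1 / 2 ^ (l + 1) := by positivity
    linarith

end dvt_sec

theorem dvt_main (F : Type) [Field F] [Finite F] (hF : Nat.card F = 2) (l : ℕ) :
    ∀ (V : Type) [AddCommGroup V] [Module F V] [FiniteDimensional F V],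
      (Nat.card {y : V ≃ₗ[F] V // dvt_Z l y} : ℝ) * 2 ^ l ≤ dvt_s l * Nat.card (V ≃ₗ[F] V) := by
  induction l using Nat.strong_induction_on with
  | _ l ih =>
  intro V _ _ _
  rcases Nat.eq_zero_or_pos l with rfl | hl
  · have h1 : Nat.card {y : V ≃ₗ[F] V // dvt_Z 0 y} ≤ Nat.card (V ≃ₗ[F] V) :=
      Finite.card_subtype_le _
    have h2 : (Nat.card {y : V ≃ₗ[F] V // dvt_Z 0 y} : ℝ) ≤ Nat.card (V ≃ₗ[F] V) := by
      exact_mod_cast h1
    simpa [dvt_s] using h2
  · obtain ⟨r, rfl⟩ : ∃ r, l = r + 1 := ⟨l - 1, by omega⟩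
    set n := finrank F V with hn
    have hP : ∀ m : Fin (r + 1), (Nat.card (dvt_P F V (r + 1) m.1) : ℝ) ≤
        dvt_s (r - m.1) / 2 ^ (r - m.1) * dvt_gl n := by
      intro m
      have hm := m.2
      have h1 := dvt_Pbound (F := F) (V := V) (r + 1) m.1
        (dvt_s (r - m.1) / 2 ^ (r - m.1) *
          (dvt_gl (n - (m.1 + 1)) * 2 ^ ((n - (m.1 + 1)) * (m.1 + 1)))) ?_
      · refine h1.trans ?_
        have h2 := dvt_cardLI (F := F) (V := V) hF m.1
        have h3 : (0 : ℝ) ≤ dvt_s (r - m.1) / 2 ^ (r - m.1) :=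
          (div_pos (dvt_s_pos _) (by positivity)).le
        calc (Nat.card {e : Fin (m.1 + 1) → V // LinearIndependent F e} : ℝ) *
              (dvt_s (r - m.1) / 2 ^ (r - m.1) *
              (dvt_gl (n - (m.1 + 1)) * 2 ^ ((n - (m.1 + 1)) * (m.1 + 1))))
            = dvt_s (r - m.1) / 2 ^ (r - m.1) *
              ((Nat.card {e : Fin (m.1 + 1) → V // LinearIndependent F e} : ℝ) *
              (dvt_gl (n - (m.1 + 1)) * 2 ^ ((n - (m.1 + 1)) * (m.1 + 1)))) := by ring
          _ ≤ _ := mul_le_mul_of_nonneg_left h2 h3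
      · intro e he
        have h2 := dvt_Rbound (F := F) (V := V) (l := r + 1) he
        have h3 : r + 1 - (m.1 + 1) = r - m.1 := by omega
        rw [h3, hF] at h2
        have h4 := ih (r - m.1) (by omega) (V ⧸ Submodule.span F (Set.range e))
        rw [dvt_cardequiv hF] at h4
        have hUf : finrank F (Submodule.span F (Set.range e)) = m.1 + 1 := by
          rw [finrank_span_eq_card he, Fintype.card_fin]
        have hQf : finrank F (V ⧸ Submodule.span F (Set.range e)) = n - (m.1 + 1) := by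
          have := Submodule.finrank_quotient_add_finrank (Submodule.span F (Set.range e))
          omega
        rw [hQf] at h4
        have h5 : (Nat.card (dvt_R (F := F) (r + 1) m.1 e) : ℝ) ≤
            (Nat.card {z : (V ⧸ Submodule.span F (Set.range e)) ≃ₗ[F]
              (V ⧸ Submodule.span F (Set.range e)) // dvt_Z (r - m.1) z} : ℝ) *
              2 ^ ((n - (m.1 + 1)) * (m.1 + 1)) := by exact_mod_cast h2
        refine h5.trans ?_
        rw [← mul_assoc]
        refine mul_le_mul_of_nonneg_right ?_ (by positivity)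
        rw [div_mul_eq_mul_div, le_div_iff₀ (by positivity)]
        exact h4
    have h1 := dvt_count (F := F) (V := V) (r + 1)
    rw [hF] at h1
    have h2 : (Nat.card {y : V ≃ₗ[F] V // dvt_Z (r + 1) y} : ℝ) * (2 ^ (r + 1) - 1) ≤
        ∑ m : Fin (r + 1), (Nat.card (dvt_P F V (r + 1) m.1) : ℝ) := by
      have h3 : (1 : ℕ) ≤ 2 ^ (r + 1) := Nat.one_le_two_pow
      have h4 : ((Nat.card {y : V ≃ₗ[F] V // dvt_Z (r + 1) y} * (2 ^ (r + 1) - 1) : ℕ) : ℝ) ≤
          ((∑ m : Fin (r + 1), Nat.card (dvt_P F V (r + 1) m.1) : ℕ) : ℝ) := by exact_mod_cast h1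
      rw [Nat.cast_mul, Nat.cast_sub h3, Nat.cast_sum] at h4
      push_cast at h4
      exact h4
    have h5 : ∑ m : Fin (r + 1), (Nat.card (dvt_P F V (r + 1) m.1) : ℝ) ≤ dvt_s r * dvt_gl n := by
      refine (Finset.sum_le_sum fun m _ => hP m).trans (le_of_eq ?_)
      rw [← Finset.sum_mul, ← dvt_s_sum r]
      congr 1
      rw [← Finset.sum_range_reflect, Finset.sum_range]
      refine Finset.sum_congr rfl fun m _ => ?_
      have h6 : r + 1 - 1 - m.1 = r - m.1 := by omega
      rw [h6]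
    have h6 := dvt_pow_gt r
    have h7 : (0 : ℝ) < 2 ^ (r + 1) - 1 := by linarith
    have h8 := h2.trans h5
    rw [dvt_cardequiv hF, ← hn]
    have h9 : (Nat.card {y : V ≃ₗ[F] V // dvt_Z (r + 1) y} : ℝ) ≤
        dvt_s r * dvt_gl n / (2 ^ (r + 1) - 1) := (le_div_iff₀ h7).2 h8
    calc (Nat.card {y : V ≃ₗ[F] V // dvt_Z (r + 1) y} : ℝ) * 2 ^ (r + 1)
        ≤ dvt_s r * dvt_gl n / (2 ^ (r + 1) - 1) * 2 ^ (r + 1) :=
          mul_le_mul_of_nonneg_right h9 (by positivity)
      _ = dvt_s (r + 1) * dvt_gl n := by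
          simp only [dvt_s]
          ring

theorem dvt_GLSL (F : Type) [Field F] [Finite F] (hF : Nat.card F = 2) (n : ℕ) :
    Nat.card ((Fin n → F) ≃ₗ[F] (Fin n → F)) ≤ Nat.card (SL n F) := by
  classical
  have h2 : ∀ x : F, x ≠ 0 → x = 1 := by
    intro x hx
    haveI : Fintype F := Fintype.ofFinite _
    by_contra h1
    have h3 : ({0, 1, x} : Finset F).card ≤ Fintype.card F := Finset.card_le_univ _
    rw [← Nat.card_eq_fintype_card, hF, Finset.card_insert_of_notMem (by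
      simp only [Finset.mem_insert, Finset.mem_singleton, not_or]
      exact ⟨zero_ne_one, fun h => hx h.symm⟩), Finset.card_insert_of_notMem (by
      simp only [Finset.mem_singleton]
      exact fun h => h1 h.symm), Finset.card_singleton] at h3
    omega
  have h3 : ∀ y : (Fin n → F) ≃ₗ[F] (Fin n → F),
      (LinearMap.toMatrix' (y : (Fin n → F) →ₗ[F] (Fin n → F))).det = 1 := by
    intro y
    refine h2 _ ?_
    rw [LinearMap.det_toMatrix']
    exact (LinearEquiv.isUnit_det' y).ne_zero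
  haveI : Finite (SL n F) := by
    unfold SL
    infer_instance
  refine Nat.card_le_card_of_injective
    (fun y => (⟨LinearMap.toMatrix' (y : (Fin n → F) →ₗ[F] (Fin n → F)), h3 y⟩ : SL n F)) ?_
  intro y y' h
  have h4 := congrArg (fun z : SL n F => z.1) h
  have h5 : (y : (Fin n → F) →ₗ[F] (Fin n → F)) = y' := LinearMap.toMatrix'.injective h4
  exact LinearEquiv.toLinearMap_injective h5

theorem dvt_SLZ (F : Type) [Field F] [Finite F] (n l : ℕ) :
    Nat.card {y : SL n F // (X - 1) ^ l ∣ y.1.charpoly} ≤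
      Nat.card {y : (Fin n → F) ≃ₗ[F] (Fin n → F) // dvt_Z l y} := by
  have hZ : ∀ y : {y : SL n F // (X - 1) ^ l ∣ y.1.charpoly},
      dvt_Z l (Matrix.SpecialLinearGroup.toLin' y.1) := by
    rintro ⟨y, hy⟩
    refine ⟨finrank F (Fin n → F), ?_⟩
    set f : Module.End F (Fin n → F) := Matrix.toLin' y.1 with hf
    have h1 : f.charpoly = y.1.charpoly := Matrix.charpoly_toLin' _
    have h2 : l ≤ f.charpoly.rootMultiplicity 1 := by
      rw [le_rootMultiplicity_iff (LinearMap.charpoly_monic f).ne_zero, h1, C_1]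
      exact hy
    rw [← LinearMap.finrank_maxGenEigenspace_eq, Module.End.maxGenEigenspace_eq_genEigenspace_finrank,
      Module.End.genEigenspace_nat, one_smul] at h2
    exact h2
  refine Nat.card_le_card_of_injective
    (fun y => (⟨Matrix.SpecialLinearGroup.toLin' y.1, hZ y⟩ :
      {y : (Fin n → F) ≃ₗ[F] (Fin n → F) // dvt_Z l y})) ?_
  intro y y' h
  have h1 := congrArg (fun z : {y : (Fin n → F) ≃ₗ[F] (Fin n → F) // dvt_Z l y} =>
    (z.1 : (Fin n → F) →ₗ[F] (Fin n → F))) h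
  have h2 : Matrix.toLin' y.1.1 = Matrix.toLin' y'.1.1 := h1
  exact Subtype.ext (Subtype.ext (Matrix.toLin'.injective h2))

theorem t_DVT : M_DVT := by
  intro _ F _ _ hF n l
  have h1 := dvt_main F hF l (Fin n → F)
  have h2 := dvt_SLZ F n l
  have h3 := dvt_GLSL F hF n
  have h4 := dvt_s_le4 l
  have h5 : (Nat.card {y : SL n F // (X - 1) ^ l ∣ y.1.charpoly} : ℝ) * 2 ^ l ≤
      8 * Nat.card (SL n F) := by
    calc (Nat.card {y : SL n F // (X - 1) ^ l ∣ y.1.charpoly} : ℝ) * 2 ^ l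
        ≤ (Nat.card {y : (Fin n → F) ≃ₗ[F] (Fin n → F) // dvt_Z l y} : ℝ) * 2 ^ l :=
          mul_le_mul_of_nonneg_right (by exact_mod_cast h2) (by positivity)
      _ ≤ dvt_s l * Nat.card ((Fin n → F) ≃ₗ[F] (Fin n → F)) := h1
      _ ≤ 4 * Nat.card ((Fin n → F) ≃ₗ[F] (Fin n → F)) :=
          mul_le_mul_of_nonneg_right h4 (Nat.cast_nonneg _)
      _ ≤ 4 * Nat.card (SL n F) :=
          mul_le_mul_of_nonneg_left (by exact_mod_cast h3) (by norm_num)
      _ ≤ 8 * Nat.card (SL n F) :=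
          mul_le_mul_of_nonneg_right (by norm_num) (Nat.cast_nonneg _)
  exact_mod_cast h5

end

end SRJ
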