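import Mathlib
import Pool.Agent.SRJ.StB
import Pool.Agent.FLC.FRO

set_option autoImplicit false

/-!
# SRJ, DZ: the elements of type `TZ` are many
-/

namespace SRJ

open RSF FL0 Polynomial

noncomputable section

/-- `F[θ] = K` from the closure -/
theorem dz_adj {F K : Type} [Field F] [Field K] [Algebra F K] (θ : K)
    (h : Subring.closure {θ} = ⊤) : Algebra.adjoin F {θ} = ⊤ := by
  rw [eq_top_iff]
  intro x _
  have hx : x ∈ Subring.closure {θ} := by rw [h]; trivial
  have hle : Subring.closure {θ} ≤ (Algebra.adjoin F {θ}).toSubring := by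
    rw [Subring.closure_le]
    intro y hy
    exact Algebra.subset_adjoin hy
  exact hle hx

/-- every element is a polynomial in `θ` -/
theorem dz_pol {F K : Type} [Field F] [Field K] [Algebra F K] (θ : K)
    (h : Algebra.adjoin F {θ} = ⊤) (x : K) : ∃ f : F[X], aeval θ f = x := by
  have hx : x ∈ Algebra.adjoin F {θ} := by rw [h]; trivial
  rw [Algebra.adjoin_singleton_eq_range_aeval] at hx
  exact hx

/-- the characteristic polynomial of the multiplication by a generator -/
theorem dz_cp {F K : Type} [Field F] [Field K] [Algebra F K] [FiniteDimensional F K] (θ : K)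
    (h : Algebra.adjoin F {θ} = ⊤) : (LinearMap.mulLeft F θ).charpoly = minpoly F θ := by
  have hi : IsIntegral F θ := IsIntegral.of_finite F θ
  let pb : PowerBasis F K := PowerBasis.ofAdjoinEqTop hi h
  have hg : pb.gen = θ := PowerBasis.ofAdjoinEqTop_gen hi h
  have h1 := charpoly_leftMulMatrix pb
  rw [hg, Algebra.leftMulMatrix_apply, LinearMap.charpoly_toMatrix] at h1
  exact h1

/-- the degree of the minimal polynomial -/
theorem dz_deg {F K : Type} [Field F] [Field K] [Algebra F K] [FiniteDimensional F K] (θ : K)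
    (h : Algebra.adjoin F {θ} = ⊤) : (minpoly F θ).natDegree = Module.finrank F K := by
  rw [← dz_cp θ h, LinearMap.charpoly_natDegree]

/-- the endomorphism -/
def dz_T (F K : Type) [Field F] [Field K] [Algebra F K] (θ : K) : (F × K) →ₗ[F] (F × K) :=
  (LinearMap.mulLeft F (Algebra.norm F θ)⁻¹).prodMap (LinearMap.mulLeft F θ)

theorem dz_det {F K : Type} [Field F] [Field K] [Algebra F K] [FiniteDimensional F K] (θ : K)
    (h0 : θ ≠ 0) : LinearMap.det (dz_T F K θ) = 1 := by
  have hn : Algebra.norm F θ ≠ 0 := Algebra.norm_ne_zero_iff.2 h0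
  rw [dz_T, LinearMap.det_prodMap, LinearMap.det_mulLeft]
  have : LinearMap.det (LinearMap.mulLeft F θ) = Algebra.norm F θ := rfl
  rw [this, inv_mul_cancel₀ hn]

theorem dz_char {F K : Type} [Field F] [Field K] [Algebra F K] [FiniteDimensional F K] (θ : K)
    (h : Algebra.adjoin F {θ} = ⊤) :
    (dz_T F K θ).charpoly = (X - C (Algebra.norm F θ)⁻¹) * minpoly F θ := by
  rw [dz_T, LinearMap.charpoly_prodMap, dz_cp θ h]
  congr 1
  have h1 : Algebra.adjoin F {(Algebra.norm F θ)⁻¹} = ⊤ := by
    rw [eq_top_iff]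
    intro x _
    exact (Algebra.adjoin F {(Algebra.norm F θ)⁻¹}).algebraMap_mem x
  rw [dz_cp _ h1]
  have := minpoly.eq_X_sub_C (B := F) (Algebra.norm F θ)⁻¹
  simpa using this

/-- powers -/
theorem dz_pow {F K : Type} [Field F] [Field K] [Algebra F K] (θ : K) (k : ℕ) (x : F × K) :
    (dz_T F K θ ^ k) x = (((Algebra.norm F θ)⁻¹) ^ k * x.1, θ ^ k * x.2) := by
  induction k generalizing x with
  | zero => simp
  | succ k ih =>
    rw [pow_succ, Module.End.mul_apply, ih]
    simp only [dz_T, LinearMap.prodMap_apply, LinearMap.mulLeft_apply]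
    ext
    · simp only [pow_succ]; ring
    · simp only [pow_succ]; ring

theorem dz_aev {F K : Type} [Field F] [Field K] [Algebra F K] (θ : K) (f : F[X]) :
    aeval (dz_T F K θ) f (1, 1) = (f.eval (Algebra.norm F θ)⁻¹, aeval θ f) := by
  induction f using Polynomial.induction_on' with
  | add p q hp hq => simp only [map_add, LinearMap.add_apply, hp, hq, eval_add, Prod.mk_add_mk]
  | monomial k a =>
    rw [aeval_monomial, Module.End.mul_apply, dz_pow, Module.algebraMap_end_apply]
    ext
    · simp [eval_monomial]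
    · simp [aeval_monomial, Algebra.smul_def]

/-- the cyclic vector -/
theorem dz_cyc {F K : Type} [Field F] [Field K] [Algebra F K] [FiniteDimensional F K] (θ : K)
    (h : Algebra.adjoin F {θ} = ⊤) (h2 : 2 ≤ Module.finrank F K) (w : F × K) :
    ∃ f : F[X], w = aeval (dz_T F K θ) f (1, 1) := by
  have hi : IsIntegral F θ := IsIntegral.of_finite F θ
  obtain ⟨g, hg⟩ := dz_pol θ h w.2
  set c := (Algebra.norm F θ)⁻¹ with hc
  have hp : (minpoly F θ).eval c ≠ 0 := by
    intro h0
    have hirr := minpoly.irreducible hi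
    have h1 := Polynomial.degree_eq_one_of_irreducible_of_root hirr h0
    have h3 := dz_deg θ h
    have h4 : (minpoly F θ).natDegree = 1 :=
      Polynomial.natDegree_eq_of_degree_eq_some (by simpa using h1)
    omega
  refine ⟨g + C ((w.1 - g.eval c) / (minpoly F θ).eval c) * minpoly F θ, ?_⟩
  rw [dz_aev]
  ext
  · simp only [eval_add, eval_mul, eval_C, ← hc]
    field_simp
    ring
  · simp [hg]

/-- the number of the indices with a given characteristic polynomial -/
theorem dz_cnt {F K : Type} [Field F] [Field K] [Algebra F K] [FiniteDimensional F K] [Finite K]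
    (N : ℕ) (hN : ∀ θ : K, orderOf θ = N → Algebra.adjoin F {θ} = ⊤)
    (h2 : 2 ≤ Module.finrank F K) (i : {θ : K // orderOf θ = N}) :
    Nat.card {j : {θ : K // orderOf θ = N} //
      (dz_T F K j.1).charpoly = (dz_T F K i.1).charpoly} ≤ Module.finrank F K := by
  classical
  have hint : ∀ θ : K, IsIntegral F θ := fun θ => IsIntegral.of_finite F θ
  have key : ∀ j : {θ : K // orderOf θ = N},
      (dz_T F K j.1).charpoly = (dz_T F K i.1).charpoly → j.1 ∈ (minpoly F i.1).rootSet K := by
    intro j hj
    rw [dz_char j.1 (hN _ j.2), dz_char i.1 (hN _ i.2)] at hj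
    have hdj := dz_deg j.1 (hN _ j.2)
    have hpj : Prime (minpoly F j.1) := (minpoly.irreducible (hint j.1)).prime
    have hdv : minpoly F j.1 ∣ (X - C (Algebra.norm F i.1)⁻¹) * minpoly F i.1 := by
      rw [← hj]; exact dvd_mul_left _ _
    rcases hpj.dvd_or_dvd hdv with h | h
    · have := Polynomial.natDegree_le_of_dvd h (X_sub_C_ne_zero _)
      rw [natDegree_X_sub_C, hdj] at this
      omega
    · rw [mem_rootSet]
      refine ⟨minpoly.ne_zero (hint _), ?_⟩
      obtain ⟨r, hr⟩ := h
      rw [hr, map_mul, minpoly.aeval, zero_mul]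
  have hle : Nat.card {j : {θ : K // orderOf θ = N} //
      (dz_T F K j.1).charpoly = (dz_T F K i.1).charpoly} ≤
        Nat.card ((minpoly F i.1).rootSet K) := by
    refine Nat.card_le_card_of_injective
      (fun j => (⟨j.1.1, key j.1 j.2⟩ : (minpoly F i.1).rootSet K)) ?_
    intro a b hab
    have := congrArg Subtype.val hab
    exact Subtype.ext (Subtype.ext this)
  refine hle.trans ?_
  have h3 : Nat.card ((minpoly F i.1).rootSet K) ≤ (minpoly F i.1).natDegree := by
    rw [Nat.card_coe_set_eq, rootSet_def, Set.ncard_coe_finset]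
    refine (Multiset.toFinset_card_le _).trans ?_
    refine (Polynomial.card_roots' _).trans ?_
    exact natDegree_map_le
  rw [dz_deg i.1 (hN _ i.2)] at h3
  exact h3

/-- the number of the elements of a given order -/
theorem dz_ord {K : Type} [Field K] [Finite K] (N : ℕ) (hN : N ∣ Nat.card K - 1) :
    Nat.totient N ≤ Nat.card {θ : K // orderOf θ = N} := by
  classical
  have : Fintype K := Fintype.ofFinite K
  have h1 : N ∣ Fintype.card Kˣ := by
    rw [Fintype.card_units, ← Nat.card_eq_fintype_card]
    exact hN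
  have h2 := IsCyclic.card_orderOf_eq_totient (α := Kˣ) h1
  rw [← h2]
  have h3 : (Finset.univ.filter fun a : Kˣ => orderOf a = N).card =
      Nat.card {a : Kˣ // orderOf a = N} := by
    rw [Nat.card_eq_fintype_card, Fintype.card_subtype]
  rw [h3]
  refine Nat.card_le_card_of_injective
    (fun a => (⟨(a.1 : K), by rw [orderOf_units]; exact a.2⟩ : {θ : K // orderOf θ = N})) ?_
  intro a b hab
  have := congrArg Subtype.val hab
  exact Subtype.ext (Units.ext this)

/-- the matrices are of type `TZ` -/
theorem dz_TZ {n : ℕ} {F K : Type} [Field F] [Finite F] [Field K] [Algebra F K]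
    [FiniteDimensional F K] (θ : K) (h : Algebra.adjoin F {θ} = ⊤)
    (hn : Module.finrank F K + 1 = n) (ho : orderOf θ = Nat.card F ^ (n - 1) - 1)
    (y : SL n F) (e : (F × K) ≃ₗ[F] (Fin n → F))
    (he : ∀ x, y.1.mulVec (e x) = e (dz_T F K θ x)) : TZ y := by
  have hi : IsIntegral F θ := IsIntegral.of_finite F θ
  refine ⟨(Algebra.norm F θ)⁻¹, minpoly F θ, minpoly.monic hi, minpoly.irreducible hi, ?_, ?_, ?_⟩
  · rw [dz_deg θ h]; exact hn
  · have h1 : Matrix.toLin' y.1 = e.conj (dz_T F K θ) := by
      apply LinearMap.ext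
      intro v
      rw [Matrix.toLin'_apply, LinearEquiv.conj_apply_apply, ← he, LinearEquiv.apply_symm_apply]
    have h2 : y.1.charpoly = (Matrix.toLin' y.1).charpoly := by
      rw [← LinearMap.charpoly_toMatrix (Matrix.toLin' y.1) (Pi.basisFun F (Fin n)),
        LinearMap.toMatrix_eq_toMatrix', LinearMap.toMatrix'_toLin']
    rw [h2, h1, LinearEquiv.charpoly_conj, dz_char θ h]
  · rw [← ho, orderOf_eq_orderOf_iff]
    intro k
    have hk : ∀ x, (y.1 ^ k).mulVec (e x) = e ((dz_T F K θ ^ k) x) := by
      intro x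
      induction k generalizing x with
      | zero => simp
      | succ k ih =>
        rw [pow_succ, ← Matrix.mulVec_mulVec, he, ih, pow_succ, Module.End.mul_apply]
    constructor
    · intro hy
      have h1 := hk (0, 1)
      have h2 : y.1 ^ k = 1 := by
        have := congrArg Subtype.val hy
        simpa using this
      rw [h2, Matrix.one_mulVec, dz_pow] at h1
      have h3 := congrArg Prod.snd (e.injective h1)
      simpa using h3.symm
    · intro ht
      apply Subtype.ext
      have h2 : y.1 ^ k = 1 := by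
        have h3 : Matrix.toLin' (y.1 ^ k) = Matrix.toLin' (1 : Matrix (Fin n) (Fin n) F) := by
          apply LinearMap.ext
          intro v
          have h4 := hk (e.symm v)
          rw [LinearEquiv.apply_symm_apply, dz_pow, ht, inv_pow, ← map_pow, ht, map_one, inv_one,
            one_mul, one_mul, Prod.mk.eta, LinearEquiv.apply_symm_apply] at h4
          rw [Matrix.toLin'_apply, Matrix.toLin'_apply, h4, Matrix.one_mulVec]
        exact Matrix.toLin'.injective h3
      simpa using h2

/-- **DZ** -/
theorem t_DZ : M_DZ := by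
  intro hphi hfxt hgne hdsg n F _ _ hn
  obtain ⟨K, _, _, _, hfr⟩ := hfxt F (n - 1) (by omega)
  have : FiniteDimensional F K := Module.Finite.of_finite
  set q := Nat.card F with hq
  have hq2 : 2 ≤ q := Finite.one_lt_card
  have hcK : Nat.card K = q ^ (n - 1) := by
    rw [Module.natCard_eq_pow_finrank (K := F) (V := K), hfr]
  have hA4 : 4 ≤ q ^ (n - 1) := by
    calc 4 = 2 ^ 2 := by norm_num
      _ ≤ q ^ 2 := Nat.pow_le_pow_left hq2 2
      _ ≤ q ^ (n - 1) := Nat.pow_le_pow_right (by omega) (by omega)
  set N := q ^ (n - 1) - 1 with hN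
  have hadj : ∀ θ : K, orderOf θ = N → Algebra.adjoin F {θ} = ⊤ := by
    intro θ hθ
    apply dz_adj
    apply hgne
    rw [hθ, hcK, hN, Nat.sub_add_cancel (by omega)]
    nlinarith
  have hne : ∀ θ : K, orderOf θ = N → θ ≠ 0 := by
    intro θ hθ h0
    rw [h0, orderOf_zero] at hθ
    omega
  have h1 := hdsg F (F × K) n (by rw [Module.finrank_prod, Module.finrank_self, hfr]; omega)
    {θ : K // orderOf θ = N} (fun i => dz_T F K i.1)
    (fun i => dz_det i.1 (hne _ i.2))
    (fun i => ⟨(1, 1), fun w => dz_cyc i.1 (hadj _ i.2) (by rw [hfr]; omega) w⟩)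
    (fun i => (dz_cnt N hadj (by rw [hfr]; omega) i).trans (by rw [hfr]; omega))
  have h2 : Nat.card {y : SL n F // ∃ i : {θ : K // orderOf θ = N},
      ∃ e : (F × K) ≃ₗ[F] (Fin n → F), ∀ x, y.1.mulVec (e x) = e (dz_T F K i.1 x)} ≤
        Nat.card {y : SL n F // TZ y} := by
    refine Nat.card_le_card_of_injective (fun y => (⟨y.1, ?_⟩ : {y : SL n F // TZ y})) ?_
    · obtain ⟨i, e, he⟩ := y.2
      exact dz_TZ i.1 (hadj _ i.2) (by rw [hfr]; omega) (by rw [i.2]) y.1 e he
    · intro a b hab
      have := congrArg Subtype.val hab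
      exact Subtype.ext this
  have h3 : Nat.totient N ≤ Nat.card {θ : K // orderOf θ = N} :=
    dz_ord N (by rw [hcK])
  have h4 := hphi N (by omega)
  have h5 : Nat.log 2 N + 1 ≤ lg q n := by
    unfold lg
    have : N ≤ q ^ n := by
      have : q ^ (n - 1) ≤ q ^ n := Nat.pow_le_pow_right (by omega) (by omega)
      omega
    have := Nat.log_mono_right (b := 2) this
    omega
  have h6 := FLC.fro_card (F := F) n (by omega)
  set S := Nat.card (SL n F) with hS
  set Z := Nat.card {y : SL n F // TZ y} with hZ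
  set L := lg q n with hL
  have h7 : q ^ n ≤ 4 * N * (q - 1) := by
    have e1 : q ^ n = q ^ (n - 1) * q := by
      rw [← pow_succ]; congr 1; omega
    rw [e1]
    obtain ⟨a, ha⟩ : ∃ a, q = a + 1 := ⟨q - 1, by omega⟩
    have hb : q ^ (n - 1) = N + 1 := by omega
    rw [hb, ha, Nat.add_sub_cancel]
    have h3N : 3 ≤ N := by omega
    have h1a : 1 ≤ a := by omega
    nlinarith [Nat.mul_le_mul h3N h1a, Nat.mul_le_mul (Nat.le_refl N) h1a,
      Nat.mul_le_mul h3N (Nat.le_refl a)]
  have h8 : q ^ n * S ≤ q ^ n * (4 * n * L * Z) := by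
    calc q ^ n * S ≤ 4 * N * (q - 1) * S := Nat.mul_le_mul_right _ h7
      _ ≤ 4 * (Nat.totient N * L) * (q - 1) * S := by
        apply Nat.mul_le_mul_right
        apply Nat.mul_le_mul_right
        apply Nat.mul_le_mul_left
        exact h4.trans (Nat.mul_le_mul_left _ h5)
      _ = 4 * L * (Nat.totient N * ((q - 1) * S)) := by ring
      _ = 4 * L * (Nat.totient N * Nat.card (GL (Fin n) F)) := by rw [h6]
      _ ≤ 4 * L * (Nat.card {θ : K // orderOf θ = N} * Nat.card (GL (Fin n) F)) := by
        apply Nat.mul_le_mul_left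
        exact Nat.mul_le_mul_right _ h3
      _ ≤ 4 * L * (n * q ^ n * Z) := by
        apply Nat.mul_le_mul_left
        exact h1.trans (Nat.mul_le_mul_left _ h2)
      _ = q ^ n * (4 * n * L * Z) := by ring
  exact Nat.le_of_mul_le_mul_left h8 (by positivity)

end

end SRJ
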