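import Mathlib
import Pool.Agent.SRJ.StA
import Pool.Agent.FLC.FL

/-!
# SRJ, module FLB: the average over the corner group for a monotone function with at most `m` values
-/

set_option autoImplicit false

namespace SRJ

open Pool.Agent.Lib_helper13 RSF FLC

/-- `av ψ d ∅` does not depend on `ψ` -/
theorem flb_av {n : ℕ} {F : Type} [Field F] [Fintype F] [DecidableEq F] (ψ ψ' : AddChar F ℂ)
    (d : ℕ → ℕ) (Y : Matrix (Fin n) (Fin n) F → ℂ) : FLC.av ψ d ∅ Y = FLC.av ψ' d ∅ Y := by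
  simp [FLC.av, FLC.sd]

theorem t_FLB : M_FLB := by
  classical
  intro hDIM hINJ hLOW hXMC hSTR hFLN ε hε
  obtain ⟨r₀, hr₀⟩ := hFLN ε hε
  refine ⟨max r₀ 1, ?_⟩
  intro n hn F _ _ _ X hX hX1 ψ₀ m d hm hmono himage
  have hn1 : 1 ≤ n := (le_max_right _ _).trans hn
  obtain ⟨ψ, jj, hψ, hstr⟩ := hSTR n F
  obtain ⟨s1, -, s3, s4, s5⟩ := hstr X hX
  set j := jj X with hj
  have hXc : IsChr X := hX.isChr
  obtain ⟨hCls, hPinv, hone, hval, hnat⟩ := hXMC n F X hXc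
  have hj1 : 1 ≤ j := by
    by_contra h
    obtain ⟨l, hl⟩ := s5 (by omega)
    apply hX1
    rw [hl]
    simp [ld]
  set q := Nat.card F with hqdef
  have hq2 : 2 ≤ q := by
    rw [hqdef, Nat.card_eq_fintype_card]
    exact Fintype.one_lt_card
  have hq1 : (1 : ℝ) ≤ (q : ℝ) := by exact_mod_cast (by omega : 1 ≤ q)
  have hq0 : (0 : ℝ) < (q : ℝ) := lt_of_lt_of_le one_pos hq1
  have hdim := hDIM F ψ hψ d hmono n ∅ (fun i hi => absurd hi (Finset.notMem_empty i)) (xm X) hPinv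
  -- the multiplicities are natural numbers
  have hk : ∀ S : Finset ℕ, ∃ k : ℕ, mS ψ S (xm X) = k := fun S => hnat ψ (fun i => i) S
    monotone_id
  choose k hk using hk
  have hre : ∀ S, (mS ψ S (xm X)).re = k S := fun S => by rw [hk, Complex.natCast_re]
  set T := ((Finset.range n).filter fun i => 0 < w d i) with hT
  have hTI : T ⊆ Finset.Ioo 0 n := by
    intro i hi
    rw [hT, Finset.mem_filter, Finset.mem_range] at hi
    rw [Finset.mem_Ioo]
    refine ⟨?_, hi.1⟩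
    rcases Nat.eq_zero_or_pos i with h0 | h0
    · exfalso
      rw [h0] at hi
      have h1 : w d 0 = 0 := by
        unfold w
        simp
      omega
    · exact h0
  -- the largest multiplicity
  obtain ⟨S₀, hS₀, hmax⟩ := Finset.exists_max_image (Finset.Ioo 0 n).powerset k
    ⟨∅, Finset.empty_mem_powerset _⟩
  rw [Finset.mem_powerset] at hS₀
  set B : ℝ := (k S₀ : ℝ) with hB
  have hB0 : 0 ≤ B := Nat.cast_nonneg _
  have hB4 := s4 S₀ hS₀
  rw [hre] at hB4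
  obtain ⟨hD1, hfin⟩ := hr₀ n ((le_max_left _ _).trans hn) q j (X 1).re B hq2 hj1 hB0 s1 hB4.1 hB4.2
  set D := (X 1).re with hD
  have hD0 : 0 < D := lt_of_lt_of_le one_pos hD1
  -- the real form of the expansion
  have hav : (av ψ d ∅ (xm X)).re = ∑ S ∈ T.powerset, (∏ i ∈ S, ((q : ℝ) ^ w d i - 1)) * k S := by
    rw [hdim, Complex.re_sum]
    refine Finset.sum_congr rfl fun S _ => ?_
    rw [Finset.empty_union, hk]
    have h1 : (∏ i ∈ S, ((q : ℂ) ^ w d i - 1)) * ((k S : ℕ) : ℂ) =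
        (((∏ i ∈ S, ((q : ℝ) ^ w d i - 1)) * k S : ℝ) : ℂ) := by
      push_cast
      rfl
    rw [h1, Complex.ofReal_re]
  set P := T.powerset.filter fun S => k S ≠ 0 with hP
  set E : ℝ := (q : ℝ) ^ (((FLC.bb d n : ℝ) - (n : ℝ) ^ 2 / m) / 2) *
    (4 * B * D ^ (1 / (m : ℝ))) with hE
  have hE0 : 0 ≤ E := by
    have h1 : 0 ≤ D ^ (1 / (m : ℝ)) := Real.rpow_nonneg hD0.le _
    have h2 : 0 ≤ (q : ℝ) ^ (((FLC.bb d n : ℝ) - (n : ℝ) ^ 2 / m) / 2) :=
      Real.rpow_nonneg hq0.le _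
    rw [hE]
    positivity
  have hterm : ∀ S ∈ P, (∏ i ∈ S, ((q : ℝ) ^ w d i - 1)) * k S ≤ E := by
    intro S hS
    rw [hP, Finset.mem_filter, Finset.mem_powerset] at hS
    have hSI : S ⊆ Finset.Ioo 0 n := hS.1.trans hTI
    have hk1 : (1 : ℝ) ≤ (k S : ℝ) := by exact_mod_cast Nat.one_le_iff_ne_zero.2 hS.2
    have hkB : (k S : ℝ) ≤ B := by
      rw [hB]
      exact_mod_cast hmax S (Finset.mem_powerset.2 hSI)
    have hprod : (∏ i ∈ S, ((q : ℝ) ^ w d i - 1)) ≤ (q : ℝ) ^ (∑ i ∈ S, w d i) := by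
      rw [← Finset.prod_pow_eq_pow_sum]
      refine Finset.prod_le_prod (fun i _ => ?_) fun i _ => ?_
      · have := one_le_pow₀ hq1 (n := w d i)
        linarith
      · linarith
    have hinj := hINJ.1 n m d S hmono himage hS.1
    have hlow := hLOW n F ψ hψ X hXc S hSI
    rw [hre] at hlow
    have h2 := fl_term (q := q) (n := n) (by omega) hm hk1 hkB hD0.le hinj hlow
    rw [hE]
    exact (mul_le_mul_of_nonneg_right hprod (zero_le_one.trans hk1)).trans h2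
  have hcard : (P.card : ℝ) ≤ (n : ℝ) ^ j := by
    have h1 : P.card ≤ n ^ j := by
      refine fl_card hn1 j P fun S hS => ?_
      rw [hP, Finset.mem_filter, Finset.mem_powerset] at hS
      refine ⟨hS.1.trans hTI, s3 S (hS.1.trans hTI) ?_⟩
      rw [hk]
      exact_mod_cast hS.2
    exact_mod_cast h1
  have hsum : ∑ S ∈ T.powerset, (∏ i ∈ S, ((q : ℝ) ^ w d i - 1)) * (k S : ℝ) ≤ (n : ℝ) ^ j * E := by
    have h1 : ∑ S ∈ T.powerset, (∏ i ∈ S, ((q : ℝ) ^ w d i - 1)) * (k S : ℝ) =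
        ∑ S ∈ P, (∏ i ∈ S, ((q : ℝ) ^ w d i - 1)) * (k S : ℝ) := by
      refine (Finset.sum_subset (Finset.filter_subset _ _) fun S hS hS' => ?_).symm
      have h2 : k S = 0 := by
        by_contra h
        exact hS' (Finset.mem_filter.2 ⟨hS, h⟩)
      rw [h2, Nat.cast_zero, mul_zero]
    rw [h1]
    refine (Finset.sum_le_card_nsmul _ _ E hterm).trans ?_
    rw [nsmul_eq_mul]
    exact mul_le_mul_of_nonneg_right hcard hE0
  rw [flb_av ψ₀ ψ]
  refine (hav.le.trans hsum).trans ?_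
  have h7 : 0 ≤ (q : ℝ) ^ (((FLC.bb d n : ℝ) - (n : ℝ) ^ 2 / m) / 2) := Real.rpow_nonneg hq0.le _
  have h8 : 0 ≤ D ^ (1 / (m : ℝ)) := Real.rpow_nonneg hD0.le _
  have h9 : D ^ (1 / (m : ℝ) + ε) = D ^ (1 / (m : ℝ)) * D ^ ε := Real.rpow_add hD0 _ _
  rw [h9, hE]
  calc (n : ℝ) ^ j * ((q : ℝ) ^ (((FLC.bb d n : ℝ) - (n : ℝ) ^ 2 / m) / 2) *
        (4 * B * D ^ (1 / (m : ℝ)))) =
        (q : ℝ) ^ (((FLC.bb d n : ℝ) - (n : ℝ) ^ 2 / m) / 2) *
          (D ^ (1 / (m : ℝ)) * ((n : ℝ) ^ j * 4 * B)) := by ring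
    _ ≤ _ := mul_le_mul_of_nonneg_left (mul_le_mul_of_nonneg_left hfin h8) h7

end SRJ
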