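import Mathlib
import Pool.Agent.SRJ.StB

/-!
# Module `FLG`: the number of the elements of `GL_e(q)` with a given characteristic polynomial

Induction on the number of the irreducible factors, counting pairs `(y, v)` with `0 ≠ v ∈ ker p(y)`.
-/

set_option autoImplicit false

namespace SRJ

open Polynomial

noncomputable section

/-- an irreducible factor of the characteristic polynomial has a nonzero kernel -/
theorem flg_ker {F : Type} [Field F] {n : Type} [Fintype n] [DecidableEq n] (y : Matrix n n F)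
    (p : F[X]) (hp : Irreducible p) (hd : p ∣ y.charpoly) :
    ∃ v : n → F, v ≠ 0 ∧ (aeval y p).mulVec v = 0 := by
  rw [Matrix.exists_mulVec_eq_zero_iff]
  obtain ⟨α, hα⟩ := IsAlgClosed.exists_aeval_eq_zero (AlgebraicClosure F) p
    (Polynomial.degree_pos_of_irreducible hp).ne'
  set φ : Matrix n n F →ₐ[F] Matrix n n (AlgebraicClosure F) :=
    (Algebra.ofId F (AlgebraicClosure F)).mapMatrix with hφ
  have e0 : φ y = y.map (algebraMap F (AlgebraicClosure F)) := rfl
  have h1 : IsRoot (φ y).charpoly α := by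
    rw [e0, Matrix.charpoly_map, IsRoot.def, eval_map_algebraMap]
    obtain ⟨g, hg⟩ := hd
    rw [hg, map_mul, hα, zero_mul]
  have h2 := Matrix.mem_spectrum_of_isRoot_charpoly h1
  have h3 := spectrum.subset_polynomial_aeval (φ y) (p.map (algebraMap F (AlgebraicClosure F)))
    ⟨α, h2, rfl⟩
  have h4 : (fun x => eval x (p.map (algebraMap F (AlgebraicClosure F)))) α = 0 := by
    simpa [eval_map_algebraMap] using hα
  rw [h4, aeval_map_algebraMap, Polynomial.aeval_algHom_apply, spectrum.zero_mem_iff,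
    Matrix.isUnit_iff_isUnit_det, isUnit_iff_ne_zero, not_not] at h3
  have h5 : (φ (aeval y p)).det = algebraMap F (AlgebraicClosure F) (aeval y p).det := by
    rw [RingHom.map_det]
    rfl
  rw [h5] at h3
  exact (map_eq_zero _).1 h3

/-- the annihilator of a vector in the kernel -/
theorem flg_ann {F : Type} [Field F] {n : Type} [Fintype n] [DecidableEq n] (y : Matrix n n F)
    (p : F[X]) (hp : Irreducible p) (v : n → F) (hv : v ≠ 0) (h : (aeval y p).mulVec v = 0)
    (r : F[X]) (hr : (aeval y r).mulVec v = 0) : p ∣ r := by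
  by_contra hnd
  have hc : IsCoprime p r := (hp.coprime_iff_not_dvd).2 hnd
  obtain ⟨a, b, hab⟩ := hc
  apply hv
  have h1 := congrArg (fun s => (aeval y s).mulVec v) hab
  simp only [map_add, map_mul, Matrix.add_mulVec, ← Matrix.mulVec_mulVec, h, hr, map_one,
    Matrix.mulVec_zero, Matrix.one_mulVec, add_zero] at h1
  exact h1.symm

theorem flg_sum {F : Type} [Field F] {n : Type} [Fintype n] [DecidableEq n] (y : Matrix n n F)
    (v : n → F) (d : ℕ) (c : Fin d → F) :
    (aeval y (∑ i : Fin d, C (c i) * X ^ (i : ℕ))).mulVec v =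
      ∑ i : Fin d, c i • (y ^ (i : ℕ)).mulVec v := by
  rw [map_sum, Matrix.sum_mulVec]
  refine Finset.sum_congr rfl fun i _ => ?_
  rw [map_mul, map_pow, aeval_X, aeval_C, Algebra.algebraMap_eq_smul_one, smul_one_mul,
    Matrix.smul_mulVec]

/-- the vectors `y ^ i v`, `i < d`, are linearly independent -/
theorem flg_li {F : Type} [Field F] {n : Type} [Fintype n] [DecidableEq n] (y : Matrix n n F)
    (p : F[X]) (hp : Irreducible p) (d : ℕ) (hd : p.natDegree = d) (v : n → F) (hv : v ≠ 0)
    (h : (aeval y p).mulVec v = 0) :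
    LinearIndependent F (fun i : Fin d => (y ^ (i : ℕ)).mulVec v) := by
  rw [Fintype.linearIndependent_iff]
  intro c hc
  rw [← flg_sum] at hc
  have h1 := flg_ann y p hp v hv h _ hc
  have h2 : (∑ i : Fin d, C (c i) * X ^ (i : ℕ)) = 0 := by
    refine eq_zero_of_dvd_of_degree_lt h1 ?_
    refine (degree_sum_fin_lt c).trans_le ?_
    rw [degree_eq_natDegree hp.ne_zero, hd]
  intro i
  have h3 := congrArg (fun f => f.coeff (i : ℕ)) h2
  simp only [finsetSum_coeff, coeff_C_mul, coeff_X_pow, coeff_zero, mul_ite, mul_one,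
    mul_zero] at h3
  rw [Finset.sum_eq_single i] at h3
  · simpa using h3
  · intro j _ hj
    rw [if_neg]
    exact fun h => hj (Fin.ext h.symm)
  · intro h
    exact absurd (Finset.mem_univ i) h

/-- the linearly independent vectors extend to an invertible matrix -/
theorem flg_sec {F : Type} [Field F] (d e : ℕ) (w : Fin d → (Fin d ⊕ Fin e → F))
    (hw : LinearIndependent F w) :
    ∃ g : GL (Fin d ⊕ Fin e) F, ∀ a i, (g : Matrix (Fin d ⊕ Fin e) (Fin d ⊕ Fin e) F) a
      (Sum.inl i) = w i a := by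
  obtain ⟨W', hW'⟩ := (Submodule.span F (Set.range w)).exists_isCompl
  have h1 : Module.finrank F W' = e := by
    have h2 := Submodule.finrank_add_eq_of_isCompl hW'
    rw [finrank_span_eq_card hw] at h2
    simp at h2
    exact h2
  let b := Module.finBasisOfFinrankEq F W' h1
  have hb : LinearIndependent F (fun j => ((b j : W') : Fin d ⊕ Fin e → F)) :=
    b.linearIndependent.map' W'.subtype (Submodule.ker_subtype W')
  have h3 : Submodule.span F (Set.range (fun j => ((b j : W') : Fin d ⊕ Fin e → F))) ≤ W' := by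
    rw [Submodule.span_le]
    rintro _ ⟨j, rfl⟩
    exact (b j).2
  have h4 := LinearIndependent.sum_type hw hb (hW'.disjoint.mono_right h3)
  have h5 : IsUnit (Matrix.of (fun a s => Sum.elim w
      (fun j => ((b j : W') : Fin d ⊕ Fin e → F)) s a)) := by
    rw [← Matrix.linearIndependent_cols_iff_isUnit]
    exact h4
  refine ⟨h5.unit, fun a i => ?_⟩
  rw [IsUnit.unit_spec]
  rfl

/-- intertwining -/
theorem flg_int {F : Type} [Field F] {n m : Type} [Fintype n] [DecidableEq n] [Fintype m]
    [DecidableEq m] (y : Matrix n n F) (c : Matrix m m F) (G : Matrix n m F) (h : y * G = G * c)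
    (f : F[X]) : aeval y f * G = G * aeval c f := by
  induction f using Polynomial.induction_on with
  | C a =>
    rw [aeval_C, aeval_C, Algebra.algebraMap_eq_smul_one, Algebra.algebraMap_eq_smul_one,
      Matrix.smul_mul, Matrix.mul_smul, Matrix.one_mul, Matrix.mul_one]
  | add p q hp hq =>
    rw [map_add, map_add, Matrix.add_mul, Matrix.mul_add, hp, hq]
  | monomial k a ih =>
    have e1 : aeval y (C a * X ^ (k + 1)) = aeval y (C a * X ^ k) * y := by
      rw [pow_succ, ← mul_assoc, map_mul, aeval_X]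
    have e2 : aeval c (C a * X ^ (k + 1)) = aeval c (C a * X ^ k) * c := by
      rw [pow_succ, ← mul_assoc, map_mul, aeval_X]
    rw [e1, e2, Matrix.mul_assoc, h, ← Matrix.mul_assoc, ih, Matrix.mul_assoc]

/-- the companion matrix -/
def flg_C {F : Type} [Field F] (p : F[X]) (d : ℕ) : Matrix (Fin d) (Fin d) F :=
  Matrix.of fun i j => if (j : ℕ) + 1 < d then (if (i : ℕ) = j + 1 then 1 else 0)
    else - p.coeff i

/-- the matrix with the columns `y ^ i v` -/
def flg_G {F : Type} [Field F] {n : Type} [Fintype n] [DecidableEq n] (y : Matrix n n F)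
    (v : n → F) (d : ℕ) : Matrix n (Fin d) F :=
  Matrix.of fun a i => (y ^ (i : ℕ)).mulVec v a

theorem flg_GC {F : Type} [Field F] {n : Type} [Fintype n] [DecidableEq n] (y : Matrix n n F)
    (p : F[X]) (hm : p.Monic) (d : ℕ) (hd : p.natDegree = d) (v : n → F)
    (h : (aeval y p).mulVec v = 0) : y * flg_G y v d = flg_G y v d * flg_C p d := by
  ext a j
  have h1 : (y * flg_G y v d) a j = (y ^ ((j : ℕ) + 1)).mulVec v a := by
    rw [pow_succ', ← Matrix.mulVec_mulVec]
    rfl
  rw [h1, Matrix.mul_apply]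
  by_cases hj : (j : ℕ) + 1 < d
  · rw [Finset.sum_eq_single (⟨(j : ℕ) + 1, hj⟩ : Fin d)]
    · simp [flg_C, flg_G, hj]
    · intro i _ hi
      have : (i : ℕ) ≠ (j : ℕ) + 1 := fun h => hi (Fin.ext h)
      simp [flg_C, hj, this]
    · intro h
      exact absurd (Finset.mem_univ _) h
  · have hj' : (j : ℕ) + 1 = d := by
      have := j.2
      omega
    have h2 : p = X ^ d + ∑ i : Fin d, C (p.coeff i) * X ^ (i : ℕ) := by
      conv_lhs => rw [hm.as_sum, hd]
      rw [Fin.sum_univ_eq_sum_range (fun i => C (p.coeff i) * X ^ i)]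
    rw [h2, map_add, Matrix.add_mulVec, flg_sum, map_pow, aeval_X] at h
    rw [hj']
    have h3 := congrFun h a
    simp only [Pi.add_apply, Finset.sum_apply, Pi.smul_apply, smul_eq_mul, Pi.zero_apply] at h3
    rw [eq_neg_of_add_eq_zero_left h3, ← Finset.sum_neg_distrib]
    refine Finset.sum_congr rfl fun i _ => ?_
    simp only [flg_C, flg_G, Matrix.of_apply, hj, if_false]
    ring

theorem flg_charC {F : Type} [Field F] {n : Type} [Fintype n] [DecidableEq n] (y : Matrix n n F)
    (p : F[X]) (hm : p.Monic) (hp : Irreducible p) (d : ℕ) (hd : p.natDegree = d) (v : n → F)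
    (hv : v ≠ 0) (h : (aeval y p).mulVec v = 0) : (flg_C p d).charpoly = p := by
  have h1 := flg_int y (flg_C p d) (flg_G y v d) (flg_GC y p hm d hd v h) (flg_C p d).charpoly
  rw [Matrix.aeval_self_charpoly, Matrix.mul_zero] at h1
  have hd0 : 0 < d := hd ▸ hp.natDegree_pos
  have h2 : (flg_G y v d).mulVec (Pi.single ⟨0, hd0⟩ 1) = v := by
    ext a
    simp [flg_G]
  have h3 : (aeval y (flg_C p d).charpoly).mulVec v = 0 := by
    rw [← h2, Matrix.mulVec_mulVec, h1, Matrix.zero_mulVec]
  have h4 := flg_ann y p hp v hv h _ h3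
  refine Polynomial.eq_of_monic_of_dvd_of_natDegree_le hm (Matrix.charpoly_monic _) h4 ?_
  rw [Matrix.charpoly_natDegree_eq_dim, Fintype.card_fin, hd]

/-- the block form -/
theorem flg_blk {F : Type} [Field F] (d e : ℕ) (y g : GL (Fin d ⊕ Fin e) F)
    (c : Matrix (Fin d) (Fin d) F)
    (G : Matrix (Fin d ⊕ Fin e) (Fin d) F) (h : y.1 * G = G * c)
    (hg : ∀ a i, g.1 a (Sum.inl i) = G a i) :
    (g⁻¹ * y * g).1 = Matrix.fromBlocks c (g⁻¹ * y * g).1.toBlocks₁₂ 0
      (g⁻¹ * y * g).1.toBlocks₂₂ := by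
  have h1 : (g⁻¹ * y * g).1.submatrix id Sum.inl =
      (1 : Matrix (Fin d ⊕ Fin e) (Fin d ⊕ Fin e) F).submatrix id Sum.inl * c := by
    have e1 : g.1.submatrix id Sum.inl = G := by
      ext a i
      exact hg a i
    have e2 : (g⁻¹ * y * g).1.submatrix id Sum.inl = (g⁻¹).1 * (y.1 * g.1.submatrix id Sum.inl) := by
      rw [Units.val_mul, Units.val_mul, Matrix.mul_assoc]
      rfl
    have e3 : (g⁻¹).1 * g.1.submatrix id Sum.inl =
        (1 : Matrix (Fin d ⊕ Fin e) (Fin d ⊕ Fin e) F).submatrix id Sum.inl := by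
      have : (g⁻¹).1 * g.1 = 1 := Units.inv_mul g
      rw [← this]
      rfl
    rw [e2, e1, h, ← Matrix.mul_assoc, ← e1, e3]
  rw [← Matrix.fromBlocks_toBlocks (g⁻¹ * y * g).1, Matrix.fromBlocks_inj]
  simp only [Matrix.toBlocks_fromBlocks₁₂, Matrix.toBlocks_fromBlocks₂₂, and_true, true_and]
  constructor
  · ext i j
    have h2 := congrFun (congrFun h1 (Sum.inl i)) j
    simp only [Matrix.submatrix_apply, id, Matrix.mul_apply, Matrix.one_apply] at h2
    simpa [Matrix.toBlocks₁₁] using h2
  · ext i j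
    have h2 := congrFun (congrFun h1 (Sum.inr i)) j
    simp only [Matrix.submatrix_apply, id, Matrix.mul_apply, Matrix.one_apply] at h2
    simpa [Matrix.toBlocks₂₁] using h2

/-- the number of the vectors in the kernel -/
theorem flg_vec {F : Type} [Field F] [Finite F] {n : Type} [Fintype n] [DecidableEq n]
    (y : Matrix n n F) (p : F[X]) (hp : Irreducible p) (d : ℕ) (hd : p.natDegree = d)
    (hy : p ∣ y.charpoly) :
    Nat.card F ^ d - 1 ≤ Nat.card {v : n → F // v ≠ 0 ∧ (aeval y p).mulVec v = 0} := by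
  obtain ⟨v, hv, h⟩ := flg_ker y p hp hy
  have hli := flg_li y p hp d hd v hv h
  have : Fintype F := Fintype.ofFinite F
  have h0 : Nat.card {c : Fin d → F // c ≠ 0} = Nat.card F ^ d - 1 := by
    classical
    rw [Nat.card_eq_fintype_card, Nat.card_eq_fintype_card]
    have := Set.card_ne_eq (α := Fin d → F) 0
    rw [Fintype.card_fun, Fintype.card_fin] at this
    exact this
  rw [← h0]
  have hinj := hli.fintypeLinearCombination_injective
  let φ : {c : Fin d → F // c ≠ 0} → {v : n → F // v ≠ 0 ∧ (aeval y p).mulVec v = 0} :=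
    fun c => ⟨∑ i : Fin d, c.1 i • (y ^ (i : ℕ)).mulVec v, by
      constructor
      · intro h1
        apply c.2
        apply hinj
        rw [Fintype.linearCombination_apply, h1, map_zero]
      · rw [← flg_sum, Matrix.mulVec_mulVec, ← map_mul, mul_comm, map_mul,
          ← Matrix.mulVec_mulVec, h, Matrix.mulVec_zero]⟩
  refine Nat.card_le_card_of_injective φ ?_
  intro c c' hc
  have h1 := congrArg Subtype.val hc
  apply Subtype.ext
  apply hinj
  rw [Fintype.linearCombination_apply, Fintype.linearCombination_apply]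
  exact h1

/-- the number of the linearly independent families and of the invertible matrices -/
theorem flg_card {F : Type} [Field F] [Finite F] (d e : ℕ) :
    Nat.card (GL (Fin d ⊕ Fin e) F) =
      Nat.card {w : Fin d → (Fin d ⊕ Fin e → F) // LinearIndependent F w} *
        (Nat.card (Matrix (Fin d) (Fin e) F) * Nat.card (GL (Fin e) F)) := by
  have : Fintype F := Fintype.ofFinite F
  have h1 : Nat.card (GL (Fin d ⊕ Fin e) F) = Nat.card (GL (Fin (d + e)) F) :=
    Nat.card_congr (Units.mapEquiv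
      (Matrix.reindexAlgEquiv F F finSumFinEquiv).toMulEquiv).toEquiv
  have h2 : Nat.card {w : Fin d → (Fin d ⊕ Fin e → F) // LinearIndependent F w} =
      ∏ i : Fin d, (Fintype.card F ^ (d + e) - Fintype.card F ^ (i : ℕ)) := by
    have := card_linearIndependent (K := F) (V := Fin d ⊕ Fin e → F) (k := d) (by simp)
    rw [this]
    simp
  have h3 : Nat.card (Matrix (Fin d) (Fin e) F) = Fintype.card F ^ (d * e) := by
    rw [Nat.card_eq_fintype_card, Fintype.card_congr (Matrix.of (α := F)).symm]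
    simp only [Fintype.card_pi, Finset.prod_const, Finset.card_univ, Fintype.card_fin]
    rw [← pow_mul, mul_comm]
  rw [h1, h2, h3, Matrix.card_GL_field, Matrix.card_GL_field, Fin.prod_univ_add]
  congr 1
  simp only [Fin.val_natAdd]
  have h4 : ∀ i : Fin e, Fintype.card F ^ (d + e) - Fintype.card F ^ (d + (i : ℕ)) =
      Fintype.card F ^ d * (Fintype.card F ^ e - Fintype.card F ^ (i : ℕ)) := by
    intro i
    rw [pow_add, pow_add, Nat.mul_sub]
  rw [Finset.prod_congr rfl fun i _ => h4 i, Finset.prod_mul_distrib, Finset.prod_const,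
    Finset.card_univ, Fintype.card_fin, pow_mul]

/-- the inductive step -/
theorem flg_step {F : Type} [Field F] [Finite F] (p f : F[X]) (hm : p.Monic) (hp : Irreducible p)
    (d e : ℕ) (hd : p.natDegree = d) :
    Nat.card {y : GL (Fin d ⊕ Fin e) F // y.1.charpoly = p * f} * (Nat.card F ^ d - 1) *
        Nat.card (GL (Fin e) F) ≤
      Nat.card (GL (Fin d ⊕ Fin e) F) *
        Nat.card {y : GL (Fin e) F // y.1.charpoly = f} := by
  classical
  have : Fintype F := Fintype.ofFinite F
  let P : Type := {z : GL (Fin d ⊕ Fin e) F × (Fin d ⊕ Fin e → F) //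
    z.1.1.charpoly = p * f ∧ z.2 ≠ 0 ∧ (aeval z.1.1 p).mulVec z.2 = 0}
  have hA : Nat.card {y : GL (Fin d ⊕ Fin e) F // y.1.charpoly = p * f} * (Nat.card F ^ d - 1) ≤
      Nat.card P := by
    let P' : Type := Σ y : {y : GL (Fin d ⊕ Fin e) F // y.1.charpoly = p * f},
      {v : Fin d ⊕ Fin e → F // v ≠ 0 ∧ (aeval y.1.1 p).mulVec v = 0}
    have e1 : Nat.card P' ≤ Nat.card P := by
      let ψ : P' → P := fun z => ⟨(z.1.1, z.2.1), z.1.2, z.2.2⟩
      refine Nat.card_le_card_of_injective ψ ?_
      rintro ⟨⟨y, hy⟩, ⟨v, hv⟩⟩ ⟨⟨y', hy'⟩, ⟨v', hv'⟩⟩ h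
      have h1 := congrArg Subtype.val h
      simp only [ψ, Prod.mk.injEq] at h1
      obtain ⟨h2, h3⟩ := h1
      subst h2
      subst h3
      rfl
    refine le_trans ?_ e1
    rw [Nat.card_sigma, ← smul_eq_mul]
    rw [Nat.card_eq_fintype_card (α := {y : GL (Fin d ⊕ Fin e) F // y.1.charpoly = p * f}),
      ← Finset.card_univ, ← Finset.sum_const]
    refine Finset.sum_le_sum fun y _ => ?_
    exact flg_vec y.1.1 p hp d hd (y.2.symm ▸ dvd_mul_right p f)
  have hB : Nat.card P ≤ Nat.card {w : Fin d → (Fin d ⊕ Fin e → F) // LinearIndependent F w} *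
      (Nat.card (Matrix (Fin d) (Fin e) F) * Nat.card {y : GL (Fin e) F // y.1.charpoly = f}) := by
    rw [← Nat.card_prod, ← Nat.card_prod]
    have hd0 : 0 < d := hd ▸ hp.natDegree_pos
    choose s hs using fun w : {w : Fin d → (Fin d ⊕ Fin e → F) // LinearIndependent F w} =>
      flg_sec d e w.1 w.2
    let W : P → {w : Fin d → (Fin d ⊕ Fin e → F) // LinearIndependent F w} := fun z =>
      ⟨fun i : Fin d => (z.1.1.1 ^ (i : ℕ)).mulVec z.1.2,
        flg_li z.1.1.1 p hp d hd z.1.2 z.2.2.1 z.2.2.2⟩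
    have hblk : ∀ z : P, ((s (W z))⁻¹ * z.1.1 * s (W z)).1 = Matrix.fromBlocks (flg_C p d)
        ((s (W z))⁻¹ * z.1.1 * s (W z)).1.toBlocks₁₂ 0
        ((s (W z))⁻¹ * z.1.1 * s (W z)).1.toBlocks₂₂ := fun z =>
      flg_blk d e z.1.1 (s (W z)) (flg_C p d) (flg_G z.1.1.1 z.1.2 d)
        (flg_GC z.1.1.1 p hm d hd z.1.2 z.2.2.2) (fun a i => by rw [hs]; rfl)
    have hdet : ∀ z : P, IsUnit (((s (W z))⁻¹ * z.1.1 * s (W z)).1.toBlocks₂₂) := by
      intro z
      have h1 : IsUnit (((s (W z))⁻¹ * z.1.1 * s (W z)).1) := Units.isUnit _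
      rw [Matrix.isUnit_iff_isUnit_det, hblk z, Matrix.det_fromBlocks_zero₂₁] at h1
      rw [Matrix.isUnit_iff_isUnit_det]
      exact isUnit_of_mul_isUnit_right h1
    have hch : ∀ z : P, (hdet z).unit.1.charpoly = f := by
      intro z
      have h0 : (((s (W z))⁻¹ * z.1.1 * s (W z)).1).charpoly = z.1.1.1.charpoly := by
        rw [Units.val_mul, Units.val_mul]
        simp
      have h1 : (((s (W z))⁻¹ * z.1.1 * s (W z)).1).charpoly = p * f := h0.trans z.2.1
      rw [hblk z, Matrix.charpoly_fromBlocks_zero₂₁,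
        flg_charC z.1.1.1 p hm hp d hd z.1.2 z.2.2.1 z.2.2.2] at h1
      exact mul_left_cancel₀ hp.ne_zero h1
    let Φ : P → {w : Fin d → (Fin d ⊕ Fin e → F) // LinearIndependent F w} ×
        (Matrix (Fin d) (Fin e) F × {y : GL (Fin e) F // y.1.charpoly = f}) := fun z =>
      (W z, ((s (W z))⁻¹ * z.1.1 * s (W z)).1.toBlocks₁₂, ⟨(hdet z).unit, hch z⟩)
    refine Nat.card_le_card_of_injective Φ ?_
    intro z z' h
    have h1 : W z = W z' := congrArg Prod.fst h
    have h2 : ((s (W z))⁻¹ * z.1.1 * s (W z)).1.toBlocks₁₂ =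
        ((s (W z'))⁻¹ * z'.1.1 * s (W z')).1.toBlocks₁₂ := congrArg (fun t => t.2.1) h
    have h3 : ((s (W z))⁻¹ * z.1.1 * s (W z)).1.toBlocks₂₂ =
        ((s (W z'))⁻¹ * z'.1.1 * s (W z')).1.toBlocks₂₂ :=
      congrArg (fun t => t.2.2.1.1) h
    have h4 : ((s (W z))⁻¹ * z.1.1 * s (W z)).1 = ((s (W z'))⁻¹ * z'.1.1 * s (W z')).1 := by
      rw [hblk z, hblk z', h2, h3]
    have h5 : (s (W z))⁻¹ * z.1.1 * s (W z) = (s (W z'))⁻¹ * z'.1.1 * s (W z') := Units.ext h4
    rw [h1] at h5
    have h6 : z.1.1 = z'.1.1 := mul_left_cancel (mul_right_cancel h5)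
    have h7 : z.1.2 = z'.1.2 := by
      have := congrFun (congrArg Subtype.val h1) ⟨0, hd0⟩
      simpa [W] using this
    exact Subtype.ext (Prod.ext h6 h7)
  rw [flg_card]
  calc _ ≤ Nat.card P * Nat.card (GL (Fin e) F) := Nat.mul_le_mul_right _ hA
    _ ≤ _ := Nat.mul_le_mul_right _ hB
    _ = _ := by ring

theorem t_FLG : S_FLG := by
  intro F _ _ L
  induction L with
  | nil =>
    intro _ e he
    rw [List.prod_nil, natDegree_one] at he
    subst he
    simp only [List.map_nil, List.prod_nil, mul_one]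
    exact Nat.card_le_card_of_injective _ Subtype.val_injective
  | cons p L ih =>
    intro hL e he
    have hp := hL p (by simp)
    have hL' : ∀ q ∈ L, q.Monic ∧ Irreducible q ∧ q ≠ X := fun q hq => hL q (by simp [hq])
    have ih' := ih hL' _ rfl
    have hm' : L.prod.Monic := by
      have := monic_multiset_prod_of_monic (L : Multiset F[X]) id fun q hq => (hL' q hq).1
      simpa using this
    have he' : e = p.natDegree + L.prod.natDegree := by
      rw [← he, List.prod_cons, natDegree_mul hp.2.1.ne_zero hm'.ne_zero]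
    subst he'
    have h1 := flg_step p L.prod hp.1 hp.2.1 p.natDegree L.prod.natDegree rfl
    have e1 : Nat.card (GL (Fin p.natDegree ⊕ Fin L.prod.natDegree) F) =
        Nat.card (GL (Fin (p.natDegree + L.prod.natDegree)) F) :=
      Nat.card_congr (Units.mapEquiv
        (Matrix.reindexAlgEquiv F F finSumFinEquiv).toMulEquiv).toEquiv
    have e2 : Nat.card {y : GL (Fin p.natDegree ⊕ Fin L.prod.natDegree) F //
        y.1.charpoly = p * L.prod} =
        Nat.card {y : GL (Fin (p.natDegree + L.prod.natDegree)) F //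
          y.1.charpoly = p * L.prod} := by
      refine Nat.card_congr (Equiv.subtypeEquiv (Units.mapEquiv
        (Matrix.reindexAlgEquiv F F finSumFinEquiv).toMulEquiv).toEquiv ?_)
      intro y
      have : ((Units.mapEquiv (Matrix.reindexAlgEquiv F F finSumFinEquiv).toMulEquiv).toEquiv
        y).1 = Matrix.reindex finSumFinEquiv finSumFinEquiv y.1 := rfl
      rw [this, Matrix.charpoly_reindex]
    rw [e1, e2] at h1
    simp only [List.map_cons, List.prod_cons]
    have hpos : 0 < Nat.card (GL (Fin L.prod.natDegree) F) := Nat.card_pos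
    refine Nat.le_of_mul_le_mul_right ?_ hpos
    calc _ = (Nat.card {y : GL (Fin (p.natDegree + L.prod.natDegree)) F //
          y.1.charpoly = p * L.prod} * (Nat.card F ^ p.natDegree - 1) *
            Nat.card (GL (Fin L.prod.natDegree) F)) *
              (L.map fun p => Nat.card F ^ p.natDegree - 1).prod := by ring
      _ ≤ _ := Nat.mul_le_mul_right _ h1
      _ = Nat.card (GL (Fin (p.natDegree + L.prod.natDegree)) F) *
          (Nat.card {y : GL (Fin L.prod.natDegree) F // y.1.charpoly = L.prod} *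
            (L.map fun p => Nat.card F ^ p.natDegree - 1).prod) := by ring
      _ ≤ _ := Nat.mul_le_mul_left _ ih'

end

end SRJ
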