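import Mathlib
import Pool.Agent.SRJ.StC
import Pool.Agent.SRJ.MUB
import Pool.Agent.FLC.DC

/-!
# SRJ, module FRR: Frobenius reciprocity by characters

MP_5b5212_al.
-/

set_option autoImplicit false

namespace SRJ

open RSF FL0 Polynomial Pool.Agent.Lib_helper13

noncomputable section

theorem frr_card (n r : ℕ) (hr : r ≤ n) (F : Type) [Field F] [Fintype F] :
    Nat.card F ^ (r * (n - r)) ≤ (cor n F r).card := by
  classical
  have h1 : Nat.card F ^ (r * (n - r)) = Fintype.card (Fin r × Fin (n - r) → F) := by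
    rw [Fintype.card_fun, Fintype.card_prod, Fintype.card_fin, Fintype.card_fin,
      Nat.card_eq_fintype_card]
  rw [h1, ← Finset.card_univ]
  refine Finset.card_le_card_of_injOn (fun f => Matrix.of fun i j =>
    if h : i.val < r ∧ r ≤ j.val then f (⟨i.val, h.1⟩, ⟨j.val - r, by omega⟩) else 0) ?_ ?_
  · intro f _
    rw [Finset.mem_coe, mub_mem_cor]
    intro i j hij
    simp only [Matrix.of_apply]
    rw [dif_neg hij]
  · intro f _ g _ hfg
    ext ⟨a, b⟩
    have h2 := congrFun (congrFun hfg ⟨a.val, by omega⟩) ⟨b.val + r, by omega⟩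
    simp only [Matrix.of_apply] at h2
    have h3 : a.val < r ∧ r ≤ b.val + r := ⟨a.2, by omega⟩
    rw [dif_pos h3, dif_pos h3] at h2
    have h4 : (⟨b.val + r - r, by omega⟩ : Fin (n - r)) = b := Fin.ext (by simp)
    rw [h4] at h2
    exact h2

theorem frr_one {F : Type} [Field F] [Fintype F] {n r l : ℕ} (hn : n = 2 * r + l)
    {h : Matrix (Fin n) (Fin n) F} (hh : h ∈ cor n F r) (M : Matrix (Fin l) (Fin l) F) :
    (1 + h) * mid n r l M = 1 ↔ h = 0 ∧ M = 1 := by
  constructor
  · intro he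
    have h1 : mid n r l M = 1 - h := by
      have h2 : (1 - h) * ((1 + h) * mid n r l M) = mid n r l M := by
        rw [← Matrix.mul_assoc]
        have h3 : (1 - h) * (1 + h) = 1 - h * h := by noncomm_ring
        rw [h3, mub_mul hh hh, sub_zero, Matrix.one_mul]
      rw [he, Matrix.mul_one] at h2
      exact h2.symm
    have h0 : h = 0 := by
      ext i j
      by_cases hij : i.val < r ∧ r ≤ j.val
      · have h2 := congrFun (congrFun h1 i) j
        have h3 : mid n r l M i j = 0 := by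
          unfold mid
          rw [dif_neg (by omega), if_neg (by intro h4; rw [h4] at hij; omega)]
        rw [h3, Matrix.sub_apply, Matrix.one_apply_ne (by intro h4; rw [h4] at hij; omega),
          zero_sub] at h2
        rw [Matrix.zero_apply]
        exact neg_eq_zero.mp h2.symm
      · exact (mub_mem_cor.mp hh) i j hij
    refine ⟨h0, ?_⟩
    rw [h0, sub_zero] at h1
    ext a b
    have h2 := congrFun (congrFun h1 ⟨a.val + r, by omega⟩) ⟨b.val + r, by omega⟩
    unfold mid at h2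
    rw [dif_pos ⟨⟨by simp, by simp; omega⟩, ⟨by simp, by simp; omega⟩⟩] at h2
    have h4 : (⟨a.val + r - r, by omega⟩ : Fin l) = a := Fin.ext (by simp)
    have h5 : (⟨b.val + r - r, by omega⟩ : Fin l) = b := Fin.ext (by simp)
    simp only [h4, h5] at h2
    rw [h2]
    by_cases hab : a = b
    · rw [hab, Matrix.one_apply_eq, Matrix.one_apply_eq]
    · rw [Matrix.one_apply_ne hab, Matrix.one_apply_ne]
      intro h6
      apply hab
      have h7 := congrArg Fin.val h6
      exact Fin.ext (by simpa using h7)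
  · rintro ⟨rfl, rfl⟩
    rw [add_zero, Matrix.one_mul]
    ext i j
    unfold mid
    split_ifs with h1 h2
    · by_cases h3 : i = j
      · subst h3
        rw [Matrix.one_apply_eq, Matrix.one_apply_eq]
      · rw [Matrix.one_apply_ne h3, Matrix.one_apply_ne]
        intro h4
        apply h3
        have h7 : i.val - r = j.val - r := congrArg Fin.val h4
        exact Fin.ext (by omega)
    · rw [h2, Matrix.one_apply_eq]
    · rw [Matrix.one_apply_ne h2]

theorem frr_orth {F : Type} [Field F] [Fintype F] [DecidableEq F] {n : ℕ}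
    (A : Matrix (Fin n) (Fin n) F) :
    ∑ X ∈ irrF (GL (Fin n) F), X 1 * FLC.xm X A =
      if A = 1 then (Nat.card (GL (Fin n) F) : ℂ) else 0 := by
  by_cases hA : IsUnit A
  · have h1 : ∀ X : GL (Fin n) F → ℂ, FLC.xm X A = X hA.unit := by
      intro X
      unfold FLC.xm
      rw [dif_pos hA]
    simp only [h1]
    have h2 := FLC.dc_orth (G := GL (Fin n) F) 1 hA.unit
    simp only [inv_one] at h2
    rw [h2]
    by_cases h3 : A = 1
    · have h4 : hA.unit = 1 := Units.ext (by rw [IsUnit.unit_spec]; exact h3)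
      rw [if_pos h3, h4]
      simp only [mul_one, mul_inv_cancel, if_true]
      rw [Finset.sum_const, Finset.card_univ, nsmul_eq_mul, mul_one, Nat.card_eq_fintype_card]
    · rw [if_neg h3]
      refine Finset.sum_eq_zero fun g _ => ?_
      rw [if_neg]
      intro h4
      apply h3
      have h5 : hA.unit = 1 := by
        have h6 : hA.unit = g⁻¹ * (g * hA.unit * g⁻¹) * g := by group
        rw [h6, h4]
        group
      have h7 := congrArg (fun u : GL (Fin n) F => (u : Matrix (Fin n) (Fin n) F)) h5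
      simpa using h7
  · have h1 : ∀ X : GL (Fin n) F → ℂ, FLC.xm X A = 0 := by
      intro X
      unfold FLC.xm
      rw [dif_neg hA]
    simp only [h1, mul_zero, Finset.sum_const_zero]
    rw [if_neg]
    rintro rfl
    exact hA isUnit_one

theorem frr_sum {F : Type} [Field F] [Fintype F] [DecidableEq F] {n r l : ℕ}
    (hn : n = 2 * r + l) (ψ : AddChar F ℂ) (Y : GL (Fin l) F → ℂ) :
    ∑ X ∈ irrF (GL (Fin n) F), X 1 * ip (Ph ψ n r l X) Y =
      (Nat.card (GL (Fin n) F) : ℂ) * Y 1 /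
        (((cor n F r).card : ℂ) * (Nat.card (GL (Fin l) F) : ℂ)) := by
  have h1 : ∀ X : GL (Fin n) F → ℂ, X 1 * ip (Ph ψ n r l X) Y =
      (∑ g : GL (Fin l) F, ∑ h ∈ cor n F r,
        (X 1 * FLC.xm X ((1 + h) * mid n r l (g : Matrix (Fin l) (Fin l) F))) *
          (ψ (-(T0 n r F * h).trace) * Y g⁻¹)) /
        (((cor n F r).card : ℂ) * (Nat.card (GL (Fin l) F) : ℂ)) := by
    intro X
    unfold ip Ph
    rw [← mul_div_assoc, Finset.mul_sum, div_mul_eq_div_div]
    congr 1
    rw [Finset.sum_div]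
    refine Finset.sum_congr rfl fun g _ => ?_
    rw [div_mul_eq_mul_div, mul_div_assoc', Finset.sum_mul, Finset.mul_sum]
    congr 1
    refine Finset.sum_congr rfl fun h _ => ?_
    ring
  rw [Finset.sum_congr rfl fun X _ => h1 X, ← Finset.sum_div]
  congr 1
  rw [Finset.sum_comm]
  have h2 : ∀ g : GL (Fin l) F, ∑ X ∈ irrF (GL (Fin n) F), ∑ h ∈ cor n F r,
        (X 1 * FLC.xm X ((1 + h) * mid n r l (g : Matrix (Fin l) (Fin l) F))) *
          (ψ (-(T0 n r F * h).trace) * Y g⁻¹) =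
      if g = 1 then (Nat.card (GL (Fin n) F) : ℂ) * Y 1 else 0 := by
    intro g
    rw [Finset.sum_comm]
    have h3 : ∀ h ∈ cor n F r, ∑ X ∈ irrF (GL (Fin n) F),
        (X 1 * FLC.xm X ((1 + h) * mid n r l (g : Matrix (Fin l) (Fin l) F))) *
          (ψ (-(T0 n r F * h).trace) * Y g⁻¹) =
        if h = 0 ∧ (g : Matrix (Fin l) (Fin l) F) = 1 then
          (Nat.card (GL (Fin n) F) : ℂ) * Y 1 else 0 := by
      intro h hh
      rw [← Finset.sum_mul, frr_orth]
      by_cases h4 : h = 0 ∧ (g : Matrix (Fin l) (Fin l) F) = 1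
      · rw [if_pos h4, if_pos ((frr_one hn hh _).mpr h4)]
        obtain ⟨rfl, h5⟩ := h4
        have h6 : g = 1 := Units.ext h5
        rw [h6, Matrix.mul_zero, Matrix.trace_zero, neg_zero, AddChar.map_zero_eq_one, one_mul,
          inv_one]
      · rw [if_neg h4, if_neg (fun h5 => h4 ((frr_one hn hh _).mp h5)), zero_mul]
    rw [Finset.sum_congr rfl h3]
    by_cases h4 : g = 1
    · rw [if_pos h4]
      rw [Finset.sum_eq_single_of_mem 0 (mub_zero r)]
      · rw [if_pos ⟨rfl, by rw [h4]; rfl⟩]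
      · intro h _ hne
        rw [if_neg (fun h5 => hne h5.1)]
    · rw [if_neg h4]
      refine Finset.sum_eq_zero fun h _ => ?_
      rw [if_neg (fun h5 => h4 (Units.ext h5.2))]
  simp only [h2]
  rw [Finset.sum_ite_eq', if_pos (Finset.mem_univ _)]

theorem t_FRR : M_FRR := by
  intro hPHC n r l F _ _ _ ψ hψ hn X Y hX hY
  obtain ⟨dY, hdY, hdY1⟩ := hY.exists_degree
  -- all terms are natural numbers
  have hnat : ∀ X' : GL (Fin n) F → ℂ, IsIrr X' → ∃ j : ℕ, X' 1 * ip (Ph ψ n r l X') Y = j := by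
    intro X' hX'
    obtain ⟨d, -, hd⟩ := hX'.exists_degree
    obtain ⟨j, hj⟩ := (hPHC n r l F ψ hψ hn X' hX'.isChr).1.exists_ip hY.isChr
    exact ⟨d * j, by rw [hd, hj]; push_cast; rfl⟩
  obtain ⟨d, -, hd⟩ := hX.exists_degree
  obtain ⟨j, hj⟩ := (hPHC n r l F ψ hψ hn X hX.isChr).1.exists_ip hY.isChr
  have hsum := congrArg Complex.re (frr_sum hn ψ Y)
  rw [Complex.re_sum] at hsum
  have hle : (X 1 * ip (Ph ψ n r l X) Y).re ≤
      ∑ X' ∈ irrF (GL (Fin n) F), (X' 1 * ip (Ph ψ n r l X') Y).re := by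
    refine Finset.single_le_sum (f := fun X' : GL (Fin n) F → ℂ =>
      (X' 1 * ip (Ph ψ n r l X') Y).re) (fun X' hX' => ?_) (mem_irrF.mpr hX)
    obtain ⟨k, hk⟩ := hnat X' (mem_irrF.mp hX')
    simp only [hk, Complex.natCast_re]
    exact Nat.cast_nonneg k
  rw [hsum] at hle
  have hR : ((Nat.card (GL (Fin n) F) : ℂ) * Y 1 /
        (((cor n F r).card : ℂ) * (Nat.card (GL (Fin l) F) : ℂ))).re =
      (Nat.card (GL (Fin n) F) : ℝ) * (dY : ℝ) /
        (((cor n F r).card : ℝ) * (Nat.card (GL (Fin l) F) : ℝ)) := by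
    rw [hdY1]
    have h1 : ((Nat.card (GL (Fin n) F) : ℂ) * (dY : ℂ) /
        (((cor n F r).card : ℂ) * (Nat.card (GL (Fin l) F) : ℂ))) =
      (((Nat.card (GL (Fin n) F) : ℝ) * (dY : ℝ) /
        (((cor n F r).card : ℝ) * (Nat.card (GL (Fin l) F) : ℝ)) : ℝ) : ℂ) := by
      push_cast
      rfl
    rw [h1, Complex.ofReal_re]
  have hL : (X 1 * ip (Ph ψ n r l X) Y).re = (d : ℝ) * (j : ℝ) := by
    rw [hd, hj]
    have h1 : ((d : ℂ) * (j : ℂ)) = (((d : ℝ) * (j : ℝ) : ℝ) : ℂ) := by push_cast; rfl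
    rw [h1, Complex.ofReal_re]
  rw [hR, hL] at hle
  have hc0 : (0 : ℝ) < ((cor n F r).card : ℝ) := by exact_mod_cast mub_card_pos r
  have hl0 : (0 : ℝ) < (Nat.card (GL (Fin l) F) : ℝ) := by
    exact_mod_cast Nat.card_pos
  rw [le_div_iff₀ (mul_pos hc0 hl0)] at hle
  have hcard : (Nat.card F : ℝ) ^ (r * (n - r)) ≤ ((cor n F r).card : ℝ) := by
    exact_mod_cast frr_card n r (by omega) F
  have h1 : (ip (Ph ψ n r l X) Y).re = (j : ℝ) := by rw [hj, Complex.natCast_re]
  have h2 : (X 1).re = (d : ℝ) := by rw [hd, Complex.natCast_re]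
  have h3 : (Y 1).re = (dY : ℝ) := by rw [hdY1, Complex.natCast_re]
  rw [h1, h2, h3]
  refine le_trans ?_ hle
  have h4 : (j : ℝ) * (d : ℝ) * ((Nat.card F : ℝ) ^ (r * (n - r)) * (Nat.card (GL (Fin l) F) : ℝ)) ≤
      (j : ℝ) * (d : ℝ) * (((cor n F r).card : ℝ) * (Nat.card (GL (Fin l) F) : ℝ)) := by
    refine mul_le_mul_of_nonneg_left ?_ (mul_nonneg (Nat.cast_nonneg j) (Nat.cast_nonneg d))
    exact mul_le_mul_of_nonneg_right hcard hl0.le
  refine le_trans h4 (le_of_eq ?_)
  ring

end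

end SRJ
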