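import Mathlib
import Pool.Agent.SRJ.StB

/-!
# SRJ, module FXT: finite extensions of all degrees of a finite field
-/

set_option autoImplicit false

namespace SRJ

/-- FXT. -/
theorem t_FXT : S_FXT := by
  intro F _ _ k hk
  obtain ⟨p, hp⟩ := CharP.exists F
  have hpp : p.Prime := (CharP.char_is_prime_or_zero F p).resolve_right (CharP.char_ne_zero_of_finite F p)
  have : Fact p.Prime := ⟨hpp⟩
  have : NeZero k := ⟨by omega⟩
  exact ⟨FiniteField.Extension F p k, inferInstance, inferInstance, inferInstance,
    FiniteField.finrank_extension F p k⟩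

end SRJ
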