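import Pool.Agent.SRJ.StB

/-!
# Surjectivity of random homomorphisms to `PSL_n(q)`, module GEN
-/

namespace SRJ

open RSF FL0 Polynomial Pool.Agent.Lib_helper13

noncomputable section

namespace M_GENm

/-- pairs that do not generate, under a surjective homomorphism -/
theorem ngp_le {G H : Type} [Group G] [Group H] [Finite G] [Finite H] (π : G →* H)
    (hπ : Function.Surjective π) : ngp H ≤ ngp G := by
  classical
  obtain ⟨s, hs⟩ := hπ.hasRightInverse
  have hGH : Nat.card G = Nat.card H * Nat.card π.ker := by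
    rw [Subgroup.card_eq_card_quotient_mul_card_subgroup π.ker,
      Nat.card_congr (QuotientGroup.quotientKerEquivOfSurjective π hπ).toEquiv]
  let A := {p : G × G // Subgroup.closure {p.1, p.2} ≠ ⊤}
  let B := {p : H × H // Subgroup.closure {p.1, p.2} ≠ ⊤}
  have hmem : ∀ (b : B) (k₁ k₂ : π.ker),
      Subgroup.closure {s b.1.1 * (k₁ : G), s b.1.2 * (k₂ : G)} ≠ ⊤ := by
    intro b k₁ k₂ h
    apply b.2
    have h1 := congrArg (Subgroup.map π) h
    rw [MonoidHom.map_closure, Set.image_pair, map_mul, map_mul, hs, hs,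
      MonoidHom.mem_ker.1 k₁.2, MonoidHom.mem_ker.1 k₂.2, mul_one, mul_one,
      Subgroup.map_top_of_surjective π hπ] at h1
    exact h1
  let f : B × (π.ker × π.ker) → A := fun x =>
    ⟨(s x.1.1.1 * (x.2.1 : G), s x.1.1.2 * (x.2.2 : G)), hmem x.1 x.2.1 x.2.2⟩
  have hf : Function.Injective f := by
    intro x y hxy
    have h0 := congrArg Subtype.val hxy
    have h1 : s x.1.1.1 * (x.2.1 : G) = s y.1.1.1 * (y.2.1 : G) := congrArg Prod.fst h0
    have h2 : s x.1.1.2 * (x.2.2 : G) = s y.1.1.2 * (y.2.2 : G) := congrArg Prod.snd h0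
    have h3 : x.1.1.1 = y.1.1.1 := by
      have := congrArg π h1
      rwa [map_mul, map_mul, hs, hs, MonoidHom.mem_ker.1 x.2.1.2, MonoidHom.mem_ker.1 y.2.1.2,
        mul_one, mul_one] at this
    have h4 : x.1.1.2 = y.1.1.2 := by
      have := congrArg π h2
      rwa [map_mul, map_mul, hs, hs, MonoidHom.mem_ker.1 x.2.2.2, MonoidHom.mem_ker.1 y.2.2.2,
        mul_one, mul_one] at this
    rw [h3] at h1
    rw [h4] at h2
    have h5 : x.2.1 = y.2.1 := Subtype.ext (mul_left_cancel h1)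
    have h6 : x.2.2 = y.2.2 := Subtype.ext (mul_left_cancel h2)
    exact Prod.ext (Subtype.ext (Prod.ext h3 h4)) (Prod.ext h5 h6)
  have hcard : Nat.card B * (Nat.card π.ker * Nat.card π.ker) ≤ Nat.card A := by
    rw [← Nat.card_prod, ← Nat.card_prod]
    exact Nat.card_le_card_of_injective f hf
  have hk : (0 : ℝ) < Nat.card π.ker := by exact_mod_cast Nat.card_pos
  have hH : (0 : ℝ) < Nat.card H := by exact_mod_cast Nat.card_pos
  have hc : (Nat.card B : ℝ) * (Nat.card π.ker * Nat.card π.ker) ≤ Nat.card A := by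
    exact_mod_cast hcard
  have hG : (Nat.card G : ℝ) = Nat.card H * Nat.card π.ker := by exact_mod_cast hGH
  change (Nat.card B : ℝ) / (Nat.card H : ℝ) ^ 2 ≤ (Nat.card A : ℝ) / (Nat.card G : ℝ) ^ 2
  rw [hG, div_le_div_iff₀ (by positivity) (by positivity)]
  nlinarith [mul_le_mul_of_nonneg_right hc (sq_nonneg (Nat.card H : ℝ))]

end M_GENm

open M_GENm in
theorem t_GEN : M_GEN := by
  rintro ⟨r₁, hA⟩ ⟨r₂, hB⟩
  refine ⟨max r₁ r₂, fun ε hε => ?_⟩
  obtain ⟨N₁, hN₁⟩ := hA ε hε
  obtain ⟨N₂, hN₂⟩ := hB ε hε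
  refine ⟨max N₁ N₂, fun n hn F _ _ hN => ?_⟩
  have : Finite (SL n F) := inferInstance
  have : Finite (PS n F) := Quotient.finite _
  refine (ngp_le (QuotientGroup.mk' _) (QuotientGroup.mk'_surjective _)).trans ?_
  by_cases hq : Nat.card F ≤ n ^ 12
  · exact hN₁ n ((le_max_left _ _).trans hn) F hq ((le_max_left _ _).trans hN)
  · exact hN₂ n ((le_max_right _ _).trans hn) F (not_le.1 hq) ((le_max_right _ _).trans hN)

end

end SRJ
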