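import Mathlib
import Pool.Agent.SRJ.StB

/-!
# GNA: two random elements of `SL_n(q)` generate it, the case `q ≤ n ^ 12`
-/

set_option autoImplicit false
set_option maxHeartbeats 4000000

namespace SRJ

open RSF FL0 Polynomial Pool.Agent.Lib_helper13

/-- `log₂ n + 1` -/
def gna_L (n : ℕ) : ℕ := Nat.log 2 n + 1

lemma gna_lt_pow (n : ℕ) : n < 2 ^ gna_L n := Nat.lt_pow_succ_log_self (by norm_num) n

lemma gna_L_le (n : ℕ) (hn : 1 ≤ n) : gna_L n ≤ n := by
  unfold gna_L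
  have := Nat.log_lt_self 2 (x := n) (by omega)
  omega

lemma gna_lg (q n : ℕ) (hn : 1 ≤ n) (h : q ≤ n ^ 12) : lg q n ≤ 13 * n ^ 2 := by
  have h1 : q ^ n < 2 ^ (12 * gna_L n * n + 1) := by
    calc q ^ n ≤ (n ^ 12) ^ n := Nat.pow_le_pow_left h n
      _ ≤ ((2 ^ gna_L n) ^ 12) ^ n :=
          Nat.pow_le_pow_left (Nat.pow_le_pow_left (gna_lt_pow n).le 12) n
      _ = 2 ^ (12 * gna_L n * n) := by rw [← pow_mul, ← pow_mul]; congr 1; ring
      _ < 2 ^ (12 * gna_L n * n + 1) := Nat.pow_lt_pow_right (by norm_num) (by omega)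
  have h2 : Nat.log 2 (q ^ n) < 12 * gna_L n * n + 1 := by
    apply Nat.log_lt_of_lt_pow' (by omega) h1
  have h3 := gna_L_le n hn
  have h4 : 12 * gna_L n * n ≤ 12 * n * n := by
    apply Nat.mul_le_mul_right
    omega
  unfold lg
  nlinarith

lemma gna_markov (α : Type) [Finite α] (f : α → ℕ) (s : ℕ) :
    (Nat.card {y : α // s < f y} : ℝ) * (s + 1) ≤ ∑ᶠ y : α, (f y : ℝ) := by
  classical
  have := Fintype.ofFinite α
  rw [finsum_eq_sum_of_fintype, Nat.card_eq_fintype_card, Fintype.card_subtype]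
  calc ((Finset.univ.filter fun y => s < f y).card : ℝ) * (s + 1)
      = ∑ y ∈ Finset.univ.filter (fun y => s < f y), ((s : ℝ) + 1) := by
        rw [Finset.sum_const, nsmul_eq_mul]
    _ ≤ ∑ y ∈ Finset.univ.filter (fun y => s < f y), (f y : ℝ) := by
        apply Finset.sum_le_sum
        intro y hy
        have := (Finset.mem_filter.1 hy).2
        exact_mod_cast this
    _ ≤ ∑ y, (f y : ℝ) :=
        Finset.sum_le_sum_of_subset_of_nonneg (Finset.filter_subset _ _)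
          fun _ _ _ => Nat.cast_nonneg _

/-- `s = ⌊√n⌋ / 4` -/
def gna_s (n : ℕ) : ℕ := Nat.sqrt n / 4

lemma gna_s_sq (n : ℕ) : 16 * gna_s n ^ 2 ≤ n := by
  have h1 : 4 * gna_s n ≤ Nat.sqrt n := Nat.mul_div_le _ _
  have h2 : Nat.sqrt n * Nat.sqrt n ≤ n := Nat.sqrt_le n
  nlinarith [Nat.mul_le_mul h1 h1]

lemma gna_s_ge (n : ℕ) : Real.sqrt n ≤ 4 * ((gna_s n : ℝ) + 1) := by
  have h1 : Nat.sqrt n + 1 ≤ 4 * (gna_s n + 1) := by
    have : Nat.sqrt n < 4 * (Nat.sqrt n / 4) + 4 := by omega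
    unfold gna_s
    omega
  have h2 : Real.sqrt n ≤ (Nat.sqrt n : ℝ) + 1 := (Real.real_sqrt_le_nat_sqrt_succ).trans (by simp)
  have h3 : ((Nat.sqrt n : ℝ) + 1) ≤ 4 * ((gna_s n : ℝ) + 1) := by exact_mod_cast h1
  linarith

lemma gna_Mc (q n : ℕ) (hq : 2 ≤ q) (hn : 2 ≤ n) :
    Mc q n (gna_s n) ≤ 2 * (q : ℝ) ^ (1 - 7 * (n : ℝ) / 16) := by
  have hq0 : (0 : ℝ) < q := by
    have : 0 < q := by omega
    exact_mod_cast this
  have hq1 : (1 : ℝ) ≤ q := by
    have : 1 ≤ q := by omega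
    exact_mod_cast this
  unfold Mc
  have h1 : ((gna_s n : ℝ) ^ 2 + gna_s n + n) / 2 ≤ 9 * (n : ℝ) / 16 := by
    have ha : (16 : ℝ) * (gna_s n : ℝ) ^ 2 ≤ n := by exact_mod_cast gna_s_sq n
    have hb : (gna_s n : ℝ) ≤ (gna_s n : ℝ) ^ 2 := by
      have : gna_s n ≤ gna_s n ^ 2 := Nat.le_self_pow (by norm_num) _
      exact_mod_cast this
    linarith
  have h2 : (q : ℝ) ^ (n - 1) / 2 ≤ (q : ℝ) ^ (n - 1) - 1 := by
    have h3 : (2 : ℝ) ≤ (q : ℝ) ^ (n - 1) := by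
      have h4 : 2 ≤ q ^ (n - 1) := by
        calc 2 ≤ q := hq
          _ ≤ q ^ (n - 1) := Nat.le_self_pow (by omega) _
      exact_mod_cast h4
    linarith
  have h3 : (0 : ℝ) < (q : ℝ) ^ (n - 1) / 2 := by positivity
  calc (q : ℝ) ^ (((gna_s n : ℝ) ^ 2 + gna_s n + n) / 2) / ((q : ℝ) ^ (n - 1) - 1)
      ≤ (q : ℝ) ^ (9 * (n : ℝ) / 16) / ((q : ℝ) ^ (n - 1) / 2) := by
        apply div_le_div₀ (by positivity) _ h3 h2
        exact Real.rpow_le_rpow_of_exponent_le hq1 h1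
    _ = 2 * (q : ℝ) ^ (1 - 7 * (n : ℝ) / 16) := by
        have h4 : (q : ℝ) ^ (n - 1) = (q : ℝ) ^ ((n : ℝ) - 1) := by
          rw [← Real.rpow_natCast]
          congr 1
          rw [Nat.cast_sub (by omega)]
          simp
        rw [h4]
        have h5 : (1 - 7 * (n : ℝ) / 16) = 9 * (n : ℝ) / 16 - ((n : ℝ) - 1) := by ring
        rw [h5, Real.rpow_sub hq0 (9 * (n : ℝ) / 16) ((n : ℝ) - 1), div_div_eq_mul_div,
          mul_comm _ (2 : ℝ), mul_div_assoc]

/-- the error term -/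
noncomputable def gna_g (C₁ C₂ : ℝ) (n : ℕ) : ℝ :=
  C₁ * ((9 + 20 * (gna_L n : ℝ)) ^ 2 * (4 / Real.sqrt n)) + C₂ * (1 / (n : ℝ)) +
    (156 * (1 / (n : ℝ)) + 2496 * ((n : ℝ) ^ 3 * (2 : ℝ) ^ (-(7 * (n : ℝ) / 16))))

lemma gna_L_real (n : ℕ) (hn : 1 ≤ n) :
    9 + 20 * (gna_L n : ℝ) ≤ 669 * (n : ℝ) ^ (1 / 16 : ℝ) := by
  have hn0 : (0 : ℝ) < n := by
    have : 0 < n := by omega
    exact_mod_cast this
  have h1 : (Nat.log 2 n : ℝ) ≤ Real.logb 2 n := by
    have := Real.natLog_le_logb n 2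
    exact_mod_cast this
  have h2 : Real.logb 2 n ≤ 2 * Real.log n := by
    rw [Real.logb, div_le_iff₀ (Real.log_pos (by norm_num))]
    have h3 : (1 : ℝ) ≤ 2 * Real.log 2 := by
      have := Real.log_two_gt_d9
      linarith
    have h4 : 0 ≤ Real.log n := Real.log_nonneg (by exact_mod_cast hn)
    nlinarith
  have h3 : Real.log n ≤ (n : ℝ) ^ (1 / 16 : ℝ) / (1 / 16 : ℝ) :=
    Real.log_le_rpow_div hn0.le (by norm_num)
  have h4 : (1 : ℝ) ≤ (n : ℝ) ^ (1 / 16 : ℝ) :=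
    Real.one_le_rpow (by exact_mod_cast hn) (by norm_num)
  have h5 : (gna_L n : ℝ) = Nat.log 2 n + 1 := by simp [gna_L]
  rw [h5]
  linarith

lemma gna_tendsto (C₁ C₂ : ℝ) (h1 : 0 ≤ C₁) : Filter.Tendsto (gna_g C₁ C₂) Filter.atTop (nhds 0) := by
  have hA : Filter.Tendsto (fun n : ℕ => (9 + 20 * (gna_L n : ℝ)) ^ 2 * (4 / Real.sqrt n))
      Filter.atTop (nhds 0) := by
    have h2 : Filter.Tendsto (fun n : ℕ => 4 * 669 ^ 2 * (n : ℝ) ^ (-(3 / 8) : ℝ))
        Filter.atTop (nhds 0) := by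
      have h3 := (tendsto_rpow_neg_atTop (y := 3 / 8) (by norm_num)).comp
        (tendsto_natCast_atTop_atTop (R := ℝ))
      have h4 := h3.const_mul (4 * 669 ^ 2 : ℝ)
      simpa using h4
    refine tendsto_of_tendsto_of_tendsto_of_le_of_le' tendsto_const_nhds h2 ?_ ?_
    · filter_upwards with n
      positivity
    · filter_upwards [Filter.eventually_ge_atTop 1] with n hn
      have hn0 : (0 : ℝ) < n := by
        have : 0 < n := by omega
        exact_mod_cast this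
      have h3 := gna_L_real n hn
      have h4 : (9 + 20 * (gna_L n : ℝ)) ^ 2 ≤ 669 ^ 2 * (n : ℝ) ^ (1 / 8 : ℝ) := by
        calc (9 + 20 * (gna_L n : ℝ)) ^ 2 ≤ (669 * (n : ℝ) ^ (1 / 16 : ℝ)) ^ 2 :=
              pow_le_pow_left₀ (by positivity) h3 2
          _ = 669 ^ 2 * (n : ℝ) ^ (1 / 8 : ℝ) := by
              rw [mul_pow, ← Real.rpow_natCast ((n : ℝ) ^ (1 / 16 : ℝ)) 2, ← Real.rpow_mul hn0.le]
              norm_num
      calc (9 + 20 * (gna_L n : ℝ)) ^ 2 * (4 / Real.sqrt n)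
          ≤ (669 ^ 2 * (n : ℝ) ^ (1 / 8 : ℝ)) * (4 / Real.sqrt n) :=
            mul_le_mul_of_nonneg_right h4 (by positivity)
        _ = 4 * 669 ^ 2 * ((n : ℝ) ^ (1 / 8 : ℝ) / (n : ℝ) ^ (1 / 2 : ℝ)) := by
            rw [Real.sqrt_eq_rpow]
            ring
        _ = 4 * 669 ^ 2 * (n : ℝ) ^ (-(3 / 8) : ℝ) := by
            rw [← Real.rpow_sub hn0]
            norm_num
  have hB : Filter.Tendsto (fun n : ℕ => 1 / (n : ℝ)) Filter.atTop (nhds 0) :=
    tendsto_one_div_atTop_nhds_zero_nat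
  have hC : Filter.Tendsto (fun n : ℕ => (n : ℝ) ^ 3 * (2 : ℝ) ^ (-(7 * (n : ℝ) / 16)))
      Filter.atTop (nhds 0) := by
    have h2 : |(2 : ℝ) ^ (-(7 / 16) : ℝ)| < 1 := by
      rw [abs_of_pos (by positivity)]
      exact Real.rpow_lt_one_of_one_lt_of_neg (by norm_num) (by norm_num)
    have h3 := tendsto_pow_const_mul_const_pow_of_abs_lt_one 3 h2
    refine h3.congr fun n => ?_
    congr 1
    rw [← Real.rpow_natCast, ← Real.rpow_mul (by norm_num)]
    congr 1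
    ring
  have := ((hA.const_mul C₁).add (hB.const_mul C₂)).add ((hB.const_mul 156).add (hC.const_mul 2496))
  simp only [mul_zero, add_zero] at this
  exact this

lemma gna_card (n : ℕ) (F : Type) [Field F] [Finite F] :
    Nat.card (PS n F) ≤ Nat.card F ^ (n ^ 2) := by
  have h1 : Nat.card (PS n F) ≤ Nat.card (SL n F) :=
    Nat.card_le_card_of_surjective _ (QuotientGroup.mk_surjective)
  have h2 : Nat.card (SL n F) ≤ Nat.card (Matrix (Fin n) (Fin n) F) :=
    Nat.card_le_card_of_injective (fun y : SL n F => y.1) Subtype.val_injective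
  have h3 : Nat.card (Matrix (Fin n) (Fin n) F) = Nat.card F ^ (n ^ 2) := by
    unfold Matrix
    rw [Nat.card_fun, Nat.card_fun, ← pow_mul, Nat.card_eq_fintype_card (α := Fin n),
      Fintype.card_fin]
    congr 1
    ring
  omega

/-- the bound for given `n`, `q` -/
lemma gna_bd (C₁ C₂ : ℝ) (h1 : 0 < C₁) (h2 : 0 < C₂)
    (hG : S_GNR)
    (hS : ∀ (n D : ℕ) (F : Type) [Field F] [Finite F], 2 * D < n →
      ∑ᶠ y : SL n F, (smd D y.1.charpoly : ℝ) ≤ C₁ * ((D : ℝ) + 1) ^ 2 * Nat.card (SL n F))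
    (hL : ∀ (n D m : ℕ) (F : Type) [Field F] [Finite F], 2 * D + 8 ≤ n → 1 ≤ m →
      (Nat.card {y : SL n F // ¬ Gd D m y.1.charpoly} : ℝ) ≤
        C₂ * (m : ℝ) ^ 2 * n * (Nat.card F : ℝ) ^ (-((max (D + 1) 2 : ℕ) : ℝ) / 2) *
          Nat.card (SL n F))
    (n : ℕ) (hn : 2 * (8 + 20 * gna_L n) + 8 ≤ n) (F : Type) [Field F] [Finite F]
    (hq : Nat.card F ≤ n ^ 12) : ngp (SL n F) ≤ gna_g C₁ C₂ n := by
  have hq2 : 2 ≤ Nat.card F := Finite.one_lt_card
  have hn24 : 24 ≤ n := by omega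
  have hn0 : (0 : ℝ) < n := by
    have : 0 < n := by omega
    exact_mod_cast this
  have hq0 : (0 : ℝ) < Nat.card F := by
    have : 0 < Nat.card F := by omega
    exact_mod_cast this
  have hm1 : 1 ≤ Nat.card F ^ 2 * n ^ 4 := Nat.one_le_iff_ne_zero.2 (by positivity)
  have hSL : (0 : ℝ) < Nat.card (SL n F) := by
    exact_mod_cast (Nat.card_pos : 0 < Nat.card (SL n F))
  have hg := (hG n F (8 + 20 * gna_L n) (Nat.card F ^ 2 * n ^ 4) (gna_s n) (by omega) hm1).1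
  refine hg.trans ?_
  have hlg : (lg (Nat.card F) n : ℝ) ≤ 13 * (n : ℝ) ^ 2 := by
    exact_mod_cast gna_lg (Nat.card F) n (by omega) hq
  have hbet : bet n F (8 + 20 * gna_L n) (Nat.card F ^ 2 * n ^ 4) (gna_s n) ≤
      C₁ * ((9 + 20 * (gna_L n : ℝ)) ^ 2 * (4 / Real.sqrt n)) + C₂ * (1 / (n : ℝ)) := by
    unfold bet
    rw [add_div]
    apply add_le_add
    · rw [div_le_iff₀ hSL]
      have h3 := gna_markov (SL n F) (fun y => smd (8 + 20 * gna_L n) y.1.charpoly) (gna_s n)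
      have h4 := h3.trans (hS n (8 + 20 * gna_L n) F (by omega))
      have h5 : ((8 + 20 * gna_L n : ℕ) : ℝ) + 1 = 9 + 20 * (gna_L n : ℝ) := by
        push_cast
        ring
      rw [h5] at h4
      have h6 := gna_s_ge n
      have h7 : 0 < Real.sqrt n := Real.sqrt_pos.2 hn0
      set c : ℝ := (Nat.card {y : SL n F // gna_s n < smd (8 + 20 * gna_L n) y.1.charpoly} : ℝ)
      have h8 : 0 ≤ c := Nat.cast_nonneg _
      have h9 : c * Real.sqrt n ≤ 4 * (C₁ * (9 + 20 * (gna_L n : ℝ)) ^ 2 * Nat.card (SL n F)) := by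
        calc c * Real.sqrt n ≤ c * (4 * ((gna_s n : ℝ) + 1)) := mul_le_mul_of_nonneg_left h6 h8
          _ = 4 * (c * ((gna_s n : ℝ) + 1)) := by ring
          _ ≤ _ := mul_le_mul_of_nonneg_left h4 (by norm_num)
      calc c = c * Real.sqrt n / Real.sqrt n := by field_simp
        _ ≤ 4 * (C₁ * (9 + 20 * (gna_L n : ℝ)) ^ 2 * Nat.card (SL n F)) / Real.sqrt n :=
            div_le_div_of_nonneg_right h9 h7.le
        _ = _ := by ring
    · rw [div_le_iff₀ hSL]
      refine (hL n (8 + 20 * gna_L n) (Nat.card F ^ 2 * n ^ 4) F hn hm1).trans ?_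
      apply mul_le_mul_of_nonneg_right _ hSL.le
      rw [mul_assoc, mul_assoc]
      apply mul_le_mul_of_nonneg_left _ h2.le
      have hmax : max (8 + 20 * gna_L n + 1) 2 = 9 + 20 * gna_L n := by omega
      rw [hmax]
      push_cast
      have h3 : (Nat.card F : ℝ) ^ (-(9 + 20 * (gna_L n : ℝ)) / 2) ≤
          (1 / (Nat.card F : ℝ) ^ 4) * (1 / (n : ℝ) ^ 10) := by
        have h4 : (Nat.card F : ℝ) ^ (-(9 + 20 * (gna_L n : ℝ)) / 2) =
            (Nat.card F : ℝ) ^ (-(9 / 2) : ℝ) * (Nat.card F : ℝ) ^ (-(10 * (gna_L n : ℝ))) := by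
          rw [← Real.rpow_add hq0]
          congr 1
          ring
        rw [h4]
        apply mul_le_mul _ _ (by positivity) (by positivity)
        · calc (Nat.card F : ℝ) ^ (-(9 / 2) : ℝ) ≤ (Nat.card F : ℝ) ^ (-4 : ℝ) := by
                apply Real.rpow_le_rpow_of_exponent_le _ (by norm_num)
                exact_mod_cast (by omega : 1 ≤ Nat.card F)
            _ = 1 / (Nat.card F : ℝ) ^ 4 := by
                rw [Real.rpow_neg hq0.le, one_div]
                congr 1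
                exact_mod_cast Real.rpow_natCast (Nat.card F : ℝ) 4
        · rw [Real.rpow_neg hq0.le, ← one_div]
          apply one_div_le_one_div_of_le (by positivity)
          calc (n : ℝ) ^ 10 ≤ ((2 : ℝ) ^ gna_L n) ^ 10 := by
                apply pow_le_pow_left₀ hn0.le
                exact_mod_cast (gna_lt_pow n).le
            _ ≤ ((Nat.card F : ℝ) ^ gna_L n) ^ 10 := by
                apply pow_le_pow_left₀ (by positivity)
                apply pow_le_pow_left₀ (by norm_num)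
                exact_mod_cast hq2
            _ = (Nat.card F : ℝ) ^ (10 * (gna_L n : ℝ)) := by
                rw [← pow_mul, ← Real.rpow_natCast]
                congr 1
                push_cast
                ring
      calc ((Nat.card F : ℝ) ^ 2 * (n : ℝ) ^ 4) ^ 2 *
            ((n : ℝ) * (Nat.card F : ℝ) ^ (-(9 + 20 * (gna_L n : ℝ)) / 2))
          ≤ ((Nat.card F : ℝ) ^ 2 * (n : ℝ) ^ 4) ^ 2 *
            ((n : ℝ) * ((1 / (Nat.card F : ℝ) ^ 4) * (1 / (n : ℝ) ^ 10))) := by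
            apply mul_le_mul_of_nonneg_left _ (by positivity)
            exact mul_le_mul_of_nonneg_left h3 hn0.le
        _ = 1 / (n : ℝ) := by field_simp
  have hMc := gna_Mc (Nat.card F) n hq2 (by omega)
  have h3 : (1 / ((Nat.card F ^ 2 * n ^ 4 : ℕ) : ℝ) + Mc (Nat.card F) n (gna_s n)) *
      (12 * (Nat.card F : ℝ) ^ 2 * n * lg (Nat.card F) n) ≤
      156 * (1 / (n : ℝ)) + 2496 * ((n : ℝ) ^ 3 * (2 : ℝ) ^ (-(7 * (n : ℝ) / 16))) := by
    have h4 : 12 * (Nat.card F : ℝ) ^ 2 * n * lg (Nat.card F) n ≤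
        156 * (Nat.card F : ℝ) ^ 2 * (n : ℝ) ^ 3 := by
      calc 12 * (Nat.card F : ℝ) ^ 2 * n * lg (Nat.card F) n
          ≤ 12 * (Nat.card F : ℝ) ^ 2 * n * (13 * (n : ℝ) ^ 2) :=
            mul_le_mul_of_nonneg_left hlg (by positivity)
        _ = _ := by ring
    rw [add_mul]
    apply add_le_add
    · calc 1 / ((Nat.card F ^ 2 * n ^ 4 : ℕ) : ℝ) *
            (12 * (Nat.card F : ℝ) ^ 2 * n * lg (Nat.card F) n)
          ≤ 1 / ((Nat.card F ^ 2 * n ^ 4 : ℕ) : ℝ) * (156 * (Nat.card F : ℝ) ^ 2 * (n : ℝ) ^ 3) :=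
            mul_le_mul_of_nonneg_left h4 (by positivity)
        _ = 156 * (1 / (n : ℝ)) := by
            push_cast
            field_simp
    · have h5 : (0 : ℝ) ≤ 12 * (Nat.card F : ℝ) ^ 2 * n * lg (Nat.card F) n := by positivity
      calc Mc (Nat.card F) n (gna_s n) * (12 * (Nat.card F : ℝ) ^ 2 * n * lg (Nat.card F) n)
          ≤ (2 * (Nat.card F : ℝ) ^ (1 - 7 * (n : ℝ) / 16)) *
            (12 * (Nat.card F : ℝ) ^ 2 * n * lg (Nat.card F) n) :=
            mul_le_mul_of_nonneg_right hMc h5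
        _ ≤ (2 * (Nat.card F : ℝ) ^ (1 - 7 * (n : ℝ) / 16)) *
            (156 * (Nat.card F : ℝ) ^ 2 * (n : ℝ) ^ 3) :=
            mul_le_mul_of_nonneg_left h4 (by positivity)
        _ = 312 * (n : ℝ) ^ 3 * (Nat.card F : ℝ) ^ (3 - 7 * (n : ℝ) / 16) := by
            have h6 : (3 - 7 * (n : ℝ) / 16) = (1 - 7 * (n : ℝ) / 16) + (2 : ℕ) := by
              push_cast
              ring
            rw [h6, Real.rpow_add hq0 (1 - 7 * (n : ℝ) / 16) ((2 : ℕ) : ℝ), Real.rpow_natCast]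
            generalize (Nat.card F : ℝ) ^ (1 - 7 * (n : ℝ) / 16) = w
            ring
        _ ≤ 312 * (n : ℝ) ^ 3 * (2 : ℝ) ^ (3 - 7 * (n : ℝ) / 16) := by
            apply mul_le_mul_of_nonneg_left _ (by positivity)
            apply Real.rpow_le_rpow_of_nonpos (by norm_num) (by exact_mod_cast hq2)
            have : (24 : ℝ) ≤ n := by exact_mod_cast hn24
            linarith
        _ = 2496 * ((n : ℝ) ^ 3 * (2 : ℝ) ^ (-(7 * (n : ℝ) / 16))) := by
            have h6 : (3 - 7 * (n : ℝ) / 16) = ((3 : ℕ) : ℝ) + (-(7 * (n : ℝ) / 16)) := by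
              push_cast
              ring
            rw [h6, Real.rpow_add (by norm_num) ((3 : ℕ) : ℝ) (-(7 * (n : ℝ) / 16)),
              Real.rpow_natCast]
            generalize (2 : ℝ) ^ (-(7 * (n : ℝ) / 16)) = w
            ring
  exact add_le_add hbet h3

lemma gna_ev : ∀ᶠ n : ℕ in Filter.atTop, 2 * (8 + 20 * gna_L n) + 8 ≤ n := by
  filter_upwards [Filter.eventually_ge_atTop 1024] with n hn
  have h1 : 40 * (Nat.log 2 n) + 64 ≤ n := by
    have h2 : 2 ^ Nat.log 2 n ≤ n := Nat.pow_log_le_self 2 (by omega)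
    have h3 : 10 ≤ Nat.log 2 n := Nat.le_log_of_pow_le (by norm_num) (by omega)
    have h4 : ∀ k, 10 ≤ k → 40 * k + 64 ≤ 2 ^ k := by
      intro k hk
      induction k, hk using Nat.le_induction with
      | base => norm_num
      | succ k hk ih => rw [pow_succ]; omega
    exact (h4 _ h3).trans h2
  unfold gna_L
  omega

theorem t_GNA : M_GNA := by
  intro hG ⟨C₁, h1, hS⟩ ⟨C₂, h2, hL⟩
  refine ⟨0, fun ε hε => ?_⟩
  have ht := gna_tendsto C₁ C₂ h1.le
  have he := (ht.eventually_le_const hε).and gna_ev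
  obtain ⟨n₀, hn₀⟩ := Filter.eventually_atTop.1 he
  refine ⟨(n₀ ^ 12) ^ (n₀ ^ 2) + 1, fun n _ F _ _ hq hN => ?_⟩
  by_cases hc : n₀ ≤ n
  · obtain ⟨h3, h4⟩ := hn₀ n hc
    exact (gna_bd C₁ C₂ h1 h2 hG hS hL n h4 F hq).trans h3
  · exfalso
    have h3 := gna_card n F
    have h4 : Nat.card F ^ (n ^ 2) ≤ (n₀ ^ 12) ^ (n₀ ^ 2) := by
      have h5 : n ≤ n₀ := by omega
      calc Nat.card F ^ (n ^ 2) ≤ (n ^ 12) ^ (n ^ 2) := Nat.pow_le_pow_left hq _
        _ ≤ (n₀ ^ 12) ^ (n ^ 2) := Nat.pow_le_pow_left (Nat.pow_le_pow_left h5 12) _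
        _ ≤ (n₀ ^ 12) ^ (n₀ ^ 2) := by
            apply Nat.pow_le_pow_right
            · have : 0 < n₀ := by omega
              positivity
            · exact Nat.pow_le_pow_left h5 2
    omega

end SRJ
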