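import Mathlib
import Pool.Agent.SRJ.StB

/-!
# GNB: two random elements of `SL_n(q)` generate it, the case `q > n ^ 12`
-/

set_option autoImplicit false
set_option maxHeartbeats 4000000

namespace SRJ

open RSF FL0 Polynomial Pool.Agent.Lib_helper13

/-- `log₂ q + 1` -/
def gnb_L (q : ℕ) : ℕ := Nat.log 2 q + 1

lemma gnb_L_pos (q : ℕ) : 1 ≤ gnb_L q := by unfold gnb_L; omega

lemma gnb_lt_pow (q : ℕ) : q < 2 ^ gnb_L q := Nat.lt_pow_succ_log_self (by norm_num) q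

lemma gnb_lg (q n : ℕ) (hn : 1 ≤ n) : lg q n ≤ n * gnb_L q := by
  have h1 : q ^ n < 2 ^ (n * gnb_L q) := by
    calc q ^ n < (2 ^ gnb_L q) ^ n := Nat.pow_lt_pow_left (gnb_lt_pow q) (by omega)
      _ = 2 ^ (n * gnb_L q) := by rw [← pow_mul]; congr 1; ring
  have h0 : 1 ≤ n * gnb_L q := Nat.mul_pos hn (gnb_L_pos q)
  have h2 : Nat.log 2 (q ^ n) < n * gnb_L q := Nat.log_lt_of_lt_pow' (by omega) h1
  unfold lg
  omega

lemma gnb_L_ge (q : ℕ) (hq : 1 ≤ q) : Real.log q ≤ gnb_L q := by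
  have h1 : (q : ℝ) ≤ (2 : ℝ) ^ gnb_L q := by exact_mod_cast (gnb_lt_pow q).le
  have h2 : Real.log q ≤ Real.log ((2 : ℝ) ^ gnb_L q) :=
    Real.log_le_log (by exact_mod_cast hq) h1
  rw [Real.log_pow] at h2
  have h3 : Real.log 2 ≤ 1 := by
    have := Real.log_two_lt_d9
    linarith
  have h4 : (0 : ℝ) ≤ gnb_L q := Nat.cast_nonneg _
  nlinarith

lemma gnb_L_le (q : ℕ) (hq : 1 ≤ q) : (gnb_L q : ℝ) ≤ 65 * (q : ℝ) ^ (1 / 32 : ℝ) := by
  have hn0 : (0 : ℝ) < q := by exact_mod_cast hq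
  have h1 : (Nat.log 2 q : ℝ) ≤ Real.logb 2 q := by
    have := Real.natLog_le_logb q 2
    exact_mod_cast this
  have h2 : Real.logb 2 q ≤ 2 * Real.log q := by
    rw [Real.logb, div_le_iff₀ (Real.log_pos (by norm_num))]
    have h3 : (1 : ℝ) ≤ 2 * Real.log 2 := by
      have := Real.log_two_gt_d9
      linarith
    have h4 : 0 ≤ Real.log q := Real.log_nonneg (by exact_mod_cast hq)
    nlinarith
  have h3 : Real.log q ≤ (q : ℝ) ^ (1 / 32 : ℝ) / (1 / 32 : ℝ) :=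
    Real.log_le_rpow_div hn0.le (by norm_num)
  have h4 : (1 : ℝ) ≤ (q : ℝ) ^ (1 / 32 : ℝ) :=
    Real.one_le_rpow (by exact_mod_cast hq) (by norm_num)
  have h5 : (gnb_L q : ℝ) = Nat.log 2 q + 1 := by simp [gnb_L]
  rw [h5]
  linarith

/-- the error term -/
noncomputable def gnb_g (C : ℝ) (q : ℕ) : ℝ :=
  C * ((gnb_L q : ℝ) ^ 4 * (q : ℝ) ^ (-(1 / 4) : ℝ)) +
    (8 * (1 / (gnb_L q : ℝ)) + 16 * ((gnb_L q : ℝ) * (1 / (q : ℝ))))

lemma gnb_tendsto (C : ℝ) : Filter.Tendsto (gnb_g C) Filter.atTop (nhds 0) := by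
  have hcast := tendsto_natCast_atTop_atTop (R := ℝ)
  have hA : Filter.Tendsto (fun q : ℕ => (gnb_L q : ℝ) ^ 4 * (q : ℝ) ^ (-(1 / 4) : ℝ))
      Filter.atTop (nhds 0) := by
    have h2 : Filter.Tendsto (fun q : ℕ => 65 ^ 4 * (q : ℝ) ^ (-(1 / 8) : ℝ))
        Filter.atTop (nhds 0) := by
      have h3 := (tendsto_rpow_neg_atTop (y := 1 / 8) (by norm_num)).comp hcast
      have h4 := h3.const_mul (65 ^ 4 : ℝ)
      simpa using h4
    refine tendsto_of_tendsto_of_tendsto_of_le_of_le' tendsto_const_nhds h2 ?_ ?_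
    · filter_upwards with q
      positivity
    · filter_upwards [Filter.eventually_ge_atTop 1] with q hq
      have hn0 : (0 : ℝ) < q := by exact_mod_cast hq
      have h3 := gnb_L_le q hq
      have h4 : (gnb_L q : ℝ) ^ 4 ≤ 65 ^ 4 * (q : ℝ) ^ (1 / 8 : ℝ) := by
        calc (gnb_L q : ℝ) ^ 4 ≤ (65 * (q : ℝ) ^ (1 / 32 : ℝ)) ^ 4 :=
              pow_le_pow_left₀ (by positivity) h3 4
          _ = 65 ^ 4 * (q : ℝ) ^ (1 / 8 : ℝ) := by
              rw [mul_pow, ← Real.rpow_natCast ((q : ℝ) ^ (1 / 32 : ℝ)) 4,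
                ← Real.rpow_mul hn0.le]
              norm_num
      calc (gnb_L q : ℝ) ^ 4 * (q : ℝ) ^ (-(1 / 4) : ℝ)
          ≤ (65 ^ 4 * (q : ℝ) ^ (1 / 8 : ℝ)) * (q : ℝ) ^ (-(1 / 4) : ℝ) :=
            mul_le_mul_of_nonneg_right h4 (by positivity)
        _ = 65 ^ 4 * ((q : ℝ) ^ (1 / 8 : ℝ) * (q : ℝ) ^ (-(1 / 4) : ℝ)) := by ring
        _ = 65 ^ 4 * (q : ℝ) ^ (-(1 / 8) : ℝ) := by
            rw [← Real.rpow_add hn0]
            norm_num
  have hB : Filter.Tendsto (fun q : ℕ => 1 / (gnb_L q : ℝ)) Filter.atTop (nhds 0) := by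
    have h1 : Filter.Tendsto (fun q : ℕ => (gnb_L q : ℝ)) Filter.atTop Filter.atTop := by
      refine Filter.tendsto_atTop_mono' _ ?_ (Real.tendsto_log_atTop.comp hcast)
      filter_upwards [Filter.eventually_ge_atTop 1] with q hq
      exact gnb_L_ge q hq
    simp only [one_div]
    exact tendsto_inv_atTop_zero.comp h1
  have hC : Filter.Tendsto (fun q : ℕ => (gnb_L q : ℝ) * (1 / (q : ℝ)))
      Filter.atTop (nhds 0) := by
    have h2 : Filter.Tendsto (fun q : ℕ => 65 * (q : ℝ) ^ (-(31 / 32) : ℝ))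
        Filter.atTop (nhds 0) := by
      have h3 := (tendsto_rpow_neg_atTop (y := 31 / 32) (by norm_num)).comp hcast
      have h4 := h3.const_mul (65 : ℝ)
      simpa using h4
    refine tendsto_of_tendsto_of_tendsto_of_le_of_le' tendsto_const_nhds h2 ?_ ?_
    · filter_upwards with q
      positivity
    · filter_upwards [Filter.eventually_ge_atTop 1] with q hq
      have hn0 : (0 : ℝ) < q := by exact_mod_cast hq
      calc (gnb_L q : ℝ) * (1 / (q : ℝ))
          ≤ (65 * (q : ℝ) ^ (1 / 32 : ℝ)) * (1 / (q : ℝ)) :=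
            mul_le_mul_of_nonneg_right (gnb_L_le q hq) (by positivity)
        _ = 65 * ((q : ℝ) ^ (1 / 32 : ℝ) / (q : ℝ) ^ (1 : ℝ)) := by
            rw [Real.rpow_one]
            ring
        _ = 65 * (q : ℝ) ^ (-(31 / 32) : ℝ) := by
            rw [← Real.rpow_sub hn0]
            norm_num
  have := (hA.const_mul C).add ((hB.const_mul 8).add (hC.const_mul 16))
  simp only [mul_zero, add_zero] at this
  exact this

lemma gnb_card (n : ℕ) (F : Type) [Field F] [Finite F] :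
    Nat.card (PS n F) ≤ Nat.card F ^ (n ^ 2) := by
  have h1 : Nat.card (PS n F) ≤ Nat.card (SL n F) :=
    Nat.card_le_card_of_surjective _ (QuotientGroup.mk_surjective)
  have h2 : Nat.card (SL n F) ≤ Nat.card (Matrix (Fin n) (Fin n) F) :=
    Nat.card_le_card_of_injective (fun y : SL n F => y.1) Subtype.val_injective
  have h3 : Nat.card (Matrix (Fin n) (Fin n) F) = Nat.card F ^ (n ^ 2) := by
    unfold Matrix
    rw [Nat.card_fun, Nat.card_fun, ← pow_mul, Nat.card_eq_fintype_card (α := Fin n),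
      Fintype.card_fin]
    congr 1
    ring
  omega

lemma gnb_smd {F : Type} [Field F] (f : F[X]) : smd 0 f = 0 := by
  classical
  unfold smd
  have h : ((UniqueFactorizationMonoid.factors f).filter fun p => p.natDegree ≤ 0) = 0 := by
    rw [Multiset.filter_eq_nil]
    intro p hp h0
    have h1 : Irreducible p := UniqueFactorizationMonoid.irreducible_of_factor p hp
    have h2 : 0 < p.natDegree := Irreducible.natDegree_pos h1
    omega
  have h' : (Multiset.map natDegree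
      ((UniqueFactorizationMonoid.factors f).filter fun p => p.natDegree ≤ 0)).sum = 0 := by
    rw [h]
    rfl
  convert h' using 3

lemma gnb_Mc (q n : ℕ) (hq : 2 ≤ q) (hn : 8 ≤ n) : Mc q n 0 ≤ 2 * (1 / (q : ℝ) ^ 3) := by
  have hq0 : (0 : ℝ) < q := by
    have : 0 < q := by omega
    exact_mod_cast this
  have hq1 : (1 : ℝ) ≤ q := by
    have : 1 ≤ q := by omega
    exact_mod_cast this
  unfold Mc
  have h2 : (q : ℝ) ^ (n - 1) / 2 ≤ (q : ℝ) ^ (n - 1) - 1 := by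
    have h3 : (2 : ℝ) ≤ (q : ℝ) ^ (n - 1) := by
      have h4 : 2 ≤ q ^ (n - 1) := by
        calc 2 ≤ q := hq
          _ ≤ q ^ (n - 1) := Nat.le_self_pow (by omega) _
      exact_mod_cast h4
    linarith
  have h3 : (0 : ℝ) < (q : ℝ) ^ (n - 1) / 2 := by positivity
  have h4 : (q : ℝ) ^ (n - 1) = (q : ℝ) ^ ((n : ℝ) - 1) := by
    rw [← Real.rpow_natCast]
    congr 1
    rw [Nat.cast_sub (by omega)]
    simp
  have h8 : (8 : ℝ) ≤ n := by exact_mod_cast hn
  calc (q : ℝ) ^ ((((0 : ℕ) : ℝ) ^ 2 + ((0 : ℕ) : ℝ) + n) / 2) / ((q : ℝ) ^ (n - 1) - 1)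
      ≤ (q : ℝ) ^ ((n : ℝ) / 2) / ((q : ℝ) ^ (n - 1) / 2) := by
        apply div_le_div₀ (by positivity) _ h3 h2
        apply le_of_eq
        congr 1
        simp
    _ = 2 * (q : ℝ) ^ (1 - (n : ℝ) / 2) := by
        rw [h4]
        have h5 : (1 - (n : ℝ) / 2) = (n : ℝ) / 2 - ((n : ℝ) - 1) := by ring
        rw [h5, Real.rpow_sub hq0 ((n : ℝ) / 2) ((n : ℝ) - 1), div_div_eq_mul_div,
          mul_comm _ (2 : ℝ), mul_div_assoc]
    _ ≤ 2 * (q : ℝ) ^ (-3 : ℝ) := by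
        apply mul_le_mul_of_nonneg_left _ (by norm_num)
        apply Real.rpow_le_rpow_of_exponent_le hq1
        linarith
    _ = 2 * (1 / (q : ℝ) ^ 3) := by
        congr 1
        rw [Real.rpow_neg hq0.le, one_div]
        congr 1
        exact_mod_cast Real.rpow_natCast (q : ℝ) 3

/-- the bound for given `n`, `q` -/
lemma gnb_bd (C : ℝ) (h2 : 0 < C) (hG : S_GNR)
    (hL : ∀ (n D m : ℕ) (F : Type) [Field F] [Finite F], 2 * D + 8 ≤ n → 1 ≤ m →
      (Nat.card {y : SL n F // ¬ Gd D m y.1.charpoly} : ℝ) ≤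
        C * (m : ℝ) ^ 2 * n * (Nat.card F : ℝ) ^ (-((max (D + 1) 2 : ℕ) : ℝ) / 2) *
          Nat.card (SL n F))
    (n : ℕ) (hn : 8 ≤ n) (F : Type) [Field F] [Finite F]
    (hq : n ^ 12 < Nat.card F) : ngp (SL n F) ≤ gnb_g C (Nat.card F) := by
  have hq2 : 2 ≤ Nat.card F := Finite.one_lt_card
  have hn0 : (0 : ℝ) < n := by
    have : 0 < n := by omega
    exact_mod_cast this
  have hq0 : (0 : ℝ) < Nat.card F := by
    have : 0 < Nat.card F := by omega
    exact_mod_cast this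
  have hq1 : (1 : ℝ) ≤ Nat.card F := by
    have : 1 ≤ Nat.card F := by omega
    exact_mod_cast this
  have hL1 : 1 ≤ gnb_L (Nat.card F) := gnb_L_pos _
  have hL0 : (0 : ℝ) < gnb_L (Nat.card F) := by exact_mod_cast hL1
  have hm1 : 1 ≤ n ^ 4 * gnb_L (Nat.card F) ^ 2 := by
    apply Nat.one_le_iff_ne_zero.2
    have : 0 < n := by omega
    positivity
  have hnd : ¬ (Nat.card F - 1) ∣ n := by
    intro h
    have h3 := Nat.le_of_dvd (by omega) h
    have h4 : n * 2 ≤ n ^ 12 := by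
      calc n * 2 ≤ n * n := Nat.mul_le_mul_left _ (by omega)
        _ = n ^ 2 := by ring
        _ ≤ n ^ 12 := Nat.pow_le_pow_right (by omega) (by norm_num)
    omega
  have hSL : (0 : ℝ) < Nat.card (SL n F) := by
    exact_mod_cast (Nat.card_pos : 0 < Nat.card (SL n F))
  have hg := (hG n F 0 (n ^ 4 * gnb_L (Nat.card F) ^ 2) 0 (by omega) hm1).2 hnd
  refine hg.trans ?_
  have hlg : (lg (Nat.card F) n : ℝ) ≤ (n : ℝ) * gnb_L (Nat.card F) := by
    exact_mod_cast gnb_lg (Nat.card F) n (by omega)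
  have hn12 : (n : ℝ) ^ 12 ≤ Nat.card F := by exact_mod_cast hq.le
  have hbet : bet n F 0 (n ^ 4 * gnb_L (Nat.card F) ^ 2) 0 ≤
      C * ((gnb_L (Nat.card F) : ℝ) ^ 4 * (Nat.card F : ℝ) ^ (-(1 / 4) : ℝ)) := by
    unfold bet
    rw [div_le_iff₀ hSL]
    have h3 : Nat.card {y : SL n F // 0 < smd 0 y.1.charpoly} = 0 := by
      have : IsEmpty {y : SL n F // 0 < smd 0 y.1.charpoly} :=
        ⟨fun y => by have := y.2; rw [gnb_smd] at this; exact lt_irrefl _ this⟩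
      exact Nat.card_of_isEmpty
    rw [h3, Nat.cast_zero, zero_add]
    refine (hL n 0 (n ^ 4 * gnb_L (Nat.card F) ^ 2) F (by omega) hm1).trans ?_
    apply mul_le_mul_of_nonneg_right _ hSL.le
    rw [mul_assoc, mul_assoc]
    apply mul_le_mul_of_nonneg_left _ h2.le
    have hmax : max (0 + 1) 2 = 2 := by norm_num
    rw [hmax]
    push_cast
    have h4 : (Nat.card F : ℝ) ^ (-(2 : ℝ) / 2) = 1 / (Nat.card F : ℝ) := by
      have : (-(2 : ℝ) / 2) = -1 := by norm_num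
      rw [this, Real.rpow_neg_one, one_div]
    rw [h4]
    have h5 : (n : ℝ) ^ 9 ≤ (Nat.card F : ℝ) ^ (3 / 4 : ℝ) := by
      have h6 : ((n : ℝ) ^ 12) ^ (3 / 4 : ℝ) ≤ (Nat.card F : ℝ) ^ (3 / 4 : ℝ) :=
        Real.rpow_le_rpow (by positivity) hn12 (by norm_num)
      have h7 : ((n : ℝ) ^ 12) ^ (3 / 4 : ℝ) = (n : ℝ) ^ 9 := by
        rw [← Real.rpow_natCast (n : ℝ) 12, ← Real.rpow_mul hn0.le,
          ← Real.rpow_natCast (n : ℝ) 9]
        norm_num
      rwa [h7] at h6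
    have h6 : (Nat.card F : ℝ) ^ (-(1 / 4) : ℝ) =
        (Nat.card F : ℝ) ^ (3 / 4 : ℝ) * (1 / (Nat.card F : ℝ)) := by
      have : (-(1 / 4) : ℝ) = 3 / 4 - 1 := by norm_num
      rw [this, Real.rpow_sub hq0, Real.rpow_one, div_eq_mul_one_div]
    rw [h6]
    calc ((n : ℝ) ^ 4 * (gnb_L (Nat.card F) : ℝ) ^ 2) ^ 2 * ((n : ℝ) * (1 / (Nat.card F : ℝ)))
        = (gnb_L (Nat.card F) : ℝ) ^ 4 * ((n : ℝ) ^ 9 * (1 / (Nat.card F : ℝ))) := by ring
      _ ≤ (gnb_L (Nat.card F) : ℝ) ^ 4 *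
          ((Nat.card F : ℝ) ^ (3 / 4 : ℝ) * (1 / (Nat.card F : ℝ))) := by
          apply mul_le_mul_of_nonneg_left _ (by positivity)
          exact mul_le_mul_of_nonneg_right h5 (by positivity)
  have hMc := gnb_Mc (Nat.card F) n hq2 hn
  have h3 : (1 / ((n ^ 4 * gnb_L (Nat.card F) ^ 2 : ℕ) : ℝ) + Mc (Nat.card F) n 0) *
      (8 * (n : ℝ) * lg (Nat.card F) n) ≤
      8 * (1 / (gnb_L (Nat.card F) : ℝ)) +
        16 * ((gnb_L (Nat.card F) : ℝ) * (1 / (Nat.card F : ℝ))) := by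
    have h4 : 8 * (n : ℝ) * lg (Nat.card F) n ≤ 8 * (n : ℝ) ^ 2 * gnb_L (Nat.card F) := by
      calc 8 * (n : ℝ) * lg (Nat.card F) n
          ≤ 8 * (n : ℝ) * ((n : ℝ) * gnb_L (Nat.card F)) :=
            mul_le_mul_of_nonneg_left hlg (by positivity)
        _ = _ := by ring
    have hn1 : (1 : ℝ) ≤ n := by
      have : 1 ≤ n := by omega
      exact_mod_cast this
    rw [add_mul]
    apply add_le_add
    · calc 1 / ((n ^ 4 * gnb_L (Nat.card F) ^ 2 : ℕ) : ℝ) * (8 * (n : ℝ) * lg (Nat.card F) n)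
          ≤ 1 / ((n ^ 4 * gnb_L (Nat.card F) ^ 2 : ℕ) : ℝ) *
            (8 * (n : ℝ) ^ 2 * gnb_L (Nat.card F)) :=
            mul_le_mul_of_nonneg_left h4 (by positivity)
        _ = 8 * (1 / (gnb_L (Nat.card F) : ℝ)) * (1 / (n : ℝ) ^ 2) := by
            push_cast
            field_simp
        _ ≤ 8 * (1 / (gnb_L (Nat.card F) : ℝ)) * 1 := by
            apply mul_le_mul_of_nonneg_left _ (by positivity)
            rw [div_le_one (by positivity)]
            exact one_le_pow₀ hn1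
        _ = _ := by ring
    · have h5 : (0 : ℝ) ≤ 8 * (n : ℝ) * lg (Nat.card F) n := by positivity
      have h6 : (n : ℝ) ^ 2 ≤ Nat.card F :=
        (pow_le_pow_right₀ hn1 (by norm_num)).trans hn12
      calc Mc (Nat.card F) n 0 * (8 * (n : ℝ) * lg (Nat.card F) n)
          ≤ (2 * (1 / (Nat.card F : ℝ) ^ 3)) * (8 * (n : ℝ) * lg (Nat.card F) n) :=
            mul_le_mul_of_nonneg_right hMc h5
        _ ≤ (2 * (1 / (Nat.card F : ℝ) ^ 3)) * (8 * (n : ℝ) ^ 2 * gnb_L (Nat.card F)) :=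
            mul_le_mul_of_nonneg_left h4 (by positivity)
        _ ≤ (2 * (1 / (Nat.card F : ℝ) ^ 3)) *
            (8 * (Nat.card F : ℝ) * gnb_L (Nat.card F)) := by
            apply mul_le_mul_of_nonneg_left _ (by positivity)
            apply mul_le_mul_of_nonneg_right _ hL0.le
            linarith
        _ = 16 * ((gnb_L (Nat.card F) : ℝ) * (1 / (Nat.card F : ℝ))) *
            (1 / (Nat.card F : ℝ)) := by
            field_simp
            ring
        _ ≤ 16 * ((gnb_L (Nat.card F) : ℝ) * (1 / (Nat.card F : ℝ))) * 1 := by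
            apply mul_le_mul_of_nonneg_left _ (by positivity)
            rw [div_le_one hq0]
            exact hq1
        _ = _ := by ring
  exact add_le_add hbet h3

theorem t_GNB : M_GNB := by
  intro hG ⟨C, h2, hL⟩
  refine ⟨8, fun ε hε => ?_⟩
  have he := (gnb_tendsto C).eventually_le_const hε
  obtain ⟨q₀, hq₀⟩ := Filter.eventually_atTop.1 he
  refine ⟨(q₀ + 1) ^ (q₀ ^ 2) + 1, fun n hn F _ _ hq hN => ?_⟩
  by_cases hc : q₀ ≤ Nat.card F
  · exact (gnb_bd C h2 hG hL n hn F hq).trans (hq₀ _ hc)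
  · exfalso
    have h3 := gnb_card n F
    have h5 : n ≤ q₀ := by
      have : n ≤ n ^ 12 := Nat.le_self_pow (by norm_num) n
      omega
    have h4 : Nat.card F ^ (n ^ 2) ≤ (q₀ + 1) ^ (q₀ ^ 2) := by
      calc Nat.card F ^ (n ^ 2) ≤ (q₀ + 1) ^ (n ^ 2) := Nat.pow_le_pow_left (by omega) _
        _ ≤ (q₀ + 1) ^ (q₀ ^ 2) := by
            apply Nat.pow_le_pow_right (by omega)
            exact Nat.pow_le_pow_left h5 2
    omega

end SRJ
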