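import Mathlib
import Pool.Agent.SRJ.StB

set_option autoImplicit false

namespace SRJ

theorem gne_pow {K : Type} [Field K] [Finite K] {x : K} (hx : x ≠ 0) :
    x ^ (Nat.card K - 1) = 1 := by
  have := Fintype.ofFinite K
  rw [Nat.card_eq_fintype_card]
  exact FiniteField.pow_card_sub_one_eq_one x hx

theorem gne_inv {K : Type} [Field K] [Finite K] (S : Subring K) {x : K} (hx : x ∈ S) :
    x⁻¹ ∈ S := by
  by_cases h : x = 0
  · rw [h, inv_zero]
    exact S.zero_mem
  · have h1 := gne_pow h
    have h2 : 1 < Nat.card K := Finite.one_lt_card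
    have h3 : x * x ^ (Nat.card K - 2) = 1 := by
      rw [← pow_succ', ← h1]
      congr 1
      omega
    rw [inv_eq_of_mul_eq_one_right h3]
    exact S.pow_mem hx _

theorem t_GNE : S_GNE := by
  intro K _ _ ξ hξ
  obtain ⟨S, hS⟩ : ∃ S, S = Subring.closure ({ξ} : Set K) := ⟨_, rfl⟩
  rw [← hS]
  have hmem : ξ ∈ S := by rw [hS]; exact Subring.subset_closure rfl
  let L : Subfield K := { S with inv_mem' := fun x hx => gne_inv S hx }
  have h0 : ξ ≠ 0 := by
    intro h
    rw [h, orderOf_zero] at hξ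
    have h2 : 1 < Nat.card K := Finite.one_lt_card
    omega
  have hcard : Nat.card K = Nat.card L ^ Module.finrank L K := Module.natCard_eq_pow_finrank
  have hL : 1 < Nat.card L := Finite.one_lt_card
  have hord : orderOf ξ + 1 ≤ Nat.card L := by
    have hx0 : (⟨ξ, hmem⟩ : L) ≠ 0 := fun h => h0 (congrArg Subtype.val h)
    have h1 : (⟨ξ, hmem⟩ : L) ^ (Nat.card L - 1) = 1 := gne_pow hx0
    have h2 : ξ ^ (Nat.card L - 1) = 1 := congrArg Subtype.val h1
    have h3 := Nat.le_of_dvd (by omega) (orderOf_dvd_of_pow_eq_one h2)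
    omega
  have hfin : Module.finrank L K = 1 := by
    have h1 : 0 < Module.finrank L K := Module.finrank_pos
    by_contra h2
    have h3 : Nat.card L ^ 2 ≤ Nat.card L ^ Module.finrank L K :=
      Nat.pow_le_pow_right (by omega) (by omega)
    have h4 : (orderOf ξ + 1) ^ 2 ≤ Nat.card L ^ 2 := Nat.pow_le_pow_left hord 2
    omega
  rw [hfin, pow_one] at hcard
  refine SetLike.ext' ?_
  refine Set.eq_of_subset_of_ncard_le (Set.subset_univ _) ?_ (Set.toFinite _)
  rw [Subring.coe_top, Set.ncard_univ, hcard]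
  exact le_of_eq rfl

end SRJ
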