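import Mathlib
import Pool.Agent.SRJ.StB

/-!
# Module GNR of project SRJ: generation of `SL_n(q)` by two random elements, assembly
-/

set_option autoImplicit false

namespace SRJ

open RSF FL0 Polynomial Pool.Agent.Lib_helper13

noncomputable section

/-! ## Invariance under conjugation -/

theorem gnr_charpoly {n : ℕ} {F : Type} [Field F] (g t : SL n F) :
    (g * t * g⁻¹).1.charpoly = t.1.charpoly := by
  have h1 : (g * t * g⁻¹).1 = (g.1 * t.1) * (g⁻¹).1 := rfl
  rw [h1, Matrix.charpoly_mul_comm, ← Matrix.mul_assoc]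
  have h2 : (g⁻¹).1 * g.1 = 1 := by
    have : (g⁻¹ * g : SL n F) = 1 := inv_mul_cancel g
    have h3 := congrArg Subtype.val this
    exact h3
  rw [h2, Matrix.one_mul]

theorem gnr_orderOf {G : Type} [Group G] (g t : G) : orderOf (g * t * g⁻¹) = orderOf t := by
  have := (MulAut.conj g).orderOf_eq t
  simpa [MulAut.conj_apply] using this

theorem gnr_TS {n : ℕ} {F : Type} [Field F] (t : SL n F) (h : TS t) (g : SL n F) :
    TS (g * t * g⁻¹) := by
  unfold TS at h ⊢
  rw [gnr_charpoly, gnr_orderOf]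
  exact h

theorem gnr_TZ {n : ℕ} {F : Type} [Field F] (t : SL n F) (h : TZ t) (g : SL n F) :
    TZ (g * t * g⁻¹) := by
  unfold TZ at h ⊢
  rw [gnr_charpoly, gnr_orderOf]
  exact h

theorem gnr_Tv {n : ℕ} {F : Type} [Field F] (t : SL n F) (h : Tv t) (g : SL n F) :
    Tv (g * t * g⁻¹) := by
  obtain ⟨h1, v, w, hwv, ht⟩ := h
  refine ⟨?_, g.1.mulVec v, Matrix.vecMul w (g⁻¹).1, ?_, ?_⟩
  · intro h0
    apply h1
    have : g * t = g := by
      have := congrArg (· * g) h0
      simpa using this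
    simpa using this
  · have h2 : (g⁻¹).1 * g.1 = 1 := by
      have : (g⁻¹ * g : SL n F) = 1 := inv_mul_cancel g
      have h3 := congrArg Subtype.val this
      exact h3
    rw [Matrix.dotProduct_mulVec, Matrix.vecMul_vecMul, h2, Matrix.vecMul_one]
    exact hwv
  · have h4 : g.1 * (g⁻¹).1 = 1 := by
      have : (g * g⁻¹ : SL n F) = 1 := mul_inv_cancel g
      have h3 := congrArg Subtype.val this
      exact h3
    have h1 : (g * t * g⁻¹).1 = (g.1 * t.1) * (g⁻¹).1 := rfl
    rw [h1, ht, Matrix.mul_add, Matrix.mul_one, Matrix.add_mul, h4]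
    congr 1
    rw [Matrix.mul_vecMulVec, Matrix.vecMulVec_mul]

theorem gnr_TT {n : ℕ} {F : Type} [Field F] (t : SL n F) (h : TT t) (g : SL n F) :
    TT (g * t * g⁻¹) := by
  obtain ⟨k, hk⟩ := h
  refine ⟨k, ?_⟩
  rw [conj_pow]
  exact gnr_Tv _ hk g

/-! ## Counting -/

/-- pairs that do not generate -/
theorem gnr_count {G : Type} [Group G] [Fintype G] (A B : Set G) (c : ℝ) (hc : 0 ≤ c)
    (h : ∀ y : G, y ∉ A → y ∉ B →
      (Nat.card {x : G // Subgroup.closure {x, y} ≠ ⊤} : ℝ) ≤ c * Nat.card G) :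
    ngp G ≤ ((Nat.card A : ℝ) + Nat.card B) / Nat.card G + c := by
  classical
  have hG : (0 : ℝ) < Nat.card G := by exact_mod_cast Nat.card_pos
  unfold ngp
  have e1 : Nat.card {p : G × G // Subgroup.closure {p.1, p.2} ≠ ⊤} =
      ∑ y : G, Nat.card {x : G // Subgroup.closure {x, y} ≠ ⊤} := by
    rw [← Nat.card_sigma]
    apply Nat.card_congr
    exact
      { toFun := fun p => ⟨p.1.2, ⟨p.1.1, p.2⟩⟩
        invFun := fun s => ⟨(s.2.1, s.1), s.2.2⟩
        left_inv := fun p => rfl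
        right_inv := fun s => rfl }
  rw [e1]
  push_cast
  have h2 : ∀ y : G, (Nat.card {x : G // Subgroup.closure {x, y} ≠ ⊤} : ℝ) ≤
      c * Nat.card G + (if y ∈ A then (Nat.card G : ℝ) else 0) +
        (if y ∈ B then (Nat.card G : ℝ) else 0) := by
    intro y
    have h3 : (Nat.card {x : G // Subgroup.closure {x, y} ≠ ⊤} : ℝ) ≤ Nat.card G := by
      exact_mod_cast Nat.card_le_card_of_injective
        (fun x : {x : G // Subgroup.closure {x, y} ≠ ⊤} => x.1) Subtype.val_injective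
    have h4 : 0 ≤ c * (Nat.card G : ℝ) := mul_nonneg hc hG.le
    by_cases hA : y ∈ A
    · rw [if_pos hA]
      by_cases hB : y ∈ B
      · rw [if_pos hB]; linarith
      · rw [if_neg hB]; linarith
    · rw [if_neg hA]
      by_cases hB : y ∈ B
      · rw [if_pos hB]; linarith
      · rw [if_neg hB]
        have := h y hA hB
        linarith
  have h5 : ∀ S : Set G, ∑ y : G, (if y ∈ S then (Nat.card G : ℝ) else 0) =
      Nat.card S * Nat.card G := by
    intro S
    rw [← Finset.sum_filter, Finset.sum_const, nsmul_eq_mul]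
    congr 2
    rw [Nat.card_eq_fintype_card, ← Set.toFinset_card]
    congr 1
    ext y
    simp
  have h6 : ∑ y : G, (Nat.card {x : G // Subgroup.closure {x, y} ≠ ⊤} : ℝ) ≤
      (c * Nat.card G + (Nat.card A + Nat.card B)) * Nat.card G := by
    refine (Finset.sum_le_sum fun y _ => h2 y).trans ?_
    rw [Finset.sum_add_distrib, Finset.sum_add_distrib, h5 A, h5 B, Finset.sum_const, nsmul_eq_mul,
      Finset.card_univ, ← Nat.card_eq_fintype_card]
    apply le_of_eq
    ring
  rw [div_le_iff₀ (by positivity)]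
  refine h6.trans (le_of_eq ?_)
  field_simp
  ring

/-- union bound for three sets -/
theorem gnr_union3 {G : Type} [Fintype G] (P Q R S : G → Prop)
    (h : ∀ x, P x → Q x ∨ R x ∨ S x) :
    (Nat.card {x : G // P x} : ℝ) ≤
      Nat.card {x : G // Q x} + Nat.card {x : G // R x} + Nat.card {x : G // S x} := by
  classical
  have h1 : Nat.card {x : G // P x} ≤
      Nat.card {x : G // Q x} + Nat.card {x : G // R x} + Nat.card {x : G // S x} := by
    rw [Nat.card_eq_fintype_card, Nat.card_eq_fintype_card, Nat.card_eq_fintype_card,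
      Nat.card_eq_fintype_card, Fintype.card_subtype, Fintype.card_subtype, Fintype.card_subtype,
      Fintype.card_subtype]
    refine le_trans (Finset.card_le_card (t := (Finset.univ.filter Q ∪ Finset.univ.filter R) ∪
      Finset.univ.filter S) ?_) ?_
    · intro x hx
      simp only [Finset.mem_filter, Finset.mem_univ, true_and, Finset.mem_union] at hx ⊢
      rcases h x hx with h | h | h
      · exact Or.inl (Or.inl h)
      · exact Or.inl (Or.inr h)
      · exact Or.inr h
    · refine (Finset.card_union_le _ _).trans ?_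
      exact Nat.add_le_add_right (Finset.card_union_le _ _) _
  exact_mod_cast h1

/-- union bound for two sets -/
theorem gnr_union2 {G : Type} [Fintype G] (P Q R : G → Prop)
    (h : ∀ x, P x → Q x ∨ R x) :
    (Nat.card {x : G // P x} : ℝ) ≤
      Nat.card {x : G // Q x} + Nat.card {x : G // R x} := by
  classical
  have h1 : Nat.card {x : G // P x} ≤
      Nat.card {x : G // Q x} + Nat.card {x : G // R x} := by
    rw [Nat.card_eq_fintype_card, Nat.card_eq_fintype_card, Nat.card_eq_fintype_card,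
      Fintype.card_subtype, Fintype.card_subtype, Fintype.card_subtype]
    refine le_trans (Finset.card_le_card (t := Finset.univ.filter Q ∪ Finset.univ.filter R) ?_) ?_
    · intro x hx
      simp only [Finset.mem_filter, Finset.mem_univ, true_and, Finset.mem_union] at hx ⊢
      exact h x hx
    · exact Finset.card_union_le _ _
  exact_mod_cast h1

/-- the bound for one type -/
theorem gnr_one (hSEC : S_SEC) {G : Type} [Group G] [Fintype G] (P : G → Prop)
    (hP : ∀ t, P t → ∀ g, P (g * t * g⁻¹)) (y : G) (M : ℝ) (m : ℕ) (hm : 1 ≤ m) (hM : 0 ≤ M)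
    (hX : ∀ X : G → ℂ, IsIrr X → X ≠ (fun _ => 1) → ∀ k, 1 ≤ k → k < m → ‖X (y ^ k)‖ ≤ M * ‖X 1‖)
    (c : ℝ) (hc : (Nat.card G : ℝ) ≤ c * Nat.card {y : G // P y}) :
    (Nat.card {x : G // ∀ i < m, ¬ P (x * y ^ i)} : ℝ) ≤ (1 / (m : ℝ) + M) * c * Nat.card G := by
  have h1 := hSEC G {t | P t} hP y M m hM hX
  have hG : (0 : ℝ) < Nat.card G := by exact_mod_cast Nat.card_pos
  have hm' : (0 : ℝ) < m := by exact_mod_cast hm
  have hPpos : (0 : ℝ) < Nat.card {y : G // P y} := by
    rcases (Nat.cast_nonneg (α := ℝ) (Nat.card {y : G // P y})).lt_or_eq with h | h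
    · exact h
    · rw [← h] at hc
      linarith
  have h2 : (Nat.card {x : G // ∀ i < m, ¬ P (x * y ^ i)} : ℝ) *
      (m * Nat.card {y : G // P y}) ≤ (Nat.card G : ℝ) ^ 2 * (1 + M * m) := h1
  set p : ℝ := (Nat.card {y : G // P y} : ℝ)
  set a : ℝ := (Nat.card {x : G // ∀ i < m, ¬ P (x * y ^ i)} : ℝ)
  set g : ℝ := (Nat.card G : ℝ)
  have h3 : a * (m * p) ≤ ((1 / (m : ℝ) + M) * c * g) * (m * p) := by
    refine h2.trans ?_
    have h4 : ((1 / (m : ℝ) + M) * c * g) * (m * p) = (g * (c * p)) * (1 + M * m) := by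
      field_simp
    rw [h4, pow_two]
    have h5 : g * g ≤ g * (c * p) := mul_le_mul_of_nonneg_left hc hG.le
    have h6 : 0 ≤ 1 + M * m := by positivity
    exact mul_le_mul_of_nonneg_right h5 h6
  exact le_of_mul_le_mul_right h3 (by positivity)

theorem t_GNR : M_GNR := by
  intro hSEC hCOR hMIN hPWC hDS hDZ hDT hTRN hGTV hHOM n F _ _ D m s hn hm
  classical
  have : Fintype (SL n F) := Fintype.ofFinite _
  set q : ℕ := Nat.card F with hq
  have hq2 : 2 ≤ q := by
    rw [hq]
    exact Finite.one_lt_card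
  have hqR : (2 : ℝ) ≤ (q : ℝ) := by exact_mod_cast hq2
  have hn3 : 3 ≤ n := by omega
  -- the denominator of `Mc`
  have hden : (0 : ℝ) < (q : ℝ) ^ (n - 1) - 1 := by
    have h1 : (1 : ℝ) < (q : ℝ) ^ (n - 1) := one_lt_pow₀ (by linarith) (by omega)
    linarith
  have hMc : 0 ≤ Mc q n s := by
    unfold Mc
    apply div_nonneg _ hden.le
    positivity
  have hm' : (0 : ℝ) < m := by exact_mod_cast hm
  have hK : 0 ≤ 1 / (m : ℝ) + Mc q n s := by positivity
  -- the character bound
  have hX : ∀ y : SL n F, Gd D m y.1.charpoly → smd D y.1.charpoly ≤ s →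
      ∀ X : SL n F → ℂ, IsIrr X → X ≠ (fun _ => 1) → ∀ k, 1 ≤ k → k < m →
        ‖X (y ^ k)‖ ≤ Mc q n s * ‖X 1‖ := by
    intro y hy1 hy2 X hX1 hX2 k hk1 hk2
    have h1 := hCOR (SL n F) X (y ^ k) hX1
    have h2 := hPWC n F D m y hy1 k hk1 hk2
    have h3 : (Nat.card {z : SL n F // z * y ^ k = y ^ k * z} : ℝ) ≤
        (q : ℝ) ^ (s ^ 2 + s + n) := by
      have h4 : Nat.card {z : SL n F // z * y ^ k = y ^ k * z} ≤ q ^ (s ^ 2 + s + n) := by
        refine h2.trans ?_
        apply Nat.pow_le_pow_right (by omega)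
        have := Nat.pow_le_pow_left hy2 2
        omega
      exact_mod_cast h4
    have h5 : ‖X (y ^ k)‖ ^ 2 ≤ (q : ℝ) ^ (s ^ 2 + s + n) := h1.trans h3
    have h6 : ‖X (y ^ k)‖ ≤ (q : ℝ) ^ (((s : ℝ) ^ 2 + s + n) / 2) := by
      have h7 : ((q : ℝ) ^ (((s : ℝ) ^ 2 + s + n) / 2)) ^ 2 = (q : ℝ) ^ (s ^ 2 + s + n) := by
        rw [← Real.rpow_natCast ((q : ℝ) ^ (((s : ℝ) ^ 2 + s + n) / 2)) 2, ← Real.rpow_mul (by linarith),
          ← Real.rpow_natCast (q : ℝ) (s ^ 2 + s + n)]
        congr 1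
        push_cast
        ring
      rw [← h7] at h5
      exact le_of_sq_le_sq h5 (by positivity)
    have h8 := hMIN n hn3 F X hX1 hX2
    rw [← hq] at h8
    unfold Mc
    rw [div_mul_eq_mul_div, le_div_iff₀ hden]
    calc ‖X (y ^ k)‖ * ((q : ℝ) ^ (n - 1) - 1)
        ≤ (q : ℝ) ^ (((s : ℝ) ^ 2 + s + n) / 2) * ((q : ℝ) ^ (n - 1) - 1) :=
          mul_le_mul_of_nonneg_right h6 hden.le
      _ ≤ (q : ℝ) ^ (((s : ℝ) ^ 2 + s + n) / 2) * ‖X 1‖ :=
          mul_le_mul_of_nonneg_left h8 (by positivity)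
  -- the three sets
  set L : ℝ := (n : ℝ) * lg q n with hL
  have hL0 : 0 ≤ L := by positivity
  have cS : (Nat.card (SL n F) : ℝ) ≤ 4 * L * Nat.card {y : SL n F // TS y} := by
    have h := hDS n F hn3
    have h' : (Nat.card (SL n F) : ℝ) ≤ 4 * n * lg (Nat.card F) n * Nat.card {y : SL n F // TS y} := by
      exact_mod_cast h
    rw [← hq] at h'
    refine h'.trans (le_of_eq ?_)
    rw [hL]; ring
  have cZ : (Nat.card (SL n F) : ℝ) ≤ 4 * L * Nat.card {y : SL n F // TZ y} := by
    have h := hDZ n F hn3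
    have h' : (Nat.card (SL n F) : ℝ) ≤ 4 * n * lg (Nat.card F) n * Nat.card {y : SL n F // TZ y} := by
      exact_mod_cast h
    rw [← hq] at h'
    refine h'.trans (le_of_eq ?_)
    rw [hL]; ring
  have cT : (Nat.card (SL n F) : ℝ) ≤ 4 * (q : ℝ) ^ 2 * L * Nat.card {y : SL n F // TT y} := by
    have h := hDT n F hn
    have h' : (Nat.card (SL n F) : ℝ) ≤
        4 * (Nat.card F : ℝ) ^ 2 * n * lg (Nat.card F) n * Nat.card {y : SL n F // TT y} := by
      exact_mod_cast h
    rw [← hq] at h'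
    refine h'.trans (le_of_eq ?_)
    rw [hL]; ring
  have bS := fun (y : SL n F) (h1 : Gd D m y.1.charpoly) (h2 : smd D y.1.charpoly ≤ s) =>
    gnr_one hSEC (G := SL n F) TS gnr_TS y (Mc q n s) m hm hMc (hX y h1 h2) (4 * L) cS
  have bZ := fun (y : SL n F) (h1 : Gd D m y.1.charpoly) (h2 : smd D y.1.charpoly ≤ s) =>
    gnr_one hSEC (G := SL n F) TZ gnr_TZ y (Mc q n s) m hm hMc (hX y h1 h2) (4 * L) cZ
  have bT := fun (y : SL n F) (h1 : Gd D m y.1.charpoly) (h2 : smd D y.1.charpoly ≤ s) =>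
    gnr_one hSEC (G := SL n F) TT gnr_TT y (Mc q n s) m hm hMc (hX y h1 h2) (4 * (q : ℝ) ^ 2 * L) cT
  have hmem : ∀ (x y : SL n F) (i : ℕ), x * y ^ i ∈ Subgroup.closure {x, y} := by
    intro x y i
    apply Subgroup.mul_mem
    · exact Subgroup.subset_closure (by simp)
    · exact Subgroup.pow_mem _ (Subgroup.subset_closure (by simp)) i
  constructor
  · have h0 := gnr_count (G := SL n F) {y | s < smd D y.1.charpoly} {y | ¬ Gd D m y.1.charpoly}
      ((1 / (m : ℝ) + Mc q n s) * (12 * (q : ℝ) ^ 2 * L)) (by positivity) ?_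
    · unfold bet
      refine h0.trans (le_of_eq ?_)
      rw [hL]
      simp only [Set.coe_ofPred]
      ring
    · intro y hyA hyB
      simp only [Set.mem_ofPred_eq, not_lt, not_not] at hyA hyB
      have h1 := gnr_union3 (G := SL n F) (fun x => Subgroup.closure {x, y} ≠ ⊤)
        (fun x => ∀ i < m, ¬ TS (x * y ^ i)) (fun x => ∀ i < m, ¬ TZ (x * y ^ i))
        (fun x => ∀ i < m, ¬ TT (x * y ^ i)) ?_
      · have h2 := bS y hyB hyA
        have h3 := bZ y hyB hyA
        have h4 := bT y hyB hyA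
        refine h1.trans ((add_le_add (add_le_add h2 h3) h4).trans ?_)
        have h5 : (1 : ℝ) ≤ (q : ℝ) ^ 2 := one_le_pow₀ (by linarith)
        have h6 : 0 ≤ (1 / (m : ℝ) + Mc q n s) * L * Nat.card (SL n F) := by positivity
        nlinarith [mul_le_mul_of_nonneg_right h5 h6]
      · intro x hx
        by_contra hcon
        push Not at hcon
        obtain ⟨⟨i, _, hi⟩, ⟨j, _, hj⟩, ⟨k, _, ⟨l, hl⟩⟩⟩ := hcon
        apply hx
        have hT := hTRN n F (Subgroup.closure {x, y}) _ _ hn3 (hmem x y i) hi (hmem x y j) hj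
        exact hGTV n F (Subgroup.closure {x, y}) _ _ hn3 hT (hmem x y j) hj
          (Subgroup.pow_mem _ (hmem x y k) l) hl
  · intro hdiv
    have h0 := gnr_count (G := SL n F) {y | s < smd D y.1.charpoly} {y | ¬ Gd D m y.1.charpoly}
      ((1 / (m : ℝ) + Mc q n s) * (8 * L)) (by positivity) ?_
    · unfold bet
      refine h0.trans (le_of_eq ?_)
      rw [hL]
      simp only [Set.coe_ofPred]
      ring
    · intro y hyA hyB
      simp only [Set.mem_ofPred_eq, not_lt, not_not] at hyA hyB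
      have h1 := gnr_union2 (G := SL n F) (fun x => Subgroup.closure {x, y} ≠ ⊤)
        (fun x => ∀ i < m, ¬ TS (x * y ^ i)) (fun x => ∀ i < m, ¬ TZ (x * y ^ i)) ?_
      · have h2 := bS y hyB hyA
        have h3 := bZ y hyB hyA
        refine h1.trans ((add_le_add h2 h3).trans (le_of_eq ?_))
        ring
      · intro x hx
        by_contra hcon
        push Not at hcon
        obtain ⟨⟨i, _, hi⟩, ⟨j, _, hj⟩⟩ := hcon
        apply hx
        have hT := hTRN n F (Subgroup.closure {x, y}) _ _ hn3 (hmem x y i) hi (hmem x y j) hj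
        obtain ⟨t, ht1, ht2⟩ := hHOM n F (Subgroup.closure {x, y}) _ hn3 hT (hmem x y j) hj hdiv
        exact hGTV n F (Subgroup.closure {x, y}) _ _ hn3 hT (hmem x y j) hj ht1 ht2

end

end SRJ
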