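import Mathlib
import Pool.Agent.SRJ.StB

/-!
# GTV: transvections
-/

set_option autoImplicit false

namespace SRJ

open RSF FL0 Polynomial Pool.Agent.Lib_helper13 Matrix

section

variable {n : ℕ} {F : Type} [Field F]

theorem gtv_det (v w : Fin n → F) (h : w ⬝ᵥ v = 0) : (1 + vecMulVec v w).det = 1 := by
  rw [vecMulVec_eq Unit, det_one_add_replicateCol_mul_replicateRow, h, add_zero]

theorem gtv_mul (g h : SL n F) : (g * h).1 = g.1 * h.1 := rfl

theorem gtv_one : (1 : SL n F).1 = 1 := rfl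

theorem gtv_inv (g : SL n F) : g.1 * (g⁻¹).1 = 1 := by
  rw [← gtv_mul, mul_inv_cancel, gtv_one]

theorem gtv_inv' (g : SL n F) : (g⁻¹).1 * g.1 = 1 := by
  rw [← gtv_mul, inv_mul_cancel, gtv_one]

theorem gtv_conj (g T : SL n F) (v w : Fin n → F) (hT : T.1 = 1 + vecMulVec v w) :
    (g * T * g⁻¹).1 = 1 + vecMulVec (g.1.mulVec v) (vecMul w (g⁻¹).1) := by
  rw [gtv_mul, gtv_mul, hT, mul_add, mul_one, add_mul,
    gtv_inv, mul_vecMulVec, vecMulVec_mul]

theorem gtv_fun (L : (Fin n → F) →ₗ[F] F) (v : Fin n → F) :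
    (fun i => L (Pi.single i 1)) ⬝ᵥ v = L v := by
  conv_rhs => rw [← Finset.univ_sum_single v]
  rw [map_sum, dotProduct]
  apply Finset.sum_congr rfl
  intro i _
  have h : (Pi.single i (v i) : Fin n → F) = v i • Pi.single i 1 := by
    rw [← Pi.single_smul, smul_eq_mul, mul_one]
  rw [h, map_smul, smul_eq_mul, mul_comm]

/-- the diagonal element with `a` at the place `i` and `a⁻¹` at the place `j` -/
theorem gtv_two (H : Subgroup (SL n F))
    (hH : ∀ v w : Fin n → F, w ⬝ᵥ v = 0 → ∃ g ∈ H, g.1 = 1 + vecMulVec v w) (i j : Fin n)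
    (hij : i ≠ j) (a : F) (ha : a ≠ 0) :
    ∃ g ∈ H, g.1 = diagonal (fun k => if k = i then a else if k = j then a⁻¹ else 1) := by
  have key : ∀ (i j : Fin n), i ≠ j → ∀ c : F, ∃ g ∈ H, ∀ x : Fin n → F, ∀ k,
      (g.1.mulVec x) k = if k = i then x i + c * x j else x k := by
    intro i j hij c
    obtain ⟨g, hg, h⟩ := hH (Pi.single i c) (Pi.single j 1) (by
      rw [single_dotProduct, Pi.single_apply, if_neg (Ne.symm hij), mul_zero])
    refine ⟨g, hg, fun x k => ?_⟩
    rw [h, add_mulVec, one_mulVec, vecMulVec_mulVec, single_dotProduct, one_mul, Pi.add_apply,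
      Pi.smul_apply, op_smul_eq_smul, smul_eq_mul, Pi.single_apply]
    by_cases hk : k = i
    · rw [if_pos hk, if_pos hk, hk, mul_comm]
    · rw [if_neg hk, if_neg hk, mul_zero, add_zero]
  have hji : j ≠ i := Ne.symm hij
  obtain ⟨g1, hg1, h1⟩ := key i j hij a
  obtain ⟨g2, hg2, h2⟩ := key j i hji (-a⁻¹)
  obtain ⟨g3, hg3, h3⟩ := key i j hij (a - 1)
  obtain ⟨g4, hg4, h4⟩ := key j i hji 1
  obtain ⟨g5, hg5, h5⟩ := key i j hij (-1)
  refine ⟨g1 * (g2 * (g3 * (g4 * g5))), H.mul_mem hg1 (H.mul_mem hg2 (H.mul_mem hg3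
    (H.mul_mem hg4 hg5))), ?_⟩
  apply ext_of_mulVec_single
  intro l
  generalize (Pi.single l 1 : Fin n → F) = x
  funext k
  rw [gtv_mul, gtv_mul, gtv_mul,
    gtv_mul, ← mulVec_mulVec, ← mulVec_mulVec, ← mulVec_mulVec,
    ← mulVec_mulVec, mulVec_diagonal]
  simp only [h1, h2, h3, h4, h5, if_true, if_neg hij, if_neg hji]
  by_cases hk : k = i
  · subst hk
    simp only [if_true]
    field_simp
    ring
  · by_cases hk' : k = j
    · subst hk'
      simp only [if_neg hji, if_true]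
      field_simp
      ring
    · simp only [if_neg hk, if_neg hk', one_mul]

theorem gtv_top [NeZero n] (H : Subgroup (SL n F))
    (hH : ∀ v w : Fin n → F, w ⬝ᵥ v = 0 → ∃ g ∈ H, g.1 = 1 + vecMulVec v w) : H = ⊤ := by
  rw [eq_top_iff]
  intro g _
  suffices h : ∃ g' ∈ H, g'.1 = g.1 by
    obtain ⟨g', hg', h⟩ := h
    rwa [← Subtype.ext h]
  refine diagonal_transvection_induction (fun A => ∃ g' ∈ H, g'.1 = A) g.1 ?_ ?_ ?_
  · intro D hD
    rw [g.2, det_diagonal] at hD
    have hD0 : ∀ i, D i ≠ 0 := by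
      intro i hi
      rw [Finset.prod_eq_zero (Finset.mem_univ i) hi] at hD
      exact zero_ne_one hD
    have key : ∀ s : Finset (Fin n), (0 : Fin n) ∉ s → ∃ g' ∈ H, g'.1 = diagonal (fun k =>
        if k ∈ s then D k else if k = 0 then (∏ i ∈ s, D i)⁻¹ else 1) := by
      intro s
      induction s using Finset.induction_on with
      | empty =>
        intro _
        refine ⟨1, H.one_mem, ?_⟩
        rw [gtv_one, ← diagonal_one]
        congr 1
        funext k
        simp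
      | insert i s hi ih =>
        intro h0
        have h0s : (0 : Fin n) ∉ s := fun h => h0 (Finset.mem_insert_of_mem h)
        have h0i : i ≠ 0 := fun h => h0 (by rw [← h]; exact Finset.mem_insert_self _ _)
        obtain ⟨g1, hg1, e1⟩ := ih h0s
        obtain ⟨g2, hg2, e2⟩ := gtv_two H hH i 0 h0i (D i) (hD0 i)
        refine ⟨g1 * g2, H.mul_mem hg1 hg2, ?_⟩
        rw [gtv_mul, e1, e2, diagonal_mul_diagonal]
        congr 1
        funext k
        by_cases hk : k = i
        · subst hk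
          simp [hi, h0i]
        · by_cases hk0 : k = 0
          · subst hk0
            rw [if_neg h0s, if_pos rfl, if_neg hk, if_pos rfl, if_neg h0, if_pos rfl,
              Finset.prod_insert hi, mul_inv, mul_comm]
          · by_cases hks : k ∈ s
            · rw [if_pos hks, if_neg hk, if_neg hk0, if_pos (Finset.mem_insert_of_mem hks),
                mul_one]
            · have hki : k ∉ insert i s := by
                rw [Finset.mem_insert]
                push Not
                exact ⟨hk, hks⟩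
              rw [if_neg hks, if_neg hk0, if_neg hk, if_neg hk0, if_neg hki, if_neg hk0, mul_one]
    obtain ⟨g', hg', e⟩ := key (Finset.univ.erase 0) (Finset.notMem_erase _ _)
    refine ⟨g', hg', ?_⟩
    rw [e]
    congr 1
    funext k
    by_cases hk : k = 0
    · subst hk
      rw [if_neg (Finset.notMem_erase _ _), if_pos rfl]
      have := Finset.mul_prod_erase Finset.univ D (Finset.mem_univ 0)
      rw [hD] at this
      rw [← eq_inv_of_mul_eq_one_left this]
    · rw [if_pos (Finset.mem_erase.2 ⟨hk, Finset.mem_univ _⟩)]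
  · intro t
    obtain ⟨g', hg', e⟩ := hH (Pi.single t.i t.c) (Pi.single t.j 1) (by
      rw [single_dotProduct, Pi.single_apply, if_neg t.hij.symm, mul_zero])
    refine ⟨g', hg', ?_⟩
    rw [e, TransvectionStruct.toMatrix, transvection]
    congr 1
    ext a b
    rw [vecMulVec_apply, single_apply, Pi.single_apply, Pi.single_apply]
    by_cases ha : a = t.i
    · by_cases hb : b = t.j
      · simp [ha, hb]
      · simp [ha, hb, Ne.symm hb]
    · simp [ha, Ne.symm ha]
  · rintro A B ⟨a, ha, rfl⟩ ⟨b, hb, rfl⟩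
    exact ⟨a * b, H.mul_mem ha hb, gtv_mul a b⟩

end

/-- the order of the multiplier -/
theorem gtv_ord {F K : Type} [Field F] [Finite F] [Field K] [Algebra F K] [Finite K] (n : ℕ)
    (hn : 3 ≤ n) (θ : K) (hK : Module.finrank F K = n - 1)
    (hθ : orderOf θ = Nat.card F ^ (n - 1) - 1) :
    Nat.card K < (orderOf (algebraMap F K (Algebra.norm F θ)⁻¹ * θ⁻¹) + 1) ^ 2 := by
  set q := Nat.card F with hq
  have hq2 : 2 ≤ q := Finite.one_lt_card
  set M := nu q (n - 1) with hM
  have hcard : Nat.card K = q ^ (n - 1) := by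
    rw [← hK, hq]
    exact Module.natCard_eq_pow_finrank
  have hnorm : algebraMap F K (Algebra.norm F θ) = θ ^ M := by
    rw [FiniteField.algebraMap_norm_eq_pow_sum, hK, hM, nu, hq]
  have hxi : algebraMap F K (Algebra.norm F θ)⁻¹ * θ⁻¹ = (θ ^ (M + 1))⁻¹ := by
    rw [map_inv₀, hnorm, ← mul_inv, ← pow_succ]
  have hMq : (q - 1) * M = q ^ (n - 1) - 1 := by
    have h1 : (∑ i ∈ Finset.range (n - 1), q ^ i) * (q - 1) = q ^ (n - 1) - 1 := by
      have := Nat.geomSum_eq hq2 (n - 1)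
      rw [this]
      exact Nat.div_mul_cancel (by simpa using Nat.sub_dvd_pow_sub_pow q 1 (n - 1))
    rw [mul_comm, hM, nu, h1]
  have hθ0 : θ ≠ 0 := by
    intro h
    rw [h, orderOf_zero] at hθ
    have h1 : q ^ 1 ≤ q ^ (n - 1) := Nat.pow_le_pow_right (by omega) (by omega)
    rw [pow_one] at h1
    omega
  have hMlow : q ^ (n - 2) ≤ M := by
    rw [hM, nu]
    exact Finset.single_le_sum (f := fun i => q ^ i) (fun i _ => Nat.zero_le _)
      (Finset.mem_range.2 (by omega))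
  rw [hxi]
  set ξ := (θ ^ (M + 1))⁻¹ with hξ
  have hξ0 : ξ ≠ 0 := inv_ne_zero (pow_ne_zero _ hθ0)
  have hpos : 0 < orderOf ξ := by
    rw [orderOf_pos_iff, isOfFinOrder_iff_pow_eq_one]
    refine ⟨Nat.card K - 1, ?_, ?_⟩
    · have : 1 < Nat.card K := Finite.one_lt_card
      omega
    · have := Fintype.ofFinite K
      rw [Nat.card_eq_fintype_card]
      exact FiniteField.pow_card_sub_one_eq_one ξ hξ0
  have hk := pow_orderOf_eq_one ξ
  have h1 : θ ^ ((M + 1) * orderOf ξ) = 1 := by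
    rw [hξ, inv_pow, inv_eq_one, ← pow_mul] at hk
    exact hk
  have h2 : M ∣ (M + 1) * orderOf ξ := by
    have h3 := orderOf_dvd_of_pow_eq_one h1
    rw [hθ, ← hMq] at h3
    exact (Dvd.intro_left _ rfl).trans h3
  have h3 : M ∣ orderOf ξ := by
    have hc : Nat.Coprime M (M + 1) := by simp
    exact hc.dvd_of_dvd_mul_left h2
  have h4 : M ≤ orderOf ξ := Nat.le_of_dvd hpos h3
  rw [hcard]
  have h5 : q ^ (n - 1) ≤ (q ^ (n - 2)) ^ 2 := by
    rw [← pow_mul]
    exact Nat.pow_le_pow_right (by omega) (by omega)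
  have h6 : (q ^ (n - 2)) ^ 2 < (orderOf ξ + 1) ^ 2 := Nat.pow_lt_pow_left (by omega) (by norm_num)
  omega

theorem t_GTV : M_GTV := by
  intro hSTZ hGNE n F _ _ H z t hn hTrp hz hTZ ht hTv
  have : NeZero n := ⟨by omega⟩
  obtain ⟨K, _, _, _, θ, e, hK, hθ, he⟩ := hSTZ n F z hn hTZ
  have : FiniteDimensional F K := Module.Finite.of_finite
  have hord := gtv_ord n hn θ hK hθ
  set lam : F := (Algebra.norm F θ)⁻¹ with hlam
  set ξ : K := algebraMap F K lam * θ⁻¹ with hξ
  have hclos := hGNE K ξ hord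
  have hθ0 : θ ≠ 0 := by
    intro h
    rw [h, orderOf_zero] at hθ
    have hq2 : 2 ≤ Nat.card F := Finite.one_lt_card
    have h1 : Nat.card F ^ 1 ≤ Nat.card F ^ (n - 1) := Nat.pow_le_pow_right (by omega) (by omega)
    rw [pow_one] at h1
    omega
  set v₁ : Fin n → F := e.symm (1, 0) with hv₁
  have hv₁0 : v₁ ≠ 0 := by
    intro h
    rw [hv₁, LinearEquiv.map_eq_zero_iff] at h
    exact one_ne_zero (congrArg Prod.fst h)
  have hzv : z.1.mulVec v₁ = lam • v₁ := by
    apply e.injective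
    rw [he, map_smul, hv₁, LinearEquiv.apply_symm_apply]
    ext <;> simp
  let L : K → (Fin n → F) →ₗ[F] F := fun κ =>
    (Algebra.trace F K).comp ((LinearMap.mulLeft F κ).comp
      ((LinearMap.snd F F K).comp e.toLinearMap))
  have hL : ∀ κ v, L κ v = Algebra.trace F K (κ * (e v).2) := fun κ v => rfl
  let ph : K → (Fin n → F) := fun κ i => L κ (Pi.single i 1)
  have hph : ∀ κ v, ph κ ⬝ᵥ v = Algebra.trace F K (κ * (e v).2) := fun κ v =>
    gtv_fun (L κ) v
  have hph1 : ∀ κ, ph κ ⬝ᵥ v₁ = 0 := by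
    intro κ
    rw [hph, hv₁, LinearEquiv.apply_symm_apply, mul_zero, map_zero]
  have hadd : ∀ κ κ', ph (κ + κ') = ph κ + ph κ' := by
    intro κ κ'
    apply dotProduct_eq
    intro u
    rw [add_dotProduct, hph, hph, hph, add_mul, map_add]
  have hneg : ∀ κ, ph (-κ) = - ph κ := by
    intro κ
    apply dotProduct_eq
    intro u
    rw [neg_dotProduct, hph, hph, neg_mul, map_neg]
  -- every functional that vanishes at `v₁` is of this form
  have hsurj : ∀ φ : Fin n → F, φ ⬝ᵥ v₁ = 0 → ∃ κ, ph κ = φ := by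
    intro φ hφ
    let ψ : K →ₗ[F] F :=
      { toFun := fun x => φ ⬝ᵥ e.symm (0, x)
        map_add' := fun x y => by
          have : ((0 : F), x + y) = (0, x) + (0, y) := by simp
          rw [this, map_add, dotProduct_add]
        map_smul' := fun c x => by
          have : ((0 : F), c • x) = c • ((0 : F), x) := by simp
          rw [this, map_smul, dotProduct_smul, RingHom.id_apply] }
    obtain ⟨κ, hκ⟩ := ((Algebra.traceForm F K).toDual (traceForm_nondegenerate F K)).surjective ψ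
    refine ⟨κ, dotProduct_eq _ _ fun u => ?_⟩
    have h1 : Algebra.trace F K (κ * (e u).2) = ψ (e u).2 := by
      rw [← hκ, LinearMap.BilinForm.toDual_def, Algebra.traceForm_apply]
    rw [hph, h1]
    have h2 : u = (e u).1 • v₁ + e.symm (0, (e u).2) := by
      apply e.injective
      rw [map_add, map_smul, hv₁, LinearEquiv.apply_symm_apply, LinearEquiv.apply_symm_apply]
      ext <;> simp
    conv_rhs => rw [h2]
    rw [dotProduct_add, dotProduct_smul, hφ, smul_zero, zero_add]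
    rfl
  -- the set of the multipliers
  set P : (Fin n → F) → Prop := fun φ => ∃ g ∈ H, g.1 = 1 + vecMulVec v₁ φ with hP
  have Padd : ∀ φ ψ, φ ⬝ᵥ v₁ = 0 → P φ → P ψ → P (φ + ψ) := by
    rintro φ ψ h0 ⟨g, hg, eg⟩ ⟨g', hg', eg'⟩
    refine ⟨g * g', H.mul_mem hg hg', ?_⟩
    rw [gtv_mul, eg, eg', add_mul, one_mul, mul_add, mul_one,
      vecMulVec_mul_vecMulVec, h0, zero_smul, vecMulVec_zero, add_zero, vecMulVec_add]
    abel
  have Pneg : ∀ φ, φ ⬝ᵥ v₁ = 0 → P φ → P (-φ) := by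
    rintro φ h0 ⟨g, hg, eg⟩
    refine ⟨g⁻¹, H.inv_mem hg, ?_⟩
    have h1 : g.1 * (1 + vecMulVec v₁ (-φ)) = 1 := by
      rw [eg, add_mul, one_mul, mul_add, mul_one, vecMulVec_mul_vecMulVec, h0, zero_smul,
        vecMulVec_zero, add_zero, vecMulVec_neg]
      abel
    calc (g⁻¹).1 = (g⁻¹).1 * (g.1 * (1 + vecMulVec v₁ (-φ))) := by rw [h1, mul_one]
      _ = 1 + vecMulVec v₁ (-φ) := by rw [← mul_assoc, gtv_inv', one_mul]
  have Pz : ∀ κ, P (ph κ) → P (ph (ξ * κ)) := by
    rintro κ ⟨g, hg, eg⟩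
    refine ⟨z * g * z⁻¹, H.mul_mem (H.mul_mem hz hg) (H.inv_mem hz), ?_⟩
    rw [gtv_conj z g _ _ eg, hzv, smul_vecMulVec, ← vecMulVec_smul]
    congr 2
    apply dotProduct_eq
    intro u
    rw [smul_dotProduct, ← dotProduct_mulVec, hph, hph]
    have h1 : (e ((z⁻¹).1.mulVec u)).2 = θ⁻¹ * (e u).2 := by
      have h2 := he ((z⁻¹).1.mulVec u)
      rw [mulVec_mulVec, gtv_inv, one_mulVec] at h2
      have h3 : (e u).2 = θ * (e ((z⁻¹).1.mulVec u)).2 := by rw [h2]
      rw [h3, inv_mul_cancel_left₀ hθ0]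
    rw [h1, ← map_smul, hξ, Algebra.smul_def]
    congr 1
    ring
  let S : Subring K :=
    { carrier := {ρ | ∀ κ, P (ph κ) → P (ph (ρ * κ))}
      mul_mem' := by
        intro a b ha hb κ hκ
        rw [mul_assoc]
        exact ha _ (hb _ hκ)
      one_mem' := by
        intro κ hκ
        rwa [one_mul]
      add_mem' := by
        intro a b ha hb κ hκ
        rw [add_mul, hadd]
        exact Padd _ _ (hph1 _) (ha _ hκ) (hb _ hκ)
      zero_mem' := by
        intro κ hκ
        have h1 : ph (0 * κ) = ph κ + - ph κ := by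
          rw [← hneg, ← hadd]
          congr 1
          ring
        rw [h1]
        exact Padd _ _ (hph1 _) hκ (Pneg _ (hph1 _) hκ)
      neg_mem' := by
        intro a ha κ hκ
        rw [neg_mul, hneg]
        exact Pneg _ (hph1 _) (ha _ hκ) }
  have hS : ∀ ρ : K, ρ ∈ S := by
    intro ρ
    have h1 : Subring.closure {ξ} ≤ S := by
      rw [Subring.closure_le, Set.singleton_subset_iff]
      exact Pz
    exact h1 (by rw [hclos]; exact Subring.mem_top ρ)
  -- the transvection in `H`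
  obtain ⟨ht1, v, w, hwv, htvw⟩ := hTv
  have hv0 : v ≠ 0 := by
    rintro rfl
    apply ht1
    apply Subtype.ext
    rw [htvw, zero_vecMulVec, add_zero]
    rfl
  have hw0 : w ≠ 0 := by
    rintro rfl
    apply ht1
    apply Subtype.ext
    rw [htvw, vecMulVec_zero, add_zero]
    rfl
  obtain ⟨h, hh, c, hc, hhv⟩ := hTrp v v₁ hv0 hv₁0
  have hφ0 : P (c • vecMul w (h⁻¹).1) := by
    refine ⟨h * t * h⁻¹, H.mul_mem (H.mul_mem hh ht) (H.inv_mem hh), ?_⟩
    rw [gtv_conj h t _ _ htvw, hhv, smul_vecMulVec, ← vecMulVec_smul]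
  have hφ1 : (c • vecMul w (h⁻¹).1) ⬝ᵥ v₁ = 0 := by
    rw [smul_dotProduct, ← dotProduct_smul, ← hhv, ← dotProduct_mulVec, mulVec_mulVec, gtv_inv',
      one_mulVec, hwv]
  have hφ2 : c • vecMul w (h⁻¹).1 ≠ 0 := by
    intro h0
    apply hw0
    have h1 : vecMul w (h⁻¹).1 = 0 := (smul_eq_zero.1 h0).resolve_left hc
    have h2 : vecMul (vecMul w (h⁻¹).1) h.1 = 0 := by rw [h1, zero_vecMul]
    rwa [vecMul_vecMul, gtv_inv', vecMul_one] at h2
  obtain ⟨κ₀, hκ₀⟩ := hsurj _ hφ1
  have hκ0 : κ₀ ≠ 0 := by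
    rintro rfl
    apply hφ2
    rw [← hκ₀]
    apply dotProduct_eq
    intro u
    rw [hph, zero_mul, map_zero, zero_dotProduct]
  have hall : ∀ φ : Fin n → F, φ ⬝ᵥ v₁ = 0 → P φ := by
    intro φ hφ
    obtain ⟨κ, rfl⟩ := hsurj φ hφ
    have h1 := hS (κ * κ₀⁻¹) κ₀ (by rw [hκ₀]; exact hφ0)
    rwa [mul_assoc, inv_mul_cancel₀ hκ0, mul_one] at h1
  apply gtv_top
  intro v w hwv
  by_cases hv : v = 0
  · refine ⟨1, H.one_mem, ?_⟩
    rw [hv, zero_vecMulVec, add_zero]
    rfl
  obtain ⟨h, hh, c, hc, hhv⟩ := hTrp v₁ v hv₁0 hv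
  obtain ⟨g, hg, eg⟩ := hall (c⁻¹ • vecMul w h.1) (by
    rw [smul_dotProduct, ← dotProduct_mulVec, hhv, dotProduct_smul, hwv, smul_zero, smul_zero])
  refine ⟨h * g * h⁻¹, H.mul_mem (H.mul_mem hh hg) (H.inv_mem hh), ?_⟩
  rw [gtv_conj h g _ _ eg, hhv, smul_vecMulVec, ← vecMulVec_smul, smul_vecMul, vecMul_vecMul,
    gtv_inv, vecMul_one, smul_smul, mul_inv_cancel₀ hc, one_smul]

end SRJ
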