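import Mathlib
import Pool.Agent.SRJ.StB

/-!
# HOM: homologies
-/

set_option autoImplicit false

namespace SRJ

open RSF FL0 Polynomial Pool.Agent.Lib_helper13

noncomputable section

section

variable {n : ℕ} {F : Type} [Field F]

/-- `ν (1 + v ⊗ f)` -/
def hom_M (ν : F) (v f : Fin n → F) : Matrix (Fin n) (Fin n) F :=
  ν • (1 + Matrix.vecMulVec v f)

theorem hom_M_mulVec (ν : F) (v f w : Fin n → F) :
    (hom_M ν v f).mulVec w = ν • (w + (f ⬝ᵥ w) • v) := by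
  unfold hom_M
  rw [Matrix.smul_mulVec, Matrix.add_mulVec, Matrix.one_mulVec, Matrix.vecMulVec_mulVec,
    op_smul_eq_smul]

theorem hom_M_mul (ν : F) (v f : Fin n → F) (A : Matrix (Fin n) (Fin n) F) :
    hom_M ν v f * A = ν • (A + Matrix.vecMulVec v (Matrix.vecMul f A)) := by
  unfold hom_M
  rw [Matrix.smul_mul, Matrix.add_mul, Matrix.one_mul, Matrix.vecMulVec_mul]

theorem hom_mul_M (ν : F) (v f : Fin n → F) (A : Matrix (Fin n) (Fin n) F) :
    A * hom_M ν v f = ν • (A + Matrix.vecMulVec (A.mulVec v) f) := by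
  unfold hom_M
  rw [Matrix.mul_smul, Matrix.mul_add, Matrix.mul_one, Matrix.mul_vecMulVec]

/-- cancellation on the right -/
theorem hom_cancel (g : SL n F) (A B : Matrix (Fin n) (Fin n) F) (h : A * g.1 = B * g.1) : A = B := by
  have h1 : g.1 * (g⁻¹).1 = 1 := congrArg Subtype.val (mul_inv_cancel g)
  calc A = A * (g.1 * (g⁻¹).1) := by rw [h1, Matrix.mul_one]
    _ = B * (g.1 * (g⁻¹).1) := by rw [← Matrix.mul_assoc, h, Matrix.mul_assoc]
    _ = B := by rw [h1, Matrix.mul_one]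

theorem hom_inv_mul (g : SL n F) : g.1 * (g⁻¹).1 = 1 ∧ (g⁻¹).1 * g.1 = 1 := by
  exact ⟨congrArg Subtype.val (mul_inv_cancel g), congrArg Subtype.val (inv_mul_cancel g)⟩

/-- conjugation -/
theorem hom_conj (h g : SL n F) (ν c : F) (v w f : Fin n → F) (hg : g.1 = hom_M ν v f)
    (hv : h.1.mulVec v = c • w) :
    (h * g * h⁻¹).1 = hom_M ν w (c • Matrix.vecMul f (h⁻¹).1) := by
  apply hom_cancel h
  have e1 : (h * g * h⁻¹).1 * h.1 = h.1 * g.1 := by
    have e2 : (h * g * h⁻¹ * h : SL n F) = h * g := by group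
    exact congrArg Subtype.val e2
  rw [e1, hg, hom_mul_M, hom_M_mul, hv, Matrix.smul_vecMul, Matrix.vecMul_vecMul, (hom_inv_mul h).2,
    Matrix.vecMul_one]
  congr 2
  ext i j
  simp only [Matrix.vecMulVec_apply, Pi.smul_apply, smul_eq_mul]
  ring

/-- uniqueness -/
theorem hom_unique (H : Subgroup (SL n F)) (hH : ∀ t ∈ H, ¬ Tv t) (ν τ : F) (v f f' : Fin n → F)
    (hv : v ≠ 0) (g g' : SL n F) (hg : g ∈ H) (hg' : g' ∈ H) (h1 : g.1 = hom_M ν v f)
    (h2 : g'.1 = hom_M ν v f') (hf : f ⬝ᵥ v = τ) (hf' : f' ⬝ᵥ v = τ) : f = f' := by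
  by_contra hne
  have hd : (f - f') ⬝ᵥ v = 0 := by rw [sub_dotProduct, hf, hf', sub_self]
  have ht : (g * g'⁻¹).1 = 1 + Matrix.vecMulVec v (f - f') := by
    apply hom_cancel g'
    have e2 : (g * g'⁻¹ * g' : SL n F) = g := by group
    have e1 : (g * g'⁻¹).1 * g'.1 = g.1 := congrArg Subtype.val e2
    rw [e1, h1, h2, hom_mul_M]
    unfold hom_M
    congr 1
    rw [Matrix.add_mulVec, Matrix.one_mulVec, Matrix.vecMulVec_mulVec, hd, MulOpposite.op_zero,
      zero_smul, add_zero]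
    ext i j
    simp only [Matrix.add_apply, Matrix.vecMulVec_apply, Pi.sub_apply]
    ring
  refine hH (g * g'⁻¹) (H.mul_mem hg (H.inv_mem hg')) ⟨?_, v, f - f', hd, ht⟩
  intro h0
  rw [h0] at ht
  have h3 : Matrix.vecMulVec v (f - f') = 0 := by
    have h4 : (1 : Matrix (Fin n) (Fin n) F) = 1 + Matrix.vecMulVec v (f - f') := by
      simpa using ht
    exact left_eq_add.1 h4
  have hv' : ∃ i, v i ≠ 0 := by
    by_contra hc
    push Not at hc
    exact hv (funext hc)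
  obtain ⟨i, hi⟩ := hv'
  apply hne
  ext j
  have h5 := congrFun (congrFun h3 i) j
  rw [Matrix.vecMulVec_apply] at h5
  have h6 : (f - f') j = 0 := (mul_eq_zero.1 h5).resolve_left hi
  rw [Pi.sub_apply] at h6
  exact sub_eq_zero.1 h6

end

/-- the powers in the model -/
theorem hom_pow {n : ℕ} {F K : Type} [Field F] [Field K] [Algebra F K] (y : SL n F) (θ : K)
    (e : (Fin n → F) ≃ₗ[F] (F × K))
    (h : ∀ v, e (y.1.mulVec v) = ((Algebra.norm F θ)⁻¹ * (e v).1, θ * (e v).2)) (k : ℕ)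
    (v : Fin n → F) :
    e ((y ^ k).1.mulVec v) = ((Algebra.norm F θ)⁻¹ ^ k * (e v).1, θ ^ k * (e v).2) := by
  induction k with
  | zero => simp
  | succ k ih =>
    have h1 : (y ^ (k + 1)).1 = y.1 * (y ^ k).1 := by
      rw [pow_succ']
      rfl
    rw [h1, ← Matrix.mulVec_mulVec, h, ih]
    simp only [pow_succ']
    ext
    · simp only; ring
    · simp only; ring

theorem t_HOM : M_HOM := by
  intro hSTZ hINC n F _ _ H z hn hT hz hTZ hq
  by_contra hcon
  have hH : ∀ t ∈ H, ¬ Tv t := fun t ht h => hcon ⟨t, ht, h⟩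
  obtain ⟨K, _, _, _, θ, e, hK, hθ, he⟩ := hSTZ n F z hn hTZ
  have hq2 : 2 ≤ Nat.card F := Finite.one_lt_card
  obtain ⟨q, hqq⟩ : ∃ q, q = Nat.card F := ⟨_, rfl⟩
  rw [← hqq] at hq hq2 hθ
  obtain ⟨M, hM⟩ : ∃ M, M = nu q (n - 1) := ⟨_, rfl⟩
  obtain ⟨ν, hν⟩ : ∃ ν : F, ν = Algebra.norm F θ := ⟨_, rfl⟩
  -- the norm
  have hnorm : algebraMap F K ν = θ ^ M := by
    rw [hν, FiniteField.algebraMap_norm_eq_pow_sum, hK, hM, nu, hqq]
  have hgeo : M * (q - 1) = q ^ (n - 1) - 1 := by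
    rw [hM, nu]
    have h1 := geom_sum_mul_add (q - 1) (n - 1)
    rw [show q - 1 + 1 = q by omega] at h1
    omega
  have hMpos : 0 < M := by
    rw [hM, nu]
    have h1 : (0 : ℕ) ∈ Finset.range (n - 1) := Finset.mem_range.2 (by omega)
    have h2 := Finset.single_le_sum (f := fun i => q ^ i) (fun i _ => Nat.zero_le _) h1
    simp only [pow_zero] at h2
    omega
  have hord : orderOf ν = q - 1 := by
    have h1 : orderOf (algebraMap F K ν) = orderOf ν :=
      orderOf_injective (algebraMap F K).toMonoidHom (algebraMap F K).injective ν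
    rw [← h1, hnorm, orderOf_pow_of_dvd hMpos.ne' (by rw [hθ, ← hgeo]; exact Dvd.intro _ rfl), hθ,
      ← hgeo, Nat.mul_div_cancel_left _ hMpos]
  have hνq : ν ^ q = ν := by
    have h1 : ν ^ (q - 1) = 1 := by rw [← hord]; exact pow_orderOf_eq_one ν
    have h2 : q = (q - 1) + 1 := by omega
    rw [h2, pow_succ, h1, one_mul]
  have hν0 : ν ≠ 0 := by
    intro h0
    have h1 : ν ^ (q - 1) = 1 := by rw [← hord]; exact pow_orderOf_eq_one ν
    rw [h0, zero_pow (by omega)] at h1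
    exact zero_ne_one h1
  have hνqi : ∀ i, ν ^ (q ^ i) = ν := by
    intro i
    induction i with
    | zero => simp
    | succ i ih => rw [pow_succ, pow_mul, ih, hνq]
  have hνM : ν ^ M = ν ^ (n - 1) := by
    rw [hM, nu, ← Finset.prod_pow_eq_pow_sum]
    rw [Finset.prod_congr rfl fun i _ => hνqi i, Finset.prod_const, Finset.card_range]
  have hνn : ν ^ n ≠ 1 := by
    intro h
    exact hq (by rw [← hord]; exact orderOf_dvd_of_pow_eq_one h)
  -- the homology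
  obtain ⟨τ, hτ⟩ : ∃ τ : F, τ = (ν⁻¹) ^ n - 1 := ⟨_, rfl⟩
  have hτ0 : τ ≠ 0 := by
    intro h
    rw [hτ, sub_eq_zero, inv_pow] at h
    exact hνn (inv_eq_one.1 h)
  obtain ⟨v₁, hv₁⟩ : ∃ v₁, v₁ = e.symm (1, 0) := ⟨_, rfl⟩
  have hev₁ : e v₁ = (1, 0) := by rw [hv₁, LinearEquiv.apply_symm_apply]
  have hv₁0 : v₁ ≠ 0 := by
    intro h
    rw [h, map_zero] at hev₁
    have := congrArg Prod.fst hev₁
    exact zero_ne_one this
  let L : (Fin n → F) →ₗ[F] F := τ • (LinearMap.fst F F K ∘ₗ e.toLinearMap)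
  have hL : ∀ v, L v = τ * (e v).1 := fun v => rfl
  let f₁ : Fin n → F := fun i => L (Pi.single i 1)
  have hf₁ : ∀ v, f₁ ⬝ᵥ v = τ * (e v).1 := by
    intro v
    rw [← hL, LinearMap.pi_apply_eq_sum_univ L v]
    simp only [dotProduct, f₁, smul_eq_mul]
    refine Finset.sum_congr rfl fun i _ => ?_
    rw [mul_comm]
    congr 2
    ext j
    simp [Pi.single_apply, eq_comm]
  have hzM : (z ^ M).1 = hom_M ν v₁ f₁ := by
    apply Matrix.ext_of_mulVec_single
    intro i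
    apply e.injective
    rw [hom_pow z θ e he, hom_M_mulVec, map_smul, map_add, map_smul, hev₁, hf₁, ← hnorm, ← hν, inv_pow, hνM]
    have hnn : ν * ν ^ (n - 1) = ν ^ n := by
      rw [← pow_succ']
      congr 1
      omega
    ext
    · simp only [Prod.smul_fst, Prod.fst_add, smul_eq_mul, hτ, mul_one]
      have h3 : (ν⁻¹) ^ n * ν = (ν ^ (n - 1))⁻¹ := by
        rw [inv_pow, ← hnn, mul_inv, mul_comm, ← mul_assoc, mul_inv_cancel₀ hν0, one_mul]
      rw [← h3]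
      ring
    · simp only [Prod.smul_snd, Prod.snd_add, smul_zero, add_zero]
      rw [Algebra.smul_def]
  have hzMH : z ^ M ∈ H := H.pow_mem hz M
  have hf₁v₁ : f₁ ⬝ᵥ v₁ = τ := by rw [hf₁, hev₁, mul_one]
  -- existence
  have hex : ∀ v : Fin n → F, v ≠ 0 → ∃ f : Fin n → F, f ⬝ᵥ v = τ ∧ ∃ g ∈ H, g.1 = hom_M ν v f := by
    intro v hv
    obtain ⟨h, hh, c, hc, hcv⟩ := hT v₁ v hv₁0 hv
    refine ⟨c • Matrix.vecMul f₁ (h⁻¹).1, ?_, h * z ^ M * h⁻¹,
      H.mul_mem (H.mul_mem hh hzMH) (H.inv_mem hh), hom_conj h (z ^ M) ν c v₁ v f₁ hzM hcv⟩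
    rw [smul_dotProduct, ← Matrix.dotProduct_mulVec]
    have h1 : (h⁻¹).1.mulVec v = c⁻¹ • v₁ := by
      have h2 : (h⁻¹).1.mulVec (h.1.mulVec v₁) = v₁ := by
        rw [Matrix.mulVec_mulVec, (hom_inv_mul h).2, Matrix.one_mulVec]
      rw [hcv, Matrix.mulVec_smul] at h2
      rw [← h2, smul_smul, inv_mul_cancel₀ hc, one_smul]
    rw [h1, dotProduct_smul, hf₁v₁, smul_smul, mul_inv_cancel₀ hc, one_smul]
  choose! a ha using hex
  refine hINC n F hn a ?_ ?_
  · intro v hv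
    rw [(ha v hv).1]
    exact hτ0
  · intro v w hv hw hvw
    obtain ⟨hav, gv, hgv, hgv1⟩ := ha v hv
    obtain ⟨haw, gw, hgw, hgw1⟩ := ha w hw
    have h1 : gv.1.mulVec w = ν • w := by
      rw [hgv1, hom_M_mulVec, hvw, zero_smul, add_zero]
    have h2 := hom_conj gv gw ν ν w w (a w) hgw1 h1
    have h3 : (gv⁻¹).1.mulVec w = ν⁻¹ • w := by
      have h4 : (gv⁻¹).1.mulVec (gv.1.mulVec w) = w := by
        rw [Matrix.mulVec_mulVec, (hom_inv_mul gv).2, Matrix.one_mulVec]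
      rw [h1, Matrix.mulVec_smul] at h4
      rw [← h4, smul_smul, inv_mul_cancel₀ hν0, one_smul, h4]
    have h5 : (ν • Matrix.vecMul (a w) (gv⁻¹).1) ⬝ᵥ w = τ := by
      rw [smul_dotProduct, ← Matrix.dotProduct_mulVec, h3, dotProduct_smul, haw, smul_smul,
        mul_inv_cancel₀ hν0, one_smul]
    have h6 : ν • Matrix.vecMul (a w) (gv⁻¹).1 = a w :=
      hom_unique H hH ν τ w _ _ hw (gv * gw * gv⁻¹) gw
        (H.mul_mem (H.mul_mem hgv hgw) (H.inv_mem hgv)) hgw h2 hgw1 h5 haw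
    have h7 : Matrix.vecMul (a w) gv.1 = ν • a w := by
      have h8 := congrArg (fun x => Matrix.vecMul x gv.1) h6
      simp only [Matrix.smul_vecMul, Matrix.vecMul_vecMul, (hom_inv_mul gv).2, Matrix.vecMul_one] at h8
      exact h8.symm
    have h9 : Matrix.vecMul (a w) gv.1 ⬝ᵥ v = ν * (a w ⬝ᵥ v) := by
      rw [h7, smul_dotProduct, smul_eq_mul]
    rw [← Matrix.dotProduct_mulVec, hgv1, hom_M_mulVec, hav, dotProduct_smul, dotProduct_add,
      dotProduct_smul, smul_eq_mul, smul_eq_mul] at h9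
    have h10 : a w ⬝ᵥ v + τ * (a w ⬝ᵥ v) = a w ⬝ᵥ v := mul_left_cancel₀ hν0 h9
    have h11 : τ * (a w ⬝ᵥ v) = 0 := by
      linear_combination h10
    exact (mul_eq_zero.1 h11).resolve_left hτ0

end

end SRJ
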