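import Mathlib
import Pool.Agent.SRJ.StB

/-!
# The vanishing relation of the functionals `a v` is contradictory (module INC)

The proof of `S_INC`: the 0-1 matrix `B` of the relation `a v ⬝ᵥ w = 0` on the nonzero vectors, over `ZMod p`,
satisfies `B ^ 2 = - J`, `B J = - J`, so the trace of `B ^ p` is `± 1`, but it is the `p`-th power of the trace of `B`,
which is `0`.
-/

set_option autoImplicit false

namespace SRJ

open Matrix

noncomputable section

/-- The number of the `x` with `u ⬝ᵥ x = 0 = u' ⬝ᵥ x` is divisible by the characteristic. -/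
theorem inc_card (n : ℕ) (F : Type) [Field F] [Fintype F] [DecidableEq F] (p : ℕ) [Fact p.Prime]
    [CharP F p] (hn : 3 ≤ n) (u u' : Fin n → F) :
    p ∣ Fintype.card {x : Fin n → F // u ⬝ᵥ x = 0 ∧ u' ⬝ᵥ x = 0} := by
  classical
  let f : (Fin n → F) →ₗ[F] (Fin 2 → F) :=
    LinearMap.pi ![dotProductBilin F F u, dotProductBilin F F u']
  have hf : ∀ x, x ∈ LinearMap.ker f ↔ u ⬝ᵥ x = 0 ∧ u' ⬝ᵥ x = 0 := by
    intro x
    rw [LinearMap.mem_ker]
    constructor
    · intro h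
      exact ⟨congrFun h 0, congrFun h 1⟩
    · rintro ⟨h1, h2⟩
      funext i
      fin_cases i
      · exact h1
      · exact h2
  have h1 : Fintype.card {x : Fin n → F // u ⬝ᵥ x = 0 ∧ u' ⬝ᵥ x = 0} = Nat.card (LinearMap.ker f) := by
    rw [Nat.card_eq_fintype_card]
    exact Fintype.card_congr (Equiv.subtypeEquivRight fun x => (hf x).symm)
  have h2 : Module.finrank F (LinearMap.range f) + Module.finrank F (LinearMap.ker f) = n := by
    rw [LinearMap.finrank_range_add_finrank_ker, Module.finrank_fin_fun]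
  have h3 : Module.finrank F (LinearMap.range f) ≤ 2 := by
    refine (Submodule.finrank_le _).trans ?_
    rw [Module.finrank_fin_fun]
  rw [h1, Module.natCard_eq_pow_finrank (K := F)]
  refine dvd_pow ?_ (by omega)
  rw [Nat.card_eq_fintype_card]
  exact (CharP.cast_eq_zero_iff F p _).1 (Nat.cast_card_eq_zero F)

/-- The number of the `x ≠ 0` with `u ⬝ᵥ x = 0 = u' ⬝ᵥ x` is `- 1` modulo the characteristic. -/
theorem inc_sum (n : ℕ) (F : Type) [Field F] [Fintype F] [DecidableEq F] (p : ℕ) [Fact p.Prime]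
    [CharP F p] (hn : 3 ≤ n) (u u' : Fin n → F) :
    ∑ x : {x : Fin n → F // x ≠ 0}, (if u ⬝ᵥ x.1 = 0 ∧ u' ⬝ᵥ x.1 = 0 then (1 : ZMod p) else 0) = -1 := by
  classical
  have h1 := inc_card n F p hn u u'
  rw [← ZMod.natCast_eq_zero_iff, Fintype.card_subtype, Finset.card_filter, Nat.cast_sum] at h1
  have h2 : ∑ x : Fin n → F, (if u ⬝ᵥ x = 0 ∧ u' ⬝ᵥ x = 0 then (1 : ZMod p) else 0) = 0 := by
    refine Eq.trans (Finset.sum_congr rfl fun x _ => ?_) h1
    by_cases h : u ⬝ᵥ x = 0 ∧ u' ⬝ᵥ x = 0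
    · rw [if_pos h, if_pos h, Nat.cast_one]
    · rw [if_neg h, if_neg h, Nat.cast_zero]
  have h3 := Fintype.sum_subtype_add_sum_subtype (fun x : Fin n → F => x ≠ 0)
    (fun x => if u ⬝ᵥ x = 0 ∧ u' ⬝ᵥ x = 0 then (1 : ZMod p) else 0)
  rw [h2] at h3
  have h4 : ∑ x : {x : Fin n → F // ¬ x ≠ 0},
      (if u ⬝ᵥ x.1 = 0 ∧ u' ⬝ᵥ x.1 = 0 then (1 : ZMod p) else 0) = 1 := by
    rw [Fintype.sum_eq_single (⟨0, fun h => h rfl⟩ : {x : Fin n → F // ¬ x ≠ 0})
      fun x hx => absurd (Subtype.ext (not_not.1 x.2)) hx]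
    exact if_pos ⟨dotProduct_zero _, dotProduct_zero _⟩
  rw [h4] at h3
  exact eq_neg_of_add_eq_zero_left h3

theorem t_INC : S_INC := by
  intro n F _ _ hn a ha hs
  classical
  have := Fintype.ofFinite F
  obtain ⟨p, hpF⟩ := CharP.exists F
  have hp : Fact p.Prime := ⟨(CharP.char_is_prime_or_zero F p).resolve_right (CharP.char_ne_zero_of_finite F p)⟩
  let V := {x : Fin n → F // x ≠ 0}
  let B : Matrix V V (ZMod p) := fun v w => if a v.1 ⬝ᵥ w.1 = 0 then 1 else 0
  let J : Matrix V V (ZMod p) := fun _ _ => 1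
  have hsymm : ∀ v w : V, (a v.1 ⬝ᵥ w.1 = 0 ↔ a w.1 ⬝ᵥ v.1 = 0) := fun v w =>
    ⟨hs v.1 w.1 v.2 w.2, hs w.1 v.1 w.2 v.2⟩
  have hBB : B * B = -J := by
    ext v w
    rw [Matrix.mul_apply]
    change _ = -(1 : ZMod p)
    rw [← inc_sum n F p hn (a v.1) (a w.1)]
    refine Finset.sum_congr rfl fun x _ => ?_
    change (if a v.1 ⬝ᵥ x.1 = 0 then (1 : ZMod p) else 0) * (if a x.1 ⬝ᵥ w.1 = 0 then 1 else 0) = _
    rw [ite_zero_mul_ite_zero, one_mul]
    refine if_congr ?_ rfl rfl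
    rw [hsymm x w]
  have hBJ : B * J = -J := by
    ext v w
    rw [Matrix.mul_apply]
    change _ = -(1 : ZMod p)
    rw [← inc_sum n F p hn (a v.1) (a v.1)]
    refine Finset.sum_congr rfl fun x _ => ?_
    change (if a v.1 ⬝ᵥ x.1 = 0 then (1 : ZMod p) else 0) * 1 = _
    rw [mul_one]
    exact if_congr (and_self_iff).symm rfl rfl
  have hpow : ∀ k : ℕ, B ^ (k + 2) = (-1 : ZMod p) ^ (k + 1) • J := by
    intro k
    induction k with
    | zero => rw [zero_add, pow_two, hBB, zero_add, pow_one, neg_smul, one_smul]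
    | succ k ih =>
      rw [show k + 1 + 2 = (k + 2) + 1 from rfl, pow_succ', ih, Matrix.mul_smul, hBJ, pow_succ (-1 : ZMod p) (k + 1),
        mul_smul, neg_smul, one_smul]
  have htr : B.trace = 0 := by
    rw [Matrix.trace]
    refine Finset.sum_eq_zero fun v _ => ?_
    exact if_neg (ha v.1 v.2)
  have hV : ∑ _x : V, (1 : ZMod p) = -1 := by
    refine Eq.trans (Finset.sum_congr rfl fun x _ => ?_) (inc_sum n F p hn 0 0)
    rw [if_pos ⟨zero_dotProduct _, zero_dotProduct _⟩]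
  have h1 := ZMod.trace_pow_card B
  rw [htr, zero_pow hp.out.ne_zero] at h1
  obtain ⟨k, hk⟩ : ∃ k, p = k + 2 := ⟨p - 2, by have := hp.out.two_le; omega⟩
  have h2 : (B ^ p).trace = (-1 : ZMod p) ^ (k + 1) * (-1) := by
    rw [show B ^ p = B ^ (k + 2) from congrArg (B ^ ·) hk, hpow k, Matrix.trace_smul, smul_eq_mul]
    exact congrArg _ hV
  rw [h1] at h2
  have h3 : IsUnit ((-1 : ZMod p) ^ (k + 1) * (-1)) :=
    ((isUnit_one.neg).pow _).mul isUnit_one.neg
  rw [← h2] at h3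
  exact h3.ne_zero rfl

end

end SRJ
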