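import Mathlib
import Pool.Agent.SRJ.StA
import Pool.Agent.FL0.CNT0
import Pool.Agent.FL0.LFH

/-!
# Module `LTP`: the variance in `PSL_n`
-/

set_option autoImplicit false

namespace SRJ

open RSF FL0

theorem ltp_cs {G H : Type} [Fintype G] [Fintype H] [DecidableEq H] (φ : G → H) (z : ℕ)
    (hz : ∀ h, Fintype.card {g // φ g = h} = z) (f : G → ℝ) (a : ℝ) :
    ∑ h, (∑ g : {g // φ g = h}, f g - z * a) ^ 2 ≤ z * ∑ g, (f g - a) ^ 2 := by
  rw [← Fintype.sum_fiberwise φ, Finset.mul_sum]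
  refine Finset.sum_le_sum fun h _ => ?_
  have h1 : ∑ g : {g // φ g = h}, f g - z * a = ∑ g : {g // φ g = h}, (f g - a) := by
    rw [Finset.sum_sub_distrib, Finset.sum_const, Finset.card_univ, hz h, nsmul_eq_mul]
  rw [h1]
  have h2 := sq_sum_le_card_mul_sum_sq (s := (Finset.univ : Finset {g // φ g = h}))
    (f := fun g => f g - a)
  rwa [Finset.card_univ, hz h] at h2

/-- the fibres of `SL_n → PSL_n` -/
theorem ltp_fib (hLFT : FL0.S_LFT) (n : ℕ) (F : Type) [Field F] [Finite F] (h : PS n F) :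
    Nat.card {g : SL n F // mk g = h} = Nat.card (Subgroup.center (SL n F)) := by
  have h1 := hLFT n F 1 fun t => t 0 = h
  rw [pow_one] at h1
  have e1 : Nat.card {g : SL n F // mk g = h} =
      Nat.card {A : Fin 1 → SL n F // (fun t : Fin 1 → PS n F => t 0 = h) fun j => mk (A j)} := by
    refine Nat.card_congr ((Equiv.subtypeEquiv (Equiv.funUnique (Fin 1) (SL n F)).symm ?_))
    intro A
    exact Iff.rfl
  have e2 : Nat.card {t : Fin 1 → PS n F // t 0 = h} = Nat.card {t : PS n F // t = h} := by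
    refine Nat.card_congr ((Equiv.subtypeEquiv (Equiv.funUnique (Fin 1) (PS n F)) ?_))
    intro t
    exact Iff.rfl
  have e3 : Nat.card {t : PS n F // t = h} = 1 := by
    rw [Nat.card_eq_one_iff_unique]
    exact ⟨⟨fun a b => Subtype.ext (a.2.trans b.2.symm)⟩, ⟨⟨h, rfl⟩⟩⟩
  rw [e1, h1, e2, e3, mul_one]

/-- the sum over a fibre -/
theorem ltp_sum (hLFT : FL0.S_LFT) (n : ℕ) (F : Type) [Field F] [Finite F] (m : List ℕ)
    (h : PS n F) [hi : Fintype {g : SL n F // mk g = h}] :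
    Nat.card (Subgroup.center (SL n F)) ^ m.length * fL (PS n F) m h =
      ∑ g : {g : SL n F // mk g = h}, Nat.card {A : Fin m.length → SL n F //
        (∀ j, A j ^ m.get j ∈ Subgroup.center (SL n F)) ∧ (List.ofFn A).prod = g.1} := by
  have hfin := JL.finite_SL (F := F) (n := n)
  rw [fL, ← hLFT n F m.length fun t => (∀ j, t j ^ m.get j = 1) ∧ (List.ofFn t).prod = h]
  have h2 := @CNT0.card_fib _ _ _ (fun A : Fin m.length → SL n F =>
      ∀ j, A j ^ m.get j ∈ Subgroup.center (SL n F)) (fun A => (List.ofFn A).prod)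
      {g : SL n F | mk g = h} hi
  refine Eq.trans ?_ h2
  refine Nat.card_congr (Equiv.subtypeEquivRight fun A => ?_)
  rw [LFH.mk_prod]
  refine and_congr_left fun _ => forall_congr' fun j => ?_
  exact LFH.mk_pow_one (A j) _

/-- the real computation -/
theorem ltp_real (S V P z J E : ℝ) (d : ℕ) (hz : 0 < z) (hP : 0 < P) (hJ : 0 < J)
    (h1 : (z ^ d) ^ 2 * V ≤ z * S) (h2 : S ≤ E * (z ^ d * J) ^ 2 / (P * z)) :
    V * P / J ^ 2 ≤ E := by
  have h3 : (z ^ d) ^ 2 * V ≤ z * (E * (z ^ d * J) ^ 2 / (P * z)) :=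
    h1.trans (mul_le_mul_of_nonneg_left h2 hz.le)
  have h4 : z * (E * (z ^ d * J) ^ 2 / (P * z)) = (z ^ d) ^ 2 * (E * J ^ 2 / P) := by
    field_simp
  rw [h4] at h3
  have h5 : V ≤ E * J ^ 2 / P := le_of_mul_le_mul_left h3 (by positivity)
  rw [div_le_iff₀ (by positivity)]
  rwa [le_div_iff₀ hP] at h5

theorem t_LTP : M_LTP := by
  intro hLFT hLFH hLTS m s hs
  obtain ⟨c, r, hc, hr, h⟩ := hLTS m s hs
  refine ⟨c, r, hc, hr, fun n hn F _ _ e he hsum => ?_⟩
  have key := h n hn F e he hsum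
  have hfin := JL.finite_SL (F := F) (n := n)
  have hfp := CNT0.finPS n F
  have hft1 : Fintype (SL n F) := Fintype.ofFinite _
  have hft2 : Fintype (PS n F) := Fintype.ofFinite _
  classical
  have hz : 0 < Nat.card (Subgroup.center (SL n F)) := Nat.card_pos
  have hP0 : 0 < Nat.card (PS n F) := Nat.card_pos
  obtain ⟨hL1, -⟩ := hLFH n F
  have hP : ∏ j, (Nat.card (CA n F (m.get j)) : ℝ) =
      (Nat.card (Subgroup.center (SL n F)) : ℝ) ^ m.length * JJ (PS n F) m := by
    rw [CNT0.JJ_eq, Nat.cast_prod]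
    simp only [hL1, Nat.cast_mul]
    rw [Finset.prod_mul_distrib, Finset.prod_const, Finset.card_univ, Fintype.card_fin]
  have hcard : (Nat.card (SL n F) : ℝ) =
      (Nat.card (PS n F) : ℝ) * Nat.card (Subgroup.center (SL n F)) := by
    rw [Subgroup.card_eq_card_quotient_mul_card_subgroup (Subgroup.center (SL n F)), Nat.cast_mul]
  have hJ : (0 : ℝ) < JJ (PS n F) m := by
    rw [CNT0.JJ_eq]
    exact_mod_cast Finset.prod_pos fun j _ => CNT0.jn_pos n F (m.get j)
  rw [hP, hcard, finsum_eq_sum_of_fintype] at key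
  rw [V2, finsum_eq_sum_of_fintype]
  have hcs := ltp_cs (fun g : SL n F => mk g) (Nat.card (Subgroup.center (SL n F)))
    (fun h => by rw [← Nat.card_eq_fintype_card]; exact ltp_fib hLFT n F h)
    (fun g => (Nat.card {A : Fin m.length → SL n F //
      (∀ j, A j ^ m.get j ∈ Subgroup.center (SL n F)) ∧ (List.ofFn A).prod = g} : ℝ))
    ((Nat.card (Subgroup.center (SL n F)) : ℝ) ^ m.length * JJ (PS n F) m /
      ((Nat.card (PS n F) : ℝ) * Nat.card (Subgroup.center (SL n F))))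
  refine ltp_real _ _ _ (Nat.card (Subgroup.center (SL n F)) : ℝ) _ _ m.length
    (by exact_mod_cast hz) (by exact_mod_cast hP0) hJ ?_ key
  refine le_trans (le_of_eq ?_) hcs
  rw [Finset.mul_sum]
  refine Finset.sum_congr rfl fun h _ => ?_
  have h3 := ltp_sum hLFT n F m h
  have h4 : (∑ g : {g : SL n F // mk g = h}, (Nat.card {A : Fin m.length → SL n F //
      (∀ j, A j ^ m.get j ∈ Subgroup.center (SL n F)) ∧ (List.ofFn A).prod = g.1} : ℝ)) =
      (Nat.card (Subgroup.center (SL n F)) : ℝ) ^ m.length * fL (PS n F) m h := by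
    exact_mod_cast h3.symm
  rw [h4, ← mul_pow]
  congr 1
  have hz' : (0 : ℝ) < Nat.card (Subgroup.center (SL n F)) := by exact_mod_cast hz
  have hP' : (0 : ℝ) < Nat.card (PS n F) := by exact_mod_cast hP0
  field_simp

end SRJ
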