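import Mathlib
import Pool.Agent.SRJ.StA

/-!
# The smallest degree of a nontrivial irreducible character of `SL_n(q)`

Proof of `S_MIN` (see `Pool/Agent/SRJ/StA.lean`).
-/

set_option autoImplicit false

namespace SRJ

open RSF FL0 Pool.Agent.Lib_helper13 Matrix

/-! ### The transvections with first row `(1, b)` -/

theorem min_det (m : ℕ) (F : Type) [Field F] (b : Fin m → F) :
    (1 + Matrix.vecMulVec (Pi.single 0 1 : Fin (m + 1) → F) (Fin.cons 0 b : Fin (m + 1) → F)).det = 1 := by
  rw [Matrix.det_of_isUpperTriangular]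
  · apply Finset.prod_eq_one
    intro i _
    rw [Matrix.add_apply, Matrix.one_apply_eq, Matrix.vecMulVec_apply]
    induction i using Fin.cases with
    | zero => simp
    | succ i => simp
  · intro i j hij
    change j < i at hij
    rw [Matrix.add_apply, Matrix.one_apply_ne (ne_of_gt hij), Matrix.vecMulVec_apply,
      Pi.single_eq_of_ne (Fin.pos_iff_ne_zero.1 (lt_of_le_of_lt (Fin.zero_le j) hij)), zero_mul, add_zero]

/-- the transvection with first row `(1, b)` -/
def min_T (m : ℕ) (F : Type) [Field F] (b : Fin m → F) : SL (m + 1) F :=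
  ⟨1 + Matrix.vecMulVec (Pi.single 0 1) (Fin.cons 0 b), min_det m F b⟩

theorem min_T_coe (m : ℕ) (F : Type) [Field F] (b : Fin m → F) :
    ((min_T m F b : SL (m + 1) F) : Matrix (Fin (m + 1)) (Fin (m + 1)) F) =
      1 + Matrix.vecMulVec (Pi.single 0 1) (Fin.cons 0 b) := rfl

theorem min_cons_add (m : ℕ) (F : Type) [Field F] (a b : Fin m → F) :
    (Fin.cons 0 (a + b) : Fin (m + 1) → F) = Fin.cons 0 a + Fin.cons 0 b := by
  funext i
  induction i using Fin.cases with
  | zero => simp
  | succ i => simp

theorem min_T_add (m : ℕ) (F : Type) [Field F] (a b : Fin m → F) :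
    min_T m F (a + b) = min_T m F a * min_T m F b := by
  apply Subtype.ext
  rw [Matrix.SpecialLinearGroup.coe_mul, min_T_coe, min_T_coe, min_T_coe, min_cons_add, Matrix.vecMulVec_add,
    mul_add, mul_one, add_mul, one_mul, Matrix.vecMulVec_mul_vecMulVec]
  have h : (Fin.cons 0 a : Fin (m + 1) → F) ⬝ᵥ (Pi.single 0 1) = 0 := by simp
  rw [h]
  simp [add_assoc]

/-- the homomorphism `b ↦ T b` -/
def min_hom (m : ℕ) (F : Type) [Field F] : Multiplicative (Fin m → F) →* SL (m + 1) F where
  toFun b := min_T m F b.toAdd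
  map_one' := by
    apply Subtype.ext
    rw [min_T_coe]
    have : (Fin.cons 0 (Multiplicative.toAdd (1 : Multiplicative (Fin m → F))) : Fin (m + 1) → F) = 0 := by
      funext i
      induction i using Fin.cases with
      | zero => simp
      | succ i => simp
    rw [this]
    simp
  map_mul' a b := by
    rw [toAdd_mul]
    exact min_T_add m F _ _

theorem min_conj (m : ℕ) (F : Type) [Field F] (i j : Fin m) (hij : i ≠ j) (c : F) (b : Fin m → F) :
    Matrix.SpecialLinearGroup.transvection (F := F) (fun h => hij (Fin.succ_injective _ h) : i.succ ≠ j.succ) c *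
      min_T m F (b + Pi.single j (c * b i)) =
    min_T m F b *
      Matrix.SpecialLinearGroup.transvection (F := F) (fun h => hij (Fin.succ_injective _ h) : i.succ ≠ j.succ) c := by
  apply Subtype.ext
  rw [Matrix.SpecialLinearGroup.coe_mul, Matrix.SpecialLinearGroup.coe_mul, min_T_coe, min_T_coe,
    Matrix.SpecialLinearGroup.transvection_coe]
  have h1 : (1 + Matrix.single i.succ j.succ c : Matrix (Fin (m + 1)) (Fin (m + 1)) F) *ᵥ (Pi.single 0 1) =
      Pi.single 0 1 := by
    rw [Matrix.add_mulVec, Matrix.one_mulVec]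
    have : (Matrix.single i.succ j.succ c : Matrix (Fin (m + 1)) (Fin (m + 1)) F) *ᵥ (Pi.single 0 1) = 0 := by
      funext k
      simp [Matrix.single_apply]
    rw [this, add_zero]
  have h2 : (Fin.cons 0 b : Fin (m + 1) → F) ᵥ* (1 + Matrix.single i.succ j.succ c) =
      Fin.cons 0 (b + Pi.single j (c * b i)) := by
    rw [Matrix.vecMul_add, Matrix.vecMul_one, min_cons_add]
    congr 1
    funext k
    induction k using Fin.cases with
    | zero => simp [Matrix.vecMul, dotProduct, Matrix.single_apply]
    | succ k =>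
      simp only [Matrix.vecMul, dotProduct, Matrix.single_apply, Fin.sum_univ_succ, Pi.single_apply, Fin.cons_zero,
        Fin.cons_succ, Fin.succ_inj, zero_mul, zero_add]
      rw [Finset.sum_eq_single i]
      · by_cases h : j = k
        · subst h; simp [mul_comm]
        · rw [if_neg (fun h' => h h'.2), if_neg (fun h' => h h'.symm), mul_zero]
      · intro l _ hl
        rw [if_neg (fun h' => hl h'.1.symm), mul_zero]
      · intro h; exact absurd (Finset.mem_univ _) h
  rw [mul_add, mul_one, Matrix.mul_vecMulVec, h1]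
  rw [add_mul, one_mul, Matrix.vecMulVec_mul, h2]

/-! ### Generation by transvections -/

theorem min_diag (n : ℕ) (F : Type) [Field F] (i j : Fin n) (hij : i ≠ j) (a : F) (ha : a ≠ 0) :
    Matrix.SpecialLinearGroup.diag2n hij a ha =
      Matrix.SpecialLinearGroup.transvection hij a *
      Matrix.SpecialLinearGroup.transvection hij.symm (- a⁻¹) *
      Matrix.SpecialLinearGroup.transvection hij a *
      Matrix.SpecialLinearGroup.transvection hij (-1) *
      Matrix.SpecialLinearGroup.transvection hij.symm 1 *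
      Matrix.SpecialLinearGroup.transvection hij (-1) := by
  apply Subtype.ext
  simp only [Matrix.SpecialLinearGroup.coe_mul, Matrix.SpecialLinearGroup.transvection_coe,
    Matrix.SpecialLinearGroup.diag2n_coe]
  simp only [mul_add, add_mul, mul_one, one_mul, Matrix.single_mul_single_same,
    Matrix.single_mul_single_of_ne _ _ _ _ hij, Matrix.single_mul_single_of_ne _ _ _ _ hij.symm,
    add_zero, zero_add, mul_neg, neg_mul, neg_neg, mul_inv_cancel₀ ha, inv_mul_cancel₀ ha]
  ext k l
  simp only [Matrix.add_apply, Matrix.single_apply, Matrix.diagonal_apply, Matrix.one_apply]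
  by_cases hki : k = i
  · subst hki
    by_cases hlk : l = k
    · subst hlk
      simp [hij, hij.symm]
    · by_cases hlj : l = j
      · subst hlj
        simp [hij, hij.symm, hlk]
      · simp [hij, hij.symm, hlk, hlj, Ne.symm hlk, Ne.symm hlj]
  · by_cases hkj : k = j
    · subst hkj
      by_cases hlk : l = k
      · subst hlk
        simp [hij, hij.symm]
      · by_cases hli : l = i
        · subst hli
          simp [hij, hij.symm, hlk, Ne.symm hki]
        · simp [hij, hij.symm, hlk, hli, Ne.symm hlk, Ne.symm hli, hki, Ne.symm hki]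
    · simp [hki, hkj, Ne.symm hki, Ne.symm hkj]

theorem min_comm (n : ℕ) (F : Type) [Field F] (i j k : Fin n) (hij : i ≠ j) (hik : i ≠ k) (hkj : k ≠ j) (a b : F) :
    Matrix.SpecialLinearGroup.transvection hik a * Matrix.SpecialLinearGroup.transvection hkj b =
      Matrix.SpecialLinearGroup.transvection hij (a * b) * Matrix.SpecialLinearGroup.transvection hkj b *
        Matrix.SpecialLinearGroup.transvection hik a := by
  apply Subtype.ext
  simp only [Matrix.SpecialLinearGroup.coe_mul, Matrix.SpecialLinearGroup.transvection_coe]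
  simp only [mul_add, add_mul, mul_one, one_mul, Matrix.single_mul_single_same,
    Matrix.single_mul_single_of_ne _ _ _ _ hij.symm, Matrix.single_mul_single_of_ne _ _ _ _ hkj.symm,
    add_zero, zero_add]
  abel

/-- a normal subgroup of `SL_(m+1)` which contains the `T b` is everything -/
theorem min_top (m : ℕ) (hm : 2 ≤ m) (F : Type) [Field F] {H : Type} [Group H] (f : SL (m + 1) F →* H)
    (hf : ∀ b, f (min_T m F b) = 1) (g : SL (m + 1) F) : f g = 1 := by
  have h0 : ∀ (j : Fin (m + 1)) (h : (0 : Fin (m + 1)) ≠ j) (c : F),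
      f (Matrix.SpecialLinearGroup.transvection h c) = 1 := by
    intro j h c
    induction j using Fin.cases with
    | zero => exact absurd rfl h
    | succ j =>
      rw [← hf (Pi.single j c)]
      congr 1
      apply Subtype.ext
      rw [min_T_coe, Matrix.SpecialLinearGroup.transvection_coe]
      congr 1
      ext k l
      rw [Matrix.vecMulVec_apply, Matrix.single_apply]
      induction l using Fin.cases with
      | zero => simp
      | succ l =>
        simp only [Fin.cons_succ, Pi.single_apply, Fin.succ_inj]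
        by_cases hk : k = 0
        · subst hk
          by_cases hl : l = j
          · subst hl; simp
          · rw [if_neg (fun h' => hl h'.2.symm), if_neg hl, mul_zero]
        · rw [if_neg (fun h' => hk h'.1.symm), if_neg hk, zero_mul]
  have hcan : ∀ (x y z : H), y = 1 → x * y = z * y * x → z = 1 := by
    intro x y z hy h
    rw [hy, mul_one, mul_one] at h
    exact (mul_eq_right.1 h.symm)
  have hcan' : ∀ (x y z : H), x = 1 → x * y = z * y * x → z = 1 := by
    intro x y z hx h
    rw [hx, mul_one, one_mul] at h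
    exact (mul_eq_right.1 h.symm)
  have htr : ∀ (i j : Fin (m + 1)) (h : i ≠ j) (c : F),
      f (Matrix.SpecialLinearGroup.transvection h c) = 1 := by
    have h1 : ∀ (i j : Fin (m + 1)) (h : i ≠ j) (c : F), j ≠ 0 →
        f (Matrix.SpecialLinearGroup.transvection h c) = 1 := by
      intro i j h c hj
      by_cases hi : i = 0
      · subst hi
        exact h0 j h c
      · have h2 := congrArg f (min_comm (m + 1) F i j 0 h hi (Ne.symm hj) 1 c)
        rw [map_mul, map_mul, map_mul, one_mul] at h2
        exact hcan _ _ _ (h0 j _ c) h2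
    intro i j h c
    by_cases hj : j = 0
    · subst hj
      obtain ⟨k, hk0, hki⟩ : ∃ k : Fin (m + 1), k ≠ 0 ∧ k ≠ i := by
        by_contra hcon
        push Not at hcon
        have e1 := hcon ⟨1, by omega⟩ (by intro h; exact absurd (congrArg Fin.val h) (by simp))
        have e2 := hcon ⟨2, by omega⟩ (by intro h; exact absurd (congrArg Fin.val h) (by simp))
        have := congrArg Fin.val (e1.trans e2.symm)
        simp at this
      have h2 := congrArg f (min_comm (m + 1) F i 0 k h (Ne.symm hki) hk0 c 1)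
      rw [map_mul, map_mul, map_mul, mul_one] at h2
      exact hcan' _ _ _ (h1 i k _ c hk0) h2
    · exact h1 i j h c hj
  have : Nontrivial (Fin (m + 1)) := Fin.nontrivial_iff_two_le.2 (by omega)
  refine Matrix.SpecialLinearGroup.diagonal_transvection_induction' (fun g => f g = 1) g ?_ htr ?_
  · intro i j hij c hc
    change f _ = 1
    rw [min_diag]
    simp only [map_mul, htr, mul_one]
  · intro A B hA hB
    change f _ = 1
    rw [map_mul, hA, hB, mul_one]

/-! ### Functions on `F^m` -/

theorem min_tr (m : ℕ) (hm : 2 ≤ m) (F : Type) [Field F] {α : Type} (f : (Fin m → F) → α)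
    (hf : ∀ (i j : Fin m), i ≠ j → ∀ (c : F) (y : Fin m → F), f (y + Pi.single i (c * y j)) = f y)
    (y z : Fin m → F) (hy : y ≠ 0) (hz : z ≠ 0) : f y = f z := by
  classical
  have hu : ∀ (i j : Fin m), i ≠ j → ∀ (y : Fin m → F) (a : F), y j ≠ 0 → f (Function.update y i a) = f y := by
    intro i j hij y a hyj
    rw [← hf i j hij ((a - y i) / y j) y]
    congr 1
    funext k
    rw [div_mul_cancel₀ _ hyj]
    by_cases hk : k = i
    · subst hk; simp
    · simp [hk]
  let o : Fin m := ⟨0, by omega⟩
  let p : Fin m := ⟨1, by omega⟩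
  have hop : o ≠ p := by intro h; exact absurd (congrArg Fin.val h) (by simp [o, p])
  -- with `y o ≠ 0`
  have h1 : ∀ (y : Fin m → F), y o ≠ 0 → ∀ s : Finset (Fin m), o ∉ s →
      f (fun k => if k ∈ s then 0 else y k) = f y := by
    intro y hy s
    induction s using Finset.induction_on with
    | empty => intro _; simp
    | insert i s his ih =>
      intro ho
      rw [Finset.mem_insert, not_or] at ho
      rw [← ih ho.2, ← hu i o (Ne.symm ho.1) (fun k => if k ∈ s then 0 else y k) 0 (by simpa [ho.2] using hy)]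
      congr 1
      funext k
      by_cases hk : k = i
      · subst hk; simp
      · simp [hk]
  have h2 : ∀ (y : Fin m → F), y o = 1 → f y = f (Pi.single o 1) := by
    intro y hy
    rw [← h1 y (by rw [hy]; exact one_ne_zero) (Finset.univ.erase o) (by simp)]
    congr 1
    funext k
    by_cases hk : k = o
    · subst hk; simp [hy]
    · simp [hk]
  have h3 : ∀ (y : Fin m → F) (j : Fin m), j ≠ o → y j ≠ 0 → f y = f (Pi.single o 1) := by
    intro y j hj hyj
    rw [← hu o j (Ne.symm hj) y 1 hyj]
    exact h2 _ (by simp)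
  have h4 : ∀ (y : Fin m → F), y ≠ 0 → f y = f (Pi.single o 1) := by
    intro y hy
    obtain ⟨j, hj⟩ := Function.ne_iff.1 hy
    by_cases hjo : j = o
    · subst hjo
      rw [← hu p o (Ne.symm hop) y 1 hj]
      exact h3 _ p (Ne.symm hop) (by simp)
    · exact h3 y j hjo hj
  rw [h4 y hy, h4 z hz]

/-! ### Fourier analysis on `F^m` -/

theorem min_lin {Y : Type} [Group Y] (χ : Y →* ℂ) : IsChr (fun y => χ y) := by
  refine ⟨1, ({ toFun := fun g => χ g • LinearMap.id, map_one' := by simp; rfl, map_mul' := ?_ } :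
    Y →* ((Fin 1 → ℂ) →ₗ[ℂ] (Fin 1 → ℂ))), ?_⟩
  · intro a b
    rw [map_mul]
    ext v
    simp [mul_assoc]
    ring
  · funext g
    change LinearMap.trace ℂ (Fin 1 → ℂ) (χ g • LinearMap.id) = χ g
    simp

/-- the additive character `y ↦ ψ (a · y)` -/
noncomputable def min_ch {m : ℕ} {F : Type} [Field F] (ψ : AddChar F ℂ) (a : Fin m → F) : AddChar (Fin m → F) ℂ where
  toFun y := ψ (a ⬝ᵥ y)
  map_zero_eq_one' := by rw [dotProduct_zero, AddChar.map_zero_eq_one]
  map_add_eq_mul' x y := by rw [dotProduct_add, AddChar.map_add_eq_mul]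

theorem min_orth {m : ℕ} {F : Type} [Field F] [Fintype F] [DecidableEq F] (ψ : AddChar F ℂ) (hψ : ψ 1 ≠ 1)
    (a : Fin m → F) : ∑ y : Fin m → F, ψ (a ⬝ᵥ y) = if a = 0 then (Nat.card (Fin m → F) : ℂ) else 0 := by
  split_ifs with h
  · subst h
    simp
  · obtain ⟨i, hi⟩ := Function.ne_iff.1 h
    have h1 : min_ch ψ a ≠ 1 := by
      intro h2
      apply hψ
      have h3 := congrArg (fun φ : AddChar (Fin m → F) ℂ => φ (Pi.single i (a i)⁻¹)) h2
      change ψ (a ⬝ᵥ Pi.single i (a i)⁻¹) = 1 at h3
      rwa [dotProduct_single, mul_inv_cancel₀ hi] at h3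
    exact AddChar.sum_eq_zero_of_ne_one h1

/-- the Fourier coefficients of `b ↦ X (T b)` -/
noncomputable def min_mu {m : ℕ} {F : Type} [Field F] [Fintype F] [DecidableEq F] (ψ : AddChar F ℂ)
    (X : SL (m + 1) F → ℂ) (y : Fin m → F) : ℂ :=
  (∑ b : Fin m → F, X (min_T m F b) * ψ (-(b ⬝ᵥ y))) / (Nat.card (Fin m → F) : ℂ)

theorem min_nat {m : ℕ} {F : Type} [Field F] [Fintype F] [DecidableEq F] (ψ : AddChar F ℂ)
    (X : SL (m + 1) F → ℂ) (hX : IsChr X) (y : Fin m → F) : ∃ j : ℕ, min_mu ψ X y = j := by
  let χ : Multiplicative (Fin m → F) →* ℂ :=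
    { toFun := fun b => ψ (b.toAdd ⬝ᵥ y)
      map_one' := by simp
      map_mul' := by intro a b; rw [toAdd_mul, add_dotProduct, AddChar.map_add_eq_mul] }
  obtain ⟨j, hj⟩ := (hX.comp (min_hom m F)).exists_ip (min_lin χ)
  refine ⟨j, ?_⟩
  rw [← hj, ip, min_mu]
  congr 1
  refine Fintype.sum_equiv Multiplicative.ofAdd _ _ fun b => ?_
  change _ = X (min_T m F b) * ψ ((Multiplicative.toAdd (Multiplicative.ofAdd b)⁻¹) ⬝ᵥ y)
  rw [toAdd_inv, toAdd_ofAdd, neg_dotProduct]

theorem min_inv {m : ℕ} {F : Type} [Field F] [Fintype F] [DecidableEq F] (ψ : AddChar F ℂ) (hψ : ψ 1 ≠ 1)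
    (X : SL (m + 1) F → ℂ) (b : Fin m → F) :
    X (min_T m F b) = ∑ y : Fin m → F, min_mu ψ X y * ψ (b ⬝ᵥ y) := by
  have hN : (Nat.card (Fin m → F) : ℂ) ≠ 0 := by exact_mod_cast Nat.card_pos.ne'
  simp only [min_mu, div_mul_eq_mul_div, Finset.sum_mul]
  rw [← Finset.sum_div, Finset.sum_comm]
  have h1 : ∀ b' : Fin m → F, ∑ y : Fin m → F, X (min_T m F b') * ψ (-(b' ⬝ᵥ y)) * ψ (b ⬝ᵥ y) =
      X (min_T m F b') * if b - b' = 0 then (Nat.card (Fin m → F) : ℂ) else 0 := by
    intro b'
    rw [← min_orth ψ hψ, Finset.mul_sum]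
    apply Finset.sum_congr rfl
    intro y _
    rw [mul_assoc, ← AddChar.map_add_eq_mul, sub_dotProduct]
    congr 2
    ring
  rw [Finset.sum_congr rfl (fun b' _ => h1 b'), Finset.sum_eq_single b]
  · rw [if_pos (sub_self b), mul_div_assoc, div_self hN, mul_one]
  · intro b' _ hb'
    rw [if_neg (fun h => hb' (sub_eq_zero.1 h).symm), mul_zero]
  · intro h; exact absurd (Finset.mem_univ _) h

theorem min_bij {m : ℕ} {F : Type} [Field F] (i j : Fin m) (hij : i ≠ j) (c : F) :
    Function.Bijective (fun b : Fin m → F => b + Pi.single j (c * b i)) := by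
  rw [Function.bijective_iff_has_inverse]
  refine ⟨fun b => b - Pi.single j (c * b i), fun b => ?_, fun b => ?_⟩
  · have h : (b + Pi.single j (c * b i) : Fin m → F) i = b i := by
      rw [Pi.add_apply, Pi.single_eq_of_ne hij, add_zero]
    change (b + Pi.single j (c * b i) : Fin m → F) -
      Pi.single j (c * (b + Pi.single j (c * b i) : Fin m → F) i) = b
    rw [h, add_sub_cancel_right]
  · have h : (b - Pi.single j (c * b i) : Fin m → F) i = b i := by
      rw [Pi.sub_apply, Pi.single_eq_of_ne hij, sub_zero]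
    change (b - Pi.single j (c * b i) : Fin m → F) +
      Pi.single j (c * (b - Pi.single j (c * b i) : Fin m → F) i) = b
    rw [h, sub_add_cancel]

theorem min_XT {m : ℕ} {F : Type} [Field F] (X : SL (m + 1) F → ℂ) (hX : IsChr X) (i j : Fin m)
    (hij : i ≠ j) (c : F) (b : Fin m → F) :
    X (min_T m F (b + Pi.single j (c * b i))) = X (min_T m F b) := by
  rw [← hX.conj_eq (Matrix.SpecialLinearGroup.transvection (F := F)
    (fun h => hij (Fin.succ_injective _ h) : i.succ ≠ j.succ) c), min_conj, mul_inv_cancel_right]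

theorem min_move {m : ℕ} {F : Type} [Field F] [Fintype F] [DecidableEq F] (ψ : AddChar F ℂ)
    (X : SL (m + 1) F → ℂ) (hX : IsChr X) (i j : Fin m) (hij : i ≠ j) (c : F) (y : Fin m → F) :
    min_mu ψ X (y + Pi.single i (c * y j)) = min_mu ψ X y := by
  have h1 : ∀ b : Fin m → F, b ⬝ᵥ (y + Pi.single i (c * y j)) = (b + Pi.single j (c * b i)) ⬝ᵥ y := by
    intro b
    rw [dotProduct_add, add_dotProduct, dotProduct_single, single_dotProduct]
    ring
  have h2 : ∑ b : Fin m → F, X (min_T m F b) * ψ (-(b ⬝ᵥ (y + Pi.single i (c * y j)))) =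
      ∑ b : Fin m → F, X (min_T m F b) * ψ (-(b ⬝ᵥ y)) := by
    refine Fintype.sum_bijective _ (min_bij i j hij c) _ _ fun b => ?_
    rw [h1, min_XT X hX i j hij c b]
  rw [min_mu, min_mu, h2]

theorem min_main (m : ℕ) (hm : 2 ≤ m) (F : Type) [Field F] [Finite F] (X : SL (m + 1) F → ℂ) (hX : IsIrr X)
    (hne : X ≠ (fun _ => 1)) : (Nat.card F : ℝ) ^ m - 1 ≤ ‖X 1‖ := by
  classical
  have := Fintype.ofFinite F
  have : Fintype (SL (m + 1) F) := Fintype.ofFinite _
  obtain ⟨ψ, hψ⟩ : ∃ ψ : AddChar F ℂ, ψ 1 ≠ 1 := (AddChar.exists_apply_ne_zero (a := (1 : F))).2 one_ne_zero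
  have hT0 : min_T m F 0 = 1 := map_one (min_hom m F)
  have hN : (Nat.card (Fin m → F) : ℂ) ≠ 0 := by exact_mod_cast Nat.card_pos.ne'
  choose j hj using fun y => min_nat ψ X hX.isChr y
  have hj' : ∀ y z : Fin m → F, y ≠ 0 → z ≠ 0 → j y = j z := by
    intro y z hy hz
    have h := min_tr m hm F (min_mu ψ X) (fun i k hik c y => min_move ψ X hX.isChr i k hik c y) y z hy hz
    rw [hj, hj] at h
    exact_mod_cast h
  obtain ⟨k, hk0, hk⟩ := hX.exists_degree
  by_cases hz : ∃ y : Fin m → F, y ≠ 0 ∧ j y = 0
  · exfalso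
    obtain ⟨y, hy, hy0⟩ := hz
    have hall : ∀ z : Fin m → F, z ≠ 0 → min_mu ψ X z = 0 := by
      intro z hz
      rw [hj, hj' z y hz hy, hy0, Nat.cast_zero]
    have hconst : ∀ b, X (min_T m F b) = X 1 := by
      have h1 : ∀ b, X (min_T m F b) = min_mu ψ X 0 := by
        intro b
        rw [min_inv ψ hψ X b, Finset.sum_eq_single 0]
        · rw [dotProduct_zero, AddChar.map_zero_eq_one, mul_one]
        · intro z _ hz
          rw [hall z hz, zero_mul]
        · intro h; exact absurd (Finset.mem_univ _) h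
      intro b
      rw [h1 b, ← h1 0, hT0]
    have htriv : ∀ g, X g = X 1 := by
      obtain ⟨n, ρ, hρ, rfl⟩ := hX
      let σ : Representation ℂ (Multiplicative (Fin m → F)) (Fin n → ℂ) := ρ.comp (min_hom m F)
      have h1 : (Nat.card (Multiplicative (Fin m → F)) : ℂ)⁻¹ * ∑ g, σ.character g =
          Module.finrank ℂ σ.invariants := Representation.card_inv_mul_sum_char_eq_finrank σ
      have h2 : ∀ g, σ.character g = n := by
        intro g
        have h3 := hconst g.toAdd
        have h4 : ρ.character 1 = n := by simp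
        rw [h4] at h3
        exact h3
      have h3 : Module.finrank ℂ σ.invariants = n := by
        rw [Finset.sum_congr rfl (fun g _ => h2 g), Finset.sum_const, Finset.card_univ, nsmul_eq_mul,
          ← Nat.card_eq_fintype_card, ← mul_assoc, inv_mul_cancel₀ natCard_ne_zero, one_mul] at h1
        exact_mod_cast h1.symm
      have h4 : σ.invariants = ⊤ := by
        apply Submodule.eq_top_of_finrank_eq
        rw [h3]
        simp
      have h5 : ∀ b, ρ (min_T m F b) = 1 := by
        intro b
        refine LinearMap.ext fun v => ?_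
        have h6 : v ∈ σ.invariants := by rw [h4]; trivial
        exact (Representation.mem_invariants σ v).1 h6 (Multiplicative.ofAdd b)
      have h7 : ∀ g, ρ g = 1 := by
        intro g
        have h8 := min_top m hm F (MonoidHom.toHomUnits (ρ : SL (m + 1) F →* _)) (fun b => Units.ext (h5 b)) g
        exact congrArg Units.val h8
      intro g
      rw [Representation.character, Representation.character, h7 g, h7 1]
    have hs := hX.sum_self
    have hs1 : ∀ g : SL (m + 1) F, X g * X g⁻¹ = (k : ℂ) * k := by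
      intro g
      rw [htriv g, htriv g⁻¹, hk]
    rw [Finset.sum_congr rfl (fun g _ => hs1 g), Finset.sum_const, Finset.card_univ, nsmul_eq_mul,
      ← Nat.card_eq_fintype_card] at hs
    have hk1 : k = 1 := by
      have h1 : (k : ℂ) * k = 1 := mul_left_cancel₀ natCard_ne_zero (hs.trans (mul_one _).symm)
      have h2 : k * k = 1 := by exact_mod_cast h1
      exact Nat.eq_one_of_mul_eq_one_right h2
    apply hne
    funext g
    rw [htriv g, hk, hk1, Nat.cast_one]
  · push Not at hz
    have h1 : X 1 = ∑ y : Fin m → F, (j y : ℂ) := by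
      rw [← hT0, min_inv ψ hψ X 0]
      apply Finset.sum_congr rfl
      intro y _
      rw [zero_dotProduct, AddChar.map_zero_eq_one, mul_one, hj]
    have h2 : k = ∑ y : Fin m → F, j y := by
      rw [hk] at h1
      exact_mod_cast h1
    have h3 : Fintype.card (Fin m → F) ≤ k + 1 := by
      rw [h2, ← Finset.add_sum_erase _ _ (Finset.mem_univ (0 : Fin m → F))]
      have h4 : ∑ y ∈ Finset.univ.erase (0 : Fin m → F), 1 ≤ ∑ y ∈ Finset.univ.erase (0 : Fin m → F), j y := by
        apply Finset.sum_le_sum
        intro y hy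
        exact Nat.one_le_iff_ne_zero.2 (hz y (Finset.ne_of_mem_erase hy))
      rw [Finset.sum_const, smul_eq_mul, mul_one, Finset.card_erase_of_mem (Finset.mem_univ _), Finset.card_univ] at h4
      omega
    have h5 : Fintype.card (Fin m → F) = Nat.card F ^ m := by
      rw [Fintype.card_fun, Fintype.card_fin, Nat.card_eq_fintype_card]
    rw [hk]
    have h6 : (Nat.card F : ℝ) ^ m ≤ k + 1 := by
      rw [h5] at h3
      exact_mod_cast h3
    rw [Complex.norm_natCast]
    linarith

theorem t_MIN : S_MIN := by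
  intro n hn F _ _ X hX hne
  obtain ⟨m, rfl⟩ : ∃ m, n = m + 1 := ⟨n - 1, by omega⟩
  exact min_main m (by omega) F X hX hne

end SRJ
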