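import Mathlib
import Pool.Agent.SRJ.StA

/-!
# RKC: matrices of given rank
-/

set_option autoImplicit false

namespace SRJ

open RSF FL0 Polynomial Pool.Agent.Lib_helper13

open scoped Matrix

noncomputable section

/-- Two linear maps of the same rank are equivalent. -/
theorem rkc_equiv {F V W : Type} [Field F] [AddCommGroup V] [Module F V] [FiniteDimensional F V]
    [AddCommGroup W] [Module F W] [FiniteDimensional F W] (f f' : V →ₗ[F] W)
    (h : Module.finrank F (LinearMap.range f) = Module.finrank F (LinearMap.range f')) :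
    ∃ (a : V ≃ₗ[F] V) (b : W ≃ₗ[F] W), ∀ x, b (f x) = f' (a x) := by
  obtain ⟨C, hC⟩ := Submodule.exists_isCompl (LinearMap.ker f)
  obtain ⟨C', hC'⟩ := Submodule.exists_isCompl (LinearMap.ker f')
  obtain ⟨D, hD⟩ := Submodule.exists_isCompl (LinearMap.range f)
  obtain ⟨D', hD'⟩ := Submodule.exists_isCompl (LinearMap.range f')
  have h1 := LinearMap.finrank_range_add_finrank_ker f
  have h2 := LinearMap.finrank_range_add_finrank_ker f'
  have h3 := Submodule.finrank_add_eq_of_isCompl hD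
  have h4 := Submodule.finrank_add_eq_of_isCompl hD'
  let er : LinearMap.range f ≃ₗ[F] LinearMap.range f' := LinearEquiv.ofFinrankEq _ _ h
  let ek : LinearMap.ker f ≃ₗ[F] LinearMap.ker f' := LinearEquiv.ofFinrankEq _ _ (by omega)
  let eD : D ≃ₗ[F] D' := LinearEquiv.ofFinrankEq _ _ (by omega)
  let u := LinearMap.kerComplementEquivRange f hC.symm
  let u' := LinearMap.kerComplementEquivRange f' hC'.symm
  let P := Submodule.prodEquivOfIsCompl C (LinearMap.ker f) hC.symm
  let P' := Submodule.prodEquivOfIsCompl C' (LinearMap.ker f') hC'.symm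
  let R := Submodule.prodEquivOfIsCompl (LinearMap.range f) D hD
  let R' := Submodule.prodEquivOfIsCompl (LinearMap.range f') D' hD'
  refine ⟨P.symm ≪≫ₗ (((u ≪≫ₗ er) ≪≫ₗ u'.symm).prodCongr ek) ≪≫ₗ P',
    R.symm ≪≫ₗ (er.prodCongr eD) ≪≫ₗ R', fun x => ?_⟩
  obtain ⟨⟨c, z⟩, rfl⟩ := P.surjective x
  have e1 : f (P (c, z)) = (u c : W) := by
    have : P (c, z) = (c : V) + (z : V) := rfl
    rw [this, map_add, LinearMap.mem_ker.1 z.2, add_zero]
    rfl
  have e2 : f (P (c, z)) = R (u c, 0) := by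
    rw [e1]
    change (u c : W) = (u c : W) + ((0 : D) : W)
    rw [Submodule.coe_zero, add_zero]
  have e3 : f' (P' (u'.symm (er (u c)), ek z)) = (er (u c) : W) := by
    have : P' (u'.symm (er (u c)), ek z) = ((u'.symm (er (u c)) : C') : V) + (ek z : V) := rfl
    rw [this, map_add, LinearMap.mem_ker.1 (ek z).2, add_zero]
    have h5 : u' (u'.symm (er (u c))) = er (u c) := u'.apply_symm_apply _
    exact congrArg Subtype.val h5
  rw [e2]
  simp only [LinearEquiv.trans_apply, LinearEquiv.symm_apply_apply, LinearEquiv.prodCongr_apply,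
    map_zero]
  rw [e3]
  change (er (u c) : W) + ((0 : D') : W) = _
  rw [Submodule.coe_zero, add_zero]

/-- Two matrices of the same rank are equivalent. -/
theorem rkc_mat {F : Type} [Field F] {m k : ℕ} (M M' : Matrix (Fin m) (Fin k) F)
    (h : M.rank = M'.rank) :
    ∃ (a : GL (Fin k) F) (b : GL (Fin m) F),
      (b : Matrix (Fin m) (Fin m) F) * M * ((a⁻¹ : GL (Fin k) F) : Matrix (Fin k) (Fin k) F) =
        M' := by
  obtain ⟨a, b, hab⟩ := rkc_equiv (Matrix.toLin' M) (Matrix.toLin' M') (by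
    rw [Matrix.rank, Matrix.rank] at h
    exact h)
  let a' : GL (Fin k) F := ⟨LinearMap.toMatrix' a.toLinearMap, LinearMap.toMatrix' a.symm.toLinearMap,
    by rw [← LinearMap.toMatrix'_comp, LinearEquiv.comp_symm, LinearMap.toMatrix'_id],
    by rw [← LinearMap.toMatrix'_comp, LinearEquiv.symm_comp, LinearMap.toMatrix'_id]⟩
  let b' : GL (Fin m) F := ⟨LinearMap.toMatrix' b.toLinearMap, LinearMap.toMatrix' b.symm.toLinearMap,
    by rw [← LinearMap.toMatrix'_comp, LinearEquiv.comp_symm, LinearMap.toMatrix'_id],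
    by rw [← LinearMap.toMatrix'_comp, LinearEquiv.symm_comp, LinearMap.toMatrix'_id]⟩
  refine ⟨a', b', ?_⟩
  change LinearMap.toMatrix' b.toLinearMap * M * LinearMap.toMatrix' a.symm.toLinearMap = M'
  apply Matrix.toLin'.injective
  rw [Matrix.toLin'_mul, Matrix.toLin'_mul, Matrix.toLin'_toMatrix', Matrix.toLin'_toMatrix']
  refine LinearMap.ext fun x => ?_
  simp only [LinearMap.comp_apply, LinearEquiv.coe_coe]
  rw [hab, a.apply_symm_apply]

/-- The matrix in `cot` defined by a block. -/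
def rkc_c {F : Type} [Field F] {k m : ℕ} (M : Matrix (Fin m) (Fin k) F) :
    Matrix (Fin (k + m)) (Fin (k + m)) F :=
  (Matrix.fromBlocks 0 0 M 0).submatrix finSumFinEquiv.symm finSumFinEquiv.symm

theorem rkc_c_inj {F : Type} [Field F] {k m : ℕ} {M M' : Matrix (Fin m) (Fin k) F}
    (h : rkc_c M = rkc_c M') : M = M' := by
  ext i j
  have h1 := congrFun (congrFun h (finSumFinEquiv (Sum.inr i))) (finSumFinEquiv (Sum.inl j))
  simpa [rkc_c] using h1

theorem rkc_rank {F : Type} [Field F] {k m : ℕ} (M : Matrix (Fin m) (Fin k) F) :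
    (rkc_c M).rank = M.rank := by
  rw [rkc_c, Matrix.rank_submatrix]
  apply le_antisymm
  · have h1 : (Matrix.fromBlocks 0 0 M 0 : Matrix (Fin k ⊕ Fin m) (Fin k ⊕ Fin m) F) =
        Matrix.fromRows (0 : Matrix (Fin k) (Fin m) F) 1 *
          (M * Matrix.fromCols 1 (0 : Matrix (Fin k) (Fin m) F)) := by
      rw [Matrix.mul_fromCols, Matrix.mul_one, Matrix.mul_zero, Matrix.fromRows_mul,
        Matrix.zero_mul, Matrix.one_mul]
      ext (i | i) (j | j) <;> simp
    rw [h1]
    exact (Matrix.rank_mul_le_right _ _).trans (Matrix.rank_mul_le_left _ _)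
  · exact Matrix.rank_submatrix_le
      (Matrix.fromBlocks 0 0 M 0 : Matrix (Fin k ⊕ Fin m) (Fin k ⊕ Fin m) F) Sum.inr Sum.inl

theorem rkc_mem {F : Type} [Field F] [Fintype F] {k m : ℕ} (M : Matrix (Fin m) (Fin k) F) :
    rkc_c M ∈ cot (k + m) F k := by
  classical
  refine Finset.mem_filter.2 ⟨Finset.mem_univ _, fun i j h => ?_⟩
  obtain ⟨i, rfl⟩ := finSumFinEquiv.surjective i
  obtain ⟨j, rfl⟩ := finSumFinEquiv.surjective j
  rcases i with i | i
  · rcases j with j | j <;> simp [rkc_c]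
  · rcases j with j | j
    · exact absurd ⟨by simp, by simp⟩ h
    · simp [rkc_c]

theorem rkc_exists {F : Type} [Field F] [Fintype F] {k m : ℕ}
    (T : Matrix (Fin (k + m)) (Fin (k + m)) F) (hT : T ∈ cot (k + m) F k) :
    ∃ M : Matrix (Fin m) (Fin k) F, rkc_c M = T := by
  classical
  have h0 := (Finset.mem_filter.1 hT).2
  refine ⟨T.submatrix (Fin.natAdd k) (Fin.castAdd m), ?_⟩
  ext i j
  obtain ⟨i, rfl⟩ := finSumFinEquiv.surjective i
  obtain ⟨j, rfl⟩ := finSumFinEquiv.surjective j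
  rcases i with i | i
  · rw [h0 _ _ (by simp)]
    rcases j with j | j <;> simp [rkc_c]
  · rcases j with j | j
    · simp [rkc_c]
    · rw [h0 _ _ (by simp)]
      simp [rkc_c]

/-- The block diagonal invertible matrix. -/
def rkc_g {F : Type} [Field F] {k m : ℕ} (a : GL (Fin k) F) (b : GL (Fin m) F) :
    GL (Fin (k + m)) F where
  val := (Matrix.fromBlocks (a : Matrix (Fin k) (Fin k) F) 0 0
    (b : Matrix (Fin m) (Fin m) F)).submatrix finSumFinEquiv.symm finSumFinEquiv.symm
  inv := (Matrix.fromBlocks ((a⁻¹ : GL (Fin k) F) : Matrix (Fin k) (Fin k) F) 0 0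
    ((b⁻¹ : GL (Fin m) F) : Matrix (Fin m) (Fin m) F)).submatrix finSumFinEquiv.symm
      finSumFinEquiv.symm
  val_inv := by
    rw [Matrix.submatrix_mul_equiv, Matrix.fromBlocks_multiply]
    simp only [Matrix.mul_zero, Matrix.zero_mul, add_zero, zero_add, Units.mul_inv,
      Matrix.fromBlocks_one, Matrix.submatrix_one_equiv]
  inv_val := by
    rw [Matrix.submatrix_mul_equiv, Matrix.fromBlocks_multiply]
    simp only [Matrix.mul_zero, Matrix.zero_mul, add_zero, zero_add, Units.inv_mul,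
      Matrix.fromBlocks_one, Matrix.submatrix_one_equiv]

theorem rkc_bd {F : Type} [Field F] {k m : ℕ} (a : GL (Fin k) F) (b : GL (Fin m) F) :
    BD k (rkc_g a b : Matrix (Fin (k + m)) (Fin (k + m)) F) := by
  intro i j h
  obtain ⟨i, rfl⟩ := finSumFinEquiv.surjective i
  obtain ⟨j, rfl⟩ := finSumFinEquiv.surjective j
  rcases i with i | i <;> rcases j with j | j
  · exact absurd (by simp) h
  · simp [rkc_g]
  · simp [rkc_g]
  · exact absurd (by simp) h

theorem rkc_conj {F : Type} [Field F] {k m : ℕ} (a : GL (Fin k) F) (b : GL (Fin m) F)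
    (M : Matrix (Fin m) (Fin k) F) :
    (rkc_g a b : Matrix (Fin (k + m)) (Fin (k + m)) F) * rkc_c M *
      (((rkc_g a b)⁻¹ : GL (Fin (k + m)) F) : Matrix (Fin (k + m)) (Fin (k + m)) F) =
      rkc_c ((b : Matrix (Fin m) (Fin m) F) * M *
        ((a⁻¹ : GL (Fin k) F) : Matrix (Fin k) (Fin k) F)) := by
  change (Matrix.fromBlocks (a : Matrix (Fin k) (Fin k) F) 0 0
    (b : Matrix (Fin m) (Fin m) F)).submatrix finSumFinEquiv.symm finSumFinEquiv.symm *
    (Matrix.fromBlocks 0 0 M 0).submatrix finSumFinEquiv.symm finSumFinEquiv.symm *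
    (Matrix.fromBlocks ((a⁻¹ : GL (Fin k) F) : Matrix (Fin k) (Fin k) F) 0 0
    ((b⁻¹ : GL (Fin m) F) : Matrix (Fin m) (Fin m) F)).submatrix finSumFinEquiv.symm
      finSumFinEquiv.symm = _
  rw [Matrix.submatrix_mul_equiv, Matrix.submatrix_mul_equiv, Matrix.fromBlocks_multiply,
    Matrix.fromBlocks_multiply, rkc_c]
  simp only [Matrix.mul_zero, Matrix.zero_mul, add_zero, zero_add]

/-- The product formula. -/
theorem rkc_prod (hPI : RSF.S_PI) (q : ℕ) (hq : 2 ≤ q) (m r : ℕ) (hr : r ≤ m) :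
    (q : ℝ) ^ (m * r) ≤ 4 * ((∏ i : Fin r, (q ^ m - q ^ i.val) : ℕ) : ℝ) := by
  have hq' : (2 : ℝ) ≤ q := by exact_mod_cast hq
  have hq0 : (0 : ℝ) < q := by linarith
  have h1 : ((∏ i : Fin r, (q ^ m - q ^ i.val) : ℕ) : ℝ) =
      (q : ℝ) ^ (m * r) * ∏ i ∈ Finset.range r, (1 - (q : ℝ)⁻¹ ^ (m - i)) := by
    rw [Nat.cast_prod, ← Finset.prod_range fun i => ((q ^ m - q ^ i : ℕ) : ℝ)]
    have h2 : (q : ℝ) ^ (m * r) = ∏ _i ∈ Finset.range r, (q : ℝ) ^ m := by
      rw [Finset.prod_const, Finset.card_range, ← pow_mul]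
    rw [h2, ← Finset.prod_mul_distrib]
    refine Finset.prod_congr rfl fun i hi => ?_
    have hi' : i < r := Finset.mem_range.1 hi
    have h3 : q ^ i ≤ q ^ m := Nat.pow_le_pow_right (by omega) (by omega)
    rw [Nat.cast_sub h3, mul_sub, mul_one, Nat.cast_pow, Nat.cast_pow]
    congr 1
    have h4 : (q : ℝ) ^ m = q ^ i * q ^ (m - i) := by rw [← pow_add]; congr 1; omega
    rw [h4, mul_assoc, ← mul_pow, mul_inv_cancel₀ hq0.ne', one_pow, mul_one]
  have hle : ∀ j : ℕ, (q : ℝ)⁻¹ ^ j ≤ 1 := fun j =>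
    pow_le_one₀ (by positivity) (inv_le_one_of_one_le₀ (by linarith))
  have h5 := hPI q hq' m
  rw [← Finset.prod_range_reflect] at h5
  have h6 : ∏ j ∈ Finset.range m, (1 - (q : ℝ)⁻¹ ^ (m - 1 - j + 1)) =
      ∏ j ∈ Finset.range m, (1 - (q : ℝ)⁻¹ ^ (m - j)) := by
    refine Finset.prod_congr rfl fun i hi => ?_
    have hi' : i < m := Finset.mem_range.1 hi
    have : m - 1 - i + 1 = m - i := by omega
    rw [this]
  rw [h6, ← Finset.prod_range_mul_prod_Ico _ hr] at h5
  have h7 : ∏ j ∈ Finset.Ico r m, (1 - (q : ℝ)⁻¹ ^ (m - j)) ≤ 1 := by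
    refine Finset.prod_le_one (fun j _ => ?_) (fun j _ => ?_)
    · linarith [hle (m - j)]
    · have : (0 : ℝ) ≤ (q : ℝ)⁻¹ ^ (m - j) := by positivity
      linarith
  have h8 : (0 : ℝ) ≤ ∏ j ∈ Finset.range r, (1 - (q : ℝ)⁻¹ ^ (m - j)) :=
    Finset.prod_nonneg fun j _ => by linarith [hle (m - j)]
  have h9 : (1 : ℝ) / 4 ≤ ∏ j ∈ Finset.range r, (1 - (q : ℝ)⁻¹ ^ (m - j)) :=
    h5.trans (mul_le_of_le_one_right h8 h7)
  rw [h1]
  have h10 : (0 : ℝ) < (q : ℝ) ^ (m * r) := by positivity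
  nlinarith

/-- The matrices whose first `r` columns are a basis of the column space. -/
def rkc_m {F : Type} [Field F] {m r c : ℕ} (s : Fin r → (Fin m → F))
    (B : Matrix (Fin r) (Fin c) F) : Matrix (Fin m) (Fin (r + c)) F :=
  (Matrix.fromCols (Matrix.of s)ᵀ ((Matrix.of s)ᵀ * B)).submatrix id finSumFinEquiv.symm

theorem rkc_m_rank {F : Type} [Field F] {m r c : ℕ} (s : Fin r → (Fin m → F))
    (hs : LinearIndependent F s) (B : Matrix (Fin r) (Fin c) F) : (rkc_m s B).rank = r := by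
  have h0 : (Matrix.of s)ᵀ.rank = r := by
    rw [Matrix.rank_transpose]
    have := LinearIndependent.rank_matrix (M := Matrix.of s) hs
    rw [this, Fintype.card_fin]
  apply le_antisymm
  · refine (Matrix.rank_submatrix_le _ _ _).trans ?_
    have h1 : Matrix.fromCols (Matrix.of s)ᵀ ((Matrix.of s)ᵀ * B) =
        (Matrix.of s)ᵀ * Matrix.fromCols 1 B := by
      rw [Matrix.mul_fromCols, Matrix.mul_one]
    rw [h1]
    exact (Matrix.rank_mul_le_left _ _).trans h0.le
  · have h1 : (rkc_m s B).submatrix id (Fin.castAdd c) = (Matrix.of s)ᵀ := by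
      ext i j
      have : finSumFinEquiv.symm (Fin.castAdd c j) = Sum.inl j := by simp
      simp [rkc_m]
    have h2 := Matrix.rank_submatrix_le (rkc_m s B) id (Fin.castAdd c)
    rw [h1, h0] at h2
    exact h2

theorem rkc_m_inj {F : Type} [Field F] {m r c : ℕ} {s s' : Fin r → (Fin m → F)}
    (hs : LinearIndependent F s) {B B' : Matrix (Fin r) (Fin c) F}
    (h : rkc_m s B = rkc_m s' B') : s = s' ∧ B = B' := by
  have h1 : s = s' := by
    funext j i
    have := congrFun (congrFun h i) (Fin.castAdd c j)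
    simpa [rkc_m] using this
  subst h1
  refine ⟨rfl, ?_⟩
  have h2 : (Matrix.of s)ᵀ * B = (Matrix.of s)ᵀ * B' := by
    ext i j
    have := congrFun (congrFun h i) (Fin.natAdd r j)
    simpa [rkc_m] using this
  ext i j
  have h3 : ∀ x y : Fin r → F, ∑ i, x i • s i = ∑ i, y i • s i → x = y := by
    intro x y hxy
    have h4 := Fintype.linearIndependent_iff.1 hs (fun i => x i - y i) (by
      simp only [sub_smul, Finset.sum_sub_distrib, hxy, sub_self])
    funext i
    exact sub_eq_zero.1 (h4 i)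
  have h5 := h3 (fun i => B i j) (fun i => B' i j) (by
    funext a
    have := congrFun (congrFun h2 a) j
    simp only [Matrix.mul_apply, Matrix.transpose_apply, Matrix.of_apply] at this
    simp only [Finset.sum_apply, Pi.smul_apply, smul_eq_mul]
    simpa only [mul_comm] using this)
  exact congrFun h5 i

/-- The number of the matrices of given rank. -/
theorem rkc_count (hPI : RSF.S_PI) {F : Type} [Field F] [Fintype F] (k m r : ℕ) (hk : r ≤ k)
    (hm : r ≤ m) :
    (Nat.card F : ℝ) ^ (r * (k + m - r)) ≤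
      4 * Nat.card {M : Matrix (Fin m) (Fin k) F // M.rank = r} := by
  obtain ⟨c, rfl⟩ := Nat.exists_eq_add_of_le hk
  have hinj : Nat.card ({s : Fin r → (Fin m → F) // LinearIndependent F s} ×
      Matrix (Fin r) (Fin c) F) ≤
      Nat.card {M : Matrix (Fin m) (Fin (r + c)) F // M.rank = r} := by
    refine Nat.card_le_card_of_injective
      (fun x => ⟨rkc_m x.1.1 x.2, rkc_m_rank x.1.1 x.1.2 x.2⟩) ?_
    rintro ⟨⟨s, hs⟩, B⟩ ⟨⟨s', hs'⟩, B'⟩ h
    obtain ⟨h1, h2⟩ := rkc_m_inj hs (congrArg Subtype.val h)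
    subst h1
    subst h2
    rfl
  have h1 : Nat.card ({s : Fin r → (Fin m → F) // LinearIndependent F s} ×
      Matrix (Fin r) (Fin c) F) =
      (∏ i : Fin r, (Nat.card F ^ m - Nat.card F ^ i.val)) * Nat.card F ^ (r * c) := by
    rw [Nat.card_prod, card_linearIndependent (by simpa using hm)]
    congr 1
    · simp [Nat.card_eq_fintype_card]
    · rw [Matrix, Nat.card_fun, Nat.card_fun, Nat.card_eq_fintype_card (α := Fin r),
        Nat.card_eq_fintype_card (α := Fin c), Fintype.card_fin, Fintype.card_fin, ← pow_mul,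
        mul_comm]
  have hq : 2 ≤ Nat.card F := by
    rw [Nat.card_eq_fintype_card]
    exact Fintype.one_lt_card
  have h2 := rkc_prod hPI (Nat.card F) hq m r hm
  have h3 : ((Nat.card ({s : Fin r → (Fin m → F) // LinearIndependent F s} ×
      Matrix (Fin r) (Fin c) F) : ℕ) : ℝ) ≤
      Nat.card {M : Matrix (Fin m) (Fin (r + c)) F // M.rank = r} := by
    exact_mod_cast hinj
  rw [h1, Nat.cast_mul, Nat.cast_pow] at h3
  have h4 : r * (r + c + m - r) = m * r + r * c := by
    have : r + c + m - r = c + m := by omega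
    rw [this]
    ring
  rw [h4, pow_add]
  have h5 : (0 : ℝ) ≤ (Nat.card F : ℝ) ^ (r * c) := by positivity
  calc (Nat.card F : ℝ) ^ (m * r) * (Nat.card F : ℝ) ^ (r * c) ≤
        4 * ((∏ i : Fin r, (Nat.card F ^ m - Nat.card F ^ i.val) : ℕ) : ℝ) *
          (Nat.card F : ℝ) ^ (r * c) := mul_le_mul_of_nonneg_right h2 h5
    _ ≤ _ := by
      rw [mul_assoc]
      exact mul_le_mul_of_nonneg_left h3 (by norm_num)

theorem t_RKC : M_RKC := by
  classical
  intro hPI _ hMUB n F _ _ _ ψ hψ k X hk hX T hT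
  obtain ⟨m, rfl⟩ := Nat.exists_eq_add_of_le hk
  obtain ⟨hnat, -, hsum, -, hconj⟩ := hMUB (k + m) F ψ hψ k X hX
  obtain ⟨M, rfl⟩ := rkc_exists T hT
  have hnn : ∀ T', 0 ≤ (mu ψ k X T').re := by
    intro T'
    obtain ⟨j, hj⟩ := hnat T'
    rw [hj, Complex.natCast_re]
    exact Nat.cast_nonneg j
  have heq : ∀ M' : Matrix (Fin m) (Fin k) F, M'.rank = M.rank →
      mu ψ k X (rkc_c M') = mu ψ k X (rkc_c M) := by
    intro M' h
    obtain ⟨a, b, hab⟩ := rkc_mat M M' h.symm
    have h1 := hconj (rkc_g a b) (rkc_c M) (rkc_bd a b)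
    rw [rkc_conj, hab] at h1
    exact h1
  have hr1 : M.rank ≤ k := Matrix.rank_le_width M
  have hr2 : M.rank ≤ m := Matrix.rank_le_height M
  have hcount := rkc_count hPI (F := F) k m M.rank hr1 hr2
  -- the finset of the images
  let S : Finset (Matrix (Fin (k + m)) (Fin (k + m)) F) :=
    (Finset.univ.filter fun M' : Matrix (Fin m) (Fin k) F => M'.rank = M.rank).image rkc_c
  have hS : S ⊆ cot (k + m) F k := by
    intro T' hT'
    obtain ⟨M', -, rfl⟩ := Finset.mem_image.1 hT'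
    exact rkc_mem M'
  have hScard : S.card = Nat.card {M' : Matrix (Fin m) (Fin k) F // M'.rank = M.rank} := by
    rw [Finset.card_image_of_injective _ fun _ _ => rkc_c_inj, Nat.card_eq_fintype_card,
      Fintype.card_subtype]
  rw [← hScard] at hcount
  have hval : ∀ T' ∈ S, mu ψ k X T' = mu ψ k X (rkc_c M) := by
    intro T' hT'
    obtain ⟨M', hM', rfl⟩ := Finset.mem_image.1 hT'
    exact heq M' (Finset.mem_filter.1 hM').2
  have hA : (S.card : ℝ) * (mu ψ k X (rkc_c M)).re ≤ (X 1).re := by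
    rw [← hsum]
    calc (S.card : ℝ) * (mu ψ k X (rkc_c M)).re = ∑ T' ∈ S, (mu ψ k X T').re := by
          rw [Finset.sum_congr rfl fun T' hT' => by rw [hval T' hT'], Finset.sum_const,
            nsmul_eq_mul]
      _ ≤ _ := Finset.sum_le_sum_of_subset_of_nonneg hS fun T' _ _ => hnn T'
  have hB : (S.card : ℝ) * (mu ψ k X (rkc_c M)).re ^ 2 ≤
      ∑ T' ∈ cot (k + m) F k, (mu ψ k X T').re ^ 2 := by
    calc (S.card : ℝ) * (mu ψ k X (rkc_c M)).re ^ 2 = ∑ T' ∈ S, (mu ψ k X T').re ^ 2 := by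
          rw [Finset.sum_congr rfl fun T' hT' => by rw [hval T' hT'], Finset.sum_const,
            nsmul_eq_mul]
      _ ≤ _ := Finset.sum_le_sum_of_subset_of_nonneg hS fun T' _ _ => sq_nonneg _
  rw [rkc_rank]
  have h0 := hnn (rkc_c M)
  constructor
  · have h1 := mul_le_mul_of_nonneg_right hcount h0
    have h2 : 0 ≤ (S.card : ℝ) * (mu ψ k X (rkc_c M)).re := by positivity
    linarith
  · have h1 := mul_le_mul_of_nonneg_right hcount (sq_nonneg (mu ψ k X (rkc_c M)).re)
    have h2 : 0 ≤ (S.card : ℝ) * (mu ψ k X (rkc_c M)).re ^ 2 := by positivity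
    linarith

end

end SRJ
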