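import Mathlib
import Pool.Agent.SRJ.StA

/-!
# SRJ: the sum of the squares of the multiplicities for the corner group

MP_5b5212_al, module TSQ.
-/

set_option autoImplicit false

namespace SRJ

open Pool.Agent.Lib_helper13

/-! ### Values at inverse elements -/

open scoped Matrix ComplexOrder in
theorem tsq_char_inv {H : Type} [Group H] [Fintype H] {χ : H → ℂ} (hχ : IsChr χ) (g : H) :
    χ g⁻¹ = starRingEnd ℂ (χ g) := by
  classical
  obtain ⟨n, ρ, rfl⟩ := hχ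
  let M : H → Matrix (Fin n) (Fin n) ℂ := fun h => LinearMap.toMatrix' (ρ h)
  have hM1 : M 1 = 1 := by
    simp only [M, map_one]
    exact LinearMap.toMatrix'_one
  have hMm : ∀ a b, M (a * b) = M a * M b := by
    intro a b
    simp only [M, map_mul]
    exact LinearMap.toMatrix'_mul _ _
  have htr : ∀ h, ρ.character h = (M h).trace := by
    intro h
    change LinearMap.trace ℂ _ (ρ h) = _
    rw [LinearMap.trace_eq_matrix_trace ℂ (Pi.basisFun ℂ (Fin n)),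
      LinearMap.toMatrix_eq_toMatrix']
  obtain ⟨A, hAd⟩ : ∃ A : Matrix (Fin n) (Fin n) ℂ, A = ∑ h, (M h)ᴴ * M h := ⟨_, rfl⟩
  have hA : ∀ a, (M a)ᴴ * A * M a = A := by
    intro a
    rw [hAd, Finset.mul_sum, Finset.sum_mul]
    rw [← Equiv.sum_comp (Equiv.mulRight a) (fun h => (M h)ᴴ * M h)]
    refine Finset.sum_congr rfl fun h _ => ?_
    simp only [Equiv.coe_mulRight]
    rw [hMm, Matrix.conjTranspose_mul]
    simp only [Matrix.mul_assoc]
  have hpd : A.PosDef := by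
    rw [hAd, ← Finset.add_sum_erase _ _ (Finset.mem_univ (1 : H)), hM1,
      Matrix.conjTranspose_one, Matrix.one_mul]
    apply Matrix.PosDef.add_posSemidef Matrix.PosDef.one
    exact Matrix.posSemidef_sum _ fun h _ => Matrix.posSemidef_conjTranspose_mul_self _
  have hdet : IsUnit A.det := (Matrix.isUnit_iff_isUnit_det A).mp hpd.isUnit
  have h1 : (M g)ᴴ * A = A * M g⁻¹ := by
    have h2 : M g * M g⁻¹ = 1 := by rw [← hMm, mul_inv_cancel, hM1]
    calc (M g)ᴴ * A = (M g)ᴴ * A * (M g * M g⁻¹) := by rw [h2, Matrix.mul_one]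
      _ = (M g)ᴴ * A * M g * M g⁻¹ := by rw [Matrix.mul_assoc _ (M g)]
      _ = A * M g⁻¹ := by rw [hA]
  rw [htr, htr, starRingEnd_apply, ← Matrix.trace_conjTranspose]
  calc (M g⁻¹).trace = (M g⁻¹ * (A⁻¹ * A)).trace := by
        rw [Matrix.nonsing_inv_mul A hdet, Matrix.mul_one]
    _ = (A * (M g⁻¹ * A⁻¹)).trace := by
        rw [← Matrix.mul_assoc, Matrix.trace_mul_comm]
    _ = ((M g)ᴴ * A * A⁻¹).trace := by rw [← Matrix.mul_assoc, ← h1]
    _ = ((M g)ᴴ).trace := by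
        rw [Matrix.mul_assoc, Matrix.mul_nonsing_inv A hdet, Matrix.mul_one]

theorem tsq_mul_inv {H : Type} [Group H] [Fintype H] {χ : H → ℂ} (hχ : IsChr χ) (g : H) :
    χ g * χ g⁻¹ = ((‖χ g‖ ^ 2 : ℝ) : ℂ) := by
  rw [tsq_char_inv hχ, Complex.mul_conj, Complex.normSq_eq_norm_sq]

/-- the expansion of `|X|²` -/
theorem tsq_group (hMN : FLC.S_MN) {G : Type} [Group G] [Fintype G] {X : G → ℂ} (hX : IsIrr X) :
    ∃ c : (G → ℂ) → ℕ, (∀ g, ((‖X g‖ ^ 2 : ℝ) : ℂ) = ∑ Y ∈ irrF G, (c Y : ℂ) * Y g) ∧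
      (∀ Y, IsIrr Y → (c Y : ℝ) ≤ (Y 1).re) ∧
      ∑ Y ∈ irrF G, (c Y : ℝ) * (Y 1).re = (X 1).re ^ 2 := by
  classical
  have h1 : ∀ Y : G → ℂ, ∃ c : ℕ, IsIrr Y → ip (fun g => ((‖X g‖ ^ 2 : ℝ) : ℂ)) Y = c := by
    intro Y
    by_cases hY : IsIrr Y
    · obtain ⟨c, hc⟩ := hX.isChr.exists_ip (hX.isChr.mul hY.isChr)
      refine ⟨c, fun _ => ?_⟩
      rw [← hc, ip, ip]
      congr 1
      refine Finset.sum_congr rfl fun g _ => ?_
      rw [← tsq_mul_inv hX.isChr]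
      ring
    · exact ⟨0, fun h => absurd h hY⟩
  choose c hc using h1
  have hN : ∀ Y : G → ℂ, IsIrr Y → ‖Y 1‖ = (Y 1).re ∧ Y 1 = (((Y 1).re : ℝ) : ℂ) := by
    intro Y hY
    obtain ⟨k, _, hk⟩ := hY.exists_degree
    rw [hk, Complex.natCast_re]
    exact ⟨Complex.norm_natCast k, (Complex.ofReal_natCast k).symm⟩
  have h2 : ∀ g, ((‖X g‖ ^ 2 : ℝ) : ℂ) = ∑ Y ∈ irrF G, (c Y : ℂ) * Y g := by
    intro g
    have h3 := congrFun (class_fn_expand (fun g => ((‖X g‖ ^ 2 : ℝ) : ℂ)) (fun g x => by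
      rw [hX.conj_eq])) g
    refine h3.trans ?_
    refine Finset.sum_congr rfl fun Y hY => ?_
    rw [hc Y (mem_irrF.1 hY)]
  refine ⟨c, h2, ?_, ?_⟩
  · intro Y hY
    have h3 : ∑ g : G, ‖X g‖ ^ 2 = (Nat.card G : ℝ) := by
      have h4 := hX.sum_self
      have h5 : ((∑ g : G, ‖X g‖ ^ 2 : ℝ) : ℂ) = ((Nat.card G : ℝ) : ℂ) := by
        rw [Complex.ofReal_sum, Complex.ofReal_natCast, ← h4]
        exact Finset.sum_congr rfl fun g _ => (tsq_mul_inv hX.isChr g).symm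
      exact Complex.ofReal_injective h5
    have h6 : ‖ip (fun g => ((‖X g‖ ^ 2 : ℝ) : ℂ)) Y‖ ≤ (Y 1).re := by
      rw [ip, norm_div, Complex.norm_natCast, div_le_iff₀ (by exact_mod_cast Nat.card_pos)]
      calc ‖∑ g : G, ((‖X g‖ ^ 2 : ℝ) : ℂ) * Y g⁻¹‖
          ≤ ∑ g : G, ‖((‖X g‖ ^ 2 : ℝ) : ℂ) * Y g⁻¹‖ := norm_sum_le _ _
        _ ≤ ∑ g : G, ‖X g‖ ^ 2 * (Y 1).re := by
          refine Finset.sum_le_sum fun g _ => ?_
          rw [norm_mul, Complex.norm_real, Real.norm_of_nonneg (by positivity)]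
          refine mul_le_mul_of_nonneg_left ?_ (by positivity)
          rw [← (hN Y hY).1]
          exact (hMN G Y hY.isChr).2.2.1 g⁻¹
        _ = (Y 1).re * Nat.card G := by
          rw [← Finset.sum_mul, h3, mul_comm]
    rw [hc Y hY, Complex.norm_natCast] at h6
    exact h6
  · have h3 := h2 1
    rw [(hN X hX).1] at h3
    have h4 : ((∑ Y ∈ irrF G, (c Y : ℝ) * (Y 1).re : ℝ) : ℂ) = (((X 1).re ^ 2 : ℝ) : ℂ) := by
      rw [h3, Complex.ofReal_sum]
      refine Finset.sum_congr rfl fun Y hY => ?_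
      rw [Complex.ofReal_mul, ← (hN Y (mem_irrF.1 hY)).2, Complex.ofReal_natCast]
    exact Complex.ofReal_injective h4

/-! ### The numerical part -/

theorem tsq_num {ι : Type*} (T : Finset ι) (p : ι → Prop) [DecidablePred p] (c m y : ι → ℝ)
    (D K q s : ℝ) (hc : ∀ i ∈ T, 0 ≤ c i ∧ c i ≤ y i) (hm : ∀ i ∈ T, 0 ≤ m i ∧ m i ≤ y i)
    (hy : ∀ i ∈ T, 1 ≤ y i) (hp : ∀ i ∈ T, p i → y i = 1)
    (hsum : ∑ i ∈ T, c i * y i ≤ D ^ 2)
    (hmK : ∀ i ∈ T, ¬ p i → m i ≤ K * y i ^ (1 / 2 + s))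
    (hz : ∑ i ∈ T.filter (fun i => ¬ p i), y i ^ (-s) ≤ q - 1)
    (h1 : ((T.filter p).card : ℝ) ≤ q - 1)
    (hD : 1 ≤ D) (hK : 1 ≤ K) (hs : 0 < s) (hs1 : s ≤ 1 / 8) :
    ∑ i ∈ T, c i * m i ≤ 2 * q * K * D ^ (3 / 2 + 2 * s) := by
  have hD0 : 0 < D := lt_of_lt_of_le one_pos hD
  have hK0 : 0 < K := lt_of_lt_of_le one_pos hK
  obtain ⟨P, hP⟩ : ∃ P, P = D ^ (3 / 2 + 2 * s) := ⟨_, rfl⟩
  have hP1 : 1 ≤ P := by
    rw [hP]
    exact Real.one_le_rpow hD (by linarith)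
  rw [← hP, ← Finset.sum_filter_add_sum_filter_not T p]
  have e1 : ∑ i ∈ T.filter p, c i * m i ≤ q - 1 := by
    refine le_trans ?_ h1
    have : ((T.filter p).card : ℝ) = ∑ i ∈ T.filter p, (1 : ℝ) := by
      rw [Finset.sum_const, nsmul_eq_mul, mul_one]
    rw [this]
    refine Finset.sum_le_sum fun i hi => ?_
    rw [Finset.mem_filter] at hi
    have h2 := hc i hi.1
    have h3 := hm i hi.1
    rw [hp i hi.1 hi.2] at h2 h3
    exact mul_le_one₀ h2.2 h3.1 h3.2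
  have e2 : ∀ i ∈ T.filter (fun i => ¬ p i), c i * m i ≤
      K * P * y i ^ (-s) + K * D ^ (-1 / 2 + s) * (c i * y i) := by
    intro i hi
    rw [Finset.mem_filter] at hi
    have h2 := hc i hi.1
    have h4 := hy i hi.1
    have h5 := hmK i hi.1 hi.2
    have h6 : 0 < y i := lt_of_lt_of_le one_pos h4
    rcases le_total (y i) D with h7 | h7
    · have h8 : c i * m i ≤ K * P * y i ^ (-s) := by
        calc c i * m i ≤ y i * (K * y i ^ (1 / 2 + s)) :=
              mul_le_mul h2.2 h5 (hm i hi.1).1 h6.le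
          _ = K * (y i ^ (3 / 2 + 2 * s) * y i ^ (-s)) := by
              rw [← Real.rpow_add h6]
              have e : (3 / 2 + 2 * s + -s) = 1 + (1 / 2 + s) := by ring
              rw [e, Real.rpow_add h6 1, Real.rpow_one]
              ring
          _ ≤ K * (P * y i ^ (-s)) := by
              refine mul_le_mul_of_nonneg_left ?_ hK0.le
              refine mul_le_mul_of_nonneg_right ?_ (Real.rpow_nonneg h6.le _)
              rw [hP]
              exact Real.rpow_le_rpow h6.le h7 (by linarith)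
          _ = K * P * y i ^ (-s) := by ring
      have h9 : 0 ≤ K * D ^ (-1 / 2 + s) * (c i * y i) :=
        mul_nonneg (mul_nonneg hK0.le (Real.rpow_nonneg hD0.le _)) (mul_nonneg h2.1 h6.le)
      linarith
    · have h8 : c i * m i ≤ K * D ^ (-1 / 2 + s) * (c i * y i) := by
        calc c i * m i ≤ c i * (K * y i ^ (1 / 2 + s)) :=
              mul_le_mul_of_nonneg_left h5 h2.1
          _ = (c i * K * y i) * y i ^ (-1 / 2 + s) := by
              have e : (1 / 2 + s) = 1 + (-1 / 2 + s) := by ring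
              rw [e, Real.rpow_add h6, Real.rpow_one]
              ring
          _ ≤ (c i * K * y i) * D ^ (-1 / 2 + s) := by
              refine mul_le_mul_of_nonneg_left ?_ (mul_nonneg (mul_nonneg h2.1 hK0.le) h6.le)
              exact Real.rpow_le_rpow_of_nonpos hD0 h7 (by linarith)
          _ = K * D ^ (-1 / 2 + s) * (c i * y i) := by ring
      have h9 : 0 ≤ K * P * y i ^ (-s) :=
        mul_nonneg (mul_nonneg hK0.le (by linarith)) (Real.rpow_nonneg h6.le _)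
      linarith
  have e3 : ∑ i ∈ T.filter (fun i => ¬ p i), c i * y i ≤ D ^ 2 := by
    refine le_trans ?_ hsum
    refine Finset.sum_le_sum_of_subset_of_nonneg (Finset.filter_subset _ _) ?_
    intro i hi _
    exact mul_nonneg (hc i hi).1 (zero_le_one.trans (hy i hi))
  have e4 : ∑ i ∈ T.filter (fun i => ¬ p i), c i * m i ≤ K * P * (q - 1) + K * P := by
    calc ∑ i ∈ T.filter (fun i => ¬ p i), c i * m i
        ≤ ∑ i ∈ T.filter (fun i => ¬ p i),
          (K * P * y i ^ (-s) + K * D ^ (-1 / 2 + s) * (c i * y i)) := Finset.sum_le_sum e2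
      _ = K * P * (∑ i ∈ T.filter (fun i => ¬ p i), y i ^ (-s)) +
          K * D ^ (-1 / 2 + s) * ∑ i ∈ T.filter (fun i => ¬ p i), c i * y i := by
          rw [Finset.sum_add_distrib, Finset.mul_sum, Finset.mul_sum]
      _ ≤ K * P * (q - 1) + K * D ^ (-1 / 2 + s) * D ^ 2 := by
          refine add_le_add (mul_le_mul_of_nonneg_left hz (mul_nonneg hK0.le (by linarith))) ?_
          exact mul_le_mul_of_nonneg_left e3 (mul_nonneg hK0.le (Real.rpow_nonneg hD0.le _))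
      _ ≤ K * P * (q - 1) + K * P := by
          have h2 : D ^ (-1 / 2 + s) * D ^ 2 ≤ P := by
            rw [← Real.rpow_natCast D 2, ← Real.rpow_add hD0, hP]
            refine Real.rpow_le_rpow_of_exponent_le hD ?_
            push_cast
            linarith
          have h3 := mul_le_mul_of_nonneg_left h2 hK0.le
          linarith
  have h5 : 1 ≤ K * P := one_le_mul_of_one_le_of_one_le hK hP1
  have hq : 0 ≤ q - 1 := le_trans (Nat.cast_nonneg _) h1
  have h6 : (q - 1) ≤ K * P * (q - 1) := le_mul_of_one_le_left hq h5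
  nlinarith

theorem tsq_fin (s a : ℝ) (hs : 0 < s) (n : ℕ) (hn : 8 ≤ n) (hn2 : 2 * (a + 2) ≤ 3 * s * n)
    (q D : ℝ) (hq : 2 ≤ q) (hD : q ^ ((n : ℝ) / 2) ≤ 4 * D) :
    1 ≤ D ∧ 2 * q * q ^ a * D ^ (3 / 2 + 2 * s) ≤ D ^ (3 / 2 + 8 * s) := by
  have hq0 : 0 < q := by linarith
  have hn' : (8 : ℝ) ≤ n := by exact_mod_cast hn
  have h1 : q ^ ((n : ℝ) / 2) = q ^ ((n : ℝ) / 4) * q ^ ((n : ℝ) / 4) := by
    rw [← Real.rpow_add hq0]
    congr 1
    ring
  have h2 : (4 : ℝ) ≤ q ^ ((n : ℝ) / 4) := by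
    calc (4 : ℝ) = 2 ^ (2 : ℝ) := by norm_num
      _ ≤ q ^ (2 : ℝ) := Real.rpow_le_rpow (by norm_num) hq (by norm_num)
      _ ≤ q ^ ((n : ℝ) / 4) := Real.rpow_le_rpow_of_exponent_le (by linarith) (by linarith)
  have h3 : q ^ ((n : ℝ) / 4) ≤ D := by
    rw [h1] at hD
    nlinarith
  have hD1 : 1 ≤ D := by linarith
  have hD0 : 0 < D := by linarith
  refine ⟨hD1, ?_⟩
  have h4 : q ^ (3 * s * n / 2) ≤ D ^ (6 * s) := by
    calc q ^ (3 * s * n / 2) = (q ^ ((n : ℝ) / 4)) ^ (6 * s) := by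
          rw [← Real.rpow_mul hq0.le]
          congr 1
          ring
      _ ≤ D ^ (6 * s) := Real.rpow_le_rpow (by linarith) h3 (by linarith)
  have h5 : 2 * q * q ^ a ≤ q ^ (3 * s * n / 2) := by
    calc 2 * q * q ^ a ≤ q * q * q ^ a := by
          refine mul_le_mul_of_nonneg_right ?_ (Real.rpow_nonneg hq0.le _)
          exact mul_le_mul_of_nonneg_right hq hq0.le
      _ = q ^ (2 + a) := by
          rw [Real.rpow_add hq0, Real.rpow_two]
          ring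
      _ ≤ q ^ (3 * s * n / 2) := by
          refine Real.rpow_le_rpow_of_exponent_le (by linarith) ?_
          linarith
  calc 2 * q * q ^ a * D ^ (3 / 2 + 2 * s) ≤ D ^ (6 * s) * D ^ (3 / 2 + 2 * s) :=
        mul_le_mul_of_nonneg_right (h5.trans h4) (Real.rpow_nonneg hD0.le _)
    _ = D ^ (3 / 2 + 8 * s) := by
        rw [← Real.rpow_add hD0]
        congr 1
        ring

/-! ### The corner group -/

/-- the two blocks -/
def tsq_d (k : ℕ) : ℕ → ℕ := fun i => if i < k then 0 else 1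

theorem tsq_d_mono (k : ℕ) : Monotone (tsq_d k) := by
  intro i j hij
  unfold tsq_d
  split_ifs with h1 h2 h2
  · exact le_rfl
  · exact zero_le_one
  · omega
  · exact le_rfl

theorem tsq_d_eq (k i j : ℕ) : tsq_d k i = tsq_d k j ↔ (i < k ↔ j < k) := by
  unfold tsq_d
  split_ifs with h1 h2 h2
  · simp [h1, h2]
  · simp [h1, h2]
  · simp [h1, h2]
  · simp [h1, h2]

theorem tsq_d_card (k n : ℕ) : ((Finset.range n).image (tsq_d k)).card ≤ 2 := by
  have h1 : (Finset.range n).image (tsq_d k) ⊆ {0, 1} := by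
    intro x hx
    obtain ⟨i, _, rfl⟩ := Finset.mem_image.1 hx
    unfold tsq_d
    split_ifs <;> simp
  exact (Finset.card_le_card h1).trans Finset.card_le_two

theorem tsq_bb (n k : ℕ) : FLC.bb (tsq_d k) n ≤ k ^ 2 + (n - k) ^ 2 := by
  unfold FLC.bb
  have h1 : ((Finset.range n ×ˢ Finset.range n).filter fun p => tsq_d k p.1 = tsq_d k p.2) ⊆
      (Finset.range k ×ˢ Finset.range k) ∪ (Finset.Ico k n ×ˢ Finset.Ico k n) := by
    intro p hp
    rw [Finset.mem_filter, Finset.mem_product, Finset.mem_range, Finset.mem_range, tsq_d_eq] at hp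
    rw [Finset.mem_union, Finset.mem_product, Finset.mem_product, Finset.mem_range,
      Finset.mem_range, Finset.mem_Ico, Finset.mem_Ico]
    omega
  refine (Finset.card_le_card h1).trans ((Finset.card_union_le _ _).trans ?_)
  rw [Finset.card_product, Finset.card_product, Finset.card_range, Nat.card_Ico]
  exact le_of_eq (by ring)

theorem tsq_exp (n k c : ℕ) (hk : k ≤ n) (h1 : n ≤ 2 * k + c) (h2 : 2 * k ≤ n + c) :
    ((FLC.bb (tsq_d k) n : ℝ) - (n : ℝ) ^ 2 / (2 : ℕ)) / 2 ≤ (c : ℝ) ^ 2 := by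
  have h3 : (FLC.bb (tsq_d k) n : ℝ) ≤ (k : ℝ) ^ 2 + ((n : ℝ) - k) ^ 2 := by
    have h4 : ((n - k : ℕ) : ℝ) = (n : ℝ) - k := Nat.cast_sub hk
    rw [← h4]
    exact_mod_cast tsq_bb n k
  have h5 : (n : ℝ) ≤ 2 * k + c := by exact_mod_cast h1
  have h6 : 2 * (k : ℝ) ≤ n + c := by exact_mod_cast h2
  have h7 : (0 : ℝ) ≤ c := Nat.cast_nonneg c
  push_cast
  nlinarith

variable {n : ℕ} {F : Type} [Field F] [Fintype F]

theorem tsq_mem_cor (k : ℕ) (h : Matrix (Fin n) (Fin n) F) :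
    h ∈ cor n F k ↔ ∀ i j : Fin n, ¬ (i.val < k ∧ k ≤ j.val) → h i j = 0 := by
  classical
  unfold cor
  rw [Finset.mem_filter]
  exact ⟨fun h1 => h1.2, fun h1 => ⟨Finset.mem_univ _, h1⟩⟩

theorem tsq_zero_cot (k : ℕ) : (0 : Matrix (Fin n) (Fin n) F) ∈ cot n F k := by
  classical
  unfold cot
  rw [Finset.mem_filter]
  exact ⟨Finset.mem_univ _, fun i j _ => rfl⟩

theorem tsq_mul_self (k : ℕ) {h : Matrix (Fin n) (Fin n) F} (hh : h ∈ cor n F k) : h * h = 0 := by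
  rw [tsq_mem_cor] at hh
  ext i l
  rw [Matrix.mul_apply, Matrix.zero_apply]
  refine Finset.sum_eq_zero fun j _ => ?_
  by_cases h1 : i.val < k ∧ k ≤ j.val
  · rw [hh j l (by omega), mul_zero]
  · rw [hh i j h1, zero_mul]

/-- the unit `1 + h` -/
def tsq_unit (k : ℕ) {h : Matrix (Fin n) (Fin n) F} (hh : h ∈ cor n F k) : GL (Fin n) F where
  val := 1 + h
  inv := 1 - h
  val_inv := by
    rw [add_mul, one_mul, mul_sub, mul_one, tsq_mul_self k hh]
    abel
  inv_val := by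
    rw [sub_mul, one_mul, mul_add, mul_one, tsq_mul_self k hh]
    abel

theorem tsq_xm (k : ℕ) {h : Matrix (Fin n) (Fin n) F} (hh : h ∈ cor n F k)
    (X : GL (Fin n) F → ℂ) : FLC.xm X (1 + h) = X (tsq_unit k hh) := by
  have h1 : IsUnit (1 + h) := (tsq_unit k hh).isUnit
  have h2 : h1.unit = tsq_unit k hh := Units.ext h1.unit_spec
  unfold FLC.xm
  rw [dif_pos h1, h2]

theorem tsq_mu_zero (ψ : AddChar F ℂ) (k : ℕ) (X : GL (Fin n) F → ℂ) :
    mu ψ k X 0 = (∑ h ∈ cor n F k, FLC.xm X (1 + h)) / ((cor n F k).card : ℂ) := by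
  unfold mu
  congr 1
  refine Finset.sum_congr rfl fun h _ => ?_
  rw [Matrix.zero_mul, Matrix.trace_zero, neg_zero, AddChar.map_zero_eq_one, mul_one]

theorem tsq_US (k : ℕ) (u : Matrix (Fin n) (Fin n) F) :
    u ∈ FLC.US n F (tsq_d k) ↔ u - 1 ∈ cor n F k := by
  classical
  rw [tsq_mem_cor]
  unfold FLC.US
  rw [Finset.mem_filter]
  constructor
  · rintro ⟨-, h1, h2, h3⟩ i j hij
    rw [Matrix.sub_apply]
    rcases lt_trichotomy i j with h | h | h
    · rw [Matrix.one_apply_ne h.ne, sub_zero]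
      refine h3 i j h ?_
      rw [tsq_d_eq]
      have : i.val < j.val := h
      omega
    · subst h
      rw [h1, Matrix.one_apply_eq, sub_self]
    · rw [Matrix.one_apply_ne h.ne', sub_zero]
      exact h2 i j h
  · intro h
    have h4 : ∀ i j : Fin n, ¬ (i.val < k ∧ k ≤ j.val) →
        u i j = (1 : Matrix (Fin n) (Fin n) F) i j := by
      intro i j hij
      have h5 := h i j hij
      rw [Matrix.sub_apply] at h5
      exact sub_eq_zero.1 h5
    refine ⟨Finset.mem_univ _, ?_, ?_, ?_⟩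
    · intro i
      rw [h4 i i (by omega), Matrix.one_apply_eq]
    · intro i j hji
      have : j.val < i.val := hji
      rw [h4 i j (by omega), Matrix.one_apply_ne hji.ne']
    · intro i j hij hd
      rw [tsq_d_eq] at hd
      rw [h4 i j (by omega), Matrix.one_apply_ne hij.ne]

theorem tsq_av (ψ : AddChar F ℂ) (k : ℕ) (X : GL (Fin n) F → ℂ) :
    FLC.av ψ (tsq_d k) ∅ (FLC.xm X) = mu ψ k X 0 := by
  classical
  rw [tsq_mu_zero]
  unfold FLC.av
  have h1 : FLC.US n F (tsq_d k) = (cor n F k).image (fun h => 1 + h) := by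
    ext u
    rw [tsq_US, Finset.mem_image]
    constructor
    · intro h
      exact ⟨u - 1, h, by abel⟩
    · rintro ⟨h, hh, rfl⟩
      rw [add_sub_cancel_left]
      exact hh
  have h2 : Set.InjOn (fun h : Matrix (Fin n) (Fin n) F => 1 + h) (cor n F k) :=
    fun a _ b _ hab => add_left_cancel hab
  rw [h1, Finset.card_image_of_injOn h2, Finset.sum_image h2]
  congr 1
  refine Finset.sum_congr rfl fun h _ => ?_
  have h3 : FLC.sd ∅ (1 + h) = 0 := by
    unfold FLC.sd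
    simp
  rw [h3, neg_zero, AddChar.map_zero_eq_one, mul_one]

/-- the average of `|X|²` over the corner group -/
theorem tsq_avg [DecidableEq F] (ψ : AddChar F ℂ) (k : ℕ) (X : GL (Fin n) F → ℂ)
    (c m : (GL (Fin n) F → ℂ) → ℕ)
    (hc : ∀ g, ((‖X g‖ ^ 2 : ℝ) : ℂ) = ∑ Y ∈ irrF (GL (Fin n) F), (c Y : ℂ) * Y g)
    (hm : ∀ Y ∈ irrF (GL (Fin n) F), mu ψ k Y 0 = m Y) :
    (∑ h ∈ cor n F k, ‖FLC.xm X (1 + h)‖ ^ 2) / ((cor n F k).card : ℝ) =
      ∑ Y ∈ irrF (GL (Fin n) F), (c Y : ℝ) * m Y := by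
  apply Complex.ofReal_injective
  rw [Complex.ofReal_div, Complex.ofReal_sum, Complex.ofReal_sum, Complex.ofReal_natCast]
  have h1 : ∀ h ∈ cor n F k, ((‖FLC.xm X (1 + h)‖ ^ 2 : ℝ) : ℂ) =
      ∑ Y ∈ irrF (GL (Fin n) F), (c Y : ℂ) * FLC.xm Y (1 + h) := by
    intro h hh
    rw [tsq_xm k hh, hc]
    refine Finset.sum_congr rfl fun Y _ => ?_
    rw [tsq_xm k hh]
  rw [Finset.sum_congr rfl h1, Finset.sum_comm, Finset.sum_div]
  refine Finset.sum_congr rfl fun Y hY => ?_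
  rw [← Finset.mul_sum, mul_div_assoc, ← tsq_mu_zero ψ, hm Y hY, Complex.ofReal_mul,
    Complex.ofReal_natCast, Complex.ofReal_natCast]

theorem t_TSQ : M_TSQ := by
  classical
  intro hMN hSTR hZET hLIN hFLB hMUB ε hε c
  obtain ⟨s, hs, hs1, hs2⟩ : ∃ s : ℝ, 0 < s ∧ s ≤ 1 / 8 ∧ 8 * s ≤ ε := by
    refine ⟨min ε 1 / 8, ?_, ?_, ?_⟩
    · have : 0 < min ε 1 := lt_min hε one_pos
      linarith
    · have : min ε 1 ≤ 1 := min_le_right _ _
      linarith
    · have : min ε 1 ≤ ε := min_le_left _ _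
      linarith
  obtain ⟨r1, h1⟩ := hFLB s hs
  obtain ⟨c0, r2, hc0, h2⟩ := hZET s hs
  obtain ⟨r3, h3⟩ := exists_nat_ge (2 * ((c : ℝ) ^ 2 + 2) / (3 * s))
  refine ⟨max (max r1 r2) (max r3 8), fun n hn F _ _ _ ψ hψ X hX hX1 k hk hk1 hk2 => ?_⟩
  have hnr1 : r1 ≤ n := (le_max_left _ _).trans ((le_max_left _ _).trans hn)
  have hnr2 : r2 ≤ n := (le_max_right _ _).trans ((le_max_left _ _).trans hn)
  have hnr3 : r3 ≤ n := (le_max_left _ _).trans ((le_max_right _ _).trans hn)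
  have hn8 : 8 ≤ n := (le_max_right _ _).trans ((le_max_right _ _).trans hn)
  have hq : (2 : ℝ) ≤ Nat.card F := by
    have h4 : 1 < Nat.card F := Finite.one_lt_card
    exact_mod_cast h4
  have hq0 : (0 : ℝ) < Nat.card F := by linarith
  obtain ⟨cc, hcc1, hcc2, hcc3⟩ := tsq_group hMN hX
  -- the multiplicities
  have hmu : ∀ Y : GL (Fin n) F → ℂ, ∃ m : ℕ, Y ∈ irrF (GL (Fin n) F) → mu ψ k Y 0 = m := by
    intro Y
    by_cases hY : Y ∈ irrF (GL (Fin n) F)
    · obtain ⟨j, hj⟩ := (hMUB n F ψ hψ k Y (mem_irrF.1 hY).isChr).1 0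
      exact ⟨j, fun _ => hj⟩
    · exact ⟨0, fun h => absurd h hY⟩
  choose m hm using hmu
  have hdeg : ∀ Y ∈ irrF (GL (Fin n) F), 1 ≤ (Y 1).re := by
    intro Y hY
    obtain ⟨j, hj0, hj⟩ := (mem_irrF.1 hY).exists_degree
    rw [hj, Complex.natCast_re]
    exact_mod_cast hj0
  have hmle : ∀ Y ∈ irrF (GL (Fin n) F), (m Y : ℝ) ≤ (Y 1).re := by
    intro Y hY
    obtain ⟨g1, -, g3, -⟩ := hMUB n F ψ hψ k Y (mem_irrF.1 hY).isChr
    rw [← g3]
    have h5 : (m Y : ℝ) = (mu ψ k Y 0).re := by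
      rw [hm Y hY, Complex.natCast_re]
    rw [h5]
    refine Finset.single_le_sum (f := fun T => (mu ψ k Y T).re) (fun T _ => ?_) ?_
    · obtain ⟨j, hj⟩ := g1 T
      change 0 ≤ (mu ψ k Y T).re
      rw [hj, Complex.natCast_re]
      exact Nat.cast_nonneg j
    · exact tsq_zero_cot k
  rw [(hMUB n F ψ hψ k X hX.isChr).2.2.2.1, tsq_avg ψ k X cc m hcc1 hm]
  -- the degree of X
  obtain ⟨ψ0, j, -, hj⟩ := hSTR n F
  have hlev : 1 ≤ j X := by
    by_contra h4
    obtain ⟨l, hl⟩ := (hj X hX).2.2.2.2 (by omega)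
    apply hX1
    rw [hl]
    change ((l (Matrix.GeneralLinearGroup.det 1) : ℂˣ) : ℂ) = 1
    rw [map_one, map_one, Units.val_one]
  have hD : (Nat.card F : ℝ) ^ ((n : ℝ) / 2) ≤ 4 * (X 1).re := by
    refine le_trans ?_ (hj X hX).1
    refine Real.rpow_le_rpow_of_exponent_le (by linarith) ?_
    have h4 : (1 : ℝ) ≤ j X := by exact_mod_cast hlev
    have h5 : (0 : ℝ) ≤ n := Nat.cast_nonneg n
    nlinarith
  have hn2 : 2 * ((c : ℝ) ^ 2 + 2) ≤ 3 * s * n := by
    have h4 : 2 * ((c : ℝ) ^ 2 + 2) / (3 * s) ≤ n := h3.trans (by exact_mod_cast hnr3)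
    rw [div_le_iff₀ (by linarith)] at h4
    linarith
  obtain ⟨hD1, hfin⟩ := tsq_fin s ((c : ℝ) ^ 2) hs n hn8 hn2 (Nat.card F) (X 1).re hq hD
  have hK : (1 : ℝ) ≤ (Nat.card F : ℝ) ^ ((c : ℝ) ^ 2) :=
    Real.one_le_rpow (by linarith) (by positivity)
  have hmain := tsq_num (irrF (GL (Fin n) F)) (fun Y => Y 1 = 1) (fun Y => (cc Y : ℝ))
    (fun Y => (m Y : ℝ)) (fun Y => (Y 1).re) (X 1).re ((Nat.card F : ℝ) ^ ((c : ℝ) ^ 2))
    (Nat.card F) s ?_ ?_ hdeg ?_ hcc3.le ?_ ?_ ?_ hD1 hK hs hs1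
  · refine hmain.trans ?_
    have h5 : 2 * (Nat.card F : ℝ) * (Nat.card F : ℝ) ^ ((c : ℝ) ^ 2) *
        (X 1).re ^ (3 / 2 + 2 * s) ≤ (X 1).re ^ (3 / 2 + 8 * s) := hfin
    refine h5.trans ?_
    exact Real.rpow_le_rpow_of_exponent_le hD1 (by linarith)
  · intro Y hY
    exact ⟨Nat.cast_nonneg _, hcc2 Y (mem_irrF.1 hY)⟩
  · intro Y hY
    exact ⟨Nat.cast_nonneg _, hmle Y hY⟩
  · intro Y _ hY1
    have h5 : Y 1 = 1 := hY1
    rw [h5, Complex.one_re]
  · intro Y hY hY1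
    have h5 := h1 n hnr1 F Y (mem_irrF.1 hY) hY1 ψ 2 (tsq_d k) (by norm_num) (tsq_d_mono k)
      (tsq_d_card k n)
    rw [tsq_av, hm Y hY, Complex.natCast_re] at h5
    refine h5.trans ?_
    have h6 : (1 / ((2 : ℕ) : ℝ) + s) = 1 / 2 + s := by norm_num
    rw [h6]
    refine mul_le_mul_of_nonneg_right ?_ (Real.rpow_nonneg (zero_le_one.trans (hdeg Y hY)) _)
    exact Real.rpow_le_rpow_of_exponent_le (by linarith) (tsq_exp n k c hk hk1 hk2)
  · have h5 := h2 n hnr2 F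
    have h6 : (Nat.card F : ℝ) ^ (-(c0 * n)) ≤ 1 :=
      Real.rpow_le_one_of_one_le_of_nonpos (by linarith) (by
        have : 0 ≤ c0 * n := mul_nonneg hc0.le (Nat.cast_nonneg n)
        linarith)
    have h7 : ((Nat.card F : ℝ) - 1) * (Nat.card F : ℝ) ^ (-(c0 * n)) ≤ (Nat.card F : ℝ) - 1 :=
      mul_le_of_le_one_right (by linarith) h6
    refine le_trans (le_of_eq ?_) (h5.trans h7)
    refine Finset.sum_congr ?_ fun _ _ => rfl
    ext Y
    rw [Finset.mem_filter]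
  · have h5 := hLIN n (by omega) F (fun _ => 1) 1 (fun _ => rfl)
    rw [Finset.sum_const, nsmul_eq_mul, mul_one, mul_one] at h5
    have h6 : (((irrF (GL (Fin n) F)).filter (fun X => X 1 = 1)).card : ℝ) = (Nat.card F : ℝ) - 1 := by
      apply Complex.ofReal_injective
      rw [Complex.ofReal_sub, Complex.ofReal_natCast, Complex.ofReal_natCast, Complex.ofReal_one]
      refine Eq.trans ?_ h5
      congr 3
    refine le_of_eq ?_
    rw [← h6]

end SRJ
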