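import Mathlib
import Pool.Agent.SRJ.StC
import Pool.Agent.SRJ.TSQ
import Pool.Agent.SRJ.RKC

/-!
# SRJ: the sharper bound for the multiplicities for the corner group

MP_5b5212_al, module MRB.
-/

set_option autoImplicit false

namespace SRJ

open Pool.Agent.Lib_helper13

/-! ### The numerical part -/

theorem mrb_c (c y D N : ℝ) (hc : 0 ≤ c) (hy : 1 ≤ y) (hD : 1 ≤ D) (hN : 1 ≤ N)
    (h1 : N * (c * y) ≤ 16 * D) (h2 : c * D ≤ 4 * N ^ 3 * y) :
    c ≤ 16 * D ^ (1 / 2 : ℝ) * y ^ (-(1 / 2) : ℝ) := by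
  have hy0 : 0 < y := by linarith
  have hD0 : 0 < D := by linarith
  have hN0 : 0 < N := by linarith
  obtain ⟨P, hP⟩ : ∃ P, P = D ^ (1 / 2 : ℝ) := ⟨_, rfl⟩
  obtain ⟨Q, hQ⟩ : ∃ Q, Q = y ^ (-(1 / 2) : ℝ) := ⟨_, rfl⟩
  have hP0 : 0 < P := by rw [hP]; exact Real.rpow_pos_of_pos hD0 _
  have hQ0 : 0 < Q := by rw [hQ]; exact Real.rpow_pos_of_pos hy0 _
  have hP2 : P ^ 2 = D := by
    rw [hP, ← Real.rpow_natCast, ← Real.rpow_mul hD0.le]
    norm_num
  have hQ2 : Q ^ 2 * y = 1 := by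
    rw [hQ, ← Real.rpow_natCast, ← Real.rpow_mul hy0.le, ← Real.rpow_add_one hy0.ne']
    norm_num
  rw [← hP, ← hQ]
  have h3 : (N * (c * y)) ^ 3 * (c * D) ≤ (16 * D) ^ 3 * (4 * N ^ 3 * y) := by
    refine mul_le_mul (pow_le_pow_left₀ (by positivity) h1 3) h2 (by positivity) (by positivity)
  have h4 : (c ^ 2 * y) ^ 2 ≤ (128 * D) ^ 2 := by
    have h5 : (N ^ 3 * y * D) * (c ^ 2 * y) ^ 2 ≤ (N ^ 3 * y * D) * (128 * D) ^ 2 := by
      calc (N ^ 3 * y * D) * (c ^ 2 * y) ^ 2 = (N * (c * y)) ^ 3 * (c * D) := by ring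
        _ ≤ (16 * D) ^ 3 * (4 * N ^ 3 * y) := h3
        _ = (N ^ 3 * y * D) * (128 * D) ^ 2 := by ring
    exact le_of_mul_le_mul_left h5 (by positivity)
  have h6 : c ^ 2 * y ≤ 128 * D := by
    exact (pow_le_pow_iff_left₀ (by positivity) (by positivity) two_ne_zero).1 h4
  refine (pow_le_pow_iff_left₀ hc (by positivity) two_ne_zero).1 ?_
  have h7 : c ^ 2 = (c ^ 2 * y) * Q ^ 2 := by
    calc c ^ 2 = c ^ 2 * (Q ^ 2 * y) := by rw [hQ2, mul_one]
      _ = _ := by ring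
  rw [h7]
  calc (c ^ 2 * y) * Q ^ 2 ≤ (128 * D) * Q ^ 2 := mul_le_mul_of_nonneg_right h6 (by positivity)
    _ ≤ (256 * D) * Q ^ 2 := by
      refine mul_le_mul_of_nonneg_right (by linarith) (by positivity)
    _ = (16 * P * Q) ^ 2 := by rw [← hP2]; ring

theorem mrb_num {ι : Type*} (T : Finset ι) (p : ι → Prop) [DecidablePred p] (c m y : ι → ℝ)
    (D K q s : ℝ) (hc : ∀ i ∈ T, 0 ≤ c i ∧ c i ≤ 16 * D ^ (1 / 2 : ℝ) * y i ^ (-(1 / 2) : ℝ))
    (hm : ∀ i ∈ T, 0 ≤ m i ∧ m i ≤ y i)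
    (hy : ∀ i ∈ T, 1 ≤ y i) (hp : ∀ i ∈ T, p i → y i = 1)
    (hyD : ∀ i ∈ T, c i ≠ 0 → y i ≤ 16 * D)
    (hmK : ∀ i ∈ T, ¬ p i → m i ≤ K * y i ^ (1 / 2 + s))
    (hz : ∑ i ∈ T.filter (fun i => ¬ p i), y i ^ (-s) ≤ q - 1)
    (h1 : ((T.filter p).card : ℝ) ≤ q - 1)
    (hD : 1 ≤ D) (hK : 1 ≤ K) (hs : 0 < s) (hs1 : s ≤ 1 / 8) :
    ∑ i ∈ T, c i * m i ≤ 64 * q * K * D ^ (1 / 2 + 2 * s) := by
  have hD0 : 0 < D := lt_of_lt_of_le one_pos hD
  have hK0 : 0 < K := lt_of_lt_of_le one_pos hK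
  obtain ⟨P, hP⟩ : ∃ P, P = D ^ (1 / 2 + 2 * s) := ⟨_, rfl⟩
  have hP1 : 1 ≤ P := by
    rw [hP]
    exact Real.one_le_rpow hD (by linarith)
  have hDP : D ^ (1 / 2 : ℝ) ≤ P := by
    rw [hP]
    exact Real.rpow_le_rpow_of_exponent_le hD (by linarith)
  rw [← hP, ← Finset.sum_filter_add_sum_filter_not T p]
  have hq : 0 ≤ q - 1 := le_trans (Nat.cast_nonneg _) h1
  have e1 : ∑ i ∈ T.filter p, c i * m i ≤ (q - 1) * (16 * K * P) := by
    have e0 : ∑ i ∈ T.filter p, c i * m i ≤ ∑ _i ∈ T.filter p, 16 * K * P := by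
      refine Finset.sum_le_sum fun i hi => ?_
      rw [Finset.mem_filter] at hi
      have h2 := hc i hi.1
      have h3 := hm i hi.1
      rw [hp i hi.1 hi.2] at h2 h3
      rw [Real.one_rpow, mul_one] at h2
      calc c i * m i ≤ c i * 1 := mul_le_mul_of_nonneg_left h3.2 h2.1
        _ ≤ 16 * D ^ (1 / 2 : ℝ) := by rw [mul_one]; exact h2.2
        _ ≤ 16 * P := by linarith
        _ ≤ 16 * K * P := by nlinarith
    refine e0.trans ?_
    rw [Finset.sum_const, nsmul_eq_mul]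
    exact mul_le_mul_of_nonneg_right h1 (by positivity)
  have e2 : ∀ i ∈ T.filter (fun i => ¬ p i), c i * m i ≤ 32 * K * P * y i ^ (-s) := by
    intro i hi
    rw [Finset.mem_filter] at hi
    have h2 := hc i hi.1
    have h4 := hy i hi.1
    have h5 := hmK i hi.1 hi.2
    have h6 : 0 < y i := lt_of_lt_of_le one_pos h4
    rcases eq_or_ne (c i) 0 with h7 | h7
    · rw [h7, zero_mul]
      exact mul_nonneg (by positivity) (Real.rpow_nonneg h6.le _)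
    · have h8 := hyD i hi.1 h7
      have h9 : y i ^ (2 * s) ≤ 2 * D ^ (2 * s) := by
        calc y i ^ (2 * s) ≤ (16 * D) ^ (2 * s) := Real.rpow_le_rpow h6.le h8 (by linarith)
          _ = 16 ^ (2 * s) * D ^ (2 * s) := Real.mul_rpow (by norm_num) hD0.le
          _ ≤ 2 * D ^ (2 * s) := by
            refine mul_le_mul_of_nonneg_right ?_ (Real.rpow_nonneg hD0.le _)
            calc (16 : ℝ) ^ (2 * s) ≤ 16 ^ (1 / 4 : ℝ) :=
                  Real.rpow_le_rpow_of_exponent_le (by norm_num) (by linarith)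
              _ = (2 ^ (4 : ℝ)) ^ (1 / 4 : ℝ) := by norm_num
              _ = 2 := by
                rw [← Real.rpow_mul (by norm_num)]
                norm_num
      calc c i * m i ≤ (16 * D ^ (1 / 2 : ℝ) * y i ^ (-(1 / 2) : ℝ)) * (K * y i ^ (1 / 2 + s)) :=
            mul_le_mul h2.2 h5 (hm i hi.1).1 (by positivity)
        _ = 16 * K * D ^ (1 / 2 : ℝ) * (y i ^ (2 * s) * y i ^ (-s)) := by
            have e3 : y i ^ (-(1 / 2) : ℝ) * y i ^ (1 / 2 + s) = y i ^ (2 * s) * y i ^ (-s) := by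
              rw [← Real.rpow_add h6, ← Real.rpow_add h6]
              congr 1
              ring
            rw [← e3]
            ring
        _ ≤ 16 * K * D ^ (1 / 2 : ℝ) * (2 * D ^ (2 * s) * y i ^ (-s)) := by
            refine mul_le_mul_of_nonneg_left ?_ (by positivity)
            exact mul_le_mul_of_nonneg_right h9 (Real.rpow_nonneg h6.le _)
        _ = 32 * K * P * y i ^ (-s) := by
            rw [hP, Real.rpow_add hD0]
            ring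
  have e4 : ∑ i ∈ T.filter (fun i => ¬ p i), c i * m i ≤ 32 * K * P * (q - 1) := by
    calc ∑ i ∈ T.filter (fun i => ¬ p i), c i * m i
        ≤ ∑ i ∈ T.filter (fun i => ¬ p i), 32 * K * P * y i ^ (-s) := Finset.sum_le_sum e2
      _ = 32 * K * P * (∑ i ∈ T.filter (fun i => ¬ p i), y i ^ (-s)) := by
          rw [Finset.mul_sum]
      _ ≤ 32 * K * P * (q - 1) := mul_le_mul_of_nonneg_left hz (by positivity)
  have h5 : 0 ≤ K * P := by positivity
  nlinarith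

theorem mrb_fin (s a : ℝ) (hs : 0 < s) (n : ℕ) (hn : 8 ≤ n) (hn2 : 4 * (a + 7) ≤ s * n)
    (q D : ℝ) (hq : 2 ≤ q) (hD : q ^ ((n : ℝ) / 2) ≤ 4 * D) :
    1 ≤ D ∧ 64 * q * q ^ a * D ^ (1 / 2 + 2 * s) ≤ D ^ (1 / 2 + 3 * s) := by
  have hq0 : 0 < q := by linarith
  have hn' : (8 : ℝ) ≤ n := by exact_mod_cast hn
  have h1 : q ^ ((n : ℝ) / 2) = q ^ ((n : ℝ) / 4) * q ^ ((n : ℝ) / 4) := by
    rw [← Real.rpow_add hq0]
    congr 1
    ring
  have h2 : (4 : ℝ) ≤ q ^ ((n : ℝ) / 4) := by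
    calc (4 : ℝ) = 2 ^ (2 : ℝ) := by norm_num
      _ ≤ q ^ (2 : ℝ) := Real.rpow_le_rpow (by norm_num) hq (by norm_num)
      _ ≤ q ^ ((n : ℝ) / 4) := Real.rpow_le_rpow_of_exponent_le (by linarith) (by linarith)
  have h3 : q ^ ((n : ℝ) / 4) ≤ D := by
    rw [h1] at hD
    nlinarith
  have hD1 : 1 ≤ D := by linarith
  have hD0 : 0 < D := by linarith
  refine ⟨hD1, ?_⟩
  have h4 : q ^ (s * n / 4) ≤ D ^ s := by
    calc q ^ (s * n / 4) = (q ^ ((n : ℝ) / 4)) ^ s := by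
          rw [← Real.rpow_mul hq0.le]
          congr 1
          ring
      _ ≤ D ^ s := Real.rpow_le_rpow (by linarith) h3 (by linarith)
  have h5 : 64 * q * q ^ a ≤ q ^ (s * n / 4) := by
    have h6 : (64 : ℝ) ≤ q ^ (6 : ℝ) := by
      calc (64 : ℝ) = 2 ^ (6 : ℝ) := by norm_num
        _ ≤ q ^ (6 : ℝ) := Real.rpow_le_rpow (by norm_num) hq (by norm_num)
    calc 64 * q * q ^ a ≤ q ^ (6 : ℝ) * q * q ^ a := by
          refine mul_le_mul_of_nonneg_right ?_ (Real.rpow_nonneg hq0.le _)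
          exact mul_le_mul_of_nonneg_right h6 hq0.le
      _ = q ^ (6 + 1 + a) := by
          rw [Real.rpow_add hq0, Real.rpow_add hq0, Real.rpow_one]
      _ ≤ q ^ (s * n / 4) := by
          refine Real.rpow_le_rpow_of_exponent_le (by linarith) ?_
          linarith
  calc 64 * q * q ^ a * D ^ (1 / 2 + 2 * s) ≤ D ^ s * D ^ (1 / 2 + 2 * s) :=
        mul_le_mul_of_nonneg_right (h5.trans h4) (Real.rpow_nonneg hD0.le _)
    _ = D ^ (1 / 2 + 3 * s) := by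
        rw [← Real.rpow_add hD0]
        congr 1
        ring

/-- the case of a small middle part -/
theorem mrb_small (q : ℕ) (D x s a : ℝ) (N n l : ℕ) (hq : 2 ≤ q) (hN : 1 ≤ N) (hx : 0 ≤ x) (hs : 0 < s)
    (hD : 1 ≤ D) (h1 : (N : ℝ) * x ≤ 16 * D) (h2 : D ^ 2 ≤ (q : ℝ) ^ (n * n))
    (h3 : N ^ 4 * q ^ (l * l) = q ^ (n * n)) (ha : (l : ℝ) * l ≤ 4 * a) :
    x ≤ 64 * q * (q : ℝ) ^ a * D ^ (1 / 2 + 2 * s) := by
  have hq' : (2 : ℝ) ≤ q := by exact_mod_cast hq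
  have hq0 : (0 : ℝ) < q := by linarith
  have hN' : (1 : ℝ) ≤ N := by exact_mod_cast hN
  have hD0 : 0 < D := by linarith
  obtain ⟨P, hP⟩ : ∃ P, P = D ^ (1 / 2 : ℝ) := ⟨_, rfl⟩
  have hP0 : 0 < P := by rw [hP]; exact Real.rpow_pos_of_pos hD0 _
  have hP2 : P ^ 2 = D := by
    rw [hP, ← Real.rpow_natCast, ← Real.rpow_mul hD0.le]
    norm_num
  obtain ⟨R, hR⟩ : ∃ R, R = (q : ℝ) ^ a := ⟨_, rfl⟩
  have hR0 : 0 < R := by rw [hR]; exact Real.rpow_pos_of_pos hq0 _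
  have hR4 : (q : ℝ) ^ (l * l) ≤ R ^ 4 := by
    rw [hR, ← Real.rpow_natCast (_ ^ a) 4, ← Real.rpow_mul hq0.le, ← Real.rpow_natCast _ (l * l)]
    refine Real.rpow_le_rpow_of_exponent_le (by linarith) ?_
    push_cast
    linarith
  have h3' : (N : ℝ) ^ 4 * (q : ℝ) ^ (l * l) = (q : ℝ) ^ (n * n) := by exact_mod_cast h3
  have h4 : x ≤ 16 * P * R := by
    refine (pow_le_pow_iff_left₀ hx (by positivity) (n := 4) (by norm_num)).1 ?_
    have h5 : (N : ℝ) ^ 4 * x ^ 4 ≤ (N : ℝ) ^ 4 * (16 * P * R) ^ 4 := by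
      calc (N : ℝ) ^ 4 * x ^ 4 = ((N : ℝ) * x) ^ 4 := by ring
        _ ≤ (16 * D) ^ 4 := pow_le_pow_left₀ (by positivity) h1 4
        _ = 16 ^ 4 * D ^ 2 * D ^ 2 := by ring
        _ ≤ 16 ^ 4 * D ^ 2 * (q : ℝ) ^ (n * n) := mul_le_mul_of_nonneg_left h2 (by positivity)
        _ = (N : ℝ) ^ 4 * (16 ^ 4 * P ^ 4 * (q : ℝ) ^ (l * l)) := by
            rw [← h3', ← hP2]
            ring
        _ ≤ (N : ℝ) ^ 4 * (16 ^ 4 * P ^ 4 * R ^ 4) := by
            refine mul_le_mul_of_nonneg_left ?_ (by positivity)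
            exact mul_le_mul_of_nonneg_left hR4 (by positivity)
        _ = (N : ℝ) ^ 4 * (16 * P * R) ^ 4 := by ring
    exact le_of_mul_le_mul_left h5 (by positivity)
  have h6 : P ≤ D ^ (1 / 2 + 2 * s) := by
    rw [hP]
    exact Real.rpow_le_rpow_of_exponent_le hD (by linarith)
  rw [← hR]
  calc x ≤ 16 * P * R := h4
    _ ≤ 16 * D ^ (1 / 2 + 2 * s) * R := by
        refine mul_le_mul_of_nonneg_right ?_ hR0.le
        linarith
    _ = 16 * R * D ^ (1 / 2 + 2 * s) := by ring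
    _ ≤ 64 * q * R * D ^ (1 / 2 + 2 * s) := by
        refine mul_le_mul_of_nonneg_right ?_ (Real.rpow_nonneg hD0.le _)
        nlinarith

/-! ### Matrices -/

variable {F : Type} [Field F] [Fintype F]

theorem mrb_T0_cot (n r k : ℕ) (h1 : r ≤ k) (h2 : k + r ≤ n) : T0 n r F ∈ cot n F k := by
  classical
  unfold cot
  refine Finset.mem_filter.2 ⟨Finset.mem_univ _, fun i j h => ?_⟩
  unfold T0
  rw [if_neg]
  rintro ⟨h3, h4⟩
  exact h ⟨by omega, by omega⟩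

theorem mrb_T0_rank (n r : ℕ) (h : 2 * r ≤ n) : (T0 n r F).rank = r := by
  classical
  apply le_antisymm
  · obtain ⟨m, rfl⟩ : ∃ m, n = r + m := ⟨n - r, by omega⟩
    obtain ⟨M, hM⟩ := rkc_exists (T0 (r + m) r F) (mrb_T0_cot (r + m) r r le_rfl (by omega))
    rw [← hM, rkc_rank]
    exact Matrix.rank_le_width M
  · have h1 : (T0 n r F).submatrix (fun s : Fin r => (⟨n - r + s.val, by omega⟩ : Fin n))
        (fun s : Fin r => (⟨s.val, by omega⟩ : Fin n)) = 1 := by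
      ext s t
      rw [Matrix.submatrix_apply, T0]
      by_cases hst : s = t
      · subst hst
        rw [if_pos ⟨s.isLt, by
          change n - r + s.val + r = n + s.val
          omega⟩, Matrix.one_apply_eq]
      · rw [Matrix.one_apply_ne hst, if_neg]
        rintro ⟨-, h2⟩
        apply hst
        apply Fin.ext
        change n - r + s.val + r = n + t.val at h2
        omega
    have h2 : (1 : Matrix (Fin r) (Fin r) F).rank = r := by
      rw [Matrix.rank_one, Fintype.card_fin]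
    calc r = (1 : Matrix (Fin r) (Fin r) F).rank := h2.symm
      _ ≤ (T0 n r F).rank := by
        rw [← h1]
        exact Matrix.rank_submatrix_le _ _ _

theorem mrb_conj [DecidableEq F] (hMUB : S_MUB) (n k : ℕ) (hk : k ≤ n) (ψ : AddChar F ℂ) (hψ : ψ ≠ 1)
    (X : GL (Fin n) F → ℂ) (hX : IsChr X) (T T' : Matrix (Fin n) (Fin n) F) (hT : T ∈ cot n F k)
    (hT' : T' ∈ cot n F k) (h : T.rank = T'.rank) : mu ψ k X T = mu ψ k X T' := by
  obtain ⟨m, rfl⟩ := Nat.exists_eq_add_of_le hk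
  obtain ⟨-, -, -, -, hconj⟩ := hMUB (k + m) F ψ hψ k X hX
  obtain ⟨M, rfl⟩ := rkc_exists T hT
  obtain ⟨M', rfl⟩ := rkc_exists T' hT'
  rw [rkc_rank, rkc_rank] at h
  obtain ⟨a, b, hab⟩ := rkc_mat M M' h
  have h1 := hconj (rkc_g a b) (rkc_c M) (rkc_bd a b)
  rw [rkc_conj, hab] at h1
  exact h1.symm

theorem mrb_rank_le (n k : ℕ) (hk : k ≤ n) (T : Matrix (Fin n) (Fin n) F) (hT : T ∈ cot n F k) :
    T.rank ≤ k ∧ k + T.rank ≤ n := by
  obtain ⟨m, rfl⟩ := Nat.exists_eq_add_of_le hk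
  obtain ⟨M, rfl⟩ := rkc_exists T hT
  rw [rkc_rank]
  have h1 := Matrix.rank_le_width M
  have h2 := Matrix.rank_le_height M
  omega

theorem mrb_lin {l : ℕ} (ψ : AddChar F ℂ) (k : ℕ) (Φ : GL (Fin l) F → ℂ) {ι : Type} (S : Finset ι)
    (c : ι → ℂ) (Y : ι → GL (Fin l) F → ℂ) (h : ∀ g, Φ g = ∑ i ∈ S, c i * Y i g) :
    mu ψ k Φ 0 = ∑ i ∈ S, c i * mu ψ k (Y i) 0 := by
  rw [tsq_mu_zero]
  have h1 : ∀ x ∈ cor l F k, FLC.xm Φ (1 + x) = ∑ i ∈ S, c i * FLC.xm (Y i) (1 + x) := by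
    intro x hx
    rw [tsq_xm k hx, h]
    exact Finset.sum_congr rfl fun i _ => by rw [tsq_xm k hx]
  rw [Finset.sum_congr rfl h1, Finset.sum_comm, Finset.sum_div]
  refine Finset.sum_congr rfl fun i _ => ?_
  rw [tsq_mu_zero, ← Finset.mul_sum, mul_div_assoc]

theorem mrb_GL_le (n : ℕ) : Nat.card (GL (Fin n) F) ≤ Nat.card F ^ (n * n) := by
  classical
  have h2 : Nat.card (GL (Fin n) F) ≤ Nat.card (Matrix (Fin n) (Fin n) F) :=
    Nat.card_le_card_of_injective (fun A : GL (Fin n) F => A.1) Units.val_injective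
  have h3 : Nat.card (Matrix (Fin n) (Fin n) F) = Nat.card F ^ (n * n) := by
    unfold Matrix
    rw [pow_mul]
    simp [Nat.card_pi, Nat.card_fun]
  omega

theorem mrb_GL_ge (hPI : RSF.S_PI) (l : ℕ) :
    (Nat.card F : ℝ) ^ (l * l) ≤ 4 * Nat.card (GL (Fin l) F) := by
  classical
  have hq : 2 ≤ Nat.card F := Finite.one_lt_card
  have h1 := rkc_prod hPI (Nat.card F) hq l l le_rfl
  rw [Matrix.card_GL_field, ← Nat.card_eq_fintype_card]
  exact h1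

theorem mrb_deg {n : ℕ} {X : GL (Fin n) F → ℂ} (hX : IsIrr X) :
    (X 1).re ^ 2 ≤ (Nat.card F : ℝ) ^ (n * n) := by
  classical
  have h1 := sum_sq (Y := GL (Fin n) F)
  have h2 : ∑ χ ∈ irrF (GL (Fin n) F), (χ 1).re ^ 2 = (Nat.card (GL (Fin n) F) : ℝ) := by
    apply Complex.ofReal_injective
    rw [Complex.ofReal_sum, Complex.ofReal_natCast, ← h1]
    refine Finset.sum_congr rfl fun χ hχ => ?_
    obtain ⟨j, -, hj⟩ := (mem_irrF.1 hχ).exists_degree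
    rw [hj, Complex.natCast_re]
    push_cast
    ring
  have h3 : (X 1).re ^ 2 ≤ (Nat.card (GL (Fin n) F) : ℝ) := by
    rw [← h2]
    exact Finset.single_le_sum (f := fun χ : GL (Fin n) F → ℂ => (χ 1).re ^ 2)
      (fun χ _ => sq_nonneg _) (mem_irrF.2 hX)
  refine h3.trans ?_
  exact_mod_cast mrb_GL_le (F := F) n

theorem mrb_pow (q n r l : ℕ) (h : n = 2 * r + l) :
    (q ^ (r * (n - r))) ^ 4 * q ^ (l * l) = q ^ (n * n) := by
  subst h
  rw [← pow_mul, ← pow_add]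
  congr 1
  have : 2 * r + l - r = r + l := by omega
  rw [this]
  ring

/-- the multiplicities -/
theorem mrb_phi [DecidableEq F] (hPI : RSF.S_PI) (hMUB : S_MUB) (hRKC : S_RKC) (hPHC : S_PHC)
    (hFRR : S_FRR) (n r l k : ℕ) (hn : n = 2 * r + l) (hk : k ≤ l) (ψ : AddChar F ℂ) (hψ : ψ ≠ 1)
    (X : GL (Fin n) F → ℂ) (hX : IsIrr X) (hD : 1 ≤ (X 1).re) :
    ∃ (c m : (GL (Fin l) F → ℂ) → ℕ),
      mu ψ k (Ph ψ n r l X) 0 = ∑ Y ∈ irrF (GL (Fin l) F), (c Y : ℂ) * m Y ∧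
      (∀ Y ∈ irrF (GL (Fin l) F), mu ψ k Y 0 = m Y) ∧
      (∀ Y ∈ irrF (GL (Fin l) F), 1 ≤ (Y 1).re) ∧
      (∀ Y ∈ irrF (GL (Fin l) F), (m Y : ℝ) ≤ (Y 1).re) ∧
      (∀ Y ∈ irrF (GL (Fin l) F), (c Y : ℝ) ≤ 16 * (X 1).re ^ (1 / 2 : ℝ) *
        (Y 1).re ^ (-(1 / 2) : ℝ)) ∧
      (∀ Y ∈ irrF (GL (Fin l) F), (c Y : ℝ) ≠ 0 → (Y 1).re ≤ 16 * (X 1).re) ∧
      0 ≤ (mu ψ k (Ph ψ n r l X) 0).re ∧
      ((Nat.card F ^ (r * (n - r)) : ℕ) : ℝ) * (mu ψ k (Ph ψ n r l X) 0).re ≤ 16 * (X 1).re := by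
  classical
  obtain ⟨hΦ, hΦ1⟩ := hPHC n r l F ψ hψ hn X hX.isChr
  have hq : 2 ≤ Nat.card F := Finite.one_lt_card
  have hN1 : 1 ≤ Nat.card F ^ (r * (n - r)) := Nat.one_le_pow _ _ (by omega)
  have hN1' : (1 : ℝ) ≤ ((Nat.card F ^ (r * (n - r)) : ℕ) : ℝ) := by exact_mod_cast hN1
  -- the degree
  have hdegΦ : ((Nat.card F ^ (r * (n - r)) : ℕ) : ℝ) * (Ph ψ n r l X 1).re ≤ 16 * (X 1).re := by
    have h1 := (hRKC n F ψ hψ r X (by omega) hX.isChr (T0 n r F)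
      (mrb_T0_cot n r r le_rfl (by omega))).1
    rw [mrb_T0_rank n r (by omega)] at h1
    rw [hΦ1]
    push_cast
    exact h1
  have h1 : ∀ Y : GL (Fin l) F → ℂ, ∃ c : ℕ, IsIrr Y → ip (Ph ψ n r l X) Y = c := by
    intro Y
    by_cases hY : IsIrr Y
    · obtain ⟨c, hc⟩ := hΦ.exists_ip hY.isChr
      exact ⟨c, fun _ => hc⟩
    · exact ⟨0, fun h => absurd h hY⟩
  choose c hc using h1
  have hmu : ∀ Y : GL (Fin l) F → ℂ, ∃ m : ℕ, Y ∈ irrF (GL (Fin l) F) → mu ψ k Y 0 = m := by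
    intro Y
    by_cases hY : Y ∈ irrF (GL (Fin l) F)
    · obtain ⟨j, hj⟩ := (hMUB l F ψ hψ k Y (mem_irrF.1 hY).isChr).1 0
      exact ⟨j, fun _ => hj⟩
    · exact ⟨0, fun h => absurd h hY⟩
  choose m hm using hmu
  have hexp : ∀ g, Ph ψ n r l X g = ∑ Y ∈ irrF (GL (Fin l) F), (c Y : ℂ) * Y g := by
    intro g
    have h3 := congrFun (class_fn_expand (Ph ψ n r l X) (fun g x => hΦ.conj_eq g x)) g
    refine h3.trans ?_
    refine Finset.sum_congr rfl fun Y hY => ?_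
    rw [hc Y (mem_irrF.1 hY)]
  have hdeg : ∀ Y ∈ irrF (GL (Fin l) F), 1 ≤ (Y 1).re := by
    intro Y hY
    obtain ⟨j, hj0, hj⟩ := (mem_irrF.1 hY).exists_degree
    rw [hj, Complex.natCast_re]
    exact_mod_cast hj0
  have hmle : ∀ Φ : GL (Fin l) F → ℂ, IsChr Φ → 0 ≤ (mu ψ k Φ 0).re ∧
      (mu ψ k Φ 0).re ≤ (Φ 1).re := by
    intro Y hY
    obtain ⟨g1, -, g3, -⟩ := hMUB l F ψ hψ k Y hY
    have g4 : ∀ T, 0 ≤ (mu ψ k Y T).re := by
      intro T
      obtain ⟨j, hj⟩ := g1 T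
      rw [hj, Complex.natCast_re]
      exact Nat.cast_nonneg j
    refine ⟨g4 0, ?_⟩
    rw [← g3]
    exact Finset.single_le_sum (f := fun T => (mu ψ k Y T).re) (fun T _ => g4 T) (tsq_zero_cot k)
  have hsum : ∑ Y ∈ irrF (GL (Fin l) F), (c Y : ℝ) * (Y 1).re = (Ph ψ n r l X 1).re := by
    rw [hexp 1, Complex.re_sum]
    refine Finset.sum_congr rfl fun Y hY => ?_
    obtain ⟨j, -, hj⟩ := (mem_irrF.1 hY).exists_degree
    rw [hj]
    simp
  have hcy : ∀ Y ∈ irrF (GL (Fin l) F), (c Y : ℝ) * (Y 1).re ≤ (Ph ψ n r l X 1).re := by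
    intro Y hY
    rw [← hsum]
    exact Finset.single_le_sum (f := fun Y : GL (Fin l) F → ℂ => (c Y : ℝ) * (Y 1).re)
      (fun Y hY => mul_nonneg (Nat.cast_nonneg _) (zero_le_one.trans (hdeg Y hY))) hY
  refine ⟨c, m, ?_, hm, hdeg, ?_, ?_, ?_, (hmle _ hΦ).1, ?_⟩
  · rw [mrb_lin ψ k (Ph ψ n r l X) (irrF (GL (Fin l) F)) (fun Y => (c Y : ℂ)) (fun Y => Y) hexp]
    refine Finset.sum_congr rfl fun Y hY => ?_
    rw [hm Y hY]
  · intro Y hY
    have h2 := (hmle Y (mem_irrF.1 hY).isChr).2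
    rw [hm Y hY, Complex.natCast_re] at h2
    exact h2
  · intro Y hY
    refine mrb_c (c Y) (Y 1).re (X 1).re ((Nat.card F ^ (r * (n - r)) : ℕ) : ℝ) (Nat.cast_nonneg _)
      (hdeg Y hY) hD hN1' ?_ ?_
    · exact (mul_le_mul_of_nonneg_left (hcy Y hY) (by positivity)).trans hdegΦ
    · have h2 := hFRR n r l F ψ hψ hn X Y hX (mem_irrF.1 hY)
      rw [hc Y (mem_irrF.1 hY), Complex.natCast_re] at h2
      have h3 := mrb_GL_ge (F := F) hPI l
      have h4 : (Nat.card (GL (Fin n) F) : ℝ) ≤ ((Nat.card F ^ (r * (n - r)) : ℕ) : ℝ) ^ 4 *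
          (Nat.card F : ℝ) ^ (l * l) := by
        have h5 := mrb_GL_le (F := F) n
        rw [← mrb_pow (Nat.card F) n r l hn] at h5
        exact_mod_cast h5
      have hY0 : 0 ≤ (Y 1).re := zero_le_one.trans (hdeg Y hY)
      obtain ⟨N, hN⟩ : ∃ N : ℝ, N = ((Nat.card F ^ (r * (n - r)) : ℕ) : ℝ) := ⟨_, rfl⟩
      obtain ⟨Q, hQ⟩ : ∃ Q : ℝ, Q = (Nat.card F : ℝ) ^ (l * l) := ⟨_, rfl⟩
      obtain ⟨G, hG⟩ : ∃ G : ℝ, G = (Nat.card (GL (Fin l) F) : ℝ) := ⟨_, rfl⟩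
      have hN' : (Nat.card F : ℝ) ^ (r * (n - r)) = N := by rw [hN]; push_cast; rfl
      rw [hN', ← hG] at h2
      rw [← hN, ← hQ] at h4
      rw [← hQ, ← hG] at h3
      rw [← hN]
      have hNp : 0 < N := by rw [hN]; linarith
      have hQp : 0 < Q := by
        rw [hQ]
        have : (0 : ℝ) < Nat.card F := by exact_mod_cast (by omega : 0 < Nat.card F)
        positivity
      have hcD : 0 ≤ (c Y : ℝ) * (X 1).re := mul_nonneg (Nat.cast_nonneg _) (by linarith)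
      have h6 : N * Q * ((c Y : ℝ) * (X 1).re) ≤ N * Q * (4 * N ^ 3 * (Y 1).re) := by
        calc N * Q * ((c Y : ℝ) * (X 1).re) ≤ N * (4 * G) * ((c Y : ℝ) * (X 1).re) := by
              refine mul_le_mul_of_nonneg_right ?_ hcD
              exact mul_le_mul_of_nonneg_left h3 hNp.le
          _ = 4 * ((c Y : ℝ) * (X 1).re * (N * G)) := by ring
          _ ≤ 4 * ((Nat.card (GL (Fin n) F) : ℝ) * (Y 1).re) :=
              mul_le_mul_of_nonneg_left h2 (by norm_num)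
          _ ≤ 4 * (N ^ 4 * Q * (Y 1).re) := by
              refine mul_le_mul_of_nonneg_left ?_ (by norm_num)
              exact mul_le_mul_of_nonneg_right h4 hY0
          _ = N * Q * (4 * N ^ 3 * (Y 1).re) := by ring
      exact le_of_mul_le_mul_left h6 (by positivity)
  · intro Y hY hne
    have h2 := hcy Y hY
    have h3 : (1 : ℝ) ≤ c Y := by
      have : c Y ≠ 0 := by exact_mod_cast hne
      exact_mod_cast Nat.one_le_iff_ne_zero.2 this
    have h4 : (Y 1).re ≤ (Ph ψ n r l X 1).re :=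
      le_trans (le_mul_of_one_le_left (zero_le_one.trans (hdeg Y hY)) h3) h2
    have h5 : 0 ≤ (Ph ψ n r l X 1).re := le_trans (zero_le_one.trans (hdeg Y hY)) h4
    have h6 : (Ph ψ n r l X 1).re ≤ ((Nat.card F ^ (r * (n - r)) : ℕ) : ℝ) *
        (Ph ψ n r l X 1).re := le_mul_of_one_le_left h5 hN1'
    linarith
  · exact (mul_le_mul_of_nonneg_left (hmle _ hΦ).2 (by positivity)).trans hdegΦ

theorem t_MRB : M_MRB := by
  classical
  intro hPI hSTR hZET hLIN hFLB hMUB hRKC hPHC hFRR hREX ε hε c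
  obtain ⟨s, hs, hs1, hs2⟩ : ∃ s : ℝ, 0 < s ∧ s ≤ 1 / 8 ∧ 3 * s ≤ ε := by
    refine ⟨min ε 1 / 8, ?_, ?_, ?_⟩
    · have : 0 < min ε 1 := lt_min hε one_pos
      linarith
    · have : min ε 1 ≤ 1 := min_le_right _ _
      linarith
    · have : min ε 1 ≤ ε := min_le_left _ _
      have : 0 < min ε 1 := lt_min hε one_pos
      linarith
  obtain ⟨r1, h1⟩ := hFLB s hs
  obtain ⟨c0, r2, hc0, h2⟩ := hZET s hs
  obtain ⟨L, hL⟩ : ∃ L : ℕ, L = max (max r1 r2) 5 := ⟨_, rfl⟩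
  obtain ⟨a, ha⟩ : ∃ a : ℝ, a = (c : ℝ) ^ 2 + (L : ℝ) ^ 2 := ⟨_, rfl⟩
  have hac : (c : ℝ) ^ 2 ≤ a := by rw [ha]; linarith [sq_nonneg (L : ℝ)]
  have haL : (L : ℝ) ^ 2 ≤ a := by rw [ha]; linarith [sq_nonneg (c : ℝ)]
  have ha0 : 0 ≤ a := (sq_nonneg _).trans hac
  obtain ⟨r3, h3⟩ := exists_nat_ge (4 * (a + 7) / s)
  refine ⟨max r3 8, fun n hn F _ _ _ ψ hψ X hX hX1 k hk hk1 hk2 T hT => ?_⟩
  have hnr3 : r3 ≤ n := (le_max_left _ _).trans hn
  have hn8 : 8 ≤ n := (le_max_right _ _).trans hn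
  have hq2 : 2 ≤ Nat.card F := Finite.one_lt_card
  have hq : (2 : ℝ) ≤ Nat.card F := by exact_mod_cast hq2
  have hq0 : (0 : ℝ) < Nat.card F := by linarith
  -- the degree of X
  obtain ⟨ψ0, j, -, hj⟩ := hSTR n F
  have hlev : 1 ≤ j X := by
    by_contra h4
    obtain ⟨l, hl⟩ := (hj X hX).2.2.2.2 (by omega)
    apply hX1
    rw [hl]
    change ((l (Matrix.GeneralLinearGroup.det 1) : ℂˣ) : ℂ) = 1
    rw [map_one, map_one, Units.val_one]
  have hD : (Nat.card F : ℝ) ^ ((n : ℝ) / 2) ≤ 4 * (X 1).re := by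
    refine le_trans ?_ (hj X hX).1
    refine Real.rpow_le_rpow_of_exponent_le (by linarith) ?_
    have h4 : (1 : ℝ) ≤ j X := by exact_mod_cast hlev
    have h5 : (0 : ℝ) ≤ n := Nat.cast_nonneg n
    nlinarith
  have hn2 : 4 * (a + 7) ≤ s * n := by
    have h4 : 4 * (a + 7) / s ≤ n := h3.trans (by exact_mod_cast hnr3)
    rw [div_le_iff₀ hs] at h4
    linarith
  obtain ⟨hD1, hfin⟩ := mrb_fin s a hs n hn8 hn2 (Nat.card F) (X 1).re hq hD
  have hfin' : 64 * (Nat.card F : ℝ) * (Nat.card F : ℝ) ^ a * (X 1).re ^ (1 / 2 + 2 * s) ≤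
      (X 1).re ^ (1 / 2 + ε) :=
    hfin.trans (Real.rpow_le_rpow_of_exponent_le hD1 (by linarith))
  refine le_trans ?_ hfin'
  -- reduction to T0
  obtain ⟨r, hr⟩ : ∃ r, r = T.rank := ⟨_, rfl⟩
  obtain ⟨hrk, hrn⟩ := mrb_rank_le n k hk T hT
  rw [← hr] at hrk hrn
  obtain ⟨l, hl⟩ : ∃ l, n = 2 * r + l := ⟨n - 2 * r, by omega⟩
  have hkl : k - r ≤ l := by omega
  rw [mrb_conj hMUB n k hk ψ hψ X hX.isChr T (T0 n r F) hT (mrb_T0_cot n r k hrk hrn)
    (by rw [mrb_T0_rank n r (by omega), hr]), hREX n r l k F ψ hψ hl hrk hrn X hX.isChr]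
  obtain ⟨cc, m, g1, g2, g3, g4, g5, g6, g7, g8⟩ := mrb_phi hPI hMUB hRKC hPHC hFRR n r l (k - r) hl
    hkl ψ hψ X hX hD1
  rcases lt_or_ge l L with hlL | hlL
  · -- small l
    refine mrb_small (Nat.card F) (X 1).re _ s a (Nat.card F ^ (r * (n - r))) n l hq2
      (Nat.one_le_pow _ _ (by omega)) g7 hs hD1 g8 (mrb_deg hX)
      (mrb_pow (Nat.card F) n r l hl) ?_
    have h4 : (l : ℝ) ≤ L := by exact_mod_cast hlL.le
    have h5 : (0 : ℝ) ≤ l := Nat.cast_nonneg l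
    nlinarith
  · have hlr1 : r1 ≤ l := by
      have : r1 ≤ L := by rw [hL]; exact (le_max_left _ _).trans (le_max_left _ _)
      omega
    have hlr2 : r2 ≤ l := by
      have : r2 ≤ L := by rw [hL]; exact (le_max_right _ _).trans (le_max_left _ _)
      omega
    have hl5 : 5 ≤ l := by
      have : 5 ≤ L := by rw [hL]; exact le_max_right _ _
      omega
    have hre : (mu ψ (k - r) (Ph ψ n r l X) 0).re =
        ∑ Y ∈ irrF (GL (Fin l) F), (cc Y : ℝ) * (m Y : ℝ) := by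
      rw [g1, Complex.re_sum]
      refine Finset.sum_congr rfl fun Y _ => ?_
      simp
    rw [hre]
    have hK : (1 : ℝ) ≤ (Nat.card F : ℝ) ^ a := Real.one_le_rpow (by linarith) ha0
    refine mrb_num (irrF (GL (Fin l) F)) (fun Y => Y 1 = 1) (fun Y => (cc Y : ℝ))
      (fun Y => (m Y : ℝ)) (fun Y => (Y 1).re) (X 1).re ((Nat.card F : ℝ) ^ a)
      (Nat.card F) s ?_ ?_ g3 ?_ g6 ?_ ?_ ?_ hD1 hK hs hs1
    · intro Y hY
      exact ⟨Nat.cast_nonneg _, g5 Y hY⟩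
    · intro Y hY
      exact ⟨Nat.cast_nonneg _, g4 Y hY⟩
    · intro Y _ hY1
      have h5 : Y 1 = 1 := hY1
      rw [h5, Complex.one_re]
    · intro Y hY hY1
      have h5 := h1 l hlr1 F Y (mem_irrF.1 hY) hY1 ψ 2 (tsq_d (k - r)) (by norm_num)
        (tsq_d_mono (k - r)) (tsq_d_card (k - r) l)
      rw [tsq_av, g2 Y hY, Complex.natCast_re] at h5
      refine h5.trans ?_
      have h6 : (1 / ((2 : ℕ) : ℝ) + s) = 1 / 2 + s := by norm_num
      rw [h6]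
      refine mul_le_mul_of_nonneg_right ?_ (Real.rpow_nonneg (zero_le_one.trans (g3 Y hY)) _)
      exact Real.rpow_le_rpow_of_exponent_le (by linarith)
        ((tsq_exp l (k - r) c hkl (by omega) (by omega)).trans hac)
    · have h5 := h2 l hlr2 F
      have h6 : (Nat.card F : ℝ) ^ (-(c0 * l)) ≤ 1 :=
        Real.rpow_le_one_of_one_le_of_nonpos (by linarith) (by
          have : 0 ≤ c0 * l := mul_nonneg hc0.le (Nat.cast_nonneg l)
          linarith)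
      have h7 : ((Nat.card F : ℝ) - 1) * (Nat.card F : ℝ) ^ (-(c0 * l)) ≤ (Nat.card F : ℝ) - 1 :=
        mul_le_of_le_one_right (by linarith) h6
      refine le_trans (le_of_eq ?_) (h5.trans h7)
      refine Finset.sum_congr ?_ fun _ _ => rfl
      ext Y
      rw [Finset.mem_filter]
    · have h5 := hLIN l (by omega) F (fun _ => 1) 1 (fun _ => rfl)
      rw [Finset.sum_const, nsmul_eq_mul, mul_one, mul_one] at h5
      have h6 : (((irrF (GL (Fin l) F)).filter (fun X => X 1 = 1)).card : ℝ) =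
          (Nat.card F : ℝ) - 1 := by
        apply Complex.ofReal_injective
        rw [Complex.ofReal_sub, Complex.ofReal_natCast, Complex.ofReal_natCast, Complex.ofReal_one]
        refine Eq.trans ?_ h5
        congr 3
      refine le_of_eq ?_
      rw [← h6]

end SRJ
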