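import Pool.Agent.SRJ.StB

/-!
# Module PHI: a lower bound for the totient
-/

set_option autoImplicit false

namespace SRJ

theorem phi_prod (T : Finset ℕ) (hT : ∀ p ∈ T, 2 ≤ p) :
    ∏ p ∈ T, p ≤ (T.card + 1) * ∏ p ∈ T, (p - 1) := by
  induction T using Finset.induction_on_max with
  | empty => simp
  | insert a s ha ih =>
    have has : a ∉ s := fun h => lt_irrefl a (ha a h)
    rw [Finset.prod_insert has, Finset.prod_insert has, Finset.card_insert_of_notMem has]
    have h1 := ih fun p hp => hT p (Finset.mem_insert_of_mem hp)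
    have ha2 : 2 ≤ a := hT a (Finset.mem_insert_self a s)
    have h2 : s.card + 2 ≤ a := by
      have h3 : s ⊆ Finset.Ico 2 a := by
        intro p hp
        rw [Finset.mem_Ico]
        exact ⟨hT p (Finset.mem_insert_of_mem hp), ha p hp⟩
      have h4 := Finset.card_le_card h3
      rw [Nat.card_Ico] at h4
      omega
    have h5 : a * (s.card + 1) ≤ (s.card + 1 + 1) * (a - 1) := by
      obtain ⟨b, rfl⟩ : ∃ b, a = b + 1 := ⟨a - 1, by omega⟩
      rw [Nat.add_sub_cancel]
      nlinarith
    calc a * ∏ p ∈ s, p ≤ a * ((s.card + 1) * ∏ p ∈ s, (p - 1)) := Nat.mul_le_mul_left _ h1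
      _ = a * (s.card + 1) * ∏ p ∈ s, (p - 1) := by ring
      _ ≤ (s.card + 1 + 1) * (a - 1) * ∏ p ∈ s, (p - 1) := Nat.mul_le_mul_right _ h5
      _ = _ := by ring

theorem t_PHI : S_PHI := by
  intro N hN
  have h1 := Nat.totient_mul_prod_primeFactors N
  have h2 := phi_prod N.primeFactors fun p hp => (Nat.prime_of_mem_primeFactors hp).two_le
  have h3 : 0 < ∏ p ∈ N.primeFactors, (p - 1) := by
    refine Finset.prod_pos fun p hp => ?_
    have := (Nat.prime_of_mem_primeFactors hp).two_le
    omega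
  have h4 : N.primeFactors.card ≤ Nat.log 2 N := by
    refine (Nat.le_log_iff_pow_le one_lt_two (by omega)).2 ?_
    calc 2 ^ N.primeFactors.card = ∏ _p ∈ N.primeFactors, 2 := by simp
      _ ≤ ∏ p ∈ N.primeFactors, p :=
        Finset.prod_le_prod' fun p hp => (Nat.prime_of_mem_primeFactors hp).two_le
      _ ≤ N := Nat.le_of_dvd (by omega) (Nat.prod_primeFactors_dvd N)
  have h5 : N ≤ Nat.totient N * (N.primeFactors.card + 1) := by
    refine Nat.le_of_mul_le_mul_right ?_ h3
    calc N * ∏ p ∈ N.primeFactors, (p - 1) = Nat.totient N * ∏ p ∈ N.primeFactors, p := h1.symm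
      _ ≤ Nat.totient N * ((N.primeFactors.card + 1) * ∏ p ∈ N.primeFactors, (p - 1)) :=
        Nat.mul_le_mul_left _ h2
      _ = _ := by ring
  exact h5.trans (Nat.mul_le_mul_left _ (by omega))

end SRJ
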