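import Mathlib
import Pool.Agent.SRJ.StB

/-!
# Module PWC: centralizers of powers
-/

set_option autoImplicit false

namespace SRJ

open RSF FL0 Polynomial Pool.Agent.Lib_helper13

theorem t_PWC : M_PWC := by
  intro hCKV hCYC n F _ _ D m y hG k hk1 hkm
  obtain ⟨V₁, V₂, hc, hdim, h1, h2, hv⟩ := hCKV n F D m y hG k hk1 hkm
  have h3 := hCYC F (Fin n → F) (Matrix.toLin' (y.1 ^ k)) V₁ V₂ hc h1 h2 hv
  rw [hdim, Module.finrank_fin_fun] at h3
  refine le_trans ?_ h3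
  have hfin : Finite ((Fin n → F) →ₗ[F] (Fin n → F)) := DFunLike.finite _
  have hcomm : ∀ z : {z : SL n F // z * y ^ k = y ^ k * z},
      Matrix.toLin' z.1.1 ∘ₗ Matrix.toLin' (y.1 ^ k) =
        Matrix.toLin' (y.1 ^ k) ∘ₗ Matrix.toLin' z.1.1 := by
    intro z
    have h4 := congrArg Subtype.val z.2
    rw [← Matrix.toLin'_mul, ← Matrix.toLin'_mul]
    exact congrArg Matrix.toLin' h4
  refine Nat.card_le_card_of_injective
    (fun z : {z : SL n F // z * y ^ k = y ^ k * z} =>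
      (⟨Matrix.toLin' z.1.1, hcomm z⟩ : {z : (Fin n → F) →ₗ[F] (Fin n → F) //
        z ∘ₗ Matrix.toLin' (y.1 ^ k) = Matrix.toLin' (y.1 ^ k) ∘ₗ z})) ?_
  intro z z' h
  have h5 : Matrix.toLin' z.1.1 = Matrix.toLin' z'.1.1 := congrArg Subtype.val h
  exact Subtype.ext (Subtype.ext (Matrix.toLin'.injective h5))

end SRJ
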