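import Mathlib
import Pool.Agent.SRJ.StC
import Pool.Agent.SRJ.MUB
import Pool.Agent.SRJ.RKC

/-!
# SRJ, module REX: exchange of roots

MP_5b5212_al.
-/

set_option autoImplicit false

namespace SRJ

open RSF FL0 Polynomial Pool.Agent.Lib_helper13

noncomputable section

section REX

variable {n : ℕ} {F : Type} [Field F] [Fintype F]

open Classical in
/-- the matrices with support in `S` -/
def rex_sp (n : ℕ) (F : Type) [Field F] [Fintype F] (S : Fin n → Fin n → Prop) :
    Finset (Matrix (Fin n) (Fin n) F) :=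
  Finset.univ.filter fun h => ∀ i j, ¬ S i j → h i j = 0

theorem rex_mem {S : Fin n → Fin n → Prop} {h : Matrix (Fin n) (Fin n) F} :
    h ∈ rex_sp n F S ↔ ∀ i j, ¬ S i j → h i j = 0 := by
  classical
  unfold rex_sp
  rw [Finset.mem_filter]
  exact ⟨fun hh => hh.2, fun hh => ⟨Finset.mem_univ _, hh⟩⟩

theorem rex_zero (S : Fin n → Fin n → Prop) : (0 : Matrix (Fin n) (Fin n) F) ∈ rex_sp n F S := by
  rw [rex_mem]
  intro i j _
  rfl

theorem rex_add {S : Fin n → Fin n → Prop} {h h' : Matrix (Fin n) (Fin n) F}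
    (hh : h ∈ rex_sp n F S) (hh' : h' ∈ rex_sp n F S) : h + h' ∈ rex_sp n F S := by
  rw [rex_mem] at hh hh' ⊢
  intro i j hij
  rw [Matrix.add_apply, hh i j hij, hh' i j hij, add_zero]

theorem rex_neg {S : Fin n → Fin n → Prop} {h : Matrix (Fin n) (Fin n) F}
    (hh : h ∈ rex_sp n F S) : -h ∈ rex_sp n F S := by
  rw [rex_mem] at hh ⊢
  intro i j hij
  rw [Matrix.neg_apply, hh i j hij, neg_zero]

/-- a product of two matrices with known supports -/
theorem rex_mul {S S' S'' : Fin n → Fin n → Prop} {a b : Matrix (Fin n) (Fin n) F}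
    (ha : a ∈ rex_sp n F S) (hb : b ∈ rex_sp n F S')
    (h : ∀ i l j, S i l → S' l j → S'' i j) : a * b ∈ rex_sp n F S'' := by
  rw [rex_mem] at ha hb ⊢
  intro i j hij
  rw [Matrix.mul_apply]
  refine Finset.sum_eq_zero fun l _ => ?_
  by_cases h1 : S i l
  · rw [hb l j (fun h2 => hij (h i l j h1 h2)), mul_zero]
  · rw [ha i l h1, zero_mul]

theorem rex_mul_zero {S S' : Fin n → Fin n → Prop} {a b : Matrix (Fin n) (Fin n) F}
    (ha : a ∈ rex_sp n F S) (hb : b ∈ rex_sp n F S')
    (h : ∀ i l j, S i l → S' l j → False) : a * b = 0 := by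
  have h1 : a * b ∈ rex_sp n F (fun _ _ => False) := rex_mul ha hb h
  rw [rex_mem] at h1
  ext i j
  exact h1 i j (fun h => h)

theorem rex_orth {ψ : AddChar F ℂ} (hψ : ψ ≠ 1) (S : Fin n → Fin n → Prop)
    (M : Matrix (Fin n) (Fin n) F) [Decidable (∀ i j, S i j → M j i = 0)] :
    ∑ y ∈ rex_sp n F S, ψ (M * y).trace =
      if (∀ i j, S i j → M j i = 0) then ((rex_sp n F S).card : ℂ) else 0 := by
  classical
  split_ifs with hM
  · have h1 : ∀ y ∈ rex_sp n F S, ψ (M * y).trace = 1 := by
      intro y hy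
      rw [rex_mem] at hy
      have h2 : (M * y).trace = 0 := by
        rw [Matrix.trace]
        refine Finset.sum_eq_zero fun i _ => ?_
        rw [Matrix.diag_apply, Matrix.mul_apply]
        refine Finset.sum_eq_zero fun j _ => ?_
        by_cases h3 : S j i
        · rw [hM j i h3, zero_mul]
        · rw [hy j i h3, mul_zero]
      rw [h2, AddChar.map_zero_eq_one]
    rw [Finset.sum_congr rfl h1, Finset.sum_const, nsmul_eq_mul, mul_one]
  · push Not at hM
    obtain ⟨i, j, hS, hij⟩ := hM
    obtain ⟨a, ha⟩ : ∃ a, ψ a ≠ 1 := by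
      by_contra hcon
      push Not at hcon
      exact hψ (DFunLike.ext _ _ fun a => by rw [hcon a]; rfl)
    set T1 : Matrix (Fin n) (Fin n) F := Matrix.single i j (a / M j i) with hT1
    have hT1m : T1 ∈ rex_sp n F S := by
      rw [rex_mem]
      intro p q hpq
      rw [hT1]
      refine Matrix.single_apply_of_ne _ _ _ _ _ ?_
      rintro ⟨rfl, rfl⟩
      exact hpq hS
    have htr : (M * T1).trace = a := by
      rw [Matrix.trace_mul_comm, hT1, Matrix.trace_single_mul, smul_eq_mul, div_mul_cancel₀ _ hij]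
    have h1 : ∑ y ∈ rex_sp n F S, ψ (M * y).trace = ∑ y ∈ rex_sp n F S, ψ (M * (T1 + y)).trace := by
      symm
      refine Finset.sum_bij (fun T _ => T1 + T) (fun T hT => rex_add hT1m hT)
        (fun T _ T' _ h => add_left_cancel h) (fun T hT => ⟨-T1 + T, ?_, ?_⟩) (fun T _ => rfl)
      · exact rex_add (rex_neg hT1m) hT
      · abel
    have h2 : ∑ y ∈ rex_sp n F S, ψ (M * (T1 + y)).trace =
        ψ a * ∑ y ∈ rex_sp n F S, ψ (M * y).trace := by
      rw [Finset.mul_sum]
      refine Finset.sum_congr rfl fun T _ => ?_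
      rw [Matrix.mul_add, Matrix.trace_add, htr, AddChar.map_add_eq_mul]
    rw [h2] at h1
    have h3 : (1 - ψ a) * ∑ y ∈ rex_sp n F S, ψ (M * y).trace = 0 := by
      rw [sub_mul, one_mul, ← h1, sub_self]
    rcases mul_eq_zero.mp h3 with h4 | h4
    · exact absurd (sub_eq_zero.mp h4).symm ha
    · exact h4

/-- an average over a group that acts on the domain of summation -/
theorem rex_avg {ψ : AddChar F ℂ} (hψ : ψ ≠ 1) (V V' : Finset (Matrix (Fin n) (Fin n) F))
    (f : Matrix (Fin n) (Fin n) F → ℂ) (S : Fin n → Fin n → Prop)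
    (act act' : Matrix (Fin n) (Fin n) F → Matrix (Fin n) (Fin n) F → Matrix (Fin n) (Fin n) F)
    (M : Matrix (Fin n) (Fin n) F → Matrix (Fin n) (Fin n) F)
    (hm : ∀ y ∈ rex_sp n F S, ∀ h ∈ V, act y h ∈ V)
    (hm' : ∀ y ∈ rex_sp n F S, ∀ h ∈ V, act' y h ∈ V)
    (hl : ∀ y ∈ rex_sp n F S, ∀ h ∈ V, act' y (act y h) = h)
    (hr : ∀ y ∈ rex_sp n F S, ∀ h ∈ V, act y (act' y h) = h)
    (hf : ∀ y ∈ rex_sp n F S, ∀ h ∈ V, f (act y h) = f h * ψ (M h * y).trace)
    (hV : ∀ h, h ∈ V' ↔ h ∈ V ∧ ∀ i j, S i j → M h j i = 0) :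
    ∑ h ∈ V, f h = ∑ h ∈ V', f h := by
  classical
  have hV' : V' = V.filter (fun h => ∀ i j, S i j → M h j i = 0) := by
    ext h
    rw [hV, Finset.mem_filter]
  rw [hV']
  have hc : ((rex_sp n F S).card : ℂ) ≠ 0 :=
    Nat.cast_ne_zero.mpr (Finset.card_pos.mpr ⟨0, rex_zero S⟩).ne'
  refine mul_left_cancel₀ hc ?_
  have h1 : ((rex_sp n F S).card : ℂ) * ∑ h ∈ V, f h =
      ∑ y ∈ rex_sp n F S, ∑ h ∈ V, f (act y h) := by
    rw [← nsmul_eq_mul, ← Finset.sum_const]
    refine Finset.sum_congr rfl fun y hy => ?_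
    exact (Finset.sum_nbij' (act y) (act' y) (hm y hy) (hm' y hy) (hl y hy) (hr y hy)
      (fun h _ => rfl)).symm
  rw [h1, Finset.sum_comm, Finset.mul_sum, Finset.sum_filter]
  refine Finset.sum_congr rfl fun h hh => ?_
  rw [Finset.sum_congr rfl fun y hy => hf y hy h hh, ← Finset.mul_sum, rex_orth hψ S (M h)]
  split_ifs
  · ring
  · ring

omit [Fintype F] in
/-- conjugation by `1 + y`, `y * y = 0` -/
theorem rex_conj {X : GL (Fin n) F → ℂ} (hX : FLC.Cls (FLC.xm X)) {y : Matrix (Fin n) (Fin n) F}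
    (hy : y * y = 0) (A : Matrix (Fin n) (Fin n) F) :
    FLC.xm X ((1 + y) * A * (1 - y)) = FLC.xm X A := by
  let g : GL (Fin n) F := ⟨1 + y, 1 - y, by
      have h2 : (1 + y) * (1 - y) = 1 - y * y := by noncomm_ring
      rw [h2, hy, sub_zero], by
      have h2 : (1 - y) * (1 + y) = 1 - y * y := by noncomm_ring
      rw [h2, hy, sub_zero]⟩
  exact hX g A

theorem rex_cor (k : ℕ) :
    cor n F k = rex_sp n F (fun i j => i.val < k ∧ k ≤ j.val) := by
  ext h
  rw [mub_mem_cor, rex_mem]

/-- the number of elements of `cor` -/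
theorem rex_card (n k : ℕ) (hk : k ≤ n) :
    (cor n F k).card = Fintype.card F ^ (k * (n - k)) := by
  classical
  obtain ⟨m, rfl⟩ := Nat.exists_eq_add_of_le hk
  rw [← mub_card, Nat.add_sub_cancel_left]
  have h1 : (cot (k + m) F k).card = Fintype.card (Matrix (Fin m) (Fin k) F) := by
    rw [← Finset.card_univ]
    symm
    refine Finset.card_bij (fun M _ => rkc_c M) (fun M _ => rkc_mem M)
      (fun M _ M' _ h => rkc_c_inj h) (fun T hT => ?_)
    obtain ⟨M, hM⟩ := rkc_exists T hT
    exact ⟨M, Finset.mem_univ _, hM⟩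
  rw [h1]
  change Fintype.card (Fin m → Fin k → F) = _
  rw [Fintype.card_fun, Fintype.card_fun, Fintype.card_fin, Fintype.card_fin, ← pow_mul]

/-! ### the sets -/

/-- the support of the second group -/
def rex_S2 (n r k : ℕ) (i j : Fin n) : Prop :=
  (i.val < r ∧ r ≤ j.val) ∨ (r ≤ i.val ∧ i.val < k ∧ k ≤ j.val ∧ j.val + r < n)

/-- `T0` -/
theorem rex_T0_mem (n r : ℕ) : T0 n r F ∈ rex_sp n F (fun i j => j.val < r ∧ i.val + r = n + j.val) := by
  rw [rex_mem]
  intro i j hij
  unfold T0
  rw [if_neg hij]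

/-- first exchange -/
theorem rex_first {r l k : ℕ} (hn : n = 2 * r + l) (hrk : r ≤ k) (hkn : k + r ≤ n)
    {ψ : AddChar F ℂ} (hψ : ψ ≠ 1) {X : GL (Fin n) F → ℂ} (hX : FLC.Cls (FLC.xm X)) :
    ∑ h ∈ cor n F k, FLC.xm X (1 + h) * ψ (-(T0 n r F * h).trace) =
      ∑ h ∈ rex_sp n F (fun i j => (i.val < r ∧ k ≤ j.val) ∨
        (r ≤ i.val ∧ i.val < k ∧ k ≤ j.val ∧ j.val + r < n)),
        FLC.xm X (1 + h) * ψ (-(T0 n r F * h).trace) := by
  classical
  rw [rex_cor]
  have hhy : ∀ y ∈ rex_sp n F (fun i j => i.val < r ∧ r ≤ j.val ∧ j.val < k),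
      ∀ h ∈ rex_sp n F (fun i j => i.val < k ∧ k ≤ j.val), h * y = 0 := by
    intro y hy h hh
    refine rex_mul_zero hh hy fun i l j h1 h2 => ?_
    omega
  have hyh : ∀ y ∈ rex_sp n F (fun i j => i.val < r ∧ r ≤ j.val ∧ j.val < k),
      ∀ h ∈ rex_sp n F (fun i j => i.val < k ∧ k ≤ j.val),
      y * h ∈ rex_sp n F (fun i j => i.val < k ∧ k ≤ j.val) := by
    intro y hy h hh
    refine rex_mul hy hh fun i l j h1 h2 => ?_
    omega
  have hyy : ∀ y ∈ rex_sp n F (fun i j => i.val < r ∧ r ≤ j.val ∧ j.val < k), y * y = 0 := by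
    intro y hy
    refine rex_mul_zero hy hy fun i l j h1 h2 => ?_
    omega
  refine rex_avg hψ _ _ _ (fun i j => i.val < r ∧ r ≤ j.val ∧ j.val < k) (fun y h => h + y * h)
    (fun y h => h - y * h) (fun h => -(h * T0 n r F))
    (fun y hy h hh => rex_add hh (hyh y hy h hh))
    (fun y hy h hh => by
      rw [sub_eq_add_neg]
      exact rex_add hh (rex_neg (hyh y hy h hh))) ?_ ?_ ?_ ?_
  rotate_left 3
  · intro h
    rw [rex_mem, rex_mem]
    refine Iff.symm ?_
    have hval : ∀ (i j : Fin n), i.val < r → ∀ (hi : n - r + i.val < n),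
        (h * T0 n r F) j i = h j ⟨n - r + i.val, hi⟩ := by
      intro i j hi hi'
      rw [Matrix.mul_apply, Finset.sum_eq_single (⟨n - r + i.val, hi'⟩ : Fin n)]
      · unfold T0
        rw [if_pos, mul_one]
        refine ⟨hi, ?_⟩
        show n - r + i.val + r = n + i.val
        omega
      · intro p _ hp
        unfold T0
        rw [if_neg, mul_zero]
        rintro ⟨_, h2⟩
        apply hp
        apply Fin.ext
        show p.val = n - r + i.val
        omega
      · intro hp
        exact absurd (Finset.mem_univ _) hp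
    constructor
    · rintro ⟨h1, h2⟩ i j hij
      by_cases hc : i.val < k ∧ k ≤ j.val
      · have hj : n ≤ j.val + r := by
          by_contra hcon
          apply hij
          omega
        have hir : r ≤ i.val := by
          by_contra hcon
          apply hij
          omega
        have hjn := j.isLt
        have h3 := h2 ⟨j.val + r - n, by omega⟩ i ⟨by show j.val + r - n < r; omega, hir, hc.1⟩
        rw [Matrix.neg_apply, neg_eq_zero, hval _ _ (by show j.val + r - n < r; omega)
          (by show n - r + (j.val + r - n) < n; omega)] at h3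
        have h4 : (⟨n - r + (j.val + r - n), by omega⟩ : Fin n) = j := by
          apply Fin.ext
          show n - r + (j.val + r - n) = j.val
          omega
        rw [← h4]
        exact h3
      · exact h1 i j hc
    · intro h1
      constructor
      · intro i j hij
        refine h1 i j ?_
        omega
      · intro i j hij
        rw [Matrix.neg_apply, neg_eq_zero]
        have hin : n - r + i.val < n := by omega
        rw [hval i j hij.1 hin]
        refine h1 _ _ ?_
        show ¬ ((j.val < r ∧ k ≤ n - r + i.val) ∨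
          (r ≤ j.val ∧ j.val < k ∧ k ≤ n - r + i.val ∧ n - r + i.val + r < n))
        omega
  · intro y hy h hh
    show h + y * h - y * (h + y * h) = h
    rw [Matrix.mul_add, ← Matrix.mul_assoc, hyy y hy, Matrix.zero_mul, add_zero]
    abel
  · intro y hy h hh
    show h - y * h + y * (h - y * h) = h
    rw [Matrix.mul_sub, ← Matrix.mul_assoc, hyy y hy, Matrix.zero_mul, sub_zero]
    abel
  · intro y hy h hh
    show FLC.xm X (1 + (h + y * h)) * ψ (-(T0 n r F * (h + y * h)).trace) =
      FLC.xm X (1 + h) * ψ (-(T0 n r F * h).trace) * ψ (-(h * T0 n r F) * y).trace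
    have h1 : 1 + (h + y * h) = (1 + y) * (1 + h) * (1 - y) := by
      have h2 : (1 + y) * (1 + h) * (1 - y) =
          1 + (h + y * h) - h * y - y * y - y * (h * y) := by noncomm_ring
      rw [h2, hhy y hy h hh, hyy y hy, Matrix.mul_zero, sub_zero, sub_zero, sub_zero]
    rw [h1, rex_conj hX (hyy y hy), mul_assoc, ← AddChar.map_add_eq_mul]
    congr 2
    rw [Matrix.mul_add, Matrix.trace_add, neg_add, Matrix.neg_mul, Matrix.trace_neg,
      ← Matrix.mul_assoc, Matrix.trace_mul_cycle]

/-- second exchange -/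
theorem rex_second {r l k : ℕ} (hn : n = 2 * r + l) (hrk : r ≤ k) (hkn : k + r ≤ n)
    {ψ : AddChar F ℂ} (hψ : ψ ≠ 1) {X : GL (Fin n) F → ℂ} (hX : FLC.Cls (FLC.xm X)) :
    ∑ h ∈ rex_sp n F (rex_S2 n r k), FLC.xm X (1 + h) * ψ (-(T0 n r F * h).trace) =
      ∑ h ∈ rex_sp n F (fun i j => (i.val < r ∧ k ≤ j.val) ∨
        (r ≤ i.val ∧ i.val < k ∧ k ≤ j.val ∧ j.val + r < n)),
        FLC.xm X (1 + h) * ψ (-(T0 n r F * h).trace) := by
  classical
  have hxg : ∀ x ∈ rex_sp n F (fun i j => r ≤ i.val ∧ i.val < k ∧ n ≤ j.val + r),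
      ∀ g ∈ rex_sp n F (rex_S2 n r k), x * g = 0 := by
    intro x hx g hg
    refine rex_mul_zero hx hg fun i l j h1 h2 => ?_
    unfold rex_S2 at h2
    omega
  have hgx : ∀ x ∈ rex_sp n F (fun i j => r ≤ i.val ∧ i.val < k ∧ n ≤ j.val + r),
      ∀ g ∈ rex_sp n F (rex_S2 n r k), g * x ∈ rex_sp n F (rex_S2 n r k) := by
    intro x hx g hg
    refine rex_mul hg hx fun i l j h1 h2 => ?_
    unfold rex_S2 at h1 ⊢
    omega
  have hxx : ∀ x ∈ rex_sp n F (fun i j => r ≤ i.val ∧ i.val < k ∧ n ≤ j.val + r), x * x = 0 := by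
    intro x hx
    refine rex_mul_zero hx hx fun i l j h1 h2 => ?_
    omega
  refine rex_avg hψ _ _ _ (fun i j => r ≤ i.val ∧ i.val < k ∧ n ≤ j.val + r) (fun x g => g - g * x)
    (fun x g => g + g * x) (fun g => T0 n r F * g)
    (fun x hx g hg => by
      rw [sub_eq_add_neg]
      exact rex_add hg (rex_neg (hgx x hx g hg)))
    (fun x hx g hg => rex_add hg (hgx x hx g hg)) ?_ ?_ ?_ ?_
  rotate_left 3
  · intro g
    rw [rex_mem, rex_mem]
    refine Iff.symm ?_
    have hval : ∀ (i j : Fin n), n ≤ j.val + r → ∀ (hj : j.val + r - n < n),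
        (T0 n r F * g) j i = g ⟨j.val + r - n, hj⟩ i := by
      intro i j hi hj
      have hjn := j.isLt
      rw [Matrix.mul_apply, Finset.sum_eq_single (⟨j.val + r - n, hj⟩ : Fin n)]
      · unfold T0
        rw [if_pos, one_mul]
        constructor
        · show j.val + r - n < r
          omega
        · show j.val + r = n + (j.val + r - n)
          omega
      · intro p _ hp
        unfold T0
        rw [if_neg, zero_mul]
        rintro ⟨_, h2⟩
        apply hp
        apply Fin.ext
        show p.val = j.val + r - n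
        omega
      · intro hp
        exact absurd (Finset.mem_univ _) hp
    constructor
    · rintro ⟨h1, h2⟩ i j hij
      by_cases hc : rex_S2 n r k i j
      · have hc' := hc
        unfold rex_S2 at hc'
        have hjn := j.isLt
        have hin := i.isLt
        have hi : i.val < r := by omega
        have hj : r ≤ j.val ∧ j.val < k := by omega
        have h3 := h2 j ⟨n - r + i.val, by omega⟩ ⟨hj.1, hj.2, by
          show n ≤ n - r + i.val + r
          omega⟩
        rw [hval _ _ (by show n ≤ n - r + i.val + r; omega)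
          (by show n - r + i.val + r - n < n; omega)] at h3
        have h4 : (⟨n - r + i.val + r - n, by omega⟩ : Fin n) = i := by
          apply Fin.ext
          show n - r + i.val + r - n = i.val
          omega
        rw [← h4]
        exact h3
      · exact h1 i j hc
    · intro h1
      constructor
      · intro i j hij
        refine h1 i j ?_
        unfold rex_S2 at hij
        omega
      · intro i j hij
        have hjn := j.isLt
        have hj : j.val + r - n < n := by omega
        rw [hval i j hij.2.2 hj]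
        refine h1 _ _ ?_
        show ¬ ((j.val + r - n < r ∧ k ≤ i.val) ∨
          (r ≤ j.val + r - n ∧ j.val + r - n < k ∧ k ≤ i.val ∧ i.val + r < n))
        omega
  · intro x hx g hg
    show g - g * x + (g - g * x) * x = g
    rw [Matrix.sub_mul, Matrix.mul_assoc, hxx x hx, Matrix.mul_zero, sub_zero]
    abel
  · intro x hx g hg
    show g + g * x - (g + g * x) * x = g
    rw [Matrix.add_mul, Matrix.mul_assoc, hxx x hx, Matrix.mul_zero, add_zero]
    abel
  · intro x hx g hg
    show FLC.xm X (1 + (g - g * x)) * ψ (-(T0 n r F * (g - g * x)).trace) =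
      FLC.xm X (1 + g) * ψ (-(T0 n r F * g).trace) * ψ (T0 n r F * g * x).trace
    have h1 : 1 + (g - g * x) = (1 + x) * (1 + g) * (1 - x) := by
      have h2 : (1 + x) * (1 + g) * (1 - x) =
          1 + (g - g * x) + x * g - x * x - (x * g) * x := by noncomm_ring
      rw [h2, hxg x hx g hg, hxx x hx, Matrix.zero_mul, sub_zero, sub_zero, add_zero]
    rw [h1, rex_conj hX (hxx x hx), mul_assoc, ← AddChar.map_add_eq_mul]
    congr 2
    rw [Matrix.mul_sub, Matrix.trace_sub, ← Matrix.mul_assoc]
    ring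

/-! ### the second group as a set of pairs -/

/-- the embedding of the matrices of size `l` -/
def rex_e (n r l : ℕ) (M : Matrix (Fin l) (Fin l) F) : Matrix (Fin n) (Fin n) F :=
  fun i j => if h : (r ≤ i.val ∧ i.val < r + l) ∧ (r ≤ j.val ∧ j.val < r + l) then
    M ⟨i.val - r, by omega⟩ ⟨j.val - r, by omega⟩ else 0

omit [Fintype F] in
theorem rex_mid (r l : ℕ) (M : Matrix (Fin l) (Fin l) F) :
    mid n r l (1 + M) = 1 + rex_e n r l M := by
  ext i j
  rw [Matrix.add_apply]
  unfold mid rex_e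
  by_cases h : (r ≤ i.val ∧ i.val < r + l) ∧ (r ≤ j.val ∧ j.val < r + l)
  · rw [dif_pos h, dif_pos h, Matrix.add_apply]
    congr 1
    rw [Matrix.one_apply, Matrix.one_apply]
    by_cases hij : i = j
    · subst hij
      rw [if_pos rfl, if_pos rfl]
    · rw [if_neg hij, if_neg]
      intro h1
      apply hij
      have h2 := congrArg Fin.val h1
      apply Fin.ext
      have h3 : i.val - r = j.val - r := h2
      omega
  · rw [dif_neg h, dif_neg h, add_zero, Matrix.one_apply]

theorem rex_e_mem {r l k : ℕ} (hn : n = 2 * r + l) (hrk : r ≤ k) {c : Matrix (Fin l) (Fin l) F}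
    (hc : c ∈ cor l F (k - r)) :
    rex_e n r l c ∈ rex_sp n F (fun i j => r ≤ i.val ∧ i.val < k ∧ k ≤ j.val ∧ j.val + r < n) := by
  rw [rex_mem]
  rw [mub_mem_cor] at hc
  intro i j hij
  unfold rex_e
  split_ifs with h
  · refine hc _ _ ?_
    show ¬ (i.val - r < k - r ∧ k - r ≤ j.val - r)
    omega
  · rfl

open Classical in
/-- the middle block -/
def rex_c (n r l k : ℕ) (hn : n = 2 * r + l) (g : Matrix (Fin n) (Fin n) F) :
    Matrix (Fin l) (Fin l) F :=
  fun i j => if i.val < k - r ∧ k - r ≤ j.val then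
    g ⟨i.val + r, by have := i.isLt; omega⟩ ⟨j.val + r, by have := j.isLt; omega⟩ else 0

theorem rex_c_mem {r l k : ℕ} (hn : n = 2 * r + l) (g : Matrix (Fin n) (Fin n) F) :
    rex_c n r l k hn g ∈ cor l F (k - r) := by
  rw [mub_mem_cor]
  intro i j hij
  unfold rex_c
  rw [if_neg hij]

omit [Fintype F] in
theorem rex_e_c {r l k : ℕ} (hn : n = 2 * r + l) (hrk : r ≤ k) (g : Matrix (Fin n) (Fin n) F)
    (i j : Fin n) (hij : r ≤ i.val ∧ i.val < k ∧ k ≤ j.val ∧ j.val + r < n) (hkn : k + r ≤ n) :
    rex_e n r l (rex_c n r l k hn g) i j = g i j := by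
  unfold rex_e
  rw [dif_pos (by omega)]
  unfold rex_c
  rw [if_pos (by show i.val - r < k - r ∧ k - r ≤ j.val - r; omega)]
  congr 1
  · apply Fin.ext
    show i.val - r + r = i.val
    omega
  · apply Fin.ext
    show j.val - r + r = j.val
    omega

theorem rex_pairs {r l k : ℕ} (hn : n = 2 * r + l) (hrk : r ≤ k) (hkn : k + r ≤ n)
    (f : Matrix (Fin n) (Fin n) F → ℂ) :
    ∑ g ∈ rex_sp n F (rex_S2 n r k), f g =
      ∑ c ∈ cor l F (k - r), ∑ h ∈ cor n F r,
        f (h + rex_e n r l c + h * rex_e n r l c) := by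
  classical
  rw [← Finset.sum_product']
  symm
  have hee : ∀ c ∈ cor l F (k - r), rex_e n r l c * rex_e n r l c = 0 := by
    intro c hc
    refine rex_mul_zero (rex_e_mem hn hrk hc) (rex_e_mem hn hrk hc) fun i l j h1 h2 => ?_
    omega
  refine Finset.sum_nbij' (fun p => p.2 + rex_e n r l p.1 + p.2 * rex_e n r l p.1)
    (fun g => (rex_c n r l k hn g,
      (g - rex_e n r l (rex_c n r l k hn g)) * (1 - rex_e n r l (rex_c n r l k hn g)))) ?_ ?_ ?_ ?_
    (fun _ _ => rfl)
  · rintro ⟨c, h⟩ hp
    rw [Finset.mem_product] at hp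
    have hc : c ∈ cor l F (k - r) := hp.1
    have hh : h ∈ cor n F r := hp.2
    show h + rex_e n r l c + h * rex_e n r l c ∈ rex_sp n F (rex_S2 n r k)
    have h1 := rex_e_mem hn hrk hc
    rw [rex_cor] at hh
    have h2 : h ∈ rex_sp n F (rex_S2 n r k) := by
      rw [rex_mem] at hh ⊢
      intro i j hij
      refine hh i j fun h3 => hij (Or.inl h3)
    have h3 : rex_e n r l c ∈ rex_sp n F (rex_S2 n r k) := by
      rw [rex_mem] at h1 ⊢
      intro i j hij
      refine h1 i j fun h3 => hij (Or.inr h3)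
    refine rex_add (rex_add h2 h3) (rex_mul hh h1 fun i l j h4 h5 => ?_)
    unfold rex_S2
    omega
  · intro g hg
    rw [Finset.mem_product]
    refine ⟨rex_c_mem hn g, ?_⟩
    show (g - rex_e n r l (rex_c n r l k hn g)) * (1 - rex_e n r l (rex_c n r l k hn g)) ∈
      cor n F r
    have h1 := rex_e_mem hn hrk (rex_c_mem (k := k) hn g)
    have h2 : g - rex_e n r l (rex_c n r l k hn g) ∈
        rex_sp n F (fun i j => i.val < r ∧ r ≤ j.val) := by
      rw [rex_mem]
      intro i j hij
      rw [Matrix.sub_apply]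
      by_cases h3 : r ≤ i.val ∧ i.val < k ∧ k ≤ j.val ∧ j.val + r < n
      · rw [rex_e_c hn hrk g i j h3 hkn, sub_self]
      · rw [(rex_mem.1 h1) i j h3, (rex_mem.1 hg) i j, sub_zero]
        unfold rex_S2
        omega
    rw [rex_cor, Matrix.mul_sub, Matrix.mul_one, sub_eq_add_neg]
    refine rex_add h2 (rex_neg (rex_mul h2 h1 fun i l j h4 h5 => ?_))
    omega
  · rintro ⟨c, h⟩ hp
    rw [Finset.mem_product] at hp
    have hc : c ∈ cor l F (k - r) := hp.1
    have hh : h ∈ cor n F r := hp.2
    rw [rex_cor] at hh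
    have h1 := rex_e_mem hn hrk hc
    have h5 : ∀ i j : Fin n, r ≤ i.val →
        (h + rex_e n r l c + h * rex_e n r l c) i j = rex_e n r l c i j := by
      intro i j hi
      have h6 : h * rex_e n r l c ∈ rex_sp n F (fun i _ => i.val < r) :=
        rex_mul hh h1 fun i l j h4 h5 => h4.1
      rw [Matrix.add_apply, Matrix.add_apply, (rex_mem.1 hh) i j (by omega),
        (rex_mem.1 h6) i j (by omega), zero_add, add_zero]
    have h2 : rex_c n r l k hn (h + rex_e n r l c + h * rex_e n r l c) = c := by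
      ext i j
      have hi := i.isLt
      have hj := j.isLt
      unfold rex_c
      split_ifs with h3
      · rw [h5 _ _ (by show r ≤ i.val + r; omega)]
        unfold rex_e
        rw [dif_pos (by
          show (r ≤ i.val + r ∧ i.val + r < r + l) ∧ (r ≤ j.val + r ∧ j.val + r < r + l)
          omega)]
        congr 1
        · apply Fin.ext
          show i.val + r - r = i.val
          omega
        · apply Fin.ext
          show j.val + r - r = j.val
          omega
      · exact ((mub_mem_cor.1 hc) i j h3).symm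
    show (rex_c n r l k hn (h + rex_e n r l c + h * rex_e n r l c), _) = (c, h)
    rw [h2]
    refine Prod.ext rfl ?_
    show (h + rex_e n r l c + h * rex_e n r l c - rex_e n r l c) * (1 - rex_e n r l c) = h
    have h6 : (h + rex_e n r l c + h * rex_e n r l c - rex_e n r l c) * (1 - rex_e n r l c) =
        h - h * (rex_e n r l c * rex_e n r l c) := by noncomm_ring
    rw [h6, hee c hc, Matrix.mul_zero, sub_zero]
  · intro g hg
    have h1 := hee _ (rex_c_mem (k := k) hn g)
    show (g - rex_e n r l (rex_c n r l k hn g)) * (1 - rex_e n r l (rex_c n r l k hn g)) +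
      rex_e n r l (rex_c n r l k hn g) +
      (g - rex_e n r l (rex_c n r l k hn g)) * (1 - rex_e n r l (rex_c n r l k hn g)) *
        rex_e n r l (rex_c n r l k hn g) = g
    generalize rex_e n r l (rex_c n r l k hn g) = e at h1
    have h6 : (g - e) * (1 - e) + e + (g - e) * (1 - e) * e = g - (g - e) * (e * e) := by
      noncomm_ring
    rw [h6, h1, Matrix.mul_zero, sub_zero]

end REX

/-- **REX**, exchange of roots. -/
theorem t_REX : M_REX := by
  intro hXMC n r l k F _ _ _ ψ hψ hn hrk hkn X hX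
  have hcls := (hXMC n F X hX).1
  have hcard : ((cor n F k).card : ℂ) = ((cor l F (k - r)).card : ℂ) * ((cor n F r).card : ℂ) := by
    rw [rex_card n k (by omega), rex_card l (k - r) (by omega), rex_card n r (by omega)]
    rw [← Nat.cast_mul, ← pow_add]
    congr 2
    obtain ⟨a, rfl⟩ := Nat.exists_eq_add_of_le hrk
    obtain ⟨b, hb⟩ := Nat.exists_eq_add_of_le hkn
    have h1 : n - (r + a) = r + b := by omega
    have h2 : r + a - r = a := by omega
    have h3 : l - a = b := by omega
    have h4 : n - r = a + r + b := by omega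
    rw [h1, h2, h3, h4]
    ring
  have hT : ∀ c ∈ cor l F (k - r), ∀ h : Matrix (Fin n) (Fin n) F,
      (T0 n r F * (h + rex_e n r l c + h * rex_e n r l c)).trace = (T0 n r F * h).trace := by
    intro c hc h
    have h1 := rex_e_mem hn hrk hc
    have h2 : T0 n r F * rex_e n r l c = 0 := by
      refine rex_mul_zero (rex_T0_mem n r) h1 fun i l j h3 h4 => ?_
      omega
    have h3 : rex_e n r l c * T0 n r F = 0 := by
      refine rex_mul_zero h1 (rex_T0_mem n r) fun i l j h3 h4 => ?_
      omega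
    rw [Matrix.mul_add, Matrix.mul_add, Matrix.trace_add, Matrix.trace_add, h2, Matrix.trace_zero,
      add_zero, ← Matrix.mul_assoc, Matrix.trace_mul_cycle, h3, Matrix.zero_mul, Matrix.trace_zero,
      add_zero]
  have hL : mu ψ k X (T0 n r F) = (∑ g ∈ rex_sp n F (rex_S2 n r k),
      FLC.xm X (1 + g) * ψ (-(T0 n r F * g).trace)) / ((cor n F k).card : ℂ) := by
    unfold mu
    rw [rex_first hn hrk hkn hψ hcls, rex_second hn hrk hkn hψ hcls]
  rw [hL, rex_pairs hn hrk hkn, hcard]
  unfold mu
  rw [← div_div, Finset.sum_div, Finset.sum_div]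
  have hc1 : ((cor l F (k - r)).card : ℂ) ≠ 0 := Nat.cast_ne_zero.mpr (mub_card_pos _).ne'
  have hc2 : ((cor n F r).card : ℂ) ≠ 0 := Nat.cast_ne_zero.mpr (mub_card_pos _).ne'
  rw [Finset.sum_div]
  refine Finset.sum_congr rfl fun c hc => ?_
  rw [Matrix.zero_mul, Matrix.trace_zero, neg_zero, AddChar.map_zero_eq_one, mul_one,
    mub_xm (Ph ψ n r l X) hc, div_right_comm]
  congr 1
  unfold Ph
  congr 1
  refine Finset.sum_congr rfl fun h _ => ?_
  rw [hT c hc h]
  congr 2
  show 1 + (h + rex_e n r l c + h * rex_e n r l c) = (1 + h) * mid n r l (1 + c)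
  rw [rex_mid]
  noncomm_ring

end

end SRJ
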