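import Mathlib
import Pool.Agent.SRJ.StA

/-!
# RLT: the second moment of the word map
-/

set_option autoImplicit false

namespace SRJ

open RSF FL0 Polynomial Pool.Agent.Lib_helper13

theorem rlt_wd_conj {G : Type} [Group G] (o : Bool) (g a b : G) :
    FLW.wd o (g * a * g⁻¹) (g * b * g⁻¹) = g * FLW.wd o a b * g⁻¹ := by
  unfold FLW.wd
  split_ifs
  · group
  · rw [conj_pow, conj_pow]
    group

open Classical in
theorem rlt_sum {G : Type} [Group G] [Fintype G] (o : Bool) (X : G → ℂ) :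
    ∑ g : G, (Nat.card {p : G × G // FLW.wd o p.1 p.2 = g} : ℂ) * X g =
      ∑ p : G × G, X (FLW.wd o p.1 p.2) := by
  rw [← Finset.sum_fiberwise (Finset.univ : Finset (G × G)) (fun p => FLW.wd o p.1 p.2)]
  refine Finset.sum_congr rfl fun g _ => ?_
  rw [Finset.sum_congr rfl (g := fun _ => X g) (fun p hp => by rw [(Finset.mem_filter.1 hp).2]),
    Finset.sum_const, nsmul_eq_mul, Nat.card_eq_fintype_card, Fintype.card_subtype]

theorem rlt_top {G : Type} [Group G] [Fintype G] (o : Bool) (X : G → ℂ) :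
    ∑ᶠ p : (⊤ : Subgroup G) × (⊤ : Subgroup G), X (FLW.wd o (p.1 : G) p.2) =
      ∑ p : G × G, X (FLW.wd o p.1 p.2) := by
  classical
  rw [← finsum_eq_sum_of_fintype (fun p : G × G => X (FLW.wd o p.1 p.2))]
  refine finsum_eq_of_bijective
    (fun p : (⊤ : Subgroup G) × (⊤ : Subgroup G) => ((p.1 : G), (p.2 : G))) ⟨?_, ?_⟩
    (fun p => rfl)
  · rintro ⟨p1, p2⟩ ⟨q1, q2⟩ h
    simp only [Prod.mk.injEq] at h
    exact Prod.ext (Subtype.ext h.1) (Subtype.ext h.2)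
  · rintro ⟨a, b⟩
    exact ⟨(⟨a, trivial⟩, ⟨b, trivial⟩), rfl⟩

/-- RLT. -/
theorem t_RLT : M_RLT := by
  intro hcom hcon hpvl G _ _ o
  classical
  have hG : (0 : ℝ) < Nat.card G := by exact_mod_cast Nat.card_pos
  have hcls : ∀ g x : G, (Nat.card {p : G × G // FLW.wd o p.1 p.2 = g * x * g⁻¹} : ℂ) =
      (Nat.card {p : G × G // FLW.wd o p.1 p.2 = x} : ℂ) := by
    intro g x
    congr 1
    refine Nat.card_congr (Equiv.subtypeEquiv
      (Equiv.prodCongr (MulAut.conj g⁻¹).toEquiv (MulAut.conj g⁻¹).toEquiv) fun p => ?_)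
    show _ ↔ FLW.wd o (g⁻¹ * p.1 * g⁻¹⁻¹) (g⁻¹ * p.2 * g⁻¹⁻¹) = x
    rw [rlt_wd_conj]
    constructor
    · intro h
      rw [h]
      group
    · intro h
      rw [← h]
      group
  have h1 := (hpvl G).1 (fun g => (Nat.card {p : G × G // FLW.wd o p.1 p.2 = g} : ℂ))
    (fun g x => hcls g x)
  have h2 : ∀ X ∈ irrF G,
      ‖∑ g : G, (Nat.card {p : G × G // FLW.wd o p.1 p.2 = g} : ℂ) * X g‖ ^ 2 ≤
        (Nat.card G : ℝ) ^ 4 * (‖X 1‖ ^ 2)⁻¹ := by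
    intro X hX
    rw [mem_irrF] at hX
    have h3 : ‖∑ p : G × G, X (FLW.wd o p.1 p.2)‖ * ‖X 1‖ ≤ (Nat.card G : ℝ) ^ 2 := by
      rw [← rlt_top]
      cases o
      · exact hcon G X ⊤ inferInstance hX
      · exact hcom G X ⊤ inferInstance hX
    have h4 : 0 < ‖X 1‖ := norm_pos_iff.2 hX.one_ne_zero
    rw [rlt_sum, ← div_eq_mul_inv, le_div_iff₀ (by positivity), ← mul_pow]
    calc (‖∑ p : G × G, X (FLW.wd o p.1 p.2)‖ * ‖X 1‖) ^ 2 ≤ ((Nat.card G : ℝ) ^ 2) ^ 2 :=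
          pow_le_pow_left₀ (by positivity) h3 2
      _ = (Nat.card G : ℝ) ^ 4 := by ring
  have h5 : (∑ g : G, (Nat.card {p : G × G // FLW.wd o p.1 p.2 = g} : ℝ) ^ 2) * Nat.card G ≤
      (Nat.card G : ℝ) ^ 4 * ∑ X ∈ irrF G, (‖X 1‖ ^ 2)⁻¹ := by
    have h6 : (∑ g : G, ‖(Nat.card {p : G × G // FLW.wd o p.1 p.2 = g} : ℂ)‖ ^ 2) =
        ∑ g : G, (Nat.card {p : G × G // FLW.wd o p.1 p.2 = g} : ℝ) ^ 2 := by
      refine Finset.sum_congr rfl fun g _ => ?_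
      rw [Complex.norm_natCast]
    rw [← h6, h1, Finset.mul_sum]
    exact Finset.sum_le_sum h2
  refine le_of_mul_le_mul_right (h5.trans (le_of_eq ?_)) hG
  ring

end SRJ
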