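import Mathlib
import Pool.Agent.SRJ.StA
import Pool.Agent.FL0.ABS
import Pool.Agent.FLN.FRO

set_option autoImplicit false

/-!
# SRJ, SBS: the character sums over the elements with central power, split case
-/

namespace SRJ

open RSF FL0 Polynomial Pool.Agent.Lib_helper13

noncomputable section

/-- an element with central power is a scalar times an element of finite order -/
theorem sbs_elt (hROT : S_ROT) (hEVS : S_EVS) {n k : ℕ} {F : Type} [Field F] [Fintype F]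
    (hn : 1 ≤ n) (hk : 1 ≤ k) (hkq : k ∣ Nat.card F - 1) (hO : Ord n F k) (A : CA n F k) :
    ∃ y : GL (Fin n) F, y ^ k = 1 ∧ del k y.1 = del k A.1.1 ∧
      ∀ X : GL (Fin n) F → ℂ, IsIrr X →
        ‖X (Matrix.SpecialLinearGroup.toGL A.1)‖ = ‖X y‖ := by
  classical
  obtain ⟨-, -, -, -, hE5⟩ := hEVS F (Fin n → F) k hk hkq
  have hk0 : k ≠ 0 := by omega
  obtain ⟨r, hr1, hr2⟩ : ∃ r : F, r ^ n = 1 ∧ A.1.1 ^ k = Matrix.scalar (Fin n) r := by
    obtain ⟨r, hr, hr'⟩ := Matrix.SpecialLinearGroup.mem_center_iff.mp A.2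
    rw [Fintype.card_fin] at hr
    refine ⟨r, hr, ?_⟩
    rw [hr', Matrix.SpecialLinearGroup.coe_pow]
  obtain ⟨c, hc, hck⟩ := hROT F n k hn hk hO r hr1
  have hr0 : r ≠ 0 := by
    intro h
    rw [h, zero_pow (by omega)] at hr1
    exact zero_ne_one hr1
  have hM : (c⁻¹ • A.1.1 : Matrix (Fin n) (Fin n) F) ^ k = 1 := by
    rw [_root_.smul_pow, hr2, inv_pow, hck]
    ext i j
    rw [Matrix.smul_apply, Matrix.scalar_apply, smul_eq_mul]
    rcases eq_or_ne i j with rfl | hij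
    · rw [Matrix.diagonal_apply_eq, Matrix.one_apply_eq, inv_mul_cancel₀ hr0]
    · rw [Matrix.diagonal_apply_ne _ hij, Matrix.one_apply_ne hij, mul_zero]
  obtain ⟨y, hy⟩ : ∃ y : GL (Fin n) F, y = Units.ofPowEqOne _ k hM hk0 := ⟨_, rfl⟩
  have hyv : (y : Matrix (Fin n) (Fin n) F) = c⁻¹ • A.1.1 := by
    rw [hy]
    rfl
  have hyk : y ^ k = 1 := by
    rw [hy]
    exact Units.pow_ofPowEqOne _ _
  have hval : A.1.1 = c • (y : Matrix (Fin n) (Fin n) F) := by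
    rw [hyv, smul_smul, mul_inv_cancel₀ hc, one_smul]
  refine ⟨y, hyk, ?_, ?_⟩
  · have h1 : FL0.sq (lm A.1.1) = FL0.sq (lm y.1) := by
      have h2 : lm A.1.1 = c • lm y.1 := by
        unfold lm
        rw [← map_smul]
        exact congrArg _ hval
      rw [h2]
      exact hE5 _ _ hc
    unfold del
    rw [h1]
  · intro X hX
    obtain ⟨Z, hZ⟩ : ∃ Z : GL (Fin n) F,
        Z = Matrix.GeneralLinearGroup.scalar (Fin n) (Units.mk0 c hc) := ⟨_, rfl⟩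
    have hZv : (Z : Matrix (Fin n) (Fin n) F) = Matrix.scalar (Fin n) c := by
      rw [hZ]
      rfl
    have hZc : ∀ g, Z * g = g * Z := by
      intro g
      rw [hZ]
      exact Matrix.GeneralLinearGroup.scalar_commute _ g
    obtain ⟨a, ha, hXa⟩ := FLN.fro_scal hX Z hZc
    have hA : Matrix.SpecialLinearGroup.toGL A.1 = y * Z := by
      apply Units.ext
      rw [Matrix.GeneralLinearGroup.coe_mul, hZv]
      show A.1.1 = (y : Matrix (Fin n) (Fin n) F) * Matrix.scalar (Fin n) c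
      rw [hval]
      ext i j
      rw [Matrix.smul_apply, Matrix.scalar_apply, Matrix.mul_diagonal, smul_eq_mul, mul_comm]
    rw [hA, hXa, norm_mul, ha, one_mul]

/-- the polynomial factors -/
theorem sbs_num (hPOL : S_POL) (k : ℕ) (C ε : ℝ) (hC : 0 ≤ C) (hε : 0 < ε) :
    ∃ r : ℕ, ∀ n : ℕ, r ≤ n → ∀ q D : ℝ, 2 ≤ q → q ^ ((n : ℝ) / 2) ≤ 4 * D →
      ((n : ℝ) + 1) ^ k * q ^ C ≤ D ^ (ε / 2) := by
  have hC' : (0 : ℝ) ≤ (k : ℝ) + C + ε := by positivity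
  obtain ⟨r, hr⟩ := hPOL (ε / 4) ((k : ℝ) + C + ε) (by positivity) hC'
  refine ⟨r, fun n hn q D hq hD => ?_⟩
  have hq0 : (0 : ℝ) < q := by linarith
  have hq1 : (1 : ℝ) ≤ q := by linarith
  have hn1 : (1 : ℝ) ≤ (n : ℝ) + 1 := by
    have := Nat.cast_nonneg (α := ℝ) n
    linarith
  have h1 := hr n hn q hq
  have h2 : q ^ (-(ε / 4 / 2) * (n : ℝ)) ≤ 1 := by
    apply Real.rpow_le_one_of_one_le_of_nonpos hq1
    have := mul_nonneg (by positivity : (0 : ℝ) ≤ ε / 4 / 2) (Nat.cast_nonneg (α := ℝ) n)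
    linarith
  have h3 := h1.trans h2
  have h4 : q ^ ((n : ℝ) / 2 - 2) ≤ D := by
    rw [Real.rpow_sub hq0, div_le_iff₀ (Real.rpow_pos_of_pos hq0 _)]
    have h5 : q ^ (2 : ℝ) = q ^ 2 := by exact_mod_cast Real.rpow_natCast q 2
    have h6 : (4 : ℝ) ≤ q ^ 2 := by nlinarith
    have h7 : 0 < D := by
      have := Real.rpow_pos_of_pos hq0 ((n : ℝ) / 2)
      linarith
    rw [h5]
    nlinarith
  have h8 : q ^ (ε / 4 * (n : ℝ) - ε) ≤ D ^ (ε / 2) := by
    have h9 : q ^ (ε / 4 * (n : ℝ) - ε) = (q ^ ((n : ℝ) / 2 - 2)) ^ (ε / 2) := by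
      rw [← Real.rpow_mul hq0.le]
      congr 1
      ring
    rw [h9]
    exact Real.rpow_le_rpow (Real.rpow_nonneg hq0.le _) h4 (by positivity)
  have h10 : ((n : ℝ) + 1) ^ k ≤ ((n : ℝ) + 1) ^ ((k : ℝ) + C + ε) := by
    rw [← Real.rpow_natCast]
    exact Real.rpow_le_rpow_of_exponent_le hn1 (by linarith)
  have h11 : q ^ C ≤ q ^ ((k : ℝ) + C + ε - ε) := by
    apply Real.rpow_le_rpow_of_exponent_le hq1
    have := Nat.cast_nonneg (α := ℝ) k
    linarith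
  have h12 : q ^ ((k : ℝ) + C + ε - ε) =
      q ^ ((k : ℝ) + C + ε - ε / 4 * (n : ℝ)) * q ^ (ε / 4 * (n : ℝ) - ε) := by
    rw [← Real.rpow_add hq0]
    congr 1
    ring
  calc ((n : ℝ) + 1) ^ k * q ^ C
      ≤ ((n : ℝ) + 1) ^ ((k : ℝ) + C + ε) * q ^ ((k : ℝ) + C + ε - ε) :=
        mul_le_mul h10 h11 (Real.rpow_nonneg hq0.le _) (Real.rpow_nonneg (by linarith) _)
    _ = (((n : ℝ) + 1) ^ ((k : ℝ) + C + ε) * q ^ ((k : ℝ) + C + ε - ε / 4 * (n : ℝ))) *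
        q ^ (ε / 4 * (n : ℝ) - ε) := by
        rw [h12]
        ring
    _ ≤ 1 * q ^ (ε / 4 * (n : ℝ) - ε) :=
        mul_le_mul_of_nonneg_right h3 (Real.rpow_nonneg hq0.le _)
    _ ≤ D ^ (ε / 2) := by
        rw [one_mul]
        exact h8

theorem t_SBS : M_SBS := by
  intro hSTR hFL hROT hEVS hABS hPOL k hk ε hε
  obtain ⟨r1, hr1⟩ := hFL (ε / 2) (by positivity)
  obtain ⟨C, hC, hA⟩ := hABS k (by omega)
  obtain ⟨r2, hr2⟩ := sbs_num hPOL k C ε hC hε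
  refine ⟨r1 + r2 + 1, fun n hn F _ _ hO X hX hX1 => ?_⟩
  classical
  have : Fintype F := Fintype.ofFinite F
  have hn1 : 1 ≤ n := by omega
  have hk1 : 1 ≤ k := by omega
  have hkq : k ∣ Nat.card F - 1 := dvd_trans (Dvd.intro _ rfl) hO
  have hq2 : (2 : ℝ) ≤ (Nat.card F : ℝ) := by
    exact_mod_cast Finite.one_lt_card (α := F)
  have hq0 : (0 : ℝ) < (Nat.card F : ℝ) := by linarith
  have hq1 : (1 : ℝ) ≤ (Nat.card F : ℝ) := by linarith
  obtain ⟨ψ, j, -, hj⟩ := hSTR n F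
  obtain ⟨h1, -, -, -, h5⟩ := hj X hX
  have hj0 : j X ≠ 0 := by
    intro h
    obtain ⟨l, hl⟩ := h5 h
    apply hX1
    rw [hl]
    simp [FLC.ld]
  have hj1 : (1 : ℝ) ≤ (j X : ℝ) := by exact_mod_cast Nat.one_le_iff_ne_zero.2 hj0
  have hD : (Nat.card F : ℝ) ^ ((n : ℝ) / 2) ≤ 4 * (X 1).re := by
    refine le_trans (Real.rpow_le_rpow_of_exponent_le hq1 ?_) h1
    have := mul_le_mul_of_nonneg_left hj1 (Nat.cast_nonneg (α := ℝ) n)
    linarith
  have hD0 : 0 < (X 1).re := by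
    have := Real.rpow_pos_of_pos hq0 ((n : ℝ) / 2)
    linarith
  have hfA : Finite (CA n F k) := by unfold CA; infer_instance
  have : Fintype (CA n F k) := Fintype.ofFinite _
  have hsum := hA n hn1 F hkq hO
  rw [finsum_eq_sum_of_fintype] at hsum ⊢
  have hone : ∀ A : CA n F k, ‖X (Matrix.SpecialLinearGroup.toGL A.1)‖ ≤
      (Nat.card F : ℝ) ^ (del k A.1.1 / 2) * (X 1).re ^ (1 / (k : ℝ) + ε / 2) := by
    intro A
    obtain ⟨y, hy1, hy2, hy3⟩ := sbs_elt hROT hEVS hn1 hk1 hkq hO A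
    rw [hy3 X hX, ← hy2, FLC.conv_dl]
    exact hr1 n (by omega) F X hX hX1 k y hk1 hkq hy1
  calc ‖∑ A : CA n F k, X (Matrix.SpecialLinearGroup.toGL A.1)‖
      ≤ ∑ A : CA n F k, ‖X (Matrix.SpecialLinearGroup.toGL A.1)‖ := norm_sum_le _ _
    _ ≤ ∑ A : CA n F k,
        (Nat.card F : ℝ) ^ (del k A.1.1 / 2) * (X 1).re ^ (1 / (k : ℝ) + ε / 2) :=
        Finset.sum_le_sum fun A _ => hone A
    _ = (∑ A : CA n F k, (Nat.card F : ℝ) ^ (del k A.1.1 / 2)) *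
        (X 1).re ^ (1 / (k : ℝ) + ε / 2) := by rw [Finset.sum_mul]
    _ ≤ (((n : ℝ) + 1) ^ k * (Nat.card F : ℝ) ^ C * Nat.card (CA n F k)) *
        (X 1).re ^ (1 / (k : ℝ) + ε / 2) :=
        mul_le_mul_of_nonneg_right hsum (Real.rpow_nonneg hD0.le _)
    _ ≤ ((X 1).re ^ (ε / 2) * Nat.card (CA n F k)) * (X 1).re ^ (1 / (k : ℝ) + ε / 2) := by
        apply mul_le_mul_of_nonneg_right _ (Real.rpow_nonneg hD0.le _)
        exact mul_le_mul_of_nonneg_right (hr2 n (by omega) _ _ hq2 hD) (Nat.cast_nonneg _)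
    _ = Nat.card (CA n F k) * (X 1).re ^ (1 / (k : ℝ) + ε) := by
        have h6 : (X 1).re ^ (1 / (k : ℝ) + ε) =
            (X 1).re ^ (ε / 2) * (X 1).re ^ (1 / (k : ℝ) + ε / 2) := by
          rw [← Real.rpow_add hD0]
          congr 1
          ring
        rw [h6]
        ring

end

end SRJ
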