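import Mathlib
import Pool.Agent.SRJ.StB
import Pool.Agent.FLN.FSI

/-!
# Module `SEC`: a second moment estimate in a finite group
-/

set_option autoImplicit false

namespace SRJ

open RSF FL0 Polynomial Pool.Agent.Lib_helper13 Representation

noncomputable section

theorem sec_one {G : Type} [Group G] [Fintype G] : IsIrr (fun _ : G => (1 : ℂ)) := by
  refine isChr_one.isIrr ?_
  simp

/-- The sum of an irreducible character over a translate, weighted by a class function. -/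
theorem sec_class {G : Type} [Group G] [Fintype G] {X : G → ℂ} (hX : IsIrr X) (a : G → ℂ)
    (ha : ∀ g x, a (g * x * g⁻¹) = a x) (g : G) :
    ∑ x, a x * X (x * g) = (∑ x, a x * X x) * (X g / X 1) := by
  have h10 := hX.one_ne_zero
  obtain ⟨n, ρ, hρ, rfl⟩ := hX
  have ha' : ∀ g x, a (g * x * g⁻¹)⁻¹ = a x⁻¹ := by
    intro g x
    have h1 : (g * x * g⁻¹)⁻¹ = g * x⁻¹ * g⁻¹ := by group
    rw [h1, ha]
  obtain ⟨c, hc⟩ := exists_scalar ρ hρ (opSum (fun x => a x⁻¹) ρ)
    (fun g x => opSum_comm _ (fun s t => ha' s t) ρ g x)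
  have key : ∀ g, ∑ x, a x * ρ.character (x * g) = c * ρ.character g := by
    intro g
    have h1 := congrArg (fun T => LinearMap.trace ℂ (Fin n → ℂ) (T ∘ₗ ρ g)) hc
    have h2 : (c • (LinearMap.id : (Fin n → ℂ) →ₗ[ℂ] (Fin n → ℂ))) ∘ₗ ρ g = c • ρ g := by
      rw [LinearMap.smul_comp, LinearMap.id_comp]
    rw [h2, map_smul] at h1
    have h3 : LinearMap.trace ℂ (Fin n → ℂ) (ρ g) = ρ.character g := rfl
    rw [h3, smul_eq_mul] at h1
    rw [← h1]
    have h4 : (opSum (fun x => a x⁻¹) ρ) ∘ₗ ρ g = ∑ x, a x⁻¹ • (ρ (x⁻¹ * g)) := by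
      apply LinearMap.ext
      intro v
      rw [LinearMap.comp_apply, opSum_apply, LinearMap.sum_apply]
      refine Finset.sum_congr rfl fun x _ => ?_
      rw [LinearMap.smul_apply, map_mul, Module.End.mul_apply]
    rw [h4, map_sum]
    refine Fintype.sum_equiv (Equiv.inv G) _ _ fun x => ?_
    simp only [Equiv.inv_apply, inv_inv, map_smul, smul_eq_mul]
    rfl
  have h1 := key 1
  simp only [mul_one] at h1
  rw [key g, h1, mul_assoc, mul_div_cancel₀ _ h10]

/-- The correlation of a real class function with its translate. -/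
theorem sec_corr {G : Type} [Group G] [Fintype G] (f : G → ℂ)
    (hf : ∀ g x, f (g * x * g⁻¹) = f x) (hr : ∀ x, starRingEnd ℂ (f x) = f x) (g : G) :
    (∑ x, f x * f (x * g)) * Nat.card G =
      ∑ X ∈ irrF G, ((‖∑ x, f x * X x‖ ^ 2 : ℝ) : ℂ) * (X g / X 1) := by
  have h0 := class_fn_expand f hf
  have h1 : ∀ x, f x * f (x * g) = ∑ X ∈ irrF G, ip f X * (f x * X (x * g)) := by
    intro x
    conv_lhs => rw [congrFun h0 (x * g)]
    rw [Finset.mul_sum]
    exact Finset.sum_congr rfl fun X _ => by ring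
  rw [Finset.sum_congr rfl fun x _ => h1 x, Finset.sum_comm, Finset.sum_mul]
  refine Finset.sum_congr rfl fun X hX => ?_
  have hX' := mem_irrF.1 hX
  rw [← Finset.mul_sum, sec_class hX' f hf g]
  have h2 : ip f X * Nat.card G = starRingEnd ℂ (∑ x, f x * X x) := by
    rw [ip, div_mul_cancel₀ _ natCard_ne_zero, map_sum]
    refine Finset.sum_congr rfl fun x _ => ?_
    rw [map_mul, hr, FLN.fsi_inv hX'.isChr]
  have h3 : ((‖∑ x, f x * X x‖ ^ 2 : ℝ) : ℂ) =
      starRingEnd ℂ (∑ x, f x * X x) * (∑ x, f x * X x) := by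
    rw [mul_comm, Complex.mul_conj']
    push_cast
    rfl
  rw [h3, ← h2]
  ring

/-- The number of the `x` in `P` with `x g` in `P`. -/
theorem sec_bd (hP : S_PVL) {G : Type} [Group G] [Fintype G] (f : G → ℝ)
    (hf : ∀ g x, f (g * x * g⁻¹) = f x) (hs : ∀ x, f x ^ 2 = f x) (M : ℝ) (hM : 0 ≤ M) (g : G)
    (h : ∀ X : G → ℂ, IsIrr X → X ≠ (fun _ => 1) → ‖X g‖ ≤ M * ‖X 1‖) :
    ∑ x, f x * f (x * g) ≤ (∑ x, f x) ^ 2 / Nat.card G + M * ∑ x, f x := by
  classical
  have hN : (0 : ℝ) < Nat.card G := by exact_mod_cast Nat.card_pos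
  have hfc : ∀ g x, ((f (g * x * g⁻¹) : ℝ) : ℂ) = ((f x : ℝ) : ℂ) := fun g x => by rw [hf]
  have h1 := sec_corr (fun x => ((f x : ℝ) : ℂ)) hfc (fun x => Complex.conj_ofReal _) g
  have h2 := (hP G).1 (fun x => ((f x : ℝ) : ℂ)) hfc
  have h3 : (∑ g, ‖((f g : ℝ) : ℂ)‖ ^ 2) = ∑ x, f x := by
    refine Finset.sum_congr rfl fun x _ => ?_
    rw [Complex.norm_real, Real.norm_eq_abs, sq_abs, hs]
  rw [h3] at h2
  have h4 : (fun _ : G => (1 : ℂ)) ∈ irrF G := mem_irrF.2 sec_one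
  rw [← Finset.add_sum_erase _ _ h4] at h1 h2
  have h5 : ‖∑ x, ((f x : ℝ) : ℂ) * (fun _ : G => (1 : ℂ)) x‖ ^ 2 = (∑ x, f x) ^ 2 := by
    have e : ∑ x, ((f x : ℝ) : ℂ) * (fun _ : G => (1 : ℂ)) x = ((∑ x, f x : ℝ) : ℂ) := by
      push_cast
      exact Finset.sum_congr rfl fun x _ => by ring
    rw [e, Complex.norm_real, Real.norm_eq_abs, sq_abs]
  rw [h5] at h1 h2
  obtain ⟨E, hE⟩ : ∃ E : ℂ, E = ∑ X ∈ (irrF G).erase (fun _ => (1 : ℂ)),
      ((‖∑ x, ((f x : ℝ) : ℂ) * X x‖ ^ 2 : ℝ) : ℂ) * (X g / X 1) := ⟨_, rfl⟩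
  have hEb : ‖E‖ ≤ M * ((∑ x, f x) * Nat.card G) := by
    have e1 : ‖E‖ ≤ ∑ X ∈ (irrF G).erase (fun _ => (1 : ℂ)),
        ‖∑ x, ((f x : ℝ) : ℂ) * X x‖ ^ 2 * M := by
      rw [hE]
      refine (norm_sum_le _ _).trans (Finset.sum_le_sum fun X hX => ?_)
      rw [Finset.mem_erase] at hX
      have hX' := mem_irrF.1 hX.2
      have h10 := hX'.one_ne_zero
      rw [norm_mul, norm_div, Complex.norm_real, Real.norm_eq_abs, abs_of_nonneg (by positivity)]
      refine mul_le_mul_of_nonneg_left ?_ (by positivity)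
      rw [div_le_iff₀ (by positivity)]
      exact h X hX' hX.1
    rw [← Finset.sum_mul, mul_comm] at e1
    refine e1.trans (mul_le_mul_of_nonneg_left ?_ hM)
    rw [h2]
    have : 0 ≤ (∑ x, f x) ^ 2 := by positivity
    linarith
  have h6 : (((∑ x, f x * f (x * g)) * Nat.card G - (∑ x, f x) ^ 2 : ℝ) : ℂ) = E := by
    rw [hE]
    push_cast
    push_cast at h1
    simp only [div_self (one_ne_zero' ℂ)] at h1
    rw [h1]
    ring
  have h7 : (∑ x, f x * f (x * g)) * Nat.card G - (∑ x, f x) ^ 2 ≤ ‖E‖ := by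
    rw [← h6, Complex.norm_real, Real.norm_eq_abs]
    exact le_abs_self _
  have h8 := h7.trans hEb
  have h9 : (∑ x, f x) ^ 2 / Nat.card G + M * ∑ x, f x =
      ((∑ x, f x) ^ 2 + M * ((∑ x, f x) * Nat.card G)) / Nat.card G := by
    field_simp
  rw [h9, le_div_iff₀ hN]
  linarith

/-- Both translates. -/
theorem sec_pair {G : Type} [Group G] [Fintype G] (f : G → ℝ) (y : G) (i j : ℕ) (h : i ≤ j) :
    ∑ x, f (x * y ^ i) * f (x * y ^ j) = ∑ x, f x * f (x * y ^ (j - i)) := by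
  rw [← Equiv.sum_comp (Equiv.mulRight (y ^ i)) fun x => f x * f (x * y ^ (j - i))]
  refine Finset.sum_congr rfl fun x _ => ?_
  simp only [Equiv.coe_mulRight]
  rw [mul_assoc, ← pow_add, Nat.add_sub_cancel' h]

theorem t_SEC : M_SEC := by
  intro hPVL G _ _ P hP y M m hM hX
  classical
  obtain ⟨f, hfd⟩ : ∃ f : G → ℝ, f = fun x => if x ∈ P then 1 else 0 := ⟨_, rfl⟩
  have hf1 : ∀ x, x ∈ P → f x = 1 := fun x hx => by rw [hfd]; exact if_pos hx
  have hf0 : ∀ x, x ∉ P → f x = 0 := fun x hx => by rw [hfd]; exact if_neg hx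
  have hs : ∀ x, f x ^ 2 = f x := by
    intro x
    by_cases hx : x ∈ P
    · rw [hf1 x hx, one_pow]
    · rw [hf0 x hx]
      norm_num
  have hf : ∀ g x, f (g * x * g⁻¹) = f x := by
    intro g x
    by_cases hx : x ∈ P
    · rw [hf1 x hx, hf1 _ (hP x hx g)]
    · rw [hf0 x hx, hf0]
      intro h'
      apply hx
      have h2 := hP _ h' g⁻¹
      have h3 : g⁻¹ * (g * x * g⁻¹) * g⁻¹⁻¹ = x := by group
      rwa [h3] at h2
  have hp : ∑ x, f x = Nat.card P := by
    rw [Nat.card_eq_fintype_card, ← Set.toFinset_card, hfd, Finset.sum_boole]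
    congr 1
    refine congrArg Finset.card ?_
    ext x
    simp
  obtain ⟨p, hpd⟩ : ∃ p : ℝ, p = Nat.card P := ⟨_, rfl⟩
  obtain ⟨N, hNd⟩ : ∃ N : ℝ, N = Nat.card G := ⟨_, rfl⟩
  have hN : 0 < N := by
    rw [hNd]
    exact_mod_cast Nat.card_pos
  have hp0 : 0 ≤ p := by
    rw [hpd]
    exact Nat.cast_nonneg _
  rw [← hpd] at hp
  have hB : ∀ k, 1 ≤ k → k < m → ∑ x, f x * f (x * y ^ k) ≤ p ^ 2 / N + M * p := by
    intro k h1 h2
    have h := sec_bd hPVL f hf hs M hM (y ^ k) fun X hX1 hX2 => hX X hX1 hX2 k h1 h2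
    rwa [hp, ← hNd] at h
  have hB0 : 0 ≤ p ^ 2 / N + M * p := by positivity
  obtain ⟨Z, hZd⟩ : ∃ Z : G → ℝ, Z = fun x => ∑ i ∈ Finset.range m, f (x * y ^ i) := ⟨_, rfl⟩
  have hZ1 : ∑ x, Z x = m * p := by
    rw [hZd, Finset.sum_comm]
    have : ∀ i ∈ Finset.range m, ∑ x, f (x * y ^ i) = p := by
      intro i _
      rw [← hp, ← Equiv.sum_comp (Equiv.mulRight (y ^ i)) f]
      rfl
    rw [Finset.sum_congr rfl this, Finset.sum_const, Finset.card_range, nsmul_eq_mul]
  have hZ2 : ∑ x, Z x ^ 2 ≤ m * p + m ^ 2 * (p ^ 2 / N + M * p) := by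
    have e1 : ∑ x, Z x ^ 2 = ∑ i ∈ Finset.range m, ∑ j ∈ Finset.range m,
        ∑ x, f (x * y ^ i) * f (x * y ^ j) := by
      have : ∀ x, Z x ^ 2 = ∑ i ∈ Finset.range m, ∑ j ∈ Finset.range m,
          f (x * y ^ i) * f (x * y ^ j) := by
        intro x
        rw [hZd, pow_two, Finset.sum_mul_sum]
      rw [Finset.sum_congr rfl fun x _ => this x, Finset.sum_comm]
      refine Finset.sum_congr rfl fun i _ => ?_
      rw [Finset.sum_comm]
    have e2 : ∀ i ∈ Finset.range m, ∀ j ∈ Finset.range m,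
        ∑ x, f (x * y ^ i) * f (x * y ^ j) ≤ (if i = j then p else 0) + (p ^ 2 / N + M * p) := by
      intro i hi j hj
      rw [Finset.mem_range] at hi hj
      rcases lt_trichotomy i j with h | h | h
      · rw [if_neg h.ne, zero_add, sec_pair f y i j h.le]
        exact hB _ (by omega) (by omega)
      · subst h
        rw [if_pos rfl, sec_pair f y i i le_rfl]
        have : ∑ x, f x * f (x * y ^ (i - i)) = p := by
          rw [← hp]
          refine Finset.sum_congr rfl fun x _ => ?_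
          rw [Nat.sub_self, pow_zero, mul_one, ← pow_two, hs]
        rw [this]
        linarith
      · rw [if_neg h.ne', zero_add]
        have : ∑ x, f (x * y ^ i) * f (x * y ^ j) = ∑ x, f (x * y ^ j) * f (x * y ^ i) :=
          Finset.sum_congr rfl fun x _ => mul_comm _ _
        rw [this, sec_pair f y j i h.le]
        exact hB _ (by omega) (by omega)
    rw [e1]
    refine (Finset.sum_le_sum fun i hi => Finset.sum_le_sum fun j hj => e2 i hi j hj).trans ?_
    have e3 : ∀ i ∈ Finset.range m, ∑ j ∈ Finset.range m,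
        ((if i = j then p else 0) + (p ^ 2 / N + M * p)) = p + m * (p ^ 2 / N + M * p) := by
      intro i hi
      rw [Finset.sum_add_distrib, Finset.sum_ite_eq, if_pos hi, Finset.sum_const,
        Finset.card_range, nsmul_eq_mul]
    rw [Finset.sum_congr rfl e3, Finset.sum_const, Finset.card_range, nsmul_eq_mul]
    exact le_of_eq (by ring)
  obtain ⟨N0, hN0⟩ : ∃ N0 : ℝ, N0 = (Nat.card {x : G // ∀ i < m, x * y ^ i ∉ P} : ℝ) := ⟨_, rfl⟩
  have hCh : N0 * (m * p / N) ^ 2 ≤ ∑ x, (Z x - m * p / N) ^ 2 := by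
    have e1 : N0 * (m * p / N) ^ 2 =
        ∑ x ∈ Finset.univ.filter (fun x : G => ∀ i < m, x * y ^ i ∉ P), (Z x - m * p / N) ^ 2 := by
      have : ∀ x ∈ Finset.univ.filter (fun x : G => ∀ i < m, x * y ^ i ∉ P),
          (Z x - m * p / N) ^ 2 = (m * p / N) ^ 2 := by
        intro x hx
        have hx' := (Finset.mem_filter.1 hx).2
        have : Z x = 0 := by
          rw [hZd]
          exact Finset.sum_eq_zero fun i hi => hf0 _ (hx' i (Finset.mem_range.1 hi))
        rw [this]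
        ring
      rw [Finset.sum_congr rfl this, Finset.sum_const, nsmul_eq_mul, hN0,
        Nat.card_eq_fintype_card, Fintype.card_subtype]
    rw [e1]
    exact Finset.sum_le_sum_of_subset_of_nonneg (Finset.subset_univ _)
      fun x _ _ => by positivity
  have hVar : ∑ x, (Z x - m * p / N) ^ 2 = ∑ x, Z x ^ 2 - (m * p) ^ 2 / N := by
    have e1 : ∀ x, (Z x - m * p / N) ^ 2 = Z x ^ 2 - 2 * (m * p / N) * Z x + (m * p / N) ^ 2 :=
      fun x => by ring
    rw [Finset.sum_congr rfl fun x _ => e1 x, Finset.sum_add_distrib, Finset.sum_sub_distrib,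
      ← Finset.mul_sum, hZ1, Finset.sum_const, Finset.card_univ, nsmul_eq_mul,
      ← Nat.card_eq_fintype_card, ← hNd]
    field_simp
    ring
  rw [← hN0, ← hpd, ← hNd]
  have hm0 : (0 : ℝ) ≤ m := Nat.cast_nonneg _
  have hfin : N0 * (m * p) ^ 2 ≤ N ^ 2 * (1 + M * m) * (m * p) := by
    have e1 : N0 * (m * p / N) ^ 2 ≤ m * p * (1 + M * m) := by
      have : (m * p) ^ 2 / N = (m : ℝ) ^ 2 * (p ^ 2 / N) := by ring
      rw [hVar, this] at hCh
      nlinarith
    have e2 : N0 * (m * p) ^ 2 = N0 * (m * p / N) ^ 2 * N ^ 2 := by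
      field_simp
    rw [e2]
    have e3 := mul_le_mul_of_nonneg_right e1 (by positivity : 0 ≤ N ^ 2)
    linarith
  rcases (mul_nonneg hm0 hp0).eq_or_lt with h | h
  · rw [← h, mul_zero]
    positivity
  · have : N0 * (m * p) * (m * p) ≤ N ^ 2 * (1 + M * m) * (m * p) := by
      rw [mul_assoc, ← pow_two]
      exact hfin
    exact le_of_mul_le_mul_right this h

end

end SRJ
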