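import Mathlib
import Pool.Agent.SRJ.StB

/-!
# SML: the small degree part of the characteristic polynomial of a random matrix
-/

set_option autoImplicit false

namespace SRJ

open RSF FL0 Polynomial Pool.Agent.Lib_helper13 Finset

noncomputable section

theorem sml_geo (n : ℕ) : ∑ l ∈ Icc 1 n, (1 / 2 : ℝ) ^ l = 1 - (1 / 2) ^ n := by
  induction n with
  | zero => simp
  | succ n ih =>
    rw [Finset.sum_Icc_succ_top (by omega), ih, pow_succ]
    ring

theorem sml_fin (F : Type) [Field F] [Finite F] (d : ℕ) :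
    {p : F[X] | p.Monic ∧ p.natDegree = d}.Finite ∧
      {p : F[X] | p.Monic ∧ p.natDegree = d}.ncard = Nat.card F ^ d := by
  have e : {p : F[X] // p.Monic ∧ p.natDegree = d} ≃ (Fin d → F) :=
    (monicEquivDegreeLT d).trans (degreeLTEquiv F d).toEquiv
  have h1 : Finite {p : F[X] // p.Monic ∧ p.natDegree = d} := Finite.of_equiv _ e.symm
  have h3 : Finite ↑{p : F[X] | p.Monic ∧ p.natDegree = d} := h1
  refine ⟨Set.toFinite _, ?_⟩
  rw [← Nat.card_coe_set_eq]
  have h2 := Nat.card_congr e
  rw [Nat.card_fun, Nat.card_eq_fintype_card (α := Fin d), Fintype.card_fin] at h2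
  exact h2

open Classical in
/-- the monic irreducible polynomials of degree `d`, different from `X` -/
def sml_T (F : Type) [Field F] [Finite F] (d : ℕ) : Finset F[X] :=
  (sml_fin F d).1.toFinset.filter fun p => Irreducible p ∧ p ≠ X

theorem sml_mem {F : Type} [Field F] [Finite F] {d : ℕ} {p : F[X]} :
    p ∈ sml_T F d ↔ p.Monic ∧ p.natDegree = d ∧ Irreducible p ∧ p ≠ X := by
  classical
  unfold sml_T
  rw [mem_filter, Set.Finite.mem_toFinset]
  exact and_assoc

theorem sml_card (F : Type) [Field F] [Finite F] (d : ℕ) :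
    (sml_T F d).card ≤ Nat.card F ^ d := by
  classical
  unfold sml_T
  refine (card_filter_le _ _).trans ?_
  rw [← Set.ncard_eq_toFinset_card _ (sml_fin F d).1, (sml_fin F d).2]

open Classical in
theorem sml_pt {F : Type} [Field F] [Finite F] (D n : ℕ) (f : F[X]) (hf : f.natDegree = n)
    (h0 : f.coeff 0 ≠ 0) :
    smd D f ≤ ∑ d ∈ Icc 1 D, ∑ p ∈ sml_T F d,
      d * ∑ l ∈ Icc 1 n, (if p ^ l ∣ f then 1 else 0) := by
  have hne : f ≠ 0 := by
    rintro rfl
    simp at h0
  set s : Multiset F[X] := ((UniqueFactorizationMonoid.factors f).filter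
    fun p => p.natDegree ≤ D).map normalize with hs
  have e1 : smd D f = (s.map natDegree).sum := by
    unfold smd
    rw [hs, Multiset.map_map]
    congr 1
    refine Multiset.map_congr rfl fun p _ => ?_
    rw [Function.comp_apply]
    exact (Polynomial.natDegree_eq_of_degree_eq Polynomial.degree_normalize).symm
  have hle : s ≤ UniqueFactorizationMonoid.normalizedFactors f := by
    rw [hs, UniqueFactorizationMonoid.normalizedFactors]
    exact Multiset.map_le_map (Multiset.filter_le _ _)
  have hmem : ∀ m ∈ s, m.Monic ∧ Irreducible m ∧ m.natDegree ≤ D ∧ m ∣ f := by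
    intro m hm
    have hm2 := Multiset.mem_of_le hle hm
    rw [hs, Multiset.mem_map] at hm
    obtain ⟨p, hp, rfl⟩ := hm
    rw [Multiset.mem_filter] at hp
    have hirr := UniqueFactorizationMonoid.irreducible_of_factor p hp.1
    refine ⟨Polynomial.monic_normalize hirr.ne_zero, ?_, ?_, ?_⟩
    · exact UniqueFactorizationMonoid.irreducible_of_normalized_factor _ hm2
    · rw [Polynomial.natDegree_eq_of_degree_eq (Polynomial.degree_normalize (p := p))]
      exact hp.2
    · exact UniqueFactorizationMonoid.dvd_of_mem_normalizedFactors hm2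
  have hcount : ∀ m ∈ s, s.count m ≤ ∑ l ∈ Icc 1 n, (if m ^ l ∣ f then 1 else 0) := by
    intro m hm
    obtain ⟨hmon, hirr, -, -⟩ := hmem m hm
    have h1 : m ^ s.count m ∣ f := by
      have h2 : Multiset.replicate (s.count m) m ≤
          UniqueFactorizationMonoid.normalizedFactors f :=
        (Multiset.le_count_iff_replicate_le.1 le_rfl).trans hle
      have h3 := Multiset.prod_dvd_prod_of_le h2
      rw [Multiset.prod_replicate] at h3
      exact h3.trans (UniqueFactorizationMonoid.prod_normalizedFactors hne).dvd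
    have h4 : s.count m ≤ n := by
      have h5 := Polynomial.natDegree_le_of_dvd h1 hne
      rw [hmon.natDegree_pow, hf] at h5
      have h6 : 1 ≤ m.natDegree := hirr.natDegree_pos
      nlinarith
    calc s.count m = ∑ l ∈ Icc 1 (s.count m), 1 := by simp
      _ ≤ ∑ l ∈ Icc 1 (s.count m), (if m ^ l ∣ f then 1 else 0) := by
          refine sum_le_sum fun l hl => ?_
          rw [mem_Icc] at hl
          rw [if_pos ((pow_dvd_pow m hl.2).trans h1)]
      _ ≤ ∑ l ∈ Icc 1 n, (if m ^ l ∣ f then 1 else 0) := by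
          refine sum_le_sum_of_subset_of_nonneg (Icc_subset_Icc_right h4) fun _ _ _ => ?_
          exact Nat.zero_le _
  rw [e1, Finset.sum_multiset_map_count]
  have hmaps : ∀ m ∈ s.toFinset, m.natDegree ∈ Icc 1 D := by
    intro m hm
    obtain ⟨-, hirr, hD, -⟩ := hmem m (Multiset.mem_toFinset.1 hm)
    rw [mem_Icc]
    exact ⟨hirr.natDegree_pos, hD⟩
  rw [← Finset.sum_fiberwise_of_maps_to hmaps]
  refine sum_le_sum fun d _ => ?_
  calc ∑ m ∈ s.toFinset.filter (fun m => m.natDegree = d), s.count m • m.natDegree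
      ≤ ∑ m ∈ s.toFinset.filter (fun m => m.natDegree = d),
        d * ∑ l ∈ Icc 1 n, (if m ^ l ∣ f then 1 else 0) := by
        refine sum_le_sum fun m hm => ?_
        rw [mem_filter, Multiset.mem_toFinset] at hm
        rw [smul_eq_mul, hm.2, mul_comm]
        exact Nat.mul_le_mul_left _ (hcount m hm.1)
    _ ≤ _ := by
        refine sum_le_sum_of_subset_of_nonneg ?_ fun _ _ _ => Nat.zero_le _
        intro m hm
        rw [mem_filter, Multiset.mem_toFinset] at hm
        obtain ⟨hmon, hirr, -, hdvd⟩ := hmem m hm.1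
        rw [sml_mem]
        refine ⟨hmon, hm.2, hirr, ?_⟩
        rintro rfl
        exact h0 (Polynomial.X_dvd_iff.1 hdvd)

/-- the bound for one `p` and one `l` -/
theorem sml_one (hDIV : S_DIV) (hDVT : S_DVT) (n D : ℕ) (F : Type) [Field F] [Finite F]
    (hD : 2 * D < n) {d : ℕ} (hd : 1 ≤ d) (hdD : d ≤ D) {p : F[X]} (hp : p ∈ sml_T F d)
    {l : ℕ} (hl : 1 ≤ l) :
    Nat.card {y : SL n F // p ^ l ∣ y.1.charpoly} * Nat.card F ^ d * 2 ^ l ≤
      16 * Nat.card (SL n F) := by
  classical
  obtain ⟨hmon, hdeg, hirr, hX⟩ := sml_mem.1 hp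
  set a := Nat.card {y : SL n F // p ^ l ∣ y.1.charpoly} with ha
  set N := Nat.card (SL n F) with hN
  set q := Nat.card F with hq
  have hq2 : 2 ≤ q := Finite.one_lt_card
  have hQq : q ≤ q ^ d := by
    calc q = q ^ 1 := (pow_one q).symm
      _ ≤ q ^ d := Nat.pow_le_pow_right (by omega) hd
  rcases Nat.lt_or_ge (q ^ d) 3 with hQ | hQ
  · -- `q = 2`, `d = 1`
    have hq' : q = 2 := by omega
    have hd' : d = 1 := by
      by_contra h
      have : 2 ≤ d := by omega
      have h2 : q ^ 2 ≤ q ^ d := Nat.pow_le_pow_right (by omega) this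
      rw [hq'] at h2
      rw [hq'] at hQ
      omega
    have hp1 : p = X - 1 := by
      have h1 := hmon.eq_X_add_C (by rw [hdeg, hd'])
      have h2 : p.coeff 0 ≠ 0 := by
        intro h
        rw [h, C_0, add_zero] at h1
        exact hX h1
      have h3 : p.coeff 0 = -1 := by
        by_contra h
        have h4 : ({0, p.coeff 0, -1} : Finset F).card ≤ Nat.card F := by
          have := Fintype.ofFinite F
          rw [Nat.card_eq_fintype_card]
          exact Finset.card_le_univ _
        have h5 : ({0, p.coeff 0, -1} : Finset F).card = 3 := by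
          rw [Finset.card_eq_three]
          exact ⟨0, p.coeff 0, -1, Ne.symm h2, by simp, h, rfl⟩
        omega
      rw [h1, h3]
      simp [sub_eq_add_neg]
    have h := hDVT F hq' n l
    rw [← hp1, ← ha, ← hN] at h
    rw [hq', hd', pow_one]
    calc a * 2 * 2 ^ l = 2 * (a * 2 ^ l) := by ring
      _ ≤ 2 * (8 * N) := Nat.mul_le_mul_left _ h
      _ = 16 * N := by ring
  · set r := q ^ d - 1 with hr
    have hr2 : 2 ≤ r := by omega
    have hQr : q ^ d = r + 1 := by omega
    have hdegL : ((List.replicate l p).prod).natDegree = l * d := by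
      rw [List.prod_replicate, hmon.natDegree_pow, hdeg]
    have hL : ∀ p' ∈ List.replicate l p, p'.Monic ∧ Irreducible p' ∧ p' ≠ X := by
      intro p' hp'
      rw [List.eq_of_mem_replicate hp']
      exact ⟨hmon, hirr, hX⟩
    have hmap : ((List.replicate l p).map fun p => Nat.card F ^ p.natDegree - 1).prod =
        r ^ l := by
      rw [List.map_replicate, List.prod_replicate, hdeg]
    have hlow : r * 2 ^ (l - 1) ≤ r ^ l := by
      calc r * 2 ^ (l - 1) ≤ r * r ^ (l - 1) :=
            Nat.mul_le_mul_left _ (Nat.pow_le_pow_left hr2 _)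
        _ = r ^ l := by
            rw [← pow_succ', Nat.sub_add_cancel hl]
    have h2l : 2 ^ l = 2 * 2 ^ (l - 1) := by
      rw [← pow_succ', Nat.sub_add_cancel hl]
    rcases lt_trichotomy (l * d) n with hn | hn | hn
    · have h := hDIV F (List.replicate l p) hL n (by rw [hdegL]; omega)
      rw [hmap, hdegL, if_pos hn, one_mul, List.prod_replicate, ← ha, ← hN] at h
      rw [hQr]
      calc a * (r + 1) * 2 ^ l ≤ a * (2 * r) * (2 * 2 ^ (l - 1)) := by
            rw [h2l]
            exact Nat.mul_le_mul_right _ (Nat.mul_le_mul_left _ (by omega))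
        _ = 4 * (a * (r * 2 ^ (l - 1))) := by ring
        _ ≤ 4 * (a * r ^ l) := Nat.mul_le_mul_left _ (Nat.mul_le_mul_left _ hlow)
        _ ≤ 4 * N := Nat.mul_le_mul_left _ h
        _ ≤ 16 * N := Nat.mul_le_mul_right _ (by norm_num)
    · have h := hDIV F (List.replicate l p) hL n (by rw [hdegL]; omega)
      rw [hmap, hdegL, if_neg (by omega), List.prod_replicate, ← ha, ← hN] at h
      have hl2 : 2 ≤ l := by
        by_contra hl3
        have hl4 : l = 1 := by omega
        subst hl4
        omega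
      have h3 : a * r ^ (l - 1) ≤ N := by
        have h4 : r * (a * r ^ (l - 1)) ≤ r * N := by
          calc r * (a * r ^ (l - 1)) = a * (r * r ^ (l - 1)) := by ring
            _ = a * r ^ l := by rw [← pow_succ', Nat.sub_add_cancel hl]
            _ ≤ (Nat.card F - 1) * N := h
            _ ≤ r * N := Nat.mul_le_mul_right _ (by omega)
        exact Nat.le_of_mul_le_mul_left h4 (by omega)
      have h5 : r * 2 ^ (l - 2) ≤ r ^ (l - 1) := by
        calc r * 2 ^ (l - 2) ≤ r * r ^ (l - 2) :=
              Nat.mul_le_mul_left _ (Nat.pow_le_pow_left hr2 _)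
          _ = r ^ (l - 1) := by
              rw [← pow_succ']
              congr 1
              omega
      have h6 : 2 ^ l = 4 * 2 ^ (l - 2) := by
        rw [show (4 : ℕ) = 2 ^ 2 by norm_num, ← pow_add]
        congr 1
        omega
      rw [hQr]
      calc a * (r + 1) * 2 ^ l ≤ a * (2 * r) * (4 * 2 ^ (l - 2)) := by
            rw [h6]
            exact Nat.mul_le_mul_right _ (Nat.mul_le_mul_left _ (by omega))
        _ = 8 * (a * (r * 2 ^ (l - 2))) := by ring
        _ ≤ 8 * (a * r ^ (l - 1)) := Nat.mul_le_mul_left _ (Nat.mul_le_mul_left _ h5)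
        _ ≤ 8 * N := Nat.mul_le_mul_left _ h3
        _ ≤ 16 * N := Nat.mul_le_mul_right _ (by norm_num)
    · have h0 : a = 0 := by
        rw [ha, Nat.card_eq_zero]
        left
        refine ⟨fun y => ?_⟩
        have h1 := Polynomial.natDegree_le_of_dvd y.2 (Matrix.charpoly_monic _).ne_zero
        rw [hmon.natDegree_pow, hdeg, Matrix.charpoly_natDegree_eq_dim, Fintype.card_fin] at h1
        omega
      rw [h0]
      simp

theorem t_SML : M_SML := by
  classical
  intro hDIV hDVT
  refine ⟨16, by norm_num, fun n D F _ _ hD => ?_⟩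
  have := Fintype.ofFinite (SL n F)
  rw [finsum_eq_sum_of_fintype]
  set N := Nat.card (SL n F) with hN
  set q := Nat.card F with hq
  have hq1 : 0 < q := Nat.card_pos
  -- coefficient zero
  have hpt : ∀ y : SL n F, smd D y.1.charpoly ≤ ∑ d ∈ Icc 1 D, ∑ p ∈ sml_T F d,
      d * ∑ l ∈ Icc 1 n, (if p ^ l ∣ y.1.charpoly then 1 else 0) := by
    intro y
    refine sml_pt D n _ ?_ ?_
    · rw [Matrix.charpoly_natDegree_eq_dim, Fintype.card_fin]
    · have h1 := Matrix.det_eq_sign_charpoly_coeff y.1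
      rw [y.2] at h1
      intro h2
      rw [h2, mul_zero] at h1
      exact one_ne_zero h1
  have hsum : ∑ y : SL n F, smd D y.1.charpoly ≤ ∑ d ∈ Icc 1 D, ∑ p ∈ sml_T F d,
      d * ∑ l ∈ Icc 1 n, Nat.card {y : SL n F // p ^ l ∣ y.1.charpoly} := by
    calc ∑ y : SL n F, smd D y.1.charpoly ≤ ∑ y : SL n F, ∑ d ∈ Icc 1 D, ∑ p ∈ sml_T F d,
          d * ∑ l ∈ Icc 1 n, (if p ^ l ∣ y.1.charpoly then 1 else 0) :=
          sum_le_sum fun y _ => hpt y
      _ = _ := by
          rw [sum_comm]
          refine sum_congr rfl fun d _ => ?_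
          rw [sum_comm]
          refine sum_congr rfl fun p _ => ?_
          rw [← mul_sum, sum_comm]
          congr 1
          refine sum_congr rfl fun l _ => ?_
          rw [← card_filter, Nat.card_eq_fintype_card, Fintype.card_subtype]
  have hone : ∀ d ∈ Icc 1 D, ∀ p ∈ sml_T F d,
      ((∑ l ∈ Icc 1 n, Nat.card {y : SL n F // p ^ l ∣ y.1.charpoly} : ℕ) : ℝ) * (q : ℝ) ^ d ≤
        16 * N := by
    intro d hd p hp
    rw [mem_Icc] at hd
    have h1 : ∀ l ∈ Icc 1 n, (Nat.card {y : SL n F // p ^ l ∣ y.1.charpoly} : ℝ) * (q : ℝ) ^ d ≤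
        16 * N * (1 / 2) ^ l := by
      intro l hl
      rw [mem_Icc] at hl
      have h2 := sml_one hDIV hDVT n D F hD hd.1 hd.2 hp hl.1
      have h3 : (Nat.card {y : SL n F // p ^ l ∣ y.1.charpoly} : ℝ) * (q : ℝ) ^ d * 2 ^ l ≤
          16 * N := by exact_mod_cast h2
      rw [one_div, inv_pow, ← div_eq_mul_inv, le_div_iff₀ (by positivity)]
      exact h3
    push_cast
    rw [sum_mul]
    refine (sum_le_sum h1).trans ?_
    rw [← mul_sum, sml_geo]
    have h4 : (0 : ℝ) ≤ (1 / 2) ^ n := by positivity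
    have h5 : (0 : ℝ) ≤ 16 * N := by positivity
    nlinarith
  have hd1 : ∀ d ∈ Icc 1 D, ((∑ p ∈ sml_T F d,
      d * ∑ l ∈ Icc 1 n, Nat.card {y : SL n F // p ^ l ∣ y.1.charpoly} : ℕ) : ℝ) ≤
        16 * D * N := by
    intro d hd
    have hd' := mem_Icc.1 hd
    have hQ : (0 : ℝ) < (q : ℝ) ^ d := by positivity
    have h1 : ((∑ p ∈ sml_T F d,
        d * ∑ l ∈ Icc 1 n, Nat.card {y : SL n F // p ^ l ∣ y.1.charpoly} : ℕ) : ℝ) *
          (q : ℝ) ^ d ≤ (16 * D * N) * (q : ℝ) ^ d := by
      push_cast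
      rw [sum_mul]
      calc ∑ p ∈ sml_T F d, (d : ℝ) * (∑ l ∈ Icc 1 n,
            (Nat.card {y : SL n F // p ^ l ∣ y.1.charpoly} : ℝ)) * (q : ℝ) ^ d
          ≤ ∑ p ∈ sml_T F d, (D : ℝ) * (16 * N) := by
            refine sum_le_sum fun p hp => ?_
            have h2 := hone d hd p hp
            push_cast at h2
            rw [mul_assoc]
            have h3 : (d : ℝ) ≤ D := by exact_mod_cast hd'.2
            exact mul_le_mul h3 h2 (by positivity) (by positivity)
        _ = (sml_T F d).card * ((D : ℝ) * (16 * N)) := by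
            rw [sum_const, nsmul_eq_mul]
        _ ≤ (q : ℝ) ^ d * ((D : ℝ) * (16 * N)) := by
            refine mul_le_mul_of_nonneg_right ?_ (by positivity)
            exact_mod_cast sml_card F d
        _ = _ := by ring
    exact le_of_mul_le_mul_right h1 hQ
  have hfin : ((∑ y : SL n F, smd D y.1.charpoly : ℕ) : ℝ) ≤ D * (16 * D * N) := by
    calc ((∑ y : SL n F, smd D y.1.charpoly : ℕ) : ℝ) ≤ ((∑ d ∈ Icc 1 D, ∑ p ∈ sml_T F d,
          d * ∑ l ∈ Icc 1 n, Nat.card {y : SL n F // p ^ l ∣ y.1.charpoly} : ℕ) : ℝ) := by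
          exact_mod_cast hsum
      _ = ∑ d ∈ Icc 1 D, ((∑ p ∈ sml_T F d,
          d * ∑ l ∈ Icc 1 n, Nat.card {y : SL n F // p ^ l ∣ y.1.charpoly} : ℕ) : ℝ) := by
          rw [Nat.cast_sum]
      _ ≤ ∑ d ∈ Icc 1 D, 16 * (D : ℝ) * N := sum_le_sum hd1
      _ = D * (16 * D * N) := by
          rw [sum_const, Nat.card_Icc, nsmul_eq_mul]
          norm_num
  push_cast at hfin
  refine hfin.trans ?_
  have hN0 : (0 : ℝ) ≤ N := by positivity
  have hD0 : (0 : ℝ) ≤ D := by positivity
  nlinarith [mul_nonneg hD0 hN0]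

end

end SRJ
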