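import Mathlib
import Pool.Agent.SRJ.StB

/-!
# STZ: elements with an irreducible subspace of codimension one
-/

set_option autoImplicit false

namespace SRJ

open RSF FL0 Polynomial Pool.Agent.Lib_helper13

section

variable {F V : Type} [Field F] [AddCommGroup V] [Module F V]

/-- The map `f ↦ f(w) v`. -/
noncomputable def stz_ev (w : Module.End F V) (v : V) : F[X] →ₗ[F] V :=
  (LinearMap.applyₗ v).comp (aeval w).toLinearMap

theorem stz_ev_apply (w : Module.End F V) (v : V) (f : F[X]) : stz_ev w v f = aeval w f v := rfl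

theorem stz_ev_mul (w : Module.End F V) (v : V) (f g : F[X]) :
    stz_ev w v (f * g) = aeval w f (aeval w g v) := by
  rw [stz_ev_apply, map_mul]
  rfl

theorem stz_kill (w : Module.End F V) (v : V) (p : F[X]) (h : aeval w p v = 0) (f : F[X])
    (hf : p ∣ f) : stz_ev w v f = 0 := by
  obtain ⟨g, rfl⟩ := hf
  rw [mul_comm, stz_ev_mul, h, map_zero]

theorem stz_cop (w : Module.End F V) (v : V) (p : F[X]) (hp : Irreducible p)
    (h : aeval w p v = 0) (hv : v ≠ 0) (f : F[X]) (hf : stz_ev w v f = 0) : p ∣ f := by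
  by_contra hd
  obtain ⟨a, b, hab⟩ := (hp.coprime_iff_not_dvd).2 hd
  apply hv
  have h1 : stz_ev w v (a * p + b * f) = v := by
    rw [hab, stz_ev_apply, map_one]
    rfl
  rw [← h1, map_add, stz_ev_mul, stz_ev_mul, h, ← stz_ev_apply w v f, hf, map_zero, map_zero,
    add_zero]

/-- The induced map on `F[X] / (p)`. -/
theorem stz_ind (w : Module.End F V) (v : V) (p : F[X]) (h : aeval w p v = 0) :
    ∃ φ : AdjoinRoot p →ₗ[F] V, ∀ f : F[X], φ (AdjoinRoot.mk p f) = aeval w f v := by
  let g : F[X] →ₗ[F] AdjoinRoot p := (Ideal.Quotient.mkₐ F (Ideal.span {p})).toLinearMap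
  have hg : ∀ f, g f = AdjoinRoot.mk p f := fun f => rfl
  have hs : Function.Surjective g := AdjoinRoot.mk_surjective
  have hk : LinearMap.ker g ≤ LinearMap.ker (stz_ev w v) := by
    intro f hf
    rw [LinearMap.mem_ker, hg, AdjoinRoot.mk_eq_zero] at hf
    exact stz_kill w v p h f hf
  refine ⟨((LinearMap.ker g).liftQ (stz_ev w v) hk).comp
    (g.quotKerEquivOfSurjective hs).symm.toLinearMap, fun f => ?_⟩
  have h1 : (g.quotKerEquivOfSurjective hs).symm (AdjoinRoot.mk p f) =
      Submodule.Quotient.mk f := by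
    rw [LinearEquiv.symm_apply_eq]
    rfl
  change (LinearMap.ker g).liftQ (stz_ev w v) hk
    ((g.quotKerEquivOfSurjective hs).symm (AdjoinRoot.mk p f)) = _
  rw [h1]
  rfl

theorem stz_eig (w : Module.End F V) (c : F) (v : V) (h : w v = c • v) (f : F[X]) :
    aeval w f v = f.eval c • v := by
  by_cases hv : v = 0
  · rw [hv, map_zero, smul_zero]
  · exact Module.End.aeval_apply_of_hasEigenvector ⟨Module.End.mem_eigenspace_iff.2 h, hv⟩

/-- The decomposition. -/
theorem stz_equiv [FiniteDimensional F V] (w : Module.End F V) (c : F) (p : F[X])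
    (hp : Irreducible p) (hr : p.eval c ≠ 0) (v₁ v₂ : V) (h₁ : v₁ ≠ 0) (h₂ : v₂ ≠ 0)
    (hw₁ : w v₁ = c • v₁) (hw₂ : aeval w p v₂ = 0)
    (hdim : Module.finrank F V = p.natDegree + 1) :
    ∃ e : V ≃ₗ[F] (F × AdjoinRoot p),
      ∀ v, e (w v) = (c * (e v).1, AdjoinRoot.root p * (e v).2) := by
  obtain ⟨φ, hφ⟩ := stz_ind w v₂ p hw₂
  let ψ : F × AdjoinRoot p →ₗ[F] V := LinearMap.coprod (LinearMap.toSpanSingleton F V v₁) φ
  have hψ : ∀ (a : F) (f : F[X]), ψ (a, AdjoinRoot.mk p f) = a • v₁ + aeval w f v₂ := by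
    intro a f
    rw [← hφ]
    rfl
  have : FiniteDimensional F (AdjoinRoot p) := (AdjoinRoot.powerBasis hp.ne_zero).finite
  have hd2 : Module.finrank F (AdjoinRoot p) = p.natDegree := finrank_quotient_span_eq_natDegree
  have hinj : Function.Injective ψ := by
    rw [injective_iff_map_eq_zero]
    rintro ⟨a, x⟩ hx
    obtain ⟨f, rfl⟩ := AdjoinRoot.mk_surjective x
    rw [hψ] at hx
    have h3 : aeval w p (a • v₁ + aeval w f v₂) = 0 := by rw [hx, map_zero]
    have h4 : aeval w p (aeval w f v₂) = 0 := by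
      rw [← stz_ev_mul, mul_comm, stz_ev_mul, hw₂, map_zero]
    rw [map_add, h4, add_zero, map_smul, stz_eig w c v₁ hw₁, smul_smul] at h3
    have h5 : a = 0 := by
      rcases smul_eq_zero.1 h3 with h | h
      · exact (mul_eq_zero.1 h).resolve_right hr
      · exact absurd h h₁
    rw [h5, zero_smul, zero_add] at hx
    have h6 : AdjoinRoot.mk p f = 0 := AdjoinRoot.mk_eq_zero.2 (stz_cop w v₂ p hp hw₂ h₂ f hx)
    rw [h5, h6]
    rfl
  have hdd : Module.finrank F (F × AdjoinRoot p) = Module.finrank F V := by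
    rw [Module.finrank_prod, Module.finrank_self, hd2, hdim, add_comm]
  let E := ψ.linearEquivOfInjective hinj hdd
  have hE : ∀ x, E x = ψ x := fun x => rfl
  refine ⟨E.symm, fun v => ?_⟩
  obtain ⟨⟨a, x⟩, rfl⟩ := E.surjective v
  obtain ⟨f, rfl⟩ := AdjoinRoot.mk_surjective x
  rw [LinearEquiv.symm_apply_apply, LinearEquiv.symm_apply_eq, hE, hE, hψ]
  have h7 : AdjoinRoot.root p * AdjoinRoot.mk p f = AdjoinRoot.mk p (X * f) := by
    rw [map_mul, AdjoinRoot.mk_X]
  rw [h7, hψ, map_add, map_smul, hw₁, smul_smul, mul_comm c a]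
  congr 1
  rw [← stz_ev_apply w v₂ (X * f), stz_ev_mul, aeval_X]

end

theorem stz_scalar {n : ℕ} {F : Type} [Field F] (c : F) :
    (Matrix.scalar (Fin n) c).charpoly = (X - C c) ^ n := by
  have h : (Matrix.scalar (Fin n) c).charmatrix = Matrix.diagonal (fun _ => X - C c) := by
    ext i j
    by_cases hij : i = j
    · subst hij
      simp [Matrix.charmatrix]
    · simp [Matrix.charmatrix, hij]
  rw [Matrix.charpoly, h, Matrix.det_diagonal]
  simp

theorem t_STZ : S_STZ := by
  intro n F _ _ y hn hy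
  obtain ⟨c, p, hpm, hpi, hpd, hch, hord⟩ := hy
  have : Fact (Irreducible p) := ⟨hpi⟩
  have hp2 : 2 ≤ p.natDegree := by omega
  have hr : p.eval c ≠ 0 := by
    intro h
    have h1 : p.natDegree = 1 := Polynomial.natDegree_eq_of_degree_eq_some
      (Polynomial.degree_eq_one_of_irreducible_of_root hpi h)
    omega
  let w : Module.End F (Fin n → F) := Matrix.toLin' y.1
  have hwv : ∀ v, w v = y.1.mulVec v := fun v => Matrix.toLin'_apply _ _
  have hwc : w.charpoly = (X - C c) * p := by
    rw [← hch]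
    exact Matrix.charpoly_toLin' _
  -- the eigenvector
  have h1 : w.HasEigenvalue c := by
    rw [Module.End.hasEigenvalue_iff_isRoot_charpoly, hwc, IsRoot, eval_mul, eval_sub, eval_X,
      eval_C, sub_self, zero_mul]
  obtain ⟨v₁, hv₁⟩ := h1.exists_hasEigenvector
  -- the vector killed by `p`
  have h2 : ∃ v₂, v₂ ≠ 0 ∧ aeval w p v₂ = 0 := by
    by_contra hcon
    push Not at hcon
    have hCH : aeval w ((X - C c) * p) = 0 := by
      rw [← hwc]
      exact LinearMap.aeval_self_charpoly w
    have hw : ∀ v, w v = c • v := by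
      intro v
      by_contra hne
      have h3 : aeval w (X - C c) v ≠ 0 := by
        rw [map_sub, aeval_X, aeval_C]
        intro h4
        apply hne
        have h5 : w v - c • v = 0 := h4
        exact sub_eq_zero.1 h5
      refine hcon _ h3 ?_
      have h6 : aeval w (p * (X - C c)) v = 0 := by
        rw [mul_comm, hCH]
        rfl
      rw [map_mul] at h6
      exact h6
    have hy : y.1 = Matrix.scalar (Fin n) c := by
      apply Matrix.toLin'.injective
      refine LinearMap.ext fun v => ?_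
      have h7 := hw v
      change Matrix.toLin' y.1 v = _
      change Matrix.toLin' y.1 v = c • v at h7
      rw [h7, Matrix.toLin'_apply]
      ext i
      simp [Matrix.scalar_apply, Matrix.mulVec_diagonal]
    have h8 : p ∣ (X - C c) ^ n := by
      rw [← stz_scalar c, ← hy, hch]
      exact dvd_mul_left _ _
    have h9 : p ∣ X - C c := hpi.prime.dvd_of_dvd_pow h8
    have h10 := Polynomial.natDegree_le_of_dvd h9 (X_sub_C_ne_zero c)
    rw [natDegree_X_sub_C] at h10
    omega
  obtain ⟨v₂, hv₂, hpv⟩ := h2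
  obtain ⟨e, he⟩ := stz_equiv w c p hpi hr v₁ v₂ hv₁.2 hv₂ hv₁.apply_eq_smul hpv
    (by rw [Module.finrank_fintype_fun_eq_card, Fintype.card_fin, hpd])
  have hfin : FiniteDimensional F (AdjoinRoot p) := (AdjoinRoot.powerBasis hpi.ne_zero).finite
  have hfr : Module.finrank F (AdjoinRoot p) = p.natDegree := finrank_quotient_span_eq_natDegree
  have hK : Finite (AdjoinRoot p) := Module.finite_of_finite F
  -- the norm
  have hN : c * Algebra.norm F (AdjoinRoot.root p) = 1 := by
    have h3 := Algebra.PowerBasis.norm_gen_eq_coeff_zero_minpoly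
      (AdjoinRoot.powerBasis hpi.ne_zero)
    rw [AdjoinRoot.powerBasis_gen, AdjoinRoot.powerBasis_dim, AdjoinRoot.minpoly_root hpi.ne_zero,
      hpm.leadingCoeff, inv_one, C_1, mul_one] at h3
    have h4 := Matrix.det_eq_sign_charpoly_coeff y.1
    rw [y.2, hch, mul_coeff_zero, coeff_sub, coeff_X_zero, coeff_C_zero, Fintype.card_fin,
      ← hpd, pow_succ] at h4
    rw [h3]
    have h5 : c * ((-1) ^ p.natDegree * p.coeff 0) =
        (-1) ^ p.natDegree * -1 * ((0 - c) * p.coeff 0) := by ring
    rw [h5]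
    exact h4.symm
  have hN0 : Algebra.norm F (AdjoinRoot.root p) ≠ 0 := right_ne_zero_of_mul_eq_one hN
  have hc : (Algebra.norm F (AdjoinRoot.root p))⁻¹ = c :=
    (eq_inv_of_mul_eq_one_left hN).symm
  -- powers
  have hpow : ∀ (k : ℕ) (v : Fin n → F), e ((y ^ k : SL n F).1.mulVec v) =
      (c ^ k * (e v).1, AdjoinRoot.root p ^ k * (e v).2) := by
    intro k
    induction k with
    | zero =>
      intro v
      have h3 : ((y ^ 0 : SL n F).1) = 1 := by
        rw [pow_zero]
        rfl
      rw [h3, Matrix.one_mulVec, pow_zero, pow_zero, one_mul, one_mul]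
    | succ k ih =>
      intro v
      have h3 : ((y ^ (k + 1) : SL n F).1) = (y ^ k : SL n F).1 * y.1 := by
        rw [pow_succ]
        rfl
      rw [h3, ← Matrix.mulVec_mulVec, ih, ← hwv, he, pow_succ, pow_succ, mul_assoc, mul_assoc]
  have hcN : c = (Algebra.norm F (AdjoinRoot.root p))⁻¹ := hc.symm
  have hiff : ∀ k : ℕ, y ^ k = 1 ↔ AdjoinRoot.root p ^ k = 1 := by
    intro k
    constructor
    · intro h
      have h3 := hpow k (e.symm (0, 1))
      have h4 : ((1 : SL n F).1) = 1 := rfl
      rw [h, h4, Matrix.one_mulVec, LinearEquiv.apply_symm_apply] at h3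
      have h5 := congrArg Prod.snd h3
      change (1 : AdjoinRoot p) = AdjoinRoot.root p ^ k * 1 at h5
      rw [mul_one] at h5
      exact h5.symm
    · intro h
      have h3 : c ^ k = 1 := by
        rw [hcN, inv_pow, ← map_pow, h, map_one, inv_one]
      apply Subtype.ext
      apply Matrix.toLin'.injective
      refine LinearMap.ext fun v => ?_
      apply e.injective
      rw [Matrix.toLin'_apply, hpow, h3, h, one_mul, one_mul]
      have h4 : ((1 : SL n F).1) = 1 := rfl
      rw [h4, Matrix.toLin'_apply, Matrix.one_mulVec]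
  refine ⟨AdjoinRoot p, inferInstance, inferInstance, hK, AdjoinRoot.root p, e, ?_, ?_, ?_⟩
  · rw [hfr]
    omega
  · rw [← hord]
    exact (orderOf_eq_orderOf_iff.2 hiff).symm
  · intro v
    rw [hc, ← hwv]
    exact he v

end SRJ
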