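import Mathlib
import Pool.Agent.SRJ.StB

/-!
# SRJ, module TRN: transitivity on the points of the projective space
-/

set_option autoImplicit false

namespace SRJ

open RSF FL0 Polynomial Pool.Agent.Lib_helper13

noncomputable section

theorem trn_card_dvd {G : Type*} [Group G] (Γ : Subgroup G) (S : Set G)
    (hS : ∀ x ∈ S, ∀ γ ∈ Γ, x * γ ∈ S) : Nat.card Γ ∣ Nat.card S := by
  have h1 : S = (QuotientGroup.mk : G → G ⧸ Γ) ⁻¹' ((QuotientGroup.mk : G → G ⧸ Γ) '' S) := by
    ext x
    constructor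
    · intro hx
      exact ⟨x, hx, rfl⟩
    · rintro ⟨y, hy, hxy⟩
      have h2 : y⁻¹ * x ∈ Γ := QuotientGroup.eq.1 hxy
      have h3 := hS y hy _ h2
      rwa [mul_inv_cancel_left] at h3
  rw [h1, Nat.card_congr (QuotientGroup.preimageMkEquivSubgroupProdSet Γ _), Nat.card_prod]
  exact Dvd.intro _ rfl

theorem trn_nu (q n : ℕ) (hq : 1 ≤ q) : (q - 1) * nu q n + 1 = q ^ n := by
  obtain ⟨p, rfl⟩ : ∃ p, q = p + 1 := ⟨q - 1, by omega⟩
  simp only [Nat.add_sub_cancel]
  induction n with
  | zero => simp [nu]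
  | succ n ih =>
    have h : nu (p + 1) (n + 1) = nu (p + 1) n + (p + 1) ^ n := Finset.sum_range_succ _ _
    calc p * nu (p + 1) (n + 1) + 1 = (p * nu (p + 1) n + 1) + p * (p + 1) ^ n := by
          rw [h]; ring
      _ = (p + 1) ^ n + p * (p + 1) ^ n := by rw [ih]
      _ = (p + 1) ^ (n + 1) := by ring

theorem trn_arith (r M T a c e b : ℕ) (hr : 1 ≤ r) (hM : r < M)
    (hT : T = Nat.lcm r (M + r * M + 1) * a)
    (hT2 : T = r * c + r * M * e + r * (r * M / Nat.gcd (r * M) (M + 1)) * b)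
    (hc : c ≤ 1) (he : e ≤ 1) (h1 : 1 ≤ T) (h2 : T ≤ r * (M + r * M + 1)) :
    T = r * (M + r * M + 1) := by
  set g := Nat.gcd (r * M) (M + 1) with hg
  have hg1 : g = Nat.gcd r (M + 1) := by
    rw [hg, Nat.gcd_comm, Nat.Coprime.gcd_mul_right_cancel_right r
      (by rw [Nat.coprime_self_add_right]; exact Nat.coprime_one_right M), Nat.gcd_comm]
  have hg2 : g = Nat.gcd r (M + r * M + 1) := by
    rw [hg1, show M + r * M + 1 = (M + 1) + r * M by ring, Nat.gcd_add_mul_left_right]
  have hgr : g ∣ r := by rw [hg1]; exact Nat.gcd_dvd_left _ _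
  have hgle : g ≤ r := Nat.le_of_dvd hr hgr
  have hg0 : 0 < g := Nat.pos_of_dvd_of_pos hgr hr
  have hL : Nat.lcm r (M + r * M + 1) * g = r * (M + r * M + 1) := by
    rw [hg2, mul_comm]
    exact Nat.gcd_mul_lcm _ _
  have e1 : T * g = r * ((M + r * M + 1) * a) := by
    rw [hT]
    calc Nat.lcm r (M + r * M + 1) * a * g = (Nat.lcm r (M + r * M + 1) * g) * a := by ring
      _ = _ := by rw [hL]; ring
  have hdiv : r * M / g * g = r * M := Nat.div_mul_cancel (Nat.gcd_dvd_left _ _)
  have e2 : T * g = r * (g * c + g * M * e + r * M * b) := by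
    rw [hT2]
    calc (r * c + r * M * e + r * (r * M / g) * b) * g
        = r * (g * c + g * M * e + (r * M / g * g) * b) := by ring
      _ = _ := by rw [hdiv]
  have e3 : (M + r * M + 1) * a = g * c + g * M * e + r * M * b :=
    Nat.eq_of_mul_eq_mul_left hr (e1.symm.trans e2)
  have hag : a ≤ g := by
    have h3 : T * g ≤ r * (M + r * M + 1) * g := Nat.mul_le_mul_right g h2
    rw [e1] at h3
    have h4 : (r * (M + r * M + 1)) * a ≤ (r * (M + r * M + 1)) * g := by
      calc _ = r * ((M + r * M + 1) * a) := by ring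
        _ ≤ _ := h3
    exact Nat.le_of_mul_le_mul_left h4 (by positivity)
  have ha : 1 ≤ a := by
    rcases Nat.eq_zero_or_pos a with h | h
    · rw [h, mul_zero] at hT
      omega
    · exact h
  rcases hag.lt_or_eq with hlt | heq
  · exfalso
    -- key: a multiple of `M + 1` with a small factor is not divisible by `r * M`
    have key : ∀ x : ℕ, 1 ≤ x → x < g → (M + 1) * x < r * M := by
      intro x hx hxg
      have h5 : x ≤ r - 1 := by omega
      obtain ⟨r', rfl⟩ : ∃ r', r = r' + 1 := ⟨r - 1, by omega⟩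
      have h6 : (M + 1) * x ≤ (M + 1) * r' := Nat.mul_le_mul_left _ (by omega)
      have h7 : (M + 1) * r' = r' * M + r' := by ring
      have h8 : (r' + 1) * M = r' * M + M := by ring
      omega
    have hka := key a ha hlt
    have hka0 : 0 < (M + 1) * a := by positivity
    have e4 : (M + 1) * a + r * M * a = g * c + g * M * e + r * M * b := by
      rw [← e3]; ring
    have hgM : g * M ≤ r * M := Nat.mul_le_mul_right M hgle
    have hgM' : g < M + 1 := by omega
    have hMa : M + 1 ≤ (M + 1) * a := Nat.le_mul_of_pos_right _ ha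
    interval_cases c <;> interval_cases e
    · -- c = 0, e = 0
      have h5 : (M + 1) * a + r * M * a = r * M * b := by simpa using e4
      have h6 : r * M ∣ (M + 1) * a :=
        (Nat.dvd_add_left (Dvd.intro _ rfl)).1 (h5 ▸ Dvd.intro _ rfl)
      exact absurd (Nat.le_of_dvd hka0 h6) (by omega)
    · -- c = 0, e = 1
      have h5 : (M + 1) * a + r * M * a = g * M + r * M * b := by simpa using e4
      have h6 : (M + 1) * a = g * M := by
        rcases lt_trichotomy a b with h | h | h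
        · obtain ⟨d, rfl⟩ : ∃ d, b = a + 1 + d := ⟨b - a - 1, by omega⟩
          have h7 : r * M * (a + 1 + d) = r * M * a + r * M + r * M * d := by ring
          have h8 : 0 ≤ r * M * d := Nat.zero_le _
          omega
        · subst h
          omega
        · obtain ⟨d, rfl⟩ : ∃ d, a = b + 1 + d := ⟨a - b - 1, by omega⟩
          have h7 : r * M * (b + 1 + d) = r * M * b + r * M + r * M * d := by ring
          have h8 : 0 ≤ r * M * d := Nat.zero_le _
          omega
      have h7 : M + 1 ∣ g * M := ⟨a, h6.symm⟩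
      have h8 : M + 1 ∣ g := Nat.Coprime.dvd_of_dvd_mul_right
        (by rw [Nat.coprime_self_add_left]; exact Nat.coprime_one_left M) h7
      exact absurd (Nat.le_of_dvd hg0 h8) (by omega)
    · -- c = 1, e = 0
      have h5 : (M + 1) * a + r * M * a = g + r * M * b := by simpa using e4
      rcases Nat.lt_or_ge a b with h | h
      · obtain ⟨d, rfl⟩ : ∃ d, b = a + 1 + d := ⟨b - a - 1, by omega⟩
        have h7 : r * M * (a + 1 + d) = r * M * a + r * M + r * M * d := by ring
        omega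
      · have h7 : r * M * b ≤ r * M * a := Nat.mul_le_mul_left _ h
        omega
    · -- c = 1, e = 1
      have h5 : (M + 1) * a + r * M * a = g + g * M + r * M * b := by simpa using e4
      obtain ⟨x, hx⟩ : ∃ x, g = a + x := ⟨g - a, by omega⟩
      have hx1 : 1 ≤ x := by omega
      have hkx := key x hx1 (by omega)
      have h6 : g + g * M = (M + 1) * a + (M + 1) * x := by rw [hx]; ring
      have h7 : r * M * a = (M + 1) * x + r * M * b := by omega
      have h8 : r * M ∣ (M + 1) * x :=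
        (Nat.dvd_add_left (Dvd.intro b rfl)).1 (h7 ▸ Dvd.intro _ rfl)
      exact absurd (Nat.le_of_dvd (by positivity) h8) (by omega)
  · rw [heq] at e1
    have h3 : T * g = (r * (M + r * M + 1)) * g := by rw [e1]; ring
    exact Nat.eq_of_mul_eq_mul_right hg0 h3

theorem trn_order_dvd {G : Type*} [Group G] [Finite G] (γ : G) (S : Set G)
    (hS : ∀ x ∈ S, x * γ ∈ S) : orderOf γ ∣ Nat.card S := by
  rw [← Nat.card_zpowers]
  refine trn_card_dvd _ S fun x hx g hg => ?_
  obtain ⟨k, rfl⟩ := mem_powers_iff_mem_zpowers.2 hg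
  have key : ∀ k : ℕ, x * γ ^ k ∈ S := by
    intro k
    induction k with
    | zero => simpa using hx
    | succ k ih =>
      rw [pow_succ, ← mul_assoc]
      exact hS _ ih
  exact key k

section

variable {n : ℕ} {F : Type} [Field F]

/-- the nonzero multiples of the vectors of the orbit -/
def trn_Om (H : Subgroup (SL n F)) (v : Fin n → F) : Set (Fin n → F) :=
  {w | ∃ h ∈ H, ∃ c : F, c ≠ 0 ∧ h.1.mulVec v = c • w}

theorem trn_smul {H : Subgroup (SL n F)} {v w : Fin n → F} (hw : w ∈ trn_Om H v) {a : F}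
    (ha : a ≠ 0) : a • w ∈ trn_Om H v := by
  obtain ⟨h, hh, c, hc, e⟩ := hw
  refine ⟨h, hh, c * a⁻¹, mul_ne_zero hc (inv_ne_zero ha), ?_⟩
  rw [e, smul_smul, mul_assoc, inv_mul_cancel₀ ha, mul_one]

theorem trn_act {H : Subgroup (SL n F)} {v w : Fin n → F} (hw : w ∈ trn_Om H v) {k : SL n F}
    (hk : k ∈ H) : k.1.mulVec w ∈ trn_Om H v := by
  obtain ⟨h, hh, c, hc, e⟩ := hw
  refine ⟨k * h, H.mul_mem hk hh, c, hc, ?_⟩
  show (k.1 * h.1).mulVec v = _
  rw [← Matrix.mulVec_mulVec, e, Matrix.mulVec_smul]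

theorem trn_ne {H : Subgroup (SL n F)} {v w : Fin n → F} (hv : v ≠ 0) (hw : w ∈ trn_Om H v) :
    w ≠ 0 := by
  rintro rfl
  obtain ⟨h, hh, c, hc, e⟩ := hw
  rw [smul_zero] at e
  have h1 : (h⁻¹).1.mulVec (h.1.mulVec v) = v := by
    rw [Matrix.mulVec_mulVec]
    have h2 : (h⁻¹).1 * h.1 = (h⁻¹ * h).1 := rfl
    rw [h2, inv_mul_cancel]
    exact Matrix.one_mulVec v
  rw [e, Matrix.mulVec_zero] at h1
  exact hv h1.symm

theorem trn_self (H : Subgroup (SL n F)) (v : Fin n → F) : v ∈ trn_Om H v :=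
  ⟨1, H.one_mem, 1, one_ne_zero, by
    rw [one_smul]
    exact Matrix.one_mulVec v⟩

/-- transport to the units of a field -/
theorem trn_card_units {K V : Type*} [Field K] (e : V ≃ K) (Ω : Set V)
    (h0 : e.symm 0 ∉ Ω) : Nat.card Ω = Nat.card {u : Kˣ | e.symm (u : K) ∈ Ω} := by
  have hne : ∀ w : Ω, e (w : V) ≠ 0 := fun w h => h0 (by rw [← h, e.symm_apply_apply]; exact w.2)
  refine Nat.card_congr ⟨fun w => ⟨Units.mk0 (e (w : V)) (hne w), ?_⟩,
    fun u => ⟨e.symm ((u : Kˣ) : K), u.2⟩, fun w => ?_, fun u => ?_⟩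
  · show e.symm (e (w : V)) ∈ Ω
    rw [e.symm_apply_apply]
    exact w.2
  · ext1
    show e.symm (e (w : V)) = w
    exact e.symm_apply_apply _
  · ext1
    apply Units.ext
    show e (e.symm ((u : Kˣ) : K)) = ((u : Kˣ) : K)
    exact e.apply_symm_apply _

theorem trn_mul_le_one {r c : ℕ} (hr : 1 ≤ r) (h : r * c ≤ r) : c ≤ 1 :=
  Nat.le_of_mul_le_mul_left (by rw [mul_one]; exact h) hr

theorem trn_part1 [Finite F] (hSTS : S_STS) (hn : 3 ≤ n) (H : Subgroup (SL n F)) (y : SL n F)
    (hy : y ∈ H) (hTS : TS y) (v : Fin n → F) (hv : v ≠ 0) :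
    Nat.lcm (Nat.card F - 1) (nu (Nat.card F) n) ∣ Nat.card (trn_Om H v) := by
  obtain ⟨K, _, _, _, θ, e, -, hθ, he⟩ := hSTS n F y (by omega) hTS
  have hθ0 : θ ≠ 0 := by
    rintro rfl
    have h1 : 0 < nu (Nat.card F) n := by
      unfold nu
      refine Finset.sum_pos (fun i _ => pow_pos Nat.card_pos _) ⟨0, ?_⟩
      rw [Finset.mem_range]
      omega
    rw [← hθ, orderOf_pos_iff] at h1
    obtain ⟨k, hk, h2⟩ := h1.exists_pow_eq_one
    rw [zero_pow hk.ne'] at h2
    exact zero_ne_one h2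
  have h0 : e.toEquiv.symm 0 ∉ trn_Om H v := by
    intro h
    have h1 : e.toEquiv.symm 0 = 0 := e.symm.map_zero
    rw [h1] at h
    exact trn_ne hv h rfl
  rw [trn_card_units e.toEquiv (trn_Om H v) h0]
  refine Nat.lcm_dvd ?_ ?_
  · have hinj : Function.Injective (Units.map (algebraMap F K : F →* K)) :=
      Units.map_injective (algebraMap F K).injective
    have h1 : Nat.card (Units.map (algebraMap F K : F →* K)).range = Nat.card F - 1 := by
      rw [← Nat.card_units F]
      exact (Nat.card_congr (MonoidHom.ofInjective hinj).toEquiv).symm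
    rw [← h1]
    refine trn_card_dvd _ _ fun x hx γ hγ => ?_
    obtain ⟨a, rfl⟩ := hγ
    show e.symm ((x : K) * algebraMap F K a) ∈ trn_Om H v
    rw [mul_comm, ← Algebra.smul_def, map_smul]
    exact trn_smul hx a.ne_zero
  · have h1 : orderOf (Units.mk0 θ hθ0) = nu (Nat.card F) n := by
      rw [← hθ, ← orderOf_units]
      rfl
    rw [← h1]
    refine trn_order_dvd _ _ fun x hx => ?_
    show e.symm ((x : K) * θ) ∈ trn_Om H v
    have h2 := trn_act hx hy
    have h3 : e.symm ((x : K) * θ) = y.1.mulVec (e.symm (x : K)) := by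
      rw [LinearEquiv.symm_apply_eq, he, LinearEquiv.apply_symm_apply, mul_comm]
    rw [h3]
    exact h2

theorem trn_part2 [Finite F] (hSTZ : S_STZ) (hn : 3 ≤ n) (H : Subgroup (SL n F)) (z : SL n F)
    (hz : z ∈ H) (hTZ : TZ z) (v : Fin n → F) (hv : v ≠ 0) (r M : ℕ) (hr : r = Nat.card F - 1)
    (hM : M = nu (Nat.card F) (n - 1)) :
    ∃ c e b : ℕ, c ≤ 1 ∧ e ≤ 1 ∧ Nat.card (trn_Om H v) =
      r * c + r * M * e + r * (r * M / Nat.gcd (r * M) (M + 1)) * b := by
  obtain ⟨K, _, _, _, θ, e, hfr, hθ, he⟩ := hSTZ n F z hn hTZ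
  have hq : 2 ≤ Nat.card F := Finite.one_lt_card
  have hr1 : 1 ≤ r := by omega
  have hrM : r * M = Nat.card F ^ (n - 1) - 1 := by
    have := trn_nu (Nat.card F) (n - 1) (by omega)
    rw [hr, hM]
    omega
  have hKc : Nat.card K = Nat.card F ^ (n - 1) := by
    rw [Module.natCard_eq_pow_finrank (K := F), hfr]
  have hrM1 : 1 ≤ r * M := by
    rw [hrM]
    have h1 : 2 ^ (n - 1) ≤ Nat.card F ^ (n - 1) := Nat.pow_le_pow_left hq _
    have h2 : 2 ^ 1 ≤ 2 ^ (n - 1) := Nat.pow_le_pow_right (by norm_num) (by omega)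
    omega
  have hθ0 : θ ≠ 0 := by
    rintro rfl
    have h1 : 0 < orderOf (0 : K) := by rw [hθ, ← hrM]; omega
    rw [orderOf_pos_iff] at h1
    obtain ⟨k, hk, h2⟩ := h1.exists_pow_eq_one
    rw [zero_pow hk.ne'] at h2
    exact zero_ne_one h2
  set Ω := trn_Om H v with hΩ
  have hnorm : algebraMap F K (Algebra.norm F θ) = θ ^ M := by
    rw [FiniteField.algebraMap_norm_eq_pow, hKc, ← hrM, ← hr, Nat.mul_div_cancel_left M hr1]
  have hn0 : Algebra.norm F θ ≠ 0 := by
    intro h
    rw [h, map_zero] at hnorm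
    exact pow_ne_zero M hθ0 hnorm.symm
  let A : Set Fˣ := {a | e.symm ((a : F), 0) ∈ Ω}
  let B : Set Kˣ := {u | e.symm (0, (u : K)) ∈ Ω}
  let C : Set Kˣ := {u | e.symm (1, (u : K)) ∈ Ω}
  -- A
  have hA : ∃ c, c ≤ 1 ∧ Nat.card A = r * c := by
    have h1 : Nat.card Fˣ = r := by rw [Nat.card_units, hr]
    have h2 : r ∣ Nat.card A := by
      rw [← h1, ← Subgroup.card_top]
      refine trn_card_dvd _ _ fun x hx γ _ => ?_
      show e.symm ((x : F) * (γ : F), 0) ∈ Ω
      have h3 : (((x : F) * (γ : F), 0) : F × K) = (γ : F) • ((x : F), 0) := by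
        rw [Prod.smul_mk, smul_zero, smul_eq_mul, mul_comm]
      rw [h3, map_smul]
      exact trn_smul hx γ.ne_zero
    obtain ⟨c, hc⟩ := h2
    refine ⟨c, trn_mul_le_one hr1 ?_, hc⟩
    rw [← hc]
    exact (Nat.card_le_card_of_injective _ Subtype.val_injective).trans h1.le
  -- B
  have hB : ∃ c, c ≤ 1 ∧ Nat.card B = r * M * c := by
    have h1 : Nat.card Kˣ = r * M := by rw [Nat.card_units, hKc, hrM]
    have h2 : r * M ∣ Nat.card B := by
      have h3 : orderOf (Units.mk0 θ hθ0) = r * M := by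
        rw [hrM, ← hθ, ← orderOf_units]
        rfl
      rw [← h3]
      refine trn_order_dvd _ _ fun x hx => ?_
      show e.symm (0, (x : K) * θ) ∈ Ω
      have h4 := trn_act hx hz
      have h5 : e.symm (0, (x : K) * θ) = z.1.mulVec (e.symm (0, (x : K))) := by
        rw [LinearEquiv.symm_apply_eq, he, LinearEquiv.apply_symm_apply, mul_zero, mul_comm]
      rw [h5]
      exact h4
    obtain ⟨c, hc⟩ := h2
    refine ⟨c, trn_mul_le_one hrM1 ?_, hc⟩
    rw [← hc]
    exact (Nat.card_le_card_of_injective _ Subtype.val_injective).trans h1.le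
  -- C
  have hC : ∃ b, Nat.card C = r * M / Nat.gcd (r * M) (M + 1) * b := by
    have h3 : orderOf (Units.mk0 θ hθ0) = r * M := by
      rw [hrM, ← hθ, ← orderOf_units]
      rfl
    have h4 : orderOf (Units.mk0 θ hθ0 ^ (M + 1)) = r * M / Nat.gcd (r * M) (M + 1) := by
      rw [orderOf_pow, h3]
    rw [← h4]
    refine trn_order_dvd _ _ fun x hx => ?_
    show e.symm (1, (x : K) * θ ^ (M + 1)) ∈ Ω
    have h5 := trn_smul (trn_act hx hz) hn0
    have h6 : e.symm (1, (x : K) * θ ^ (M + 1)) =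
        Algebra.norm F θ • z.1.mulVec (e.symm (1, (x : K))) := by
      rw [LinearEquiv.symm_apply_eq, map_smul, he, LinearEquiv.apply_symm_apply, Prod.smul_mk,
        mul_one, smul_eq_mul, mul_inv_cancel₀ hn0, Algebra.smul_def, hnorm]
      congr 1
      ring
    rw [h6]
    exact h5
  obtain ⟨c, hc1, hc⟩ := hA
  obtain ⟨e', he1, he'⟩ := hB
  obtain ⟨b, hb⟩ := hC
  refine ⟨c, e', b, hc1, he1, ?_⟩
  -- the partition
  let fA : Fˣ → F × K := fun a => ((a : F), 0)
  let fB : Kˣ → F × K := fun u => (0, (u : K))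
  let fC : Fˣ × Kˣ → F × K := fun p => ((p.1 : F), (p.1 : F) • (p.2 : K))
  have iA : Function.Injective fA := fun a a' h => Units.ext (Prod.mk.inj h).1
  have iB : Function.Injective fB := fun a a' h => Units.ext (Prod.mk.inj h).2
  have iC : Function.Injective fC := by
    rintro ⟨a, u⟩ ⟨a', u'⟩ h
    obtain ⟨h1, h2⟩ := Prod.mk.inj h
    have h3 : a = a' := Units.ext h1
    subst h3
    have h4 : (u : K) = u' := smul_right_injective K a.ne_zero h2
    rw [Units.ext h4]
  have hdec : e '' Ω = (fA '' A ∪ fB '' B) ∪ fC '' (Set.univ ×ˢ C) := by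
    ext ⟨x, u⟩
    constructor
    · rintro ⟨w, hw, hwe⟩
      have hw' : e.symm (x, u) ∈ Ω := by
        rw [← hwe, LinearEquiv.symm_apply_apply]
        exact hw
      by_cases hx : x = 0
      · have hu : u ≠ 0 := by
          rintro rfl
          rw [hx] at hw'
          have h1 : e.symm ((0 : F), (0 : K)) = 0 := e.symm.map_zero
          rw [h1] at hw'
          exact trn_ne hv hw' rfl
        subst hx
        exact Or.inl (Or.inr ⟨Units.mk0 u hu, hw', rfl⟩)
      · by_cases hu : u = 0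
        · subst hu
          exact Or.inl (Or.inl ⟨Units.mk0 x hx, hw', rfl⟩)
        · refine Or.inr ⟨(Units.mk0 x hx, Units.mk0 (x⁻¹ • u) (smul_ne_zero (inv_ne_zero hx) hu)),
            ⟨Set.mem_univ _, ?_⟩, ?_⟩
          · show e.symm (1, x⁻¹ • u) ∈ Ω
            have h1 : ((1 : F), x⁻¹ • u) = x⁻¹ • (x, u) := by
              rw [Prod.smul_mk, smul_eq_mul, inv_mul_cancel₀ hx]
            rw [h1, map_smul]
            exact trn_smul hw' (inv_ne_zero hx)
          · show (x, x • x⁻¹ • u) = (x, u)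
            rw [smul_smul, mul_inv_cancel₀ hx, one_smul]
    · rintro ((⟨a, ha, h⟩ | ⟨a, ha, h⟩) | ⟨⟨a, u'⟩, ⟨-, ha⟩, h⟩)
      · exact ⟨_, ha, by rw [LinearEquiv.apply_symm_apply]; exact h⟩
      · exact ⟨_, ha, by rw [LinearEquiv.apply_symm_apply]; exact h⟩
      · refine ⟨_, trn_smul ha a.ne_zero, ?_⟩
        rw [map_smul, LinearEquiv.apply_symm_apply, ← h, Prod.smul_mk, smul_eq_mul, mul_one]
  have hcard : Nat.card Ω = (e '' Ω).ncard := by
    rw [Set.ncard_image_of_injective _ e.injective]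
    rfl
  haveI : Finite (F × K) := inferInstance
  rw [hcard, hdec, Set.ncard_union_eq _ (Set.toFinite _) (Set.toFinite _),
    Set.ncard_union_eq _ (Set.toFinite _) (Set.toFinite _),
    Set.ncard_image_of_injective _ iA, Set.ncard_image_of_injective _ iB,
    Set.ncard_image_of_injective _ iC, Set.ncard_prod, Set.ncard_univ, Nat.card_units, ← hr]
  · have hc' : A.ncard = r * c := hc
    have he'' : B.ncard = r * M * e' := he'
    have hb' : C.ncard = r * M / Nat.gcd (r * M) (M + 1) * b := hb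
    rw [hc', he'', hb', ← mul_assoc r]
  · rw [Set.disjoint_left]
    rintro _ ⟨a, -, rfl⟩ ⟨u, -, h⟩
    exact a.ne_zero (Prod.mk.inj h).1.symm
  · rw [Set.disjoint_left]
    rintro _ (⟨a, -, rfl⟩ | ⟨u, -, rfl⟩) ⟨⟨a', u'⟩, -, h⟩
    · exact smul_ne_zero a'.ne_zero u'.ne_zero (Prod.mk.inj h).2
    · exact a'.ne_zero (Prod.mk.inj h).1

end

theorem t_TRN : M_TRN := by
  intro hSTS hSTZ n F _ _ H y z hn hy hTS hz hTZ v w hv hw
  have hq : 2 ≤ Nat.card F := Finite.one_lt_card
  set r := Nat.card F - 1 with hr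
  set M := nu (Nat.card F) (n - 1) with hM
  have hnu : nu (Nat.card F) n = M + r * M + 1 := by
    have h1 : nu (Nat.card F) n = nu (Nat.card F) (n - 1) + Nat.card F ^ (n - 1) := by
      conv_lhs => rw [show n = (n - 1) + 1 by omega]
      exact Finset.sum_range_succ _ _
    have h2 := trn_nu (Nat.card F) (n - 1) (by omega)
    rw [h1, ← h2]
    ring
  have hrM : r < M := by
    have h1 : nu (Nat.card F) 2 ≤ nu (Nat.card F) (n - 1) := by
      unfold nu
      exact Finset.sum_le_sum_of_subset (Finset.range_mono (by omega))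
    have h2 : nu (Nat.card F) 2 = 1 + Nat.card F := by
      simp [nu, Finset.sum_range_succ]
    omega
  have hcard : {w : Fin n → F | w ≠ 0}.ncard = r * (M + r * M + 1) := by
    have h1 : {w : Fin n → F | w ≠ 0} = {0}ᶜ := rfl
    rw [h1, Set.ncard_compl, Set.ncard_singleton, ← hnu]
    have h2 := trn_nu (Nat.card F) n (by omega)
    have h3 : Nat.card (Fin n → F) = Nat.card F ^ n := by
      rw [Nat.card_pi]; simp
    have h4 : r * nu (Nat.card F) n + 1 = Nat.card F ^ n := h2
    rw [h3, ← h4, Nat.add_sub_cancel]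
  have hsub : trn_Om H v ⊆ {w : Fin n → F | w ≠ 0} := fun w hw => trn_ne hv hw
  have hle : Nat.card (trn_Om H v) ≤ r * (M + r * M + 1) := by
    rw [← hcard]
    exact Set.ncard_le_ncard hsub (Set.toFinite _)
  have hpos : 1 ≤ Nat.card (trn_Om H v) := by
    haveI : Nonempty (trn_Om H v) := ⟨⟨v, trn_self H v⟩⟩
    exact Nat.card_pos
  obtain ⟨a, ha⟩ := trn_part1 hSTS hn H y hy hTS v hv
  rw [hnu] at ha
  obtain ⟨c, e, b, hc, he, hT2⟩ := trn_part2 hSTZ hn H z hz hTZ v hv r M hr hM
  have hT := trn_arith r M _ a c e b (by omega) hrM ha hT2 hc he hpos hle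
  have heq : trn_Om H v = {w : Fin n → F | w ≠ 0} := by
    refine Set.eq_of_subset_of_ncard_le hsub ?_ (Set.toFinite _)
    rw [hcard, ← hT]
    exact le_rfl
  have hw' : w ∈ trn_Om H v := by rw [heq]; exact hw
  exact hw'

end

end SRJ
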