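import Mathlib
import Pool.Agent.SRJ.StA

/-!
# TVO: surjectivity for the oriented groups of genus zero
-/

set_option autoImplicit false

namespace SRJ

open RSF FL0

noncomputable section

/-! ## Splitting tuples -/

/-- the first part of a tuple -/
def tvo_l {G : Type} (L L' : List ℕ) (t : Fin (L ++ L').length → G) : Fin L.length → G :=
  fun i => t (Fin.cast List.length_append.symm (Fin.castAdd L'.length i))

/-- the second part of a tuple -/
def tvo_r {G : Type} (L L' : List ℕ) (t : Fin (L ++ L').length → G) : Fin L'.length → G :=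
  fun i => t (Fin.cast List.length_append.symm (Fin.natAdd L.length i))

theorem tvo_ofFn {G : Type} (L L' : List ℕ) (t : Fin (L ++ L').length → G) :
    List.ofFn t = List.ofFn (tvo_l L L' t) ++ List.ofFn (tvo_r L L' t) := by
  rw [List.ofFn_congr (List.length_append (as := L) (bs := L')) t, List.ofFn_add]
  rfl

/-- splitting of tuples as a bijection -/
def tvo_e (G : Type) (L L' : List ℕ) :
    (Fin (L ++ L').length → G) ≃ (Fin L.length → G) × (Fin L'.length → G) where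
  toFun t := (tvo_l L L' t, tvo_r L L' t)
  invFun p := fun i => Fin.append p.1 p.2 (Fin.cast List.length_append i)
  left_inv t := by
    funext i
    obtain ⟨k, rfl⟩ : ∃ k : Fin (L.length + L'.length),
        Fin.cast List.length_append.symm k = i := ⟨Fin.cast List.length_append i, by simp⟩
    induction k using Fin.addCases with
    | left k => simp [tvo_l]
    | right k => simp [tvo_r]
  right_inv p := by
    refine Prod.ext ?_ ?_
    · funext i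
      simp [tvo_l]
    · funext i
      simp [tvo_r]

theorem tvo_pow {G : Type} [Group G] (L L' : List ℕ) (t : Fin (L ++ L').length → G) :
    (∀ j, t j ^ (L ++ L').get j = 1) ↔
      (∀ j, tvo_l L L' t j ^ L.get j = 1) ∧ ∀ j, tvo_r L L' t j ^ L'.get j = 1 := by
  constructor
  · intro h
    refine ⟨fun j => ?_, fun j => ?_⟩
    · have h1 := h (Fin.cast List.length_append.symm (Fin.castAdd L'.length j))
      simpa [tvo_l, List.getElem_append_left] using h1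
    · have h1 := h (Fin.cast List.length_append.symm (Fin.natAdd L.length j))
      simpa [tvo_r, List.getElem_append_right] using h1
  · rintro ⟨h1, h2⟩ i
    obtain ⟨k, rfl⟩ : ∃ k : Fin (L.length + L'.length),
        Fin.cast List.length_append.symm k = i := ⟨Fin.cast List.length_append i, by simp⟩
    induction k using Fin.addCases with
    | left k =>
      have h3 := h1 k
      simpa [tvo_l, List.getElem_append_left] using h3
    | right k =>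
      have h3 := h2 k
      simpa [tvo_r, List.getElem_append_right] using h3

open Classical in
theorem tvo_sum {G : Type} [Group G] [Fintype G] (L : List ℕ) (H : G → ℝ) :
    ∑ g, (fL G L g : ℝ) * H g =
      ∑ t : Fin L.length → G, if ∀ j, t j ^ L.get j = 1 then H (List.ofFn t).prod else 0 := by
  have h1 : ∀ g, (fL G L g : ℝ) = ∑ t : Fin L.length → G,
      if (∀ j, t j ^ L.get j = 1) ∧ (List.ofFn t).prod = g then (1 : ℝ) else 0 := by
    intro g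
    unfold fL
    rw [Nat.card_eq_fintype_card, Fintype.card_subtype, Finset.card_filter]
    push_cast
    rfl
  simp only [h1, Finset.sum_mul]
  rw [Finset.sum_comm]
  refine Finset.sum_congr rfl fun t _ => ?_
  by_cases h : ∀ j, t j ^ L.get j = 1
  · rw [if_pos h]
    have h2 : ∀ g, (if (∀ j, t j ^ L.get j = 1) ∧ (List.ofFn t).prod = g then (1 : ℝ) else 0) *
        H g = if (List.ofFn t).prod = g then H g else 0 := by
      intro g
      by_cases hg : (List.ofFn t).prod = g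
      · rw [if_pos ⟨h, hg⟩, if_pos hg, one_mul]
      · rw [if_neg fun h' => hg h'.2, if_neg hg, zero_mul]
    rw [Finset.sum_congr rfl fun g _ => h2 g, Finset.sum_ite_eq, if_pos (Finset.mem_univ _)]
  · rw [if_neg h]
    refine Finset.sum_eq_zero fun g _ => ?_
    rw [if_neg fun h' => h h'.1, zero_mul]

open Classical in
/-- the number of the homomorphisms with `(u, v)` in `B` -/
theorem tvo_count (hH : FL0.S_HO0) (G : Type) [Group G] [Fintype G] (m₁ m₂ m₃ : List ℕ)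
    (B : G → G → Prop) :
    (Nat.card {ρ : OGroup 0 (m₁ ++ m₂ ++ m₃) →* G //
      B (List.ofFn (tvo_l m₁ m₂ (tvo_l (m₁ ++ m₂) m₃ fun j => ρ (ox 0 _ j)))).prod
        (List.ofFn (tvo_r m₁ m₂ (tvo_l (m₁ ++ m₂) m₃ fun j => ρ (ox 0 _ j)))).prod} : ℝ) =
      ∑ u, ∑ v, if B u v then (fL G m₁ u : ℝ) * fL G m₂ v * fL G m₃ (u * v)⁻¹ else 0 := by
  have h1 := hH G (m₁ ++ m₂ ++ m₃) (fun t =>
    B (List.ofFn (tvo_l m₁ m₂ (tvo_l (m₁ ++ m₂) m₃ t))).prod
      (List.ofFn (tvo_r m₁ m₂ (tvo_l (m₁ ++ m₂) m₃ t))).prod)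
  rw [h1, Nat.card_eq_fintype_card, Fintype.card_subtype, Finset.card_filter]
  push_cast
  have h2 : ∀ u, ∑ v, (if B u v then (fL G m₁ u : ℝ) * fL G m₂ v * fL G m₃ (u * v)⁻¹ else 0) =
      (fL G m₁ u : ℝ) * ∑ v, (fL G m₂ v : ℝ) * ∑ w, (fL G m₃ w : ℝ) *
        (if B u v ∧ w = (u * v)⁻¹ then 1 else 0) := by
    intro u
    rw [Finset.mul_sum]
    refine Finset.sum_congr rfl fun v _ => ?_
    by_cases hB : B u v
    · simp only [hB, if_true, true_and, mul_ite, mul_one, mul_zero, Finset.sum_ite_eq',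
        Finset.mem_univ]
      ring
    · simp [hB]
  rw [Finset.sum_congr rfl fun u _ => h2 u, tvo_sum]
  simp only [tvo_sum]
  have h3 : ∀ t : Fin (m₁ ++ m₂ ++ m₃).length → G,
      (if (∀ j, t j ^ (m₁ ++ m₂ ++ m₃).get j = 1) ∧
          B (List.ofFn (tvo_l m₁ m₂ (tvo_l (m₁ ++ m₂) m₃ t))).prod
            (List.ofFn (tvo_r m₁ m₂ (tvo_l (m₁ ++ m₂) m₃ t))).prod ∧ (List.ofFn t).prod = 1
        then (1 : ℝ) else 0) =
      (fun p : (Fin (m₁ ++ m₂).length → G) × (Fin m₃.length → G) =>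
        (fun r : (Fin m₁.length → G) × (Fin m₂.length → G) =>
          if ∀ j, r.1 j ^ m₁.get j = 1 then
            (if ∀ j, r.2 j ^ m₂.get j = 1 then
              (if ∀ j, p.2 j ^ m₃.get j = 1 then
                (if B (List.ofFn r.1).prod (List.ofFn r.2).prod ∧
                    (List.ofFn p.2).prod = ((List.ofFn r.1).prod * (List.ofFn r.2).prod)⁻¹
                  then (1 : ℝ) else 0) else 0) else 0) else 0) (tvo_e G m₁ m₂ p.1))
        (tvo_e G (m₁ ++ m₂) m₃ t) := by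
    intro t
    have e1 : (tvo_e G (m₁ ++ m₂) m₃ t) = (tvo_l (m₁ ++ m₂) m₃ t, tvo_r (m₁ ++ m₂) m₃ t) := rfl
    rw [e1]
    have e2 : ∀ t', (tvo_e G m₁ m₂ t') = (tvo_l m₁ m₂ t', tvo_r m₁ m₂ t') := fun _ => rfl
    simp only [e2]
    rw [← ite_and, ← ite_and, ← ite_and]
    refine if_congr ?_ rfl rfl
    rw [tvo_pow (m₁ ++ m₂) m₃ t, tvo_pow m₁ m₂ (tvo_l (m₁ ++ m₂) m₃ t),
      tvo_ofFn (m₁ ++ m₂) m₃ t, tvo_ofFn m₁ m₂ (tvo_l (m₁ ++ m₂) m₃ t), List.prod_append,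
      List.prod_append, eq_inv_iff_mul_eq_one (a := (List.ofFn (tvo_r (m₁ ++ m₂) m₃ t)).prod),
      mul_eq_one_comm]
  rw [Finset.sum_congr rfl fun t _ => h3 t,
    (tvo_e G (m₁ ++ m₂) m₃).sum_comp (fun p : (Fin (m₁ ++ m₂).length → G) × (Fin m₃.length → G) =>
        (fun r : (Fin m₁.length → G) × (Fin m₂.length → G) =>
          if ∀ j, r.1 j ^ m₁.get j = 1 then
            (if ∀ j, r.2 j ^ m₂.get j = 1 then
              (if ∀ j, p.2 j ^ m₃.get j = 1 then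
                (if B (List.ofFn r.1).prod (List.ofFn r.2).prod ∧
                    (List.ofFn p.2).prod = ((List.ofFn r.1).prod * (List.ofFn r.2).prod)⁻¹
                  then (1 : ℝ) else 0) else 0) else 0) else 0) (tvo_e G m₁ m₂ p.1)),
    Fintype.sum_prod_type]
  dsimp only
  rw [(tvo_e G m₁ m₂).sum_comp (fun r : (Fin m₁.length → G) × (Fin m₂.length → G) =>
      ∑ y : Fin m₃.length → G,
          if ∀ j, r.1 j ^ m₁.get j = 1 then
            (if ∀ j, r.2 j ^ m₂.get j = 1 then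
              (if ∀ j, y j ^ m₃.get j = 1 then
                (if B (List.ofFn r.1).prod (List.ofFn r.2).prod ∧
                    (List.ofFn y).prod = ((List.ofFn r.1).prod * (List.ofFn r.2).prod)⁻¹
                  then (1 : ℝ) else 0) else 0) else 0) else 0), Fintype.sum_prod_type]
  refine Finset.sum_congr rfl fun x _ => ?_
  by_cases hx : ∀ j, x j ^ m₁.get j = 1
  · rw [if_pos hx]
    refine Finset.sum_congr rfl fun y _ => ?_
    by_cases hy : ∀ j, y j ^ m₂.get j = 1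
    · rw [if_pos hy]
      refine Finset.sum_congr rfl fun z _ => ?_
      rw [if_pos hx, if_pos hy]
    · rw [if_neg hy]
      refine Finset.sum_eq_zero fun z _ => ?_
      rw [if_pos hx, if_neg hy]
  · rw [if_neg hx]
    refine Finset.sum_eq_zero fun y _ => Finset.sum_eq_zero fun z _ => ?_
    rw [if_neg hx]

/-! ## The analysis -/

theorem tvo_cs {G : Type} [Fintype G] (g : G → ℝ) (δ : ℝ) (h0 : 0 ≤ δ)
    (h : ∑ u, g u ^ 2 ≤ Fintype.card G * δ ^ 2) : ∑ u, |g u| ≤ Fintype.card G * δ := by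
  have h1 : (∑ u, |g u|) ^ 2 ≤ (Fintype.card G * δ) ^ 2 := by
    calc (∑ u, |g u|) ^ 2 ≤ (Finset.univ : Finset G).card * ∑ u, |g u| ^ 2 :=
          sq_sum_le_card_mul_sum_sq
      _ = Fintype.card G * ∑ u, g u ^ 2 := by
          rw [Finset.card_univ]
          simp only [sq_abs]
      _ ≤ Fintype.card G * (Fintype.card G * δ ^ 2) :=
          mul_le_mul_of_nonneg_left h (Nat.cast_nonneg _)
      _ = (Fintype.card G * δ) ^ 2 := by ring
  exact le_of_sq_le_sq h1 (by positivity)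
where
  le_of_sq_le_sq {a b : ℝ} (h : a ^ 2 ≤ b ^ 2) (hb : 0 ≤ b) : a ≤ b :=
    le_trans (le_abs_self a) (abs_le_of_sq_le_sq h hb)

theorem tvo_inv_left {G : Type} [Group G] [Fintype G] (h : G → ℝ) (u : G) :
    ∑ v, h (u * v)⁻¹ = ∑ w, h w :=
  ((Equiv.mulLeft u).trans (Equiv.inv G)).sum_comp h

theorem tvo_inv_right {G : Type} [Group G] [Fintype G] (h : G → ℝ) (v : G) :
    ∑ u, h (u * v)⁻¹ = ∑ w, h w :=
  ((Equiv.mulRight v).trans (Equiv.inv G)).sum_comp h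

theorem tvo_dev {G : Type} [Group G] [Fintype G] (g₁ g₂ g₃ : G → ℝ) (δ : ℝ) (h0 : 0 ≤ δ)
    (h1 : ∑ u, g₁ u ^ 2 ≤ Fintype.card G * δ ^ 2) (h2 : ∑ u, g₂ u ^ 2 ≤ Fintype.card G * δ ^ 2)
    (h3 : ∑ u, g₃ u ^ 2 ≤ Fintype.card G * δ ^ 2) :
    ∑ u, ∑ v, |(1 + g₁ u) * (1 + g₂ v) * (1 + g₃ (u * v)⁻¹) - 1| ≤
      (Fintype.card G : ℝ) ^ 2 * ((1 + δ) ^ 3 - 1) := by
  have a1 := tvo_cs g₁ δ h0 h1
  have a2 := tvo_cs g₂ δ h0 h2
  have a3 := tvo_cs g₃ δ h0 h3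
  obtain ⟨n, hn⟩ : ∃ n : ℝ, n = Fintype.card G := ⟨_, rfl⟩
  have hn0 : 0 ≤ n := by
    rw [hn]
    exact Nat.cast_nonneg _
  rw [← hn] at h1 h2 h3 a1 a2 a3 ⊢
  have p1 : 0 ≤ ∑ u, |g₁ u| := Finset.sum_nonneg fun _ _ => abs_nonneg _
  have p2 : 0 ≤ ∑ u, |g₂ u| := Finset.sum_nonneg fun _ _ => abs_nonneg _
  have p3 : 0 ≤ ∑ u, |g₃ u| := Finset.sum_nonneg fun _ _ => abs_nonneg _
  have hcard : ∑ _u : G, (1 : ℝ) = n := by simp [hn]
  -- the seven sums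
  have s1 : ∑ u, ∑ _v : G, |g₁ u| ≤ n ^ 2 * δ := by
    have : ∑ u, ∑ _v : G, |g₁ u| = n * ∑ u, |g₁ u| := by
      simp only [Finset.sum_const, Finset.card_univ, nsmul_eq_mul, ← hn, Finset.mul_sum]
    rw [this]
    nlinarith
  have s2 : ∑ _u : G, ∑ v, |g₂ v| ≤ n ^ 2 * δ := by
    have : ∑ _u : G, ∑ v, |g₂ v| = n * ∑ u, |g₂ u| := by
      simp only [Finset.sum_const, Finset.card_univ, nsmul_eq_mul, ← hn]
    rw [this]
    nlinarith
  have s3 : ∑ u, ∑ v, |g₃ (u * v)⁻¹| ≤ n ^ 2 * δ := by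
    have : ∑ u, ∑ v, |g₃ (u * v)⁻¹| = n * ∑ u, |g₃ u| := by
      rw [Finset.sum_congr rfl fun u _ => tvo_inv_left (fun w => |g₃ w|) u]
      simp only [Finset.sum_const, Finset.card_univ, nsmul_eq_mul, ← hn]
    rw [this]
    nlinarith
  have q1 : (∑ u, |g₁ u|) * ∑ u, |g₂ u| ≤ n ^ 2 * δ ^ 2 := by
    calc (∑ u, |g₁ u|) * ∑ u, |g₂ u| ≤ (n * δ) * (n * δ) :=
          mul_le_mul a1 a2 p2 (by positivity)
      _ = n ^ 2 * δ ^ 2 := by ring
  have q2 : (∑ u, |g₁ u|) * ∑ u, |g₃ u| ≤ n ^ 2 * δ ^ 2 := by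
    calc (∑ u, |g₁ u|) * ∑ u, |g₃ u| ≤ (n * δ) * (n * δ) :=
          mul_le_mul a1 a3 p3 (by positivity)
      _ = n ^ 2 * δ ^ 2 := by ring
  have q3 : (∑ u, |g₂ u|) * ∑ u, |g₃ u| ≤ n ^ 2 * δ ^ 2 := by
    calc (∑ u, |g₂ u|) * ∑ u, |g₃ u| ≤ (n * δ) * (n * δ) :=
          mul_le_mul a2 a3 p3 (by positivity)
      _ = n ^ 2 * δ ^ 2 := by ring
  have s4 : ∑ u, ∑ v, |g₁ u| * |g₂ v| ≤ n ^ 2 * δ ^ 2 := by
    rw [← Finset.sum_mul_sum]
    exact q1
  have s5 : ∑ u, ∑ v, |g₁ u| * |g₃ (u * v)⁻¹| ≤ n ^ 2 * δ ^ 2 := by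
    have : ∑ u, ∑ v, |g₁ u| * |g₃ (u * v)⁻¹| = (∑ u, |g₁ u|) * ∑ u, |g₃ u| := by
      rw [Finset.sum_mul]
      refine Finset.sum_congr rfl fun u _ => ?_
      rw [← Finset.mul_sum, tvo_inv_left (fun w => |g₃ w|) u]
    rw [this]
    exact q2
  have s6 : ∑ u, ∑ v, |g₂ v| * |g₃ (u * v)⁻¹| ≤ n ^ 2 * δ ^ 2 := by
    have : ∑ u, ∑ v, |g₂ v| * |g₃ (u * v)⁻¹| = (∑ u, |g₂ u|) * ∑ u, |g₃ u| := by
      rw [Finset.sum_comm, Finset.sum_mul]
      refine Finset.sum_congr rfl fun v _ => ?_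
      rw [← Finset.mul_sum, tvo_inv_right (fun w => |g₃ w|) v]
    rw [this]
    exact q3
  have s7 : ∑ u, ∑ v, |g₁ u| * |g₂ v| * |g₃ (u * v)⁻¹| ≤ n ^ 2 * δ ^ 3 := by
    have c1 : (∑ p : G × G, (|g₁ p.1| * |g₂ p.2|) * |g₃ (p.1 * p.2)⁻¹|) ^ 2 ≤
        (∑ p : G × G, (|g₁ p.1| * |g₂ p.2|) ^ 2) * ∑ p : G × G, |g₃ (p.1 * p.2)⁻¹| ^ 2 :=
      Finset.sum_mul_sq_le_sq_mul_sq _ _ _
    have c2 : ∑ p : G × G, (|g₁ p.1| * |g₂ p.2|) ^ 2 = (∑ u, g₁ u ^ 2) * ∑ u, g₂ u ^ 2 := by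
      rw [Fintype.sum_prod_type, Finset.sum_mul_sum]
      refine Finset.sum_congr rfl fun u _ => Finset.sum_congr rfl fun v _ => ?_
      rw [mul_pow, sq_abs, sq_abs]
    have c3 : ∑ p : G × G, |g₃ (p.1 * p.2)⁻¹| ^ 2 = n * ∑ u, g₃ u ^ 2 := by
      rw [Fintype.sum_prod_type]
      have : ∀ u, ∑ v, |g₃ (u * v)⁻¹| ^ 2 = ∑ w, g₃ w ^ 2 := by
        intro u
        have h := tvo_inv_left (fun w => |g₃ w| ^ 2) u
        simp only [sq_abs] at h ⊢
        exact h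
      rw [Finset.sum_congr rfl fun u _ => this u]
      simp only [Finset.sum_const, Finset.card_univ, nsmul_eq_mul, ← hn]
    rw [c2, c3] at c1
    have z1 : 0 ≤ ∑ u, g₁ u ^ 2 := Finset.sum_nonneg fun _ _ => sq_nonneg _
    have z2 : 0 ≤ ∑ u, g₂ u ^ 2 := Finset.sum_nonneg fun _ _ => sq_nonneg _
    have z3 : 0 ≤ ∑ u, g₃ u ^ 2 := Finset.sum_nonneg fun _ _ => sq_nonneg _
    have c4 : (∑ u, g₁ u ^ 2) * (∑ u, g₂ u ^ 2) * (n * ∑ u, g₃ u ^ 2) ≤
        (n * δ ^ 2) * (n * δ ^ 2) * (n * (n * δ ^ 2)) := by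
      refine mul_le_mul (mul_le_mul h1 h2 z2 (by positivity)) ?_ (by positivity) (by positivity)
      exact mul_le_mul_of_nonneg_left h3 hn0
    have c5 : ∑ u, ∑ v, |g₁ u| * |g₂ v| * |g₃ (u * v)⁻¹| =
        ∑ p : G × G, (|g₁ p.1| * |g₂ p.2|) * |g₃ (p.1 * p.2)⁻¹| := by
      rw [Fintype.sum_prod_type]
    rw [c5]
    have c6 : (∑ p : G × G, (|g₁ p.1| * |g₂ p.2|) * |g₃ (p.1 * p.2)⁻¹|) ^ 2 ≤
        (n ^ 2 * δ ^ 3) ^ 2 := by
      refine c1.trans (c4.trans (le_of_eq ?_))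
      ring
    exact tvo_cs.le_of_sq_le_sq c6 (by positivity)
  calc ∑ u, ∑ v, |(1 + g₁ u) * (1 + g₂ v) * (1 + g₃ (u * v)⁻¹) - 1|
      ≤ ∑ u, ∑ v, (|g₁ u| + |g₂ v| + |g₃ (u * v)⁻¹| + |g₁ u| * |g₂ v| +
          |g₁ u| * |g₃ (u * v)⁻¹| + |g₂ v| * |g₃ (u * v)⁻¹| +
          |g₁ u| * |g₂ v| * |g₃ (u * v)⁻¹|) := by
        refine Finset.sum_le_sum fun u _ => Finset.sum_le_sum fun v _ => ?_
        generalize g₁ u = a
        generalize g₂ v = b
        generalize g₃ (u * v)⁻¹ = c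
        have e : (1 + a) * (1 + b) * (1 + c) - 1 = a + b + c + a * b + a * c + b * c + a * b * c := by
          ring
        rw [e, ← abs_mul, ← abs_mul, ← abs_mul, ← abs_mul]
        refine (abs_add_le _ _).trans (add_le_add ((abs_add_le _ _).trans (add_le_add
          ((abs_add_le _ _).trans (add_le_add ((abs_add_le _ _).trans (add_le_add
          ((abs_add_le _ _).trans (add_le_add (abs_add_le _ _) le_rfl)) le_rfl)) le_rfl)) le_rfl))
          le_rfl)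
    _ = ∑ u, ∑ _v : G, |g₁ u| + ∑ _u : G, ∑ v, |g₂ v| + ∑ u, ∑ v, |g₃ (u * v)⁻¹| +
          ∑ u, ∑ v, |g₁ u| * |g₂ v| + ∑ u, ∑ v, |g₁ u| * |g₃ (u * v)⁻¹| +
          ∑ u, ∑ v, |g₂ v| * |g₃ (u * v)⁻¹| + ∑ u, ∑ v, |g₁ u| * |g₂ v| * |g₃ (u * v)⁻¹| := by
        simp only [Finset.sum_add_distrib]
    _ ≤ n ^ 2 * δ + n ^ 2 * δ + n ^ 2 * δ + n ^ 2 * δ ^ 2 + n ^ 2 * δ ^ 2 + n ^ 2 * δ ^ 2 +
          n ^ 2 * δ ^ 3 := by
        linarith
    _ = n ^ 2 * ((1 + δ) ^ 3 - 1) := by ring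

theorem tvo_JJ_pos (G : Type) [Group G] [Fintype G] (m : List ℕ) : 0 < JJ G m := by
  unfold JJ
  refine List.prod_pos fun a ha => ?_
  obtain ⟨k, _, rfl⟩ := List.mem_map.1 ha
  unfold jn
  have : Nonempty {x : G // x ^ k = 1} := ⟨⟨1, one_pow k⟩⟩
  exact Nat.card_pos

/-- the relative deviation -/
def tvo_g (G : Type) [Group G] [Fintype G] (m : List ℕ) (u : G) : ℝ :=
  (fL G m u : ℝ) * Fintype.card G / JJ G m - 1

theorem tvo_g_sq (G : Type) [Group G] [Fintype G] (m : List ℕ) (δ : ℝ) (h : V2 G m ≤ δ ^ 2) :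
    ∑ u, tvo_g G m u ^ 2 ≤ Fintype.card G * δ ^ 2 := by
  have hJ : (0 : ℝ) < JJ G m := Nat.cast_pos.2 (tvo_JJ_pos G m)
  have hn : (0 : ℝ) < Fintype.card G := Nat.cast_pos.2 Fintype.card_pos
  have e : ∑ u, tvo_g G m u ^ 2 = Fintype.card G * V2 G m := by
    unfold V2
    rw [finsum_eq_sum_of_fintype, Nat.card_eq_fintype_card, Finset.sum_mul, Finset.sum_div,
      Finset.mul_sum]
    refine Finset.sum_congr rfl fun u _ => ?_
    unfold tvo_g
    field_simp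
  rw [e]
  exact mul_le_mul_of_nonneg_left h hn.le

theorem tvo_f (G : Type) [Group G] [Fintype G] (m : List ℕ) (u : G) :
    (fL G m u : ℝ) = JJ G m / Fintype.card G * (1 + tvo_g G m u) := by
  have hJ : (0 : ℝ) < JJ G m := Nat.cast_pos.2 (tvo_JJ_pos G m)
  have hn : (0 : ℝ) < Fintype.card G := Nat.cast_pos.2 Fintype.card_pos
  unfold tvo_g
  field_simp
  ring

open Classical in
theorem tvo_B (G : Type) [Group G] [Fintype G] (m₁ m₂ m₃ : List ℕ) (δ : ℝ) (h0 : 0 ≤ δ)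
    (v1 : V2 G m₁ ≤ δ ^ 2) (v2 : V2 G m₂ ≤ δ ^ 2) (v3 : V2 G m₃ ≤ δ ^ 2) (B : G → G → Prop) :
    |(∑ u, ∑ v, if B u v then (fL G m₁ u : ℝ) * fL G m₂ v * fL G m₃ (u * v)⁻¹ else 0) -
      (JJ G m₁ / Fintype.card G * (JJ G m₂ / Fintype.card G) * (JJ G m₃ / Fintype.card G)) *
        ∑ u, ∑ v, (if B u v then 1 else 0)| ≤
      (JJ G m₁ / Fintype.card G * (JJ G m₂ / Fintype.card G) * (JJ G m₃ / Fintype.card G)) *
        ((Fintype.card G : ℝ) ^ 2 * ((1 + δ) ^ 3 - 1)) := by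
  have h := tvo_dev (tvo_g G m₁) (tvo_g G m₂) (tvo_g G m₃) δ h0 (tvo_g_sq G m₁ δ v1)
    (tvo_g_sq G m₂ δ v2) (tvo_g_sq G m₃ δ v3)
  have hK : (0 : ℝ) ≤ JJ G m₁ / Fintype.card G * (JJ G m₂ / Fintype.card G) *
    (JJ G m₃ / Fintype.card G) := by positivity
  refine le_trans ?_ (mul_le_mul_of_nonneg_left h hK)
  rw [Finset.mul_sum, Finset.mul_sum, ← Finset.sum_sub_distrib]
  refine (Finset.abs_sum_le_sum_abs _ _).trans (Finset.sum_le_sum fun u _ => ?_)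
  rw [Finset.mul_sum, Finset.mul_sum, ← Finset.sum_sub_distrib]
  refine (Finset.abs_sum_le_sum_abs _ _).trans (Finset.sum_le_sum fun v _ => ?_)
  by_cases hB : B u v
  · rw [if_pos hB, if_pos hB, tvo_f G m₁, tvo_f G m₂, tvo_f G m₃, mul_one]
    rw [show (JJ G m₁ : ℝ) / Fintype.card G * (1 + tvo_g G m₁ u) *
        (JJ G m₂ / Fintype.card G * (1 + tvo_g G m₂ v)) *
        (JJ G m₃ / Fintype.card G * (1 + tvo_g G m₃ (u * v)⁻¹)) -
        JJ G m₁ / Fintype.card G * (JJ G m₂ / Fintype.card G) * (JJ G m₃ / Fintype.card G) =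
        (JJ G m₁ / Fintype.card G * (JJ G m₂ / Fintype.card G) * (JJ G m₃ / Fintype.card G)) *
        ((1 + tvo_g G m₁ u) * (1 + tvo_g G m₂ v) * (1 + tvo_g G m₃ (u * v)⁻¹) - 1) by ring,
      abs_mul, abs_of_nonneg hK]
  · rw [if_neg hB, if_neg hB, mul_zero, sub_zero, abs_zero]
    positivity

open Classical in
theorem tvo_bad (G : Type) [Group G] [Fintype G] (B : G → G → Prop) :
    ∑ u : G, ∑ v : G, (if B u v then (1 : ℝ) else 0) = Nat.card {p : G × G // B p.1 p.2} := by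
  rw [Nat.card_eq_fintype_card, Fintype.card_subtype, Finset.card_filter,
    ← Fintype.sum_prod_type']
  push_cast
  rfl

theorem tvo_num (δ x : ℝ) (h0 : 0 ≤ δ) (h8 : δ ≤ 1 / 8) (hx : 0 ≤ x) :
    x + ((1 + δ) ^ 3 - 1) ≤ (2 * x + 8 * δ) * (1 - ((1 + δ) ^ 3 - 1)) := by
  have e1 : (1 + δ) ^ 3 - 1 ≤ 3.4 * δ := by nlinarith [mul_nonneg h0 h0, sq_nonneg δ]
  have e2 : (1 + δ) ^ 3 - 1 ≤ 0.425 := by linarith
  nlinarith [mul_nonneg h0 h0, mul_nonneg hx h0]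

theorem t_TVO : M_TVO := by
  intro _ hH G _ _ m₁ m₂ m₃ δ h0 h8 v1 v2 v3
  classical
  have := Fintype.ofFinite G
  have hn : (0 : ℝ) < Fintype.card G := Nat.cast_pos.2 Fintype.card_pos
  have hJ1 : (0 : ℝ) < JJ G m₁ := Nat.cast_pos.2 (tvo_JJ_pos G m₁)
  have hJ2 : (0 : ℝ) < JJ G m₂ := Nat.cast_pos.2 (tvo_JJ_pos G m₂)
  have hJ3 : (0 : ℝ) < JJ G m₃ := Nat.cast_pos.2 (tvo_JJ_pos G m₃)
  obtain ⟨K, hK⟩ : ∃ K : ℝ, K = JJ G m₁ / Fintype.card G * (JJ G m₂ / Fintype.card G) *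
    (JJ G m₃ / Fintype.card G) := ⟨_, rfl⟩
  have hK0 : 0 < K := by
    rw [hK]
    positivity
  -- all homomorphisms
  have a1 := tvo_count hH G m₁ m₂ m₃ (fun _ _ => True)
  have a2 := tvo_B G m₁ m₂ m₃ δ h0 v1 v2 v3 (fun _ _ => True)
  rw [← a1, ← hK] at a2
  have a3 : (Nat.card {ρ : OGroup 0 (m₁ ++ m₂ ++ m₃) →* G // True} : ℝ) =
      Nat.card (OGroup 0 (m₁ ++ m₂ ++ m₃) →* G) := by
    rw [Nat.card_congr (Equiv.subtypeUnivEquiv fun _ => trivial)]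
  simp only [if_true, Finset.sum_const, Finset.card_univ, nsmul_eq_mul, mul_one] at a2
  rw [a3, ← _root_.sq] at a2
  -- the bad ones
  have b1 := tvo_count hH G m₁ m₂ m₃ (fun u v => Subgroup.closure {u, v} ≠ ⊤)
  have b2 := tvo_B G m₁ m₂ m₃ δ h0 v1 v2 v3 (fun u v => Subgroup.closure {u, v} ≠ ⊤)
  rw [← b1, ← hK] at b2
  have b4 : (Nat.card {p : G × G // Subgroup.closure {p.1, p.2} ≠ ⊤} : ℝ) =
      (Fintype.card G : ℝ) ^ 2 * ngp G := by
    unfold ngp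
    rw [Nat.card_eq_fintype_card (α := G)]
    field_simp
  rw [tvo_bad, b4] at b2
  obtain ⟨η, hη⟩ : ∃ η : ℝ, η = (1 + δ) ^ 3 - 1 := ⟨_, rfl⟩
  rw [← hη] at a2 b2
  have hx : 0 ≤ ngp G := by
    unfold ngp
    positivity
  have hnum := tvo_num δ (ngp G) h0 h8 hx
  rw [← hη] at hnum
  have hη1 : η ≤ 0.425 := by
    rw [hη]
    nlinarith [mul_nonneg h0 h0, sq_nonneg δ]
  have a5 : K * (Fintype.card G : ℝ) ^ 2 * (1 - η) ≤
      Nat.card (OGroup 0 (m₁ ++ m₂ ++ m₃) →* G) := by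
    have := (abs_le.1 a2).1
    nlinarith
  have a6 : (0 : ℝ) < Nat.card (OGroup 0 (m₁ ++ m₂ ++ m₃) →* G) := by
    refine lt_of_lt_of_le ?_ a5
    have : 0 < 1 - η := by linarith
    positivity
  have : Finite (OGroup 0 (m₁ ++ m₂ ++ m₃) →* G) :=
    Nat.finite_of_card_ne_zero (Nat.cast_ne_zero.1 a6.ne')
  have b5 : (Nat.card {ρ : OGroup 0 (m₁ ++ m₂ ++ m₃) →* G // ¬ Function.Surjective ρ} : ℝ) ≤
      K * (Fintype.card G : ℝ) ^ 2 * (ngp G + η) := by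
    have b6 := (abs_le.1 b2).2
    refine le_trans (Nat.cast_le.2 (Nat.card_le_card_of_injective
      (Subtype.map id (p := fun ρ : OGroup 0 (m₁ ++ m₂ ++ m₃) →* G => ¬ Function.Surjective ρ)
        (q := fun ρ => Subgroup.closure {(List.ofFn (tvo_l m₁ m₂ (tvo_l (m₁ ++ m₂) m₃
          fun j => ρ (ox 0 _ j)))).prod,
          (List.ofFn (tvo_r m₁ m₂ (tvo_l (m₁ ++ m₂) m₃ fun j => ρ (ox 0 _ j)))).prod} ≠ ⊤)
        fun ρ hρ => ?_) (Subtype.map_injective _ Function.injective_id))) ?_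
    · intro h
      apply hρ
      rw [← MonoidHom.range_eq_top, eq_top_iff]
      rw [id] at h
      rw [← h, Subgroup.closure_le]
      have hmem : ∀ (k : ℕ) (t : Fin k → G), (∀ j, t j ∈ ρ.range) →
          (List.ofFn t).prod ∈ ρ.range := by
        intro k t ht
        refine Subgroup.list_prod_mem _ fun x hx => ?_
        obtain ⟨j, rfl⟩ := List.mem_ofFn.1 hx
        exact ht j
      rintro x (rfl | rfl)
      · exact hmem _ _ fun j => ⟨_, rfl⟩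
      · exact hmem _ _ fun j => ⟨_, rfl⟩
    · have : K * (Fintype.card G : ℝ) ^ 2 * (ngp G + η) =
        K * ((Fintype.card G : ℝ) ^ 2 * ngp G) + K * ((Fintype.card G : ℝ) ^ 2 * η) := by ring
      rw [this]
      linarith
  unfold prob
  have c1 : (Nat.card {ρ : OGroup 0 (m₁ ++ m₂ ++ m₃) →* G // Function.Surjective ρ} : ℝ) =
      Nat.card (OGroup 0 (m₁ ++ m₂ ++ m₃) →* G) -
      Nat.card {ρ : OGroup 0 (m₁ ++ m₂ ++ m₃) →* G // ¬ Function.Surjective ρ} := by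
    rw [eq_sub_iff_add_eq, ← Nat.cast_add, ← Nat.card_sum,
      Nat.card_congr (Equiv.sumCompl (fun ρ : OGroup 0 (m₁ ++ m₂ ++ m₃) →* G =>
        Function.Surjective ρ))]
  rw [c1, le_div_iff₀ a6]
  have c2 : (Nat.card {ρ : OGroup 0 (m₁ ++ m₂ ++ m₃) →* G // ¬ Function.Surjective ρ} : ℝ) ≤
      (2 * ngp G + 8 * δ) * Nat.card (OGroup 0 (m₁ ++ m₂ ++ m₃) →* G) := by
    calc _ ≤ K * (Fintype.card G : ℝ) ^ 2 * (ngp G + η) := b5
      _ ≤ K * (Fintype.card G : ℝ) ^ 2 * ((2 * ngp G + 8 * δ) * (1 - η)) :=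
          mul_le_mul_of_nonneg_left hnum (by positivity)
      _ = (2 * ngp G + 8 * δ) * (K * (Fintype.card G : ℝ) ^ 2 * (1 - η)) := by ring
      _ ≤ _ := mul_le_mul_of_nonneg_left a5 (by positivity)
  linarith

end

end SRJ
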