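import Mathlib
import Pool.Agent.SRJ.StA
import Pool.Agent.SRJ.TVO

/-!
# TVA: surjectivity for the non-oriented groups of genus one
-/

set_option autoImplicit false

namespace SRJ

open RSF FL0

noncomputable section

open Classical in
/-- the number of the homomorphisms with `(u, a)` in `B` -/
theorem tva_count (hH : FLN.S_HO) (G : Type) [Group G] [Fintype G] (m₁ m₂ : List ℕ)
    (B : G → G → Prop) :
    (Nat.card {ρ : NGroup 1 (m₁ ++ m₂) →* G //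
      B (List.ofFn (tvo_l m₁ m₂ fun j => ρ (nx 1 _ j))).prod (ρ (FLN.n1 (m₁ ++ m₂)))} : ℝ) =
      ∑ u, ∑ a, if B u a then (fL G m₁ u : ℝ) * fL G m₂ (u⁻¹ * (a ^ 2)⁻¹) else 0 := by
  have h1 := hH G (m₁ ++ m₂) (fun t a => B (List.ofFn (tvo_l m₁ m₂ t)).prod a)
  rw [h1, Nat.card_eq_fintype_card, Fintype.card_subtype, Finset.card_filter]
  push_cast
  have h2 : ∀ u, ∑ a, (if B u a then (fL G m₁ u : ℝ) * fL G m₂ (u⁻¹ * (a ^ 2)⁻¹) else 0) =
      (fL G m₁ u : ℝ) * ∑ w, (fL G m₂ w : ℝ) *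
        ∑ a : G, (if B u a ∧ w = u⁻¹ * (a ^ 2)⁻¹ then 1 else 0) := by
    intro u
    rw [Finset.mul_sum]
    have h3 : ∀ w, (fL G m₁ u : ℝ) * ((fL G m₂ w : ℝ) *
        ∑ a : G, (if B u a ∧ w = u⁻¹ * (a ^ 2)⁻¹ then (1 : ℝ) else 0)) =
        ∑ a : G, (if w = u⁻¹ * (a ^ 2)⁻¹ then
          (if B u a then (fL G m₁ u : ℝ) * fL G m₂ w else 0) else 0) := by
      intro w
      rw [Finset.mul_sum, Finset.mul_sum]
      refine Finset.sum_congr rfl fun a _ => ?_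
      by_cases hB : B u a <;> by_cases hw : w = u⁻¹ * (a ^ 2)⁻¹ <;> simp [hB, hw]
    rw [Finset.sum_congr rfl fun w _ => h3 w, Finset.sum_comm]
    refine Finset.sum_congr rfl fun a _ => ?_
    rw [Finset.sum_ite_eq', if_pos (Finset.mem_univ _)]
  rw [Finset.sum_congr rfl fun u _ => h2 u, tvo_sum]
  simp only [tvo_sum]
  rw [Fintype.sum_prod_type]
  have h3 : ∀ t : Fin (m₁ ++ m₂).length → G,
      (∑ a : G, if (∀ j, t j ^ (m₁ ++ m₂).get j = 1) ∧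
          B (List.ofFn (tvo_l m₁ m₂ t)).prod a ∧ (List.ofFn t).prod * a ^ 2 = 1
        then (1 : ℝ) else 0) =
      (fun r : (Fin m₁.length → G) × (Fin m₂.length → G) =>
          if ∀ j, r.1 j ^ m₁.get j = 1 then
            (if ∀ j, r.2 j ^ m₂.get j = 1 then
              ∑ a : G, (if B (List.ofFn r.1).prod a ∧
                    (List.ofFn r.2).prod = (List.ofFn r.1).prod⁻¹ * (a ^ 2)⁻¹
                  then (1 : ℝ) else 0) else 0) else 0) (tvo_e G m₁ m₂ t) := by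
    intro t
    have e2 : (tvo_e G m₁ m₂ t) = (tvo_l m₁ m₂ t, tvo_r m₁ m₂ t) := rfl
    rw [e2]
    dsimp only
    rw [tvo_ofFn m₁ m₂ t, List.prod_append]
    have h4 : ∀ a : G, (List.ofFn (tvo_l m₁ m₂ t)).prod * (List.ofFn (tvo_r m₁ m₂ t)).prod *
        a ^ 2 = 1 ↔ (List.ofFn (tvo_r m₁ m₂ t)).prod =
          (List.ofFn (tvo_l m₁ m₂ t)).prod⁻¹ * (a ^ 2)⁻¹ := by
      intro a
      rw [mul_eq_one_iff_eq_inv, eq_inv_mul_iff_mul_eq]
    have h5 := tvo_pow m₁ m₂ t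
    by_cases hx : ∀ j, tvo_l m₁ m₂ t j ^ m₁.get j = 1
    · by_cases hy : ∀ j, tvo_r m₁ m₂ t j ^ m₂.get j = 1
      · rw [if_pos hx, if_pos hy]
        refine Finset.sum_congr rfl fun a _ => if_congr ?_ rfl rfl
        rw [h4 a]
        exact ⟨fun h => h.2, fun h => ⟨h5.2 ⟨hx, hy⟩, h⟩⟩
      · rw [if_pos hx, if_neg hy]
        exact Finset.sum_eq_zero fun a _ => if_neg fun h => hy (h5.1 h.1).2
    · rw [if_neg hx]
      exact Finset.sum_eq_zero fun a _ => if_neg fun h => hx (h5.1 h.1).1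
  rw [Finset.sum_congr rfl fun t _ => h3 t,
    (tvo_e G m₁ m₂).sum_comp (fun r : (Fin m₁.length → G) × (Fin m₂.length → G) =>
          if ∀ j, r.1 j ^ m₁.get j = 1 then
            (if ∀ j, r.2 j ^ m₂.get j = 1 then
              ∑ a : G, (if B (List.ofFn r.1).prod a ∧
                    (List.ofFn r.2).prod = (List.ofFn r.1).prod⁻¹ * (a ^ 2)⁻¹
                  then (1 : ℝ) else 0) else 0) else 0),
    Fintype.sum_prod_type]
  refine Finset.sum_congr rfl fun x _ => ?_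
  by_cases hx : ∀ j, x j ^ m₁.get j = 1
  · rw [if_pos hx]
    refine Finset.sum_congr rfl fun y _ => ?_
    rw [if_pos hx]
  · rw [if_neg hx]
    refine Finset.sum_eq_zero fun y _ => ?_
    rw [if_neg hx]

theorem tva_perm {G : Type} [Group G] [Fintype G] (h : G → ℝ) (b : G) :
    ∑ u : G, h (u⁻¹ * b) = ∑ w, h w :=
  ((Equiv.inv G).trans (Equiv.mulRight b)).sum_comp h

theorem tva_dev {G : Type} [Group G] [Fintype G] (g₁ g₂ : G → ℝ) (δ : ℝ) (h0 : 0 ≤ δ)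
    (h1 : ∑ u, g₁ u ^ 2 ≤ Fintype.card G * δ ^ 2) (h2 : ∑ u, g₂ u ^ 2 ≤ Fintype.card G * δ ^ 2) :
    ∑ u, ∑ a, |(1 + g₁ u) * (1 + g₂ (u⁻¹ * (a ^ 2)⁻¹)) - 1| ≤
      (Fintype.card G : ℝ) ^ 2 * ((1 + δ) ^ 2 - 1) := by
  have a1 := tvo_cs g₁ δ h0 h1
  have a2 := tvo_cs g₂ δ h0 h2
  obtain ⟨n, hn⟩ : ∃ n : ℝ, n = Fintype.card G := ⟨_, rfl⟩
  have hn0 : 0 ≤ n := by
    rw [hn]
    exact Nat.cast_nonneg _
  rw [← hn] at h1 h2 a1 a2 ⊢
  rw [Finset.sum_comm]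
  have key : ∀ a : G, ∑ u, |(1 + g₁ u) * (1 + g₂ (u⁻¹ * (a ^ 2)⁻¹)) - 1| ≤
      n * ((1 + δ) ^ 2 - 1) := by
    intro a
    have s2 : ∑ u, |g₂ (u⁻¹ * (a ^ 2)⁻¹)| ≤ n * δ := by
      rw [tva_perm (fun w => |g₂ w|) (a ^ 2)⁻¹]
      exact a2
    have s3 : ∑ u, |g₁ u| * |g₂ (u⁻¹ * (a ^ 2)⁻¹)| ≤ n * δ ^ 2 := by
      have c1 := Finset.sum_mul_sq_le_sq_mul_sq (Finset.univ : Finset G) (fun u => |g₁ u|)
        (fun u => |g₂ (u⁻¹ * (a ^ 2)⁻¹)|)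
      simp only [sq_abs] at c1
      rw [tva_perm (fun w => g₂ w ^ 2) (a ^ 2)⁻¹] at c1
      have z2 : 0 ≤ ∑ u, g₂ u ^ 2 := Finset.sum_nonneg fun _ _ => sq_nonneg _
      have c2 : (∑ u, |g₁ u| * |g₂ (u⁻¹ * (a ^ 2)⁻¹)|) ^ 2 ≤ (n * δ ^ 2) ^ 2 := by
        refine c1.trans ?_
        calc (∑ u, g₁ u ^ 2) * ∑ u, g₂ u ^ 2 ≤ (n * δ ^ 2) * (n * δ ^ 2) :=
              mul_le_mul h1 h2 z2 (by positivity)
          _ = (n * δ ^ 2) ^ 2 := by ring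
      exact tvo_cs.le_of_sq_le_sq c2 (by positivity)
    calc ∑ u, |(1 + g₁ u) * (1 + g₂ (u⁻¹ * (a ^ 2)⁻¹)) - 1|
        ≤ ∑ u, (|g₁ u| + |g₂ (u⁻¹ * (a ^ 2)⁻¹)| + |g₁ u| * |g₂ (u⁻¹ * (a ^ 2)⁻¹)|) := by
          refine Finset.sum_le_sum fun u _ => ?_
          generalize g₁ u = x
          generalize g₂ (u⁻¹ * (a ^ 2)⁻¹) = y
          have e : (1 + x) * (1 + y) - 1 = x + y + x * y := by ring
          rw [e, ← abs_mul]
          exact (abs_add_le _ _).trans (add_le_add (abs_add_le _ _) le_rfl)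
      _ = ∑ u, |g₁ u| + ∑ u, |g₂ (u⁻¹ * (a ^ 2)⁻¹)| +
            ∑ u, |g₁ u| * |g₂ (u⁻¹ * (a ^ 2)⁻¹)| := by
          simp only [Finset.sum_add_distrib]
      _ ≤ n * δ + n * δ + n * δ ^ 2 := by linarith
      _ = n * ((1 + δ) ^ 2 - 1) := by ring
  refine (Finset.sum_le_sum fun a _ => key a).trans (le_of_eq ?_)
  rw [Finset.sum_const, Finset.card_univ, nsmul_eq_mul, ← hn]
  ring

open Classical in
theorem tva_B (G : Type) [Group G] [Fintype G] (m₁ m₂ : List ℕ) (δ : ℝ) (h0 : 0 ≤ δ)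
    (v1 : V2 G m₁ ≤ δ ^ 2) (v2 : V2 G m₂ ≤ δ ^ 2) (B : G → G → Prop) :
    |(∑ u, ∑ a, if B u a then (fL G m₁ u : ℝ) * fL G m₂ (u⁻¹ * (a ^ 2)⁻¹) else 0) -
      (JJ G m₁ / Fintype.card G * (JJ G m₂ / Fintype.card G)) *
        ∑ u, ∑ a, (if B u a then 1 else 0)| ≤
      (JJ G m₁ / Fintype.card G * (JJ G m₂ / Fintype.card G)) *
        ((Fintype.card G : ℝ) ^ 2 * ((1 + δ) ^ 2 - 1)) := by
  have h := tva_dev (tvo_g G m₁) (tvo_g G m₂) δ h0 (tvo_g_sq G m₁ δ v1) (tvo_g_sq G m₂ δ v2)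
  have hK : (0 : ℝ) ≤ JJ G m₁ / Fintype.card G * (JJ G m₂ / Fintype.card G) := by positivity
  refine le_trans ?_ (mul_le_mul_of_nonneg_left h hK)
  rw [Finset.mul_sum, Finset.mul_sum, ← Finset.sum_sub_distrib]
  refine (Finset.abs_sum_le_sum_abs _ _).trans (Finset.sum_le_sum fun u _ => ?_)
  rw [Finset.mul_sum, Finset.mul_sum, ← Finset.sum_sub_distrib]
  refine (Finset.abs_sum_le_sum_abs _ _).trans (Finset.sum_le_sum fun a _ => ?_)
  by_cases hB : B u a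
  · rw [if_pos hB, if_pos hB, tvo_f G m₁, tvo_f G m₂, mul_one]
    rw [show (JJ G m₁ : ℝ) / Fintype.card G * (1 + tvo_g G m₁ u) *
        (JJ G m₂ / Fintype.card G * (1 + tvo_g G m₂ (u⁻¹ * (a ^ 2)⁻¹))) -
        JJ G m₁ / Fintype.card G * (JJ G m₂ / Fintype.card G) =
        (JJ G m₁ / Fintype.card G * (JJ G m₂ / Fintype.card G)) *
        ((1 + tvo_g G m₁ u) * (1 + tvo_g G m₂ (u⁻¹ * (a ^ 2)⁻¹)) - 1) by ring,
      abs_mul, abs_of_nonneg hK]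
  · rw [if_neg hB, if_neg hB, mul_zero, sub_zero, abs_zero]
    positivity

theorem tva_num (δ x : ℝ) (h0 : 0 ≤ δ) (h8 : δ ≤ 1 / 8) (hx : 0 ≤ x) :
    x + ((1 + δ) ^ 2 - 1) ≤ (2 * x + 8 * δ) * (1 - ((1 + δ) ^ 2 - 1)) := by
  have e1 : (1 + δ) ^ 2 - 1 ≤ 2.125 * δ := by nlinarith [mul_nonneg h0 h0, sq_nonneg δ]
  have e2 : (1 + δ) ^ 2 - 1 ≤ 0.27 := by linarith
  nlinarith [mul_nonneg h0 h0, mul_nonneg hx h0]

theorem t_TVA : M_TVA := by
  intro _ hH G _ _ m₁ m₂ δ h0 h8 v1 v2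
  classical
  have := Fintype.ofFinite G
  have hn : (0 : ℝ) < Fintype.card G := Nat.cast_pos.2 Fintype.card_pos
  have hJ1 : (0 : ℝ) < JJ G m₁ := Nat.cast_pos.2 (tvo_JJ_pos G m₁)
  have hJ2 : (0 : ℝ) < JJ G m₂ := Nat.cast_pos.2 (tvo_JJ_pos G m₂)
  obtain ⟨K, hK⟩ : ∃ K : ℝ, K = JJ G m₁ / Fintype.card G * (JJ G m₂ / Fintype.card G) := ⟨_, rfl⟩
  have hK0 : 0 < K := by
    rw [hK]
    positivity
  -- all homomorphisms
  have a1 := tva_count hH G m₁ m₂ (fun _ _ => True)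
  have a2 := tva_B G m₁ m₂ δ h0 v1 v2 (fun _ _ => True)
  rw [← a1, ← hK] at a2
  have a3 : (Nat.card {ρ : NGroup 1 (m₁ ++ m₂) →* G // True} : ℝ) =
      Nat.card (NGroup 1 (m₁ ++ m₂) →* G) := by
    rw [Nat.card_congr (Equiv.subtypeUnivEquiv fun _ => trivial)]
  simp only [if_true, Finset.sum_const, Finset.card_univ, nsmul_eq_mul, mul_one] at a2
  rw [a3, ← _root_.sq] at a2
  -- the bad ones
  have b1 := tva_count hH G m₁ m₂ (fun u a => Subgroup.closure {u, a} ≠ ⊤)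
  have b2 := tva_B G m₁ m₂ δ h0 v1 v2 (fun u a => Subgroup.closure {u, a} ≠ ⊤)
  rw [← b1, ← hK] at b2
  have b4 : (Nat.card {p : G × G // Subgroup.closure {p.1, p.2} ≠ ⊤} : ℝ) =
      (Fintype.card G : ℝ) ^ 2 * ngp G := by
    unfold ngp
    rw [Nat.card_eq_fintype_card (α := G)]
    field_simp
  rw [tvo_bad, b4] at b2
  obtain ⟨η, hη⟩ : ∃ η : ℝ, η = (1 + δ) ^ 2 - 1 := ⟨_, rfl⟩
  rw [← hη] at a2 b2
  have hx : 0 ≤ ngp G := by
    unfold ngp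
    positivity
  have hnum := tva_num δ (ngp G) h0 h8 hx
  rw [← hη] at hnum
  have hη1 : η ≤ 0.27 := by
    rw [hη]
    nlinarith [mul_nonneg h0 h0, sq_nonneg δ]
  have a5 : K * (Fintype.card G : ℝ) ^ 2 * (1 - η) ≤
      Nat.card (NGroup 1 (m₁ ++ m₂) →* G) := by
    have := (abs_le.1 a2).1
    nlinarith
  have a6 : (0 : ℝ) < Nat.card (NGroup 1 (m₁ ++ m₂) →* G) := by
    refine lt_of_lt_of_le ?_ a5
    have : 0 < 1 - η := by linarith
    positivity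
  have : Finite (NGroup 1 (m₁ ++ m₂) →* G) :=
    Nat.finite_of_card_ne_zero (Nat.cast_ne_zero.1 a6.ne')
  have b5 : (Nat.card {ρ : NGroup 1 (m₁ ++ m₂) →* G // ¬ Function.Surjective ρ} : ℝ) ≤
      K * (Fintype.card G : ℝ) ^ 2 * (ngp G + η) := by
    have b6 := (abs_le.1 b2).2
    refine le_trans (Nat.cast_le.2 (Nat.card_le_card_of_injective
      (Subtype.map id (p := fun ρ : NGroup 1 (m₁ ++ m₂) →* G => ¬ Function.Surjective ρ)
        (q := fun ρ => Subgroup.closure {(List.ofFn (tvo_l m₁ m₂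
          fun j => ρ (nx 1 _ j))).prod, ρ (FLN.n1 (m₁ ++ m₂))} ≠ ⊤)
        fun ρ hρ => ?_) (Subtype.map_injective _ Function.injective_id))) ?_
    · intro h
      apply hρ
      rw [← MonoidHom.range_eq_top, eq_top_iff]
      rw [id] at h
      rw [← h, Subgroup.closure_le]
      have hmem : ∀ (k : ℕ) (t : Fin k → G), (∀ j, t j ∈ ρ.range) →
          (List.ofFn t).prod ∈ ρ.range := by
        intro k t ht
        refine Subgroup.list_prod_mem _ fun x hx => ?_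
        obtain ⟨j, rfl⟩ := List.mem_ofFn.1 hx
        exact ht j
      rintro x (rfl | rfl)
      · exact hmem _ _ fun j => ⟨_, rfl⟩
      · exact ⟨_, rfl⟩
    · have : K * (Fintype.card G : ℝ) ^ 2 * (ngp G + η) =
        K * ((Fintype.card G : ℝ) ^ 2 * ngp G) + K * ((Fintype.card G : ℝ) ^ 2 * η) := by ring
      rw [this]
      linarith
  unfold prob
  have c1 : (Nat.card {ρ : NGroup 1 (m₁ ++ m₂) →* G // Function.Surjective ρ} : ℝ) =
      Nat.card (NGroup 1 (m₁ ++ m₂) →* G) -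
      Nat.card {ρ : NGroup 1 (m₁ ++ m₂) →* G // ¬ Function.Surjective ρ} := by
    rw [eq_sub_iff_add_eq, ← Nat.cast_add, ← Nat.card_sum,
      Nat.card_congr (Equiv.sumCompl (fun ρ : NGroup 1 (m₁ ++ m₂) →* G =>
        Function.Surjective ρ))]
  rw [c1, le_div_iff₀ a6]
  have c2 : (Nat.card {ρ : NGroup 1 (m₁ ++ m₂) →* G // ¬ Function.Surjective ρ} : ℝ) ≤
      (2 * ngp G + 8 * δ) * Nat.card (NGroup 1 (m₁ ++ m₂) →* G) := by
    calc _ ≤ K * (Fintype.card G : ℝ) ^ 2 * (ngp G + η) := b5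
      _ ≤ K * (Fintype.card G : ℝ) ^ 2 * ((2 * ngp G + 8 * δ) * (1 - η)) :=
          mul_le_mul_of_nonneg_left hnum (by positivity)
      _ = (2 * ngp G + 8 * δ) * (K * (Fintype.card G : ℝ) ^ 2 * (1 - η)) := by ring
      _ ≤ _ := mul_le_mul_of_nonneg_left a5 (by positivity)
  linarith

end

end SRJ
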