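import Mathlib
import Pool.Agent.SRJ.StA

/-!
# TVB: surjectivity for genus with two free generators
-/

set_option autoImplicit false

namespace SRJ

open RSF FL0 Polynomial Pool.Agent.Lib_helper13

theorem tvb_JJ_pos (G : Type) [Group G] [Finite G] (m : List ℕ) : 0 < JJ G m := by
  unfold JJ
  refine List.prod_pos fun k hk => ?_
  obtain ⟨j, _, rfl⟩ := List.mem_map.1 hk
  unfold jn
  have : Nonempty {x : G // x ^ j = 1} := ⟨⟨1, one_pow j⟩⟩
  exact Nat.card_pos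

open Classical in
theorem tvb_TN {G : Type} [Group G] [Fintype G] (o : Bool) (m : List ℕ) (P : G → G → Prop) :
    (FLW.TN o G m (fun _ a b => P a b) : ℝ) =
      ∑ p ∈ (Finset.univ : Finset (G × G)).filter (fun p => P p.1 p.2),
        (fL G m (FLW.wd o p.1 p.2)⁻¹ : ℝ) := by
  have e : {p : (Fin m.length → G) × G × G // (∀ j, p.1 j ^ m.get j = 1) ∧ P p.2.1 p.2.2 ∧
      (List.ofFn p.1).prod * FLW.wd o p.2.1 p.2.2 = 1} ≃
      Σ q : {q : G × G // P q.1 q.2}, {t : Fin m.length → G // (∀ j, t j ^ m.get j = 1) ∧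
        (List.ofFn t).prod = (FLW.wd o q.1.1 q.1.2)⁻¹} :=
    { toFun := fun p => ⟨⟨p.1.2, p.2.2.1⟩, ⟨p.1.1, p.2.1, eq_inv_of_mul_eq_one_left p.2.2.2⟩⟩
      invFun := fun s => ⟨(s.2.1, s.1.1), s.2.2.1, s.1.2, by
        show (List.ofFn s.2.1).prod * FLW.wd o s.1.1.1 s.1.1.2 = 1
        rw [s.2.2.2, inv_mul_cancel]⟩
      left_inv := fun p => rfl
      right_inv := fun s => rfl }
  unfold FLW.TN
  rw [Nat.card_congr e, Nat.card_sigma, Nat.cast_sum]
  rw [Finset.sum_subtype (p := fun q : G × G => P q.1 q.2) _ (fun x => by simp)]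
  rfl

open Classical in
theorem tvb_sum {G : Type} [Group G] [Fintype G] (o : Bool) (h : G → ℝ) :
    ∑ p : G × G, h (FLW.wd o p.1 p.2) =
      ∑ g : G, (Nat.card {p : G × G // FLW.wd o p.1 p.2 = g} : ℝ) * h g := by
  rw [← Finset.sum_fiberwise (Finset.univ : Finset (G × G)) (fun p => FLW.wd o p.1 p.2)]
  refine Finset.sum_congr rfl fun g _ => ?_
  rw [Finset.sum_congr rfl (g := fun _ => h g) (fun p hp => by rw [(Finset.mem_filter.1 hp).2]),
    Finset.sum_const, nsmul_eq_mul, Nat.card_eq_fintype_card, Fintype.card_subtype]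

open Classical in
theorem tvb_err (hr : S_RLT) {G : Type} [Group G] [Fintype G] (o : Bool) (m : List ℕ) (δ : ℝ)
    (h0 : 0 ≤ δ) (hz : ∑ X ∈ irrF G, (‖X 1‖ ^ 2)⁻¹ ≤ 2) (hv : V2 G m ≤ δ ^ 2)
    (P : G → G → Prop) :
    |(FLW.TN o G m (fun _ a b => P a b) : ℝ) -
        (Nat.card {p : G × G // P p.1 p.2} : ℝ) * ((JJ G m : ℝ) / Nat.card G)| ≤
      1.42 * δ * ((Nat.card G : ℝ) * JJ G m) := by
  have hN : (0 : ℝ) < Nat.card G := by exact_mod_cast Nat.card_pos
  have hJ : (0 : ℝ) < JJ G m := by exact_mod_cast tvb_JJ_pos G m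
  set N : ℝ := (Nat.card G : ℝ)
  set J : ℝ := (JJ G m : ℝ)
  have h1 : (FLW.TN o G m (fun _ a b => P a b) : ℝ) -
      (Nat.card {p : G × G // P p.1 p.2} : ℝ) * (J / N) =
      ∑ p ∈ (Finset.univ : Finset (G × G)).filter (fun p => P p.1 p.2),
        ((fL G m (FLW.wd o p.1 p.2)⁻¹ : ℝ) - J / N) := by
    rw [tvb_TN, Finset.sum_sub_distrib, Finset.sum_const, nsmul_eq_mul, Nat.card_eq_fintype_card,
      Fintype.card_subtype]
  have h2 : |∑ p ∈ (Finset.univ : Finset (G × G)).filter (fun p => P p.1 p.2),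
        ((fL G m (FLW.wd o p.1 p.2)⁻¹ : ℝ) - J / N)| ≤
      ∑ p : G × G, |(fL G m (FLW.wd o p.1 p.2)⁻¹ : ℝ) - J / N| :=
    (Finset.abs_sum_le_sum_abs _ _).trans
      (Finset.sum_le_sum_of_subset_of_nonneg (Finset.filter_subset _ _)
        (fun _ _ _ => abs_nonneg _))
  have h3 := tvb_sum o (fun g : G => |(fL G m g⁻¹ : ℝ) - J / N|)
  have h4 := Finset.sum_mul_sq_le_sq_mul_sq (Finset.univ : Finset G)
    (fun g => (Nat.card {p : G × G // FLW.wd o p.1 p.2 = g} : ℝ))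
    (fun g : G => |(fL G m g⁻¹ : ℝ) - J / N|)
  have h5 : ∑ g : G, |(fL G m g⁻¹ : ℝ) - J / N| ^ 2 = ∑ g : G, ((fL G m g : ℝ) - J / N) ^ 2 := by
    simp_rw [sq_abs]
    exact Equiv.sum_comp (Equiv.inv G) (fun g => ((fL G m g : ℝ) - J / N) ^ 2)
  have h6 : (∑ g : G, ((fL G m g : ℝ) - J / N) ^ 2) ≤ δ ^ 2 * J ^ 2 / N := by
    have h7 : (∑ g : G, ((fL G m g : ℝ) - J / N) ^ 2) * N / J ^ 2 ≤ δ ^ 2 := by
      have h8 := hv
      unfold V2 at h8
      rw [finsum_eq_sum_of_fintype] at h8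
      exact h8
    rw [div_le_iff₀ (by positivity)] at h7
    rw [le_div_iff₀ hN]
    exact h7
  have h7 : ∑ g : G, (Nat.card {p : G × G // FLW.wd o p.1 p.2 = g} : ℝ) ^ 2 ≤ N ^ 3 * 2 :=
    (hr G o).trans (mul_le_mul_of_nonneg_left hz (by positivity))
  have h8 : (∑ p : G × G, |(fL G m (FLW.wd o p.1 p.2)⁻¹ : ℝ) - J / N|) ^ 2 ≤
      (1.42 * δ * (N * J)) ^ 2 := by
    have h9 : (∑ p : G × G, |(fL G m (FLW.wd o p.1 p.2)⁻¹ : ℝ) - J / N|) ^ 2 ≤
        (N ^ 3 * 2) * (δ ^ 2 * J ^ 2 / N) := by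
      rw [h3]
      refine h4.trans ?_
      rw [h5]
      exact mul_le_mul h7 h6 (Finset.sum_nonneg fun _ _ => sq_nonneg _) (by positivity)
    refine h9.trans ?_
    have h10 : (N ^ 3 * 2) * (δ ^ 2 * J ^ 2 / N) = 2 * (δ ^ 2 * (N ^ 2 * J ^ 2)) := by
      field_simp
    rw [h10]
    have h11 : 0 ≤ δ ^ 2 * (N ^ 2 * J ^ 2) := by positivity
    nlinarith
  rw [h1]
  refine h2.trans ?_
  exact (sq_le_sq₀ (Finset.sum_nonneg fun _ _ => abs_nonneg _) (by positivity)).1 h8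

open Classical in
/-- The probability. `na`, `nb`: the numbers of the tuples with and without `B`. -/
theorem tvb_prob (hr : S_RLT) {G : Type} [Group G] [Fintype G] (o : Bool) (m : List ℕ) (δ : ℝ)
    (h0 : 0 ≤ δ) (h1 : δ ≤ 1 / 8) (hz : ∑ X ∈ irrF G, (‖X 1‖ ^ 2)⁻¹ ≤ 2) (hv : V2 G m ≤ δ ^ 2)
    (Γ : Type) [Group Γ] (x y : Γ)
    (hall : Nat.card {ρ : Γ →* G // (fun _ _ => True) (ρ x) (ρ y)} =
      FLW.TN o G m (fun _ _ _ => True))
    (hgen : Nat.card {ρ : Γ →* G // (fun a b => Subgroup.closure {a, b} = ⊤) (ρ x) (ρ y)} =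
      FLW.TN o G m (fun _ a b => Subgroup.closure {a, b} = ⊤)) :
    1 - 2 * ngp G - 4 * δ ≤ prob Γ G (fun ρ => Function.Surjective ρ) := by
  have hN : (0 : ℝ) < Nat.card G := by exact_mod_cast Nat.card_pos
  have hJ : (0 : ℝ) < JJ G m := by exact_mod_cast tvb_JJ_pos G m
  have e1 := tvb_err hr o m δ h0 hz hv (fun _ _ => True)
  have e2 := tvb_err hr o m δ h0 hz hv (fun a b => Subgroup.closure {a, b} = ⊤)
  have c1 : (Nat.card {p : G × G // True} : ℝ) = (Nat.card G : ℝ) ^ 2 := by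
    have : Nat.card {p : G × G // True} = Nat.card G ^ 2 := by
      rw [Nat.card_congr (Equiv.subtypeUnivEquiv fun _ => trivial), Nat.card_prod, pow_two]
    rw [this]
    push_cast
    rfl
  have c2 : (Nat.card {p : G × G // Subgroup.closure {p.1, p.2} = ⊤} : ℝ) =
      (Nat.card G : ℝ) ^ 2 * (1 - ngp G) := by
    have h3 : Nat.card {p : G × G // Subgroup.closure {p.1, p.2} = ⊤} +
        Nat.card {p : G × G // Subgroup.closure {p.1, p.2} ≠ ⊤} = Nat.card G ^ 2 := by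
      rw [← Nat.card_sum, pow_two, ← Nat.card_prod]
      exact Nat.card_congr (Equiv.sumCompl (fun p : G × G => Subgroup.closure {p.1, p.2} = ⊤))
    have h4 : (Nat.card {p : G × G // Subgroup.closure {p.1, p.2} = ⊤} : ℝ) +
        (Nat.card {p : G × G // Subgroup.closure {p.1, p.2} ≠ ⊤} : ℝ) =
        (Nat.card G : ℝ) ^ 2 := by exact_mod_cast h3
    unfold ngp
    rw [mul_sub, mul_one, mul_div_cancel₀ _ (by positivity)]
    linarith
  have hng : 0 ≤ ngp G := by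
    unfold ngp
    positivity
  rw [c1] at e1
  rw [c2] at e2
  set N : ℝ := (Nat.card G : ℝ)
  set J : ℝ := (JJ G m : ℝ)
  set p := ngp G
  have hNJ : 0 < N * J := mul_pos hN hJ
  have d1 : N ^ 2 * (J / N) = N * J := by field_simp
  have d2 : N ^ 2 * (1 - p) * (J / N) = (1 - p) * (N * J) := by field_simp
  rw [d1] at e1
  rw [d2] at e2
  have f1 := abs_le.1 e1
  have f2 := abs_le.1 e2
  -- the total number is positive
  have g1 : (0 : ℝ) < (FLW.TN o G m (fun _ _ _ => True) : ℝ) := by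
    nlinarith [f1.1, mul_le_mul_of_nonneg_right h1 hNJ.le]
  have g2 : Nat.card (Γ →* G) = FLW.TN o G m (fun _ _ _ => True) := by
    rw [← hall]
    exact (Nat.card_congr (Equiv.subtypeUnivEquiv fun _ => trivial)).symm
  have g3 : Finite (Γ →* G) := by
    refine Nat.finite_of_card_ne_zero ?_
    rw [g2]
    intro h
    rw [h] at g1
    simp at g1
  have g4 : (FLW.TN o G m (fun _ a b => Subgroup.closure {a, b} = ⊤) : ℝ) ≤
      (Nat.card {ρ : Γ →* G // Function.Surjective ρ} : ℝ) := by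
    rw [← hgen]
    have : Nat.card {ρ : Γ →* G // (fun a b => Subgroup.closure {a, b} = ⊤) (ρ x) (ρ y)} ≤
        Nat.card {ρ : Γ →* G // Function.Surjective ρ} := by
      refine Nat.card_le_card_of_injective
        (fun ρ : {ρ : Γ →* G // (fun a b => Subgroup.closure {a, b} = ⊤) (ρ x) (ρ y)} =>
          (⟨ρ.1, ?_⟩ : {ρ : Γ →* G // Function.Surjective ρ})) ?_
      · have hρ : Subgroup.closure {ρ.1 x, ρ.1 y} = ⊤ := ρ.2
        have hle : Subgroup.closure {ρ.1 x, ρ.1 y} ≤ ρ.1.range := by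
          rw [Subgroup.closure_le]
          intro z hz
          rcases hz with hz | hz
          · exact ⟨x, hz.symm⟩
          · exact ⟨y, (Set.mem_singleton_iff.1 hz).symm⟩
        rw [hρ, top_le_iff] at hle
        exact MonoidHom.range_eq_top.1 hle
      · intro a b hab
        exact Subtype.ext (congrArg (fun z => z.1) hab)
    exact_mod_cast this
  unfold prob
  rw [g2, le_div_iff₀ g1]
  refine le_trans ?_ g4
  set T : ℝ := (FLW.TN o G m (fun _ _ _ => True) : ℝ)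
  set S : ℝ := (FLW.TN o G m (fun _ a b => Subgroup.closure {a, b} = ⊤) : ℝ)
  by_cases hneg : 1 - 2 * p - 4 * δ ≤ 0
  · refine le_trans (mul_nonpos_of_nonpos_of_nonneg hneg g1.le) ?_
    exact Nat.cast_nonneg _
  · rw [not_le] at hneg
    have k1 : T ≤ (1 + 1.42 * δ) * (N * J) := by linarith [f1.2]
    have k2 : (1 - p - 1.42 * δ) * (N * J) ≤ S := by linarith [f2.1]
    refine le_trans (mul_le_mul_of_nonneg_left k1 hneg.le) (le_trans ?_ k2)
    rw [← mul_assoc]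
    refine mul_le_mul_of_nonneg_right ?_ hNJ.le
    nlinarith [mul_nonneg h0 hng, mul_nonneg h0 h0]

/-- TVB. -/
theorem t_TVB : M_TVB := by
  intro hr hh G _ _ m δ h0 h1 hz hv
  constructor
  · exact tvb_prob hr true m δ h0 h1 hz hv (OGroup 1 m) (RSF.oa m) (RSF.ob m)
      (hh G m (fun _ _ _ => True)).1 (hh G m (fun _ a b => Subgroup.closure {a, b} = ⊤)).1
  · exact tvb_prob hr false m δ h0 h1 hz hv (NGroup 2 m) (RSF.na m 0) (RSF.na m 1)
      (hh G m (fun _ _ _ => True)).2 (hh G m (fun _ a b => Subgroup.closure {a, b} = ⊤)).2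

end SRJ
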