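import Mathlib
import Pool.Agent.SRJ.StA

/-!
# Module ZEP: the sum of the inverse squares of the degrees of `PSL_n(q)`
-/

set_option autoImplicit false

namespace SRJ

open RSF FL0 Pool.Agent.Lib_helper13

/-- Inflation of an irreducible character along a surjective homomorphism. -/
theorem zep_infl {G H : Type} [Group G] [Group H] [Fintype G] [Fintype H] (φ : G →* H)
    (hφ : Function.Surjective φ) {χ : H → ℂ} (h : IsIrr χ) : IsIrr (fun x => χ (φ x)) := by
  classical
  obtain ⟨n, ρ, hρ, rfl⟩ := h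
  have h1 : (Representation.character (ρ.comp φ : Representation ℂ G (Fin n → ℂ)))
      = fun x => ρ.character (φ x) := rfl
  rw [← h1]
  apply isIrr_of_rep_sum
  rw [h1]
  have h2 := (irreducible_iff_sum ρ).mp hρ
  have hfib : ∀ y : H, (Finset.univ.filter fun g : G => φ g = y).card =
      (Finset.univ.filter fun g : G => φ g = 1).card := fun y =>
    MonoidHom.card_fiber_eq_of_mem_range φ (hφ y) ⟨1, map_one φ⟩
  have h3 : ∀ f : H → ℂ, ∑ x : G, f (φ x) =
      ((Finset.univ.filter fun g : G => φ g = 1).card : ℂ) * ∑ y : H, f y := by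
    intro f
    rw [← Finset.sum_fiberwise (s := (Finset.univ : Finset G)) (g := fun x => φ x)
      (f := fun x => f (φ x)), Finset.mul_sum]
    refine Finset.sum_congr rfl fun y _ => ?_
    rw [Finset.sum_congr rfl (g := fun _ => f y), Finset.sum_const, nsmul_eq_mul, hfib y]
    intro x hx
    rw [(Finset.mem_filter.1 hx).2]
  have h4 : (Nat.card G : ℂ) =
      ((Finset.univ.filter fun g : G => φ g = 1).card : ℂ) * Nat.card H := by
    have h5 := h3 (fun _ => 1)
    simpa [Nat.card_eq_fintype_card] using h5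
  have h6 := h3 (fun y => ρ.character y * ρ.character y⁻¹)
  rw [h2, ← h4] at h6
  rw [← h6]
  refine Finset.sum_congr rfl fun x _ => ?_
  simp only [map_inv]

theorem zep_num (q : ℝ) (hq : 2 ≤ q) (n : ℕ) (hn : 8 ≤ n) :
    4 * q ^ (n + 1) * ((q ^ (n - 1) - 1) ^ 2)⁻¹ ≤ 1 := by
  obtain ⟨k, rfl⟩ : ∃ k, n = k + 8 := ⟨n - 8, by omega⟩
  have e1 : k + 8 - 1 = k + 7 := rfl
  rw [e1]
  have h0 : (1 : ℝ) ≤ q := by linarith
  have hk : 1 ≤ q ^ k := one_le_pow₀ h0
  have h5 : (32 : ℝ) ≤ q ^ 5 := by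
    have : (2 : ℝ) ^ 5 ≤ q ^ 5 := pow_le_pow_left₀ (by norm_num) hq 5
    linarith
  have hq2 : 0 < q ^ 2 := by positivity
  have hy : 32 * q ^ 2 ≤ q ^ (k + 7) := by
    have : q ^ (k + 7) = q ^ k * q ^ 5 * q ^ 2 := by ring
    rw [this]
    nlinarith [mul_le_mul hk h5 (by norm_num) (by positivity)]
  set y := q ^ (k + 7) with hyd
  have hy2 : 2 ≤ y := by nlinarith
  have hy3 : y / 2 ≤ y - 1 := by linarith
  have h6 : q ^ (k + 8 + 1) = q ^ 2 * y := by rw [hyd]; ring
  rw [h6, mul_inv_le_iff₀ (by nlinarith), one_mul]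
  have h7 : (y / 2) ^ 2 ≤ (y - 1) ^ 2 := pow_le_pow_left₀ (by linarith) hy3 2
  nlinarith

theorem t_ZEP : M_ZEP := by
  intro hMIN hIRC hKP
  refine ⟨8, ?_⟩
  intro n hn F _ _ _
  classical
  have : Fintype F := Fintype.ofFinite F
  have : Finite (SL n F) := inferInstance
  have : Fintype (SL n F) := Fintype.ofFinite _
  set q : ℝ := (Nat.card F : ℝ) with hq
  have hq2 : 2 ≤ q := by
    have : 1 < Nat.card F := Finite.one_lt_card
    rw [hq]
    exact_mod_cast this
  let φ : SL n F →* PS n F := QuotientGroup.mk' _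
  have hφ : Function.Surjective φ := QuotientGroup.mk'_surjective _
  set B : ℝ := ((q ^ (n - 1) - 1) ^ 2)⁻¹ with hB
  have hpos : 0 < q ^ (n - 1) - 1 := by
    have : 1 < q ^ (n - 1) := one_lt_pow₀ (by linarith) (by omega)
    linarith
  have hB0 : 0 ≤ B := by positivity
  have hterm : ∀ X ∈ irrF (PS n F), (‖X 1‖ ^ 2)⁻¹ ≤ (if X = (fun _ => 1) then 1 else 0) + B := by
    intro X hX
    by_cases h1 : X = fun _ => 1
    · rw [if_pos h1, h1]
      simpa using hB0
    · rw [if_neg h1, zero_add]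
      have h2 := zep_infl φ hφ (mem_irrF.1 hX)
      have h3 : (fun x => X (φ x)) ≠ fun _ => 1 := by
        intro h4
        apply h1
        funext y
        obtain ⟨x, rfl⟩ := hφ y
        exact congrFun h4 x
      have h5 := hMIN n (by omega) F (fun x => X (φ x)) h2 h3
      simp only [map_one] at h5
      rw [hB]
      apply inv_anti₀
      · exact pow_pos hpos 2
      · exact pow_le_pow_left₀ hpos.le h5 2
  calc ∑ X ∈ irrF (PS n F), (‖X 1‖ ^ 2)⁻¹
      ≤ ∑ X ∈ irrF (PS n F), ((if X = (fun _ => 1) then (1 : ℝ) else 0) + B) :=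
        Finset.sum_le_sum hterm
    _ = (∑ X ∈ irrF (PS n F), (if X = (fun _ => 1) then (1 : ℝ) else 0)) +
        (irrF (PS n F)).card * B := by
        rw [Finset.sum_add_distrib, Finset.sum_const, nsmul_eq_mul]
    _ ≤ 1 + (4 * q ^ (n + 1)) * B := by
        refine add_le_add ?_ (mul_le_mul_of_nonneg_right ?_ hB0)
        · rw [Finset.sum_ite_eq' (irrF (PS n F)) (fun _ => (1 : ℂ)) (fun _ => (1 : ℝ))]
          split_ifs <;> norm_num
        · have h6 := (hIRC (PS n F)).trans (hKP F n)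
          rw [hq]
          exact_mod_cast h6
    _ ≤ 2 := by
        have := zep_num q hq2 n hn
        rw [hB]
        linarith

end SRJ
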