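import Pool.Agent.FL0.AllC
import Pool.Agent.FL0.All
import Pool.Agent.FLW.All
import Pool.Agent.FLN.All
import Pool.Agent.RSF.Fin1
import Pool.Agent.SRJ.AUL
import Pool.Agent.SRJ.BIL
import Pool.Agent.SRJ.CKV
import Pool.Agent.SRJ.CLQ
import Pool.Agent.SRJ.CNA
import Pool.Agent.SRJ.CNB
import Pool.Agent.SRJ.COR
import Pool.Agent.SRJ.CYC
import Pool.Agent.SRJ.DIV
import Pool.Agent.SRJ.DS
import Pool.Agent.SRJ.DSG
import Pool.Agent.SRJ.DSM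
import Pool.Agent.SRJ.DT
import Pool.Agent.SRJ.DVT
import Pool.Agent.SRJ.DZ
import Pool.Agent.SRJ.FLB
import Pool.Agent.SRJ.FLG
import Pool.Agent.SRJ.FRR
import Pool.Agent.SRJ.FXT
import Pool.Agent.SRJ.GEN
import Pool.Agent.SRJ.GNA
import Pool.Agent.SRJ.GNB
import Pool.Agent.SRJ.GNE
import Pool.Agent.SRJ.GNR
import Pool.Agent.SRJ.GTV
import Pool.Agent.SRJ.HMF
import Pool.Agent.SRJ.HOM
import Pool.Agent.SRJ.INC
import Pool.Agent.SRJ.LRG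
import Pool.Agent.SRJ.LTP
import Pool.Agent.SRJ.LTS
import Pool.Agent.SRJ.MAU
import Pool.Agent.SRJ.MIN
import Pool.Agent.SRJ.MRB
import Pool.Agent.SRJ.MUB
import Pool.Agent.SRJ.PHC
import Pool.Agent.SRJ.PHI
import Pool.Agent.SRJ.PVL
import Pool.Agent.SRJ.PWC
import Pool.Agent.SRJ.REX
import Pool.Agent.SRJ.RKC
import Pool.Agent.SRJ.RLT
import Pool.Agent.SRJ.SBS
import Pool.Agent.SRJ.SEC
import Pool.Agent.SRJ.SML
import Pool.Agent.SRJ.STS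
import Pool.Agent.SRJ.STZ
import Pool.Agent.SRJ.TRN
import Pool.Agent.SRJ.TVA
import Pool.Agent.SRJ.TVB
import Pool.Agent.SRJ.TVO
import Pool.Agent.SRJ.ZEP

/-!
# Surjectivity of random homomorphisms to `PSL_n(q)` for groups with many periods: assembly of the
parts used in both versions of the theorem
-/

namespace SRJ

open RSF FL0

/-! ### character bounds -/

theorem a_MUB : S_MUB := t_MUB FLC.t_MN FLC.a_XMC
theorem a_RKC : S_RKC := t_RKC f_PI f_SUB a_MUB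
theorem a_BIL : S_BIL := t_BIL FLC.a_NRU a_MUB
theorem a_FLB : S_FLB := t_FLB FLC.t_DIM FLC.t_INJ FLC.a_LOW FLC.a_XMC FLC.a_STR FLC.t_FLN
theorem a_AUL : S_AUL := t_AUL f_PI
theorem a_CLQ : S_CLQ := t_CLQ t_HMF a_AUL f_JL
theorem a_SBS : S_SBS := t_SBS FLC.a_STR FLC.a_FL t_ROT a_EVS a_ABS t_POL
theorem a_LTS : S_LTS := t_LTS FLC.a_LIN FLC.a_ZET t_PVL
theorem a_LTP : S_LTP := t_LTP t_LFT a_LFH a_LTS
theorem a_FRR : S_FRR := t_FRR t_PHC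
theorem a_REX : S_REX := t_REX FLC.a_XMC
theorem a_MRB : S_MRB := t_MRB f_PI FLC.a_STR FLC.a_ZET FLC.a_LIN a_FLB a_MUB a_RKC t_PHC a_FRR a_REX

/-! ### total variation -/

theorem a_RLT : S_RLT := t_RLT FLW.t_COM FLW.a_CON t_PVL
theorem a_ZEP : S_ZEP := t_ZEP t_MIN FLC.t_IRC f_KP
theorem a_TVB : S_TVB := t_TVB a_RLT FLW.t_HO
theorem a_TVA : S_TVA := t_TVA t_CNT FLN.t_HO
theorem a_TVO : S_TVO := t_TVO t_CNT t_HO0

/-! ### generation by two random elements -/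

theorem a_SEC : S_SEC := t_SEC t_PVL
theorem a_PWC : S_PWC := t_PWC t_CKV t_CYC
theorem a_DIV : S_DIV := t_DIV t_FLG
theorem a_DVT : S_DVT := t_DVT f_PI
theorem a_SML : S_SML := t_SML a_DIV a_DVT
theorem a_LRG : S_LRG := t_LRG a_DIV t_CNA t_CNB
theorem a_DS : S_DS := t_DS t_PHI t_FXT t_GNE t_DSG
theorem a_DZ : S_DZ := t_DZ t_PHI t_FXT t_GNE t_DSG
theorem a_DT : S_DT := t_DT t_PHI t_FXT t_GNE t_DSG
theorem a_TRN : S_TRN := t_TRN t_STS t_STZ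
theorem a_GTV : S_GTV := t_GTV t_STZ t_GNE
theorem a_HOM : S_HOM := t_HOM t_STZ t_INC
theorem a_GNR : S_GNR := t_GNR a_SEC t_COR t_MIN a_PWC a_DS a_DZ a_DT a_TRN a_GTV a_HOM
theorem a_GNA : S_GNA := t_GNA a_GNR a_SML a_LRG
theorem a_GNB : S_GNB := t_GNB a_GNR a_LRG
theorem a_GEN : S_GEN := t_GEN a_GNA a_GNB

end SRJ
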