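import Mathlib
import Pool.Agent.SRJ.StB
import Pool.Agent.RSF.CR

set_option autoImplicit false

/-!
# Elements whose characteristic polynomial is not good
-/

namespace SRJ

open RSF FL0 Polynomial Pool.Agent.Lib_helper13

noncomputable section

/-! ## Union bounds -/

/-- the number of the elements with a property -/
def lrg_num {G : Type} (P : G → Prop) : ℝ := (Nat.card {y : G // P y} : ℝ)

theorem lrg_num_nonneg {G : Type} (P : G → Prop) : 0 ≤ lrg_num P := Nat.cast_nonneg _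

theorem lrg_num_mono {G : Type} [Finite G] {P Q : G → Prop} (h : ∀ y, P y → Q y) :
    lrg_num P ≤ lrg_num Q := by
  unfold lrg_num
  exact_mod_cast Nat.card_le_card_of_injective (fun y : {y : G // P y} => (⟨y.1, h y.1 y.2⟩ :
    {y : G // Q y})) (fun a b hab => Subtype.ext (congrArg (fun z => z.1) hab))

theorem lrg_num_or {G : Type} [Finite G] (P Q : G → Prop) :
    lrg_num (fun y => P y ∨ Q y) ≤ lrg_num P + lrg_num Q := by
  classical
  have := Fintype.ofFinite G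
  unfold lrg_num
  simp only [Nat.card_eq_fintype_card, Fintype.card_subtype]
  rw [Finset.filter_or]
  exact_mod_cast Finset.card_union_le _ _

theorem lrg_num_fin {G ι : Type} [Finite G] (s : Finset ι) (P : ι → G → Prop) :
    lrg_num (fun y => ∃ i ∈ s, P i y) ≤ ∑ i ∈ s, lrg_num (P i) := by
  classical
  have := Fintype.ofFinite G
  unfold lrg_num
  simp only [Nat.card_eq_fintype_card, Fintype.card_subtype]
  have h1 : (Finset.univ.filter fun y : G => ∃ i ∈ s, P i y) ⊆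
      s.biUnion fun i => Finset.univ.filter fun y : G => P i y := by
    intro y hy
    simp only [Finset.mem_filter, Finset.mem_univ, true_and, Finset.mem_biUnion] at hy ⊢
    exact hy
  have h2 := (Finset.card_le_card h1).trans Finset.card_biUnion_le
  exact_mod_cast h2

theorem lrg_num_type {G ι : Type} [Finite G] [Finite ι] (P : ι → G → Prop) (b : ℝ)
    (hb : ∀ i, lrg_num (P i) ≤ b) :
    lrg_num (fun y => ∃ i, P i y) ≤ Nat.card ι * b := by
  classical
  have := Fintype.ofFinite ι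
  have h1 := lrg_num_fin (Finset.univ : Finset ι) P
  have h2 : lrg_num (fun y => ∃ i, P i y) ≤ lrg_num (fun y => ∃ i ∈ (Finset.univ : Finset ι), P i y) :=
    lrg_num_mono fun y ⟨i, hi⟩ => ⟨i, Finset.mem_univ i, hi⟩
  refine h2.trans (h1.trans ((Finset.sum_le_sum fun i _ => hb i).trans ?_))
  rw [Finset.sum_const, nsmul_eq_mul, Finset.card_univ, Nat.card_eq_fintype_card]

/-! ## The number `s = q ^ (-1/2)` -/

theorem lrg_s (q : ℕ) (hq : 2 ≤ q) : ∃ s : ℝ, 0 < s ∧ s ≤ 3 / 4 ∧ (q : ℝ) * s ^ 2 = 1 ∧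
    (∀ d : ℕ, (q : ℝ) ^ ((d : ℝ) / 2) * s ^ d = 1) ∧
    ∀ M : ℕ, (q : ℝ) ^ (-(M : ℝ) / 2) = s ^ M := by
  have hq0 : (0 : ℝ) < q := by positivity
  have hs0 : (0 : ℝ) < (q : ℝ) ^ (-(1 / 2 : ℝ)) := Real.rpow_pos_of_pos hq0 _
  have h2 : (q : ℝ) * ((q : ℝ) ^ (-(1 / 2 : ℝ))) ^ 2 = 1 := by
    rw [← Real.rpow_natCast, ← Real.rpow_mul hq0.le]
    norm_num
    rw [Real.rpow_neg_one]
    field_simp
  have h3 : ∀ M : ℕ, (q : ℝ) ^ (-(M : ℝ) / 2) = ((q : ℝ) ^ (-(1 / 2 : ℝ))) ^ M := by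
    intro M
    rw [← Real.rpow_natCast, ← Real.rpow_mul hq0.le]
    congr 1
    ring
  refine ⟨(q : ℝ) ^ (-(1 / 2 : ℝ)), hs0, ?_, h2, ?_, h3⟩
  · have h4 : (2 : ℝ) ≤ q := by exact_mod_cast hq
    by_contra hcon
    push Not at hcon
    nlinarith
  · intro d
    rw [← h3 d, ← Real.rpow_add hq0]
    rw [show (d : ℝ) / 2 + -(d : ℝ) / 2 = 0 by ring, Real.rpow_zero]

theorem lrg_geom (s : ℝ) (hs0 : 0 < s) (hs : s ≤ 3 / 4) (k : ℕ) :
    ∑ i ∈ Finset.range k, s ^ i ≤ 4 := by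
  have h1 := mul_neg_geom_sum s k
  have h2 : 0 < s ^ k := pow_pos hs0 k
  have h3 : 0 ≤ ∑ i ∈ Finset.range k, s ^ i := Finset.sum_nonneg fun i _ => (pow_pos hs0 i).le
  nlinarith

theorem lrg_geom' (s : ℝ) (hs0 : 0 < s) (hs : s ≤ 3 / 4) (a b : ℕ) :
    ∑ d ∈ Finset.Ico a b, s ^ (d - a) ≤ 4 := by
  rw [Finset.sum_Ico_eq_sum_range]
  refine le_trans (le_of_eq ?_) (lrg_geom s hs0 hs (b - a))
  refine Finset.sum_congr rfl fun i _ => ?_
  rw [Nat.add_sub_cancel_left]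

theorem lrg_sum_k (m : ℕ) : ∑ k ∈ Finset.Ico 1 m, (k : ℝ) ≤ (m : ℝ) ^ 2 := by
  have h1 : ∑ k ∈ Finset.Ico 1 m, (k : ℝ) ≤ ∑ k ∈ Finset.Ico 1 m, (m : ℝ) := by
    refine Finset.sum_le_sum fun k hk => ?_
    have := (Finset.mem_Ico.1 hk).2.le
    exact_mod_cast this
  refine h1.trans ?_
  rw [Finset.sum_const, nsmul_eq_mul, Nat.card_Ico]
  have h2 : ((m - 1 : ℕ) : ℝ) ≤ m := by exact_mod_cast Nat.sub_le _ _
  nlinarith [(Nat.cast_nonneg m : (0 : ℝ) ≤ m)]

/-! ## The number of the elements whose characteristic polynomial is divisible by a given polynomial -/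

/-- the weight of the degree `t` -/
def lrg_W (s : ℝ) (n t : ℕ) : ℝ := if t < n then s ^ (2 * t) else s ^ (2 * n - 2)

theorem lrg_W_pos (s : ℝ) (hs : 0 < s) (n t : ℕ) : 0 < lrg_W s n t := by
  unfold lrg_W
  split_ifs <;> positivity

theorem lrg_gen (q : ℕ) (s A N : ℝ) (hs0 : 0 < s) (hs : (q : ℝ) * s ^ 2 = 1) (hN : 0 ≤ N)
    (t n : ℕ) (ht : 1 ≤ t) (htn : t ≤ n)
    (h : A * (q : ℝ) ^ t ≤ 4 * (if t < n then 1 else (q : ℝ)) * N) :
    A ≤ 4 * N * lrg_W s n t := by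
  have h1 : (q : ℝ) ^ t * s ^ (2 * t) = 1 := by
    rw [pow_mul, ← mul_pow, hs, one_pow]
  have h2 : 0 < s ^ (2 * t) := by positivity
  have h3 : A = A * (q : ℝ) ^ t * s ^ (2 * t) := by rw [mul_assoc, h1, mul_one]
  rw [h3]
  refine (mul_le_mul_of_nonneg_right h h2.le).trans ?_
  unfold lrg_W
  split_ifs with hc
  · apply le_of_eq; ring
  · have htn' : t = n := by omega
    subst htn'
    have h4 : s ^ (2 * t) = s ^ (2 * t - 2) * s ^ 2 := by
      rw [← pow_add]; congr 1; omega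
    rw [h4]
    apply le_of_eq
    calc 4 * (q : ℝ) * N * (s ^ (2 * t - 2) * s ^ 2) = 4 * N * s ^ (2 * t - 2) * ((q : ℝ) * s ^ 2) := by
          ring
      _ = 4 * N * s ^ (2 * t - 2) := by rw [hs, mul_one]

theorem lrg_q (F : Type) [Field F] [Finite F] : 2 ≤ Nat.card F := by
  have : 1 < Nat.card F := Finite.one_lt_card
  omega

theorem lrg_pow2 (q d : ℕ) (hq : 2 ≤ q) (hd : 1 ≤ d) : (q : ℝ) ^ d ≤ 2 * ((q ^ d - 1 : ℕ) : ℝ) := by
  have h1 : 2 ≤ q ^ d := hq.trans (Nat.le_self_pow (by omega) q)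
  have h2 : q ^ d ≤ 2 * (q ^ d - 1) := by omega
  exact_mod_cast h2

theorem lrg_ite (q t n : ℕ) (N : ℕ) :
    (((if t < n then 1 else q - 1) * N : ℕ) : ℝ) ≤ (if t < n then 1 else (q : ℝ)) * N := by
  split_ifs with h
  · simp
  · push_cast
    refine mul_le_mul_of_nonneg_right ?_ (Nat.cast_nonneg _)
    exact_mod_cast Nat.sub_le q 1

theorem lrg_one (hDIV : S_DIV) (F : Type) [Field F] [Finite F] (s : ℝ) (hs0 : 0 < s)
    (hs : (Nat.card F : ℝ) * s ^ 2 = 1) (p : F[X]) (hp : p.Monic) (hpi : Irreducible p)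
    (hpX : p ≠ X) (n : ℕ) (hn : p.natDegree ≤ n) :
    lrg_num (fun y : SL n F => p ∣ y.1.charpoly) ≤
      4 * Nat.card (SL n F) * lrg_W s n p.natDegree := by
  have h := hDIV F [p] (by
    intro r hr
    rw [List.mem_singleton] at hr
    subst hr
    exact ⟨hp, hpi, hpX⟩) n (by simpa using hn)
  simp only [List.prod_cons, List.prod_nil, mul_one, List.map_cons, List.map_nil] at h
  have hd : 1 ≤ p.natDegree := hpi.natDegree_pos
  have hq := lrg_q F
  refine lrg_gen (Nat.card F) s _ _ hs0 hs (Nat.cast_nonneg _) p.natDegree n hd hn ?_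
  have h1 : (((Nat.card {y : SL n F // p ∣ y.1.charpoly} *
    (Nat.card F ^ p.natDegree - 1) : ℕ)) : ℝ) ≤
      (if p.natDegree < n then 1 else (Nat.card F : ℝ)) * Nat.card (SL n F) :=
    le_trans (by exact_mod_cast h) (lrg_ite (Nat.card F) p.natDegree n (Nat.card (SL n F)))
  rw [Nat.cast_mul] at h1
  have h2 := lrg_pow2 (Nat.card F) p.natDegree hq hd
  have h3 : 0 ≤ lrg_num (fun y : SL n F => p ∣ y.1.charpoly) := lrg_num_nonneg _
  have h4 : 0 ≤ (if p.natDegree < n then 1 else (Nat.card F : ℝ)) * Nat.card (SL n F) := by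
    split_ifs <;> positivity
  calc lrg_num (fun y : SL n F => p ∣ y.1.charpoly) * (Nat.card F : ℝ) ^ p.natDegree
      ≤ lrg_num (fun y : SL n F => p ∣ y.1.charpoly) *
        (2 * ((Nat.card F ^ p.natDegree - 1 : ℕ) : ℝ)) := mul_le_mul_of_nonneg_left h2 h3
    _ = 2 * (lrg_num (fun y : SL n F => p ∣ y.1.charpoly) *
        ((Nat.card F ^ p.natDegree - 1 : ℕ) : ℝ)) := by ring
    _ ≤ 2 * ((if p.natDegree < n then 1 else (Nat.card F : ℝ)) * Nat.card (SL n F)) :=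
        mul_le_mul_of_nonneg_left h1 (by norm_num)
    _ ≤ 4 * (if p.natDegree < n then 1 else (Nat.card F : ℝ)) * Nat.card (SL n F) := by
        linarith

theorem lrg_two (hDIV : S_DIV) (F : Type) [Field F] [Finite F] (s : ℝ) (hs0 : 0 < s)
    (hs : (Nat.card F : ℝ) * s ^ 2 = 1) (p p' : F[X]) (hp : p.Monic) (hpi : Irreducible p)
    (hpX : p ≠ X) (hp' : p'.Monic) (hpi' : Irreducible p')
    (hpX' : p' ≠ X) (n : ℕ) (hn : p.natDegree + p'.natDegree ≤ n) :
    lrg_num (fun y : SL n F => p * p' ∣ y.1.charpoly) ≤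
      4 * Nat.card (SL n F) * lrg_W s n (p.natDegree + p'.natDegree) := by
  have hdd : (p * p').natDegree = p.natDegree + p'.natDegree := hp.natDegree_mul hp'
  have h := hDIV F [p, p'] (by
    intro r hr
    rw [List.mem_cons, List.mem_singleton] at hr
    rcases hr with hr | hr
    · subst hr
      exact ⟨hp, hpi, hpX⟩
    · subst hr
      exact ⟨hp', hpi', hpX'⟩) n (by simpa [hdd] using hn)
  simp only [List.prod_cons, List.prod_nil, mul_one, List.map_cons, List.map_nil, hdd] at h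
  have hd : 1 ≤ p.natDegree := hpi.natDegree_pos
  have hd' : 1 ≤ p'.natDegree := hpi'.natDegree_pos
  have hq := lrg_q F
  refine lrg_gen (Nat.card F) s _ _ hs0 hs (Nat.cast_nonneg _) _ n (by omega) hn ?_
  have h1 : (((Nat.card {y : SL n F // p * p' ∣ y.1.charpoly} *
    ((Nat.card F ^ p.natDegree - 1) * (Nat.card F ^ p'.natDegree - 1)) : ℕ)) : ℝ) ≤
      (if p.natDegree + p'.natDegree < n then 1 else (Nat.card F : ℝ)) * Nat.card (SL n F) :=
    le_trans (by exact_mod_cast h)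
      (lrg_ite (Nat.card F) (p.natDegree + p'.natDegree) n (Nat.card (SL n F)))
  rw [Nat.cast_mul, Nat.cast_mul] at h1
  have h2 := lrg_pow2 (Nat.card F) p.natDegree hq hd
  have h2' := lrg_pow2 (Nat.card F) p'.natDegree hq hd'
  have h3 : 0 ≤ lrg_num (fun y : SL n F => p * p' ∣ y.1.charpoly) := lrg_num_nonneg _
  have h5 : (Nat.card F : ℝ) ^ (p.natDegree + p'.natDegree) ≤
      4 * (((Nat.card F ^ p.natDegree - 1 : ℕ) : ℝ) * ((Nat.card F ^ p'.natDegree - 1 : ℕ) : ℝ)) := by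
    rw [pow_add]
    calc (Nat.card F : ℝ) ^ p.natDegree * (Nat.card F : ℝ) ^ p'.natDegree
        ≤ (2 * ((Nat.card F ^ p.natDegree - 1 : ℕ) : ℝ)) *
          (2 * ((Nat.card F ^ p'.natDegree - 1 : ℕ) : ℝ)) :=
          mul_le_mul h2 h2' (by positivity) (by positivity)
      _ = _ := by ring
  calc lrg_num (fun y : SL n F => p * p' ∣ y.1.charpoly) *
        (Nat.card F : ℝ) ^ (p.natDegree + p'.natDegree)
      ≤ lrg_num (fun y : SL n F => p * p' ∣ y.1.charpoly) *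
        (4 * (((Nat.card F ^ p.natDegree - 1 : ℕ) : ℝ) *
          ((Nat.card F ^ p'.natDegree - 1 : ℕ) : ℝ))) := mul_le_mul_of_nonneg_left h5 h3
    _ = 4 * (lrg_num (fun y : SL n F => p * p' ∣ y.1.charpoly) *
        (((Nat.card F ^ p.natDegree - 1 : ℕ) : ℝ) *
          ((Nat.card F ^ p'.natDegree - 1 : ℕ) : ℝ))) := by ring
    _ ≤ 4 * ((if p.natDegree + p'.natDegree < n then 1 else (Nat.card F : ℝ)) *
        Nat.card (SL n F)) := mul_le_mul_of_nonneg_left h1 (by norm_num)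
    _ = 4 * (if p.natDegree + p'.natDegree < n then 1 else (Nat.card F : ℝ)) *
        Nat.card (SL n F) := by ring

/-! ## The three cases -/

/-- a repeated factor -/
def lrg_A (D d : ℕ) {n : ℕ} {F : Type} [Field F] (y : SL n F) : Prop :=
  ∃ p : {p : F[X] // p.Monic ∧ Irreducible p ∧ p.natDegree = d}, p.1 ≠ X ∧ 2 * d ≤ n ∧ D < d ∧
    p.1 * p.1 ∣ y.1.charpoly

/-- a factor with two roots with equal powers -/
def lrg_B (D k d : ℕ) {n : ℕ} {F : Type} [Field F] (y : SL n F) : Prop :=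
  ∃ p : {p : F[X] // p.Monic ∧ Irreducible p ∧ p.natDegree = d ∧
      ∃ α β : AlgebraicClosure F, aeval α p = 0 ∧ aeval β p = 0 ∧ α ≠ β ∧ α ^ k = β ^ k},
    p.1 ≠ X ∧ D < d ∧ p.1 ∣ y.1.charpoly

/-- two factors with roots with equal powers -/
def lrg_C (D k d d' : ℕ) {n : ℕ} {F : Type} [Field F] (y : SL n F) : Prop :=
  ∃ p : {p : F[X] × F[X] // p.1.Monic ∧ Irreducible p.1 ∧ p.1.natDegree = d ∧
      p.2.Monic ∧ Irreducible p.2 ∧ p.2.natDegree = d' ∧
      ∃ α β : AlgebraicClosure F, aeval α p.1 = 0 ∧ aeval β p.2 = 0 ∧ α ^ k = β ^ k},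
    p.1.1 ≠ X ∧ p.1.2 ≠ X ∧ D < d' ∧ d' ≤ d ∧ d + d' ≤ n ∧ p.1.1 * p.1.2 ∣ y.1.charpoly

theorem lrg_charpoly_X {n : ℕ} {F : Type} [Field F] (y : SL n F) : ¬ X ∣ y.1.charpoly := by
  intro h
  rw [X_dvd_iff] at h
  have h1 := Matrix.det_eq_sign_charpoly_coeff y.1
  rw [h, mul_zero, y.2] at h1
  exact one_ne_zero h1

theorem lrg_cases (D m : ℕ) {n : ℕ} {F : Type} [Field F] (y : SL n F)
    (h : ¬ Gd D m y.1.charpoly) :
    (∃ d ∈ Finset.Ico (D + 1) (n + 1), lrg_A D d y) ∨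
    ((∃ k ∈ Finset.Ico 1 m, ∃ d ∈ Finset.Ico (max (D + 1) 2) (n + 1), lrg_B D k d y) ∨
    (∃ k ∈ Finset.Ico 1 m, ∃ d' ∈ Finset.Ico (D + 1) (n + 1), ∃ d ∈ Finset.Ico (D + 1) (n + 1),
      lrg_C D k d d' y)) := by
  classical
  set f := y.1.charpoly with hf
  have hfm : f.Monic := Matrix.charpoly_monic _
  have hfd : f.natDegree = n := by
    rw [hf, Matrix.charpoly_natDegree_eq_dim, Fintype.card_fin]
  have hf0 : f ≠ 0 := hfm.ne_zero
  have hX : ∀ p : F[X], p ∣ f → p ≠ X := by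
    rintro p hp rfl
    exact lrg_charpoly_X y hp
  have hdeg : ∀ p : F[X], p ∣ f → p.natDegree ≤ n := by
    intro p hp
    rw [← hfd]
    exact natDegree_le_of_dvd hp hf0
  unfold Gd at h
  rw [not_and_or] at h
  rcases h with h | h
  · left
    push Not at h
    obtain ⟨p, ⟨hpm, hpi, hpf, hpD⟩, hp2⟩ := h
    have h2 : p * p ∣ f := by rw [← pow_two]; exact hp2
    have h3 := hdeg _ h2
    rw [hpm.natDegree_mul hpm] at h3
    refine ⟨p.natDegree, Finset.mem_Ico.2 ⟨by omega, by omega⟩, ⟨p, hpm, hpi, rfl⟩, hX p hpf,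
      by omega, hpD, h2⟩
  · right
    push Not at h
    obtain ⟨p, p', ⟨hpm, hpi, hpf, hpD⟩, ⟨hpm', hpi', hpf', hpD'⟩, α, β, hα, hβ, hne, k, hk1, hkm,
      hk⟩ := h
    by_cases hpp : p = p'
    · left
      subst hpp
      have hd2 : 2 ≤ p.natDegree := by
        by_contra hcon
        have h1 : p.natDegree = 1 := by omega
        have h2 := hpm.eq_X_add_C h1
        rw [h2] at hα hβ
        simp only [map_add, aeval_X, aeval_C] at hα hβ
        exact hne (add_right_cancel (hα.trans hβ.symm))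
      have h3 := hdeg p hpf
      refine ⟨k, Finset.mem_Ico.2 ⟨hk1, hkm⟩, p.natDegree, Finset.mem_Ico.2 ⟨?_, by omega⟩,
        ⟨p, hpm, hpi, rfl, α, β, hα, hβ, hne, hk⟩, hX p hpf, hpD, hpf⟩
      exact max_le (by omega) hd2
    · right
      have hcop : IsCoprime p p' := by
        refine hpi.coprime_iff_not_dvd.2 fun hdvd => hpp ?_
        exact eq_of_monic_of_associated hpm hpm' (hpi.associated_of_dvd hpi' hdvd)
      have hmul : p * p' ∣ f := hcop.mul_dvd hpf hpf'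
      have h3 := hdeg _ hmul
      rw [hpm.natDegree_mul hpm'] at h3
      rcases le_total p'.natDegree p.natDegree with hle | hle
      · exact ⟨k, Finset.mem_Ico.2 ⟨hk1, hkm⟩, p'.natDegree, Finset.mem_Ico.2 ⟨by omega, by omega⟩,
          p.natDegree, Finset.mem_Ico.2 ⟨by omega, by omega⟩,
          ⟨(p, p'), hpm, hpi, rfl, hpm', hpi', rfl, α, β, hα, hβ, hk⟩, hX p hpf, hX p' hpf',
          hpD', hle, h3, hmul⟩
      · exact ⟨k, Finset.mem_Ico.2 ⟨hk1, hkm⟩, p.natDegree, Finset.mem_Ico.2 ⟨by omega, by omega⟩,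
          p'.natDegree, Finset.mem_Ico.2 ⟨by omega, by omega⟩,
          ⟨(p', p), hpm', hpi', rfl, hpm, hpi, rfl, β, α, hβ, hα, hk.symm⟩, hX p' hpf', hX p hpf,
          hpD, hle, by omega, by rw [mul_comm]; exact hmul⟩

theorem lrg_num_false {G : Type} {P : G → Prop} (h : ∀ y, ¬ P y) : lrg_num P = 0 := by
  unfold lrg_num
  have : IsEmpty {y : G // P y} := ⟨fun y => h y.1 y.2⟩
  rw [Nat.card_of_isEmpty, Nat.cast_zero]

theorem lrg_finite (F : Type) [Field F] [Finite F] (d : ℕ) (P : F[X] → Prop)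
    (h : ∀ p, P p → p.natDegree = d) : Finite {p : F[X] // P p} :=
  ((RSF.CR.fin_deg F d).subset fun p hp => (h p hp).le).to_subtype

theorem lrg_finite2 (F : Type) [Field F] [Finite F] (d d' : ℕ) (P : F[X] × F[X] → Prop)
    (h : ∀ p, P p → p.1.natDegree = d ∧ p.2.natDegree = d') : Finite {p : F[X] × F[X] // P p} :=
  (((RSF.CR.fin_deg F d).prod (RSF.CR.fin_deg F d')).subset fun p hp =>
    ⟨(h p hp).1.le, (h p hp).2.le⟩).to_subtype

theorem lrg_qs (q : ℕ) (s : ℝ) (hs : (q : ℝ) * s ^ 2 = 1) (d e : ℕ) (h : 2 * d ≤ e) :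
    (q : ℝ) ^ d * s ^ e = s ^ (e - 2 * d) := by
  have h1 : s ^ e = s ^ (2 * d) * s ^ (e - 2 * d) := by
    rw [← pow_add]; congr 1; omega
  rw [h1, ← mul_assoc, pow_mul, ← mul_pow, hs, one_pow, one_mul]

theorem lrg_boundA (hDIV : S_DIV) (F : Type) [Field F] [Finite F] (s : ℝ) (hs0 : 0 < s)
    (hs1 : s ≤ 1) (hs : (Nat.card F : ℝ) * s ^ 2 = 1) (D n d : ℕ) (hn : 2 * D + 8 ≤ n) :
    lrg_num (fun y : SL n F => lrg_A D d y) ≤ 4 * Nat.card (SL n F) * s ^ (max (D + 1) 2) := by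
  have hR : 0 ≤ 4 * (Nat.card (SL n F) : ℝ) * s ^ (max (D + 1) 2) := by positivity
  by_cases hd : 2 * d ≤ n ∧ D < d
  · obtain ⟨hd1, hd2⟩ := hd
    have hfin : Finite {p : F[X] // p.Monic ∧ Irreducible p ∧ p.natDegree = d} :=
      lrg_finite F d _ fun p hp => hp.2.2
    have h1 := lrg_num_type (G := SL n F)
      (ι := {p : F[X] // p.Monic ∧ Irreducible p ∧ p.natDegree = d})
      (fun p y => p.1 ≠ X ∧ 2 * d ≤ n ∧ D < d ∧ p.1 * p.1 ∣ y.1.charpoly)
      (4 * Nat.card (SL n F) * lrg_W s n (2 * d)) (by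
        rintro ⟨p, hpm, hpi, hpd⟩
        by_cases hpX : p = X
        · rw [lrg_num_false (fun y hy => hy.1 hpX)]
          have := lrg_W_pos s hs0 n (2 * d)
          positivity
        · have h2 := lrg_two hDIV F s hs0 hs p p hpm hpi hpX hpm hpi hpX n (by omega)
          rw [hpd, ← two_mul] at h2
          exact (lrg_num_mono fun y hy => hy.2.2.2).trans h2)
    refine h1.trans ?_
    have h3 : (Nat.card {p : F[X] // p.Monic ∧ Irreducible p ∧ p.natDegree = d} : ℝ) ≤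
        (Nat.card F : ℝ) ^ d := by exact_mod_cast RSF.CR.card_monic F d
    have h4 := lrg_W_pos s hs0 n (2 * d)
    have h5 : (Nat.card F : ℝ) ^ d * lrg_W s n (2 * d) ≤ s ^ (max (D + 1) 2) := by
      unfold lrg_W
      split_ifs with hc
      · rw [lrg_qs _ s hs d _ (by omega)]
        exact pow_le_pow_of_le_one hs0.le hs1 (by omega)
      · rw [lrg_qs _ s hs d _ (by omega)]
        exact pow_le_pow_of_le_one hs0.le hs1 (by omega)
    calc (Nat.card {p : F[X] // p.Monic ∧ Irreducible p ∧ p.natDegree = d} : ℝ) *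
          (4 * Nat.card (SL n F) * lrg_W s n (2 * d))
        ≤ (Nat.card F : ℝ) ^ d * (4 * Nat.card (SL n F) * lrg_W s n (2 * d)) :=
          mul_le_mul_of_nonneg_right h3 (by positivity)
      _ = 4 * Nat.card (SL n F) * ((Nat.card F : ℝ) ^ d * lrg_W s n (2 * d)) := by ring
      _ ≤ 4 * Nat.card (SL n F) * s ^ (max (D + 1) 2) :=
          mul_le_mul_of_nonneg_left h5 (by positivity)
  · rw [lrg_num_false]
    · exact hR
    · rintro y ⟨p, -, h1, h2, -⟩
      exact hd ⟨h1, h2⟩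

theorem lrg_boundB (hDIV : S_DIV) (hCNA : S_CNA) (F : Type) [Field F] [Finite F] (s : ℝ)
    (hs0 : 0 < s) (hs1 : s ≤ 1) (hs : (Nat.card F : ℝ) * s ^ 2 = 1)
    (hsd : ∀ d : ℕ, (Nat.card F : ℝ) ^ ((d : ℝ) / 2) * s ^ d = 1) (D n d k : ℕ)
    (hn : 2 * D + 8 ≤ n) (hd : max (D + 1) 2 ≤ d) (hdn : d ≤ n) (hk : 1 ≤ k) :
    lrg_num (fun y : SL n F => lrg_B D k d y) ≤ 4 * Nat.card (SL n F) * n * k *
      s ^ (max (D + 1) 2) * (s ^ (d - max (D + 1) 2) + if d = n then 1 else 0) := by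
  have hfin : Finite {p : F[X] // p.Monic ∧ Irreducible p ∧ p.natDegree = d ∧
      ∃ α β : AlgebraicClosure F, aeval α p = 0 ∧ aeval β p = 0 ∧ α ≠ β ∧ α ^ k = β ^ k} :=
    lrg_finite F d _ fun p hp => hp.2.2.1
  have h1 := lrg_num_type (G := SL n F)
    (ι := {p : F[X] // p.Monic ∧ Irreducible p ∧ p.natDegree = d ∧
      ∃ α β : AlgebraicClosure F, aeval α p = 0 ∧ aeval β p = 0 ∧ α ≠ β ∧ α ^ k = β ^ k})
    (fun p y => p.1 ≠ X ∧ D < d ∧ p.1 ∣ y.1.charpoly)
    (4 * Nat.card (SL n F) * lrg_W s n d) (by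
      rintro ⟨p, hpm, hpi, hpd, hpe⟩
      by_cases hpX : p = X
      · rw [lrg_num_false (fun y hy => hy.1 hpX)]
        have := lrg_W_pos s hs0 n d
        positivity
      · have h2 := lrg_one hDIV F s hs0 hs p hpm hpi hpX n (by omega)
        rw [hpd] at h2
        exact (lrg_num_mono fun y hy => hy.2.2).trans h2)
  refine h1.trans ?_
  have h3 := hCNA F d k hk (le_trans (le_max_right _ _) hd)
  have h4 := lrg_W_pos s hs0 n d
  have hdn' : (d : ℝ) ≤ n := by exact_mod_cast hdn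
  have h5 : (Nat.card F : ℝ) ^ ((d : ℝ) / 2) * lrg_W s n d ≤
      s ^ (max (D + 1) 2) * (s ^ (d - max (D + 1) 2) + if d = n then 1 else 0) := by
    unfold lrg_W
    split_ifs with hc hc2 hc2
    · omega
    · rw [add_zero, ← pow_add, two_mul, pow_add, ← mul_assoc, hsd, one_mul]
      exact pow_le_pow_of_le_one hs0.le hs1 (by omega)
    · have h6 : s ^ (2 * n - 2) = s ^ d * s ^ (n - 2) := by
        rw [← pow_add]; congr 1; omega
      rw [h6, ← mul_assoc, hsd, one_mul]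
      have h7 : s ^ (n - 2) ≤ s ^ (max (D + 1) 2) :=
        pow_le_pow_of_le_one hs0.le hs1 (by omega)
      have h8 : 0 < s ^ (max (D + 1) 2) := by positivity
      have h9 : 0 < s ^ (d - max (D + 1) 2) := by positivity
      nlinarith
    · omega
  have h10 : (0 : ℝ) ≤ (Nat.card F : ℝ) ^ ((d : ℝ) / 2) := by positivity
  calc (Nat.card {p : F[X] // p.Monic ∧ Irreducible p ∧ p.natDegree = d ∧
      ∃ α β : AlgebraicClosure F, aeval α p = 0 ∧ aeval β p = 0 ∧ α ≠ β ∧ α ^ k = β ^ k} : ℝ) *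
        (4 * Nat.card (SL n F) * lrg_W s n d)
      ≤ ((d : ℝ) * k * (Nat.card F : ℝ) ^ ((d : ℝ) / 2)) *
        (4 * Nat.card (SL n F) * lrg_W s n d) := mul_le_mul_of_nonneg_right h3 (by positivity)
    _ ≤ ((n : ℝ) * k * (Nat.card F : ℝ) ^ ((d : ℝ) / 2)) *
        (4 * Nat.card (SL n F) * lrg_W s n d) := by
        refine mul_le_mul_of_nonneg_right ?_ (by positivity)
        refine mul_le_mul_of_nonneg_right ?_ h10
        exact mul_le_mul_of_nonneg_right hdn' (by positivity)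
    _ = 4 * Nat.card (SL n F) * n * k *
        ((Nat.card F : ℝ) ^ ((d : ℝ) / 2) * lrg_W s n d) := by ring
    _ ≤ 4 * Nat.card (SL n F) * n * k * (s ^ (max (D + 1) 2) *
        (s ^ (d - max (D + 1) 2) + if d = n then 1 else 0)) :=
        mul_le_mul_of_nonneg_left h5 (by positivity)
    _ = _ := by ring

theorem lrg_boundC (hDIV : S_DIV) (hCNB : S_CNB) (F : Type) [Field F] [Finite F] (s : ℝ)
    (hs0 : 0 < s) (hs1 : s ≤ 1) (hs : (Nat.card F : ℝ) * s ^ 2 = 1) (D n d d' k : ℕ)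
    (hn : 2 * D + 8 ≤ n) (hk : 1 ≤ k) :
    lrg_num (fun y : SL n F => lrg_C D k d d' y) ≤ 4 * Nat.card (SL n F) * k *
      s ^ (max (D + 1) 2) * s ^ (d - (D + 1)) := by
  have hR : 0 ≤ 4 * (Nat.card (SL n F) : ℝ) * k * s ^ (max (D + 1) 2) * s ^ (d - (D + 1)) := by
    positivity
  by_cases hd : D < d' ∧ d' ≤ d ∧ d + d' ≤ n
  · obtain ⟨hd1, hd2, hd3⟩ := hd
    have hfin : Finite {p : F[X] × F[X] // p.1.Monic ∧ Irreducible p.1 ∧ p.1.natDegree = d ∧
      p.2.Monic ∧ Irreducible p.2 ∧ p.2.natDegree = d' ∧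
      ∃ α β : AlgebraicClosure F, aeval α p.1 = 0 ∧ aeval β p.2 = 0 ∧ α ^ k = β ^ k} :=
      lrg_finite2 F d d' _ fun p hp => ⟨hp.2.2.1, hp.2.2.2.2.2.1⟩
    have h1 := lrg_num_type (G := SL n F)
      (ι := {p : F[X] × F[X] // p.1.Monic ∧ Irreducible p.1 ∧ p.1.natDegree = d ∧
      p.2.Monic ∧ Irreducible p.2 ∧ p.2.natDegree = d' ∧
      ∃ α β : AlgebraicClosure F, aeval α p.1 = 0 ∧ aeval β p.2 = 0 ∧ α ^ k = β ^ k})
      (fun p y => p.1.1 ≠ X ∧ p.1.2 ≠ X ∧ D < d' ∧ d' ≤ d ∧ d + d' ≤ n ∧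
        p.1.1 * p.1.2 ∣ y.1.charpoly)
      (4 * Nat.card (SL n F) * lrg_W s n (d + d')) (by
        rintro ⟨⟨p, p'⟩, hpm, hpi, hpd, hpm', hpi', hpd', hpe⟩
        dsimp only at hpm hpi hpd hpm' hpi' hpd'
        have hpos := lrg_W_pos s hs0 n (d + d')
        by_cases hpX : p = X
        · rw [lrg_num_false (fun y hy => hy.1 hpX)]
          positivity
        by_cases hpX' : p' = X
        · rw [lrg_num_false (fun y hy => hy.2.1 hpX')]
          positivity
        have h2 := lrg_two hDIV F s hs0 hs p p' hpm hpi hpX hpm' hpi' hpX' n (by omega)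
        rw [hpd, hpd'] at h2
        exact (lrg_num_mono fun y hy => hy.2.2.2.2.2).trans h2)
    refine h1.trans ?_
    have h3 : (Nat.card {p : F[X] × F[X] // p.1.Monic ∧ Irreducible p.1 ∧ p.1.natDegree = d ∧
      p.2.Monic ∧ Irreducible p.2 ∧ p.2.natDegree = d' ∧
      ∃ α β : AlgebraicClosure F, aeval α p.1 = 0 ∧ aeval β p.2 = 0 ∧ α ^ k = β ^ k} : ℝ) ≤
        k * (Nat.card F : ℝ) ^ d' := by exact_mod_cast hCNB F d d' k hk (by omega)
    have h4 := lrg_W_pos s hs0 n (d + d')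
    have h5 : (Nat.card F : ℝ) ^ d' * lrg_W s n (d + d') ≤
        s ^ (max (D + 1) 2) * s ^ (d - (D + 1)) := by
      rw [← pow_add]
      unfold lrg_W
      split_ifs with hc
      · rw [lrg_qs _ s hs d' _ (by omega)]
        exact pow_le_pow_of_le_one hs0.le hs1 (by omega)
      · rw [lrg_qs _ s hs d' _ (by omega)]
        exact pow_le_pow_of_le_one hs0.le hs1 (by omega)
    calc (Nat.card {p : F[X] × F[X] // p.1.Monic ∧ Irreducible p.1 ∧ p.1.natDegree = d ∧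
      p.2.Monic ∧ Irreducible p.2 ∧ p.2.natDegree = d' ∧
      ∃ α β : AlgebraicClosure F, aeval α p.1 = 0 ∧ aeval β p.2 = 0 ∧ α ^ k = β ^ k} : ℝ) *
          (4 * Nat.card (SL n F) * lrg_W s n (d + d'))
        ≤ (k * (Nat.card F : ℝ) ^ d') * (4 * Nat.card (SL n F) * lrg_W s n (d + d')) :=
          mul_le_mul_of_nonneg_right h3 (by positivity)
      _ = 4 * Nat.card (SL n F) * k * ((Nat.card F : ℝ) ^ d' * lrg_W s n (d + d')) := by ring
      _ ≤ 4 * Nat.card (SL n F) * k * (s ^ (max (D + 1) 2) * s ^ (d - (D + 1))) :=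
          mul_le_mul_of_nonneg_left h5 (by positivity)
      _ = _ := by ring
  · rw [lrg_num_false]
    · exact hR
    · rintro y ⟨p, -, -, h1, h2, h3, -⟩
      exact hd ⟨h1, h2, h3⟩

theorem t_LRG : M_LRG := by
  intro hDIV hCNA hCNB
  refine ⟨40, by norm_num, ?_⟩
  intro n D m F _ _ hn hm
  obtain ⟨s, hs0, hs34, hs, hsd, hsM⟩ := lrg_s (Nat.card F) (lrg_q F)
  have hs1 : s ≤ 1 := by linarith
  rw [hsM]
  set M := max (D + 1) 2 with hM
  set N : ℝ := (Nat.card (SL n F) : ℝ) with hN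
  have hN0 : 0 ≤ N := Nat.cast_nonneg _
  have hsM0 : 0 < s ^ M := by positivity
  have hm1 : (1 : ℝ) ≤ (m : ℝ) := by exact_mod_cast hm
  have hm2 : (1 : ℝ) ≤ (m : ℝ) ^ 2 := by nlinarith
  have hn0 : (0 : ℝ) ≤ (n : ℝ) := Nat.cast_nonneg _
  -- the cases
  have h0 : (Nat.card {y : SL n F // ¬ Gd D m y.1.charpoly} : ℝ) ≤
      lrg_num (fun y : SL n F => ∃ d ∈ Finset.Ico (D + 1) (n + 1), lrg_A D d y) +
      (lrg_num (fun y : SL n F => ∃ k ∈ Finset.Ico 1 m, ∃ d ∈ Finset.Ico M (n + 1), lrg_B D k d y) +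
       lrg_num (fun y : SL n F => ∃ k ∈ Finset.Ico 1 m, ∃ d' ∈ Finset.Ico (D + 1) (n + 1),
        ∃ d ∈ Finset.Ico (D + 1) (n + 1), lrg_C D k d d' y)) := by
    refine (lrg_num_mono (P := fun y : SL n F => ¬ Gd D m y.1.charpoly)
      fun y hy => lrg_cases D m y hy).trans ?_
    refine (lrg_num_or _ _).trans ?_
    exact add_le_add le_rfl (lrg_num_or _ _)
  have hcard : ((Finset.Ico (D + 1) (n + 1)).card : ℝ) ≤ n := by
    rw [Nat.card_Ico]
    exact_mod_cast (by omega : n + 1 - (D + 1) ≤ n)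
  have hA : lrg_num (fun y : SL n F => ∃ d ∈ Finset.Ico (D + 1) (n + 1), lrg_A D d y) ≤
      n * (4 * N * s ^ M) := by
    refine (lrg_num_fin _ _).trans ((Finset.sum_le_sum fun d _ =>
      lrg_boundA hDIV F s hs0 hs1 hs D n d hn).trans ?_)
    rw [Finset.sum_const, nsmul_eq_mul]
    exact mul_le_mul_of_nonneg_right hcard (by positivity)
  have hB : lrg_num (fun y : SL n F => ∃ k ∈ Finset.Ico 1 m, ∃ d ∈ Finset.Ico M (n + 1),
      lrg_B D k d y) ≤ 20 * N * n * s ^ M * (m : ℝ) ^ 2 := by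
    refine (lrg_num_fin _ _).trans ?_
    have h1 : ∀ k ∈ Finset.Ico 1 m,
        lrg_num (fun y : SL n F => ∃ d ∈ Finset.Ico M (n + 1), lrg_B D k d y) ≤
          20 * N * n * s ^ M * k := by
      intro k hk
      have hk1 := (Finset.mem_Ico.1 hk).1
      refine (lrg_num_fin _ _).trans ((Finset.sum_le_sum fun d hd =>
        lrg_boundB hDIV hCNA F s hs0 hs1 hs hsd D n d k hn (Finset.mem_Ico.1 hd).1
          (Nat.lt_succ_iff.1 (Finset.mem_Ico.1 hd).2) hk1).trans ?_)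
      rw [← Finset.mul_sum, Finset.sum_add_distrib]
      have h2 := lrg_geom' s hs0 hs34 M (n + 1)
      have h3 : ∑ d ∈ Finset.Ico M (n + 1), (if d = n then (1 : ℝ) else 0) ≤ 1 := by
        rw [Finset.sum_ite_eq']
        split_ifs <;> norm_num
      calc 4 * (Nat.card (SL n F) : ℝ) * n * k * s ^ M *
            (∑ d ∈ Finset.Ico M (n + 1), s ^ (d - M) +
              ∑ d ∈ Finset.Ico M (n + 1), (if d = n then (1 : ℝ) else 0))
          ≤ 4 * (Nat.card (SL n F) : ℝ) * n * k * s ^ M * (4 + 1) :=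
            mul_le_mul_of_nonneg_left (add_le_add h2 h3) (by positivity)
        _ = 20 * N * n * s ^ M * k := by rw [hN]; ring
    refine (Finset.sum_le_sum h1).trans ?_
    rw [← Finset.mul_sum]
    exact mul_le_mul_of_nonneg_left (lrg_sum_k m) (by positivity)
  have hC : lrg_num (fun y : SL n F => ∃ k ∈ Finset.Ico 1 m, ∃ d' ∈ Finset.Ico (D + 1) (n + 1),
        ∃ d ∈ Finset.Ico (D + 1) (n + 1), lrg_C D k d d' y) ≤
      16 * N * n * s ^ M * (m : ℝ) ^ 2 := by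
    refine (lrg_num_fin _ _).trans ?_
    have h1 : ∀ k ∈ Finset.Ico 1 m,
        lrg_num (fun y : SL n F => ∃ d' ∈ Finset.Ico (D + 1) (n + 1),
          ∃ d ∈ Finset.Ico (D + 1) (n + 1), lrg_C D k d d' y) ≤
          16 * N * n * s ^ M * k := by
      intro k hk
      have hk1 := (Finset.mem_Ico.1 hk).1
      have h2 : ∀ d' ∈ Finset.Ico (D + 1) (n + 1),
          lrg_num (fun y : SL n F => ∃ d ∈ Finset.Ico (D + 1) (n + 1), lrg_C D k d d' y) ≤
            4 * N * k * s ^ M * 4 := by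
        intro d' _
        refine (lrg_num_fin _ _).trans ((Finset.sum_le_sum fun d _ =>
          lrg_boundC hDIV hCNB F s hs0 hs1 hs D n d d' k hn hk1).trans ?_)
        rw [← Finset.mul_sum]
        exact mul_le_mul_of_nonneg_left (lrg_geom' s hs0 hs34 (D + 1) (n + 1)) (by positivity)
      refine (lrg_num_fin _ _).trans ((Finset.sum_le_sum h2).trans ?_)
      rw [Finset.sum_const, nsmul_eq_mul]
      calc ((Finset.Ico (D + 1) (n + 1)).card : ℝ) * (4 * N * k * s ^ M * 4)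
          ≤ n * (4 * N * k * s ^ M * 4) := mul_le_mul_of_nonneg_right hcard (by positivity)
        _ = 16 * N * n * s ^ M * k := by ring
    refine (Finset.sum_le_sum h1).trans ?_
    rw [← Finset.mul_sum]
    exact mul_le_mul_of_nonneg_left (lrg_sum_k m) (by positivity)
  have hX : 0 ≤ N * n * s ^ M := by positivity
  have hY : N * n * s ^ M ≤ N * n * s ^ M * (m : ℝ) ^ 2 := le_mul_of_one_le_right hX hm2
  calc (Nat.card {y : SL n F // ¬ Gd D m y.1.charpoly} : ℝ)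
      ≤ n * (4 * N * s ^ M) + (20 * N * n * s ^ M * (m : ℝ) ^ 2 +
        16 * N * n * s ^ M * (m : ℝ) ^ 2) :=
        h0.trans (add_le_add hA (add_le_add hB hC))
    _ = 4 * (N * n * s ^ M) + 36 * (N * n * s ^ M * (m : ℝ) ^ 2) := by ring
    _ ≤ 40 * (N * n * s ^ M * (m : ℝ) ^ 2) := by linarith
    _ = 40 * (m : ℝ) ^ 2 * n * s ^ M * N := by ring

end

end SRJ
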