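import Mathlib
import Pool.Agent.SRJ.StB

/-!
# Module MAIN of project SRJ: the assembly
-/

set_option autoImplicit false

namespace SRJ

open RSF FL0 Polynomial Pool.Agent.Lib_helper13

noncomputable section

lemma main_card_le (n : ℕ) (F : Type) [Field F] [Finite F] :
    Nat.card (PS n F) ≤ (Nat.card F ^ n) ^ n := by
  classical
  haveI : Fintype F := Fintype.ofFinite F
  have h1 : Nat.card (PS n F) ≤ Nat.card (SL n F) := by
    refine Nat.card_le_card_of_surjective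
      (QuotientGroup.mk' (Subgroup.center (SL n F))) ?_
    exact QuotientGroup.mk'_surjective _
  have h2 : Nat.card (SL n F) ≤ Nat.card (Matrix (Fin n) (Fin n) F) :=
    Nat.card_le_card_of_injective (fun A : SL n F => A.1) Subtype.val_injective
  have h3 : Nat.card (Matrix (Fin n) (Fin n) F) = (Nat.card F ^ n) ^ n := by
    unfold Matrix
    simp [Nat.card_pi, Nat.card_fun]
  omega

lemma main_large (K n : ℕ) (F : Type) [Field F] [Finite F] (hK : 1 ≤ K)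
    (h : K ^ K + 1 ≤ Nat.card (PS n F)) : K ≤ Nat.card F ^ n := by
  by_contra hlt
  push Not at hlt
  have hq : 2 ≤ Nat.card F := Finite.one_lt_card
  have h2 : n < Nat.card F ^ n := Nat.lt_pow_self (by omega)
  have h3 : n ≤ K := by omega
  have h4 : (Nat.card F ^ n) ^ n ≤ K ^ K :=
    (Nat.pow_le_pow_left hlt.le n).trans (Nat.pow_le_pow_right hK h3)
  have h5 := main_card_le n F
  omega

lemma main_delta (c : ℝ) (hc : 0 < c) (η : ℝ) (hη : 0 < η) :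
    ∃ K : ℕ, 1 ≤ K ∧ ∀ x : ℕ, K ≤ x → (x : ℝ) ^ (-(c / 2)) ≤ η := by
  have h := tendsto_rpow_neg_atTop (y := c / 2) (by positivity)
  have h2 := (h.comp tendsto_natCast_atTop_atTop).eventually (ge_mem_nhds hη)
  obtain ⟨K, hK⟩ := Filter.eventually_atTop.1 h2
  exact ⟨max K 1, le_max_right _ _, fun x hx => hK x (le_trans (le_max_left _ _) hx)⟩

theorem t_MAIN : M_MAIN := by
  intro hNUX hZEP hTVB hTVA hTVO hGEN m₁ m₂ m₃ hm
  obtain ⟨c₁, r₁, hc₁, -, h₁⟩ := hNUX m₁ (fun k hk => hm k (by simp [hk]))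
  obtain ⟨c₂, r₂, hc₂, -, h₂⟩ := hNUX m₂ (fun k hk => hm k (by simp [hk]))
  obtain ⟨c₃, r₃, hc₃, -, h₃⟩ := hNUX m₃ (fun k hk => hm k (by simp [hk]))
  obtain ⟨rZ, hZ⟩ := hZEP
  obtain ⟨rG, hG⟩ := hGEN
  set c := min c₁ (min c₂ c₃) with hcdef
  have hc : 0 < c := lt_min hc₁ (lt_min hc₂ hc₃)
  have hc1 : c ≤ c₁ := min_le_left _ _
  have hc2 : c ≤ c₂ := (min_le_right _ _).trans (min_le_left _ _)
  have hc3 : c ≤ c₃ := (min_le_right _ _).trans (min_le_right _ _)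
  refine ⟨r₁ + r₂ + r₃ + rZ + rG, fun ε hε => ?_⟩
  obtain ⟨NG, hNG⟩ := hG (ε / 4) (by positivity)
  obtain ⟨K, hK1, hK⟩ := main_delta c hc (min (1 / 8) (ε / 16)) (by positivity)
  refine ⟨NG + K ^ K + 1, fun n hn F _ _ hN hW₁ => ?_⟩
  have hlarge : K ≤ Nat.card F ^ n := main_large K n F hK1 (by omega)
  have hq : 2 ≤ Nat.card F := Finite.one_lt_card
  have hq1 : (1 : ℝ) ≤ (Nat.card F : ℝ) := by exact_mod_cast (by omega : 1 ≤ Nat.card F)
  have hq0 : (0 : ℝ) ≤ (Nat.card F : ℝ) := by linarith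
  set δ : ℝ := ((Nat.card F ^ n : ℕ) : ℝ) ^ (-(c / 2)) with hδ
  have hδle := hK _ hlarge
  have hδ0 : 0 ≤ δ := by positivity
  have hδ8 : δ ≤ 1 / 8 := hδle.trans (min_le_left _ _)
  have hδε : δ ≤ ε / 16 := hδle.trans (min_le_right _ _)
  have hδ2 : δ ^ 2 = (Nat.card F : ℝ) ^ (-c * (n : ℝ)) := by
    rw [hδ, Nat.cast_pow, ← Real.rpow_natCast (_ : ℝ) n, ← Real.rpow_mul hq0,
      ← Real.rpow_natCast _ 2, ← Real.rpow_mul hq0]
    congr 1
    push_cast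
    ring
  have hle : ∀ c' : ℝ, c ≤ c' → (Nat.card F : ℝ) ^ (-c' * (n : ℝ)) ≤ δ ^ 2 := by
    intro c' hc'
    rw [hδ2]
    refine Real.rpow_le_rpow_of_exponent_le hq1 ?_
    have : (0 : ℝ) ≤ (n : ℝ) := Nat.cast_nonneg n
    nlinarith
  have hngp := hNG n (by omega) F (by omega)
  have hV₁ : V2 (PS n F) m₁ ≤ δ ^ 2 := (h₁ n (by omega) F hW₁).trans (hle c₁ hc1)
  haveI : Fintype (PS n F) := Fintype.ofFinite _
  have hZ' := hZ n (by omega) F
  obtain ⟨b1, b2⟩ := hTVB (PS n F) m₁ δ hδ0 hδ8 hZ' hV₁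
  refine ⟨by linarith, by linarith, fun hW₂ => ?_⟩
  have hV₂ : V2 (PS n F) m₂ ≤ δ ^ 2 := (h₂ n (by omega) F hW₂).trans (hle c₂ hc2)
  have a1 := hTVA (PS n F) m₁ m₂ δ hδ0 hδ8 hV₁ hV₂
  refine ⟨by linarith, fun hW₃ => ?_⟩
  have hV₃ : V2 (PS n F) m₃ ≤ δ ^ 2 := (h₃ n (by omega) F hW₃).trans (hle c₃ hc3)
  have o1 := hTVO (PS n F) m₁ m₂ m₃ δ hδ0 hδ8 hV₁ hV₂ hV₃
  linarith

end

end SRJ
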