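import Mathlib
import Pool.Agent.SRJ.StA

/-!
# SRJ: the character bound for elements with a scalar power, all `q`

MP_5b5212_al, module NSB.
-/

set_option autoImplicit false

namespace SRJ

open RSF FL0 Polynomial Pool.Agent.Lib_helper13

noncomputable section

/-- An exponential beats a polynomial. -/
lemma nsb_growth (m : ℕ) (ε : ℝ) (hε : 0 < ε) :
    ∃ r : ℕ, ∀ n : ℕ, r ≤ n →
      4 * ((n : ℝ) + 1) ^ (m + 1) * 4 ^ m ≤ ((2 : ℝ) ^ ((n : ℝ) / 2) / 4) ^ (ε / 2) := by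
  set c : ℝ := (2 : ℝ) ^ (ε / 4) with hc
  have hc1 : 1 < c := Real.one_lt_rpow (by norm_num) (by positivity)
  have hc0 : 0 < c := by linarith
  have h1 := (tendsto_pow_const_div_const_pow_of_one_lt (m + 1) hc1).comp
    (Filter.tendsto_add_atTop_nat 1)
  set δ : ℝ := ((4 : ℝ) ^ (ε / 2))⁻¹ / (4 * 4 ^ m * c) with hδ
  have hδ0 : 0 < δ := by positivity
  have h2 := h1.eventually (gt_mem_nhds hδ0)
  obtain ⟨r, hr⟩ := Filter.eventually_atTop.1 h2
  refine ⟨r, fun n hn => ?_⟩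
  have h3 := hr n hn
  simp only [Function.comp_apply, Nat.cast_add, Nat.cast_one] at h3
  have hcn : 0 < c ^ (n + 1) := by positivity
  rw [div_lt_iff₀ hcn] at h3
  have h4 : ((2 : ℝ) ^ ((n : ℝ) / 2) / 4) ^ (ε / 2) = c ^ n * ((4 : ℝ) ^ (ε / 2))⁻¹ := by
    rw [Real.div_rpow (by positivity) (by norm_num), ← Real.rpow_mul (by norm_num), hc,
      ← Real.rpow_natCast, ← Real.rpow_mul (by norm_num), div_eq_mul_inv]
    congr 2
    ring
  rw [h4]
  calc 4 * ((n : ℝ) + 1) ^ (m + 1) * 4 ^ m = (4 * 4 ^ m) * ((n : ℝ) + 1) ^ (m + 1) := by ring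
    _ ≤ (4 * 4 ^ m) * (δ * c ^ (n + 1)) := by gcongr
    _ = c ^ n * ((4 : ℝ) ^ (ε / 2))⁻¹ := by
        rw [hδ, pow_succ]
        field_simp

/-- The degree of a nonlinear character. -/
lemma nsb_deg (hSTR : FLC.S_STR) (n : ℕ) (F : Type) [Field F] [Fintype F] [DecidableEq F]
    (X : GL (Fin n) F → ℂ) (hX : IsIrr X) (h1 : X 1 ≠ 1) :
    (2 : ℝ) ^ ((n : ℝ) / 2) / 4 ≤ (X 1).re := by
  obtain ⟨ψ, j, -, hj⟩ := hSTR n F
  obtain ⟨ha, -, -, -, he⟩ := hj X hX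
  have hj1 : 1 ≤ j X := by
    rcases Nat.eq_zero_or_pos (j X) with h0 | h0
    · exfalso
      obtain ⟨l, hl⟩ := he h0
      apply h1
      rw [hl]
      simp [FLC.ld]
    · exact h0
  have hq : (2 : ℝ) ≤ Nat.card F := by
    have : 1 < Nat.card F := Finite.one_lt_card
    exact_mod_cast this
  have h2 : (2 : ℝ) ^ ((n : ℝ) / 2) ≤ (Nat.card F : ℝ) ^ ((n : ℝ) * j X / 2) := by
    calc (2 : ℝ) ^ ((n : ℝ) / 2) ≤ (Nat.card F : ℝ) ^ ((n : ℝ) / 2) :=
          Real.rpow_le_rpow (by norm_num) hq (by positivity)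
      _ ≤ (Nat.card F : ℝ) ^ ((n : ℝ) * j X / 2) := by
          apply Real.rpow_le_rpow_of_exponent_le (by linarith)
          have : (1 : ℝ) ≤ j X := by exact_mod_cast hj1
          have hn : (0 : ℝ) ≤ n := Nat.cast_nonneg n
          nlinarith
  linarith

open Classical in
theorem t_NSB : M_NSB := by
  intro hSTR hMUB hBIL hRKC hTSQ hCTM m hm ε hε
  obtain ⟨r1, hr1⟩ := nsb_growth m ε hε
  obtain ⟨r2, hr2⟩ := hTSQ ε hε (2 * m + 1)
  refine ⟨max r1 r2, ?_⟩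
  intro n hn F _ _ _ X hX hX1 A ζ hA
  have hn1 : r1 ≤ n := le_trans (le_max_left _ _) hn
  have hn2 : r2 ≤ n := le_trans (le_max_right _ _) hn
  obtain ⟨ψ, -, hψ, -⟩ := hSTR n F
  have hXc : IsChr X := hX.isChr
  obtain ⟨k, P, hkn, hnk, hkn2, hBD, hcnt⟩ := hCTM m (by omega) n F A ζ hA
  have hXA : X A = X (P * A * P⁻¹) := (hXc.conj_eq P A).symm
  set A' : GL (Fin n) F := P * A * P⁻¹ with hA'
  have hB := hBIL n F ψ hψ k X hXc A' hBD
  have hq : (2 : ℝ) ≤ Nat.card F := by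
    have : 1 < Nat.card F := Finite.one_lt_card
    exact_mod_cast this
  set q : ℝ := (Nat.card F : ℝ) with hqdef
  have hq0 : 0 < q := by linarith
  set D : ℝ := (X 1).re with hD
  have hD2 : (2 : ℝ) ^ ((n : ℝ) / 2) / 4 ≤ D := nsb_deg hSTR n F X hX hX1
  have hDpos : 0 < D := lt_of_lt_of_le (by positivity) hD2
  set E : ℝ := ((cN (A : Matrix (Fin n) (Fin n) F) : ℝ) * q ^ (-((n : ℝ) ^ 2 / m))) ^ (1 / 4 : ℝ)
    with hE
  have hE0 : 0 ≤ E := by positivity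
  have hT := hr2 n hn2 F ψ hψ X hX hX1 k hkn (by omega) hkn2
  -- the bound for one multiplicity
  have hone : ∀ T ∈ cot n F k, (mu ψ k X T).re ≤
      4 * D ^ (3 / 4 + ε / 2) / q ^ (((T.rank : ℝ) * ((n : ℝ) - T.rank)) / 2) := by
    intro T hTc
    have h1 := (hRKC n F ψ hψ k X hkn hXc T hTc).2
    have hrk : T.rank ≤ n := by
      have := Matrix.rank_le_width T
      exact this
    have hs : 0 < q ^ (((T.rank : ℝ) * ((n : ℝ) - T.rank)) / 2) := by positivity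
    rw [le_div_iff₀ hs]
    have h2 : (q ^ (((T.rank : ℝ) * ((n : ℝ) - T.rank)) / 2)) ^ 2 =
        q ^ (T.rank * (n - T.rank)) := by
      rw [← Real.rpow_natCast, ← Real.rpow_mul hq0.le, ← Real.rpow_natCast]
      congr 1
      push_cast [Nat.cast_sub hrk]
      ring
    have h3 : (D ^ (3 / 4 + ε / 2)) ^ 2 = D ^ (3 / 2 + ε) := by
      rw [← Real.rpow_natCast, ← Real.rpow_mul hDpos.le]
      congr 1
      push_cast
      ring
    have h4 : ((mu ψ k X T).re * q ^ (((T.rank : ℝ) * ((n : ℝ) - T.rank)) / 2)) ^ 2 ≤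
        (4 * D ^ (3 / 4 + ε / 2)) ^ 2 := by
      rw [mul_pow, mul_pow, h2, h3]
      calc (mu ψ k X T).re ^ 2 * q ^ (T.rank * (n - T.rank))
          = q ^ (T.rank * (n - T.rank)) * (mu ψ k X T).re ^ 2 := by ring
        _ ≤ 16 * ∑ T' ∈ cot n F k, (mu ψ k X T').re ^ 2 := h1
        _ ≤ 16 * D ^ (3 / 2 + ε) := by
            exact mul_le_mul_of_nonneg_left hT (by norm_num)
        _ = 4 ^ 2 * D ^ (3 / 2 + ε) := by norm_num
    exact le_of_sq_le_sq h4 (by positivity)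
  -- split by the rank
  set S : Finset (Matrix (Fin n) (Fin n) F) := (cot n F k).filter
    (fun T => (A' : Matrix (Fin n) (Fin n) F) * T = T * (A' : Matrix (Fin n) (Fin n) F)) with hS
  have hsplit : ∑ T ∈ S, (mu ψ k X T).re =
      ∑ R ∈ Finset.range (n + 1), ∑ T ∈ S.filter (fun T => T.rank = R), (mu ψ k X T).re := by
    rw [Finset.sum_fiberwise_of_maps_to]
    intro T _
    rw [Finset.mem_range]
    have := Matrix.rank_le_width T
    omega
  have hrank : ∀ R ∈ Finset.range (n + 1),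
      ∑ T ∈ S.filter (fun T => T.rank = R), (mu ψ k X T).re ≤
        ((n : ℝ) + 1) ^ m * 4 ^ m * E * (4 * D ^ (3 / 4 + ε / 2)) := by
    intro R hR
    rw [Finset.mem_range] at hR
    have hR' : (R : ℝ) ≤ n := by exact_mod_cast Nat.lt_succ_iff.1 hR
    have hRn : (0 : ℝ) ≤ (R : ℝ) * ((n : ℝ) - R) :=
      mul_nonneg (Nat.cast_nonneg R) (by linarith)
    have hc := hcnt R
    have hfil : S.filter (fun T => T.rank = R) = (cot n F k).filter (fun T =>
          ((P * A * P⁻¹ : GL (Fin n) F) : Matrix (Fin n) (Fin n) F) * T =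
            T * ((P * A * P⁻¹ : GL (Fin n) F) : Matrix (Fin n) (Fin n) F) ∧ T.rank = R) := by
      rw [hS, Finset.filter_filter]
    have h1 : ∑ T ∈ S.filter (fun T => T.rank = R), (mu ψ k X T).re ≤
        ∑ T ∈ S.filter (fun T => T.rank = R),
          4 * D ^ (3 / 4 + ε / 2) / q ^ (((R : ℝ) * ((n : ℝ) - R)) / 2) := by
      apply Finset.sum_le_sum
      intro T hT'
      rw [Finset.mem_filter, hS, Finset.mem_filter] at hT'
      have := hone T hT'.1.1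
      rw [hT'.2] at this
      exact this
    refine h1.trans ?_
    rw [Finset.sum_const, nsmul_eq_mul]
    have hcard : ((S.filter (fun T => T.rank = R)).card : ℝ) ≤
        ((n : ℝ) + 1) ^ m * 4 ^ m * q ^ ((R : ℝ) * ((n : ℝ) - R) / m) * E := by
      rw [hfil]
      exact hc
    have hpos : 0 ≤ 4 * D ^ (3 / 4 + ε / 2) / q ^ (((R : ℝ) * ((n : ℝ) - R)) / 2) := by positivity
    refine (mul_le_mul_of_nonneg_right hcard hpos).trans ?_
    have hle : q ^ ((R : ℝ) * ((n : ℝ) - R) / m) ≤ q ^ (((R : ℝ) * ((n : ℝ) - R)) / 2) := by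
      apply Real.rpow_le_rpow_of_exponent_le (by linarith)
      apply div_le_div_of_nonneg_left hRn (by norm_num)
      exact_mod_cast hm
    have hs : 0 < q ^ (((R : ℝ) * ((n : ℝ) - R)) / 2) := by positivity
    calc ((n : ℝ) + 1) ^ m * 4 ^ m * q ^ ((R : ℝ) * ((n : ℝ) - R) / m) * E *
          (4 * D ^ (3 / 4 + ε / 2) / q ^ (((R : ℝ) * ((n : ℝ) - R)) / 2))
        ≤ ((n : ℝ) + 1) ^ m * 4 ^ m * q ^ (((R : ℝ) * ((n : ℝ) - R)) / 2) * E *
          (4 * D ^ (3 / 4 + ε / 2) / q ^ (((R : ℝ) * ((n : ℝ) - R)) / 2)) := by gcongr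
      _ = ((n : ℝ) + 1) ^ m * 4 ^ m * E * (4 * D ^ (3 / 4 + ε / 2)) := by
          field_simp
  have hfin : ∑ T ∈ S, (mu ψ k X T).re ≤
      ((n : ℝ) + 1) * (((n : ℝ) + 1) ^ m * 4 ^ m * E * (4 * D ^ (3 / 4 + ε / 2))) := by
    rw [hsplit]
    refine (Finset.sum_le_sum hrank).trans ?_
    rw [Finset.sum_const, Finset.card_range, nsmul_eq_mul]
    push_cast
    exact le_rfl
  have hgr : 4 * ((n : ℝ) + 1) ^ (m + 1) * 4 ^ m ≤ D ^ (ε / 2) :=
    (hr1 n hn1).trans (Real.rpow_le_rpow (by positivity) hD2 (by positivity))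
  rw [hXA]
  refine hB.trans ?_
  have hconv : ∑ T ∈ (cot n F k).filter (fun T => (A' : Matrix (Fin n) (Fin n) F) * T = T * A'),
      (mu ψ k X T).re = ∑ T ∈ S, (mu ψ k X T).re := by
    rw [hS]
  refine (le_of_eq ?_).trans (hfin.trans ?_)
  · convert hconv
  · have h3 : D ^ (3 / 4 + ε) = D ^ (ε / 2) * D ^ (3 / 4 + ε / 2) := by
      rw [← Real.rpow_add hDpos]
      congr 1
      ring
    rw [h3]
    have h4 : 0 ≤ E * D ^ (3 / 4 + ε / 2) := by positivity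
    calc ((n : ℝ) + 1) * (((n : ℝ) + 1) ^ m * 4 ^ m * E * (4 * D ^ (3 / 4 + ε / 2)))
        = (4 * ((n : ℝ) + 1) ^ (m + 1) * 4 ^ m) * (E * D ^ (3 / 4 + ε / 2)) := by ring
      _ ≤ D ^ (ε / 2) * (E * D ^ (3 / 4 + ε / 2)) := mul_le_mul_of_nonneg_right hgr h4
      _ = E * (D ^ (ε / 2) * D ^ (3 / 4 + ε / 2)) := by ring

end

end SRJ
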