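import Mathlib
import Pool.Agent.SRJ.StC
import Pool.Agent.SRJ.NSB

/-!
# SRJ: the sharper character bound for elements with a scalar power, all `q`

MP_5b5212_al, module NSC.
-/

set_option autoImplicit false

namespace SRJ

open RSF FL0 Polynomial Pool.Agent.Lib_helper13

noncomputable section

/-- Interpolation between two bounds. -/
lemma nsc_interp (m : ℕ) (hm : 1 ≤ m) (ε D μ N : ℝ) (hε : 0 < ε) (hD : 1 ≤ D) (hμ : 0 ≤ μ)
    (hN : 0 < N) (h1 : N * μ ≤ 16 * D) (h2 : μ ≤ D ^ (1 / 2 + ε / 2)) :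
    μ * N ^ (1 / (m : ℝ)) ≤ 16 * D ^ (1 / 2 + 1 / (2 * (m : ℝ)) + ε / 2) := by
  have hm1 : (1 : ℝ) ≤ m := by exact_mod_cast hm
  have hm0 : (0 : ℝ) < m := by linarith
  have hD0 : 0 < D := by linarith
  set a : ℝ := 1 / (m : ℝ) with ha
  have ha0 : 0 < a := by positivity
  have ha1 : a ≤ 1 := by
    rw [ha, div_le_one hm0]
    exact hm1
  rcases hμ.eq_or_lt with h0 | h0
  · rw [← h0, zero_mul]
    positivity
  have e1 : μ = μ ^ a * μ ^ (1 - a) := by
    rw [← Real.rpow_add h0, add_sub_cancel, Real.rpow_one]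
  have e2 : μ * N ^ a = (N * μ) ^ a * μ ^ (1 - a) := by
    rw [Real.mul_rpow hN.le hμ]
    nth_rewrite 1 [e1]
    ring
  have e3 : (N * μ) ^ a ≤ 16 * D ^ a := by
    calc (N * μ) ^ a ≤ (16 * D) ^ a := Real.rpow_le_rpow (by positivity) h1 ha0.le
      _ = 16 ^ a * D ^ a := Real.mul_rpow (by norm_num) hD0.le
      _ ≤ 16 * D ^ a := by
          refine mul_le_mul_of_nonneg_right ?_ (by positivity)
          calc (16 : ℝ) ^ a ≤ 16 ^ (1 : ℝ) :=
                Real.rpow_le_rpow_of_exponent_le (by norm_num) ha1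
            _ = 16 := Real.rpow_one 16
  have e4 : μ ^ (1 - a) ≤ D ^ ((1 / 2 + ε / 2) * (1 - a)) := by
    rw [Real.rpow_mul hD0.le]
    exact Real.rpow_le_rpow hμ h2 (by linarith)
  rw [e2]
  calc (N * μ) ^ a * μ ^ (1 - a) ≤ (16 * D ^ a) * D ^ ((1 / 2 + ε / 2) * (1 - a)) := by
        exact mul_le_mul e3 e4 (by positivity) (by positivity)
    _ = 16 * D ^ (a + (1 / 2 + ε / 2) * (1 - a)) := by
        rw [Real.rpow_add hD0]
        ring
    _ ≤ 16 * D ^ (1 / 2 + 1 / (2 * (m : ℝ)) + ε / 2) := by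
        refine mul_le_mul_of_nonneg_left ?_ (by norm_num)
        refine Real.rpow_le_rpow_of_exponent_le hD ?_
        have e5 : 1 / (2 * (m : ℝ)) = a / 2 := by
          rw [ha]
          field_simp
        rw [e5]
        nlinarith

open Classical in
theorem t_NSC : M_NSC := by
  intro hSTR hMUB hBIL hRKC hMRB hCTM m hm ε hε
  obtain ⟨r1, hr1⟩ := nsb_growth (m + 1) ε hε
  obtain ⟨r2, hr2⟩ := hMRB (ε / 2) (by positivity) (2 * m + 1)
  refine ⟨max (max r1 r2) 4, ?_⟩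
  intro n hn F _ _ _ X hX hX1 A ζ hA
  have hn1 : r1 ≤ n := le_trans (le_trans (le_max_left _ _) (le_max_left _ _)) hn
  have hn2 : r2 ≤ n := le_trans (le_trans (le_max_right _ _) (le_max_left _ _)) hn
  have hn4 : 4 ≤ n := le_trans (le_max_right _ _) hn
  obtain ⟨ψ, -, hψ, -⟩ := hSTR n F
  have hXc : IsChr X := hX.isChr
  obtain ⟨k, P, hkn, hnk, hkn2, hBD, hcnt⟩ := hCTM m hm n F A ζ hA
  have hXA : X A = X (P * A * P⁻¹) := (hXc.conj_eq P A).symm
  set A' : GL (Fin n) F := P * A * P⁻¹ with hA'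
  have hB := hBIL n F ψ hψ k X hXc A' hBD
  have hq : (2 : ℝ) ≤ Nat.card F := by
    have : 1 < Nat.card F := Finite.one_lt_card
    exact_mod_cast this
  set q : ℝ := (Nat.card F : ℝ) with hqdef
  have hq0 : 0 < q := by linarith
  set D : ℝ := (X 1).re with hD
  have hD2 : (2 : ℝ) ^ ((n : ℝ) / 2) / 4 ≤ D := nsb_deg hSTR n F X hX hX1
  have hD1 : 1 ≤ D := by
    refine le_trans ?_ hD2
    rw [le_div_iff₀ (by norm_num), one_mul]
    calc (4 : ℝ) = 2 ^ (2 : ℝ) := by norm_num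
      _ ≤ 2 ^ ((n : ℝ) / 2) := by
          apply Real.rpow_le_rpow_of_exponent_le (by norm_num)
          have : (4 : ℝ) ≤ n := by exact_mod_cast hn4
          linarith
  have hDpos : 0 < D := by linarith
  have hm0 : (0 : ℝ) < m := by exact_mod_cast hm
  set E : ℝ := ((cN (A : Matrix (Fin n) (Fin n) F) : ℝ) * q ^ (-((n : ℝ) ^ 2 / m))) ^ (1 / 4 : ℝ)
    with hE
  have hE0 : 0 ≤ E := by positivity
  set B : ℝ := 16 * D ^ (1 / 2 + 1 / (2 * (m : ℝ)) + ε / 2) with hBdef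
  have hB0 : 0 ≤ B := by positivity
  -- the bound for one multiplicity
  have hone : ∀ T ∈ cot n F k, (mu ψ k X T).re ≤
      B / q ^ (((T.rank : ℝ) * ((n : ℝ) - T.rank)) / m) := by
    intro T hTc
    have h1 := (hRKC n F ψ hψ k X hkn hXc T hTc).1
    have h2 := hr2 n hn2 F ψ hψ X hX hX1 k hkn (by omega) hkn2 T hTc
    have hμ : 0 ≤ (mu ψ k X T).re := by
      obtain ⟨j, hj⟩ := (hMUB n F ψ hψ k X hXc).1 T
      rw [hj, Complex.natCast_re]
      exact Nat.cast_nonneg j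
    have hrk : T.rank ≤ n := by
      have := Matrix.rank_le_width T
      exact this
    have hs : 0 < q ^ (((T.rank : ℝ) * ((n : ℝ) - T.rank)) / m) := by positivity
    rw [le_div_iff₀ hs]
    have hNpos : (0 : ℝ) < q ^ (T.rank * (n - T.rank)) := by positivity
    have h3 := nsc_interp m hm ε D (mu ψ k X T).re (q ^ (T.rank * (n - T.rank))) hε hD1 hμ hNpos
      h1 h2
    have h4 : (q ^ (T.rank * (n - T.rank))) ^ (1 / (m : ℝ)) =
        q ^ (((T.rank : ℝ) * ((n : ℝ) - T.rank)) / m) := by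
      rw [← Real.rpow_natCast, ← Real.rpow_mul hq0.le]
      congr 1
      push_cast [Nat.cast_sub hrk]
      ring
    rw [h4] at h3
    exact h3
  -- split by the rank
  set S : Finset (Matrix (Fin n) (Fin n) F) := (cot n F k).filter
    (fun T => (A' : Matrix (Fin n) (Fin n) F) * T = T * (A' : Matrix (Fin n) (Fin n) F)) with hS
  have hsplit : ∑ T ∈ S, (mu ψ k X T).re =
      ∑ R ∈ Finset.range (n + 1), ∑ T ∈ S.filter (fun T => T.rank = R), (mu ψ k X T).re := by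
    rw [Finset.sum_fiberwise_of_maps_to]
    intro T _
    rw [Finset.mem_range]
    have := Matrix.rank_le_width T
    omega
  have hrank : ∀ R ∈ Finset.range (n + 1),
      ∑ T ∈ S.filter (fun T => T.rank = R), (mu ψ k X T).re ≤
        ((n : ℝ) + 1) ^ m * 4 ^ m * E * B := by
    intro R hR
    have hc := hcnt R
    have hfil : S.filter (fun T => T.rank = R) = (cot n F k).filter (fun T =>
          ((P * A * P⁻¹ : GL (Fin n) F) : Matrix (Fin n) (Fin n) F) * T =
            T * ((P * A * P⁻¹ : GL (Fin n) F) : Matrix (Fin n) (Fin n) F) ∧ T.rank = R) := by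
      rw [hS, Finset.filter_filter]
    have h1 : ∑ T ∈ S.filter (fun T => T.rank = R), (mu ψ k X T).re ≤
        ∑ T ∈ S.filter (fun T => T.rank = R),
          B / q ^ (((R : ℝ) * ((n : ℝ) - R)) / m) := by
      apply Finset.sum_le_sum
      intro T hT'
      rw [Finset.mem_filter, hS, Finset.mem_filter] at hT'
      have := hone T hT'.1.1
      rw [hT'.2] at this
      exact this
    refine h1.trans ?_
    rw [Finset.sum_const, nsmul_eq_mul]
    have hcard : ((S.filter (fun T => T.rank = R)).card : ℝ) ≤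
        ((n : ℝ) + 1) ^ m * 4 ^ m * q ^ ((R : ℝ) * ((n : ℝ) - R) / m) * E := by
      rw [hfil]
      exact hc
    have hpos : 0 ≤ B / q ^ (((R : ℝ) * ((n : ℝ) - R)) / m) := by positivity
    refine (mul_le_mul_of_nonneg_right hcard hpos).trans (le_of_eq ?_)
    have hs : q ^ (((R : ℝ) * ((n : ℝ) - R)) / m) ≠ 0 := by positivity
    field_simp
  have hfin : ∑ T ∈ S, (mu ψ k X T).re ≤
      ((n : ℝ) + 1) * (((n : ℝ) + 1) ^ m * 4 ^ m * E * B) := by
    rw [hsplit]
    refine (Finset.sum_le_sum hrank).trans ?_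
    rw [Finset.sum_const, Finset.card_range, nsmul_eq_mul]
    push_cast
    exact le_rfl
  have hgr : 16 * ((n : ℝ) + 1) ^ (m + 1) * 4 ^ m ≤ D ^ (ε / 2) := by
    refine le_trans ?_ ((hr1 n hn1).trans (Real.rpow_le_rpow (by positivity) hD2 (by positivity)))
    have h5 : (1 : ℝ) ≤ (n : ℝ) + 1 := by
      have : (0 : ℝ) ≤ n := Nat.cast_nonneg n
      linarith
    calc 16 * ((n : ℝ) + 1) ^ (m + 1) * 4 ^ m
        = 4 * (((n : ℝ) + 1) ^ (m + 1) * 1) * 4 ^ (m + 1) := by ring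
      _ ≤ 4 * (((n : ℝ) + 1) ^ (m + 1) * ((n : ℝ) + 1)) * 4 ^ (m + 1) := by gcongr
      _ = 4 * ((n : ℝ) + 1) ^ (m + 1 + 1) * 4 ^ (m + 1) := by ring
  rw [hXA]
  refine hB.trans ?_
  have hconv : ∑ T ∈ (cot n F k).filter (fun T => (A' : Matrix (Fin n) (Fin n) F) * T = T * A'),
      (mu ψ k X T).re = ∑ T ∈ S, (mu ψ k X T).re := by
    rw [hS]
  refine (le_of_eq ?_).trans (hfin.trans ?_)
  · convert hconv
  · have h3 : D ^ (1 / 2 + 1 / (2 * (m : ℝ)) + ε) =
        D ^ (ε / 2) * D ^ (1 / 2 + 1 / (2 * (m : ℝ)) + ε / 2) := by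
      rw [← Real.rpow_add hDpos]
      congr 1
      ring
    rw [h3]
    have h4 : 0 ≤ E * D ^ (1 / 2 + 1 / (2 * (m : ℝ)) + ε / 2) := by positivity
    calc ((n : ℝ) + 1) * (((n : ℝ) + 1) ^ m * 4 ^ m * E * B)
        = (16 * ((n : ℝ) + 1) ^ (m + 1) * 4 ^ m) *
            (E * D ^ (1 / 2 + 1 / (2 * (m : ℝ)) + ε / 2)) := by
          rw [hBdef]
          ring
      _ ≤ D ^ (ε / 2) * (E * D ^ (1 / 2 + 1 / (2 * (m : ℝ)) + ε / 2)) :=
          mul_le_mul_of_nonneg_right hgr h4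
      _ = E * (D ^ (ε / 2) * D ^ (1 / 2 + 1 / (2 * (m : ℝ)) + ε / 2)) := by ring

end

end SRJ
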