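import Mathlib
import Pool.Agent.SRJ.StA

set_option autoImplicit false

namespace SRJ

open RSF FL0 Polynomial Pool.Agent.Lib_helper13

/-- the possible values of `Wt n F m` -/
def nux_vals : List ℕ → Set ℝ
  | [] => {0}
  | k :: m => (fun x : ℝ => (1 - 1 / (k : ℝ)) + x) '' nux_vals m ∪
      (fun x : ℝ => 1 / 4 + x) '' nux_vals m

lemma nux_vals_finite (m : List ℕ) : (nux_vals m).Finite := by
  induction m with
  | nil => exact Set.finite_singleton 0
  | cons k m ih => exact (ih.image _).union (ih.image _)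

lemma nux_mem (n : ℕ) (F : Type) (m : List ℕ) : Wt n F m ∈ nux_vals m := by
  classical
  induction m with
  | nil => simp [Wt, nux_vals]
  | cons k m ih =>
    have h : Wt n F (k :: m) = wt n F k + Wt n F m := by
      simp [Wt]
    rw [h]
    unfold wt
    split_ifs with hk
    · exact Or.inl ⟨_, ih, rfl⟩
    · exact Or.inr ⟨_, ih, rfl⟩

lemma nux_gap (S : Set ℝ) (hS : S.Finite) : ∃ s : ℝ, 0 < s ∧ ∀ v ∈ S, 1 < v → 1 + s ≤ v := by
  induction S, hS using Set.Finite.induction_on with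
  | empty => exact ⟨1, one_pos, fun v hv => by simp at hv⟩
  | @insert a S _ _ ih =>
    obtain ⟨s, hs, h⟩ := ih
    by_cases ha : 1 < a
    · refine ⟨min s (a - 1), lt_min hs (by linarith), fun v hv hv1 => ?_⟩
      rcases hv with rfl | hv
      · have := min_le_right s (v - 1)
        linarith
      · have := min_le_left s (a - 1)
        have := h v hv hv1
        linarith
    · refine ⟨s, hs, fun v hv hv1 => ?_⟩
      rcases hv with rfl | hv
      · exact absurd hv1 ha
      · exact h v hv hv1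

lemma nux_le_sum (f : ℕ → ℕ) (m : List ℕ) (k : ℕ) (hk : k ∈ m) : f k ≤ (m.map f).sum := by
  induction m with
  | nil => simp at hk
  | cons a m ih =>
    simp only [List.map_cons, List.sum_cons]
    rcases List.mem_cons.1 hk with rfl | h
    · omega
    · have := ih h
      omega

lemma nux_unif (m : List ℕ) (hm : ∀ k ∈ m, 2 ≤ k) (ε : ℝ) (hε : 0 < ε) (hA : S_SBA)
    (hS : S_SBS) : ∃ r : ℕ, ∀ n, r ≤ n → ∀ (F : Type) [Field F] [Finite F], ∀ k ∈ m,
      SB k (3 / 4 + ε) n F ∧ (Ord n F k → SB k (1 / (k : ℝ) + ε) n F) := by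
  have h1 : ∀ k : ℕ, ∃ r : ℕ, 2 ≤ k → ∀ n, r ≤ n → ∀ (F : Type) [Field F] [Finite F],
      SB k (3 / 4 + ε) n F ∧ (Ord n F k → SB k (1 / (k : ℝ) + ε) n F) := by
    intro k
    by_cases hk : 2 ≤ k
    · obtain ⟨r1, h1⟩ := hA k hk ε hε
      obtain ⟨r2, h2⟩ := hS k hk ε hε
      exact ⟨r1 + r2, fun _ n hn F _ _ => ⟨h1 n (by omega) F, h2 n (by omega) F⟩⟩
    · exact ⟨0, fun h => absurd h hk⟩
  choose f hf using h1
  refine ⟨(m.map f).sum, fun n hn F _ _ k hk => ?_⟩
  exact hf k (hm k hk) n (le_trans (nux_le_sum f m k hk) hn) F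

open Classical in
lemma nux_sum (n : ℕ) (F : Type) (ε : ℝ) (m : List ℕ) :
    (m.map fun k => 1 - (if Ord n F k then 1 / (k : ℝ) + ε else 3 / 4 + ε)).sum =
      Wt n F m - (m.length : ℝ) * ε := by
  induction m with
  | nil => simp [Wt]
  | cons k m ih =>
    have h : Wt n F (k :: m) = wt n F k + Wt n F m := by
      simp [Wt]
    rw [h, List.map_cons, List.sum_cons, ih, List.length_cons]
    have hw : (1 - (if Ord n F k then 1 / (k : ℝ) + ε else 3 / 4 + ε) : ℝ) = wt n F k - ε := by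
      unfold wt FL0.Ord
      split_ifs <;> ring
    rw [hw]
    push_cast
    ring

theorem t_NUX : M_NUX := by
  classical
  intro hA hS hL m hm
  obtain ⟨s₀, hs₀, hgap⟩ := nux_gap (nux_vals m) (nux_vals_finite m)
  have hd : (0 : ℝ) < (m.length : ℝ) + 1 := by positivity
  set ε : ℝ := s₀ / (2 * ((m.length : ℝ) + 1)) with hεd
  have hε : 0 < ε := by positivity
  obtain ⟨r1, h1⟩ := nux_unif m hm ε hε hA hS
  obtain ⟨c, r2, hc, hr2, h2⟩ := hL m (s₀ / 2) (by positivity)
  refine ⟨c, r1 + r2, hc, by omega, fun n hn F _ _ hW => ?_⟩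
  have hW' := hgap _ (nux_mem n F m) hW
  refine h2 n (by omega) F
    (fun k => if Ord n F k then 1 / (k : ℝ) + ε else 3 / 4 + ε) (fun k hk => ?_) ?_
  · have h3 := h1 n (by omega) F k hk
    by_cases hO : Ord n F k
    · simp only [if_pos hO]
      exact h3.2 hO
    · simp only [if_neg hO]
      exact h3.1
  · rw [nux_sum n F ε m]
    have h4 : (m.length : ℝ) * ε ≤ s₀ / 2 := by
      rw [hεd, ← mul_div_assoc, div_le_div_iff₀ (by positivity) (by norm_num)]
      nlinarith
    linarith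

end SRJ
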