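import Mathlib
import Pool.Agent.SRJ.StC

set_option autoImplicit false

namespace SRJ

open RSF FL0 Polynomial Pool.Agent.Lib_helper13

/-- the possible values of `Wu n F m` -/
def nuy_vals : List ℕ → Set ℝ
  | [] => {0}
  | k :: m => (fun x : ℝ => (1 - 1 / (k : ℝ)) + x) '' nuy_vals m ∪
      (fun x : ℝ => (1 - 1 / (k : ℝ)) / 2 + x) '' nuy_vals m

lemma nuy_vals_finite (m : List ℕ) : (nuy_vals m).Finite := by
  induction m with
  | nil => exact Set.finite_singleton 0
  | cons k m ih => exact (ih.image _).union (ih.image _)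

lemma nuy_mem (n : ℕ) (F : Type) (m : List ℕ) : Wu n F m ∈ nuy_vals m := by
  classical
  induction m with
  | nil => simp [Wu, nuy_vals]
  | cons k m ih =>
    have h : Wu n F (k :: m) = wu n F k + Wu n F m := by
      simp [Wu]
    rw [h]
    unfold wu
    split_ifs with hk
    · exact Or.inl ⟨_, ih, rfl⟩
    · exact Or.inr ⟨_, ih, rfl⟩

lemma nuy_gap (S : Set ℝ) (hS : S.Finite) : ∃ s : ℝ, 0 < s ∧ ∀ v ∈ S, 1 < v → 1 + s ≤ v := by
  induction S, hS using Set.Finite.induction_on with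
  | empty => exact ⟨1, one_pos, fun v hv => by simp at hv⟩
  | @insert a S _ _ ih =>
    obtain ⟨s, hs, h⟩ := ih
    by_cases ha : 1 < a
    · refine ⟨min s (a - 1), lt_min hs (by linarith), fun v hv hv1 => ?_⟩
      rcases hv with rfl | hv
      · have := min_le_right s (v - 1)
        linarith
      · have := min_le_left s (a - 1)
        have := h v hv hv1
        linarith
    · refine ⟨s, hs, fun v hv hv1 => ?_⟩
      rcases hv with rfl | hv
      · exact absurd hv1 ha
      · exact h v hv hv1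

lemma nuy_le_sum (f : ℕ → ℕ) (m : List ℕ) (k : ℕ) (hk : k ∈ m) : f k ≤ (m.map f).sum := by
  induction m with
  | nil => simp at hk
  | cons a m ih =>
    simp only [List.map_cons, List.sum_cons]
    rcases List.mem_cons.1 hk with rfl | h
    · omega
    · have := ih h
      omega

lemma nuy_unif (m : List ℕ) (hm : ∀ k ∈ m, 2 ≤ k) (ε : ℝ) (hε : 0 < ε) (hA : S_SBD)
    (hS : S_SBS) : ∃ r : ℕ, ∀ n, r ≤ n → ∀ (F : Type) [Field F] [Finite F], ∀ k ∈ m,
      SB k (1 / 2 + 1 / (2 * (k : ℝ)) + ε) n F ∧ (Ord n F k → SB k (1 / (k : ℝ) + ε) n F) := by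
  have h1 : ∀ k : ℕ, ∃ r : ℕ, 2 ≤ k → ∀ n, r ≤ n → ∀ (F : Type) [Field F] [Finite F],
      SB k (1 / 2 + 1 / (2 * (k : ℝ)) + ε) n F ∧ (Ord n F k → SB k (1 / (k : ℝ) + ε) n F) := by
    intro k
    by_cases hk : 2 ≤ k
    · obtain ⟨r1, h1⟩ := hA k hk ε hε
      obtain ⟨r2, h2⟩ := hS k hk ε hε
      exact ⟨r1 + r2, fun _ n hn F _ _ => ⟨h1 n (by omega) F, h2 n (by omega) F⟩⟩
    · exact ⟨0, fun h => absurd h hk⟩
  choose f hf using h1
  refine ⟨(m.map f).sum, fun n hn F _ _ k hk => ?_⟩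
  exact hf k (hm k hk) n (le_trans (nuy_le_sum f m k hk) hn) F

open Classical in
lemma nuy_sum (n : ℕ) (F : Type) (ε : ℝ) (m : List ℕ) :
    (m.map fun k => 1 - (if Ord n F k then 1 / (k : ℝ) + ε
        else 1 / 2 + 1 / (2 * (k : ℝ)) + ε)).sum =
      Wu n F m - (m.length : ℝ) * ε := by
  induction m with
  | nil => simp [Wu]
  | cons k m ih =>
    have h : Wu n F (k :: m) = wu n F k + Wu n F m := by
      simp [Wu]
    rw [h, List.map_cons, List.sum_cons, ih, List.length_cons]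
    have hw : (1 - (if Ord n F k then 1 / (k : ℝ) + ε
        else 1 / 2 + 1 / (2 * (k : ℝ)) + ε) : ℝ) = wu n F k - ε := by
      have h2 : 1 / (2 * (k : ℝ)) = 1 / (k : ℝ) / 2 := by
        rw [div_div, mul_comm]
      unfold wu FL0.Ord
      split_ifs
      · ring
      · rw [h2]
        ring
    rw [hw]
    push_cast
    ring

theorem t_NUY : M_NUY := by
  classical
  intro hA hS hL m hm
  obtain ⟨s₀, hs₀, hgap⟩ := nuy_gap (nuy_vals m) (nuy_vals_finite m)
  have hd : (0 : ℝ) < (m.length : ℝ) + 1 := by positivity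
  set ε : ℝ := s₀ / (2 * ((m.length : ℝ) + 1)) with hεd
  have hε : 0 < ε := by positivity
  obtain ⟨r1, h1⟩ := nuy_unif m hm ε hε hA hS
  obtain ⟨c, r2, hc, hr2, h2⟩ := hL m (s₀ / 2) (by positivity)
  refine ⟨c, r1 + r2, hc, by omega, fun n hn F _ _ hW => ?_⟩
  have hW' := hgap _ (nuy_mem n F m) hW
  refine h2 n (by omega) F
    (fun k => if Ord n F k then 1 / (k : ℝ) + ε else 1 / 2 + 1 / (2 * (k : ℝ)) + ε)
    (fun k hk => ?_) ?_
  · have h3 := h1 n (by omega) F k hk
    by_cases hO : Ord n F k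
    · simp only [if_pos hO]
      exact h3.2 hO
    · simp only [if_neg hO]
      exact h3.1
  · rw [nuy_sum n F ε m]
    have h4 : (m.length : ℝ) * ε ≤ s₀ / 2 := by
      rw [hεd, ← mul_div_assoc, div_le_div_iff₀ (by positivity) (by norm_num)]
      nlinarith
    linarith

end SRJ
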