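import Mathlib
import Pool.Agent.SRJ.StC
import Pool.Agent.SRJ.SBA

/-!
# SRJ_SBD: the sharper character bound summed over the elements with central power, all `q`
-/

set_option autoImplicit false

namespace SRJ

open RSF FL0 Polynomial Pool.Agent.Lib_helper13

noncomputable section

theorem t_SBD : M_SBD := by
  intro hSTR hNSC hCLQ hPOL k hk ε hε
  obtain ⟨r1, h1⟩ := hNSC k (by omega) (ε / 2) (by positivity)
  obtain ⟨C, hC, h2⟩ := hCLQ k (by omega)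
  obtain ⟨r3, h3⟩ := sba_num hPOL k C ε hC hε
  refine ⟨max (max r1 r3) 1, fun n hn F _ _ X hX hX1 => ?_⟩
  classical
  haveI := Fintype.ofFinite F
  have hn1 : r1 ≤ n := le_trans (le_trans (le_max_left _ _) (le_max_left _ _)) hn
  have hn3 : r3 ≤ n := le_trans (le_trans (le_max_right _ _) (le_max_left _ _)) hn
  have hn0 : 1 ≤ n := le_trans (le_max_right _ _) hn
  have hdeg := sba_deg hSTR n F X hX hX1
  have hq : (2 : ℝ) ≤ Nat.card F := by
    have : 1 < Nat.card F := Finite.one_lt_card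
    exact_mod_cast this
  have hD0 : 0 < (X 1).re := by
    have : 0 < (Nat.card F : ℝ) ^ ((n : ℝ) / 2) := by positivity
    linarith
  have key := h3 n hn3 (Nat.card F) (X 1).re hq hdeg
  have hcl := h2 n hn0 F
  haveI := Fintype.ofFinite (CA n F k)
  rw [finsum_eq_sum_of_fintype] at hcl ⊢
  have hA : ∀ A : CA n F k, ‖X (Matrix.SpecialLinearGroup.toGL A.1)‖ ≤
      ((cN A.1.1 : ℝ) * (Nat.card F : ℝ) ^ (-((n : ℝ) ^ 2 / k))) ^ (1 / 4 : ℝ) *
        (X 1).re ^ (1 / 2 + 1 / (2 * (k : ℝ)) + ε / 2) := by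
    intro A
    obtain ⟨ζ, _, hζ⟩ := Matrix.SpecialLinearGroup.mem_center_iff.mp A.2
    have h4 : ((Matrix.SpecialLinearGroup.toGL A.1 : GL (Fin n) F) : Matrix (Fin n) (Fin n) F) =
        A.1.1 := rfl
    have h5 := h1 n hn1 F X hX hX1 (Matrix.SpecialLinearGroup.toGL A.1) ζ (by
      rw [h4, hζ]
      simp)
    rw [h4] at h5
    exact h5
  calc ‖∑ A : CA n F k, X (Matrix.SpecialLinearGroup.toGL A.1)‖
      ≤ ∑ A : CA n F k, ‖X (Matrix.SpecialLinearGroup.toGL A.1)‖ := norm_sum_le _ _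
    _ ≤ ∑ A : CA n F k, ((cN A.1.1 : ℝ) * (Nat.card F : ℝ) ^ (-((n : ℝ) ^ 2 / k))) ^ (1 / 4 : ℝ) *
        (X 1).re ^ (1 / 2 + 1 / (2 * (k : ℝ)) + ε / 2) := Finset.sum_le_sum fun A _ => hA A
    _ = (∑ A : CA n F k, ((cN A.1.1 : ℝ) * (Nat.card F : ℝ) ^ (-((n : ℝ) ^ 2 / k))) ^ (1 / 4 : ℝ)) *
        (X 1).re ^ (1 / 2 + 1 / (2 * (k : ℝ)) + ε / 2) := by rw [Finset.sum_mul]
    _ ≤ (((n : ℝ) + 1) ^ k * (Nat.card F : ℝ) ^ C * Nat.card (CA n F k)) *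
        (X 1).re ^ (1 / 2 + 1 / (2 * (k : ℝ)) + ε / 2) := by gcongr
    _ ≤ ((X 1).re ^ (ε / 2) * Nat.card (CA n F k)) * (X 1).re ^ (1 / 2 + 1 / (2 * (k : ℝ)) + ε / 2) := by gcongr
    _ = Nat.card (CA n F k) * ((X 1).re ^ (1 / 2 + 1 / (2 * (k : ℝ)) + ε / 2) * (X 1).re ^ (ε / 2)) := by ring
    _ = Nat.card (CA n F k) * (X 1).re ^ (1 / 2 + 1 / (2 * (k : ℝ)) + ε) := by
        rw [← Real.rpow_add hD0]
        congr 2
        ring

end

end SRJ
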