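import Mathlib
import Pool.Agent.SRJ.StB

/-!
# SRJ, module STS: a matrix with irreducible characteristic polynomial is multiplication in a field
-/

set_option autoImplicit false

namespace SRJ

open Polynomial

noncomputable section

variable {n : ℕ} {F : Type} [Field F]

/-- evaluation at `A` on `F[X]/(charpoly A)` -/
def sts_ev (A : Matrix (Fin n) (Fin n) F) :
    AdjoinRoot A.charpoly →+* Matrix (Fin n) (Fin n) F :=
  Ideal.Quotient.lift (Ideal.span {A.charpoly}) (aeval A).toRingHom (by
    intro p hp
    obtain ⟨r, rfl⟩ := Ideal.mem_span_singleton.1 hp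
    change aeval A (A.charpoly * r) = 0
    rw [map_mul, Matrix.aeval_self_charpoly, zero_mul])

lemma sts_ev_mk (A : Matrix (Fin n) (Fin n) F) (p : F[X]) :
    sts_ev A (AdjoinRoot.mk A.charpoly p) = aeval A p := rfl

lemma sts_ev_root (A : Matrix (Fin n) (Fin n) F) :
    sts_ev A (AdjoinRoot.root A.charpoly) = A := by
  change sts_ev A (AdjoinRoot.mk A.charpoly X) = A
  rw [sts_ev_mk, aeval_X]

/-- `p ↦ p(A) v` -/
def sts_lin (A : Matrix (Fin n) (Fin n) F) (v : Fin n → F) :
    AdjoinRoot A.charpoly →ₗ[F] (Fin n → F) where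
  toFun p := (sts_ev A p).mulVec v
  map_add' p q := by rw [map_add, Matrix.add_mulVec]
  map_smul' c p := by
    induction p using AdjoinRoot.induction_on with
    | ih q =>
      rw [AdjoinRoot.smul_mk, sts_ev_mk, sts_ev_mk, map_smul, Matrix.smul_mulVec]
      rfl

theorem t_STS : S_STS := by
  intro n F _ _ y hn hy
  obtain ⟨hirr, hord⟩ := hy
  have : Fact (Irreducible y.1.charpoly) := ⟨hirr⟩
  have hfin : Module.Finite F (AdjoinRoot y.1.charpoly) :=
    (Matrix.charpoly_monic y.1).finite_adjoinRoot
  have hrank : Module.finrank F (AdjoinRoot y.1.charpoly) = n := by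
    rw [(AdjoinRoot.powerBasis hirr.ne_zero).finrank, AdjoinRoot.powerBasis_dim,
      Matrix.charpoly_natDegree_eq_dim, Fintype.card_fin]
  -- a nonzero vector
  set v : Fin n → F := fun _ => 1 with hv
  have hv0 : v ≠ 0 := by
    intro h
    have := congrFun h ⟨0, hn⟩
    simp [hv] at this
  have hinj : Function.Injective (sts_lin y.1 v) := by
    rw [injective_iff_map_eq_zero]
    intro p hp
    by_contra hp0
    apply hv0
    have h1 : (sts_ev y.1 (p⁻¹ * p)).mulVec v = v := by
      rw [inv_mul_cancel₀ hp0, map_one, Matrix.one_mulVec]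
    rw [map_mul, ← Matrix.mulVec_mulVec] at h1
    have h2 : (sts_ev y.1 p).mulVec v = 0 := hp
    rw [h2, Matrix.mulVec_zero] at h1
    exact h1.symm
  have hsurj : Function.Surjective (sts_lin y.1 v) := by
    refine (LinearMap.injective_iff_surjective_of_finrank_eq_finrank ?_).1 hinj
    rw [hrank, Module.finrank_fin_fun]
  have hmul : ∀ p, sts_lin y.1 v (AdjoinRoot.root y.1.charpoly * p) =
      y.1.mulVec (sts_lin y.1 v p) := by
    intro p
    change (sts_ev y.1 (AdjoinRoot.root y.1.charpoly * p)).mulVec v =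
      y.1.mulVec ((sts_ev y.1 p).mulVec v)
    rw [map_mul, sts_ev_root, Matrix.mulVec_mulVec]
  let E : AdjoinRoot y.1.charpoly ≃ₗ[F] (Fin n → F) :=
    LinearEquiv.ofBijective (sts_lin y.1 v) ⟨hinj, hsurj⟩
  refine ⟨AdjoinRoot y.1.charpoly, inferInstance, inferInstance, Module.finite_of_finite F,
    AdjoinRoot.root y.1.charpoly, E.symm, hrank, ?_, ?_⟩
  · rw [← hord]
    have hevinj : Function.Injective (sts_ev y.1) := by
      have : Nontrivial (Matrix (Fin n) (Fin n) F) := by
        have : Nonempty (Fin n) := ⟨⟨0, hn⟩⟩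
        infer_instance
      exact (sts_ev y.1).injective
    apply orderOf_eq_orderOf_iff.2
    intro k
    constructor
    · intro h
      have h1 := congrArg (sts_ev y.1) h
      rw [map_pow, sts_ev_root, map_one] at h1
      apply Subtype.ext
      rw [Matrix.SpecialLinearGroup.coe_pow, h1, Matrix.SpecialLinearGroup.coe_one]
    · intro h
      apply hevinj
      rw [map_pow, sts_ev_root, map_one, ← Matrix.SpecialLinearGroup.coe_pow, h,
        Matrix.SpecialLinearGroup.coe_one]
  · intro w
    apply E.injective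
    refine (E.apply_symm_apply _).trans ?_
    have h1 : E (AdjoinRoot.root y.1.charpoly * E.symm w) = y.1.mulVec (E (E.symm w)) :=
      hmul (E.symm w)
    exact (h1.trans (congrArg (fun u => y.1.mulVec u) (E.apply_symm_apply w))).symm

end

end SRJ
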